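import Pool.Agent.MP_3bf126_pr.H21.Expo

/-! Soundness of the accumulation of jump measures. -/

namespace Pool.Agent.MP_3bf126_pr.H21
open Filter Finset K
noncomputable section

variable {cx : Cx}

namespace AccuAux

lemma fN_eq' {β : Type} (n : ℕ) (k : ℕ → β) : fN n k = k n := (fN_eq n k).trans (Eq.refl _)

lemma fi_nonneg (E y : ℕ) : 0 ≤ fi E y := by
  unfold fi
  positivity

lemma fi_le {E : ℕ} (hE : 0 < E) (y : ℕ) : fi E y ≤ 1 := by
  unfold fi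
  have h0 : (0 : ℝ) < E := by exact_mod_cast hE
  rw [div_le_one h0]
  exact_mod_cast (Nat.mod_lt y hE).le

lemma lam_nil (E : ℕ) (g : ℕ → ℕ) : lamOf E g [] = 0 := rfl

lemma lam_cons (E : ℕ) (g : ℕ → ℕ) (p : ℕ × ℕ) (l : List (ℕ × ℕ)) :
    lamOf E g (p :: l) = (p.2 : ℝ) • ptp (ki E (g p.1)) (fi E (g p.1)) + lamOf E g l := by
  unfold lamOf
  rw [List.map_cons, List.sum_cons]

lemma ev_pt' (k : ℤ) (c : ℝ) (H : ℤ → ℝ) :
    ev (pt k c) H = ev (sg k c) fun j => if j = 0 then 0 else H j := by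
  unfold pt
  rw [ev_sg]
  split_ifs
  · rw [ev_zero, mul_zero]
  · exact ev_sg k c H

lemma sub_ge (a b : ℕ) : (a : ℝ) - b ≤ ((a - b : ℕ) : ℝ) := by
  have : a ≤ a - b + b := le_tsub_add
  have h : (a : ℝ) ≤ ((a - b : ℕ) : ℝ) + b := by exact_mod_cast this
  linarith

lemma sub_sub (a b : ℕ) : ((a - b : ℕ) : ℝ) - ((b - a : ℕ) : ℝ) = a - b := by
  rcases le_total a b with h | h
  · rw [Nat.sub_eq_zero_of_le h, Nat.cast_sub h]
    push_cast
    ring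
  · rw [Nat.sub_eq_zero_of_le h, Nat.cast_sub h]
    push_cast
    ring

/-- the state of the accumulation -/
def Acc (E k0 : ℕ) (s : ℕ × ℕ) (Λ : A) : Prop :=
  ∃ F, Rx (1 / E) s.1 ((k0 : ℤ) - 2 ^ 30) F ∧ mass F = s.2 ∧
    ∀ H, ev Λ H = ev F fun j => if j = 0 then 0 else H j

lemma acc_zero (E k0 : ℕ) : Acc E k0 (0, 0) 0 :=
  ⟨0, rx_zero _ _, (ev_zero _).trans Nat.cast_zero.symm, fun _ => (ev_zero _).trans (ev_zero _).symm⟩

lemma acc_one {E k0 v sw : ℕ} (hE : 0 < E) {Λ : A} (h : Acc E k0 (v, sw) Λ) {y : ℕ} (hy : k0 * E ≤ y)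
    (w : ℕ) : Acc E k0 (v + w * (E - y % E + y % E * 2 ^ 192) * 2 ^ (192 * (y / E - k0)), sw + w)
      (Λ + (w : ℝ) • ptp (ki E y) (fi E y)) := by
  obtain ⟨F, h1, h2, h3⟩ := h
  have hk : k0 ≤ y / E := (Nat.le_div_iff_mul_le hE).2 hy
  have h4 := ((rx_spl hE (Nat.mod_lt y hE).le (ki E y)).nat w).shl (y / E - k0)
  have e : ki E y - ((y / E - k0 : ℕ) : ℤ) = (k0 : ℤ) - 2 ^ 30 := by
    unfold ki
    rw [Nat.cast_sub hk]
    ring
  rw [e] at h4
  refine ⟨_, h1.add h4, ?_, fun H => ?_⟩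
  · unfold mass at h2 ⊢
    rw [ev_add, h2, ev_smul, spl, ev_add, ev_sg, ev_sg]
    push_cast
    ring
  · rw [ev_add, ev_add, h3, ev_smul, ev_smul, ptp, spl, ev_add, ev_add, ev_pt', ev_pt']
    rfl

lemma acc_pts {E k0 : ℕ} (hE : 0 < E) (g : ℕ → ℕ) (l : List (ℕ × ℕ)) :
    ∀ (s : ℕ × ℕ) (Λ : A), Acc E k0 s Λ →
      Acc E k0 (accP E k0 (k0 * E) g l s) (Λ + lamOf E (fun m => max (g m) (k0 * E)) l) := by
  induction l with
  | nil =>
    intro s Λ h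
    rw [lam_nil, add_zero]
    exact h
  | cons p l ih =>
    rintro ⟨v, sw⟩ Λ h
    obtain ⟨x, w⟩ := p
    have h1 := ih _ _ (acc_one hE h (le_max_right (g x) (k0 * E)) w)
    rw [lam_cons, ← add_assoc]
    have e : accP E k0 (k0 * E) g ((x, w) :: l) (v, sw) = accP E k0 (k0 * E) g l
        (Nat.add v (Nat.shiftLeft (Nat.mul w (Nat.add (Nat.sub E (Nat.mod (mx (g x) (k0 * E)) E))
          (Nat.shiftLeft (Nat.mod (mx (g x) (k0 * E)) E) 192)))
          (Nat.mul 192 (Nat.sub (Nat.div (mx (g x) (k0 * E)) E) k0))), Nat.add sw w) := rfl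
    rw [e, mx_eq, n_shl, n_shl]
    exact h1

lemma acc_bks {E k0 : ℕ} (hE : 0 < E) (g : ℕ → ℕ) (l : List Bk) :
    ∀ (s : ℕ × ℕ) (Λ : A), Acc E k0 s Λ →
      Acc E k0 (List.rec (motive := fun _ => Nat × Nat → Nat × Nat) (fun s => s)
        (fun b _ ih s => ih (accP E k0 (k0 * E) g b.pts s)) l s)
        (Λ + (l.map fun b => lamOf E (fun m => max (g m) (k0 * E)) b.pts).sum) := by
  induction l with
  | nil =>
    intro s Λ h
    rw [List.map_nil, List.sum_nil, add_zero]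
    exact h
  | cons b l ih =>
    intro s Λ h
    rw [List.map_cons, List.sum_cons, ← add_assoc]
    exact ih _ _ (acc_pts hE g b.pts s Λ h)

lemma lit1 : nat_lit 6277101735386680763835789423207666416102355444464034512895 = 2 ^ 192 - 1 := by
  norm_num

lemma lit2 : nat_lit 3138550867693340381917894711603833208051177722232017256448 = 2 ^ 191 := by
  norm_num

/-- the moments read from the suffix sums -/
lemma moments {E k0 n v lp ln m0 s1 q B : ℕ} (hB : B = 2 ^ 30 + 1) (hE : 0 < E) {Λ : A}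
    (h : Rx (1 / E) v ((k0 : ℤ) - 2 ^ 30) Λ) (hn0 : 0 < n)
    (hm : mass Λ * (n : ℝ) ^ 2 < 1 / E * 2 ^ 191) (hn : v / 2 ^ (192 * n) = 0)
    (hp : lp = B - k0) (hl : ln = k0 - B) (h0 : m0 = v % (2 ^ 192 - 1))
    (h1 : s1 = sfx v n % (2 ^ 192 - 1)) (h2 : q = sfx (sfx v n) n % (2 ^ 192 - 1)) :
    AcOK E ⟨k0, n, v, m0, s1 + ln * m0 - lp * m0, lp * m0 - (s1 + ln * m0),
      2 * q + (lp + ln) * (lp + ln) * m0 + 2 * ln * s1 - (2 * lp + 1) * s1⟩ Λ := by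
  have E0 : (0 : ℝ) < E := by exact_mod_cast hE
  have s0 : (0 : ℝ) < 1 / E := by positivity
  obtain ⟨-, -, a0, -, a1, -, a2⟩ := h.look s0 hn0 hm hn
  rw [← h0] at a0
  rw [← h1] at a1
  rw [← h2] at a2
  have c1 : (((k0 : ℤ) - 2 ^ 30 : ℤ) : ℝ) - 1 = (ln : ℝ) - lp := by
    rw [hp, hl, sub_sub, hB]
    push_cast
    ring
  have c2 : (lp : ℝ) * ln = 0 := by
    have : lp * ln = 0 := by
      rcases le_total k0 B with e | e
      · rw [hl, Nat.sub_eq_zero_of_le e, mul_zero]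
      · rw [hp, Nat.sub_eq_zero_of_le e, zero_mul]
    exact_mod_cast this
  rw [c1] at a1 a2
  generalize hc : (ln : ℝ) - lp = c at a1 a2
  have b1 : ev Λ (fun j => (j : ℝ) - c) = m1 Λ - c * mass Λ := by
    have : (fun j : ℤ => (j : ℝ) - c) = fun j : ℤ => (j : ℝ) + -c := by
      funext j
      ring
    rw [this, ev_add_fun, ev_const, m1]
    ring
  have b2 : ev Λ (fun j => ((j : ℝ) - c) ^ 2 + ((j : ℝ) - c)) =
      m2 Λ - 2 * c * m1 Λ + c ^ 2 * mass Λ + (m1 Λ - c * mass Λ) := by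
    rw [ev_add_fun, b1]
    have := ev_sq Λ (-c)
    simp only [← sub_eq_add_neg] at this
    rw [this]
    ring
  rw [b1] at a1
  rw [b2] at a2
  refine ⟨h.pos s0.le, h.rp, ?_, ?_, ?_⟩
  · rw [a0]
    exact le_of_eq (by ring)
  · show m1 Λ = (((s1 + ln * m0 - lp * m0 : ℕ) : ℝ) - ((lp * m0 - (s1 + ln * m0) : ℕ) : ℝ)) / E
    rw [sub_sub]
    push_cast
    rw [a0, ← hc] at a1
    linear_combination a1
  · show m2 Λ ≤ ((2 * q + (lp + ln) * (lp + ln) * m0 + 2 * ln * s1 - (2 * lp + 1) * s1 : ℕ) : ℝ) / E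
    refine le_trans (le_of_eq ?_) (div_le_div_of_nonneg_right (sub_ge _ _) E0.le)
    push_cast
    rw [a0, ← hc] at a1 a2
    linear_combination a2 + (2 * ((ln : ℝ) - lp) - 1) * a1 - 4 * (1 / (E : ℝ)) * m0 * c2

theorem mkA_spec {E k0 k1 : ℕ} (hE : 0 < E) {s : ℕ × ℕ} {Λ : A} (hs : Acc E k0 s Λ) {k : Ac → Bool}
    (h : mkA false E k0 k1 s k = true) : ∃ t, AcOK E t Λ ∧ k t = true := by
  obtain ⟨v, sw⟩ := s
  obtain ⟨F, h1, h2, h3⟩ := hs
  have E0 : (0 : ℝ) < E := by exact_mod_cast hE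
  have s0 : (0 : ℝ) < 1 / E := by positivity
  unfold mkA at h
  generalize hB : nat_lit 1073741825 = B at h
  have hB : B = 2 ^ 30 + 1 := by
    rw [← hB]
    norm_num
  simp only [fN_eq'] at h
  obtain ⟨hc, h⟩ := cond_false h
  generalize Nat.sub (Nat.add k1 (nat_lit 2)) k0 = n at hc h
  rw [Bool.and_eq_true, Bool.and_eq_true, lit2, n_shr] at hc
  obtain ⟨c1, c2, c3⟩ := hc
  have c1 : E * sw * (n * n) < 2 ^ 191 := Nat.blt_eq.mp c1
  have c2 : v / 2 ^ (192 * n) = 0 := Nat.eq_of_beq_eq_true c2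
  have c3 : 0 < n := Nat.blt_eq.mp c3
  have m1 : mass F * (n : ℝ) ^ 2 < 1 / E * 2 ^ 191 := by
    have : (E : ℝ) * sw * (n * n) < 2 ^ 191 := by exact_mod_cast c1
    rw [h2, one_div_mul_eq_div, lt_div_iff₀ E0]
    linarith
  have pF : Pos F := h1.pos s0.le
  have m2 : mass F < 1 / E * 2 ^ 192 := by
    have n1 : (1 : ℝ) ≤ n := by exact_mod_cast c3
    have : mass F * 1 ≤ mass F * (n : ℝ) ^ 2 :=
      mul_le_mul_of_nonneg_left (one_le_pow₀ n1) pF.mass_nonneg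
    have h4 : 1 / (E : ℝ) * 2 ^ 191 ≤ 1 / E * 2 ^ 192 :=
      mul_le_mul_of_nonneg_left (pow_le_pow_right₀ one_le_two (by norm_num)) s0.le
    linarith
  have m3 : mass Λ * (n : ℝ) ^ 2 < 1 / E * 2 ^ 191 := by
    refine lt_of_le_of_lt (mul_le_mul_of_nonneg_right ?_ (sq_nonneg _)) m1
    unfold mass
    rw [h3]
    refine pF.mono fun j => ?_
    split_ifs
    · exact zero_le_one
    · exact le_rfl
  generalize hp : Nat.sub B k0 = lp at h
  generalize hl : Nat.sub k0 B = ln at h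
  have hp : lp = B - k0 := hp.symm
  have hl : ln = k0 - B := hl.symm
  generalize hv : cond (Nat.beq lp (nat_lit 0)) v (Nat.sub v (Nat.shiftLeft (dig v (Nat.sub lp (nat_lit 1)))
    (Nat.mul (nat_lit 192) (Nat.sub lp (nat_lit 1))))) = v' at h
  have key : Rx (1 / E) v' ((k0 : ℤ) - 2 ^ 30) Λ ∧ v' ≤ v := by
    cases e : Nat.beq lp (nat_lit 0)
    · rw [e, n_shl] at hv
      have l0 : lp ≠ 0 := Nat.ne_of_beq_eq_false e
      have hv : v - dig v (lp - 1) * 2 ^ (192 * (lp - 1)) = v' := hv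
      rw [← hv]
      refine ⟨h1.drop s0 m2 (lp - 1) fun H => ?_, Nat.sub_le _ _⟩
      have : (k0 : ℤ) - 2 ^ 30 + ((lp - 1 : ℕ) : ℤ) = 0 := by omega
      rw [this]
      exact h3 H
    · rw [e] at hv
      have l0 : lp = 0 := Nat.eq_of_beq_eq_true e
      have hv : v = v' := hv
      rw [← hv]
      obtain ⟨t, m, e1, e2⟩ := h1
      refine ⟨⟨t, m, e1, fun H => ?_⟩, le_rfl⟩
      rw [h3, e2]
      congr 1
      refine Finset.sum_congr rfl fun j _ => ?_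
      rw [if_neg (by omega)]
  have c4 : v' / 2 ^ (192 * n) = 0 :=
    Nat.eq_zero_of_le_zero (c2 ▸ Nat.div_le_div_right key.2)
  rw [lit1] at h
  simp only [n_add, n_sub, n_mul, n_mod] at h
  exact ⟨_, moments hB hE key.1 c3 m3 c4 hp hl rfl rfl rfl, h⟩

end AccuAux

open AccuAux

lemma lamOf_pos {E : ℕ} (hE : 0 < E) (g : ℕ → ℕ) (l : List (ℕ × ℕ)) : Pos (lamOf E g l) := by
  induction l with
  | nil => exact pos_zero
  | cons p l ih =>
    rw [lam_cons]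
    exact (Pos.smul (Nat.cast_nonneg _)
      ((pos_pt _ (sub_nonneg.2 (fi_le hE _))).add (pos_pt _ (fi_nonneg _ _)))).add ih

lemma lamOf_np {E : ℕ} (hE : 0 < E) {g : ℕ → ℕ} (hg : ∀ m, g m ≤ 2 ^ 30 * E) (l : List (ℕ × ℕ)) : NP (lamOf E g l) := by
  induction l with
  | nil => exact np_zero
  | cons p l ih =>
    rw [lam_cons]
    refine (NP.smul _ ?_).add ih
    have h1 : g p.1 / E ≤ 2 ^ 30 := Nat.div_le_of_le_mul (by rw [mul_comm]; exact hg _)
    refine (np_pt (by unfold ki; omega) _).add ?_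
    rcases (hg p.1).lt_or_eq with h | h
    · have h2 : g p.1 / E < 2 ^ 30 := (Nat.div_lt_iff_lt_mul hE).2 h
      exact np_pt (by unfold ki; omega) _
    · intro H _
      rw [ev_pt', ev_sg, fi, h, Nat.mul_mod_left, Nat.cast_zero, zero_div, zero_mul]

lemma lamOf_nn {E : ℕ} (hE : 0 < E) {g : ℕ → ℕ} (hg : ∀ m, 2 ^ 30 * E ≤ g m) (l : List (ℕ × ℕ)) : NN (lamOf E g l) := by
  induction l with
  | nil => exact nn_zero
  | cons p l ih =>
    rw [lam_cons]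
    have h1 : 2 ^ 30 ≤ g p.1 / E := (Nat.le_div_iff_mul_le hE).2 (hg _)
    exact (NN.smul _ ((nn_pt (by unfold ki; omega) _).add (nn_pt (by unfold ki; omega) _))).add ih

lemma Rd.max {E : ℕ} {α γ : ℝ} {g : ℕ → ℕ} (h : Rd E α γ g) (lo : ℕ) : Rd E α γ fun m => max (g m) lo := by
  intro m t h1 h2
  refine (h m t h1 h2).trans (div_le_div_of_nonneg_right (sub_le_sub_right ?_ _) (by positivity))
  exact_mod_cast le_max_left (g m) lo

lemma rd_P (E : ℕ) : Rd E 1 (-1) fun m => Nat.sub (Nat.add (2 ^ 30 * E) (nat_lit 1099511627776)) m := by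
  intro m t h1 _
  have h := sub_ge (2 ^ 30 * E + 1099511627776) m
  show _ ≤ (((2 ^ 30 * E + 1099511627776 - m : ℕ) : ℝ) - 2 ^ 30 * E) / 2 ^ 40
  generalize ((2 ^ 30 * E + 1099511627776 - m : ℕ) : ℝ) = x at h ⊢
  push_cast at h
  rw [le_div_iff₀ (by positivity)]
  linarith

lemma rd_R (E : ℕ) : Rd E 0 (-1) fun m => Nat.sub (2 ^ 30 * E) m := by
  intro m t h1 _
  have h := sub_ge (2 ^ 30 * E) m
  show _ ≤ (((2 ^ 30 * E - m : ℕ) : ℝ) - 2 ^ 30 * E) / 2 ^ 40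
  generalize ((2 ^ 30 * E - m : ℕ) : ℝ) = x at h ⊢
  push_cast at h
  rw [le_div_iff₀ (by positivity)]
  linarith

lemma rd_F (E : ℕ) : Rd E 0 1 fun m => Nat.add (Nat.add (2 ^ 30 * E) m) (nat_lit 1) := by
  intro m t _ h2
  show _ ≤ (((2 ^ 30 * E + m + 1 : ℕ) : ℝ) - 2 ^ 30 * E) / 2 ^ 40
  rw [le_div_iff₀ (by positivity)]
  push_cast
  linarith

lemma rd_N (E : ℕ) : Rd E (-1) 1 fun m =>
    Nat.sub (Nat.add (Nat.add (2 ^ 30 * E) m) (nat_lit 1)) (nat_lit 1099511627776) := by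
  intro m t _ h2
  generalize hB : nat_lit 1099511627776 = B
  have hB : (B : ℝ) = 2 ^ 40 := by
    rw [← hB]
    norm_num
  have h := sub_ge (2 ^ 30 * E + m + 1) B
  show _ ≤ (((2 ^ 30 * E + m + 1 - B : ℕ) : ℝ) - 2 ^ 30 * E) / 2 ^ 40
  generalize ((2 ^ 30 * E + m + 1 - B : ℕ) : ℝ) = x at h ⊢
  push_cast at h
  rw [le_div_iff₀ (by positivity)]
  linarith

theorem accB_spec {E y0 y1 : ℕ} (hE : 0 < E) {g : ℕ → ℕ} {l : List Bk} {k : Ac → Bool}
    (h : accB false E y0 y1 g l k = true) :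
    ∃ s, AcOK E s (l.map fun b => lamOf E (fun m => max (g m) (y0 / E * E)) b.pts).sum ∧ k s = true := by
  have h1 := acc_bks (k0 := y0 / E) hE g l _ _ (acc_zero E (y0 / E))
  rw [zero_add] at h1
  unfold accB at h
  simp only [fN_eq'] at h
  exact mkA_spec hE h1 h

theorem expB_spec (hc : CxOK cx) {mu : ℕ} {g : ℕ → ℕ} {b : Bk} {k : Tb → Bool}
    (h : expB false cx mu g b k = true) :
    ∃ lo t, SPT cx t (((mu : ℝ) / 2 ^ 37) • lamOf cx.E (fun m => max (g m) lo) b.pts) ∧ k t = true := by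
  unfold expB at h
  simp only [fN_eq'] at h
  generalize mn (Nat.div (g b.f0) cx.E) (Nat.div (g b.f1) cx.E) = kl at h
  have h1 := acc_pts (k0 := kl) hc.E0 g b.pts _ _ (acc_zero cx.E kl)
  rw [zero_add] at h1
  obtain ⟨s, h2, h3⟩ := mkA_spec hc.E0 h1 h
  obtain ⟨t, h4, -, h5⟩ := expo_spec hc h2 h3
  exact ⟨_, t, h4, h5⟩

end
end Pool.Agent.MP_3bf126_pr.H21
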