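import Pool.Agent.MP_3bf126_pr.H21.Defs

/-! Order and moments in the convolution algebra. -/

namespace Pool.Agent.MP_3bf126_pr.H21
open Set Filter
noncomputable section

lemma ev_add (f g : A) (h : ℤ → ℝ) : ev (f + g) h = ev f h + ev g h := by
  unfold ev
  rw [AddMonoidAlgebra.coeff_add, Finsupp.sum_add_index'] <;> simp [add_mul]
lemma ev_sub (f g : A) (h : ℤ → ℝ) : ev (f - g) h = ev f h - ev g h := by
  have := ev_add (f - g) g h
  rw [sub_add_cancel] at this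
  linarith
lemma ev_smul (c : ℝ) (f : A) (h : ℤ → ℝ) : ev (c • f) h = c * ev f h := by
  unfold ev
  rw [AddMonoidAlgebra.coeff_smul, Finsupp.sum_smul_index' (by simp), Finsupp.mul_sum]
  simp [mul_assoc]
lemma ev_zero (h : ℤ → ℝ) : ev 0 h = 0 := by simp [ev]
lemma ev_sg (k : ℤ) (c : ℝ) (h : ℤ → ℝ) : ev (sg k c) h = c * h k := by
  rw [ev, sg, AddMonoidAlgebra.coeff_single, Finsupp.sum_single_index (zero_mul _)]
lemma ev_one (h : ℤ → ℝ) : ev 1 h = h 0 := (ev_sg 0 1 h).trans (one_mul _)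
lemma ev_add_fun (f : A) (h h' : ℤ → ℝ) : ev f (fun j => h j + h' j) = ev f h + ev f h' := by
  simp [ev, mul_add, Finsupp.sum_add]
lemma ev_mul_fun (f : A) (c : ℝ) (h : ℤ → ℝ) : ev f (fun j => c * h j) = c * ev f h := by
  simp [ev, Finsupp.mul_sum, mul_left_comm]
lemma ev_const (f : A) (c : ℝ) : ev f (fun _ => c) = c * mass f := by
  simpa [mass] using ev_mul_fun f c fun _ => 1
lemma sg_mul (k k' : ℤ) (c c' : ℝ) : sg k c * sg k' c' = sg (k + k') (c * c') :=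
  AddMonoidAlgebra.single_mul_single ..
lemma smul_sg (a : ℝ) (k : ℤ) (c : ℝ) : a • sg k c = sg k (a * c) :=
  AddMonoidAlgebra.smul_single' ..
lemma ev_mul (f g : A) (h : ℤ → ℝ) : ev (f * g) h = ev f fun i => ev g fun j => h (i + j) := by
  induction f using AddMonoidAlgebra.induction_linear with
  | zero => simp [ev_zero]
  | add x y hx hy => rw [add_mul, ev_add, ev_add, hx, hy]
  | single k c =>
    change ev (sg k c * g) h = ev (sg k c) _
    rw [ev_sg]
    induction g using AddMonoidAlgebra.induction_linear with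
    | zero => simp [ev_zero]
    | add x y hx hy => rw [mul_add, ev_add, ev_add, hx, hy, mul_add]
    | single k' c' =>
      change ev (sg k c * sg k' c') h = c * ev (sg k' c') _
      rw [sg_mul, ev_sg, ev_sg, mul_assoc]
lemma ev_sum {ι : Type*} (s : Finset ι) (f : ι → A) (h : ℤ → ℝ) :
    ev (∑ i ∈ s, f i) h = ∑ i ∈ s, ev (f i) h := by
  classical
  induction s using Finset.induction_on with
  | empty => simp [ev_zero]
  | insert a s ha ih => rw [Finset.sum_insert ha, Finset.sum_insert ha, ev_add, ih]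
lemma mass_mul (f g : A) : mass (f * g) = mass f * mass g := by
  rw [mass, ev_mul, ev_const, mul_comm]
  rfl

lemma pos_zero : Pos 0 := fun h _ => (ev_zero h).ge
lemma pos_one : Pos 1 := fun h hh => by rw [ev_one]; exact hh 0
lemma pos_sg (k : ℤ) {c : ℝ} (hc : 0 ≤ c) : Pos (sg k c) := fun h hh => by
  rw [ev_sg]; exact mul_nonneg hc (hh k)
lemma pos_pt (k : ℤ) {c : ℝ} (hc : 0 ≤ c) : Pos (pt k c) := by
  unfold pt
  split_ifs
  exacts [pos_zero, pos_sg k hc]
lemma Pos.add {f g : A} (hf : Pos f) (hg : Pos g) : Pos (f + g) := fun h hh => by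
  rw [ev_add]; exact add_nonneg (hf h hh) (hg h hh)
lemma Pos.mul {f g : A} (hf : Pos f) (hg : Pos g) : Pos (f * g) := fun h hh => by
  rw [ev_mul]; exact hf _ fun i => hg _ fun j => hh _
lemma Pos.smul {f : A} {c : ℝ} (hc : 0 ≤ c) (hf : Pos f) : Pos (c • f) := fun h hh => by
  rw [ev_smul]; exact mul_nonneg hc (hf h hh)
lemma Pos.pow {f : A} (hf : Pos f) (k : ℕ) : Pos (f ^ k) := by
  induction k with
  | zero => simpa using pos_one
  | succ k ih => rw [pow_succ]; exact ih.mul hf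
lemma Pos.sum {ι : Type*} (s : Finset ι) {f : ι → A} (hf : ∀ i ∈ s, Pos (f i)) :
    Pos (∑ i ∈ s, f i) :=
  Finset.sum_induction f Pos (fun _ _ => Pos.add) pos_zero hf
lemma Pos.mono {f : A} (hf : Pos f) {h h' : ℤ → ℝ} (hh : ∀ j, h j ≤ h' j) : ev f h ≤ ev f h' := by
  have h1 := hf (fun j => h' j + -1 * h j) fun j => by linarith [hh j]
  rw [ev_add_fun, ev_mul_fun] at h1
  linarith
lemma Pos.mass_nonneg {f : A} (hf : Pos f) : 0 ≤ mass f := hf _ fun _ => zero_le_one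
lemma Le.ev_le {f g : A} (hfg : Le f g) {h : ℤ → ℝ} (hh : ∀ j, 0 ≤ h j) : ev f h ≤ ev g h := by
  have := hfg h hh
  rw [ev_sub] at this
  linarith
lemma Le.refl (f : A) : Le f f := by rw [Le, sub_self]; exact pos_zero
lemma Le.trans {f g k : A} (h1 : Le f g) (h2 : Le g k) : Le f k := by
  have := Pos.add h2 h1
  rwa [sub_add_sub_cancel] at this
lemma Le.add {f g f' g' : A} (h1 : Le f g) (h2 : Le f' g') : Le (f + f') (g + g') := by
  have := Pos.add h1 h2
  rwa [sub_add_sub_comm] at this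
lemma Le.smul {f g : A} {c : ℝ} (hc : 0 ≤ c) (h : Le f g) : Le (c • f) (c • g) := by
  have := Pos.smul hc h
  rwa [smul_sub] at this
lemma Le.smul_left {f : A} {c c' : ℝ} (hc : c ≤ c') (hf : Pos f) : Le (c • f) (c' • f) := by
  have := Pos.smul (sub_nonneg.2 hc) hf
  rwa [sub_smul] at this
lemma Le.pos {f g : A} (hf : Pos f) (h : Le f g) : Pos g := by
  have := Pos.add h hf
  rwa [sub_add_cancel] at this
lemma Le.mul {f g f' g' : A} (hf : Pos f) (hf' : Pos f') (h1 : Le f g) (h2 : Le f' g') :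
    Le (f * f') (g * g') := by
  have := (Pos.mul h1 (Le.pos hf' h2)).add (hf.mul h2)
  rwa [show (g - f) * g' + f * (g' - f') = g * g' - f * f' by ring] at this
lemma le_sg (k : ℤ) {c c' : ℝ} (h : c ≤ c') : Le (sg k c) (sg k c') := fun g hg => by
  rw [ev_sub, ev_sg, ev_sg, ← sub_mul]
  exact mul_nonneg (sub_nonneg.2 h) (hg k)
lemma Le.sum {ι : Type*} (s : Finset ι) {f g : ι → A} (h : ∀ i ∈ s, Le (f i) (g i)) :
    Le (∑ i ∈ s, f i) (∑ i ∈ s, g i) := by
  have := Pos.sum s h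
  rwa [Finset.sum_sub_distrib] at this
/-- deficit bound -/
lemma Le.deficit {f g : A} (hfg : Le f g) {h k : ℤ → ℝ} (hk : ∀ j, h j ≤ k j) :
    ev g h ≤ ev f h + (ev g k - ev f k) := by
  have := Pos.mono hfg hk
  rw [ev_sub, ev_sub] at this
  linarith
lemma Le.pow {f g : A} (hf : Pos f) (h : Le f g) (k : ℕ) : Le (f ^ k) (g ^ k) := by
  induction k with
  | zero => simpa using Le.refl 1
  | succ k ih => rw [pow_succ, pow_succ]; exact Le.mul (hf.pow k) hf ih h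
lemma le_of_eq_add {f g r : A} (hr : Pos r) (e : g = f + r) : Le f g := by
  rwa [Le, e, add_sub_cancel_left]

lemma NP.add {f g : A} (hf : NP f) (hg : NP g) : NP (f + g) := fun h hh => by
  rw [ev_add, hf h hh, hg h hh, add_zero]
lemma NN.add {f g : A} (hf : NN f) (hg : NN g) : NN (f + g) := fun h hh => by
  rw [ev_add, hf h hh, hg h hh, add_zero]
lemma np_zero : NP 0 := fun h _ => ev_zero h
lemma nn_zero : NN 0 := fun h _ => ev_zero h
lemma np_pt {k : ℤ} (hk : k ≤ 0) (c : ℝ) : NP (pt k c) := by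
  unfold pt
  split_ifs
  · exact np_zero
  · exact fun h hh => by rw [ev_sg, hh k hk, mul_zero]
lemma nn_pt {k : ℤ} (hk : 0 ≤ k) (c : ℝ) : NN (pt k c) := by
  unfold pt
  split_ifs
  · exact nn_zero
  · exact fun h hh => by rw [ev_sg, hh k hk, mul_zero]
lemma NP.smul {f : A} (c : ℝ) (hf : NP f) : NP (c • f) := fun h hh => by
  rw [ev_smul, hf h hh, mul_zero]
lemma NN.smul {f : A} (c : ℝ) (hf : NN f) : NN (c • f) := fun h hh => by
  rw [ev_smul, hf h hh, mul_zero]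

lemma bern2 {x v : A} (hx : Pos x) (hv : Pos v) (L : ℕ) :
    Le (x ^ L * (x + ((L : ℝ) + 1) • v)) ((x + v) ^ (L + 1)) := by
  induction L with
  | zero => simpa using Le.refl _
  | succ L ih =>
    have c0 : (0 : ℝ) ≤ (L : ℝ) + 1 := by positivity
    rw [pow_succ (x + v) (L + 1)]
    refine Le.trans ?_ (Le.mul ((hx.pow L).mul (hx.add (hv.smul c0))) (hx.add hv) ih (Le.refl _))
    refine le_of_eq_add (((hx.pow L).mul (hv.pow 2)).smul c0) ?_
    push_cast
    algebra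

lemma cub {x : A} (hx : Pos x) (n : ℕ) :
    Le (1 + (n : ℝ) • x + ((n : ℝ) * (n - 1) / 2) • x ^ 2 +
      ((n : ℝ) * (n - 1) * (n - 2) / 6) • x ^ 3) ((1 + x) ^ n) := by
  have c2 : ∀ n : ℕ, (0 : ℝ) ≤ (n : ℝ) * (n - 1) / 2 := fun n => by
    rcases n with _ | n
    · simp
    · push_cast; rw [add_sub_cancel_right]; positivity
  have c3 : ∀ n : ℕ, (0 : ℝ) ≤ (n : ℝ) * (n - 1) * (n - 2) / 6 := fun n => by
    rcases n with _ | _ | n
    · simp
    · simp
    · push_cast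
      rw [add_sub_cancel_right, show (n : ℝ) + 1 + 1 - 2 = n by ring]; positivity
  induction n with
  | zero => simpa using Le.refl _
  | succ n ih =>
    rw [pow_succ (1 + x) n]
    refine Le.trans ?_ (Le.mul (((pos_one.add (hx.smul n.cast_nonneg)).add
      ((hx.pow 2).smul (c2 n))).add ((hx.pow 3).smul (c3 n))) (pos_one.add hx) ih (Le.refl _))
    refine le_of_eq_add ((hx.pow 4).smul (c3 n)) ?_
    push_cast
    algebra

lemma bern {x : A} (hx : Pos x) (n : ℕ) : Le (1 + (n : ℝ) • x) ((1 + x) ^ n) := by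
  rcases n with _ | n
  · simpa using Le.refl _
  · simpa using bern2 pos_one hx n

lemma le_one_add {Λ : A} (hΛ : Pos Λ) {c c' : ℝ} (h : c ≤ c') : Le (1 + c • Λ) (1 + c' • Λ) :=
  (Le.refl 1).add (Le.smul_left h hΛ)

/-- grouping of the steps -/
lemma group_le {Λ : A} (hΛ : Pos Λ) {c c' : ℝ} (hc : 0 ≤ c) (hc' : 0 ≤ c') {k : ℕ}
    (h : c ≤ k * c') (N : ℕ) : Le ((1 + c • Λ) ^ N) ((1 + c' • Λ) ^ (k * N)) := by
  rw [pow_mul]
  refine Le.pow (pos_one.add (hΛ.smul hc)) ((le_one_add hΛ h).trans ?_) N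
  rw [mul_smul]
  exact bern (hΛ.smul hc') k

lemma SP.mono {Λ f f' : A} (h : SP Λ f) (hf : Pos f') (hle : Le f' f) : SP Λ f' := by
  obtain ⟨-, θ, a, N, h1, h2, h3, h4, h5⟩ := h
  exact ⟨hf, θ, a, N, h1, h2, h3, h4, hle.trans h5⟩

lemma SP.mul {Λ Λ' f f' : A} (hΛ : Pos Λ) (hΛ' : Pos Λ') (h : SP Λ f) (h' : SP Λ' f') :
    SP (Λ + Λ') (f * f') := by
  obtain ⟨p, θ, a, N, h1, h2, h3, h4, h5⟩ := h
  obtain ⟨p', θ', a', N', h1', h2', h3', h4', h5'⟩ := h'
  obtain ⟨t, t1, t2, t3⟩ : ∃ t, θ ≤ t ∧ θ' ≤ t ∧ t < 1 :=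
    ⟨max θ θ', le_max_left _ _, le_max_right _ _, max_lt h2 h2'⟩
  obtain ⟨L, hL⟩ := exists_nat_ge (2 / (1 - t))
  rw [div_le_iff₀ (by linarith)] at hL
  have n0 : (0 : ℝ) < N := by exact_mod_cast h3
  have n0' : (0 : ℝ) < N' := by exact_mod_cast h3'
  have l0 : (0 : ℝ) ≤ L := L.cast_nonneg
  refine ⟨p.mul p', (1 + t) / 2, a + a', (L + 1) * (N * N'), by linarith, by linarith,
    by positivity, by rw [mass, ev_add]; exact add_lt_add h4 h4', (Le.mul p p' h5 h5').trans ?_⟩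
  set w : ℝ := (1 + t) / 2 / (((L + 1) * (N * N') : ℕ) : ℝ) with hw
  have w0 : 0 ≤ w := by rw [hw]; exact div_nonneg (by linarith) (Nat.cast_nonneg _)
  have key : t / (N * N') ≤ L * w := by
    rw [hw]
    push_cast
    rw [← mul_div_assoc, div_le_div_iff₀ (by positivity) (by positivity)]
    have : t * (L + 1) ≤ L * ((1 + t) / 2) := by nlinarith
    nlinarith [mul_le_mul_of_nonneg_right this (mul_pos n0 n0').le]
  rw [smul_mul_smul_comm, ← Real.exp_add, neg_add]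
  refine Le.smul (Real.exp_pos _).le ?_
  have g1 : Le ((1 + (θ / N) • Λ) ^ N) ((1 + (L * w) • Λ) ^ (N' * N)) := by
    refine group_le hΛ (by positivity) (by positivity) ?_ N
    refine le_trans ?_ (mul_le_mul_of_nonneg_left key n0'.le)
    rw [show N' * (t / (N * N')) = t / N by field_simp]
    gcongr
  have g2 : Le ((1 + (θ' / N') • Λ') ^ N') ((1 + (L * w) • Λ') ^ (N * N')) := by
    refine group_le hΛ' (by positivity) (by positivity) ?_ N'
    refine le_trans ?_ (mul_le_mul_of_nonneg_left key n0.le)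
    rw [show N * (t / (N * N')) = t / N' by field_simp]
    gcongr
  have q1 : Pos (1 + (L * w) • Λ) := pos_one.add (hΛ.smul (by positivity))
  have q2 : Pos (1 + (L * w) • Λ') := pos_one.add (hΛ'.smul (by positivity))
  refine (Le.mul ((pos_one.add (hΛ.smul (by positivity))).pow N)
    ((pos_one.add (hΛ'.smul (by positivity))).pow N') g1 g2).trans ?_
  rw [mul_comm N' N, ← mul_pow, pow_mul _ (L + 1), smul_add, ← add_assoc]
  refine Le.pow (q1.mul q2) (Le.trans ?_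
    (bern2 (pos_one.add (hΛ.smul w0)) (hΛ'.smul w0) L)) _
  refine Le.mul q1 q2 (by rw [mul_smul]; exact bern (hΛ.smul w0) L) ?_
  refine le_of_eq_add ((hΛ.smul w0).add (hΛ'.smul w0)) ?_
  algebra

lemma mass_one : mass 1 = 1 := ev_one _
lemma mass_pow (f : A) (k : ℕ) : mass (f ^ k) = mass f ^ k := by
  induction k with
  | zero => simpa using mass_one
  | succ k ih => rw [pow_succ, mass_mul, ih, pow_succ]

lemma SP.mass_le {Λ f : A} (hΛ : Pos Λ) (h : SP Λ f) : mass f ≤ 1 := by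
  obtain ⟨-, θ, a, N, h1, h2, h3, h4, h5⟩ := h
  have n0 : (0 : ℝ) < N := by exact_mod_cast h3
  have m0 := hΛ.mass_nonneg
  refine (h5.ev_le fun _ => zero_le_one).trans ?_
  rw [ev_smul]
  change _ * mass _ ≤ _
  rw [mass_pow, mass, ev_add, ev_smul, ev_one]
  change _ * (1 + θ / N * mass Λ) ^ N ≤ _
  have e1 : (1 + θ / N * mass Λ) ^ N ≤ Real.exp (θ / N * mass Λ) ^ N := by
    gcongr
    linarith [Real.add_one_le_exp (θ / N * mass Λ)]
  rw [← Real.exp_nat_mul, show N * (θ / N * mass Λ) = θ * mass Λ by field_simp] at e1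
  refine (mul_le_mul_of_nonneg_left e1 (Real.exp_pos _).le).trans ?_
  rw [← Real.exp_add, Real.exp_le_one_iff]
  nlinarith

lemma SP.base {Λ B : A} {θ b σ : ℝ} (hΛ : Pos Λ) (hB : Pos B) (hθ : θ < 1) (hθ0 : 0 ≤ θ)
    (hle : Le B (θ • Λ)) (hb : mass Λ < b) (hb1 : b ≤ 1) (hσ0 : 0 ≤ σ)
    (hσ : σ ≤ 1 - b + b ^ 2 / 2 - b ^ 3 / 6 - 5 * b ^ 4 / 96) :
    SP Λ (σ • (1 + B + (1 / 2 : ℝ) • B ^ 2 + (1 / 6 : ℝ) • B ^ 3)) := by
  have b0 : 0 ≤ b := hΛ.mass_nonneg.trans hb.le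
  have hP : Pos (1 + B + (1 / 2 : ℝ) • B ^ 2 + (1 / 6 : ℝ) • B ^ 3) :=
    ((pos_one.add hB).add ((hB.pow 2).smul (by norm_num))).add ((hB.pow 3).smul (by norm_num))
  have he : σ ≤ Real.exp (-b) := by
    have := Real.exp_bound (x := -b) (by rwa [abs_neg, abs_of_nonneg b0]) (n := 4) (by norm_num)
    rw [abs_neg, abs_of_nonneg b0, abs_le] at this
    have h1 := this.1
    simp only [Finset.sum_range_succ, Finset.sum_range_zero, Nat.factorial] at h1
    norm_num at h1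
    nlinarith
  obtain ⟨M, hM⟩ := exists_nat_ge (4 / (1 - θ))
  rw [div_le_iff₀ (by linarith)] at hM
  have m0 : (0 : ℝ) ≤ M := M.cast_nonneg
  refine ⟨hP.smul hσ0, (1 + θ) / 2, b, M + 2, by linarith, by linarith, by omega, hb,
    (Le.smul_left he hP).trans (Le.smul (Real.exp_pos _).le ?_)⟩
  set w : ℝ := (1 + θ) / 2 / ((M + 2 : ℕ) : ℝ) with hw
  have w0 : 0 ≤ w := by rw [hw]; positivity
  have key : θ ≤ M * w := by
    rw [hw]
    push_cast
    rw [← mul_div_assoc, le_div_iff₀ (by positivity)]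
    nlinarith
  have hB' : Le B ((M * w) • Λ) := hle.trans (Le.smul_left key hΛ)
  refine Le.trans ?_ (cub (hΛ.smul w0) (M + 2))
  refine Le.trans ((((Le.refl 1).add hB').add ((Le.pow hB hB' 2).smul (by norm_num))).add
    ((Le.pow hB hB' 3).smul (by norm_num))) ?_
  have hx := hΛ.smul w0
  refine le_of_eq_add (((hx.smul (c := 2) (by norm_num)).add
    ((hx.pow 2).smul (c := (3 * M + 2) / 2) (by positivity))).add
    ((hx.pow 3).smul (c := (3 * M ^ 2 + 2 * M) / 6) (by positivity))) ?_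
  push_cast
  algebra

lemma mass_Tn (n z : ℝ) (Λ : A) : mass (Tn n z Λ) = 1 := by
  rw [mass, Tn, ev_add, ev_smul, ev_sub, ev_smul, ev_one]
  simp [mass]
lemma law_cons (D q : ℕ) (p : ℕ × ℝ × A) (l : List (ℕ × ℝ × A)) :
    law D q (p :: l) = Tn ((D * q : ℕ) : ℝ) p.2.1 p.2.2 ^ (p.1 * q) * law D q l := by simp [law]
lemma tot_cons (D : ℕ) (p : ℕ × ℝ × A) (l : List (ℕ × ℝ × A)) :
    tot D (p :: l) = ((p.1 : ℝ) / D) • p.2.2 + tot D l := by simp [tot]
lemma mass_law (D q : ℕ) (l : List (ℕ × ℝ × A)) : mass (law D q l) = 1 := by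
  induction l with
  | nil => exact mass_one
  | cons p l ih => rw [law_cons, mass_mul, mass_pow, mass_Tn, ih]; simp

lemma tend_den {D : ℕ} (hD : 0 < D) (z : ℝ) :
    Tendsto (fun q : ℕ => ((D * q : ℕ) : ℝ) - z) atTop atTop := by
  have d0 : (0 : ℝ) < D := by exact_mod_cast hD
  simpa [sub_eq_add_neg] using
    tendsto_atTop_add_const_right _ (-z) (tendsto_natCast_atTop_atTop.const_mul_atTop d0)

lemma tend_inv {D : ℕ} (hD : 0 < D) (z : ℝ) :
    Tendsto (fun q : ℕ => 1 / (((D * q : ℕ) : ℝ) - z)) atTop (nhds 0) :=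
  tendsto_const_nhds.div_atTop (tend_den hD z)

lemma tend_rat {D : ℕ} (hD : 0 < D) (z : ℝ) :
    Tendsto (fun q : ℕ => q * (1 / (((D * q : ℕ) : ℝ) - z))) atTop (nhds (1 / D)) := by
  have d0 : (0 : ℝ) < D := by exact_mod_cast hD
  have := ((tend_inv hD z).const_mul (z / D)).const_add (1 / D : ℝ)
  rw [mul_zero, add_zero] at this
  refine this.congr' ?_
  filter_upwards [(tend_den hD z).eventually_gt_atTop 0] with q hq
  push_cast at hq ⊢
  field_simp
  ring

lemma Tn_eq (n z : ℝ) (Λ : A) :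
    Tn n z Λ = (1 + -mass Λ * (1 / (n - z))) • (1 : A) + (1 / (n - z)) • Λ := by
  unfold Tn
  algebra

lemma ev_sc {D : ℕ} (hD : 0 < D) (z m : ℝ) :
    ∀ᶠ q : ℕ in atTop, 0 ≤ 1 + -m * (1 / (((D * q : ℕ) : ℝ) - z)) := by
  have := ((tend_inv hD z).const_mul (-m)).const_add 1
  exact this.eventually (Ici_mem_nhds (by simp))

lemma ev_pos_Tn {D : ℕ} (hD : 0 < D) (z : ℝ) {Λ : A} (hΛ : Pos Λ) :
    ∀ᶠ q : ℕ in atTop, Pos (Tn ((D * q : ℕ) : ℝ) z Λ) := by
  filter_upwards [ev_sc hD z (mass Λ), (tend_den hD z).eventually_gt_atTop 0] with q h1 h2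
  rw [Tn_eq]
  exact (pos_one.smul h1).add (hΛ.smul (by positivity))

lemma floor_ge {D N d q Q : ℕ} {θ n : ℝ} (hD : 0 < D) (hN : 0 < N) (h1 : θ < 1) (np : 0 < n)
    (hn : n = ((D * q : ℕ) : ℝ)) (hQ : (N : ℝ) ≤ Q * (1 - θ)) (e4 : Q ≤ q) :
    θ / N * (d / D) ≤ (d * q / N : ℕ) * (1 / n) := by
  have d0 : (0 : ℝ) < D := by exact_mod_cast hD
  have n0 : (0 : ℝ) < N := by exact_mod_cast hN
  rcases Nat.eq_zero_or_pos d with rfl | hd
  · simp
  have d1 : (1 : ℝ) ≤ d := by exact_mod_cast hd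
  have q1 : (Q : ℝ) ≤ q := by exact_mod_cast e4
  have k1 : (d : ℝ) * q < N * ((d * q / N : ℕ) + 1) := by
    exact_mod_cast Nat.lt_mul_div_succ (d * q) hN
  generalize d * q / N = k at k1
  have q0 : (0 : ℝ) ≤ q := q.cast_nonneg
  rw [mul_one_div, div_mul_div_comm, div_le_div_iff₀ (by positivity) np, hn]
  push_cast
  have k2 : θ * d * q ≤ N * k := by
    have a1 := mul_le_mul_of_nonneg_right q1 (sub_nonneg.2 h1.le)
    have a2 := mul_le_mul_of_nonneg_right d1 (mul_nonneg q0 (sub_nonneg.2 h1.le))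
    linarith
  have a3 := mul_le_mul_of_nonneg_right k2 d0.le
  linarith

lemma low_alg {Λ : A} (hΛ : Pos Λ) {n z e c c' : ℝ} {M k N : ℕ} (hz : 0 ≤ z) (e3 : 0 < n - z)
    (e2 : 0 ≤ 1 + -mass Λ * (1 / (n - z))) (e1 : e ≤ (1 + -mass Λ * (1 / (n - z))) ^ M)
    (h0 : 0 ≤ c * c') (hk : c * c' ≤ k * (1 / n)) (hM : k * N ≤ M) :
    Le (e • (1 + c • c' • Λ) ^ N) (Tn n z Λ ^ M) := by
  have np : 0 < n := by linarith
  have m0 := hΛ.mass_nonneg
  have i0 : 0 ≤ 1 / n := by positivity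
  have p1 : Pos (1 + (1 / n) • Λ) := pos_one.add (hΛ.smul i0)
  have s1 : 1 + -mass Λ * (1 / (n - z)) ≤ 1 := by
    have : 0 ≤ mass Λ * (1 / (n - z)) := by positivity
    linarith
  rw [Tn_eq]
  generalize 1 + -mass Λ * (1 / (n - z)) = s at *
  have l1 : Le (s • (1 + (1 / n) • Λ)) (s • (1 : A) + (1 / (n - z)) • Λ) := by
    rw [smul_add, ← mul_smul]
    refine (Le.refl _).add (Le.smul_left ?_ hΛ)
    exact (mul_le_of_le_one_left i0 s1).trans (one_div_le_one_div_of_le e3 (by linarith))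
  refine Le.trans ?_ (Le.pow (p1.smul e2) l1 _)
  rw [smul_pow, ← mul_smul]
  refine (Le.smul_left e1 ((pos_one.add (hΛ.smul h0)).pow N)).trans
    (Le.smul (pow_nonneg e2 _) ((group_le hΛ h0 i0 hk N).trans ?_))
  obtain ⟨r, rfl⟩ := Nat.exists_eq_add_of_le hM
  have := Le.mul (p1.pow (k * N)) (pos_one.pow r) (Le.refl _)
    (Le.pow pos_one (le_of_eq_add (hΛ.smul i0) rfl) r)
  rwa [one_pow, mul_one, ← pow_add] at this

lemma low_one {D : ℕ} (hD : 0 < D) {z θ a : ℝ} (hz : 0 ≤ z) {Λ : A} (hΛ : Pos Λ) (d : ℕ) {N : ℕ}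
    (h0 : 0 ≤ θ) (h1 : θ < 1) (hN : 0 < N) (ha : (d : ℝ) / D * mass Λ < a) :
    ∀ᶠ q : ℕ in atTop, Le (Real.exp (-a) • (1 + (θ / N) • ((d : ℝ) / D) • Λ) ^ N)
      (Tn ((D * q : ℕ) : ℝ) z Λ ^ (d * q)) := by
  have d0 : (0 : ℝ) < D := by exact_mod_cast hD
  have n0 : (0 : ℝ) < N := by exact_mod_cast hN
  have t1 : Tendsto (fun q : ℕ => ((1 + -mass Λ * (1 / (((D * q : ℕ) : ℝ) - z))) ^ q) ^ d) atTop
      (nhds (Real.exp (-mass Λ * (1 / D)) ^ d)) := by
    refine (Real.tendsto_one_add_pow_exp_of_tendsto ?_).pow d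
    exact ((tend_rat hD z).const_mul (-mass Λ)).congr fun q => by ring
  have t2 := t1.eventually (Ici_mem_nhds (a := Real.exp (-a)) (by
    rw [← Real.exp_nat_mul, Real.exp_lt_exp]
    linarith [show d * (-mass Λ * (1 / D)) = -(d / D * mass Λ) by ring]))
  obtain ⟨Q, hQ⟩ := exists_nat_ge (N / (1 - θ))
  rw [div_le_iff₀ (by linarith)] at hQ
  filter_upwards [t2, ev_sc hD z (mass Λ), (tend_den hD z).eventually_gt_atTop 0,
    eventually_ge_atTop Q] with q e1 e2 e3 e4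
  rw [← pow_mul, mul_comm q d] at e1
  exact low_alg hΛ hz e3 e2 e1 (by positivity) (floor_ge hD hN h1 (by linarith) rfl hQ e4)
    (Nat.div_mul_le_self (d * q) N)

lemma pos_tot (D : ℕ) {l : List (ℕ × ℝ × A)} (hl : ∀ p ∈ l, Pos p.2.2) : Pos (tot D l) := by
  induction l with
  | nil => exact pos_zero
  | cons p l ih =>
    rw [tot_cons]
    exact ((hl p (by simp)).smul (by positivity)).add (ih fun p hp => hl p (by simp [hp]))

lemma low_list {D : ℕ} (hD : 0 < D) {θ : ℝ} {N : ℕ} (h0 : 0 ≤ θ) (h1 : θ < 1) (hN : 0 < N)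
    {l : List (ℕ × ℝ × A)} (hl : ∀ p ∈ l, 0 ≤ p.2.1 ∧ Pos p.2.2) {a : ℝ}
    (ha : mass (tot D l) < a) :
    ∀ᶠ q : ℕ in atTop, Le (Real.exp (-a) • (1 + (θ / N) • tot D l) ^ N) (law D q l) := by
  induction l generalizing a with
  | nil =>
    refine Eventually.of_forall fun q => ?_
    have a0 : 0 < a := by simpa [tot, mass, ev_zero] using ha
    have := Le.smul_left (Real.exp_le_one_iff.2 (neg_nonpos.2 a0.le)) pos_one
    simpa [tot, law] using this
  | cons p l ih =>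
    obtain ⟨hz, hp⟩ := hl p (by simp)
    have hl' : ∀ p ∈ l, 0 ≤ p.2.1 ∧ Pos p.2.2 := fun p hp => hl p (by simp [hp])
    rw [tot_cons, mass, ev_add, ev_smul] at ha
    change _ * mass _ + mass _ < a at ha
    obtain ⟨b, b1, b2⟩ := exists_between (lt_sub_iff_add_lt.2 ha)
    filter_upwards [low_one hD hz hp p.1 h0 h1 hN b1, ih hl' (a := a - b) (by linarith)]
      with q e1 e2
    have u0 : Pos ((θ / N) • ((p.1 : ℝ) / D) • p.2.2) :=
      (hp.smul (by positivity)).smul (by positivity)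
    have v0 : Pos ((θ / N) • tot D l) := (pos_tot D fun p hp => (hl' p hp).2).smul (by positivity)
    rw [law_cons, tot_cons]
    refine Le.trans ?_ (Le.mul (((pos_one.add u0).pow N).smul (Real.exp_pos _).le)
      (((pos_one.add v0).pow N).smul (Real.exp_pos _).le) e1 e2)
    rw [smul_mul_smul_comm, ← Real.exp_add, show -b + -(a - b) = -a by ring, ← mul_pow, smul_add]
    refine Le.smul (Real.exp_pos _).le (Le.pow (pos_one.add (u0.add v0))
      (le_of_eq_add (u0.mul v0) ?_) N)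
    ring

lemma SP.low {D : ℕ} (hD : 0 < D) {l : List (ℕ × ℝ × A)} (hl : ∀ p ∈ l, 0 ≤ p.2.1 ∧ Pos p.2.2) {f : A}
    (h : SP (tot D l) f) : ∀ᶠ q : ℕ in atTop, Le f (law D q l) := by
  obtain ⟨-, θ, a, N, h1, h2, h3, h4, h5⟩ := h
  exact (low_list hD h1 h2 h3 hl h4).mono fun q hq => h5.trans hq

lemma ev_sq (f : A) (c : ℝ) :
    ev f (fun j => ((j : ℝ) + c) ^ 2) = m2 f + 2 * c * m1 f + c ^ 2 * mass f := by
  rw [m2, m1, ← ev_mul_fun, ← ev_const, ← ev_add_fun, ← ev_add_fun]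
  congr 1
  ext j
  ring

lemma m1_mul {f g : A} (hf : mass f = 1) (hg : mass g = 1) : m1 (f * g) = m1 f + m1 g := by
  have e : ∀ i : ℤ, (ev g fun j => ((i + j : ℤ) : ℝ)) = i + m1 g := fun i => by
    push_cast
    rw [ev_add_fun, ev_const, hg, mul_one, m1]
  rw [m1, ev_mul, funext e, ev_add_fun, ev_const, hf, mul_one]
  rfl

lemma var_mul {f g : A} (hf : mass f = 1) (hg : mass g = 1) :
    m2 (f * g) - m1 (f * g) ^ 2 = (m2 f - m1 f ^ 2) + (m2 g - m1 g ^ 2) := by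
  have e : ∀ i : ℤ, (ev g fun j => ((i + j : ℤ) : ℝ) ^ 2) =
      ((i : ℝ) + m1 g) ^ 2 + (m2 g - m1 g ^ 2) := fun i => by
    push_cast
    simp_rw [add_comm (i : ℝ)]
    rw [ev_sq, hg]
    ring
  rw [m1_mul hf hg, m2, ev_mul, funext e, ev_add_fun, ev_const, ev_sq, hf]
  ring

lemma mom_pow {f : A} (hf : mass f = 1) (k : ℕ) :
    m1 (f ^ k) = k * m1 f ∧ m2 (f ^ k) - m1 (f ^ k) ^ 2 = k * (m2 f - m1 f ^ 2) := by
  induction k with
  | zero => simp [m1, m2, ev_one]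
  | succ k ih =>
    have hk : mass (f ^ k) = 1 := by rw [mass_pow, hf, one_pow]
    rw [pow_succ f k, var_mul hk hf, m1_mul hk hf, ih.2, ih.1]
    push_cast
    constructor <;> ring

lemma ev_Tn (n z : ℝ) (Λ : A) {h : ℤ → ℝ} (h0 : h 0 = 0) :
    ev (Tn n z Λ) h = 1 / (n - z) * ev Λ h := by
  rw [Tn_eq, ev_add, ev_smul, ev_smul, ev_one, h0, mul_zero, zero_add]

lemma tend_mom {D : ℕ} (hD : 0 < D) (l : List (ℕ × ℝ × A)) :
    Tendsto (fun q => m1 (law D q l)) atTop (nhds (m1 (tot D l))) ∧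
    Tendsto (fun q => m2 (law D q l) - m1 (law D q l) ^ 2) atTop (nhds (m2 (tot D l))) := by
  induction l with
  | nil => simp [law, tot, m1, m2, ev_one, ev_zero]
  | cons p l ih =>
    have hm : ∀ q : ℕ, mass (Tn ((D * q : ℕ) : ℝ) p.2.1 p.2.2 ^ (p.1 * q)) = 1 := fun q => by
      rw [mass_pow, mass_Tn, one_pow]
    have e1 : ∀ n, m1 (Tn n p.2.1 p.2.2) = 1 / (n - p.2.1) * m1 p.2.2 := fun n =>
      ev_Tn _ _ _ (by simp)
    have e2 : ∀ n, m2 (Tn n p.2.1 p.2.2) = 1 / (n - p.2.1) * m2 p.2.2 := fun n =>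
      ev_Tn _ _ _ (by simp)
    have t1 := tend_rat hD p.2.1
    have t2 := tend_inv hD p.2.1
    constructor
    · have := (t1.const_mul (p.1 * m1 p.2.2)).add ih.1
      rw [tot_cons, m1, ev_add, ev_smul]
      convert this using 2 with q
      · rw [law_cons, m1_mul (hm q) (mass_law _ _ _), (mom_pow (mass_Tn _ _ _) _).1, e1]
        push_cast
        ring
      · rw [m1, m1]
        ring
    · have := ((t1.const_mul (p.1 : ℝ)).mul ((t2.const_mul (m1 p.2.2 ^ 2)).const_sub (m2 p.2.2))).add ih.2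
      rw [tot_cons, m2, ev_add, ev_smul]
      convert this using 2 with q
      · rw [law_cons, var_mul (hm q) (mass_law _ _ _), (mom_pow (mass_Tn _ _ _) _).2, e1, e2]
        push_cast
        ring
      · rw [m2, m2]
        ring

lemma law_mom {D : ℕ} (hD : 0 < D) (l : List (ℕ × ℝ × A)) (hl : ∀ p ∈ l, Pos p.2.2) (c : ℝ) {ε : ℝ}
    (hε : 0 < ε) : ∀ᶠ q : ℕ in atTop,
      ev (law D q l) (fun j => ((j : ℝ) + c) ^ 2) ≤ (c + m1 (tot D l)) ^ 2 + m2 (tot D l) + ε := by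
  have _ := hl
  obtain ⟨t1, t2⟩ := tend_mom hD l
  have := (((t1.const_add c).pow 2).add t2).eventually (Iic_mem_nhds (lt_add_of_pos_right _ hε))
  refine this.mono fun q hq => le_trans (le_of_eq ?_) hq
  rw [ev_sq, mass_law]
  ring

lemma conv_seq (g : ℕ → ℝ) {K : ℕ} (h : ∀ k, k + 2 ≤ K → 0 ≤ g (k + 2) - 2 * g (k + 1) + g k)
    {k : ℕ} (hk : k ≤ K) : K * (g k - g 0) ≤ k * (g K - g 0) := by
  have s : ∀ j, j + 1 ≤ K → g j - g 0 ≤ j * (g (j + 1) - g j) := fun j => by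
    induction j with
    | zero => simp
    | succ j ih =>
      intro hj
      have h1 := ih (by omega)
      have h2 := mul_nonneg (by positivity : (0 : ℝ) ≤ j + 1) (h j hj)
      push_cast
      nlinarith
  have t : ∀ j, k ≤ j → j ≤ K → j * (g k - g 0) ≤ k * (g j - g 0) := fun j hj => by
    induction j, hj using Nat.le_induction with
    | base => exact fun _ => le_rfl
    | succ j hj ih =>
      intro hK
      rcases Nat.eq_zero_or_pos j with rfl | j0
      · obtain rfl : k = 0 := by omega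
        simp
      have h1 := ih (by omega)
      have h2 := mul_le_mul_of_nonneg_left (s j hK) (Nat.cast_nonneg (α := ℝ) k)
      have j1 : (0 : ℝ) < j := by exact_mod_cast j0
      have h3 := mul_le_mul_of_nonneg_left h1 (by positivity : (0 : ℝ) ≤ j + 1)
      refine le_of_mul_le_mul_left ?_ j1
      push_cast
      nlinarith
  exact t K hk le_rfl

/-- below the chord -/
lemma chord_le (f : ℕ → ℝ) {K : ℕ} (hK : 0 < K) (c : ℝ)
    (h : ∀ k, k + 2 ≤ K → c ≤ f (k + 2) - 2 * f (k + 1) + f k) {k : ℕ} (hk : k ≤ K) :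
    f k ≤ (1 - (k : ℝ) / K) * f 0 + (k : ℝ) / K * f K - c * (k * (K - k)) / 2 := by
  have k0 : (0 : ℝ) < K := by exact_mod_cast hK
  have := conv_seq (fun k => f k - c * k ^ 2 / 2) (K := K) (fun k hk => by
    have := h k hk
    push_cast
    nlinarith) hk
  refine le_of_mul_le_mul_left ?_ k0
  rw [show K * ((1 - (k : ℝ) / K) * f 0 + (k : ℝ) / K * f K - c * (k * (K - k)) / 2) =
    (K - k) * f 0 + k * f K - K * (c * (k * (K - k)) / 2) by field_simp]
  simp only [Nat.cast_zero] at this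
  nlinarith

lemma conv_two {h : ℝ → ℝ} (hh : ConvexOn ℝ univ h) (x : ℝ) {a b : ℝ}
    (hab : (0 ≤ a ∧ 0 ≤ b) ∨ (a ≤ 0 ∧ b ≤ 0)) : h (x + a) + h (x + b) ≤ h (x + (a + b)) + h x := by
  by_cases s : a + b = 0
  · have a0 : a = 0 := by rcases hab with h | h <;> linarith [h.1, h.2]
    have b0 : b = 0 := by linarith
    simp [a0, b0]
  have t0 : 0 ≤ a / (a + b) := by
    rcases hab with h | h
    · exact div_nonneg h.1 (by linarith [h.1, h.2])
    · exact div_nonneg_of_nonpos h.1 (by linarith [h.1, h.2])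
  have t1 : 0 ≤ b / (a + b) := by
    rcases hab with h | h
    · exact div_nonneg h.2 (by linarith [h.1, h.2])
    · exact div_nonneg_of_nonpos h.2 (by linarith [h.1, h.2])
  have e : a / (a + b) + b / (a + b) = 1 := by field_simp
  have h1 := hh.2 (mem_univ (x + (a + b))) (mem_univ x) t0 t1 e
  have h2 := hh.2 (mem_univ x) (mem_univ (x + (a + b))) t0 t1 e
  simp only [smul_eq_mul] at h1 h2
  rw [show a / (a + b) * (x + (a + b)) + b / (a + b) * x = x + a by field_simp; ring] at h1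
  rw [show a / (a + b) * x + b / (a + b) * (x + (a + b)) = x + b by field_simp; ring] at h2
  linear_combination h1 + h2 + (h x + h (x + (a + b))) * e

lemma pos_on {Λ : A} (hΛ : Pos Λ) {S : ℤ → Prop}
    (hS : ∀ h : ℤ → ℝ, (∀ j, S j → h j = 0) → ev Λ h = 0) {φ : ℤ → ℝ} (hφ : ∀ j, S j → 0 ≤ φ j) :
    0 ≤ ev Λ φ := by
  classical
  have h1 := hS (fun j => if S j then 0 else φ j) fun j hj => if_pos hj
  refine h1.ge.trans (hΛ.mono fun j => ?_)
  split_ifs with h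
  exacts [hφ j h, le_rfl]

lemma ev_sq_nonneg {Λ : A} (hΛ : Pos Λ) {S : ℤ → Prop}
    (hS : ∀ h : ℤ → ℝ, (∀ j, S j → h j = 0) → ev Λ h = 0) {G : ℤ → ℝ}
    (hG : ∀ i j, S i → S j → G i + G j ≤ G (i + j) + G 0) :
    0 ≤ ev ((Λ - mass Λ • (1 : A)) ^ 2) G := by
  have h1 := pos_on hΛ hS (φ := fun i => ev Λ fun j => G (i + j) + -1 * G j + (G 0 - G i))
    fun i hi => pos_on hΛ hS fun j hj => by linarith [hG i j hi hj]
  simp only [ev_add_fun, ev_mul_fun, ev_const] at h1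
  have e : (ev Λ fun i => (G 0 - G i) * mass Λ) = (G 0 * mass Λ - ev Λ G) * mass Λ := by
    have : (fun i => (G 0 - G i) * mass Λ) = fun i => G 0 * mass Λ + -mass Λ * G i := by
      ext i; ring
    rw [this, ev_add_fun, ev_const, ev_mul_fun]
    ring
  rw [e] at h1
  rw [show (Λ - mass Λ • (1 : A)) ^ 2 = Λ * Λ - (2 * mass Λ) • Λ + mass Λ ^ 2 • (1 : A) by algebra,
    ev_add, ev_sub, ev_smul, ev_smul, ev_one, ev_mul]
  linarith

lemma law_chord {L Λ : A} {n z η y : ℝ} (hL : Pos L) (hΛ : Pos Λ) (hT : Pos (Tn n z Λ))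
    (h1 : NP Λ ∨ NN Λ) (hη : 0 ≤ η) {h : ℝ → ℝ} (hh : ConvexOn ℝ univ h) {K k : ℕ} (hK : 0 < K) (hk : k ≤ K) :
    ev (L * Tn n z Λ ^ k) (fun j => h (y + j * η)) ≤
      (1 - (k : ℝ) / K) * ev L (fun j => h (y + j * η)) +
        (k : ℝ) / K * ev (L * Tn n z Λ ^ K) (fun j => h (y + j * η)) := by
  have := chord_le (fun k => ev (L * Tn n z Λ ^ k) fun j => h (y + j * η)) hK 0 (fun k _ => ?_) hk
  · simpa only [pow_zero, mul_one, zero_mul, zero_div, sub_zero] using this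
  rw [← ev_smul, ← ev_sub, ← ev_add,
    show L * Tn n z Λ ^ (k + 2) - (2 : ℝ) • (L * Tn n z Λ ^ (k + 1)) + L * Tn n z Λ ^ k =
      L * Tn n z Λ ^ k * (Tn n z Λ - 1) ^ 2 by algebra, ev_mul]
  refine (hL.mul (hT.pow k)) _ fun i => ?_
  rw [Tn, add_sub_cancel_left, smul_pow, ev_smul]
  refine mul_nonneg (sq_nonneg _) ?_
  have g : ∀ a b : ℤ, (0 ≤ a ∧ 0 ≤ b) ∨ (a ≤ 0 ∧ b ≤ 0) →
      h (y + ((i + a : ℤ) : ℝ) * η) + h (y + ((i + b : ℤ) : ℝ) * η) ≤
        h (y + ((i + (a + b) : ℤ) : ℝ) * η) + h (y + ((i + 0 : ℤ) : ℝ) * η) := fun a b hab => by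
    have := conv_two hh (y + i * η) (a := a * η) (b := b * η) (hab.imp
      (fun h => ⟨mul_nonneg (by exact_mod_cast h.1) hη, mul_nonneg (by exact_mod_cast h.2) hη⟩)
      fun h => ⟨mul_nonpos_of_nonpos_of_nonneg (by exact_mod_cast h.1) hη,
        mul_nonpos_of_nonpos_of_nonneg (by exact_mod_cast h.2) hη⟩)
    push_cast
    simpa only [add_mul, add_assoc, zero_mul, add_zero] using this
  rcases h1 with h1 | h1
  · exact ev_sq_nonneg hΛ h1 fun a b ha hb => g a b (.inr ⟨ha, hb⟩)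
  · exact ev_sq_nonneg hΛ h1 fun a b ha hb => g a b (.inl ⟨ha, hb⟩)

end
end Pool.Agent.MP_3bf126_pr.H21
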