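import Pool.Agent.MP_3bf126_pr.H21.Sl

/-! Tables: lattice majorants of the laws of one cell. -/

namespace Pool.Agent.MP_3bf126_pr.H21
open MeasureTheory Set Filter Pool.Agent.MP_3bf126_pr.H40
open scoped ENNReal
noncomputable section
variable {a : Sl} {v : Env}

lemma domI_cell' {β : ℝ → ℝ} {x0 x1 η va vb fa fb : ℝ} {ka kb : ℤ} (hab : x0 ≤ x1) (hβ : Continuous β)
    (hle : ∀ x, x0 < x → x < x1 → β x ≤ ((x1 - x) * va + (x - x0) * vb) / (x1 - x0))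
    (ha : va ≤ (ka + fa) * η) (hb : vb ≤ (kb + fb) * η)
    (ha0 : 0 ≤ fa) (ha1 : fa ≤ 1) (hb0 : 0 ≤ fb) (hb1 : fb ≤ 1) :
    DomI β x0 x1 η (((x1 - x0) / 2) • (ptp ka fa + ptp kb fb)) := by
  rcases hab.eq_or_lt with rfl | h
  · simpa using domI_refl β x0 η
  · exact domI_cell h hβ (fun _ _ _ => rfl) hle ha hb ha0 ha1 hb0 hb1

lemma tb_pos_list {ι : Type*} {l : List ι} {f : ι → A} (h : ∀ b ∈ l, Pos (f b)) :
    Pos (l.map f).sum := by
  induction l with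
  | nil => exact pos_zero
  | cons b l ih =>
    rw [List.map_cons, List.sum_cons]
    exact (h b List.mem_cons_self).add (ih fun c hc => h c (List.mem_cons_of_mem _ hc))

lemma tb_sum_smul {ι : Type*} (l : List ι) (f : ι → ℝ) (Λ : A) :
    (l.map f).sum • Λ = (l.map fun b => f b • Λ).sum := by
  induction l with
  | nil => simp
  | cons b l ih => rw [List.map_cons, List.sum_cons, add_smul, ih, List.map_cons, List.sum_cons]

lemma tb_domI_null {β : ℝ → ℝ} {c x x' η : ℝ} {L L' : A} (h : DomI β c c η L) (h' : DomI β x x' η L') :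
    DomI β x x' η (L + L') := by
  refine ⟨h.1.add h'.1, fun k hk y => ?_⟩
  obtain ⟨-, j1⟩ := h.2 k hk y
  obtain ⟨i2, j2⟩ := h'.2 k hk y
  refine ⟨i2, ?_⟩
  rw [intervalIntegral.integral_same] at j1
  rw [ev_add, mass, ev_add]
  simp only [mass] at j1 j2
  linarith

lemma domW_refl (β : ℝ → ℝ) (x η : ℝ) : a.DomW β x x η 0 := by
  refine ⟨fun _ => 0, fun b _ => ?_, by simp⟩
  rw [min_eq_right (le_max_right _ _)]
  exact domI_refl β x η

lemma Sl.DomW.pos {β : ℝ → ℝ} {x0 x1 η : ℝ} {Λ : A} (h : a.DomW β x0 x1 η Λ) : Pos Λ := by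
  obtain ⟨L, h1, rfl⟩ := h
  exact tb_pos_list fun b hb => (h1 b hb).1.smul (by positivity)

lemma Sl.DomW.trans {β : ℝ → ℝ} {x0 x1 x2 η : ℝ} {Λ Λ' : A} (h01 : x0 ≤ x1) (h12 : x1 ≤ x2)
    (h : a.DomW β x0 x1 η Λ) (h' : a.DomW β x1 x2 η Λ') : a.DomW β x0 x2 η (Λ + Λ') := by
  obtain ⟨L, h1, rfl⟩ := h
  obtain ⟨L', h2, rfl⟩ := h'
  refine ⟨fun z => L z + L' z, fun b hb => ?_, ?_⟩
  · have e1 := h1 b hb
    have e2 := h2 b hb
    rcases le_total b.2 x1 with hz | hz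
    · have m : max b.2 x0 ≤ x1 := max_le hz h01
      rw [min_eq_left m] at e1
      rw [max_eq_right hz, min_eq_left h12] at e2
      rw [min_eq_left (m.trans h12)]
      exact e1.trans e2
    · rw [min_eq_right (hz.trans (le_max_left _ _))] at e1
      rw [max_eq_left hz] at e2
      rw [max_eq_left (h01.trans hz)]
      exact tb_domI_null e1 e2
  · rw [← List.sum_map_add]
    simp only [smul_add]

lemma Sl.DomW.mono {β β' ψ : ℝ → ℝ} {x0 x1 η : ℝ} {Λ : A} (h : a.DomW β x0 x1 η Λ) (h01 : x0 ≤ x1)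
    (hψ : Continuous ψ) (e : ∀ x, x0 < x → x < x1 → β' x = ψ x) (hle : ∀ x, x0 < x → x < x1 → β' x ≤ β x) :
    a.DomW β' x0 x1 η Λ := by
  obtain ⟨L, h1, h2⟩ := h
  refine ⟨L, fun b hb => ?_, h2⟩
  have m : x0 ≤ min (max b.2 x0) x1 := le_min (le_max_right _ _) h01
  exact (h1 b hb).mono (min_le_right _ _) hψ (fun x u w => e x (m.trans_lt u) w)
    fun x u w => hle x (m.trans_lt u) w

lemma domW_cell {β : ℝ → ℝ} {x0 x1 η : ℝ} {Λ : A} (h01 : x0 ≤ x1) (hp : ∀ b ∈ a.past, b.2 ≤ x0 ∨ x1 ≤ b.2)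
    (h : DomI β x0 x1 η Λ) : a.DomW β x0 x1 η (a.den x0 • Λ) := by
  refine ⟨fun z => if z ≤ x0 then Λ else 0, fun b hb => ?_, ?_⟩
  · by_cases hz : b.2 ≤ x0
    · simp only [if_pos hz]
      rwa [max_eq_right hz, min_eq_left h01]
    · simp only [if_neg hz]
      rw [min_eq_right (((hp b hb).resolve_left hz).trans (le_max_left _ _))]
      exact domI_refl β x1 η
  · rw [Sl.den, tb_sum_smul]
    congr 1
    refine List.map_congr_left fun b _ => ?_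
    by_cases hz : b.2 ≤ x0
    · simp only [if_pos hz]
    · simp only [if_neg hz, smul_zero, zero_smul]

lemma domW_top {β : ℝ → ℝ} {x0 x1 η : ℝ} {Λ : A} (h01 : x0 ≤ x1) (hp : ∀ b ∈ a.past, b.2 ≤ x0)
    (h : DomI β x0 x1 η Λ) : a.DomW β x0 x1 η (a.μ • Λ) := by
  refine ⟨fun _ => Λ, fun b hb => ?_, ?_⟩
  · rwa [max_eq_right (hp b hb), min_eq_left h01]
  · rw [Sl.μ, tb_sum_smul]

lemma tb_ev_pt (k : ℤ) (c : ℝ) {H : ℤ → ℝ} (h0 : H 0 = 0) : ev (pt k c) H = c * H k := by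
  rw [ev_pt, h0]
  ring

lemma pos_ptp (k : ℤ) {f : ℝ} (h0 : 0 ≤ f) (h1 : f ≤ 1) : Pos (ptp k f) :=
  (pos_pt _ (sub_nonneg.2 h1)).add (pos_pt _ h0)
lemma mass_ptp (k : ℤ) (f : ℝ) :
    mass (ptp k f) = (if k = 0 then 0 else 1 - f) + (if k + 1 = 0 then 0 else f) := by
  rw [mass, ptp, ev_add]
  unfold pt
  congr 1 <;> split_ifs <;> simp [ev_zero, ev_sg]
lemma m1_ptp (k : ℤ) (f : ℝ) : m1 (ptp k f) = k + f := by
  rw [m1, ptp, ev_add, tb_ev_pt _ _ (by simp), tb_ev_pt _ _ (by simp)]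
  push_cast
  ring
lemma m2_ptp (k : ℤ) (f : ℝ) : m2 (ptp k f) = (k : ℝ) ^ 2 + f * (2 * k + 1) := by
  rw [m2, ptp, ev_add, tb_ev_pt _ _ (by simp), tb_ev_pt _ _ (by simp)]
  push_cast
  ring
lemma np_ptp {k : ℤ} {f : ℝ} (h : k < 0 ∨ (k = 0 ∧ f = 0)) : NP (ptp k f) := by
  rcases h with h | ⟨rfl, rfl⟩
  · exact (np_pt h.le _).add (np_pt (by omega) _)
  · refine (np_pt le_rfl _).add fun g _ => ?_
    rw [pt, if_neg (by norm_num), ev_sg, zero_mul]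
lemma nn_ptp {k : ℤ} (f : ℝ) (h : 0 ≤ k) : NN (ptp k f) :=
  (nn_pt h _).add (nn_pt (by omega) _)
lemma m1_add (f g : A) : m1 (f + g) = m1 f + m1 g := ev_add _ _ _
lemma m2_add (f g : A) : m2 (f + g) = m2 f + m2 g := ev_add _ _ _
lemma m1_smul (c : ℝ) (f : A) : m1 (c • f) = c * m1 f := ev_smul _ _ _
lemma m2_smul (c : ℝ) (f : A) : m2 (c • f) = c * m2 f := ev_smul _ _ _

lemma mixOK_base {Λ N E En : A} {W W' : ℝ} (hE : SP Λ E) (hN : SP N En) (hW : 0 ≤ W) (hW' : 0 ≤ W') :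
    MixOK Λ N W W' (E * (W • (1 : A) + W' • En)) :=
  ⟨hE.1.mul ((pos_one.smul hW).add (hN.1.smul hW')), E, En, hE, hN, Le.refl _⟩
lemma MixOK.mono {Λ N f f' : A} {W W' : ℝ} (h : MixOK Λ N W W' f) (hf : Pos f') (hle : Le f' f) :
    MixOK Λ N W W' f' := by
  obtain ⟨-, E, En, h1, h2, h3⟩ := h
  exact ⟨hf, E, En, h1, h2, hle.trans h3⟩
lemma MixOK.mul {Λ Λ' N f g : A} {W W' : ℝ} (hΛ : Pos Λ) (hΛ' : Pos Λ') (hW : 0 ≤ W) (hW' : 0 ≤ W')
    (h : MixOK Λ N W W' f) (hg : SP Λ' g) : MixOK (Λ + Λ') N W W' (f * g) := by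
  have _ := hW
  have _ := hW'
  obtain ⟨hf, E, En, h1, h2, h3⟩ := h
  refine ⟨hf.mul hg.1, E * g, En, SP.mul hΛ hΛ' h1 hg, h2, ?_⟩
  rw [mul_right_comm]
  exact Le.mul hf hg.1 h3 (Le.refl g)
lemma MixOK.mass_le {Λ N f : A} {W W' : ℝ} (hΛ : Pos Λ) (hN : Pos N) (hW : 0 ≤ W) (hW' : 0 ≤ W')
    (h : MixOK Λ N W W' f) : mass f ≤ W + W' := by
  obtain ⟨-, E, En, h1, h2, h3⟩ := h
  refine (h3.ev_le fun _ => zero_le_one).trans ?_
  change mass _ ≤ _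
  have e : mass (W • (1 : A) + W' • En) = W + W' * mass En := by
    rw [mass, ev_add, ev_smul, ev_smul, ev_one, mul_one, mass]
  rw [mass_mul, e]
  have a1 := h1.mass_le hΛ
  have a2 := h2.mass_le hN
  have a3 := h2.1.mass_nonneg
  have a4 : W' * mass En ≤ W' := mul_le_of_le_one_right hW' a2
  exact (mul_le_of_le_one_left (by positivity) a1).trans (by linarith)

/-- the earlier slabs with their jump measures -/
def tbL (a : Sl) (L : ℝ → A) : List (ℕ × ℝ × A) := a.past.map fun b => (b.1, b.2, L b.2)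

lemma tb_tot (L : ℝ → A) :
    tot a.D (tbL a L) = (a.past.map fun b => ((b.1 : ℝ) / a.D) • L b.2).sum := by
  simp [tot, tbL, Function.comp_def]

lemma tb_ok (ha : a.OK) : ∀ᶠ q : ℕ in atTop, 0 < q ∧ (a.p q).OK := by
  have d0 : (0 : ℝ) < a.D := by exact_mod_cast ha.D0
  have s0 : (0 : ℝ) < a.σ := by exact_mod_cast ha.σ0
  have hX := ha.X
  have x0 : 0 < a.X := ha.z0.trans_le ha.zX
  filter_upwards [wts_ev_big ha.D0 a.X, eventually_gt_atTop 0] with q h1 h2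
  have q0 : (0 : ℝ) < q := by exact_mod_cast h2
  refine ⟨h2, x0, h1, Nat.mul_pos ha.σ0 h2, ?_⟩
  simp only [Sl.p, mkP, Par.s]
  push_cast
  rw [← hX]
  field_simp
  ring

lemma tb_ev_all {D : ℕ} (hD : 0 < D) {l : List (ℕ × ℝ × A)} (hl : ∀ p ∈ l, Pos p.2.2) :
    ∀ᶠ q : ℕ in atTop, ∀ p ∈ l, Pos (Tn ((D * q : ℕ) : ℝ) p.2.1 p.2.2) := by
  induction l with
  | nil => simp
  | cons p l ih =>
    filter_upwards [ev_pos_Tn hD p.2.1 (hl p List.mem_cons_self),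
      ih fun r hr => hl r (List.mem_cons_of_mem _ hr)] with q h1 h2 r hr
    rcases List.mem_cons.1 hr with rfl | hr
    exacts [h1, h2 r hr]

lemma tb_pos_law {D q : ℕ} {l : List (ℕ × ℝ × A)}
    (hl : ∀ p ∈ l, Pos (Tn ((D * q : ℕ) : ℝ) p.2.1 p.2.2)) : Pos (law D q l) := by
  induction l with
  | nil => exact pos_one
  | cons p l ih =>
    rw [law_cons]
    exact ((hl p List.mem_cons_self).pow _).mul (ih fun r hr => hl r (List.mem_cons_of_mem _ hr))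

/-- the steps of the earlier slabs -/
def tbS (q : ℕ) (l : List (ℕ × ℝ)) (L : ℝ → A) : List (ℝ × A) :=
  (l.map fun b => List.replicate (b.1 * q) (b.2, L b.2)).flatten

lemma tbS_fst (q : ℕ) (l : List (ℕ × ℝ)) (L : ℝ → A) :
    ((tbS q l L).map fun r => r.1) = zsOf q l := by
  induction l with
  | nil => rfl
  | cons b l ih =>
    simp only [tbS, zsOf, List.map_cons, List.flatten_cons, List.map_append, List.map_replicate] at ih ⊢
    rw [ih]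

lemma tbS_prod (D q : ℕ) (l : List (ℕ × ℝ)) (L : ℝ → A) :
    ((tbS q l L).map fun r => Tn ((D * q : ℕ) : ℝ) r.1 r.2).prod =
      law D q (l.map fun b => (b.1, b.2, L b.2)) := by
  induction l with
  | nil => rfl
  | cons b l ih =>
    rw [List.map_cons, law_cons, ← ih]
    simp only [tbS, List.map_cons, List.flatten_cons, List.map_append, List.map_replicate,
      List.prod_append, List.prod_replicate]

lemma tbS_mem {q : ℕ} {l : List (ℕ × ℝ)} {L : ℝ → A} {r : ℝ × A} (h : r ∈ tbS q l L) :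
    ∃ b ∈ l, r = (b.2, L b.2) := by
  obtain ⟨s, hs, hr⟩ := List.mem_flatten.1 h
  obtain ⟨b, hb, rfl⟩ := List.mem_map.1 hs
  exact ⟨b, hb, List.eq_of_mem_replicate hr⟩

lemma tb_pos_spl (k : ℤ) {f : ℝ} (h0 : 0 ≤ f) (h1 : f ≤ 1) : Pos (spl k f) :=
  (pos_sg _ (sub_nonneg.2 h1)).add (pos_sg _ h0)

lemma tb_mass_spl (k : ℤ) (f : ℝ) : mass (spl k f) = 1 := by
  rw [mass, spl, ev_add, ev_sg, ev_sg]
  ring

lemma tb_surv (q k : ℕ) :
    Surv (a.p q) (List.replicate k a.z ++ zsOf q a.past) = sv (a.n q) a.z k * a.S0 q := by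
  simp only [Surv, Sl.S0, sv, List.map_append, List.map_replicate, List.prod_append,
    List.prod_replicate]
  rfl

/-- the mean of one convex functional at step `i` -/
lemma tb_step (ha : a.OK) {q : ℕ} (hp : (a.p q).OK) {β : ℝ → ℝ} {η : ℝ} (hη : 0 ≤ η) {L : ℝ → A} {N : A}
    (hL : ∀ b ∈ a.past, DomI β (min (max b.2 0) a.X) a.X η (L b.2)) (hN : DomI β a.z a.X η N)
    (h1 : NP N ∨ NN N) (hT : Pos (Tn (a.n q) a.z N))
    (hTs : ∀ p ∈ tbL a L, Pos (Tn (a.n q) p.2.1 p.2.2))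
    {g : ℝ → ℝ} (hg : TF g) (y : ℝ) {i : ℕ} (hi : i < a.d * q) :
    Mz (a.p q) (a.zs q i) (fun ξ => ENNReal.ofReal (g (y + (ξ.map β).sum))) ≤
      ENNReal.ofReal (a.S0 q * (sv (a.n q) a.z (a.d * q - i) *
        ((i : ℝ) / (a.d * q : ℕ) * ev (law a.D q (tbL a L)) (fun j => g (y + j * η)) +
        (1 - (i : ℝ) / (a.d * q : ℕ)) *
          ev (law a.D q ((a.d, a.z, N) :: tbL a L)) (fun j => g (y + j * η))))) := by
  have hK : 0 < a.d * q := by omega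
  have k0 : (0 : ℝ) < (a.d * q : ℕ) := by exact_mod_cast hK
  have h := Mz_lat hp (β := β) (η := η) (List.replicate (a.d * q - i) (a.z, N) ++ tbS q a.past L) (by
    intro r hr
    rcases List.mem_append.1 hr with hr | hr
    · obtain rfl := List.eq_of_mem_replicate hr
      exact ⟨ha.z0.le, ha.zX, hN, hT⟩
    · obtain ⟨b, hb, rfl⟩ := tbS_mem hr
      obtain ⟨b0, b1⟩ := ha.pz b hb
      have := hL b hb
      rw [max_eq_left b0, min_eq_left (b1.trans ha.zX)] at this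
      exact ⟨b0, b1.trans ha.zX, this, hTs (b.1, b.2, L b.2) (List.mem_map.2 ⟨b, hb, rfl⟩)⟩) hg y
  have e1 : ((List.replicate (a.d * q - i) (a.z, N) ++ tbS q a.past L).map
      fun r : ℝ × A => r.1) = a.zs q i := by
    rw [List.map_append, List.map_replicate, tbS_fst]
    rfl
  have e2 : ((List.replicate (a.d * q - i) (a.z, N) ++ tbS q a.past L).map
      fun r : ℝ × A => Tn (a.p q).n r.1 r.2).prod =
      law a.D q (tbL a L) * Tn (a.n q) a.z N ^ (a.d * q - i) := by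
    have e0 : (a.p q).n = ((a.D * q : ℕ) : ℝ) := rfl
    rw [List.map_append, List.map_replicate, List.prod_append, List.prod_replicate, mul_comm, e0,
      tbS_prod]
    rfl
  rw [e1, e2] at h
  refine h.trans (ENNReal.ofReal_le_ofReal ?_)
  have c := law_chord (y := y) (tb_pos_law hTs) hN.1 hT h1 hη hg.1 hK (Nat.sub_le _ i)
  have e3 : ((a.d * q - i : ℕ) : ℝ) / (a.d * q : ℕ) = 1 - (i : ℝ) / (a.d * q : ℕ) := by
    rw [Nat.cast_sub hi.le]
    field_simp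
  rw [e3, sub_sub_cancel] at c
  have e4 : law a.D q ((a.d, a.z, N) :: tbL a L) = law a.D q (tbL a L) * Tn (a.n q) a.z N ^ (a.d * q) := by
    rw [law_cons, mul_comm]
    rfl
  have s0 : 0 ≤ Surv (a.p q) (a.zs q i) := by
    refine (Surv_pos hp fun z hz => ?_).le
    rw [← e1] at hz
    obtain ⟨r, hr, rfl⟩ := List.mem_map.1 hz
    rcases List.mem_append.1 hr with hr | hr
    · obtain rfl := List.eq_of_mem_replicate hr
      exact ⟨ha.z0.le, ha.zX⟩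
    · obtain ⟨b, hb, rfl⟩ := tbS_mem hr
      exact ⟨(ha.pz b hb).1, (ha.pz b hb).2.trans ha.zX⟩
  rw [e4]
  refine (mul_le_mul_of_nonneg_left c s0).trans_eq ?_
  rw [Sl.zs, tb_surv]
  ring

/-- what the limit gives for one jump function -/
lemma tb_side (ha : a.OK) {β : ℝ → ℝ} {η : ℝ} {L : ℝ → A} {N F : A} {W W' : ℝ} (hW : 0 ≤ W) (hW' : 0 ≤ W')
    (hL : ∀ b ∈ a.past, DomI β (min (max b.2 0) a.X) a.X η (L b.2)) (hN : DomI β a.z a.X η N)
    (hF : MixOK (tot a.D (tbL a L)) (a.Δ • N) W W' F) :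
    ∀ᶠ q : ℕ in atTop, Pos (Tn (a.n q) a.z N) ∧ (∀ p ∈ tbL a L, Pos (Tn (a.n q) p.2.1 p.2.2)) ∧
      Le F (W • law a.D q (tbL a L) + W' • law a.D q ((a.d, a.z, N) :: tbL a L)) := by
  obtain ⟨-, E, En, h1, h2, h3⟩ := hF
  have hl : ∀ p ∈ tbL a L, 0 ≤ p.2.1 ∧ Pos p.2.2 := fun p hp => by
    obtain ⟨b, hb, rfl⟩ := List.mem_map.1 hp
    exact ⟨(ha.pz b hb).1, (hL b hb).1⟩
  have h2' : SP (tot a.D [(a.d, a.z, N)]) En := by
    simpa [tot, Sl.Δ] using h2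
  filter_upwards [ev_pos_Tn ha.D0 a.z hN.1, tb_ev_all ha.D0 fun p hp => (hl p hp).2,
    SP.low ha.D0 hl h1, SP.low ha.D0 (l := [(a.d, a.z, N)]) (by simpa using ⟨ha.z0.le, hN.1⟩) h2']
    with q e1 e2 e3 e4
  refine ⟨e1, e2, h3.trans ?_⟩
  have := Le.mul h1.1 ((pos_one.smul hW).add (h2.1.smul hW')) e3
    (((Le.refl 1).smul hW).add (e4.smul hW'))
  refine this.trans (le_of_eq_add pos_zero ?_)
  rw [law_cons, law_cons, show law a.D q [] = 1 from rfl]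
  algebra

lemma tb_mom {D : ℕ} (hD : 0 < D) (l : List (ℕ × ℝ × A)) (hl : ∀ p ∈ l, Pos p.2.2) (c : ℝ) (k : ℤ)
    {f ε : ℝ} (h0 : 0 ≤ f) (h1 : f ≤ 1) (hε : 0 < ε) : ∀ᶠ q : ℕ in atTop,
      ev (law D q l * spl k f) (fun j => ((j : ℝ) + c) ^ 2) ≤ mom c (tot D l) k f + ε := by
  filter_upwards [law_mom hD l hl (c + k) hε, law_mom hD l hl (c + k + 1) hε] with q e1 e2
  have e : ev (law D q l * spl k f) (fun j => ((j : ℝ) + c) ^ 2) =
      (1 - f) * ev (law D q l) (fun j => ((j : ℝ) + (c + k)) ^ 2) +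
        f * ev (law D q l) (fun j => ((j : ℝ) + (c + k + 1)) ^ 2) := by
    rw [ev_mul, ← ev_mul_fun, ← ev_mul_fun, ← ev_add_fun]
    congr 1
    funext i
    rw [spl, ev_add, ev_sg, ev_sg]
    push_cast
    ring
  rw [e, mom]
  have a1 := mul_le_mul_of_nonneg_left e1 (sub_nonneg.2 h1)
  have a2 := mul_le_mul_of_nonneg_left e2 h0
  nlinarith

lemma tb_ev_mul (P S : A) (h : ℝ → ℝ) (η y : ℝ) :
    ev (P * S) (fun j => h (j * η - y)) = ev P fun i => ev S fun j => h (-y + i * η + j * η) := by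
  rw [ev_mul]
  congr 1
  funext i
  congr 1
  funext j
  congr 1
  push_cast
  ring

/-- one jump function with one offset -/
lemma tb_one (ha : a.OK) {β : ℝ → ℝ} {η : ℝ} (hη : 0 ≤ η) {Λ N F : A} {W W' : ℝ}
    (hW : 0 ≤ W) (hW' : 0 ≤ W') (hΛ : a.DomW β 0 a.X η Λ) (hN : DomI β a.z a.X η N) (h1 : NP N ∨ NN N)
    (hF : MixOK Λ (a.Δ • N) W W' F) {k : ℤ} {f o : ℝ} (s : 0 ≤ f ∧ f ≤ 1 ∧ o ≤ (k + f) * η) (c : ℝ)
    {ε : ℝ} (hε : 0 < ε) : ∀ᶠ q : ℕ in atTop, ∃ P P' : A, Pos P ∧ Pos P' ∧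
      (ev P fun _ => 1) = 1 ∧ (ev P' fun _ => 1) = 1 ∧ Le (F * spl k f) (W • P + W' • P') ∧
      ev P (fun j => ((j : ℝ) + c) ^ 2) ≤ mom c Λ k f + ε ∧
      ev P' (fun j => ((j : ℝ) + c) ^ 2) ≤ mom c (Λ + a.Δ • N) k f + ε ∧
      ∀ h, TF h → ∀ y, ∀ i < a.d * q,
        Mz (a.p q) (a.zs q i) (fun ξ => ENNReal.ofReal (h ((ξ.map β).sum + o - y))) ≤
          ENNReal.ofReal (a.S0 q * (sv (a.n q) a.z (a.d * q - i) *
            ((i : ℝ) / (a.d * q : ℕ) * ev P (fun j => h (j * η - y)) +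
              (1 - (i : ℝ) / (a.d * q : ℕ)) * ev P' (fun j => h (j * η - y))))) := by
  obtain ⟨L, hL, rfl⟩ := hΛ
  rw [← tb_tot] at hF ⊢
  have e : tot a.D (tbL a L) + a.Δ • N = tot a.D ((a.d, a.z, N) :: tbL a L) := by
    rw [tot_cons, add_comm]
    rfl
  rw [e]
  have pa : ∀ p ∈ tbL a L, Pos p.2.2 := fun p hp => by
    obtain ⟨b, hb, rfl⟩ := List.mem_map.1 hp
    exact (hL b hb).1
  have pa' : ∀ p ∈ (a.d, a.z, N) :: tbL a L, Pos p.2.2 := List.forall_mem_cons.2 ⟨hN.1, pa⟩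
  have pS := tb_pos_spl k s.1 s.2.1
  filter_upwards [tb_ok ha, tb_side ha hW hW' hL hN hF, tb_mom ha.D0 _ pa c k s.1 s.2.1 hε,
    tb_mom ha.D0 _ pa' c k s.1 s.2.1 hε] with q ⟨_, hp⟩ ⟨ta, tas, la⟩ n1 n2
  have p1 : Pos (law a.D q (tbL a L)) := tb_pos_law tas
  have p2 : Pos (law a.D q ((a.d, a.z, N) :: tbL a L)) :=
    tb_pos_law (List.forall_mem_cons.2 ⟨ta, tas⟩)
  have m : ∀ l : List (ℕ × ℝ × A), (ev (law a.D q l * spl k f) fun _ => 1) = 1 := fun l => by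
    change mass _ = 1
    rw [mass_mul, mass_law, tb_mass_spl, one_mul]
  refine ⟨_, _, p1.mul pS, p2.mul pS, m _, m _, ?_, n1, n2, fun h hh y i hi => ?_⟩
  · have := Le.mul hF.1 pS la (Le.refl _)
    rwa [add_mul, smul_mul_assoc, smul_mul_assoc] at this
  · have sa := tb_step ha hp hη hL hN h1 ta tas (hh.ev pS η) (-y) hi
    simp only [← tb_ev_mul] at sa
    refine (Mz_mono' _ fun ξ => ENNReal.ofReal_le_ofReal ?_).trans sa
    rw [show (ξ.map β).sum + o - y = -y + (ξ.map β).sum + o by ring]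
    exact split_le hh s.2.2 s.1 s.2.1 _

theorem tab_of (ha : a.OK) (hv : EnvOK a v) {Waa Wab Wba Wbb : ℝ} (hW : WOK a v Waa Wab Wba Wbb) {t : Jm}
    (m0 : Measurable t.βa0) (m1 : Measurable t.βa1) (m2 : Measurable t.βb0) (m3 : Measurable t.βb1)
    {η : ℝ} (hη : 0 ≤ η) {Λ0 Λ1 Λ2 Λ3 Na Nb F0 F1 F2 F3 G : A}
    (hΛ0 : a.DomW t.βa0 0 a.X η Λ0) (hΛ1 : a.DomW t.βa1 0 a.X η Λ1)
    (hΛ2 : a.DomW t.βb0 0 a.X η Λ2) (hΛ3 : a.DomW t.βb1 0 a.X η Λ3)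
    (hN0 : DomI t.βa0 a.z a.X η Na) (hN1 : DomI t.βa1 a.z a.X η Na) (h1a : NP Na ∨ NN Na)
    (hN2 : DomI t.βb0 a.z a.X η Nb) (hN3 : DomI t.βb1 a.z a.X η Nb) (h1b : NP Nb ∨ NN Nb)
    (hF0 : MixOK Λ0 (a.Δ • Na) Waa Wab F0) (hF1 : MixOK Λ1 (a.Δ • Na) Waa Wab F1)
    (hF2 : MixOK Λ2 (a.Δ • Nb) Wba Wbb F2) (hF3 : MixOK Λ3 (a.Δ • Nb) Wba Wbb F3)
    {k0 k1 k2 k3 : ℤ} {f0 f1 f2 f3 : ℝ}
    (s0 : 0 ≤ f0 ∧ f0 ≤ 1 ∧ t.a0 ≤ (k0 + f0) * η) (s1 : 0 ≤ f1 ∧ f1 ≤ 1 ∧ t.a1 ≤ (k1 + f1) * η)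
    (s2 : 0 ≤ f2 ∧ f2 ≤ 1 ∧ t.b0 ≤ (k2 + f2) * η) (s3 : 0 ≤ f3 ∧ f3 ≤ 1 ∧ t.b1 ≤ (k3 + f3) * η)
    (hG : Le G ((1 / 2 : ℝ) • (F0 * spl k0 f0 + F1 * spl k1 f1 + (F2 * spl k2 f2 + F3 * spl k3 f3))))
    {c Q : ℝ}
    (hQ : (Waa * mom c Λ0 k0 f0 + Wab * mom c (Λ0 + a.Δ • Na) k0 f0 +
        (Waa * mom c Λ1 k1 f1 + Wab * mom c (Λ1 + a.Δ • Na) k1 f1) +
        (Wba * mom c Λ2 k2 f2 + Wbb * mom c (Λ2 + a.Δ • Nb) k2 f2 +
        (Wba * mom c Λ3 k3 f3 + Wbb * mom c (Λ3 + a.Δ • Nb) k3 f3))) / 2 < Q) :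
    a.Tab v t η G c Q := by
  have wu0 : 0 < v.wu := (Real.exp_pos _).trans hv.hu
  have wu1 : 0 < 1 - v.wu := sub_pos.2 hv.wu1
  have aa0 := hW.aa0
  have ab0 := hW.ab0
  have ba0 : 0 ≤ Wba := le_trans (by positivity) hW.ba.le
  have bb0 : 0 ≤ Wbb := le_trans (by positivity) hW.bb.le
  have w1 := hW.one
  have hε := sub_pos.2 hQ
  set ε := Q - _ with hε'
  filter_upwards [tb_ok ha, tb_one ha hη aa0 ab0 hΛ0 hN0 h1a hF0 s0 c hε,
    tb_one ha hη aa0 ab0 hΛ1 hN1 h1a hF1 s1 c hε, tb_one ha hη ba0 bb0 hΛ2 hN2 h1b hF2 s2 c hε,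
    tb_one ha hη ba0 bb0 hΛ3 hN3 h1b hF3 s3 c hε,
    ev_weights (X := a.X) ha.D0 ha.d0 ha.z0 hv.hl hv.hu hv.wl0.le hv.wu1 hW.aa hW.ab hW.ba hW.bb,
    ev_sv ha.D0 hv.hl hv.hu]
    with q ⟨q0, hp⟩ ⟨P0, R0, p0, r0, x0, y0, e0, n0, o0, z0⟩ ⟨P1, R1, p1, r1, x1, y1, e1, n1, o1, z1⟩
      ⟨P2, R2, p2, r2, x2, y2, e2, n2, o2, z2⟩ ⟨P3, R3, p3, r3, x3, y3, e3, n3, o3, z3⟩
      ⟨u1, u2, u3, u4⟩ ⟨_, hsv⟩
  have key : ∀ H : ℤ → ℝ, ev ((1 / 2 : ℝ) • (Waa • P0 + Wab • R0 + (Waa • P1 + Wab • R1) +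
      (Wba • P2 + Wbb • R2 + (Wba • P3 + Wbb • R3)))) H =
      Waa * ((ev P0 H + ev P1 H) / 2) + Wab * ((ev R0 H + ev R1 H) / 2) +
        Wba * ((ev P2 H + ev P3 H) / 2) + Wbb * ((ev R2 H + ev R3 H) / 2) := by
    intro H
    simp only [ev_add, ev_smul]
    ring
  refine ⟨_, ((((p0.smul aa0).add (r0.smul ab0)).add ((p1.smul aa0).add (r1.smul ab0))).add
    (((p2.smul ba0).add (r2.smul bb0)).add ((p3.smul ba0).add (r3.smul bb0)))).smul one_half_pos.le,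
    hG.trans (((e0.add e1).add (e2.add e3)).smul one_half_pos.le), ?_, ?_, ?_⟩
  · rw [mass, key, x0, x1, x2, x3, y0, y1, y2, y3]
    linarith
  · rw [key]
    have b1 := mul_le_mul_of_nonneg_left (add_le_add n0 n1) aa0
    have b2 := mul_le_mul_of_nonneg_left (add_le_add o0 o1) ab0
    have b3 := mul_le_mul_of_nonneg_left (add_le_add n2 n3) ba0
    have b4 := mul_le_mul_of_nonneg_left (add_le_add o2 o3) bb0
    have b5 := mul_le_mul_of_nonneg_right w1 hε.le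
    linarith
  intro fam h hh y
  have H0 : ∀ j : ℤ, 0 ≤ h (j * η - y) := fun j => hh.2.2 _
  have A0 := p0 _ H0
  have A1 := p1 _ H0
  have A2 := p2 _ H0
  have A3 := p3 _ H0
  have B0 := r0 _ H0
  have B1 := r1 _ H0
  have B2 := r2 _ H0
  have B3 := r3 _ H0
  rw [key]
  replace z0 := z0 h hh y
  replace z1 := z1 h hh y
  replace z2 := z2 h hh y
  replace z3 := z3 h hh y
  generalize ev P0 (fun j => h (j * η - y)) = E0 at *
  generalize ev P1 (fun j => h (j * η - y)) = E1 at *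
  generalize ev P2 (fun j => h (j * η - y)) = E2 at *
  generalize ev P3 (fun j => h (j * η - y)) = E3 at *
  generalize ev R0 (fun j => h (j * η - y)) = D0 at *
  generalize ev R1 (fun j => h (j * η - y)) = D1 at *
  generalize ev R2 (fun j => h (j * η - y)) = D2 at *
  generalize ev R3 (fun j => h (j * η - y)) = D3 at *
  have zn : a.z < a.n q := ha.zX.trans_lt hp.Xn
  refine ⟨fun i => sv (a.n q) a.z (a.d * q - i) *
    (a.l q i * ((i : ℝ) / (a.d * q : ℕ) * ((E0 + E1) / 2) +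
        (1 - (i : ℝ) / (a.d * q : ℕ)) * ((D0 + D1) / 2)) +
      (1 - a.l q i) * ((i : ℝ) / (a.d * q : ℕ) * ((E2 + E3) / 2) +
        (1 - (i : ℝ) / (a.d * q : ℕ)) * ((D2 + D3) / 2))), ?_, ?_⟩
  · have b1 := mul_le_mul_of_nonneg_right u1 (show 0 ≤ (E0 + E1) / 2 by positivity)
    have b2 := mul_le_mul_of_nonneg_right u2 (show 0 ≤ (D0 + D1) / 2 by positivity)
    have b3 := mul_le_mul_of_nonneg_right u3 (show 0 ≤ (E2 + E3) / 2 by positivity)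
    have b4 := mul_le_mul_of_nonneg_right u4 (show 0 ≤ (D2 + D3) / 2 by positivity)
    rw [Finset.sum_mul] at b1 b2 b3 b4
    have b5 := add_le_add (add_le_add b1 b2) (add_le_add b3 b4)
    rw [← Finset.sum_add_distrib, ← Finset.sum_add_distrib, ← Finset.sum_add_distrib] at b5
    have b6 := mul_le_mul_of_nonneg_right hv.Δ'.le
      (show 0 ≤ Waa * ((E0 + E1) / 2) + Wab * ((D0 + D1) / 2) + Wba * ((E2 + E3) / 2) +
        Wbb * ((D2 + D3) / 2) by positivity)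
    refine le_trans (le_of_eq ?_) (b5.trans (le_trans (le_of_eq ?_) b6))
    · refine Finset.sum_congr rfl fun i _ => ?_
      simp only [Sl.l, Sl.n]
      ring
    · rw [Sl.Δ]
      ring
  intro i hi
  have hK : 0 < a.d * q := by omega
  have k0' : (0 : ℝ) < (a.d * q : ℕ) := by exact_mod_cast hK
  obtain ⟨l0, l1, -⟩ := lam_bounds ha.z0 zn hK hi.le hsv hv.wu1
  change 0 ≤ a.l q i at l0
  change a.l q i ≤ 1 at l1
  have l2 : 0 ≤ 1 - a.l q i := sub_nonneg.2 l1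
  have i0 : 0 ≤ (i : ℝ) / (a.d * q : ℕ) := by positivity
  have i1 : 0 ≤ 1 - (i : ℝ) / (a.d * q : ℕ) := by
    rw [sub_nonneg, div_le_one k0']
    exact_mod_cast hi.le
  have v0 : 0 ≤ sv (a.n q) a.z (a.d * q - i) := (sv_bounds ha.z0 zn le_rfl).1.le
  have S0 : 0 ≤ a.S0 q := by
    refine (Surv_pos hp fun z hz => ?_).le
    rw [← tbS_fst q a.past fun _ => 0] at hz
    obtain ⟨r, hr, rfl⟩ := List.mem_map.1 hz
    obtain ⟨b, hb, rfl⟩ := tbS_mem hr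
    exact ⟨(ha.pz b hb).1, (ha.pz b hb).2.trans ha.zX⟩
  have hm := hh.continuous.measurable
  have h0 := hh.2.2
  have me : ∀ {β : ℝ → ℝ}, Measurable β → ∀ r o : ℝ, Meas fun ξ => r * h ((ξ.map β).sum + o - y) :=
    fun hβ r o => (Meas.mapsum hβ).comp (g := fun u => r * h (u + o - y)) (by fun_prop)
  have l3 : 0 ≤ a.l q i / 2 := by positivity
  have l4 : 0 ≤ (1 - a.l q i) / 2 := by positivity
  have e : a.mix q t h y i = fun ξ => a.l q i / 2 * h ((ξ.map t.βa0).sum + t.a0 - y) +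
      (a.l q i / 2 * h ((ξ.map t.βa1).sum + t.a1 - y) +
      ((1 - a.l q i) / 2 * h ((ξ.map t.βb0).sum + t.b0 - y) +
      (1 - a.l q i) / 2 * h ((ξ.map t.βb1).sum + t.b1 - y))) := by
    funext ξ
    rw [Sl.mix]
    ring
  have g : ∀ {r : ℝ}, 0 ≤ r → ∀ u, 0 ≤ r * h u := fun hr u => mul_nonneg hr (h0 u)
  rw [e]
  refine ⟨by positivity, (me m0 _ _).add ((me m1 _ _).add ((me m2 _ _).add (me m3 _ _))),
    fun ξ => add_nonneg (g l3 _) (add_nonneg (g l3 _) (add_nonneg (g l4 _) (g l4 _))), fun _ => ?_⟩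
  rw [Sl.Ψ]
  simp only [ENNReal.ofReal_add (g l3 _) (add_nonneg (g l3 _) (add_nonneg (g l4 _) (g l4 _))),
    ENNReal.ofReal_add (g l3 _) (add_nonneg (g l4 _) (g l4 _)), ENNReal.ofReal_add (g l4 _) (g l4 _)]
  rw [Mz_add _ (me m0 _ _).ofReal, Mz_add _ (me m1 _ _).ofReal, Mz_add _ (me m2 _ _).ofReal]
  simp only [ENNReal.ofReal_mul l3, ENNReal.ofReal_mul l4, Mz_smul]
  refine (add_le_add (mul_le_mul_right (z0 i hi) _) (add_le_add (mul_le_mul_right (z1 i hi) _)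
    (add_le_add (mul_le_mul_right (z2 i hi) _) (mul_le_mul_right (z3 i hi) _)))).trans_eq ?_
  rw [← ENNReal.ofReal_mul l3, ← ENNReal.ofReal_mul l3, ← ENNReal.ofReal_mul l4,
    ← ENNReal.ofReal_mul l4, ← ENNReal.ofReal_add (by positivity) (by positivity),
    ← ENNReal.ofReal_add (by positivity) (by positivity),
    ← ENNReal.ofReal_add (by positivity) (by positivity)]
  congr 1
  ring

lemma ev_interp {G : A} (hG : Pos G) {η f : ℝ} (hη : 0 ≤ η) (k : ℤ) (h0 : 0 ≤ f) (h1 : f ≤ 1) :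
    ev G (fun j => max ((j : ℝ) * η - (k + f) * η) 0) ≤
      η * ((1 - f) * ev G (fun j => max ((j : ℝ) - k) 0) + f * ev G (fun j => max ((j : ℝ) - (k + 1)) 0)) := by
  rw [← ev_mul_fun, ← ev_mul_fun, ← ev_add_fun, ← ev_mul_fun]
  refine hG.mono fun j => max_le ?_ ?_
  · rw [← sub_mul, mul_comm]
    refine mul_le_mul_of_nonneg_left ?_ hη
    have a1 := mul_le_mul_of_nonneg_left (le_max_left ((j : ℝ) - k) 0) (sub_nonneg.2 h1)
    have a2 := mul_le_mul_of_nonneg_left (le_max_left ((j : ℝ) - (k + 1)) 0) h0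
    linarith
  · have := sub_nonneg.2 h1
    positivity

theorem look_lin (hv : EnvOK a v) {t : Jm} {η c Q Bw t0 y y' V : ℝ} {G : A} (h : a.Tab v t η G c Q)
    (hη : 0 ≤ η) (hB : 0 < Bw) (hc : c = Bw - t0) (hy : y ≤ y') (ht : t0 * η ≤ y')
    (hV : ev G (fun j => max ((j : ℝ) * η - y') 0) +
      η * (Q - ev G fun j => ((j : ℝ) + c) ^ 2) / (4 * Bw) + (y' - y) ≤ V) :
    a.Look v t (fun u => max u 0) y V := by
  refine h.mono fun q ⟨M, h1, h2, h3, h4, h5⟩ fam => (h5 fam _ tf_pos y).mono hv.Δ0 ?_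
  have a1 : ev M (fun j => max ((j : ℝ) * η - y) 0) ≤
      ev M (fun j => max ((j : ℝ) * η - y') 0) + (y' - y) * mass M := by
    rw [← ev_const, ← ev_add_fun]
    refine h1.mono fun j => max_le ?_ ?_
    · linarith [le_max_left ((j : ℝ) * η - y') 0]
    · linarith [le_max_right ((j : ℝ) * η - y') 0]
  have a2 := h2.deficit (h := fun j => max ((j : ℝ) * η - y') 0)
    (k := fun j => η / (4 * Bw) * ((j : ℝ) + c) ^ 2) fun j => by
      refine max_le ?_ (by positivity)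
      have b1 : (j : ℝ) - t0 ≤ ((j : ℝ) + c) ^ 2 / (4 * Bw) := by
        rw [le_div_iff₀ (by positivity), hc]
        nlinarith [sq_nonneg ((j : ℝ) - t0 - Bw)]
      have b2 := mul_le_mul_of_nonneg_left b1 hη
      have b3 : η / (4 * Bw) * ((j : ℝ) + c) ^ 2 = η * (((j : ℝ) + c) ^ 2 / (4 * Bw)) := by ring
      linarith
  rw [ev_mul_fun, ev_mul_fun] at a2
  have a3 := mul_le_mul_of_nonneg_left h4 (show 0 ≤ η / (4 * Bw) by positivity)
  have a4 := mul_le_of_le_one_right (sub_nonneg.2 hy) h3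
  have a5 : η * (Q - ev G fun j => ((j : ℝ) + c) ^ 2) / (4 * Bw) =
      η / (4 * Bw) * Q - η / (4 * Bw) * ev G fun j => ((j : ℝ) + c) ^ 2 := by ring
  linarith

theorem look_sq (hv : EnvOK a v) {t : Jm} {η c Q Bw t0 k y V : ℝ} {G : A} (h : a.Tab v t η G c Q)
    (hη : 0 ≤ η) (hB : 0 < Bw) (hc : c = Bw - t0) (hk : t0 ≤ k) (hy : k * η ≤ y)
    (hV : η ^ 2 * (ev G (fun j => (max ((j : ℝ) - k) 0) ^ 2) + (Q - ev G fun j => ((j : ℝ) + c) ^ 2)) ≤ V) :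
    a.Look v t (fun u => (max u 0) ^ 2) y V := by
  refine h.mono fun q ⟨M, h1, h2, _, h4, h5⟩ fam => (h5 fam _ tf_sq y).mono hv.Δ0 ?_
  have a1 : ev M (fun j => (max ((j : ℝ) * η - y) 0) ^ 2) ≤
      η ^ 2 * ev M (fun j => (max ((j : ℝ) - k) 0) ^ 2) := by
    rw [← ev_mul_fun]
    refine h1.mono fun j => ?_
    rw [← mul_pow]
    refine pow_le_pow_left₀ (le_max_right _ _) (max_le ?_ (by positivity)) 2
    have := mul_le_mul_of_nonneg_left (le_max_left ((j : ℝ) - k) 0) hη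
    linarith
  have a2 := h2.deficit (h := fun j => (max ((j : ℝ) - k) 0) ^ 2) (k := fun j => ((j : ℝ) + c) ^ 2)
    fun j => by
      rcases le_total ((j : ℝ) - k) 0 with b | b
      · rw [max_eq_right b]
        simpa using sq_nonneg ((j : ℝ) + c)
      · rw [max_eq_left b]
        exact pow_le_pow_left₀ b (by linarith) 2
  refine a1.trans (le_trans (mul_le_mul_of_nonneg_left ?_ (sq_nonneg η)) hV)
  linarith

end
end Pool.Agent.MP_3bf126_pr.H21
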