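import Pool.Agent.MP_3bf126_pr.H21.Pak2
import Pool.Agent.MP_3bf126_pr.H21.Table

/-! Soundness of a finished cell. -/

namespace Pool.Agent.MP_3bf126_pr.H21
open Filter Finset K
noncomputable section

lemma nsub_ge (a b : ℕ) : (a : ℝ) - b ≤ ((a - b : ℕ) : ℝ) := by
  rcases le_total b a with h | h
  · rw [Nat.cast_sub h]
  · have : (a : ℝ) ≤ b := by exact_mod_cast h
    have : (0 : ℝ) ≤ ((a - b : ℕ) : ℝ) := Nat.cast_nonneg _
    linarith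

lemma ndiv_lt (a : ℕ) {b : ℕ} (hb : 0 < b) : (a : ℝ) / b < ((a / b : ℕ) : ℝ) + 1 := by
  have hb' : (0 : ℝ) < b := by exact_mod_cast hb
  rw [div_lt_iff₀ hb']
  have h1 := Nat.div_add_mod a b
  have h2 := Nat.mod_lt a hb
  have h3 : (a : ℝ) = b * ((a / b : ℕ) : ℝ) + ((a % b : ℕ) : ℝ) := by exact_mod_cast h1.symm
  have h4 : ((a % b : ℕ) : ℝ) < b := by exact_mod_cast h2
  nlinarith

lemma off_ge (c s x c' : ℕ) : ((c : ℝ) + s * x - c') / 2 ^ 52 ≤ off c s x c' := by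
  have e : off c s x c' = (c + s * x - c') / 2 ^ 52 + 1 := by
    unfold off; rw [n_add, n_shr, n_sub, n_add, n_mul]
  rw [e]
  have h1 := nsub_ge (c + s * x) c'
  have h2 := ndiv_lt (c + s * x - c') (b := 2 ^ 52) (by positivity)
  rw [Nat.cast_add, Nat.cast_one]
  rw [Nat.cast_add, Nat.cast_mul] at h1
  rw [Nat.cast_pow, Nat.cast_ofNat] at h2
  exact (div_le_div_of_nonneg_right h1 (by positivity)).trans h2.le

lemma sqd_eq (a b : ℕ) : (sqd a b : ℝ) = ((a : ℝ) - b) ^ 2 := by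
  have e : sqd a b = (a - b + (b - a)) * (a - b + (b - a)) := rfl
  rw [e]
  rcases le_total b a with h | h
  · rw [Nat.sub_eq_zero_of_le h, add_zero, Nat.cast_mul, Nat.cast_sub h]; ring
  · rw [Nat.sub_eq_zero_of_le h, zero_add, Nat.cast_mul, Nat.cast_sub h]; ring

lemma ki_fi {E : ℕ} (hE : 0 < E) (y : ℕ) : (ki E y : ℝ) + fi E y = (y : ℝ) / E - 2 ^ 30 := by
  have hE' : (0 : ℝ) < E := by exact_mod_cast hE
  have h3 : (y : ℝ) = E * ((y / E : ℕ) : ℝ) + ((y % E : ℕ) : ℝ) := by exact_mod_cast (Nat.div_add_mod y E).symm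
  unfold ki fi
  rw [Int.cast_sub, Int.cast_natCast, Int.cast_pow, Int.cast_ofNat]
  generalize ((y / E : ℕ) : ℝ) = p at *
  generalize ((y % E : ℕ) : ℝ) = r at *
  rw [h3]; field_simp; ring

lemma fi_mem {E : ℕ} (hE : 0 < E) (y : ℕ) : 0 ≤ fi E y ∧ fi E y ≤ 1 := by
  have hE' : (0 : ℝ) < E := by exact_mod_cast hE
  refine ⟨by unfold fi; positivity, ?_⟩
  unfold fi
  rw [div_le_one hE']
  exact_mod_cast (Nat.mod_lt y hE).le

lemma rp_spt {E base y : ℕ} {t : Tb} {F : A} (hE : 0 < E) (h : TR t F) (hb : base ≤ t.o + y / E) :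
    Rp (1 / 2 ^ 95 * (1 / E)) (spt E base (t.o + y / E) t.v y) ((base : ℤ) - 2 ^ 31)
      (F * spl (ki E y) (fi E y)) := by
  have e : spt E base (t.o + y / E) t.v y =
      t.v * ((E - y % E) + y % E * 2 ^ 192) * 2 ^ (192 * (t.o + y / E - base)) := by
    unfold spt; rw [fN_eq, n_shl, n_mul, n_add, n_shl, n_mul, n_sub, n_sub, n_mod]
  rw [e]
  have h1 := (rx_spl hE (Nat.mod_lt y hE).le (ki E y)).rp
  have h2 := (Rp.mul (by positivity) (by positivity) h h1).shl (t.o + y / E - base)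
  have e2 : (t.o : ℤ) - 2 ^ 30 + ki E y - ((t.o + y / E - base : ℕ) : ℤ) = (base : ℤ) - 2 ^ 31 := by
    unfold ki; rw [Nat.cast_sub hb, Nat.cast_add]; ring
  rw [e2] at h2
  exact h2

lemma mq_eq (E den W W' bd gd : ℕ) (t n : Tb) (y : ℕ) : mq E den W W' bd gd t n y =
    W * (sqd (bd + t.mp + y * 2 ^ 37) (gd + t.mn) + (t.m2 * den + y % E * (E - y % E) * 2 ^ 74)) +
    W' * (sqd (bd + t.mp + y * 2 ^ 37 + n.mp) (gd + t.mn + n.mn) +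
      (t.m2 * den + y % E * (E - y % E) * 2 ^ 74 + n.m2 * den)) := by
  rw [← n_shl y, ← n_shl (y % E * (E - y % E))]
  rfl

lemma mq_ge {cx : Cx} (hc : CxOK cx) (W W' bw gb : ℕ) {t n : Tb} (y : ℕ) {Λ N : A}
    (h1 : Mom cx t Λ) (h2 : Mom cx n N) :
    (W : ℝ) / 2 ^ 64 * mom ((bw : ℝ) - ((gb : ℝ) - 2 ^ 30)) Λ (ki cx.E y) (fi cx.E y) +
      (W' : ℝ) / 2 ^ 64 * mom ((bw : ℝ) - ((gb : ℝ) - 2 ^ 30)) (Λ + N) (ki cx.E y) (fi cx.E y) ≤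
      (mq cx.E cx.den W W' (bw * cx.den) (gb * cx.den) t n y : ℝ) / (2 ^ 64 * ((cx.den : ℝ) * cx.den)) := by
  have hE := hc.E0
  have hE' : (0 : ℝ) < cx.E := by exact_mod_cast hE
  have hd : (cx.den : ℝ) = cx.E * 2 ^ 37 := by rw [hc.den]; push_cast; ring
  have hd0 : (0 : ℝ) < cx.den := by rw [hd]; positivity
  have hr : y % cx.E ≤ cx.E := (Nat.mod_lt y hE).le
  have k1 := ki_fi hE y
  have a1 : mom ((bw : ℝ) - ((gb : ℝ) - 2 ^ 30)) Λ (ki cx.E y) (fi cx.E y) ≤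
      ((((bw : ℝ) * cx.den + t.mp + y * 2 ^ 37) - (gb * cx.den + t.mn)) ^ 2 +
        (t.m2 * cx.den + ((y % cx.E : ℕ) : ℝ) * (cx.E - ((y % cx.E : ℕ) : ℝ)) * 2 ^ 74)) /
        ((cx.den : ℝ) * cx.den) := by
    unfold mom
    rw [add_assoc (_ + m1 Λ), k1, h1.1]
    refine le_trans (add_le_add (add_le_add le_rfl h1.2) le_rfl) (le_of_eq ?_)
    unfold fi
    rw [hd]; field_simp; ring
  have a2 : mom ((bw : ℝ) - ((gb : ℝ) - 2 ^ 30)) (Λ + N) (ki cx.E y) (fi cx.E y) ≤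
      ((((bw : ℝ) * cx.den + t.mp + y * 2 ^ 37 + n.mp) - (gb * cx.den + t.mn + n.mn)) ^ 2 +
        (t.m2 * cx.den + ((y % cx.E : ℕ) : ℝ) * (cx.E - ((y % cx.E : ℕ) : ℝ)) * 2 ^ 74 + n.m2 * cx.den)) /
        ((cx.den : ℝ) * cx.den) := by
    unfold mom
    rw [add_assoc (_ + m1 (Λ + N)), k1, m1_add, m2_add, h1.1, h2.1]
    refine le_trans (add_le_add (add_le_add le_rfl (add_le_add h1.2 h2.2)) le_rfl) (le_of_eq ?_)
    unfold fi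
    rw [hd]; field_simp; ring
  refine le_trans (add_le_add (mul_le_mul_of_nonneg_left a1 (by positivity))
    (mul_le_mul_of_nonneg_left a2 (by positivity))) (le_of_eq ?_)
  rw [mq_eq]
  simp only [Nat.cast_add, Nat.cast_mul, sqd_eq, Nat.cast_sub hr, Nat.cast_pow, Nat.cast_ofNat]
  field_simp

lemma lit192 : (6277101735386680763835789423207666416102355444464034512895 : ℕ) = 2 ^ 192 - 1 := by
  norm_num
lemma lit384 : (39402006196394479212279040100143613805079739270465446667948293404245721771497210611414266254884915640806627990306815 : ℕ) =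
    2 ^ 384 - 1 := by
  rw [show 384 = 192 + 192 from rfl, pow_add]; norm_num

lemma look_eq (E gb c2 df yb : ℕ) : look E gb c2 df yb =
    ((E - max yb (gb * E) % E) * dig c2 (max yb (gb * E) / E - gb) +
      max yb (gb * E) % E * dig c2 (max yb (gb * E) / E - gb + 1)) / (E * 2 ^ 72) + 1 + df +
      (gb * E - yb) * 2 ^ 24 := by
  rw [← (dig_two c2 _).1, ← (dig_two c2 _).2, ← lit192, ← lit384, ← mx_eq, ← n_shl E, ← n_shl (gb * E - yb),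
    ← n_shr c2, ← n_shr _ 192]
  rfl

lemma mkQ_spec {β : Type} (c2 : ℕ) (k : ℕ → ℕ → β) (J : ℕ) : ∀ (h m : ℕ) (U : ℕ → ℕ), (∀ j, U j < 4096) →
    ∃ U' : ℕ → ℕ, (∀ j, U' j < 4096) ∧
      mkQ c2 J h (ns U m) (ns (fun j => dig c2 (U j) / 2 ^ 72) m) k =
        k (ns U' (m + J)) (ns (fun j => dig c2 (U' j) / 2 ^ 72) (m + J)) := by
  induction J with
  | zero => intro h m U hU; exact ⟨U, hU, rfl⟩
  | succ J ih =>
    intro h m U hU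
    have hu : h &&& 4095 < 4096 := lt_of_le_of_lt Nat.and_le_right (by norm_num)
    obtain ⟨U', h1, h2⟩ := ih (h / 2 ^ 12) (m + 1) (fun j => if j = 0 then h &&& 4095 else U (j - 1))
      (fun j => by split_ifs; exacts [hu, hU _])
    refine ⟨U', h1, ?_⟩
    rw [show m + (J + 1) = m + 1 + J by ring, ← h2, ← ns_cons]
    have e : ns (fun j => dig c2 (if j = 0 then h &&& 4095 else U (j - 1)) / 2 ^ 72) (m + 1) =
        ns (fun j => dig c2 (U j) / 2 ^ 72) m * 2 ^ 192 + dig c2 (h &&& 4095) / 2 ^ 72 := by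
      rw [ns_cons]
      exact ns_congr fun j _ => by split_ifs <;> rfl
    rw [e, ← n_shl, ← n_shl, ← n_shr, ← n_shr]
    rfl

/-- the three readings of a table -/
lemma ct_core {a : Sl} {v : Env} (hv : EnvOK a v) {t : Jm} {E J gb n c2 dq bw ex x0 x1 : ℕ} {G : A} {Q : ℝ}
    (hE : 0 < E) (hE1 : E ≤ 2 ^ 44) (hgb : gb < 2 ^ 31) (hbw : 0 < bw) (hG : Pos G)
    (hT : a.Tab v t ((E : ℝ) / 2 ^ 40) G ((bw : ℝ) - ((gb : ℝ) - 2 ^ 30)) Q)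
    (l1 : ∀ u : ℕ, ev G (fun j => max ((j : ℝ) - ((gb : ℝ) - 2 ^ 30 + u)) 0) = 1 / (2 ^ 96 * E) * dig c2 u)
    (l2 : ∀ u : ℕ, ev G (fun j => (max ((j : ℝ) - ((gb : ℝ) - 2 ^ 30 + u)) 0) ^ 2) ≤
      1 / (2 ^ 96 * E) * (2 * dig (sfx c2 n) u))
    (hq : Q - ev G (fun j => ((j : ℝ) + ((bw : ℝ) - ((gb : ℝ) - 2 ^ 30))) ^ 2) ≤ (dq : ℝ) / 2 ^ 96)
    {df : ℕ} (hdf : df = E * dq / (bw * 2 ^ 74) + 1 + ex) (hdf1 : df < 2 ^ 100)
    {U : ℕ → ℕ} (hU : ∀ j, U j < 4096) :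
    CtOK a v E J t ((ex : ℝ) / 2 ^ 64) ⟨x0, x1, gb, n, c2, df, dq,
      (ns U J + gb * ns (fun _ => 1) J) * (E * 2 ^ 32),
      ns (fun j => dig c2 (U j) / 2 ^ 72) J + (df + 1) * ns (fun _ => 1) J⟩ := by
  have hE' : (0 : ℝ) < E := by exact_mod_cast hE
  have hb' : (0 : ℝ) < bw := by exact_mod_cast hbw
  have hη : (0 : ℝ) ≤ (E : ℝ) / 2 ^ 40 := by positivity
  have hd : (E : ℝ) / 2 ^ 40 * (Q - ev G (fun j => ((j : ℝ) + ((bw : ℝ) - ((gb : ℝ) - 2 ^ 30))) ^ 2)) /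
      (4 * bw) ≤ ((df : ℝ) - ex) / 2 ^ 64 := by
    have h1 := ndiv_lt (E * dq) (b := bw * 2 ^ 74) (by positivity)
    have h2 : (df : ℝ) - ex = ((E * dq / (bw * 2 ^ 74) : ℕ) : ℝ) + 1 := by
      rw [hdf, Nat.cast_add, Nat.cast_add, Nat.cast_one]; ring
    rw [h2]
    refine le_trans (div_le_div_of_nonneg_right (mul_le_mul_of_nonneg_left hq hη) (by positivity)) ?_
    refine le_trans (le_of_eq ?_) (div_le_div_of_nonneg_right h1.le (by positivity))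
    rw [Nat.cast_mul, Nat.cast_mul, Nat.cast_pow, Nat.cast_ofNat]
    field_simp; ring
  refine ⟨fun yb => ?_, ⟨fun j => (U j + gb) * (E * 2 ^ 32), fun j => dig c2 (U j) / 2 ^ 72 + (df + 1), ?_, ?_,
    fun j _ => ⟨?_, ?_, ?_⟩⟩, fun yb hyb => ?_⟩
  · dsimp only
    rw [look_eq]
    have hY1 : gb * E ≤ max yb (gb * E) := le_max_right _ _
    have hY2 : yb ≤ max yb (gb * E) := le_max_left _ _
    have hY3 : ((gb * E - yb : ℕ) : ℝ) = ((max yb (gb * E) : ℕ) : ℝ) - yb := by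
      rcases le_total yb (gb * E) with h | h
      · rw [max_eq_right h, Nat.cast_sub h]
      · rw [max_eq_left h, Nat.sub_eq_zero_of_le h, sub_self, Nat.cast_zero]
    generalize max yb (gb * E) = Y at *
    have hu : gb ≤ Y / E := (Nat.le_div_iff_mul_le hE).2 hY1
    have hY1' : (gb : ℝ) * E ≤ Y := by exact_mod_cast hY1
    have hY2' : (yb : ℝ) ≤ Y := by exact_mod_cast hY2
    refine look_lin hv hT hη hb' rfl (y' := ((Y : ℝ) - 2 ^ 30 * E) / 2 ^ 40)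
      (div_le_div_of_nonneg_right (by linarith) (by positivity)) ?_ ?_
    · rw [← mul_div_assoc]
      exact div_le_div_of_nonneg_right (by linarith) (by positivity)
    · have f := fi_mem hE Y
      have e1 : ((Y : ℝ) - 2 ^ 30 * E) / 2 ^ 40 = ((ki E Y : ℝ) + fi E Y) * ((E : ℝ) / 2 ^ 40) := by
        rw [ki_fi hE]; field_simp
      have i1 := ev_interp hG hη (ki E Y) f.1 f.2
      have e2 : (ki E Y : ℝ) = (gb : ℝ) - 2 ^ 30 + ((Y / E - gb : ℕ) : ℝ) := by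
        unfold ki
        rw [Nat.cast_sub hu, Int.cast_sub, Int.cast_natCast, Int.cast_pow, Int.cast_ofNat]; ring
      have e3 : (ki E Y : ℝ) + 1 = (gb : ℝ) - 2 ^ 30 + ((Y / E - gb + 1 : ℕ) : ℝ) := by
        rw [e2, Nat.cast_add, Nat.cast_one]; ring
      rw [← e1, e3] at i1
      rw [e2, l1, l1] at i1
      have hr : Y % E ≤ E := (Nat.mod_lt Y hE).le
      have i2 := ndiv_lt ((E - Y % E) * dig c2 (Y / E - gb) + Y % E * dig c2 (Y / E - gb + 1))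
        (b := E * 2 ^ 72) (by positivity)
      rw [Nat.cast_add, Nat.cast_add, Nat.cast_add, Nat.cast_one, Nat.cast_mul (gb * E - yb), hY3,
        Nat.cast_pow, Nat.cast_ofNat]
      generalize ((((E - Y % E) * dig c2 (Y / E - gb) + Y % E * dig c2 (Y / E - gb + 1)) / (E * 2 ^ 72) : ℕ) : ℝ)
        = w at *
      rw [Nat.cast_add, Nat.cast_mul, Nat.cast_mul, Nat.cast_mul, Nat.cast_sub hr, Nat.cast_pow,
        Nat.cast_ofNat] at i2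
      have i3 : (E : ℝ) / 2 ^ 40 * ((1 - fi E Y) * (1 / (2 ^ 96 * E) * dig c2 (Y / E - gb)) +
          fi E Y * (1 / (2 ^ 96 * E) * dig c2 (Y / E - gb + 1))) =
          (((E : ℝ) - ((Y % E : ℕ) : ℝ)) * dig c2 (Y / E - gb) + ((Y % E : ℕ) : ℝ) * dig c2 (Y / E - gb + 1)) /
            (E * 2 ^ 72) / 2 ^ 64 := by
        unfold fi; field_simp
      rw [i3] at i1
      have i4 := div_le_div_of_nonneg_right i2.le (show (0 : ℝ) ≤ 2 ^ 64 by positivity)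
      have i5 : (w + 1 + df + ((Y : ℝ) - yb) * 2 ^ 24) / 2 ^ 64 - (ex : ℝ) / 2 ^ 64 =
          (w + 1) / 2 ^ 64 + ((df : ℝ) - ex) / 2 ^ 64 +
            (((Y : ℝ) - 2 ^ 30 * E) / 2 ^ 40 - ((yb : ℝ) - 2 ^ 30 * E) / 2 ^ 40) := by ring
      rw [i5]
      exact add_le_add (add_le_add (i1.trans i4) hd) le_rfl
  · dsimp only
    rw [ns_mul, ns_add, mul_comm, ns_mul]
    exact ns_congr fun j _ => by rw [mul_one, mul_comm]
  · dsimp only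
    rw [ns_mul, ns_add]
    exact ns_congr fun j _ => by rw [mul_one]
  · have h1 : U j + gb < 2 ^ 32 := by have := hU j; omega
    have h2 : E * 2 ^ 32 ≤ 2 ^ 44 * 2 ^ 32 := Nat.mul_le_mul_right _ hE1
    calc (U j + gb) * (E * 2 ^ 32) ≤ (U j + gb) * (2 ^ 44 * 2 ^ 32) := Nat.mul_le_mul_left _ h2
      _ < 2 ^ 32 * (2 ^ 44 * 2 ^ 32) := Nat.mul_lt_mul_of_pos_right h1 (by positivity)
      _ = 2 ^ 108 := by norm_num
  · have h1 : dig c2 (U j) / 2 ^ 72 < 2 ^ 120 := by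
      rw [Nat.div_lt_iff_lt_mul (by positivity)]
      exact lt_of_lt_of_le (dig_lt _ _) (by norm_num)
    show dig c2 (U j) / 2 ^ 72 + (df + 1) < 2 ^ 121
    generalize dig c2 (U j) / 2 ^ 72 = w at *
    omega
  · dsimp only
    have e1 : ((((U j + gb) * (E * 2 ^ 32) : ℕ) : ℝ) - 2 ^ 62 * E) / 2 ^ 72 =
        ((gb : ℝ) - 2 ^ 30 + U j) * ((E : ℝ) / 2 ^ 40) := by
      rw [Nat.cast_mul, Nat.cast_mul, Nat.cast_add, Nat.cast_pow, Nat.cast_ofNat]; ring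
    rw [e1]
    refine look_lin hv hT hη hb' rfl le_rfl
      (mul_le_mul_of_nonneg_right (le_add_of_nonneg_right (Nat.cast_nonneg _)) hη) ?_
    have e2 : ev G (fun i => max ((i : ℝ) * ((E : ℝ) / 2 ^ 40) - ((gb : ℝ) - 2 ^ 30 + U j) * ((E : ℝ) / 2 ^ 40)) 0) =
        (dig c2 (U j) : ℝ) / 2 ^ 72 / 2 ^ 64 := by
      have : (fun i : ℤ => max ((i : ℝ) * ((E : ℝ) / 2 ^ 40) - ((gb : ℝ) - 2 ^ 30 + U j) * ((E : ℝ) / 2 ^ 40)) 0) =
          fun i : ℤ => (E : ℝ) / 2 ^ 40 * max ((i : ℝ) - ((gb : ℝ) - 2 ^ 30 + U j)) 0 := by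
        funext i
        rw [mul_max_of_nonneg _ _ hη, mul_zero]; congr 1; ring
      rw [this, ev_mul_fun, l1]; field_simp
    have i2 := ndiv_lt (dig c2 (U j)) (b := 2 ^ 72) (by positivity)
    rw [e2, Nat.cast_add, Nat.cast_add, Nat.cast_one]
    generalize ((dig c2 (U j) / 2 ^ 72 : ℕ) : ℝ) = w at *
    rw [Nat.cast_pow, Nat.cast_ofNat] at i2
    have i4 := div_le_div_of_nonneg_right i2.le (show (0 : ℝ) ≤ 2 ^ 64 by positivity)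
    have i5 : (w + ((df : ℝ) + 1)) / 2 ^ 64 - (ex : ℝ) / 2 ^ 64 =
        (w + 1) / 2 ^ 64 + ((df : ℝ) - ex) / 2 ^ 64 + 0 := by ring
    rw [i5, sub_self]
    exact add_le_add (add_le_add i4 hd) le_rfl
  · dsimp only at hyb ⊢
    have h1 : ((yb / E : ℕ) : ℝ) * E ≤ yb := by exact_mod_cast Nat.div_mul_le_self yb E
    refine look_sq hv hT hη hb' rfl (k := (gb : ℝ) - 2 ^ 30 + ((yb / E - gb : ℕ) : ℝ))
      (le_add_of_nonneg_right (Nat.cast_nonneg _)) ?_ ?_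
    · rw [Nat.cast_sub hyb, ← mul_div_assoc]
      exact div_le_div_of_nonneg_right (by linarith) (by positivity)
    · refine le_trans (mul_le_mul_of_nonneg_left (add_le_add (l2 _) hq) (by positivity)) (le_of_eq ?_)
      rw [Nat.cast_mul, Nat.cast_add, Nat.cast_mul, Nat.cast_mul, Nat.cast_ofNat]
      field_simp

lemma mass_spl (k : ℤ) (f : ℝ) : mass (spl k f) = 1 := by
  unfold mass spl; rw [ev_add, ev_sg, ev_sg]; ring

lemma spl_le {E : ℕ} (hE : 0 < E) {y YB : ℕ} {x : ℝ} (hY : YB = 2 ^ 30 * E) (h : x ≤ ((y : ℝ) - YB) / 2 ^ 40) :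
    0 ≤ fi E y ∧ fi E y ≤ 1 ∧ x ≤ ((ki E y : ℝ) + fi E y) * ((E : ℝ) / 2 ^ 40) := by
  have hE' : (0 : ℝ) < E := by exact_mod_cast hE
  refine ⟨(fi_mem hE y).1, (fi_mem hE y).2, h.trans (le_of_eq ?_)⟩
  rw [ki_fi hE, hY, Nat.cast_mul, Nat.cast_pow, Nat.cast_ofNat]; field_simp

lemma ct_mid {a : Sl} {v : Env} {cx : Cx} {sd : Sd} {Na Nb : A} (ha : a.OK) (hv : EnvOK a v) (hc : CxOK cx)
    (hs : SdOK a v cx sd Na Nb) {t : Jm}
    (m0 : Measurable t.βa0) (m1 : Measurable t.βa1) (m2 : Measurable t.βb0) (m3 : Measurable t.βb1)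
    {t0 t1 t2 t3 : Tb} (h0 : DM a cx Na sd.Waa sd.Wab t.βa0 0 a.X t0) (h1 : DM a cx Na sd.Waa sd.Wab t.βa1 0 a.X t1)
    (h2 : DM a cx Nb sd.Wba sd.Wbb t.βb0 0 a.X t2) (h3 : DM a cx Nb sd.Wba sd.Wbb t.βb1 0 a.X t3)
    (n0 : DomI t.βa0 a.z a.X ((cx.E : ℝ) / 2 ^ 40) Na) (n1 : DomI t.βa1 a.z a.X ((cx.E : ℝ) / 2 ^ 40) Na)
    (n2 : DomI t.βb0 a.z a.X ((cx.E : ℝ) / 2 ^ 40) Nb) (n3 : DomI t.βb1 a.z a.X ((cx.E : ℝ) / 2 ^ 40) Nb)
    {x0 x1 y0 y1 y2 y3 : ℕ}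
    (o0 : t.a0 ≤ ((y0 : ℝ) - cx.YB) / 2 ^ 40) (o1 : t.a1 ≤ ((y1 : ℝ) - cx.YB) / 2 ^ 40)
    (o2 : t.b0 ≤ ((y2 : ℝ) - cx.YB) / 2 ^ 40) (o3 : t.b1 ≤ ((y3 : ℝ) - cx.YB) / 2 ^ 40)
    {base G n gb bw S X dq df : ℕ} (b0 : base ≤ t0.o + y0 / cx.E) (b1 : base ≤ t1.o + y1 / cx.E)
    (b2 : base ≤ t2.o + y2 / cx.E) (b3 : base ≤ t3.o + y3 / cx.E)
    (hG : G = spt cx.E base (t0.o + y0 / cx.E) t0.v y0 + spt cx.E base (t1.o + y1 / cx.E) t1.v y1 +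
      (spt cx.E base (t2.o + y2 / cx.E) t2.v y2 + spt cx.E base (t3.o + y3 / cx.E) t3.v y3))
    (hb : 1073741824 < base ∧ gb = base - 1073741825 ∧ gb < 2147483648 ∧ n ≤ 1048576)
    (hn0 : 0 < n) (hn : G / 2 ^ (192 * n) = 0) (hbw : 0 < bw)
    (hS : S = mq cx.E cx.den sd.Waa sd.Wab (bw * cx.den) (gb * cx.den) t0 sd.na y0 +
      mq cx.E cx.den sd.Waa sd.Wab (bw * cx.den) (gb * cx.den) t1 sd.na y1 +
      (mq cx.E cx.den sd.Wba sd.Wbb (bw * cx.den) (gb * cx.den) t2 sd.nb y2 +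
        mq cx.E cx.den sd.Wba sd.Wbb (bw * cx.den) (gb * cx.den) t3 sd.nb y3))
    (hX : X = 2 * (sfx (sfx G n) n % (2 ^ 192 - 1)) + (2 * bw - 1) * (sfx (sfx G n) n &&& (2 ^ 192 - 1)) +
      bw * bw * (sfx G n &&& (2 ^ 192 - 1)))
    (hdq : dq = S * 2 ^ 31 / (cx.den * cx.den) + 2 - X / cx.E)
    (hdf : df = cx.E * dq / (bw * 2 ^ 74) + 1 + sd.ex) (hdf1 : df < 2 ^ 100)
    {U : ℕ → ℕ} (hU : ∀ j, U j < 4096) :
    CtOK a v cx.E cx.J t ((sd.ex : ℝ) / 2 ^ 64) ⟨x0, x1, gb, n, sfx (sfx G n) n, df, dq,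
      (ns U cx.J + gb * ns (fun _ => 1) cx.J) * (cx.E * 2 ^ 32),
      ns (fun j => dig (sfx (sfx G n) n) (U j) / 2 ^ 72) cx.J + (df + 1) * ns (fun _ => 1) cx.J⟩ := by
  obtain ⟨Λ0, d0, p0, q0, F0, x0', r0⟩ := h0
  obtain ⟨Λ1, d1, p1, q1, F1, x1', r1⟩ := h1
  obtain ⟨Λ2, d2, p2, q2, F2, x2', r2⟩ := h2
  obtain ⟨Λ3, d3, p3, q3, F3, x3', r3⟩ := h3
  have hE := hc.E0
  have hE' : (0 : ℝ) < cx.E := by exact_mod_cast hE
  have hE1 : (cx.E : ℝ) ≤ 2 ^ 44 := by exact_mod_cast hc.E1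
  have hd0 : 0 < cx.den := by rw [hc.den]; positivity
  have hd0' : (0 : ℝ) < cx.den := by exact_mod_cast hd0
  have hΔ : 0 ≤ a.Δ := by unfold Sl.Δ; positivity
  obtain ⟨g, g1, g2⟩ := ((rp_spt hE r0 b0).add (rp_spt hE r1 b1)).add ((rp_spt hE r2 b2).add (rp_spt hE r3 b3))
  rw [← hG] at g1
  have g3 := g1.smul (1 / 2)
  have g4 := g2.smul (show (0 : ℝ) ≤ 1 / 2 by norm_num)
  have es : (1 / 2 : ℝ) * (1 / 2 ^ 95 * (1 / cx.E)) = 1 / (2 ^ 96 * cx.E) := by field_simp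
  rw [es] at g3
  have hs0 : (0 : ℝ) < 1 / (2 ^ 96 * cx.E) := by positivity
  have hm : mass ((1 / 2 : ℝ) • g) ≤ 1 := by
    refine (g4.ev_le (h := fun _ => 1) fun _ => zero_le_one).trans ?_
    rw [ev_smul, ev_add, ev_add, ev_add]
    have a0 := x0'.mass_le p0 (hs.pa.smul hΔ) (by positivity) (by positivity)
    have a1 := x1'.mass_le p1 (hs.pa.smul hΔ) (by positivity) (by positivity)
    have a2 := x2'.mass_le p2 (hs.pb.smul hΔ) (by positivity) (by positivity)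
    have a3 := x3'.mass_le p3 (hs.pb.smul hΔ) (by positivity) (by positivity)
    have e : ∀ (F : A) (k : ℤ) (f : ℝ), ev (F * spl k f) (fun _ => 1) = mass F := fun F k f => by
      have := mass_mul F (spl k f)
      rw [mass_spl, mul_one] at this
      exact this
    rw [e, e, e, e]
    linarith [hs.W.one]
  have hm2 : mass ((1 / 2 : ℝ) • g) * (n : ℝ) ^ 2 < 1 / (2 ^ 96 * cx.E) * 2 ^ 191 := by
    have a1 : (n : ℝ) ≤ 2 ^ 20 := by exact_mod_cast hb.2.2.2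
    have a2 : (n : ℝ) ^ 2 ≤ (2 ^ 20) ^ 2 := pow_le_pow_left₀ (Nat.cast_nonneg _) a1 2
    have a3 : mass ((1 / 2 : ℝ) • g) * (n : ℝ) ^ 2 ≤ 1 * (2 ^ 20) ^ 2 :=
      mul_le_mul hm a2 (by positivity) zero_le_one
    refine a3.trans_lt ?_
    rw [one_div_mul_eq_div, lt_div_iff₀ (by positivity)]
    have : (1 : ℝ) * (2 ^ 20) ^ 2 * (2 ^ 96 * cx.E) ≤ 1 * (2 ^ 20) ^ 2 * (2 ^ 96 * 2 ^ 44) := by gcongr
    exact this.trans_lt (by norm_num)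
  obtain ⟨l1, l2, -, l4, -, l6, l7⟩ := g3.look hs0 hn0 hm2 hn
  have eo : (((base : ℤ) - 2 ^ 31 : ℤ) : ℝ) - 1 = (gb : ℝ) - 2 ^ 30 := by
    rw [hb.2.1, Nat.cast_sub (by omega)]; push_cast; ring
  have eu : ∀ u : ℕ, (((base : ℤ) - 2 ^ 31 - 1 + u : ℤ) : ℝ) = (gb : ℝ) - 2 ^ 30 + u := fun u => by
    rw [← eo]; push_cast; ring
  simp only [eu] at l1 l2
  rw [eo] at l6 l7
  have hpos := g3.pos hs0.le
  generalize (1 / 2 : ℝ) • g = G' at *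
  have eX : ev G' (fun j => ((j : ℝ) + ((bw : ℝ) - ((gb : ℝ) - 2 ^ 30))) ^ 2) = 1 / (2 ^ 96 * cx.E) * X := by
    have : (fun j : ℤ => ((j : ℝ) + ((bw : ℝ) - ((gb : ℝ) - 2 ^ 30))) ^ 2) = fun j : ℤ =>
        ((((j : ℝ) - ((gb : ℝ) - 2 ^ 30)) ^ 2 + ((j : ℝ) - ((gb : ℝ) - 2 ^ 30))) +
          (2 * bw - 1) * ((j : ℝ) - ((gb : ℝ) - 2 ^ 30))) + (bw : ℝ) * bw := by
      funext j; ring
    rw [this, ev_add_fun, ev_add_fun G' (fun j : ℤ => ((j : ℝ) - ((gb : ℝ) - 2 ^ 30)) ^ 2 +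
      ((j : ℝ) - ((gb : ℝ) - 2 ^ 30))), ev_mul_fun, ev_const, l4, l6, l7, hX]
    generalize sfx (sfx G n) n % (2 ^ 192 - 1) = w1
    generalize sfx (sfx G n) n &&& (2 ^ 192 - 1) = w2
    generalize sfx G n &&& (2 ^ 192 - 1) = w3
    rw [Nat.cast_add, Nat.cast_add, Nat.cast_mul, Nat.cast_mul, Nat.cast_mul, Nat.cast_mul,
      Nat.cast_sub (by omega), Nat.cast_mul, Nat.cast_ofNat, Nat.cast_one]
    ring
  have hT : a.Tab v t ((cx.E : ℝ) / 2 ^ 40) G' ((bw : ℝ) - ((gb : ℝ) - 2 ^ 30))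
      ((((S * 2 ^ 31 / (cx.den * cx.den) : ℕ) : ℝ) + 2) / 2 ^ 96) := by
    refine tab_of ha hv hs.W m0 m1 m2 m3 (by positivity) d0 d1 d2 d3 n0 n1 hs.oa n2 n3 hs.ob x0' x1' x2' x3'
      (spl_le hE hc.YB o0) (spl_le hE hc.YB o1) (spl_le hE hc.YB o2) (spl_le hE hc.YB o3) g4 ?_
    have a0 := mq_ge hc sd.Waa sd.Wab bw gb y0 q0 hs.ma
    have a1 := mq_ge hc sd.Waa sd.Wab bw gb y1 q1 hs.ma
    have a2 := mq_ge hc sd.Wba sd.Wbb bw gb y2 q2 hs.mb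
    have a3 := mq_ge hc sd.Wba sd.Wbb bw gb y3 q3 hs.mb
    have a4 := add_le_add (add_le_add a0 a1) (add_le_add a2 a3)
    rw [← add_div, ← add_div, ← add_div, ← Nat.cast_add, ← Nat.cast_add, ← Nat.cast_add, ← hS] at a4
    have a5 := ndiv_lt (S * 2 ^ 31) (b := cx.den * cx.den) (by positivity)
    generalize ((S * 2 ^ 31 / (cx.den * cx.den) : ℕ) : ℝ) = w at *
    rw [Nat.cast_mul, Nat.cast_mul, Nat.cast_pow, Nat.cast_ofNat] at a5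
    refine lt_of_le_of_lt (div_le_div_of_nonneg_right a4 (by norm_num)) ?_
    have e : (S : ℝ) / (2 ^ 64 * ((cx.den : ℝ) * cx.den)) / 2 = S * 2 ^ 31 / ((cx.den : ℝ) * cx.den) / 2 ^ 96 := by
      field_simp
    rw [e]
    exact div_lt_div_of_pos_right (by linarith) (by positivity)
  refine ct_core hv hE hc.E1 (by omega) hbw hpos hT l1 l2 ?_ hdf hdf1 hU
  have a1 := nsub_ge (S * 2 ^ 31 / (cx.den * cx.den) + 2) (X / cx.E)
  rw [← hdq, Nat.cast_add, Nat.cast_ofNat] at a1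
  have a2 : ((X / cx.E : ℕ) : ℝ) ≤ (X : ℝ) / cx.E := Nat.cast_div_le
  have e : 1 / (2 ^ 96 * (cx.E : ℝ)) * X = (X : ℝ) / cx.E / 2 ^ 96 := by field_simp
  rw [eX, e, ← sub_div]
  exact div_le_div_of_nonneg_right (by linarith) (by positivity)

lemma fN_ex {n : ℕ} {k : ℕ → Bool} (h : fN n k = true) : ∃ m, m = n ∧ k m = true := ⟨n, rfl, h⟩

theorem mkCt_spec {a : Sl} {v : Env} {cx : Cx} {sd : Sd} {Na Nb : A} (ha : a.OK) (hv : EnvOK a v) (hc : CxOK cx)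
    (hs : SdOK a v cx sd Na Nb) {t : Jm}
    (m0 : Measurable t.βa0) (m1 : Measurable t.βa1) (m2 : Measurable t.βb0) (m3 : Measurable t.βb1)
    {t0 t1 t2 t3 : Tb} (h0 : DM a cx Na sd.Waa sd.Wab t.βa0 0 a.X t0) (h1 : DM a cx Na sd.Waa sd.Wab t.βa1 0 a.X t1)
    (h2 : DM a cx Nb sd.Wba sd.Wbb t.βb0 0 a.X t2) (h3 : DM a cx Nb sd.Wba sd.Wbb t.βb1 0 a.X t3)
    (n0 : DomI t.βa0 a.z a.X ((cx.E : ℝ) / 2 ^ 40) Na) (n1 : DomI t.βa1 a.z a.X ((cx.E : ℝ) / 2 ^ 40) Na)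
    (n2 : DomI t.βb0 a.z a.X ((cx.E : ℝ) / 2 ^ 40) Nb) (n3 : DomI t.βb1 a.z a.X ((cx.E : ℝ) / 2 ^ 40) Nb)
    {x0 x1 y0 y1 y2 y3 h : ℕ}
    (o0 : t.a0 ≤ ((y0 : ℝ) - cx.YB) / 2 ^ 40) (o1 : t.a1 ≤ ((y1 : ℝ) - cx.YB) / 2 ^ 40)
    (o2 : t.b0 ≤ ((y2 : ℝ) - cx.YB) / 2 ^ 40) (o3 : t.b1 ≤ ((y3 : ℝ) - cx.YB) / 2 ^ 40)
    {k : Ct → Bool} (hk : mkCt false cx sd x0 x1 t0 t1 t2 t3 y0 y1 y2 y3 h k = true) :
    ∃ c : Ct, c.x0 = x0 ∧ c.x1 = x1 ∧ CtOK a v cx.E cx.J t ((sd.ex : ℝ) / 2 ^ 64) c ∧ k c = true := by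
  unfold mkCt at hk
  rw [fN_eq, fN_eq, fN_eq, fN_eq, fN_eq, fN_eq] at hk
  obtain ⟨p0, e0, hk⟩ := fN_ex hk
  obtain ⟨p1, e1, hk⟩ := fN_ex hk
  obtain ⟨p2, e2, hk⟩ := fN_ex hk
  obtain ⟨p3, e3, hk⟩ := fN_ex hk
  obtain ⟨u0, f0, hk⟩ := fN_ex hk
  obtain ⟨u1, f1, hk⟩ := fN_ex hk
  obtain ⟨base, eb, hk⟩ := fN_ex hk
  obtain ⟨G, eG, hk⟩ := fN_ex hk
  obtain ⟨u2, -, hk⟩ := fN_ex hk
  obtain ⟨u3, -, hk⟩ := fN_ex hk
  obtain ⟨n, -, hk⟩ := fN_ex hk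
  obtain ⟨gb, egb, hk⟩ := fN_ex hk
  obtain ⟨c, hk⟩ := cond_false hk
  obtain ⟨c1, ec1, hk⟩ := fN_ex hk
  obtain ⟨c2, ec2, hk⟩ := fN_ex hk
  obtain ⟨bw, ebw, hk⟩ := fN_ex hk
  obtain ⟨bd, ebd, hk⟩ := fN_ex hk
  obtain ⟨gd, egd, hk⟩ := fN_ex hk
  obtain ⟨dq, edq, hk⟩ := fN_ex hk
  obtain ⟨df, edf, hk⟩ := fN_ex hk
  obtain ⟨c', hk⟩ := cond_false hk
  rw [Bool.and_eq_true, Bool.and_eq_true, Bool.and_eq_true, Bool.and_eq_true, Nat.blt_eq, Nat.blt_eq, Nat.ble_eq,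
    Nat.blt_eq, Nat.beq_eq, n_shr] at c
  rw [Nat.blt_eq] at c'
  rw [mn_eq] at f0 f1 eb
  rw [n_add, n_div] at e0 e1 e2 e3
  have z : ∀ f : ℕ → ℕ, ns f 0 = 0 := fun f => rfl
  obtain ⟨U, hU, eU⟩ := mkQ_spec c2 (fun y f => fN (Nat.mul (Nat.add y (Nat.mul gb cx.one))
    (Nat.shiftLeft cx.E (nat_lit 32))) fun qy => fN (Nat.add f (Nat.mul (Nat.add df (nat_lit 1)) cx.one)) fun qf =>
      k ⟨x0, x1, gb, n, c2, df, dq, qy, qf⟩) cx.J h 0 (fun _ => 0) (fun _ => by norm_num)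
  rw [z, z, zero_add] at eU
  have hk2 := eU.symm.trans hk
  rw [fN_eq, fN_eq, n_shl, hc.one] at hk2
  refine ⟨_, rfl, rfl, ?_, hk2⟩
  rw [n_shl] at edq edf
  subst ec2 ec1 ebd egd e0 e1 e2 e3
  exact ct_mid ha hv hc hs m0 m1 m2 m3 h0 h1 h2 h3 n0 n1 n2 n3 o0 o1 o2 o3 (base := base) (bw := bw)
    (by omega) (by omega) (by omega) (by omega) eG ⟨c.1, egb, c.2.1, c.2.2.1⟩ c.2.2.2.1 c.2.2.2.2
    (by rw [ebw]; exact Nat.succ_pos _) rfl rfl (by rw [edq, ← lit192]; rfl) edf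
    (lt_of_lt_of_le c' (by norm_num)) hU

end
end Pool.Agent.MP_3bf126_pr.H21
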