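/-! The certificate checker (natural numbers only; lattice measures are packed in base `2^192`). -/

namespace Pool.Agent.MP_3bf126_pr.H21.K
noncomputable section

def fN {β : Type} (n : Nat) (k : Nat → β) : β := Nat.rec (k n) (fun m _ => k m) (Nat.succ n)

def fL {α β : Type} (fe : α → (α → β) → β) (l : List α) : (List α → β) → β :=
  List.rec (fun k => k []) (fun a _ ih k => fe a fun a => ih fun l => k (a :: l)) l

def fP {β : Type} (p : Nat × Nat) (k : Nat × Nat → β) : β :=
  Prod.casesOn p fun a b => fN a fun a => fN b fun b => k (a, b)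

def mn (a b : Nat) : Nat := (cond (Nat.ble a b) a b)
def mx (a b : Nat) : Nat := (cond (Nat.ble a b) b a)

/-- `n` records of `w` bits, each split at bit `w1` -/
def unp (w w1 n x : Nat) : List (Nat × Nat) :=
  Nat.rec (motive := fun _ => Nat → List (Nat × Nat)) (fun _ => [])
    (fun _ ih x => fN x fun x => ((Nat.land x (Nat.sub (Nat.shiftLeft (nat_lit 1) w1) (nat_lit 1))), (Nat.shiftRight (Nat.land x (Nat.sub
        (Nat.shiftLeft (nat_lit 1) w) (nat_lit 1))) w1)) :: ih (Nat.shiftRight x w)) n x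

/-- `n` fields of `w` bits -/
def unq (w n x : Nat) : List Nat :=
  Nat.rec (motive := fun _ => Nat → List Nat) (fun _ => [])
    (fun _ ih x => fN x fun x => (Nat.land x (Nat.sub (Nat.shiftLeft (nat_lit 1) w) (nat_lit 1))) :: ih (Nat.shiftRight x w)) n x

def dr {α : Type} (n : Nat) (l : List α) : List α :=
  Nat.rec (motive := fun _ => List α → List α) (fun l => l)
    (fun _ ih l => List.casesOn l [] fun _ t => ih t) n l

def hd {α β : Type} (no : β) (l : List α) (k : α → β) : β := List.casesOn l no fun a _ => k a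

def mkMask (n : Nat) : Nat := (Nat.mul (Nat.div (Nat.sub (Nat.shiftLeft (nat_lit 1) (Nat.mul (nat_lit 192) n)) (nat_lit 1)) (nat_lit
    6277101735386680763835789423207666416102355444464034512895)) (nat_lit 158456325028528675187087900671))
def msk (MK n : Nat) : Nat := (Nat.shiftRight MK (Nat.mul (nat_lit 192) (Nat.sub (nat_lit 4096) n)))
def cut (mk x a : Nat) : Nat := (Nat.land (Nat.shiftRight x (Nat.add (Nat.mul (nat_lit 192) a) (nat_lit 95))) mk)
def sfx (v n : Nat) : Nat := (Nat.shiftRight (Nat.div (Nat.sub (Nat.shiftLeft v (Nat.mul (nat_lit 192) n)) v) (nat_lit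
    6277101735386680763835789423207666416102355444464034512895)) (Nat.mul (nat_lit 192) (Nat.sub n (nat_lit 1))))
def dig (v u : Nat) : Nat := (Nat.land (Nat.shiftRight v (Nat.mul (nat_lit 192) u)) (nat_lit
    6277101735386680763835789423207666416102355444464034512895))

def isq (v : Nat) : Nat := fN v fun v => fN (cond (Nat.ble (nat_lit 65536) v) (cond (Nat.ble (nat_lit 16777216) v) (cond (Nat.ble (nat_lit 268435456)
    v) (nat_lit 32768) (nat_lit 8192)) (cond (Nat.ble (nat_lit 1048576) v) (nat_lit 2048) (nat_lit 512))) (cond (Nat.ble (nat_lit 256) v) (cond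
    (Nat.ble (nat_lit 4096) v) (nat_lit 128) (nat_lit 32)) (cond (Nat.ble (nat_lit 16) v) (nat_lit 8) (nat_lit 2)))) fun x =>
  fN (Nat.add (Nat.div (Nat.add x (Nat.div v x)) (nat_lit 2)) (nat_lit 1)) fun x => (Nat.add (Nat.div (Nat.add x (Nat.div v x)) (nat_lit 2)) (nat_lit
      1))

def qof (v : Nat) : Nat := fN v fun v => (cond (Nat.ble (nat_lit 1763487) v) (cond (Nat.ble (nat_lit 112863206) v) (cond (Nat.ble (nat_lit 902905650)
    v) (cond (Nat.ble (nat_lit 2553802833) v) (cond (Nat.ble (nat_lit 4294967296) v) (nat_lit 31) (nat_lit 30)) (cond (Nat.ble (nat_lit 1518500249)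
    v) (nat_lit 29) (nat_lit 28))) (cond (Nat.ble (nat_lit 319225354) v) (cond (Nat.ble (nat_lit 536870912) v) (nat_lit 27) (nat_lit 26)) (cond
    (Nat.ble (nat_lit 189812531) v) (nat_lit 25) (nat_lit 24)))) (cond (Nat.ble (nat_lit 14107900) v) (cond (Nat.ble (nat_lit 39903169) v) (cond
    (Nat.ble (nat_lit 67108864) v) (nat_lit 23) (nat_lit 22)) (cond (Nat.ble (nat_lit 23726566) v) (nat_lit 21) (nat_lit 20))) (cond (Nat.ble
    (nat_lit 4987896) v) (cond (Nat.ble (nat_lit 8388608) v) (nat_lit 19) (nat_lit 18)) (cond (Nat.ble (nat_lit 2965820) v) (nat_lit 17) (nat_lit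
    16))))) (cond (Nat.ble (nat_lit 27554) v) (cond (Nat.ble (nat_lit 220435) v) (cond (Nat.ble (nat_lit 623487) v) (cond (Nat.ble (nat_lit 1048576)
    v) (nat_lit 15) (nat_lit 14)) (cond (Nat.ble (nat_lit 370727) v) (nat_lit 13) (nat_lit 12))) (cond (Nat.ble (nat_lit 77935) v) (cond (Nat.ble
    (nat_lit 131072) v) (nat_lit 11) (nat_lit 10)) (cond (Nat.ble (nat_lit 46340) v) (nat_lit 9) (nat_lit 8)))) (cond (Nat.ble (nat_lit 3444) v)
    (cond (Nat.ble (nat_lit 9741) v) (cond (Nat.ble (nat_lit 16384) v) (nat_lit 7) (nat_lit 6)) (cond (Nat.ble (nat_lit 5792) v) (nat_lit 5) (nat_lit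
    4))) (cond (Nat.ble (nat_lit 1217) v) (cond (Nat.ble (nat_lit 2048) v) (nat_lit 3) (nat_lit 2)) (cond (Nat.ble (nat_lit 724) v) (nat_lit 1)
    (nat_lit 0))))))

/-- constants of one slab -/
structure Cx where
  MK : Nat
  E : Nat
  YB : Nat
  den : Nat
  od : Nat
  ww : Nat
  pad : Nat
  qs : Nat
  one : Nat
  J : Nat

/-- a packed table with the moments of its jump measure -/
structure Tb where
  o : Nat
  v : Nat
  mp : Nat
  mn : Nat
  m2 : Nat
  jp : Nat
  jn : Nat
  n : Nat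

def mulT {β : Type} (cx : Cx) (xl xh : Nat) (s t : Tb) (k : Tb → β) : β :=
  Tb.casesOn s fun so sv sp sn s2 sj si sl => Tb.casesOn t fun to tv tp tn t2 tj ti tl =>
  fN (Nat.add sp tp) fun mp => fN (Nat.add sn tn) fun mn' => fN (Nat.add s2 t2) fun m2 =>
  fN (mx sj tj) fun jp => fN (mx si ti) fun jn =>
  fN (Nat.div (Nat.sub (Nat.add cx.od mp) mn') cx.den) fun mb => fN (Nat.div (Nat.mul (isq (Nat.div m2 cx.den)) cx.ww) (nat_lit 8)) fun hw =>
  fN (Nat.add so to) fun o => fN (Nat.sub (Nat.add (Nat.sub mb (Nat.add (Nat.add hw jn) xl)) (nat_lit 1073741824)) o) fun a => fN (Nat.sub (Nat.add o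
      a) (nat_lit 1073741824)) fun o' =>
  fN (mn (Nat.sub (Nat.add (Nat.add (Nat.add (Nat.add mb hw) jp) xh) (nat_lit 2)) o') (Nat.sub (Nat.add sl tl) a)) fun n => fN (cut (msk cx.MK n)
      (Nat.mul sv tv) a) fun v =>
  k ⟨o', v, mp, mn', m2, jp, jn, n⟩

def accP (E k0 lo : Nat) (g : Nat → Nat) (l : List (Nat × Nat)) : Nat × Nat → Nat × Nat :=
  List.rec (fun s => s) (fun p _ ih s => Prod.casesOn p fun x w => Prod.casesOn s fun v sw =>
    fN (g x) fun y => fN (mx y lo) fun y => fN (Nat.mod y E) fun r =>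
    ih ((Nat.add v (Nat.shiftLeft (Nat.mul w (Nat.add (Nat.sub E r) (Nat.shiftLeft r (nat_lit 192)))) (Nat.mul (nat_lit 192) (Nat.sub (Nat.div y E)
        k0)))), (Nat.add sw w))) l

/-- the last argument (the others only tell terms apart) -/
def slt (_s _t x : Nat) : Nat := x

def sqs (s mk L q : Nat) : Nat → Nat :=
  Nat.rec (fun x => x) (fun t ih x => fN (cut mk (Nat.mul x (slt s t x)) L) ih) q

/-- a jump measure: packed weights, mass and moments -/
structure Ac where
  k0 : Nat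
  n : Nat
  v : Nat
  m0 : Nat
  mp : Nat
  mn : Nat
  m2 : Nat

def mkA {β : Type} (no : β) (E k0 k1 : Nat) (s : Nat × Nat) (k : Ac → β) : β :=
  Prod.casesOn s fun v sw => fN v fun v => fN (Nat.sub (Nat.add k1 (nat_lit 2)) k0) fun n =>
  cond (Bool.and (Nat.blt (Nat.mul (Nat.mul E sw) (Nat.mul n n)) (nat_lit 3138550867693340381917894711603833208051177722232017256448)) (Bool.and
      (Nat.beq (Nat.shiftRight v (Nat.mul (nat_lit 192) n)) (nat_lit 0)) (Nat.blt (nat_lit 0) n))) (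
  fN (Nat.sub (nat_lit 1073741825) k0) fun lp => fN (Nat.sub k0 (nat_lit 1073741825)) fun ln =>
  fN (cond (Nat.beq lp (nat_lit 0)) v (Nat.sub v (Nat.shiftLeft (dig v (Nat.sub lp (nat_lit 1))) (Nat.mul (nat_lit 192) (Nat.sub lp (nat_lit 1))))))
      fun v =>
  fN (sfx v n) fun c1 => fN (Nat.mod v (nat_lit 6277101735386680763835789423207666416102355444464034512895)) fun m0 => fN (Nat.mod c1 (nat_lit
      6277101735386680763835789423207666416102355444464034512895)) fun s1 =>
  fN (Nat.add s1 (Nat.mul ln m0)) fun p => fN (Nat.mul lp m0) fun m => fN (Nat.sub p m) fun mp => fN (Nat.sub m p) fun mn' =>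
  fN (Nat.sub (Nat.add (Nat.add (Nat.mul (nat_lit 2) (Nat.mod (sfx c1 n) (nat_lit 6277101735386680763835789423207666416102355444464034512895)))
      (Nat.mul (Nat.mul (Nat.add lp ln) (Nat.add lp ln)) m0)) (Nat.mul (Nat.mul (nat_lit 2) ln) s1)) (Nat.mul (Nat.add (Nat.mul (nat_lit 2) lp)
      (nat_lit 1)) s1)) fun m2 =>
  k ⟨k0, n, v, m0, mp, mn', m2⟩) no

def expo {β : Type} (no : β) (cx : Cx) (mu : Nat) (s : Ac) (k : Tb → β) : β :=
  Ac.casesOn s fun k0 n v m0 p m m2 =>
  fN (Nat.mul mu m0) fun an => fN (qof (Nat.div (Nat.shiftLeft an cx.qs) cx.den)) fun q =>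
  fN (Nat.shiftLeft cx.den q) fun dq => fN (Nat.add (Nat.div (Nat.shiftLeft an (nat_lit 64)) dq) (nat_lit 1)) fun b =>
  fN (Nat.mul mu p) fun mp => fN (Nat.mul mu m) fun mn' => fN (Nat.mul mu m2) fun mm => fN (Nat.sub (nat_lit 1073741824) k0) fun L =>
  fN (cond (Nat.beq an (nat_lit 0)) (nat_lit 0) (Nat.mul cx.pad (Nat.sub (Nat.add k0 n) (nat_lit 1073741825)))) fun jp => fN (cond (Nat.beq an
      (nat_lit 0)) (nat_lit 0) (Nat.mul cx.pad L)) fun jn =>
  fN (Nat.div (Nat.mul (isq (Nat.div mm cx.den)) cx.ww) (nat_lit 8)) fun hw => fN (Nat.div mp cx.den) fun ep => fN (Nat.div mn' cx.den) fun en =>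
  fN (Nat.sub (Nat.add (Nat.add en hw) jn) ep) fun Lw => cond (Bool.and (Nat.ble b (nat_lit 18446744073709551616)) (Nat.ble Lw (nat_lit 1073741824)))
      (
  fN (Nat.mul b b) fun b2 =>
  fN (Nat.shiftLeft (cut cx.MK (Nat.mul v (Nat.div (Nat.mul mu (nat_lit 1569275433846670189597817888118162750172090431388935782400)) dq)) (nat_lit
      0)) (Nat.mul (nat_lit 192) (Nat.sub k0 (nat_lit 1073741824)))) fun B =>
  fN (cut cx.MK (Nat.mul B (slt an an B)) (nat_lit 0)) fun Bb =>
  fN (Nat.add (Nat.add Lw (Nat.sub (Nat.add (Nat.add ep hw) jp) en)) (nat_lit 2)) fun nw => fN (msk cx.MK nw) fun mk =>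
  fN (cut mk (Nat.shiftLeft (Nat.mul (Nat.add (Nat.add (Nat.add (Nat.shiftLeft (nat_lit 237684487542793012780631851008) (Nat.mul (nat_lit 576) L))
      (Nat.shiftLeft (Nat.mul (nat_lit 6) (slt an an B)) (Nat.mul (nat_lit 384) L))) (Nat.shiftLeft (Nat.mul (nat_lit 3) (slt an an Bb)) (Nat.mul
      (nat_lit 192) L))) (cut cx.MK (Nat.mul Bb (slt an an B)) (nat_lit 0))) (Nat.div (Nat.sub (Nat.add (nat_lit
      11116040566782354760662814560834039153913918527901494147787928064759660445433856) (Nat.mul (nat_lit 16333553612205046246241981156724874149888)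
      b2)) (Nat.add (Nat.add (Nat.mul (nat_lit 602601766597121353328235784627935975945826122668547313238016) b) (Nat.mul (nat_lit
      295147905179352825856) (Nat.mul b2 b))) (Nat.mul (nat_lit 5) (Nat.mul b2 b2)))) (nat_lit
      1683649886205200161770644927289158038643634289508352))) (Nat.mul (nat_lit 192) (Nat.sub Lw (Nat.mul (nat_lit 3) L)))) (Nat.sub (Nat.mul
      (nat_lit 3) L) Lw)) fun x =>
  fN (sqs an mk Lw q x) fun x => fN (Nat.sub (nat_lit 1073741824) Lw) fun o => k ⟨o, x, mp, mn', mm, jp, jn, nw⟩) no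

/-- a block: end points, values there, weighted points -/
structure Bk where
  x0 : Nat
  x1 : Nat
  f0 : Nat
  f1 : Nat
  pts : List (Nat × Nat)

/-- a kink: position, slope change, density change -/
structure Kn where
  u : Nat
  k : Nat
  d : Nat

/-- the points of one block, walking down to `y` -/
def blk {β : Type} (y : Nat) (l : List Kn) :
    Nat → Nat → Nat → Nat → Nat → (List (Nat × Nat) → Nat → Nat → Nat → List Kn → β) → β :=
  List.rec
    (fun x f s mu pe k => fN (Nat.mul mu (Nat.sub x y)) fun w => fN (Nat.add f (Nat.mul s (Nat.sub x y))) fun f' =>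
      fN (Nat.shiftRight f (nat_lit 52)) fun a => fN (Nat.add pe w) fun pe => fN (Nat.shiftRight f' (nat_lit 52)) fun b => k [(a, pe), (b, w)] f' s
          mu [])
    (fun n t ih x f s mu pe k => Kn.casesOn n fun u c d => cond (Nat.blt y u)
      (fN (Nat.mul mu (Nat.sub x u)) fun w => fN (Nat.add f (Nat.mul s (Nat.sub x u))) fun f' => fN (Nat.add s c) fun s' => fN (Nat.sub mu d) fun mu'
          =>
        fN (Nat.shiftRight f (nat_lit 52)) fun a => fN (Nat.add pe w) fun pe => ih u f' s' mu' w fun l => k ((a, pe) :: l))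
      (fN (Nat.mul mu (Nat.sub x y)) fun w => fN (Nat.add f (Nat.mul s (Nat.sub x y))) fun f' =>
        fN (Nat.shiftRight f (nat_lit 52)) fun a => fN (Nat.add pe w) fun pe => fN (Nat.shiftRight f' (nat_lit 52)) fun b =>
          k [(a, pe), (b, w)] f' s mu (n :: t))) l

def walk {β : Type} (no : β) (nodes : List Nat) :
    Nat → Nat → Nat → Nat → List Kn → (List Bk → Nat → Nat → List Kn → β) → β :=
  List.rec (fun _ f s _ l k => k [] f s l)
    (fun y _ ih x f s mu l k => cond (Nat.blt y x)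
      (blk y l x f s mu 0 fun pts f' s' mu' l' => fN (Nat.shiftRight f (nat_lit 52)) fun a => fN (Nat.shiftRight f' (nat_lit 52)) fun b =>
        ih y f' s' mu' l' fun bs => k (⟨y, x, b, a, pts⟩ :: bs)) no) nodes

def expB {β : Type} (no : β) (cx : Cx) (mu : Nat) (g : Nat → Nat) (b : Bk) (k : Tb → β) : β :=
  fN cx.E fun E => fN (Nat.div (g b.f0) E) fun k0 => fN (Nat.div (g b.f1) E) fun k1 => fN (mn k0 k1) fun kl =>
    fN (Nat.mul kl E) fun lo => mkA no E kl (mx k0 k1) (accP E kl lo g b.pts (0, 0)) fun s => expo no cx mu s k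

def accB {β : Type} (no : β) (E y0 y1 : Nat) (g : Nat → Nat) (l : List Bk) (k : Ac → β) : β :=
  fN (Nat.div y0 E) fun k0 => fN (Nat.mul k0 E) fun lo => mkA no E k0 (Nat.div y1 E)
    (List.rec (motive := fun _ => Nat × Nat → Nat × Nat) (fun s => s)
      (fun b _ ih s => ih (accP E k0 lo g b.pts s)) l (0, 0)) k

/-- the fixed factor times the mixture of the early and the late law -/
def mixT {β : Type} (cx : Cx) (xl xh W W' : Nat) (e n : Tb) (k : Tb → β) : β :=
  mulT cx xl xh e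
    ⟨n.o, (cut cx.MK (Nat.shiftLeft (Nat.add (Nat.shiftLeft W (Nat.add (Nat.mul (nat_lit 192) (Nat.sub (nat_lit 1073741824) n.o)) (nat_lit 95)))
        (Nat.mul W' n.v)) (nat_lit 31)) (nat_lit 0)), 0, 0, 0, n.jp, n.jn, n.n⟩ k

def slk (cx : Cx) (n : Tb) : Nat := (Nat.add (Nat.add (Nat.div (Nat.add n.mp n.mn) cx.den) (Nat.div (Nat.mul (isq (Nat.div n.m2 cx.den)) cx.ww)
    (nat_lit 8))) (nat_lit 1))

/-- a finished cell -/
structure Ct where
  x0 : Nat
  x1 : Nat
  gb : Nat
  n : Nat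
  c2 : Nat
  df : Nat
  dq : Nat
  qy : Nat
  qf : Nat

def look (E gb c2 df yb : Nat) : Nat :=
  fN (Nat.mul gb E) fun lo => fN (mx yb lo) fun y => fN (Nat.mod y E) fun r =>
  fN (Nat.land (Nat.shiftRight c2 (Nat.mul (nat_lit 192) (Nat.sub (Nat.div y E) gb))) (nat_lit
      39402006196394479212279040100143613805079739270465446667948293404245721771497210611414266254884915640806627990306815)) fun x =>
  (Nat.add (Nat.add (Nat.add (Nat.div (Nat.add (Nat.mul (Nat.sub E r) (Nat.land x (nat_lit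
      6277101735386680763835789423207666416102355444464034512895))) (Nat.mul r (Nat.shiftRight x (nat_lit 192)))) (Nat.shiftLeft E (nat_lit 72)))
      (nat_lit 1)) df) (Nat.shiftLeft (Nat.sub lo yb) (nat_lit 24)))

/-- lattice indices and table values of the lines -/
def mkQ {β : Type} (c2 J : Nat) : Nat → Nat → Nat → (Nat → Nat → β) → β :=
  Nat.rec (fun _ y f k => k y f) (fun _ ih h y f k => fN h fun h => fN (Nat.land h (nat_lit 4095)) fun u =>
    ih (Nat.shiftRight h (nat_lit 12)) (Nat.add (Nat.shiftLeft y (nat_lit 192)) u) (Nat.add (Nat.shiftLeft f (nat_lit 192)) (Nat.shiftRight (dig c2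
        u) (nat_lit 72))) k) J

def sqd (a b : Nat) : Nat := fN (Nat.add (Nat.sub a b) (Nat.sub b a)) fun x => (Nat.mul x x)

/-- second moments of the early and the late law for one table -/
def mq (E den W W' bd gd : Nat) (t n : Tb) (y : Nat) : Nat :=
  fN (Nat.mod y E) fun r => fN (Nat.add (Nat.mul t.m2 den) (Nat.shiftLeft (Nat.mul r (Nat.sub E r)) (nat_lit 74))) fun rr =>
  fN (Nat.add (Nat.add bd t.mp) (Nat.shiftLeft y (nat_lit 37))) fun p => fN (Nat.add gd t.mn) fun m => fN (Nat.add p n.mp) fun p' => fN (Nat.add m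
      n.mn) fun m' =>
  (Nat.add (Nat.mul W (Nat.add (sqd p m) rr)) (Nat.mul W' (Nat.add (sqd p' m') (Nat.add rr (Nat.mul n.m2 den)))))

def spt (E base o v y : Nat) : Nat :=
  fN (Nat.mod y E) fun r => (Nat.shiftLeft (Nat.mul v (Nat.add (Nat.sub E r) (Nat.shiftLeft r (nat_lit 192)))) (Nat.mul (nat_lit 192) (Nat.sub o
      base)))

/-- data of one side -/
structure Sd where
  Waa : Nat
  Wab : Nat
  Wba : Nat
  Wbb : Nat
  na : Tb
  nb : Tb
  ex : Nat

def mkCt {β : Type} (no : β) (cx : Cx) (sd : Sd) (x0 x1 : Nat) (t0 t1 t2 t3 : Tb) (y0 y1 y2 y3 h : Nat)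
    (k : Ct → β) : β :=
  fN y0 fun y0 => fN y1 fun y1 => fN y2 fun y2 => fN y3 fun y3 => fN cx.E fun E => fN cx.den fun den =>
  fN (Nat.add t0.o (Nat.div y0 E)) fun o0 => fN (Nat.add t1.o (Nat.div y1 E)) fun o1 => fN (Nat.add t2.o (Nat.div y2 E)) fun o2 => fN (Nat.add t3.o
      (Nat.div y3 E)) fun o3 =>
  fN (mn o0 o1) fun u => fN (mn o2 o3) fun u' => fN (mn u u') fun base =>
  fN (Nat.add (Nat.add (spt E base o0 t0.v y0) (spt E base o1 t1.v y1)) (Nat.add (spt E base o2 t2.v y2) (spt E base o3 t3.v y3))) fun G =>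
  fN (mx (Nat.add o0 t0.n) (Nat.add o1 t1.n)) fun u => fN (mx (Nat.add o2 t2.n) (Nat.add o3 t3.n)) fun u' => fN (Nat.sub (Nat.add (mx u u') (nat_lit
      2)) base) fun n =>
  fN (Nat.sub base (nat_lit 1073741825)) fun gb => cond (Bool.and (Nat.blt (nat_lit 1073741824) base) (Bool.and (Nat.blt gb (nat_lit 2147483648))
      (Bool.and (Nat.ble n (nat_lit 1048576)) (Bool.and (Nat.blt (nat_lit 0) n) (Nat.beq (Nat.shiftRight G (Nat.mul (nat_lit 192) n)) (nat_lit
      0)))))) (
  fN (sfx G n) fun c1 => fN (sfx c1 n) fun c2 =>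
  fN (Nat.add (Nat.div n (nat_lit 2)) (nat_lit 1)) fun bw => fN (Nat.mul bw den) fun bd => fN (Nat.mul gb den) fun gd =>
  fN (Nat.sub (Nat.add (Nat.div (Nat.shiftLeft (Nat.add (Nat.add (mq E den sd.Waa sd.Wab bd gd t0 sd.na y0) (mq E den sd.Waa sd.Wab bd gd t1 sd.na
      y1)) (Nat.add (mq E den sd.Wba sd.Wbb bd gd t2 sd.nb y2) (mq E den sd.Wba sd.Wbb bd gd t3 sd.nb y3))) (nat_lit 31)) (Nat.mul den den)) (nat_lit
      2)) (Nat.div (Nat.add (Nat.add (Nat.mul (nat_lit 2) (Nat.mod c2 (nat_lit 6277101735386680763835789423207666416102355444464034512895))) (Nat.mul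
      (Nat.sub (Nat.mul (nat_lit 2) bw) (nat_lit 1)) (Nat.land c2 (nat_lit 6277101735386680763835789423207666416102355444464034512895)))) (Nat.mul
      (Nat.mul bw bw) (Nat.land c1 (nat_lit 6277101735386680763835789423207666416102355444464034512895)))) E)) fun dq =>
  fN (Nat.add (Nat.add (Nat.div (Nat.mul E dq) (Nat.shiftLeft bw (nat_lit 74))) (nat_lit 1)) sd.ex) fun df => cond (Nat.blt df (nat_lit
      1267650600228229401496703205376)) (
  mkQ c2 cx.J h 0 0 fun y f => fN (Nat.mul (Nat.add y (Nat.mul gb cx.one)) (Nat.shiftLeft E (nat_lit 32))) fun qy => fN (Nat.add f (Nat.mul (Nat.add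
      df (nat_lit 1)) cx.one)) fun qf =>
  k ⟨x0, x1, gb, n, c2, df, dq, qy, qf⟩) no) no

/-- offsets: `(c + s x - c') / 2^52`, rounded up -/
def off (c s x c' : Nat) : Nat := (Nat.add (Nat.shiftRight (Nat.sub (Nat.add c (Nat.mul s x)) c') (nat_lit 52)) (nat_lit 1))

/-- cells below the threshold, from the nearest one -/
def sideM {β : Type} (no : β) (cx : Cx) (sd : Sd) (xa xb sa sb ca cb : Nat) (as : List Bk) :
    List Bk → List Nat → Tb → Tb → (Tb → Tb → Tb → Tb → List Ct → β) → β :=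
  List.rec (fun _ _ _ _ _ => no)
    (fun a as' ih bs hs ua ub k => List.casesOn bs no fun b bs => List.casesOn hs no fun h hs =>
      expB no cx 1 (fun m => (Nat.sub (Nat.add cx.YB (nat_lit 1099511627776)) m)) a fun pa => expB no cx 1 (fun m => (Nat.sub (Nat.add cx.YB (nat_lit
          1099511627776)) m)) b fun pb =>
      List.casesOn as'
        (mulT cx xa 1 ua pa fun ta => mulT cx xb 1 ub pb fun tb =>
          mkCt no cx sd a.x0 a.x1 ta ta tb tb (off (Nat.shiftLeft cx.YB (nat_lit 52)) sa a.x0 ca) (off (Nat.shiftLeft cx.YB (nat_lit 52)) sa a.x1 ca)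
            (off (Nat.shiftLeft cx.YB (nat_lit 52)) sb a.x0 cb) (off (Nat.shiftLeft cx.YB (nat_lit 52)) sb a.x1 cb) h fun c => k pa pb ta tb [c])
        fun _ _ =>
          expB no cx 1 (fun m => (Nat.sub cx.YB m)) a fun ra => expB no cx 1 (fun m => (Nat.sub cx.YB m)) b fun rb =>
          mulT cx xa 1 ua ra fun ua' => mulT cx xb 1 ub rb fun ub' =>
          ih bs hs ua' ub' fun la lb ta0 tb0 cs =>
            mulT cx 0 0 la pa fun la => mulT cx 0 0 lb pb fun lb =>
            mulT cx xa 1 ua la fun ta => mulT cx xb 1 ub lb fun tb =>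
            mkCt no cx sd a.x0 a.x1 ta0 ta tb0 tb (off (Nat.shiftLeft cx.YB (nat_lit 52)) sa a.x0 ca) (off (Nat.shiftLeft cx.YB (nat_lit 52)) sa a.x1
                ca)
              (off (Nat.shiftLeft cx.YB (nat_lit 52)) sb a.x0 cb) (off (Nat.shiftLeft cx.YB (nat_lit 52)) sb a.x1 cb) h fun c => k la lb ta tb (c ::
                  cs)) as

/-- cells above the threshold, from the farthest one -/
def sideP {β : Type} (no : β) (cx : Cx) (sd : Sd) (mu xa xb kk sa sb ca cb : Nat) (ba bb : Tb) (as : List Bk) :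
    List Bk → List Nat → Tb → Tb → (Tb → Tb → Tb → Tb → List Ct → β) → β :=
  List.rec (fun _ _ ua ub k =>
      mulT cx 1 xa ba ua fun ta => mulT cx 1 xb bb ub fun tb => k ba bb ta tb [])
    (fun a _ ih bs hs ua ub k => List.casesOn bs no fun b bs => List.casesOn hs no fun h hs =>
      expB no cx mu (fun m => (Nat.add (Nat.add cx.YB m) (nat_lit 1))) a fun ra => expB no cx mu (fun m => (Nat.add (Nat.add cx.YB m) (nat_lit 1))) b
          fun rb =>
      mulT cx 0 0 ua ra fun ua' => mulT cx 0 0 ub rb fun ub' =>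
      ih bs hs ua' ub' fun la lb ta0 tb0 cs =>
        expB no cx mu (fun m => (Nat.sub (Nat.add (Nat.add cx.YB m) (nat_lit 1)) (nat_lit 1099511627776))) a fun pa =>
        expB no cx mu (fun m => (Nat.sub (Nat.add (Nat.add cx.YB m) (nat_lit 1)) (nat_lit 1099511627776))) b fun pb =>
        mulT cx 1 xa la pa fun la => mulT cx 1 xb lb pb fun lb =>
        mulT cx 1 xa la ua fun ta => mulT cx 1 xb lb ub fun tb =>
        mkCt no cx sd a.x0 a.x1 ta0 ta tb0 tb
          (Nat.add (Nat.add (off ca kk a.x0 (Nat.add (nat_lit 4951760157141521099596496896) (Nat.mul sa a.x0))) a.f0) (nat_lit 1)) (Nat.add (Nat.add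
              (off ca kk a.x1 (Nat.add (nat_lit 4951760157141521099596496896) (Nat.mul sa a.x1))) a.f1) (nat_lit 1))
          (Nat.add (Nat.add (off cb kk a.x0 (Nat.add (nat_lit 4951760157141521099596496896) (Nat.mul sb a.x0))) b.f0) (nat_lit 1)) (Nat.add (Nat.add
              (off cb kk a.x1 (Nat.add (nat_lit 4951760157141521099596496896) (Nat.mul sb a.x1))) b.f1) (nat_lit 1)) h fun c =>
          k la lb ta tb (c :: cs)) as

/-- one level: old and new lines, bounds inside the slab -/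
structure Lv where
  S : Nat
  p : Nat
  r : Nat
  rm : Nat
  tn : Nat

/-- slotwise positive part after removing `2^128` -/
def pos (one t : Nat) : Nat := fN t fun t => (Nat.land t (Nat.mul (Nat.land (Nat.shiftRight t (nat_lit 128)) one) (nat_lit
    340282366920938463463374607431768211455)))

def mkF {β : Type} (no : β) (one eb : Nat) (n : List (Nat × Nat)) :
    List (Nat × Nat) → (List Lv → β) → β :=
  List.rec (fun _ k => k []) (fun r _ ih o k => List.casesOn o no fun p o => cond (Nat.beq p.1 r.1)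
    (fN (Nat.land p.2 (Nat.mul one (nat_lit 4722366482869645213695))) fun rb =>
      fN (Nat.add (Nat.add rb (pos one (Nat.sub (Nat.add (Nat.land r.2 (Nat.mul one (nat_lit 4722366482869645213695))) (Nat.shiftLeft one (nat_lit
          128))) rb))) (Nat.mul eb one)) fun rm =>
      fN (Nat.land (Nat.shiftRight r.2 (nat_lit 72)) (Nat.mul one (nat_lit 1329227995784915872903807060280344575))) fun tn => fN r.1 fun S => fN p.2
          fun p => fN r.2 fun r =>
      ih o fun t => k (⟨S, p, r, rm, tn⟩ :: t)) no) n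

/-- constants of the line checks -/
structure Lx where
  E : Nat
  YB : Nat
  Y2 : Nat
  z : Nat
  Tm : Nat
  Tp : Nat
  sT : Nat
  e0 : Nat
  sb : Nat
  z96 : Nat
  wz : Nat
  om : Nat
  ee : Nat
  dT : Nat
  w22 : Nat
  dd : Nat
  ex : Nat
  J : Nat
  one : Nat
  hy : Nat
  hm : Nat

structure Op where
  a0 : Nat
  b0 : Nat
  a1 : Nat
  b1 : Nat
  wa : Nat
  wb : Nat
  dl : Nat

def opt {β : Type} (no : β) (lx : Lx) (S Sa Sb x0 x1 w db : Nat) (k : Op → β) : β :=
  cond (Nat.beq db (nat_lit 0))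
    (cond (Bool.and (Nat.ble S Sa) (Nat.ble Sa (Nat.add S x0))) (fN (Nat.sub Sa S) fun x => fN (Nat.shiftLeft w (nat_lit 20)) fun wa =>
      fN (Nat.add (Nat.shiftRight (Nat.sub (Nat.sub (Nat.add (Nat.mul S lx.Tp) (nat_lit 4951760157141521099596496896)) (Nat.div (Nat.shiftLeft x
          (nat_lit 92)) x1)) (Nat.mul (Nat.sub x0 x) lx.Tm)) (nat_lit 20)) (nat_lit 1)) fun dl =>
      k ⟨(nat_lit 4294967296), 0, (nat_lit 4294967296), 0, wa, 0, dl⟩) no)
    (cond (Bool.and (Nat.ble Sa (Nat.add S x0)) (Nat.ble (Nat.add S x1) Sb)) (fN (Nat.sub (Nat.add S x0) Sa) fun n0 => fN (Nat.sub (Nat.add S x1) Sa)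
        fun n1 =>
      fN (Nat.sub Sb Sa) fun dn => fN (Nat.div (Nat.shiftLeft n0 (nat_lit 32)) dn) fun b0 => fN (Nat.div (Nat.shiftLeft n1 (nat_lit 32)) dn) fun b1 =>
      fN (Nat.div (Nat.shiftLeft (Nat.mul w (Nat.add n0 n1)) (nat_lit 19)) dn) fun wb =>
      fN (Nat.add (Nat.shiftRight (Nat.mul S lx.Tp) (nat_lit 20)) (nat_lit 1)) fun dl => k ⟨(Nat.sub (nat_lit 4294967296) b0), (Nat.add b0 (nat_lit
          1)), (Nat.sub (nat_lit 4294967296) b1), (Nat.add b1 (nat_lit 1)), (Nat.sub (Nat.shiftLeft w (nat_lit 20)) wb), (Nat.add wb (nat_lit 1)),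
          dl⟩) no)

def stM {β : Type} (no : β) (lx : Lx) (S hh : Nat) (fm : List Lv) (c : Ct) (h th ep v : Nat)
    (k : Nat → Nat → Nat → β) : β :=
  Ct.casesOn c fun x0 x1 gb _ c2 df _ qy qf =>
  List.casesOn (dr (Nat.land h (nat_lit 31)) fm) no fun la t => fN (Nat.land (Nat.shiftRight h (nat_lit 5)) (nat_lit 31)) fun db => hd no (dr db (la
      :: t)) fun lb =>
  Lv.casesOn la fun Sa _ _ ra ta => Lv.casesOn lb fun Sb _ _ rb tb => fN (Nat.land (Nat.shiftRight h (nat_lit 10)) (nat_lit 15)) fun j =>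
  fN (Nat.sub x1 x0) fun w => opt no lx S Sa Sb x0 x1 w db fun o => Op.casesOn o fun a0 b0 a1 b1 wa wb dl =>
  fN lx.one fun one => fN (Nat.mul dl one) fun DL =>
  fN (Nat.add (Nat.add (Nat.mul a0 ra) (Nat.mul b0 rb)) DL) fun R0 => fN (Nat.add (Nat.add (Nat.mul a1 ra) (Nat.mul b1 rb)) DL) fun R1 =>
  fN (dig R0 j) fun r0 => fN (dig R1 j) fun r1 => fN lx.Y2 fun Y2 =>
  fN (Nat.shiftRight (Nat.sub Y2 (mx r0 r1)) (nat_lit 32)) fun yb => fN (Nat.shiftLeft w (nat_lit 20)) fun W => fN (Nat.add (Nat.mul wa ta) (Nat.mul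
      wb tb)) fun TT =>
  fN (Nat.add (Nat.mul W (look lx.E gb c2 df yb)) (dig TT j)) fun v0 =>
  fN (Nat.mul w (Nat.add (Nat.sub (Nat.add (Nat.shiftLeft yb (nat_lit 32)) r0) Y2) (Nat.sub (Nat.add (Nat.shiftLeft yb (nat_lit 32)) r1) Y2))) fun t0
      =>
  fN (Nat.mul S lx.Tm) fun st => fN (Nat.shiftRight (Nat.add (Nat.mul lx.sT (Nat.sub lx.z x0)) st) (nat_lit 20)) fun N0 =>
  cond (Bool.and (Nat.blt j lx.J) (Bool.and (Nat.blt (Nat.add dl N0) (nat_lit 1298074214633706907132624082305024)) (Nat.blt v0 (nat_lit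
      1496577676626844588240573268701473812127674924007424)))) (
  fN (Nat.add qy lx.hy) fun q => fN (Nat.add (pos one (Nat.add q R0)) (pos one (Nat.add q R1))) fun T =>
  fN (Nat.land (Nat.shiftRight (Nat.add T lx.hm) (nat_lit 128)) one) fun M1 => fN (Nat.sub one M1) fun M0 => fN (Nat.mul M1 (nat_lit
      6277101735386680763835789423207666416102355444464034512895)) fun MF =>
  fN (Nat.add th (Nat.add (Nat.mul w T) (Nat.mul t0 M0))) fun th =>
  fN (Nat.add ep (Nat.mul w (Nat.add (pos one (Nat.sub (Nat.add (Nat.add (Nat.land R0 MF) (Nat.mul r0 M0)) hh) (Nat.mul N0 one))) (pos one (Nat.sub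
      (Nat.add (Nat.add (Nat.land R1 MF) (Nat.mul r1 M0)) hh) (Nat.mul (Nat.shiftRight (Nat.add (Nat.mul lx.sT (Nat.sub lx.z x1)) st) (nat_lit 20))
      one)))))) fun ep =>
  fN (Nat.add v (Nat.add (Nat.land (Nat.add (Nat.mul W qf) TT) MF) (Nat.mul v0 M0))) fun v => k th ep v) no

def foM {β : Type} (no : β) (lx : Lx) (S hh : Nat) (fm : List Lv) (cs : List Ct) :
    Nat → Nat → Nat → Nat → (Nat → Nat → Nat → β) → β :=
  List.rec (fun _ th ep v k => k th ep v) (fun c _ ih h th ep v k => fN h fun h =>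
    stM no lx S hh fm c h th ep v fun th ep v => ih (Nat.shiftRight h (nat_lit 14)) th ep v k) cs

def foP {β : Type} (no : β) (E one hm yb hy : Nat) (cs : List Ct) : (Nat → Nat → β) → β :=
  List.rec (fun k => k 0 0) (fun c _ ih k => ih fun th v => Ct.casesOn c fun x0 x1 gb _ c2 df _ qy qf =>
    fN (Nat.sub x1 x0) fun w => fN (Nat.shiftLeft w (nat_lit 20)) fun W => fN (Nat.mul W (look E gb c2 df yb)) fun v0 => cond (Nat.blt v0 (nat_lit
        1496577676626844588240573268701473812127674924007424)) (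
    fN (pos one (Nat.add qy hy)) fun T => fN (Nat.land (Nat.shiftRight (Nat.add T hm) (nat_lit 128)) one) fun M1 =>
    fN (Nat.add th (Nat.mul w T)) fun th => fN (Nat.add v (Nat.add (Nat.land (Nat.mul W qf) (Nat.mul M1 (nat_lit
        6277101735386680763835789423207666416102355444464034512895))) (Nat.mul v0 (Nat.sub one M1)))) fun v => k th v) no) cs

/-- the combined rate -/
def tht (sb tm ep h tp : Nat) : Nat :=
  fN (Nat.add (Nat.div tm (nat_lit 2)) (nat_lit 1)) fun tm => fN tp fun tp => fN h fun h => fN (Nat.add (Nat.add tp (Nat.div ep (nat_lit 2)))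
      (nat_lit 1)) fun a =>
    fN (Nat.add (Nat.add tm (Nat.div (Nat.mul h h) (Nat.shiftLeft sb (nat_lit 37)))) (nat_lit 1)) fun b => fN (mx a b) fun a => fN (Nat.add tm tp)
        fun b => mn a b

def fin (lx : Lx) (cst vt p r tm ep H tp v : Nat) (J : Nat) : Bool :=
  Nat.rec true (fun j ih => fN (dig p j) fun p => fN (dig r j) fun r =>
    (Bool.and (Nat.ble (Nat.add (Nat.add (Nat.mul lx.wz (Nat.land p (nat_lit 4722366482869645213695))) (Nat.mul lx.om (tht lx.sb (dig tm j) (dig ep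
        j) (dig H j) (dig tp j)))) cst) (Nat.mul (Nat.land r (nat_lit 4722366482869645213695)) lx.z96)) (Bool.and (Nat.ble (Nat.add (Nat.add (Nat.mul
        lx.w22 (Nat.shiftRight p (nat_lit 72))) (Nat.mul lx.dd (Nat.add (dig v j) vt))) lx.ex) (Nat.shiftLeft (Nat.shiftRight r (nat_lit 72))
        (nat_lit 86))) ih))) J

def iniH (J : Nat) : Nat → Nat → Nat :=
  Nat.rec (fun _ y => y) (fun _ ih h y => fN h fun h => ih (Nat.shiftRight h (nat_lit 12)) (Nat.add (Nat.shiftLeft y (nat_lit 192)) (Nat.shiftLeft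
      (Nat.land h (nat_lit 4095)) (nat_lit 65)))) J

def lev {β : Type} (no : β) (lx : Lx) (cm cp : List Ct) (gb dq c3 S : Nat) (fm : List Lv)
    (hm he : Nat) (k : Nat → Nat → Nat → Nat → Nat → Nat → Nat → β) : β :=
  fN (Nat.add lx.YB (Nat.shiftRight (Nat.mul S lx.Tm) (nat_lit 52))) fun yb => cond (Bool.and (Nat.ble gb (Nat.div yb lx.E)) (Nat.blt yb (nat_lit
      302231454903657293676544)))
  (fN (Nat.add (Nat.div (Nat.mul lx.E (Nat.add (Nat.mul (nat_lit 2) (dig c3 (Nat.sub (Nat.div yb lx.E) gb))) (Nat.mul lx.E dq))) (Nat.shiftLeft lx.sb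
      (nat_lit 56))) (nat_lit 1)) fun vt =>
    fN (Nat.shiftLeft (Nat.mul (Nat.add lx.ee (Nat.mul S lx.dT)) lx.z) (nat_lit 44)) fun cst => fN (iniH lx.J he 0) fun H =>
    fN (Nat.sub (Nat.mul (Nat.add lx.e0 (nat_lit 340282366920938463463374607431768211456)) lx.one) H) fun hh => fN (Nat.mul (Nat.sub (nat_lit
        340282366920938463463374607431768211456) (Nat.shiftLeft yb (nat_lit 32))) lx.one) fun hy =>
    foM no lx S hh fm cm hm 0 0 0 fun tm ep vm => foP no lx.E lx.one lx.hm yb hy cp fun tp vp =>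
    fN (Nat.add vm vp) fun v => k cst vt tm ep H tp v) no

def levs (lx : Lx) (cm cp : List Ct) (gb dq c3 : Nat) (fm : List Lv) : List (Nat × Nat) → Bool :=
  List.rec (fun _ => true) (fun a t ih hs => List.casesOn hs false fun h hs =>
    Bool.and (lev false lx cm cp gb dq c3 a.S (a :: t) h.1 h.2 fun cst vt tm ep H tp v =>
      fin lx cst vt a.p a.r tm ep H tp v lx.J) (ih hs)) fm

/-- a state at a slab boundary -/
structure St where
  e : Nat
  c : Nat
  T : Nat
  hn : Nat
  hv : Nat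
  lv : List (Nat × Nat)

/-- the certificate of one slab -/
structure Hn where
  wl : Nat
  wu : Nat
  cl : Nat
  C : Nat
  Tu : Nat
  kk : Nat
  ep : Nat
  Ex : Nat
  eb : Nat
  Waa : Nat
  Wab : Nat
  Wba : Nat
  Wbb : Nat
  E : Nat
  ww : Nat
  pad : Nat
  qs : Nat
  J : Nat
  np : Nat
  vp : Nat
  nm : Nat
  vm : Nat
  qp : List Nat
  qm : List Nat
  lv : List (Nat × Nat)

def srt (l : List (Nat × Nat)) : Nat → Bool :=
  List.rec (fun _ => true) (fun p _ ih x => (Bool.and (Nat.ble p.2 x) (ih p.2))) l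

def smu (l : List (Nat × Nat)) : Nat → Nat :=
  List.rec (fun s => s) (fun p _ ih s => fN (Nat.add s p.1) ih) l

/-- the new hinge list dominates the decayed old one -/
def hchk (wl wu z : Nat) (o : List (Nat × Nat)) : List (Nat × Nat) → Nat → Bool :=
  List.rec (fun n x => List.casesOn n false fun r n => List.casesOn n
      (Bool.and (Nat.beq r.1 z) (Bool.and (Nat.ble z x) (Nat.ble (Nat.shiftLeft (Nat.sub (nat_lit 18446744073709551616) wl) (nat_lit 92))
          (Nat.shiftLeft (Nat.mul r.2 z) (nat_lit 64))))) fun _ _ => false)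
    (fun p _ ih n x => List.casesOn n false fun r n =>
      (Bool.and (Nat.beq p.1 r.1) (Bool.and (Nat.ble p.1 x) (Bool.and (Nat.ble (Nat.mul wu p.2) (Nat.shiftLeft r.2 (nat_lit 64))) (ih n p.1))))) o

def sq2 (z : Nat) (l : List (Nat × Nat)) : Nat → Nat :=
  List.rec (fun s => s) (fun p _ ih s => fN (Nat.sub p.1 z) fun y => fN (Nat.add s (Nat.mul p.2 (Nat.mul y y))) ih) l

def sq1 (l : List (Nat × Nat)) : Nat → Nat :=
  List.rec (fun s => s) (fun p _ ih s => fN (Nat.add s (Nat.mul p.1 p.2)) ih) l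

def knU (l : List (Nat × Nat)) : List Kn := List.rec [] (fun p _ ih => ⟨p.1, p.2, 0⟩ :: ih) l
def knD (l : List (Nat × Nat)) : List Kn := List.rec [] (fun p _ ih => ⟨p.2, 0, p.1⟩ :: ih) l
def app (l r : List Kn) : List Kn := List.rec r (fun p _ ih => p :: ih) l

def expc (a wl wu : Nat) : Bool :=
  fN (Nat.mul a a) fun b =>
  fN (Nat.shiftLeft (Nat.add (Nat.mul (Nat.add (Nat.mul (Nat.add (Nat.mul (Nat.add (Nat.mul (nat_lit 28125) b) (nat_lit
      7437727210519691211571200000)) b) (nat_lit 1053710210630571943437562688382635081157574656000000)) b) (nat_lit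
      59712069376071924857719521696641135124813519092111346081194324262912000000)) b) (nat_lit
      563964550088698052204203469398494832673917275004192311577486149796842869612212847854485504000000)) (nat_lit 72)) fun pe =>
  fN (Nat.shiftLeft (Nat.mul (Nat.add (Nat.mul (Nat.add (Nat.mul (Nat.add (Nat.mul (Nat.add (Nat.mul (nat_lit 3125) b) (nat_lit
      1062532458645670173081600000)) b) (nat_lit 210742042126114388687512537676527016231514931200000)) b) (nat_lit
      19904023125357308285906507232213711708271173030703782027064774754304000000)) b) (nat_lit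
      563964550088698052204203469398494832673917275004192311577486149796842869612212847854485504000000)) a) (nat_lit 36)) fun po =>
  fN (Nat.mul (nat_lit 378) (Nat.mul (Nat.mul (Nat.mul (Nat.mul b b) b) b) b)) fun re =>
  (Bool.and (Nat.ble a (nat_lit 68719476736)) (Bool.and (Nat.blt (Nat.add (Nat.mul wl (nat_lit
      2663247288865526880426670996759108189044024010462034733382067961717525034479965974887834664168327709238214262784000000)) (Nat.shiftLeft
      (Nat.add po re) (nat_lit 64))) (Nat.shiftLeft pe (nat_lit 64))) (Nat.blt (Nat.shiftLeft (Nat.add pe re) (nat_lit 64)) (Nat.add (Nat.mul wu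
      (nat_lit 2663247288865526880426670996759108189044024010462034733382067961717525034479965974887834664168327709238214262784000000))
      (Nat.shiftLeft po (nat_lit 64))))))

def envc (d z : Nat) (sB sA : St) (h : Hn) (i2 : Nat) : Bool :=
  fN (Nat.mul z d) fun a => fN (Nat.mul a a) fun a2 => fN (Nat.sub (nat_lit 18446744073709551616) h.wl) fun ol => fN (Nat.sub (nat_lit
      18446744073709551616) h.wu) fun ou =>
  fN (Nat.add (nat_lit 2048) sB.e) fun sb =>
  (Bool.and (expc a h.wl h.wu) (Bool.and (Nat.blt (nat_lit 0) h.wl) (Bool.and (Nat.ble h.wl h.wu) (Bool.and (Nat.blt h.wu (nat_lit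
      18446744073709551616)) (Bool.and (Nat.blt (nat_lit 0) d) (Bool.and (Nat.blt (nat_lit 0) z) (Bool.and (Nat.beq sA.e (Nat.add sB.e d)) (Bool.and
      (Nat.ble (Nat.shiftLeft h.cl (nat_lit 64)) (Nat.add (Nat.mul h.wl sB.c) (Nat.mul ou h.C))) (Bool.and (Nat.ble (Nat.add (Nat.mul h.wu sB.c)
      (Nat.mul ol h.C)) (Nat.shiftLeft sA.c (nat_lit 64))) (Bool.and (Nat.ble (Nat.shiftLeft (Nat.mul sA.T z) (nat_lit 64)) (Nat.add (Nat.mul
      (Nat.mul h.wl sB.T) z) (Nat.shiftLeft ou (nat_lit 92)))) (Bool.and (Nat.ble (Nat.add (Nat.mul (Nat.mul h.wu sB.T) z) (Nat.shiftLeft ol (nat_lit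
      92))) (Nat.shiftLeft (Nat.mul h.Tu z) (nat_lit 64))) (Bool.and (Nat.ble (Nat.shiftLeft (Nat.mul d a2) (nat_lit 48)) (Nat.mul (Nat.mul (nat_lit
      8) h.kk) ou)) (Bool.and (Nat.ble (Nat.add (Nat.add (Nat.shiftLeft z (nat_lit 93)) (Nat.shiftLeft (Nat.mul sb (Nat.mul z z)) (nat_lit 56))) i2)
      (Nat.mul (Nat.mul (nat_lit 2) z) h.C)) (Bool.and (Nat.ble (Nat.add (Nat.shiftLeft (Nat.add (Nat.shiftLeft z (nat_lit 93)) (Nat.shiftLeft
      (Nat.mul (Nat.add sb d) (Nat.mul z z)) (nat_lit 56))) (nat_lit 64)) (Nat.mul h.wu i2)) (Nat.shiftLeft (Nat.mul (Nat.mul (nat_lit 2) z) h.C)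
      (nat_lit 64))) (Bool.and (Nat.blt (Nat.add (Nat.shiftLeft (Nat.mul (Nat.mul (nat_lit 48) ol) h.C) (nat_lit 37)) (Nat.shiftLeft (Nat.mul a2 a2)
      (nat_lit 49))) (Nat.add (Nat.add (Nat.add (Nat.add (Nat.shiftLeft (Nat.mul (nat_lit 48) h.Ex) (nat_lit 101)) (Nat.shiftLeft (Nat.mul (Nat.mul
      (nat_lit 48) ol) (Nat.add (nat_lit 137438953472) (Nat.mul sb z))) (nat_lit 92))) (Nat.shiftLeft a2 (nat_lit 124))) (Nat.shiftLeft (Nat.mul a2
      h.wl) (nat_lit 59))) (Nat.mul (Nat.mul (Nat.mul (nat_lit 48) h.wl) d) i2))) (Bool.and (Nat.ble (Nat.shiftLeft h.Ex (nat_lit 12)) (Nat.mul h.eb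
      h.wl)) (Bool.and (Nat.blt (Nat.shiftLeft ol (nat_lit 75)) (Nat.add (Nat.shiftLeft (Nat.mul (Nat.mul (nat_lit 24) ol) h.Waa) (nat_lit 8))
      (Nat.mul a2 h.wl))) (Bool.and (Nat.blt (Nat.shiftLeft ol (nat_lit 74)) (Nat.add (Nat.shiftLeft (Nat.mul (Nat.mul (nat_lit 24) ol) h.Wab)
      (nat_lit 8)) (Nat.mul a2 h.wl))) (Bool.and (Nat.blt (Nat.mul h.wu (Nat.add (Nat.shiftLeft ou (nat_lit 10)) a2)) (Nat.shiftLeft (Nat.mul
      (Nat.mul (nat_lit 24) ou) h.Wba) (nat_lit 8))) (Bool.and (Nat.blt (Nat.mul h.wu (Nat.add (Nat.shiftLeft ou (nat_lit 11)) a2)) (Nat.shiftLeft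
      (Nat.mul (Nat.mul (nat_lit 24) ou) h.Wbb) (nat_lit 8))) (Bool.and (Nat.ble (Nat.add (Nat.add (Nat.add h.Waa h.Wab) h.Wba) h.Wbb) (nat_lit
      18446744073709551616)) (Bool.and (Nat.blt (nat_lit 0) h.E) (Bool.and (Nat.ble h.E (nat_lit 17592186044416)) (Bool.and (Nat.ble h.kk
      (Nat.shiftLeft sb (nat_lit 56))) (Bool.and (Nat.blt h.eb (nat_lit 4722366482869645213696)) (Bool.and (Nat.ble h.np (nat_lit 65536)) (Nat.ble
      h.nm (nat_lit 65536))))))))))))))))))))))))))))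

def ones (n : Nat) : Nat := (Nat.div (Nat.sub (Nat.shiftLeft (nat_lit 1) (Nat.mul (nat_lit 192) n)) (nat_lit 1)) (nat_lit
    6277101735386680763835789423207666416102355444464034512895))

/-- all tables of one slab -/
def tabs {β : Type} (no : β) (past : List (Nat × Nat)) (d z mu : Nat) (sB sA : St) (h : Hn)
    (hB hA : List (Nat × Nat)) (k : Nat → List Ct → List Ct → β) : β :=
  fN (mkMask 4096) fun MK => fN h.E fun E => fN (Nat.mul (nat_lit 1073741824) E) fun YB => fN (Nat.shiftLeft E (nat_lit 37)) fun den => fN (Nat.mul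
      (nat_lit 1073741824) den) fun od =>
  fN h.ww fun ww => fN h.pad fun pad => fN h.qs fun qs => fN h.J fun J => fN (ones J) fun one =>
  (fun cx : Cx =>
  fL fN (unq 26 h.np h.vp) fun np => fL fN (unq 26 h.nm h.vm) fun nm =>
  walk no np (nat_lit 33554432) 0 0 1 (knU hA) fun uA fa sa ra => walk no np (nat_lit 33554432) 0 0 1 (knU hB) fun uB fb sb rb =>
  walk no nm z fa sa mu (app ra (knD past)) fun dA _ _ _ => walk no nm z fb sb mu (app rb (knD past)) fun dB _ _ _ =>
  accB no E (Nat.sub YB (Nat.shiftRight fa (nat_lit 52))) YB (fun m => (Nat.sub YB m)) uA fun ma => accB no E (Nat.sub YB (Nat.shiftRight fb (nat_lit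
      52))) YB (fun m => (Nat.sub YB m)) uB fun mb =>
  expo no cx d ma fun na => expo no cx d mb fun nb => expo no cx mu ma fun ea => expo no cx mu mb fun eb =>
  fN (slk cx na) fun xa => fN (slk cx nb) fun xb => fN (Nat.add (Nat.shiftRight h.ep (nat_lit 15)) (nat_lit 1)) fun ex =>
  fN (Nat.shiftLeft (Nat.add (nat_lit 2048) sA.e) (nat_lit 56)) fun sa => fN (Nat.shiftLeft (Nat.add (nat_lit 2048) sB.e) (nat_lit 56)) fun sb =>
  mixT cx xa 1 h.Waa h.Wab ea na fun ua => mixT cx xb 1 h.Wba h.Wbb eb nb fun ub =>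
  fN (Nat.add sa h.Tu) fun sa' => fN (Nat.add sb sB.T) fun sb' =>
  sideM no cx ⟨h.Waa, h.Wab, h.Wba, h.Wbb, na, nb, ex⟩ xa xb sa' sb' h.cl sB.c dA dB h.qm ua ub fun _ _ _ _ cm =>
  accB no E YB (Nat.add (Nat.add YB (Nat.shiftRight fa (nat_lit 52))) (nat_lit 1)) (fun m => (Nat.add (Nat.add YB m) (nat_lit 1))) uA fun ma =>
  accB no E YB (Nat.add (Nat.add YB (Nat.shiftRight fb (nat_lit 52))) (nat_lit 1)) (fun m => (Nat.add (Nat.add YB m) (nat_lit 1))) uB fun mb =>
  expo no cx d ma fun na => expo no cx d mb fun nb =>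
  accB no E (Nat.sub (Nat.add (Nat.add YB (Nat.shiftRight fa (nat_lit 52))) (nat_lit 1)) (nat_lit 1099511627776)) YB (fun m => (Nat.sub (Nat.add
      (Nat.add YB m) (nat_lit 1)) (nat_lit 1099511627776))) dA fun ma =>
  accB no E (Nat.sub (Nat.add (Nat.add YB (Nat.shiftRight fb (nat_lit 52))) (nat_lit 1)) (nat_lit 1099511627776)) YB (fun m => (Nat.sub (Nat.add
      (Nat.add YB m) (nat_lit 1)) (nat_lit 1099511627776))) dB fun mb =>
  expo no cx 1 ma fun ea => expo no cx 1 mb fun eb => fN (slk cx na) fun xa => fN (slk cx nb) fun xb =>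
  List.casesOn uA no fun tA uA => List.casesOn uB no fun tB uB =>
  expB no cx mu (fun m => (Nat.add (Nat.add YB m) (nat_lit 1))) tA fun ra => expB no cx mu (fun m => (Nat.add (Nat.add YB m) (nat_lit 1))) tB fun rb
      =>
  mixT cx 1 xa h.Waa h.Wab ea na fun ba => mixT cx 1 xb h.Wba h.Wbb eb nb fun bb =>
  fN (Nat.add (Nat.shiftLeft YB (nat_lit 52)) sA.c) fun ca => fN (Nat.add (Nat.shiftLeft YB (nat_lit 52)) sB.c) fun cb =>
  sideP no cx ⟨h.Waa, h.Wab, h.Wba, h.Wbb, na, nb, 0⟩ mu xa xb h.kk sa sb ca cb ba bb uA uB h.qp ra rb fun _ _ _ _ cp =>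
  k fb cm cp) ⟨MK, E, YB, den, od, ww, pad, qs, one, J⟩

def lastN (l : List Nat) : Nat → Nat := List.rec (fun x => x) (fun a _ ih _ => ih a) l

def mkLx {β : Type} (d z : Nat) (sB sA : St) (h : Hn) (fb : Nat) (k : Lx → β) : β :=
  fN h.E fun E => fN (Nat.mul (nat_lit 1073741824) E) fun YB => fN (Nat.shiftLeft YB (nat_lit 32)) fun Y2 => fN (mn sB.T sA.T) fun Tm =>
  fN (mx sB.T h.Tu) fun Tp => fN (Nat.add (nat_lit 2048) sB.e) fun sb => fN (Nat.add (Nat.shiftLeft sb (nat_lit 56)) Tm) fun sT =>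
  fN (Nat.add (Nat.shiftRight (Nat.sub (Nat.add fb (Nat.mul z sB.T)) (nat_lit 4951760157141521099596496896)) (nat_lit 20)) (nat_lit 1)) fun e0 => fN
      (Nat.shiftLeft z (nat_lit 96)) fun z96 => fN (Nat.shiftLeft (Nat.mul h.wu z) (nat_lit 32)) fun wz =>
  fN (Nat.sub (nat_lit 18446744073709551616) h.wl) fun om => fN (Nat.add h.Ex (Nat.sub sA.c h.cl)) fun ee => fN (Nat.sub h.Tu sA.T) fun dT =>
  fN (Nat.shiftLeft h.wu (nat_lit 22)) fun w22 => fN (Nat.mul d (nat_lit 1073741825)) fun dd => fN (Nat.shiftLeft h.ep (nat_lit 71)) fun ex =>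
  fN h.J fun J => fN (ones J) fun one => fN (Nat.mul (Nat.sub (nat_lit 340282366920938463463374607431768211456) Y2) one) fun hy => fN (Nat.mul
      (nat_lit 340282366920938463463374607431768211455) one) fun hm =>
  k ⟨E, YB, Y2, z, Tm, Tp, sT, e0, sb, z96, wz, om, ee, dT, w22, dd, ex, J, one, hy, hm⟩

def chk (past : List (Nat × Nat)) (d z : Nat) (sB sA : St) (h : Hn) : Bool :=
  fL fP (unp 112 28 sB.hn sB.hv) fun hB => fL fP (unp 112 28 sA.hn sA.hv) fun hA =>
  fN (smu past 0) fun mu => fN (sq2 z hB 0) fun i2 =>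
  Bool.and (Bool.and (srt past z) (Bool.and (Nat.ble (Nat.add mu d) (nat_lit 16777216)) (Bool.and (hchk h.wl h.wu z hB hA (nat_lit 33554432))
      (Bool.and (envc d z sB sA h i2) (Bool.and (Nat.beq (lastN (unq (nat_lit 26) h.np h.vp) (nat_lit 33554432)) z) (Bool.and (Nat.beq (lastN (unq
      (nat_lit 26) h.nm h.vm) z) (nat_lit 0)) (Nat.ble (Nat.shiftLeft (sq1 hA (nat_lit 0)) (nat_lit 64)) (Nat.add (Nat.add (Nat.mul h.wl (sq1 hB
      (nat_lit 0))) (Nat.shiftLeft (Nat.sub (nat_lit 18446744073709551616) h.wu) (nat_lit 92))) (Nat.shiftLeft h.ep (nat_lit 64))))))))))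
  (tabs false past d z mu sB sA h hB hA fun fb cm cp =>
    (hd false cp fun top => fN (sfx top.c2 top.n) fun c3 => mkLx d z sB sA h fb fun lx =>
      Bool.and (Nat.blt lx.e0 (nat_lit 1298074214633706907132624082305024)) (mkF false lx.one h.eb sA.lv sB.lv fun fm => levs lx cm cp top.gb top.dq
          c3 fm h.lv)))

end
end Pool.Agent.MP_3bf126_pr.H21.K
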