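import Pool.Agent.MP_3bf126_pr.H21.Law

/-! Convexity of the cell functional in the position of the new point. -/

namespace Pool.Agent.MP_3bf126_pr.H21
open MeasureTheory Set Filter Pool.Agent.MP_3bf126_pr.H40
open scoped ENNReal
noncomputable section
variable {p : Par}

namespace Cv

lemma cl_cons (v : ℝ) (ξ : List ℝ) (x : ℝ) :
    cl (v :: ξ) x = (if v < x then (1 : ℝ) else 0) + cl ξ x := by simp [cl]

lemma ii_ite {f g : ℝ → ℝ} {s : Set ℝ} [DecidablePred (· ∈ s)] (hs : MeasurableSet s) {a b : ℝ}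
    (hf : IntervalIntegrable f volume a b) (hg : IntervalIntegrable g volume a b) :
    IntervalIntegrable (fun x => if x ∈ s then f x else g x) volume a b :=
  ⟨Integrable.piecewise hs hf.1.integrableOn hg.1.integrableOn,
    Integrable.piecewise hs hf.2.integrableOn hg.2.integrableOn⟩

lemma meas_cl {α : Type} [MeasurableSpace α] {a : α → ℝ} (ha : Measurable a) (l : List (α → ℝ))
    (hl : ∀ g ∈ l, Measurable g) : Measurable fun w => cl (l.map fun g => g w) (a w) := by
  induction l with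
  | nil => simp [cl]
  | cons g l ih =>
    simp only [List.map_cons, cl_cons]
    exact (Measurable.ite (measurableSet_lt (hl g List.mem_cons_self) ha) measurable_const
      measurable_const).add (ih fun k hk => hl k (List.mem_cons_of_mem _ hk))

lemma meas_arg {h φ L : ℝ → ℝ} (hh : Continuous h) (hφ : Continuous φ) (hL : Continuous L)
    {α : Type} [MeasurableSpace α] {a : α → ℝ} (ha : Measurable a) (l : List (α → ℝ))
    (hl : ∀ g ∈ l, Measurable g) : Measurable fun w =>
      h (cl (l.map fun g => g w) (a w) - ((l.map fun g => g w).map φ).sum + L (a w)) :=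
  hh.measurable.comp (((meas_cl ha l hl).sub (Meas.mapsum hφ.measurable α l hl)).add
    (hL.measurable.comp ha))

/-- joint measurability -/
def JM (f : ℝ → List ℝ → ℝ≥0∞) : Prop := ∀ (α : Type) [MeasurableSpace α] (a : α → ℝ)
  (l : List (α → ℝ)), Measurable a → (∀ g ∈ l, Measurable g) →
    Measurable fun w => f (a w) (l.map fun g => g w)

lemma JM.pz {f : ℝ → List ℝ → ℝ≥0∞} (hf : JM f) (z : ℝ) : JM fun x => Pz p z (f x) := by
  intro α _ a l ha hl
  have h := hf (α × ℝ) (fun w => a w.1) (Prod.snd :: l.map fun g a => g a.1)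
    (ha.comp measurable_fst) (by
    intro g hg
    rcases List.mem_cons.1 hg with rfl | hg
    · exact measurable_snd
    · obtain ⟨k, hk, rfl⟩ := List.mem_map.1 hg
      exact (hl k hk).comp measurable_fst)
  have h2 := Measurable.lintegral_prod_right' (ν := volume.restrict (Ioc z p.X)) h
  simp only [List.map_cons, List.map_map, Function.comp_def] at h2
  exact (h2.const_mul _).add ((hf α a l ha hl).const_mul _)

lemma tonelli (zs : List ℝ) (s : Set ℝ) {f : ℝ → List ℝ → ℝ≥0∞} (hf : JM f) :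
    Mz p zs (fun ξ => ∫⁻ x in s, f x ξ) = ∫⁻ x in s, Mz p zs (f x) := by
  induction zs generalizing f with
  | nil => rfl
  | cons z zs ih =>
    have e : Pz p z (fun ξ => ∫⁻ x in s, f x ξ) = fun ξ => ∫⁻ x in s, Pz p z (f x) ξ := by
      funext ξ
      have h1 : Measurable fun w : ℝ × ℝ => f w.2 (w.1 :: ξ) := by
        have h := hf (ℝ × ℝ) Prod.snd (Prod.fst :: ξ.map fun c _ => c) measurable_snd (by
          intro g hg
          rcases List.mem_cons.1 hg with rfl | hg
          · exact measurable_fst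
          · obtain ⟨c, -, rfl⟩ := List.mem_map.1 hg
            exact measurable_const)
        simpa [Function.comp_def] using h
      have h2 : Measurable fun x : ℝ => f x ξ := by
        have h := hf ℝ id (ξ.map fun c _ => c) measurable_id (by
          intro g hg
          obtain ⟨c, -, rfl⟩ := List.mem_map.1 hg
          exact measurable_const)
        simpa [Function.comp_def] using h
      simp only [Pz]
      rw [lintegral_add_right _ (h2.const_mul _),
        lintegral_const_mul' _ _ ENNReal.ofReal_ne_top,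
        lintegral_const_mul' _ _ ENNReal.ofReal_ne_top,
        lintegral_lintegral_swap (f := fun u x => f x (u :: ξ)) h1.aemeasurable]
    simp only [Mz]
    rw [e, ih (hf.pz z)]

/-- nonnegative convex functions -/
def CN (F : ℝ → ℝ) : Prop := ConvexOn ℝ univ F ∧ ∀ y, 0 ≤ F y

lemma CN.cont {F : ℝ → ℝ} (hF : CN F) : Continuous F :=
  continuousOn_univ.1 (hF.1.continuousOn isOpen_univ)

lemma CN.cvx {F : ℝ → ℝ} (hF : CN F) (x y c : ℝ) {a b : ℝ} (ha : 0 ≤ a) (hb : 0 ≤ b)
    (hab : a + b = 1) : F (a * x + b * y + c) ≤ a * F (x + c) + b * F (y + c) := by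
  have e : a * x + b * y + c = a * (x + c) + b * (y + c) := by linear_combination (-c) * hab
  rw [e]
  exact hF.1.2 (mem_univ _) (mem_univ _) ha hb hab

lemma CN.shift {F : ℝ → ℝ} (hF : CN F) (c : ℝ) : CN fun y => F (y + c) :=
  ⟨⟨convex_univ, fun x _ y _ _ _ ha hb hab => hF.cvx x y c ha hb hab⟩, fun _ => hF.2 _⟩

lemma CN.inc {F : ℝ → ℝ} (hF : CN F) {s s' e : ℝ} (hs : s ≤ s') (he : 0 ≤ e) :
    F (s + e) - F s ≤ F (s' + e) - F s' := by
  rcases (add_nonneg (sub_nonneg.2 hs) he).eq_or_lt with h | h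
  · obtain rfl : s = s' := by linarith
    exact le_rfl
  have ha : 0 ≤ (s' - s) / (s' - s + e) := div_nonneg (sub_nonneg.2 hs) h.le
  have hb : 0 ≤ e / (s' - s + e) := div_nonneg he h.le
  have hab : (s' - s) / (s' - s + e) + e / (s' - s + e) = 1 := by field_simp
  have h1 := hF.cvx s (s' + e) 0 ha hb hab
  have h2 := hF.cvx (s' + e) s 0 ha hb hab
  rw [show (s' - s) / (s' - s + e) * s + e / (s' - s + e) * (s' + e) + 0 = s + e by
    field_simp; ring] at h1
  rw [show (s' - s) / (s' - s + e) * (s' + e) + e / (s' - s + e) * s + 0 = s' by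
    field_simp; ring] at h2
  simp only [add_zero] at h1 h2
  have h3 : (s' - s) / (s' - s + e) * (F s + F (s' + e)) + e / (s' - s + e) * (F s + F (s' + e)) =
      F s + F (s' + e) := by rw [← add_mul, hab, one_mul]
  linarith

/-- the indicator of `u < x` -/
def ind (x u : ℝ) : ℝ := if u < x then 1 else 0

lemma ii_jump {F φ : ℝ → ℝ} (hF : Continuous F) (hφ : Continuous φ) (y x a b : ℝ) :
    IntervalIntegrable (fun u => F (y + (ind x u - φ u))) volume a b := by
  have h := ii_ite (s := Iio x) (f := fun u => F (y + (1 - φ u))) (g := fun u => F (y + (0 - φ u)))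
    measurableSet_Iio (Continuous.intervalIntegrable (by fun_prop) a b)
    (Continuous.intervalIntegrable (by fun_prop) a b)
  refine h.congr fun u _ => ?_
  simp only [ind, mem_Iio]
  split_ifs <;> rfl

lemma ii_ind (x a b : ℝ) : IntervalIntegrable (ind x) volume a b := by
  simpa using ii_jump continuous_id (φ := fun _ => 0) continuous_const 0 x a b

lemma int_ind {z X w : ℝ} (hz : z ≤ X) (hw : w ≤ X) : ∫ u in z..X, ind w u = max z w - z := by
  have e : ind w = indicator (Iio w) fun _ => (1 : ℝ) := by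
    funext u; simp [ind, indicator]
  have e2 : Iio w ∩ Ioc z X = Ioo z w := by
    ext u
    simp only [mem_inter_iff, mem_Iio, mem_Ioc, mem_Ioo]
    exact ⟨fun h => ⟨h.2.1, h.1⟩, fun h => ⟨h.2, h.1, h.2.le.trans hw⟩⟩
  rw [intervalIntegral.integral_of_le hz, e, integral_indicator measurableSet_Iio,
    Measure.restrict_restrict measurableSet_Iio, e2, setIntegral_const, Real.volume_real_Ioo,
    smul_eq_mul, mul_one, ← max_sub_sub_right, sub_self, max_comm]

/-- the step operator -/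
def Tp (p : Par) (φ : ℝ → ℝ) (z x : ℝ) (F : ℝ → ℝ) (y : ℝ) : ℝ :=
  1 / p.n * (∫ u in z..p.X, F (y + (ind x u - φ u))) + (1 - p.X / p.n) * F y

variable {φ : ℝ → ℝ} {z : ℝ}

lemma Tp_le (hp : p.OK) {x x' x'' y y' y'' a b : ℝ} {G F F' : ℝ → ℝ}
    (h1 : (∫ u in z..p.X, G (y + (ind x u - φ u))) ≤
      a * (∫ u in z..p.X, F (y' + (ind x' u - φ u))) +
        b * ∫ u in z..p.X, F' (y'' + (ind x'' u - φ u)))
    (h2 : G y ≤ a * F y' + b * F' y'') :
    Tp p φ z x G y ≤ a * Tp p φ z x' F y' + b * Tp p φ z x'' F' y'' := by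
  have h3 := mul_le_mul_of_nonneg_left h1 (one_div_pos.2 hp.n0).le
  have h4 := mul_le_mul_of_nonneg_left h2 (hp.fac le_rfl).le
  simp only [Tp]
  linarith

lemma int_le {z X a b : ℝ} (hz : z ≤ X) {g f f' : ℝ → ℝ} (hg : IntervalIntegrable g volume z X)
    (hf : IntervalIntegrable f volume z X) (hf' : IntervalIntegrable f' volume z X)
    (h : ∀ u, g u ≤ a * f u + b * f' u) :
    (∫ u in z..X, g u) ≤ a * (∫ u in z..X, f u) + b * ∫ u in z..X, f' u := by
  rw [← intervalIntegral.integral_const_mul, ← intervalIntegral.integral_const_mul,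
    ← intervalIntegral.integral_add (hf.const_mul a) (hf'.const_mul b)]
  exact intervalIntegral.integral_mono_on hz hg ((hf.const_mul a).add (hf'.const_mul b))
    fun u _ => h u

lemma CN.tp (hp : p.OK) (hφ : Continuous φ) (hz : z ≤ p.X) {F : ℝ → ℝ} (hF : CN F) (x : ℝ) :
    CN (Tp p φ z x F) := by
  refine ⟨⟨convex_univ, fun y _ y' _ a b ha hb hab => ?_⟩, fun y => ?_⟩
  · refine Tp_le hp (int_le hz (ii_jump hF.cont hφ _ _ _ _) (ii_jump hF.cont hφ _ _ _ _)
      (ii_jump hF.cont hφ _ _ _ _) fun u => hF.cvx _ _ _ ha hb hab) ?_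
    exact hF.1.2 (mem_univ _) (mem_univ _) ha hb hab
  · exact add_nonneg (mul_nonneg (one_div_pos.2 hp.n0).le
      (intervalIntegral.integral_nonneg hz fun u _ => hF.2 _))
      (mul_nonneg (hp.fac le_rfl).le (hF.2 y))

lemma tp_mono (hp : p.OK) (hφ : Continuous φ) (hz : z ≤ p.X) {F : ℝ → ℝ} (hF : CN F)
    (hm : Monotone F) (x : ℝ) : Monotone (Tp p φ z x F) := by
  intro y y' h
  exact add_le_add (mul_le_mul_of_nonneg_left (intervalIntegral.integral_mono_on hz
    (ii_jump hF.cont hφ _ _ _ _) (ii_jump hF.cont hφ _ _ _ _) fun u _ => hm (by linarith))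
    (one_div_pos.2 hp.n0).le) (mul_le_mul_of_nonneg_left (hm h) (hp.fac le_rfl).le)

lemma tp_diff (hp : p.OK) (hφ : Continuous φ) (hz : z ≤ p.X) {F0 F1 : ℝ → ℝ} (h0 : CN F0)
    (h1 : CN F1) (hm : Monotone fun y => F1 y - F0 y) {x0 x1 : ℝ} (hx : x0 ≤ x1) :
    Monotone fun y => Tp p φ z x1 F1 y - Tp p φ z x0 F0 y := by
  intro y y' h
  have e1 := intervalIntegral.integral_mono_on hz
    ((ii_jump h1.cont hφ y x1 z p.X).sub (ii_jump h0.cont hφ y x0 z p.X))
    ((ii_jump h1.cont hφ y' x1 z p.X).sub (ii_jump h0.cont hφ y' x0 z p.X)) fun u _ => by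
      have a1 := hm (show y + (ind x1 u - φ u) ≤ y' + (ind x1 u - φ u) by linarith)
      have a2 : 0 ≤ ind x1 u - ind x0 u := by
        simp only [ind]
        split_ifs <;> linarith
      have a3 := h0.inc (show y + (ind x0 u - φ u) ≤ y' + (ind x0 u - φ u) by linarith) a2
      rw [show y + (ind x0 u - φ u) + (ind x1 u - ind x0 u) = y + (ind x1 u - φ u) by ring,
        show y' + (ind x0 u - φ u) + (ind x1 u - ind x0 u) = y' + (ind x1 u - φ u) by ring] at a3
      simp only at a1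
      linarith
  rw [intervalIntegral.integral_sub (ii_jump h1.cont hφ _ _ _ _) (ii_jump h0.cont hφ _ _ _ _),
    intervalIntegral.integral_sub (ii_jump h1.cont hφ _ _ _ _) (ii_jump h0.cont hφ _ _ _ _)] at e1
  have h3 := mul_le_mul_of_nonneg_left e1 (one_div_pos.2 hp.n0).le
  have h4 := mul_le_mul_of_nonneg_left (hm h) (hp.fac le_rfl).le
  simp only [Tp]
  linarith

lemma tp_key (hp : p.OK) (hφ : Continuous φ) (hφa : Antitone φ) (hz : z ≤ p.X) {G F0 F1 : ℝ → ℝ}
    (hG : CN G) (h0 : CN F0) (h1 : CN F1) (hm : Monotone fun y => F1 y - F0 y)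
    {x0 x x1 a b : ℝ} (hx0 : x0 ≤ x) (hx1 : x ≤ x1) (hX : x1 ≤ p.X) (ha : 0 ≤ a) (hb : 0 ≤ b)
    (hab : a * (x - x0) = b * (x1 - x)) (ho : Monotone F0 ∨ z ≤ x0)
    (hle : ∀ y, G y ≤ a * F0 y + b * F1 y) (y : ℝ) :
    Tp p φ z x G y ≤ a * Tp p φ z x0 F0 y + b * Tp p φ z x1 F1 y := by
  refine Tp_le hp ?_ (hle y)
  obtain ⟨c, hc⟩ : ∃ c, c = F0 (y + (0 - φ x) + 1) - F0 (y + (0 - φ x)) := ⟨_, rfl⟩
  have i0 := ii_jump h0.cont hφ y x0 z p.X
  have i1 := ii_jump h1.cont hφ y x1 z p.X
  have j0 := (ii_ind x z p.X).sub (ii_ind x0 z p.X)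
  have j1 := (ii_ind x1 z p.X).sub (ii_ind x z p.X)
  have e1 := int_le (a := a) (b := b) hz (ii_jump hG.cont hφ y x z p.X) (i0.add (j0.const_mul c))
    (i1.sub (j1.const_mul c)) fun u => by
      refine (hle _).trans (add_le_add (mul_le_mul_of_nonneg_left ?_ ha)
        (mul_le_mul_of_nonneg_left ?_ hb))
      · simp only [ind]
        split_ifs with k1 k2 k2
        · simp
        · have := h0.inc (show y + (0 - φ u) ≤ y + (0 - φ x) by linarith [hφa k1.le]) zero_le_one
          rw [show y + (1 - φ u) = y + (0 - φ u) + 1 by ring]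
          linarith
        · exact absurd (k2.trans_le hx0) k1
        · simp
      · simp only [ind]
        split_ifs with k1 k2 k2
        · simp
        · exact absurd (k1.trans_le hx1) k2
        · have a1 := h0.inc
            (show y + (0 - φ x) ≤ y + (0 - φ u) by linarith [hφa (not_lt.1 k1)]) zero_le_one
          have a2 := hm (show y + (0 - φ u) ≤ y + (0 - φ u) + 1 by linarith)
          rw [show y + (1 - φ u) = y + (0 - φ u) + 1 by ring]
          simp only at a2
          linarith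
        · simp
  rw [intervalIntegral.integral_add i0 (j0.const_mul c),
    intervalIntegral.integral_sub i1 (j1.const_mul c), intervalIntegral.integral_const_mul,
    intervalIntegral.integral_const_mul,
    intervalIntegral.integral_sub (ii_ind _ _ _) (ii_ind _ _ _),
    intervalIntegral.integral_sub (ii_ind _ _ _) (ii_ind _ _ _), int_ind hz hX,
    int_ind hz (hx1.trans hX), int_ind hz (hx0.trans (hx1.trans hX))] at e1
  have e2 : c * (a * (max z x - max z x0) - b * (max z x1 - max z x)) ≤ 0 := by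
    rcases ho with ho | ho
    · have c0 : 0 ≤ c := by rw [hc]; exact sub_nonneg.2 (ho (by linarith))
      refine mul_nonpos_of_nonneg_of_nonpos c0 (sub_nonpos.2 ?_)
      rcases le_total z x with k | k
      · rw [max_eq_right k, max_eq_right (k.trans hx1), ← hab]
        exact mul_le_mul_of_nonneg_left (by linarith [le_max_right z x0]) ha
      · rw [max_eq_left k, max_eq_left (hx0.trans k), sub_self, mul_zero]
        exact mul_nonneg hb (sub_nonneg.2 (le_max_left _ _))
    · rw [max_eq_right ho, max_eq_right (ho.trans hx0), max_eq_right (ho.trans (hx0.trans hx1)),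
        hab, sub_self, mul_zero]
  linarith

lemma pz_tp (hp : p.OK) (hφ : Continuous φ) (hz : z ≤ p.X) {F : ℝ → ℝ} (hF : CN F) (x : ℝ) :
    Pz p z (fun ξ => ENNReal.ofReal (F (cl ξ x - (ξ.map φ).sum))) =
      fun ξ => ENNReal.ofReal (Tp p φ z x F (cl ξ x - (ξ.map φ).sum)) := by
  funext ξ
  have e : (fun u => F (cl (u :: ξ) x - ((u :: ξ).map φ).sum)) =
      fun u => F (cl ξ x - (ξ.map φ).sum + (ind x u - φ u)) := by
    funext u
    rw [cl_cons, List.map_cons, List.sum_cons, ind]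
    congr 1
    ring
  rw [Pz_ofReal hp hz (fun _ => hF.2 _) (by rw [e]; exact ii_jump hF.cont hφ _ _ _ _), e, Tp]

lemma point (hp : p.OK) (hφ : Continuous φ) (hφa : Antitone φ) {zs : List ℝ} (hz : ZOK p zs)
    {x0 x x1 a b : ℝ} (hx0 : x0 ≤ x) (hx1 : x ≤ x1) (hX : x1 ≤ p.X) (ha : 0 ≤ a) (hb : 0 ≤ b)
    (hab : a * (x - x0) = b * (x1 - x)) {G F0 F1 : ℝ → ℝ}
    (hG : CN G) (h0 : CN F0) (h1 : CN F1) (hm : Monotone fun y => F1 y - F0 y)
    (ho : Monotone F0 ∨ ∀ z ∈ zs, z ≤ x0) (hle : ∀ y, G y ≤ a * F0 y + b * F1 y) :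
    Mz p zs (fun ξ => ENNReal.ofReal (G (cl ξ x - (ξ.map φ).sum))) ≤
      ENNReal.ofReal a * Mz p zs (fun ξ => ENNReal.ofReal (F0 (cl ξ x0 - (ξ.map φ).sum))) +
      ENNReal.ofReal b * Mz p zs (fun ξ => ENNReal.ofReal (F1 (cl ξ x1 - (ξ.map φ).sum))) := by
  induction zs generalizing G F0 F1 with
  | nil =>
    simp only [Mz, cl, List.map_nil, List.sum_nil]
    rw [← ENNReal.ofReal_mul ha, ← ENNReal.ofReal_mul hb]
    exact (ENNReal.ofReal_le_ofReal (hle _)).trans ENNReal.ofReal_add_le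
  | cons z zs ih =>
    have hzX := (hz z List.mem_cons_self).2
    simp only [Mz]
    rw [pz_tp hp hφ hzX hG, pz_tp hp hφ hzX h0, pz_tp hp hφ hzX h1]
    exact ih (fun w hw => hz w (List.mem_cons_of_mem _ hw)) (hG.tp hp hφ hzX x)
      (h0.tp hp hφ hzX x0) (h1.tp hp hφ hzX x1) (tp_diff hp hφ hzX h0 h1 hm (hx0.trans hx1))
      (ho.imp (fun k => tp_mono hp hφ hzX h0 k x0) fun k w hw => k w (List.mem_cons_of_mem _ hw))
      (tp_key hp hφ hφa hzX hG h0 h1 hm hx0 hx1 hX ha hb hab
        (ho.imp id fun k => k z List.mem_cons_self) hle)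

end Cv

open Cv

lemma meas_cellM {h φ L : ℝ → ℝ} (hh : Continuous h) (hφ : Continuous φ) (hL : Continuous L) (x0 x1 : ℝ) :
    Meas fun ξ => ∫ x in x0..x1, h (cl ξ x - (ξ.map φ).sum + L x) := by
  intro α _ l hl
  have hF := meas_arg hh hφ hL (α := α × ℝ) measurable_snd (l.map fun g a => g a.1) (by
    intro g hg
    obtain ⟨k, hk, rfl⟩ := List.mem_map.1 hg
    exact (hl k hk).comp measurable_fst)
  have h1 := (hF.stronglyMeasurable.integral_prod_right'
    (ν := volume.restrict (Ioc x0 x1))).measurable.sub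
    (hF.stronglyMeasurable.integral_prod_right' (ν := volume.restrict (Ioc x1 x0))).measurable
  simp only [List.map_map, Function.comp_def] at h1
  simp only [intervalIntegral, List.map_map, Function.comp_def]
  exact h1

lemma meas_cellP {h φ L : ℝ → ℝ} (hh : Continuous h) (hφ : Continuous φ) (hL : Continuous L) (x0 x1 : ℝ) :
    Meas fun ξ => ∫ x in x0..x1, h ((ξ.map φ).sum - cl ξ x + L x) := by
  have h1 := meas_cellM (h := fun y => h (-y)) (L := fun x => -L x) (hh.comp continuous_neg) hφ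
    hL.neg x0 x1
  simpa only [neg_add, neg_sub, neg_neg] using h1

lemma int_cellM {h L : ℝ → ℝ} (hh : Continuous h) (hL : Continuous L) (ξ : List ℝ) (c x0 x1 : ℝ) :
    IntervalIntegrable (fun x => h (cl ξ x - c + L x)) volume x0 x1 := by
  induction ξ generalizing c with
  | nil =>
    simp only [cl, List.map_nil, List.sum_nil]
    exact Continuous.intervalIntegrable (by fun_prop) _ _
  | cons v ξ ih =>
    refine (ii_ite (s := Ioi v) measurableSet_Ioi (ih (c - 1)) (ih c)).congr fun x _ => ?_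
    simp only [cl_cons, mem_Ioi]
    split_ifs
    · congr 1; ring
    · congr 1; ring

lemma int_cellP {h L : ℝ → ℝ} (hh : Continuous h) (hL : Continuous L) (ξ : List ℝ) (c x0 x1 : ℝ) :
    IntervalIntegrable (fun x => h (c - cl ξ x + L x)) volume x0 x1 := by
  have h1 := int_cellM (h := fun y => h (-y)) (L := fun x => -L x) (hh.comp continuous_neg)
    hL.neg ξ c x0 x1
  simpa only [neg_add, neg_sub, neg_neg] using h1

lemma Cv.lin_int {x0 x1 : ℝ} (h01 : x0 < x1) {g : ℝ → ℝ} (hg : Continuous g)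
    (h0 : ∀ x ∈ Ioc x0 x1, 0 ≤ g x) (e : ∫ x in x0..x1, g x = (x1 - x0) / 2) :
    ∫⁻ x in Ioc x0 x1, ENNReal.ofReal (g x) = ENNReal.ofReal ((x1 - x0) / 2) := by
  rw [← ofReal_integral_eq_lintegral_ofReal (hg.intervalIntegrable x0 x1).1
    ((ae_restrict_iff' measurableSet_Ioc).2 (ae_of_all _ h0)),
    ← intervalIntegral.integral_of_le h01.le, e]

theorem Cv.gen (hp : p.OK) {zs : List ℝ} (hz : ZOK p zs) {h φ : ℝ → ℝ} (hh : CN h)
    (hφ : Continuous φ) (hφa : Antitone φ) {x0 x1 l0 l1 : ℝ} (ho : Monotone h ∨ ∀ z ∈ zs, z ≤ x0)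
    (h01 : x0 < x1) (h1 : x1 ≤ p.X) (hl : l0 ≤ l1) :
    Mz p zs (fun ξ => ENNReal.ofReal (∫ x in x0..x1,
      h (cl ξ x - (ξ.map φ).sum + ((x1 - x) * l0 + (x - x0) * l1) / (x1 - x0)))) ≤
    Mz p zs (fun ξ => ENNReal.ofReal ((x1 - x0) *
      ((h (cl ξ x0 - (ξ.map φ).sum + l0) + h (cl ξ x1 - (ξ.map φ).sum + l1)) / 2))) := by
  have hd : 0 < x1 - x0 := sub_pos.2 h01
  have hL : Continuous fun x => ((x1 - x) * l0 + (x - x0) * l1) / (x1 - x0) := by fun_prop
  have e1 : (fun ξ : List ℝ => ENNReal.ofReal (∫ x in x0..x1,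
      h (cl ξ x - (ξ.map φ).sum + ((x1 - x) * l0 + (x - x0) * l1) / (x1 - x0)))) =
      fun ξ => ∫⁻ x in Ioc x0 x1, ENNReal.ofReal
        (h (cl ξ x - (ξ.map φ).sum + ((x1 - x) * l0 + (x - x0) * l1) / (x1 - x0))) := by
    funext ξ
    rw [intervalIntegral.integral_of_le h01.le, ofReal_integral_eq_lintegral_ofReal
      (int_cellM hh.cont hL ξ _ x0 x1).1 (ae_of_all _ fun x => hh.2 _)]
  have e2 : (fun ξ : List ℝ => ENNReal.ofReal ((x1 - x0) *
      ((h (cl ξ x0 - (ξ.map φ).sum + l0) + h (cl ξ x1 - (ξ.map φ).sum + l1)) / 2))) =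
      fun ξ => ENNReal.ofReal ((x1 - x0) / 2) * (ENNReal.ofReal (h (cl ξ x0 - (ξ.map φ).sum + l0)) +
        ENNReal.ofReal (h (cl ξ x1 - (ξ.map φ).sum + l1))) := by
    funext ξ
    rw [← ENNReal.ofReal_add (hh.2 _) (hh.2 _), ← ENNReal.ofReal_mul (by positivity)]
    congr 1
    ring
  have m0 : MeasE fun ξ => ENNReal.ofReal (h (cl ξ x0 - (ξ.map φ).sum + l0)) := fun α _ l hl =>
    (meas_arg hh.cont hφ (L := fun _ => l0) continuous_const (a := fun _ => x0) measurable_const
      l hl).ennreal_ofReal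
  rw [e1, e2, Mz_smul, Mz_add zs m0, tonelli zs _ (f := fun x ξ => ENNReal.ofReal
    (h (cl ξ x - (ξ.map φ).sum + ((x1 - x) * l0 + (x - x0) * l1) / (x1 - x0))))
    fun α _ a l ha hl => (meas_arg hh.cont hφ hL ha l hl).ennreal_ofReal]
  refine (setLIntegral_mono' measurableSet_Ioc fun x hx => point hp hφ hφa hz hx.1.le hx.2 h1
    (a := (x1 - x) / (x1 - x0)) (b := (x - x0) / (x1 - x0))
    (div_nonneg (sub_nonneg.2 hx.2) hd.le) (div_nonneg (sub_nonneg.2 hx.1.le) hd.le) (by ring)
    (hh.shift _) (hh.shift l0) (hh.shift l1) (fun y y' k => ?_)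
    (ho.imp (fun k y y' e => k (by linarith)) id) fun y => ?_).trans_eq ?_
  · have := hh.inc (show y + l0 ≤ y' + l0 by linarith) (sub_nonneg.2 hl)
    rwa [show y + l0 + (l1 - l0) = y + l1 by ring, show y' + l0 + (l1 - l0) = y' + l1 by ring]
      at this
  · have := hh.cvx l0 l1 y (div_nonneg (sub_nonneg.2 hx.2) hd.le)
      (div_nonneg (sub_nonneg.2 hx.1.le) hd.le) (by field_simp; ring)
    rw [add_comm y l0, add_comm y l1, show y + ((x1 - x) * l0 + (x - x0) * l1) / (x1 - x0) =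
      (x1 - x) / (x1 - x0) * l0 + (x - x0) / (x1 - x0) * l1 + y by ring]
    exact this
  · rw [lintegral_add_left (by fun_prop), lintegral_mul_const _ (by fun_prop),
      lintegral_mul_const _ (by fun_prop), mul_add,
      lin_int h01 (by fun_prop) (fun x hx => div_nonneg (sub_nonneg.2 hx.2) hd.le),
      lin_int h01 (by fun_prop) (fun x hx => div_nonneg (sub_nonneg.2 hx.1.le) hd.le)]
    · rw [intervalIntegral.integral_div, intervalIntegral.integral_sub
        (Continuous.intervalIntegrable (by fun_prop) _ _) intervalIntegrable_const, integral_id,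
        intervalIntegral.integral_const, smul_eq_mul]
      field_simp
      ring
    · rw [intervalIntegral.integral_div, intervalIntegral.integral_sub intervalIntegrable_const
        (Continuous.intervalIntegrable (by fun_prop) _ _), integral_id,
        intervalIntegral.integral_const, smul_eq_mul]
      field_simp
      ring

theorem conv_minus (hp : p.OK) {zs : List ℝ} (hz : ZOK p zs) {h φ : ℝ → ℝ} (hh : TF h) (hφ : Continuous φ)
    (hφa : Antitone φ) {x0 x1 l0 l1 : ℝ} (h0 : 0 ≤ x0) (h01 : x0 < x1) (h1 : x1 ≤ p.X) (hl : l0 ≤ l1) :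
    Mz p zs (fun ξ => ENNReal.ofReal (∫ x in x0..x1,
      h (cl ξ x - (ξ.map φ).sum + ((x1 - x) * l0 + (x - x0) * l1) / (x1 - x0)))) ≤
    Mz p zs (fun ξ => ENNReal.ofReal ((x1 - x0) *
      ((h (cl ξ x0 - (ξ.map φ).sum + l0) + h (cl ξ x1 - (ξ.map φ).sum + l1)) / 2))) :=
  have _ := h0
  Cv.gen hp hz ⟨hh.1, hh.2.2⟩ hφ hφa (Or.inl hh.2.1) h01 h1 hl

theorem conv_plus (hp : p.OK) {zs : List ℝ} (hz : ZOK p zs) {h φ : ℝ → ℝ} (hh : TF h) (hφ : Continuous φ)
    (hφa : Antitone φ) {x0 x1 l0 l1 : ℝ} (h0 : ∀ z ∈ zs, z ≤ x0) (h01 : x0 < x1) (h1 : x1 ≤ p.X) (hl : l1 ≤ l0) :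
    Mz p zs (fun ξ => ENNReal.ofReal (∫ x in x0..x1,
      h ((ξ.map φ).sum - cl ξ x + ((x1 - x) * l0 + (x - x0) * l1) / (x1 - x0)))) ≤
    Mz p zs (fun ξ => ENNReal.ofReal ((x1 - x0) *
      ((h ((ξ.map φ).sum - cl ξ x0 + l0) + h ((ξ.map φ).sum - cl ξ x1 + l1)) / 2))) := by
  have hc : CN fun y => h (-y) := ⟨⟨convex_univ, fun x _ y _ a b ha hb hab => by
    have := hh.cvx (-x) (-y) ha hb hab
    simp only [smul_eq_mul]
    rwa [show -(a * x + b * y) = a * -x + b * -y by ring]⟩, fun _ => hh.2.2 _⟩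
  have h2 := Cv.gen hp hz hc hφ hφa (Or.inr h0) h01 h1 (neg_le_neg hl)
  have e : ∀ x, -(((x1 - x) * -l0 + (x - x0) * -l1) / (x1 - x0)) =
      ((x1 - x) * l0 + (x - x0) * l1) / (x1 - x0) := fun x => by ring
  simpa only [neg_add, neg_sub, neg_neg, e] using h2

end
end Pool.Agent.MP_3bf126_pr.H21
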