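import Pool.Agent.MP_3bf126_pr.H40.Boot

/-! Robbins' problem, performance-difference lower bound: definitions. -/

namespace Pool.Agent.MP_3bf126_pr.H21
open MeasureTheory Set Filter Pool.Agent.MP_3bf126_pr.H40
open scoped ENNReal
noncomputable section

/-- finitely supported real weights on the integers, with convolution -/
abbrev A := AddMonoidAlgebra ℝ ℤ

def ev (f : A) (h : ℤ → ℝ) : ℝ := f.coeff.sum fun j c => c * h j
def Pos (f : A) : Prop := ∀ h : ℤ → ℝ, (∀ j, 0 ≤ h j) → 0 ≤ ev f h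
def Le (f g : A) : Prop := Pos (g - f)
def mass (f : A) : ℝ := ev f fun _ => 1
def m1 (f : A) : ℝ := ev f fun j => (j : ℝ)
def m2 (f : A) : ℝ := ev f fun j => (j : ℝ) ^ 2
def sg (k : ℤ) (c : ℝ) : A := AddMonoidAlgebra.single k c

/-- `f` lies below the compound Poisson law with jump measure `Λ`, with room to spare -/
def SP (Λ f : A) : Prop := Pos f ∧ ∃ θ a : ℝ, ∃ N : ℕ, 0 ≤ θ ∧ θ < 1 ∧ 0 < N ∧ mass Λ < a ∧
  Le f (Real.exp (-a) • (1 + (θ / N) • Λ) ^ N)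

/-- the normalised one-step law -/
def Tn (n z : ℝ) (Λ : A) : A := 1 + (1 / (n - z)) • (Λ - mass Λ • (1 : A))

/-- the law after the slabs `(time units, threshold, jump measure)` -/
def law (D q : ℕ) (l : List (ℕ × ℝ × A)) : A :=
  (l.map fun p => Tn ((D * q : ℕ) : ℝ) p.2.1 p.2.2 ^ (p.1 * q)).prod

def tot (D : ℕ) (l : List (ℕ × ℝ × A)) : A := (l.map fun p => ((p.1 : ℝ) / D) • p.2.2).sum

/-- no positive jumps -/
def NP (Λ : A) : Prop := ∀ h : ℤ → ℝ, (∀ j, j ≤ 0 → h j = 0) → ev Λ h = 0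
/-- no negative jumps -/
def NN (Λ : A) : Prop := ∀ h : ℤ → ℝ, (∀ j, 0 ≤ j → h j = 0) → ev Λ h = 0

/-- test functions -/
def TF (h : ℝ → ℝ) : Prop := ConvexOn ℝ univ h ∧ Monotone h ∧ ∀ y, 0 ≤ h y

structure Par where
  n : ℝ
  X : ℝ
  r0 : ℕ

def Par.s (p : Par) (j : ℕ) : ℝ := ((p.r0 + j : ℕ) : ℝ) / p.n

structure Par.OK (p : Par) : Prop where
  X0 : 0 < p.X
  Xn : p.X < p.n
  r : 1 ≤ p.r0
  e : p.s 0 * p.X = 1

def Good (p : Par) (ξ : List ℝ) : Prop := ∀ x ∈ ξ, 0 ≤ x ∧ x ≤ p.X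

/-- the truncated value function with running reward `S` -/
def Par.U (p : Par) (S : ℝ) : ℕ → List ℝ → ℝ
  | 0, ξ => 1 + (ξ.map fun x => p.s 0 * max (p.X - x) 0).sum - S * p.s 0
  | j + 1, ξ => (-S + (∫ x in (0 : ℝ)..p.X, min (acc (p.s j) ξ x) (p.U S j (x :: ξ))) +
      ∫ x in p.X..p.n, min (acc (p.s j) ξ x) (p.U S j ξ)) / p.n

def ell (c T : ℝ) (φ : ℝ → ℝ) (S : ℝ) (ξ : List ℝ) : ℝ := c + (ξ.map φ).sum - S * T

def src (p : Par) (z : ℝ) (φ : ℝ → ℝ) (j : ℕ) : ℝ := z + p.s j * z ^ 2 / 2 + ∫ x in z..p.X, φ x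

def gam (p : Par) (z c T : ℝ) (φ : ℝ → ℝ) (S : ℝ) (j : ℕ) (ξ : List ℝ) : ℝ :=
  (∫ x in (0 : ℝ)..z, max (acc (p.s j) ξ x - p.U S j (x :: ξ)) 0) +
  (∫ x in z..p.X, max (ell c T φ S ξ + φ x - acc (p.s j) ξ x) 0) +
  ∫ x in p.X..p.n, max (ell c T φ S ξ - acc (p.s j) ξ x) 0

def Meas (h : List ℝ → ℝ) : Prop := ∀ (α : Type) [MeasurableSpace α] (f : List (α → ℝ)),
  (∀ g ∈ f, Measurable g) → Measurable fun a => h (f.map fun g => g a)

def MeasE (h : List ℝ → ℝ≥0∞) : Prop := ∀ (α : Type) [MeasurableSpace α] (f : List (α → ℝ)),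
  (∀ g ∈ f, Measurable g) → Measurable fun a => h (f.map fun g => g a)

/-- one step of the reference rule with threshold `z` (sub-Markov) -/
def Pz (p : Par) (z : ℝ) (h : List ℝ → ℝ≥0∞) (ξ : List ℝ) : ℝ≥0∞ :=
  ENNReal.ofReal (1 / p.n) * (∫⁻ x in Ioc z p.X, h (x :: ξ)) + ENNReal.ofReal (1 - p.X / p.n) * h ξ

/-- the law of the past under the reference rule; thresholds listed most recent first -/
def Mz (p : Par) : List ℝ → (List ℝ → ℝ≥0∞) → ℝ≥0∞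
  | [], h => h []
  | z :: zs, h => Mz p zs (Pz p z h)

def Surv (p : Par) (zs : List ℝ) : ℝ := (zs.map fun z => 1 - z / p.n).prod

def ZOK (p : Par) (zs : List ℝ) : Prop := ∀ z ∈ zs, 0 ≤ z ∧ z ≤ p.X

/-- the lattice measure `Λ` dominates the jumps `β x`, `a ≤ x ≤ b` -/
def DomI (β : ℝ → ℝ) (a b η : ℝ) (Λ : A) : Prop := Pos Λ ∧ ∀ h, TF h → ∀ y,
  IntervalIntegrable (fun x => h (y + β x)) volume a b ∧
  ∫ x in a..b, h (y + β x) ≤ (b - a - mass Λ) * h y + ev Λ fun j => h (y + j * η)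

/-- a point mass, dropped at the origin -/
def pt (k : ℤ) (c : ℝ) : A := if k = 0 then 0 else sg k c

end
end Pool.Agent.MP_3bf126_pr.H21
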