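import Pool.Agent.MP_3bf126_pr.H21.Rep

/-! Packed vectors. -/

namespace Pool.Agent.MP_3bf126_pr.H21
open Filter Finset K
noncomputable section

variable {v : ℕ} {t t' : ℕ → ℕ} {n J : ℕ}

lemma Pk.B1_eq : (nat_lit 6277101735386680763835789423207666416102355444464034512895) = 2 ^ 192 - 1 := by
  norm_num

open Pk

lemma Pk.dig_eq (v u : ℕ) : dig v u = v / 2 ^ (192 * u) % 2 ^ 192 := by
  unfold dig
  rw [n_and, n_shr, B1_eq, Nat.and_two_pow_sub_one_eq_mod]; rfl

lemma Pk.ns_succ (t : ℕ → ℕ) (n : ℕ) : ns t (n + 1) = ns t n + t n * 2 ^ (192 * n) := sum_range_succ _ _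

lemma Pk.ns_nil (t : ℕ → ℕ) : ns t 0 = 0 := rfl

lemma Pk.ns_succ' (t : ℕ → ℕ) (n : ℕ) : ns t (n + 1) = 2 ^ 192 * ns (fun k => t (k + 1)) n + t 0 := by
  unfold ns
  rw [sum_range_succ', mul_sum, Nat.mul_zero, pow_zero, mul_one]
  refine congrArg (· + t 0) (sum_congr rfl fun k _ => ?_)
  rw [mul_add, pow_add, mul_one]
  generalize (2 : ℕ) ^ 192 = B
  ring

lemma ns_congr (h : ∀ k < n, t k = t' k) : ns t n = ns t' n :=
  sum_congr rfl fun k hk => by rw [h k (mem_range.1 hk)]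
lemma ns_add : ns t n + ns t' n = ns (fun k => t k + t' k) n := by
  unfold ns
  rw [← sum_add_distrib]
  exact sum_congr rfl fun k _ => (add_mul _ _ _).symm
lemma ns_mul (c : ℕ) : c * ns t n = ns (fun k => c * t k) n := by
  unfold ns
  rw [mul_sum]
  exact sum_congr rfl fun k _ => (mul_assoc _ _ _).symm
lemma ns_sub (h : ∀ k < n, t' k ≤ t k) : ns t n - ns t' n = ns (fun k => t k - t' k) n := by
  have : ns t' n + ns (fun k => t k - t' k) n = ns t n := by
    rw [ns_add]; exact ns_congr fun k hk => Nat.add_sub_cancel' (h k hk)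
  omega
lemma ns_zero : ns (fun _ => 0) n = 0 := sum_eq_zero fun _ _ => zero_mul _
lemma ns_cons (u : ℕ) : ns t n * 2 ^ 192 + u = ns (fun k => if k = 0 then u else t (k - 1)) (n + 1) := by
  rw [ns_succ', mul_comm]; rfl
lemma dig_lt (v u : ℕ) : dig v u < 2 ^ 192 := by
  rw [dig_eq]; exact Nat.mod_lt _ (Nat.two_pow_pos _)

lemma Pk.ns_sum {ι : Type} (s : Finset ι) (f : ι → ℕ → ℕ) (n : ℕ) :
    ∑ i ∈ s, ns (f i) n = ns (fun k => ∑ i ∈ s, f i k) n := by
  unfold ns
  rw [sum_comm]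
  exact sum_congr rfl fun k _ => (sum_mul _ _ _).symm

lemma Pk.ns_lt (h : ∀ k < n, t k < 2 ^ 192) : ns t n < 2 ^ (192 * n) := by
  induction n with
  | zero => exact Nat.two_pow_pos _
  | succ n ih =>
    have h1 := ih fun k hk => h k (by omega)
    have h2 : (t n + 1) * 2 ^ (192 * n) ≤ 2 ^ 192 * 2 ^ (192 * n) :=
      Nat.mul_le_mul_right _ (h n (by omega))
    rw [ns_succ, mul_add, pow_add, mul_one, mul_comm (2 ^ (192 * n))]
    rw [add_mul, one_mul] at h2
    omega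

lemma Pk.ns_div (h : ∀ k < n, t k < 2 ^ 192) (s : ℕ) :
    ns t n / 2 ^ (192 * s) = ns (fun k => t (k + s)) (n - s) := by
  induction s generalizing t n with
  | zero => rw [Nat.mul_zero, pow_zero, Nat.div_one]; rfl
  | succ s ih =>
    cases n with
    | zero => rw [ns_nil, Nat.zero_div, Nat.zero_sub, ns_nil]
    | succ n =>
      rw [ns_succ', mul_add, pow_add, mul_one, mul_comm (2 ^ (192 * s)), ← Nat.div_div_eq_div_mul,
        Nat.mul_add_div (Nat.two_pow_pos _), Nat.div_eq_of_lt (h 0 (by omega)), add_zero,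
        ih fun k hk => h (k + 1) (by omega), Nat.add_sub_add_right]
      rfl

lemma dig_ns (h : ∀ k < n, t k < 2 ^ 192) (u : ℕ) : dig (ns t n) u = if u < n then t u else 0 := by
  rw [dig_eq, ns_div h]
  split_ifs with hu
  · obtain ⟨m, hm⟩ : ∃ m, n - u = m + 1 := ⟨n - u - 1, by omega⟩
    rw [hm, ns_succ', Nat.mul_add_mod, zero_add, Nat.mod_eq_of_lt (h u hu)]
  · rw [Nat.sub_eq_zero_of_le (not_lt.1 hu), ns_nil, Nat.zero_mod]

lemma Pk.ns_dig_add (v n : ℕ) : ns (dig v) n + 2 ^ (192 * n) * (v / 2 ^ (192 * n)) = v := by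
  induction n with
  | zero => rw [ns_nil, Nat.mul_zero, pow_zero, Nat.div_one, one_mul, zero_add]
  | succ n ih =>
    have h1 := Nat.mod_add_div (v / 2 ^ (192 * n)) (2 ^ 192)
    rw [ns_succ, dig_eq, mul_add, pow_add, mul_one, ← Nat.div_div_eq_div_mul, add_assoc,
      mul_comm _ (2 ^ (192 * n)), mul_assoc, ← mul_add, h1, ih]

lemma ns_dig (h : v / 2 ^ (192 * n) = 0) : v = ns (dig v) n := by
  have := ns_dig_add v n
  rw [h, Nat.mul_zero, add_zero] at this
  exact this.symm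

lemma Pk.ns_one (n : ℕ) : (2 ^ 192 - 1) * ns (fun _ => 1) n + 1 = 2 ^ (192 * n) := by
  induction n with
  | zero => rw [ns_nil, Nat.mul_zero, Nat.mul_zero, pow_zero, zero_add]
  | succ n ih =>
    obtain ⟨C, hC⟩ : ∃ C, 2 ^ 192 = C + 1 := ⟨2 ^ 192 - 1, (Nat.sub_add_cancel Nat.one_le_two_pow).symm⟩
    rw [ns_succ, mul_add 192, pow_add, mul_one]
    rw [hC, Nat.add_sub_cancel] at ih ⊢
    rw [← ih]; ring

lemma mod_ns (h : ∑ k ∈ range n, t k < 2 ^ 192 - 1) : ns t n % (2 ^ 192 - 1) = ∑ k ∈ range n, t k := by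
  have : ns t n = (2 ^ 192 - 1) * (∑ k ∈ range n, t k * ns (fun _ => 1) k) + ∑ k ∈ range n, t k := by
    rw [mul_sum, ← sum_add_distrib]
    refine sum_congr rfl fun k _ => ?_
    rw [← ns_one k]
    generalize (2 : ℕ) ^ 192 - 1 = C
    ring
  rw [this, Nat.mul_add_mod, Nat.mod_eq_of_lt h]

lemma Pk.one_add (a b : ℕ) :
    ns (fun _ => 1) (a + b) = ns (fun _ => 1) a + 2 ^ (192 * a) * ns (fun _ => 1) b := by
  induction b with
  | zero => rw [ns_nil, Nat.mul_zero, add_zero, add_zero]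
  | succ b ih => rw [← add_assoc, ns_succ, ns_succ, ih, mul_add 192, pow_add]; ring

lemma Pk.ns_trunc {M N : ℕ} (h : M ≤ N) :
    ns (fun u => if u < M then 1 else 0) N = ns (fun _ => 1) M := by
  induction N, h using Nat.le_induction with
  | base => exact ns_congr fun k hk => if_pos hk
  | succ N hN ih => rw [ns_succ, ih, if_neg (by omega), zero_mul, add_zero]

lemma Pk.one_split {M N : ℕ} (h : M ≤ N) : 2 ^ (192 * M) * ns (fun _ => 1) (N + 1) =
    ns (fun m => if M ≤ m then 1 else 0) N +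
      2 ^ (192 * N) * ns (fun u => if u ≤ M then 1 else 0) (N + 1) := by
  have h1 : ns (fun u => if u ≤ M then 1 else 0) (N + 1) = ns (fun _ => 1) (M + 1) := by
    rw [← ns_trunc (Nat.succ_le_succ h)]
    exact ns_congr fun k _ => if_congr Nat.lt_succ_iff.symm rfl rfl
  have h2 : ns (fun m => if M ≤ m then 1 else 0) N + ns (fun _ => 1) M = ns (fun _ => 1) N := by
    rw [← ns_trunc h, ns_add]
    exact ns_congr fun k _ => by split_ifs <;> omega
  have h3 := one_add M (N + 1)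
  have h4 := one_add N (M + 1)
  rw [show N + (M + 1) = M + (N + 1) by omega] at h4
  rw [h1]
  omega

lemma sfx_ns (hn : 0 < n) (h : ∑ k ∈ range n, t k < 2 ^ 192) :
    sfx (ns t n) n = ns (fun u => ∑ k ∈ Ico u n, t k) n := by
  obtain ⟨N, rfl⟩ : ∃ N, n = N + 1 := ⟨n - 1, by omega⟩
  have e1 : sfx (ns t (N + 1)) (N + 1) = ns t (N + 1) * ns (fun _ => 1) (N + 1) / 2 ^ (192 * N) := by
    have : sfx (ns t (N + 1)) (N + 1) = (ns t (N + 1) * 2 ^ (192 * (N + 1)) - ns t (N + 1)) /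
        (2 ^ 192 - 1) / 2 ^ (192 * N) := by
      unfold sfx
      rw [n_shr, n_div, n_sub, n_shl, B1_eq]; rfl
    rw [this, ← ns_one (N + 1), mul_add, mul_one, Nat.add_sub_cancel, mul_left_comm,
      Nat.mul_div_cancel_left _ (by norm_num)]
  have e2 : ns t (N + 1) * ns (fun _ => 1) (N + 1) =
      2 ^ (192 * N) * ns (fun u => ∑ k ∈ range (N + 1), t k * if u ≤ k then 1 else 0) (N + 1) +
        ns (fun m => ∑ k ∈ range (N + 1), t k * if k ≤ m then 1 else 0) N := by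
    rw [← ns_sum, ← ns_sum, mul_sum, ← sum_add_distrib]
    conv_lhs => rw [ns, sum_mul]
    refine sum_congr rfl fun k hk => ?_
    rw [mul_assoc, one_split (Nat.lt_succ_iff.1 (mem_range.1 hk)), ← ns_mul, ← ns_mul]
    ring
  have e3 : ns (fun m => ∑ k ∈ range (N + 1), t k * if k ≤ m then 1 else 0) N < 2 ^ (192 * N) :=
    ns_lt fun m _ => lt_of_le_of_lt (sum_le_sum fun k _ => by split_ifs <;> omega) h
  rw [e1, e2, Nat.mul_add_div (Nat.two_pow_pos _), Nat.div_eq_of_lt e3, add_zero]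
  refine ns_congr fun u _ => ?_
  have : Ico u (N + 1) = (range (N + 1)).filter fun k => u ≤ k := by
    ext k; simp only [mem_Ico, mem_filter, mem_range]; omega
  rw [this, sum_filter]
  exact sum_congr rfl fun k _ => by split_ifs <;> omega

lemma ones_eq (n : ℕ) : ones n = ns (fun _ => 1) n := by
  have : ones n = (2 ^ (192 * n) - 1) / (2 ^ 192 - 1) := by
    unfold ones
    rw [n_div, n_sub, n_shl, B1_eq]
    exact congrArg (fun x => (x - 1) / (2 ^ 192 - 1)) (one_mul _)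
  rw [this, ← ns_one n, Nat.add_sub_cancel, Nat.mul_div_cancel_left _ (by norm_num)]

lemma Pk.ns_const (c J : ℕ) : ns (fun _ => 1) J * c = ns (fun _ => c) J := by
  rw [mul_comm, ns_mul]; exact ns_congr fun _ _ => mul_one _

lemma isMask_mk (n : ℕ) : IsMask (mkMask n) := by
  have e : (nat_lit 158456325028528675187087900671) = 2 ^ 97 - 1 := by norm_num
  have : mkMask n = ones n * (nat_lit 158456325028528675187087900671) := rfl
  exact ⟨n, by rw [this, e, ones_eq, ns_const]⟩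

lemma IsMask.msk {m : ℕ} (h : IsMask m) (n : ℕ) : IsMask (msk m n) := by
  obtain ⟨N, rfl⟩ := h
  refine ⟨N - (4096 - n), ?_⟩
  have : K.msk (ns (fun _ => 2 ^ 97 - 1) N) n = ns (fun _ => 2 ^ 97 - 1) N / 2 ^ (192 * (4096 - n)) := by
    unfold K.msk
    rw [n_shr]; rfl
  rw [this, ns_div fun _ _ => by norm_num]

lemma Pk.land_split {i a c : ℕ} (b d : ℕ) (ha : a < 2 ^ i) (hc : c < 2 ^ i) :
    (2 ^ i * b + a) &&& (2 ^ i * d + c) = 2 ^ i * (b &&& d) + (a &&& c) := by
  refine Nat.eq_of_testBit_eq fun j => ?_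
  rw [Nat.testBit_and, Nat.testBit_two_pow_mul_add _ ha, Nat.testBit_two_pow_mul_add _ hc,
    Nat.testBit_two_pow_mul_add _ (lt_of_le_of_lt Nat.and_le_left ha)]
  split_ifs <;> rw [Nat.testBit_and]

lemma Pk.dig_succ (x k : ℕ) : dig x (k + 1) = dig (x / 2 ^ 192) k := by
  rw [dig_eq, dig_eq, Nat.div_div_eq_div_mul, ← pow_add, mul_add, mul_one, add_comm]

lemma Pk.land_ns (h : ∀ k < n, t k < 2 ^ 192) (x : ℕ) :
    x &&& ns t n = ns (fun k => dig x k &&& t k) n := by
  induction n generalizing t x with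
  | zero => rw [ns_nil, ns_nil, Nat.and_zero]
  | succ n ih =>
    have e : dig x 0 = x % 2 ^ 192 := by rw [dig_eq, Nat.mul_zero, pow_zero, Nat.div_one]
    rw [ns_succ', ns_succ', e]
    conv_lhs => rw [← Nat.div_add_mod x (2 ^ 192)]
    rw [land_split _ _ (Nat.mod_lt _ (Nat.two_pow_pos _)) (h 0 (by omega)),
      ih (fun k hk => h (k + 1) (by omega))]
    congr 2
    exact ns_congr fun k _ => by rw [dig_succ]

lemma Pk.dig_shift (x k : ℕ) {s w : ℕ} (h : s + w ≤ 192) :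
    dig (x / 2 ^ s) k % 2 ^ w = dig x k / 2 ^ s % 2 ^ w := by
  refine Nat.eq_of_testBit_eq fun j => ?_
  rw [dig_eq, dig_eq]
  simp only [Nat.testBit_mod_two_pow, Nat.testBit_div_two_pow]
  by_cases hj : j < w
  · rw [decide_eq_true (show j < 192 by omega), decide_eq_true (show j + s < 192 by omega),
      show j + 192 * k + s = j + s + 192 * k by omega]
  · rw [decide_eq_false hj, Bool.false_and, Bool.false_and]

lemma Pk.bit_ns (h : ∀ k < J, t k < 2 ^ 192) :
    ns t J / 2 ^ 128 &&& ns (fun _ => 1) J = ns (fun k => t k / 2 ^ 128 % 2) J := by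
  rw [land_ns fun _ _ => by norm_num]
  refine ns_congr fun k hk => ?_
  have := dig_shift (ns t J) k (s := 128) (w := 1) (by norm_num)
  rw [pow_one, dig_ns h, if_pos hk] at this
  rw [Nat.and_one_is_mod, this]

lemma pos_ns (h : ∀ k < J, t k < 2 ^ 129) :
    pos (ns (fun _ => 1) J) (ns t J) = ns (fun k => t k - 2 ^ 128) J := by
  have h' : ∀ k < J, t k < 2 ^ 192 := fun k hk => (h k hk).trans (by norm_num)
  have e : (nat_lit 340282366920938463463374607431768211455) = 2 ^ 128 - 1 := by norm_num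
  have : pos (ns (fun _ => 1) J) (ns t J) =
      ns t J &&& ((ns t J / 2 ^ 128 &&& ns (fun _ => 1) J) * (2 ^ 128 - 1)) := by
    unfold pos
    rw [fN_eq, n_and, n_mul, n_and, n_shr, e]
  rw [this, bit_ns h', mul_comm, ns_mul, land_ns fun k _ => by omega]
  refine ns_congr fun k hk => ?_
  have h1 := h k hk
  rw [dig_ns h', if_pos hk]
  rcases lt_or_ge (t k) (2 ^ 128) with h2 | h2
  · rw [Nat.div_eq_of_lt h2, Nat.zero_mod, Nat.mul_zero, Nat.and_zero]; omega
  · rw [show t k / 2 ^ 128 % 2 = 1 by omega, mul_one, Nat.and_two_pow_sub_one_eq_mod]; omega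

lemma ind_ns (h : ∀ k < J, t k < 2 ^ 128) :
    (ns t J + (2 ^ 128 - 1) * ns (fun _ => 1) J) / 2 ^ 128 &&& ns (fun _ => 1) J =
      ns (fun k => if t k = 0 then 0 else 1) J := by
  rw [ns_mul, ns_add, bit_ns fun k hk => by have := h k hk; omega]
  refine ns_congr fun k hk => ?_
  have := h k hk
  split_ifs <;> omega

lemma sel_ns (h : ∀ k < J, t k < 2 ^ 192) (h' : ∀ k < J, t' k ≤ 1) :
    ns t J &&& (ns t' J * (2 ^ 192 - 1)) = ns (fun k => t k * t' k) J := by
  rw [mul_comm, ns_mul, land_ns fun k hk => by have := h' k hk; omega]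
  refine ns_congr fun k hk => ?_
  rw [dig_ns h, if_pos hk]
  rcases Nat.le_one_iff_eq_zero_or_eq_one.1 (h' k hk) with e | e
  · rw [e, Nat.mul_zero, Nat.mul_zero, Nat.and_zero]
  · rw [e, mul_one, mul_one, Nat.and_two_pow_sub_one_eq_mod, Nat.mod_eq_of_lt (h k hk)]

lemma low_ns (x : ℕ) : x &&& (ns (fun _ => 1) J * (2 ^ 72 - 1)) = ns (rho x) J := by
  rw [ns_const, land_ns fun _ _ => by norm_num]; rfl

lemma rho_lt (x j : ℕ) : rho x j < 2 ^ 72 := by
  unfold rho
  rw [Nat.and_two_pow_sub_one_eq_mod]; exact Nat.mod_lt _ (Nat.two_pow_pos _)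
lemma tau_lt (x j : ℕ) : tau x j < 2 ^ 120 := by
  unfold tau
  have := dig_lt x j
  omega

lemma high_ns (x : ℕ) : x / 2 ^ 72 &&& (ns (fun _ => 1) J * (2 ^ 120 - 1)) = ns (tau x) J := by
  rw [ns_const, land_ns fun _ _ => by norm_num]
  refine ns_congr fun k _ => ?_
  rw [Nat.and_two_pow_sub_one_eq_mod, dig_shift x k (by norm_num)]
  exact Nat.mod_eq_of_lt (tau_lt x k)

/-- two adjacent digits -/
lemma dig_two (v u : ℕ) : (v / 2 ^ (192 * u) &&& (2 ^ 384 - 1)) &&& (2 ^ 192 - 1) = dig v u ∧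
    (v / 2 ^ (192 * u) &&& (2 ^ 384 - 1)) / 2 ^ 192 = dig v (u + 1) := by
  have e : (2 : ℕ) ^ 384 = 2 ^ 192 * 2 ^ 192 := pow_add 2 192 192
  rw [Nat.and_two_pow_sub_one_eq_mod, Nat.and_two_pow_sub_one_eq_mod, dig_eq, dig_eq, e,
    Nat.mod_mul_right_mod, Nat.mod_mul_right_div_self, Nat.div_div_eq_div_mul, ← pow_add, mul_add,
    mul_one]
  exact ⟨rfl, rfl⟩

end
end Pool.Agent.MP_3bf126_pr.H21
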