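import Pool.Agent.MP_3bf126_pr.H21.Walk
import Pool.Agent.MP_3bf126_pr.H21.Pack

/-! Soundness of the scalar checks of a slab. -/

namespace Pool.Agent.MP_3bf126_pr.H21
open Filter Finset K
noncomputable section

variable {past : List (ℕ × ℕ)} {d z : ℕ} {sB sA : St} {h : Hn}

lemma expc_spec {a wl wu : ℕ} (h : expc a wl wu = true) :
    (wl : ℝ) / 2 ^ 64 < Real.exp (-((a : ℝ) / 2 ^ 36)) ∧ Real.exp (-((a : ℝ) / 2 ^ 36)) < (wu : ℝ) / 2 ^ 64 := by
  simp -implicitDefEqProofs only [expc, fN_eq, Bool.and_eq_true, Nat.ble_eq, Nat.blt_eq, n_add, n_mul, n_shl] at h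
  obtain ⟨h0, h1, h2⟩ := h
  have a0 := (Nat.cast_le (α := ℝ)).2 h0
  have a1 := (Nat.cast_lt (α := ℝ)).2 h1
  have a2 := (Nat.cast_lt (α := ℝ)).2 h2
  simp only [Nat.cast_add, Nat.cast_mul, Nat.cast_pow, Nat.cast_ofNat] at a0 a1 a2
  obtain ⟨x, hx⟩ : ∃ x : ℝ, (a : ℝ) = x * 2 ^ 36 := ⟨a / 2 ^ 36, by field_simp⟩
  have x0 : 0 ≤ x := by
    have : (0 : ℝ) ≤ a := Nat.cast_nonneg a
    linarith
  rw [hx] at a0 a1 a2 ⊢
  rw [mul_div_cancel_right₀ _ (by positivity)]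
  have hb := Real.exp_bound (x := -x) (by rw [abs_neg, abs_of_nonneg x0]; linarith) (n := 10) (by norm_num)
  rw [abs_neg, abs_of_nonneg x0, abs_le] at hb
  simp only [sum_range_succ, sum_range_zero, Nat.factorial, Nat.succ_eq_add_one] at hb
  obtain ⟨b1, b2⟩ := hb
  push_cast at b1 b2
  have x10 : 0 ≤ x ^ 10 := by positivity
  constructor <;> linarith

lemma envc_nil {wl wu : ℕ} {n : List (ℕ × ℕ)} {x : ℕ} (h : hchk wl wu z [] n x = true) :
    ∃ r, n = [r] ∧ r.1 = z ∧ z ≤ x ∧ (2 ^ 64 - wl) * 2 ^ 92 ≤ r.2 * z * 2 ^ 64 := by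
  rcases n with _ | ⟨r, _ | ⟨r', n⟩⟩
  · exact absurd h Bool.false_ne_true
  · simp only [hchk, Bool.and_eq_true, Nat.ble_eq, Nat.beq_eq, n_sub, n_mul, n_shl] at h
    exact ⟨r, rfl, h⟩
  · exact absurd h Bool.false_ne_true

lemma envc_cons {wl wu : ℕ} {p : ℕ × ℕ} {o n : List (ℕ × ℕ)} {x : ℕ}
    (h : hchk wl wu z (p :: o) n x = true) : ∃ r n', n = r :: n' ∧ p.1 = r.1 ∧ p.1 ≤ x ∧
      wu * p.2 ≤ r.2 * 2 ^ 64 ∧ hchk wl wu z o n' p.1 = true := by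
  rcases n with _ | ⟨r, n⟩
  · exact absurd h Bool.false_ne_true
  · have h' : (Nat.beq p.1 r.1 && (Nat.ble p.1 x && (Nat.ble (wu * p.2) (Nat.shiftLeft r.2 64) &&
        hchk wl wu z o n p.1))) = true := h
    simp only [Bool.and_eq_true, Nat.ble_eq, Nat.beq_eq, n_shl] at h'
    exact ⟨r, n, rfl, h'⟩

lemma envc_srt {wl wu : ℕ} {o n : List (ℕ × ℕ)} {x : ℕ} (h : hchk wl wu z o n x = true) : z ≤ x ∧
    (o.Pairwise fun p r => r.1 ≤ p.1) ∧ (∀ p ∈ o, z ≤ p.1 ∧ p.1 ≤ x) ∧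
    (n.Pairwise fun p r => r.1 ≤ p.1) ∧ (∀ p ∈ n, z ≤ p.1 ∧ p.1 ≤ x) := by
  induction o generalizing n x with
  | nil =>
    obtain ⟨r, rfl, h1, h2, -⟩ := envc_nil h
    simp [h1, h2]
  | cons p o ih =>
    obtain ⟨r, n, rfl, h1, h2, -, h4⟩ := envc_cons h
    obtain ⟨i0, i1, i2, i3, i4⟩ := ih h4
    refine ⟨i0.trans h2, List.pairwise_cons.2 ⟨fun q hq => (i2 q hq).2, i1⟩,
      List.forall_mem_cons.2 ⟨⟨i0, h2⟩, fun q hq => ⟨(i2 q hq).1, (i2 q hq).2.trans h2⟩⟩,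
      List.pairwise_cons.2 ⟨fun q hq => h1 ▸ (i4 q hq).2, i3⟩,
      List.forall_mem_cons.2 ⟨h1 ▸ ⟨i0, h2⟩, fun q hq => ⟨(i4 q hq).1, (i4 q hq).2.trans h2⟩⟩⟩

lemma hchk_srt {wl wu : ℕ} {o n : List (ℕ × ℕ)} {x : ℕ} (h : hchk wl wu z o n x = true) :
    (o.Pairwise fun p r => r.1 ≤ p.1) ∧ (∀ p ∈ o, z ≤ p.1 ∧ p.1 ≤ x) ∧
    (n.Pairwise fun p r => r.1 ≤ p.1) ∧ (∀ p ∈ n, z ≤ p.1 ∧ p.1 ≤ x) := (envc_srt h).2

lemma envc_hg (p : ℕ × ℕ) (l : List (ℕ × ℕ)) (x : ℝ) :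
    hg (p :: l) x = (p.2 : ℝ) / 2 ^ 80 * max ((p.1 : ℝ) / 2 ^ 12 - x) 0 + hg l x := by
  simp only [hg, List.map_cons, List.sum_cons]

lemma envc_hg0 (x : ℝ) : hg [] x = 0 := rfl

/-- comparison of the increments of the hinge sums; `u' = none` stands for infinity -/
lemma envc_cmp {wl wu : ℕ} {o n : List (ℕ × ℕ)} {x : ℕ} (h : hchk wl wu z o n x = true) (hz : 0 < z)
    (hw : wl ≤ 2 ^ 64) (F : List (ℕ × ℕ) → ℝ) (g : ℕ → ℝ) (g0 : ∀ y, 0 ≤ g y) (F0 : F [] = 0)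
    (F1 : ∀ p l, F (p :: l) = (p.2 : ℝ) / 2 ^ 80 * g p.1 + F l) {α β : ℝ} (hα : α ≤ (wu : ℝ) / 2 ^ 64)
    (hβ : β ≤ 1 - (wl : ℝ) / 2 ^ 64) : α * F o + β * (g z / ((z : ℝ) / 2 ^ 12)) ≤ F n := by
  induction o generalizing n x with
  | nil =>
    obtain ⟨r, rfl, h1, -, h3⟩ := envc_nil h
    have a := (Nat.cast_le (α := ℝ)).2 h3
    rw [Nat.cast_mul, Nat.cast_sub hw] at a
    simp only [Nat.cast_mul, Nat.cast_pow, Nat.cast_ofNat] at a
    have z0 : (0 : ℝ) < (z : ℝ) / 2 ^ 12 := by positivity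
    have b : β / ((z : ℝ) / 2 ^ 12) ≤ (r.2 : ℝ) / 2 ^ 80 := by
      rw [div_le_iff₀ z0]
      linarith
    rw [F1, F0, h1, mul_zero, zero_add, add_zero, mul_div_assoc', mul_div_right_comm]
    exact mul_le_mul_of_nonneg_right b (g0 z)
  | cons p o ih =>
    obtain ⟨r, n, rfl, h1, -, h3, h4⟩ := envc_cons h
    have a := (Nat.cast_le (α := ℝ)).2 h3
    simp only [Nat.cast_mul, Nat.cast_pow, Nat.cast_ofNat] at a
    have b : α * ((p.2 : ℝ) / 2 ^ 80) ≤ (r.2 : ℝ) / 2 ^ 80 :=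
      (mul_le_mul_of_nonneg_right hα (by positivity)).trans (by linarith)
    have c := mul_le_mul_of_nonneg_right b (g0 p.1)
    have e := ih h4
    rw [F1, F1, ← h1]
    linarith

lemma envc_sq1 (l : List (ℕ × ℕ)) (s : ℕ) : (sq1 l s : ℝ) / 2 ^ 92 = (s : ℝ) / 2 ^ 92 + hg l 0 := by
  induction l generalizing s with
  | nil => rw [envc_hg0, add_zero]; rfl
  | cons p l ih =>
    have e : sq1 (p :: l) s = sq1 l (s + p.1 * p.2) := rfl
    rw [e, ih, envc_hg, sub_zero, max_eq_left (by positivity)]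
    push_cast
    ring

lemma envc_int {Z P X : ℝ} (h1 : Z ≤ P) (h2 : P ≤ X) : ∫ x in Z..X, max (P - x) 0 = (P - Z) ^ 2 / 2 := by
  have hc : Continuous fun x : ℝ => max (P - x) 0 := by fun_prop
  rw [← intervalIntegral.integral_add_adjacent_intervals (hc.intervalIntegrable Z P)
    (hc.intervalIntegrable P X),
    intervalIntegral.integral_congr (g := fun x => P - x) fun x hx =>
      max_eq_left (by rw [Set.uIcc_of_le h1] at hx; linarith [hx.2]),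
    intervalIntegral.integral_congr (a := P) (g := fun _ => (0 : ℝ)) fun x hx =>
      max_eq_right (by rw [Set.uIcc_of_le h2] at hx; linarith [hx.1]),
    intervalIntegral.integral_sub (by simp) (by simp), integral_id]
  simp only [intervalIntegral.integral_const, smul_eq_mul]
  ring

lemma envc_sq2 {l : List (ℕ × ℕ)} (hl : ∀ p ∈ l, z ≤ p.1 ∧ p.1 ≤ 2 ^ 25) (s : ℕ) :
    (sq2 z l s : ℝ) / 2 ^ 105 = (s : ℝ) / 2 ^ 105 + ∫ x in ((z : ℝ) / 2 ^ 12)..2 ^ 13, hg l x := by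
  induction l generalizing s with
  | nil =>
    simp only [envc_hg0, intervalIntegral.integral_zero, add_zero]
    rfl
  | cons p l ih =>
    have e : sq2 z (p :: l) s = sq2 z l (s + p.2 * ((p.1 - z) * (p.1 - z))) := rfl
    obtain ⟨⟨a1, a2⟩, a3⟩ := List.forall_mem_cons.1 hl
    have b1 : (z : ℝ) ≤ p.1 := by exact_mod_cast a1
    have b2 : (p.1 : ℝ) ≤ 2 ^ 25 := by exact_mod_cast a2
    have hc : Continuous fun x : ℝ => (p.2 : ℝ) / 2 ^ 80 * max ((p.1 : ℝ) / 2 ^ 12 - x) 0 := by fun_prop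
    simp only [envc_hg]
    rw [e, ih a3, intervalIntegral.integral_add (hc.intervalIntegrable _ _)
      ((hg_cont l).intervalIntegrable _ _), intervalIntegral.integral_const_mul,
      envc_int (by linarith) (by linarith)]
    push_cast [Nat.cast_sub a1]
    ring

lemma envc_past {l : List (ℕ × ℕ)} {x : ℕ} (h : srt l x = true) : ∀ p ∈ l, p.2 ≤ x := by
  induction l generalizing x with
  | nil => simp
  | cons p l ih =>
    have h' : (Nat.ble p.2 x && srt l p.2) = true := h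
    rw [Bool.and_eq_true, Nat.ble_eq] at h'
    exact List.forall_mem_cons.2 ⟨h'.1, fun q hq => (ih h'.2 q hq).trans h'.1⟩

lemma envc_smu (l : List (ℕ × ℕ)) (s : ℕ) (D : ℝ) :
    (smu l s : ℝ) / D = (s : ℝ) / D + ((rP l).map fun b => (b.1 : ℝ) / D).sum := by
  induction l generalizing s with
  | nil => simp [rP, smu]
  | cons p l ih =>
    have e : smu (p :: l) s = smu l (s + p.1) := rfl
    rw [e, ih]
    simp only [rP, List.map_cons, List.sum_cons]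
    push_cast
    ring

theorem env_spec (h1 : srt past z = true) (h2 : smu past 0 + d ≤ 2 ^ 24)
    (h3 : hchk h.wl h.wu z (hiOf sB) (hiOf sA) (2 ^ 25) = true) (h4 : envc d z sB sA h (sq2 z (hiOf sB) 0) = true)
    (h5 : sq1 (hiOf sA) 0 * 2 ^ 64 ≤ h.wl * sq1 (hiOf sB) 0 + (2 ^ 64 - h.wu) * 2 ^ 92 + h.ep * 2 ^ 64) :
    (slOf past d z sB h).OK ∧ EnvOK (slOf past d z sB h) (envOf d z sB sA h) ∧
    WOK (slOf past d z sB h) (envOf d z sB sA h) ((h.Waa : ℝ) / 2 ^ 64) ((h.Wab : ℝ) / 2 ^ 64)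
      ((h.Wba : ℝ) / 2 ^ 64) ((h.Wbb : ℝ) / 2 ^ 64) ∧ 0 < h.E ∧ h.E ≤ 2 ^ 44 ∧ h.eb < 2 ^ 72 ∧ h.np ≤ 2 ^ 16 ∧
    h.nm ≤ 2 ^ 16 ∧ sA.e = sB.e + d ∧ (envOf d z sB sA h).E / (envOf d z sB sA h).wl ≤ (h.eb : ℝ) / 2 ^ 40 := by
  obtain ⟨s0, -, s2, -, -⟩ := envc_srt h3
  have hI := envc_sq2 s2 0
  generalize sq2 z (hiOf sB) 0 = i2 at h4 hI
  rw [Nat.cast_zero, zero_div, zero_add] at hI
  simp -implicitDefEqProofs only [envc, fN_eq, Bool.and_eq_true, Nat.ble_eq, Nat.blt_eq, Nat.beq_eq, n_add, n_sub, n_mul,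
    n_shl] at h4
  obtain ⟨c0, c1, c2, c3, c4, c5, c6, c7, c8, c9, c10, c11, c12, c13, c14, c15, c16, c17, c18, c19, c20,
    c21, c22, c23, c24, c25, c26⟩ := h4
  obtain ⟨e1, e2⟩ := expc_spec c0
  have ol : ((18446744073709551616 - h.wl : ℕ) : ℝ) = 2 ^ 64 - h.wl := by
    rw [Nat.cast_sub (c2.trans c3.le)]
    norm_num
  have ou : ((18446744073709551616 - h.wu : ℕ) : ℝ) = 2 ^ 64 - h.wu := by
    rw [Nat.cast_sub c3.le]
    norm_num
  have r1 : (0 : ℝ) < h.wl := Nat.cast_pos.2 c1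
  have r4 : (0 : ℝ) < d := Nat.cast_pos.2 c4
  have r5 : (0 : ℝ) < (z : ℝ) / 2 ^ 12 := by positivity
  have r0 := (Nat.cast_le (α := ℝ)).2 s0
  have r2 := (Nat.cast_le (α := ℝ)).2 c2
  have r3 := (Nat.cast_lt (α := ℝ)).2 c3
  have r6 := (Nat.cast_le (α := ℝ)).2 h2
  have r7 := (Nat.cast_le (α := ℝ)).2 c7
  have r8 := (Nat.cast_le (α := ℝ)).2 c8
  have r9 := (Nat.cast_le (α := ℝ)).2 c9
  have r10 := (Nat.cast_le (α := ℝ)).2 c10
  have r11 := (Nat.cast_le (α := ℝ)).2 c11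
  have r12 := (Nat.cast_le (α := ℝ)).2 c12
  have r13 := (Nat.cast_le (α := ℝ)).2 c13
  have r14 := (Nat.cast_lt (α := ℝ)).2 c14
  have r15 := (Nat.cast_le (α := ℝ)).2 c15
  have r16 := (Nat.cast_lt (α := ℝ)).2 c16
  have r17 := (Nat.cast_lt (α := ℝ)).2 c17
  have r18 := (Nat.cast_lt (α := ℝ)).2 c18
  have r19 := (Nat.cast_lt (α := ℝ)).2 c19
  have r20 := (Nat.cast_le (α := ℝ)).2 c20
  have r23 := (Nat.cast_le (α := ℝ)).2 c23
  have r27 := (Nat.cast_le (α := ℝ)).2 h5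
  rw [Nat.cast_add, Nat.cast_add, Nat.cast_mul (2 ^ 64 - h.wu), Nat.cast_sub (show h.wu ≤ 2 ^ 64 from c3.le)] at r27
  simp only [Nat.cast_add, Nat.cast_mul, Nat.cast_pow, Nat.cast_ofNat, ol, ou] at r0 r2 r3 r6 r7 r8 r9
  simp only [Nat.cast_add, Nat.cast_mul, Nat.cast_pow, Nat.cast_ofNat, ol, ou] at r10 r11 r12 r13 r14 r15
  simp only [Nat.cast_add, Nat.cast_mul, Nat.cast_pow, Nat.cast_ofNat, ol, ou] at r16 r17 r18 r19 r20 r23 r27
  have ex : (z : ℝ) / 2 ^ 12 * d / ((2 ^ 24 : ℕ) : ℝ) = ((z * d : ℕ) : ℝ) / 2 ^ 36 := by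
    push_cast
    ring
  have p1 : (0 : ℝ) < 1 - (h.wu : ℝ) / 2 ^ 64 := by linarith
  have p2 : (0 : ℝ) < 1 - (h.wl : ℝ) / 2 ^ 64 := by linarith
  refine ⟨⟨?_, ?_, ?_, c4, r5, ?_, ?_, ?_, hg_cont _, hg_nonneg _, hg_anti _, hg_convex _⟩,
    ⟨?_, ?_, ?_, ?_, hg_cont _, hg_convex _, ?_, ?_, ?_, ?_, ?_, ?_, ?_, ?_, ?_, ?_, ?_, ?_, ?_, ?_,
      le_max_left _ _, le_max_right _ _, ?_, ?_, ?_, ?_, hg_anti _, ?_⟩,
    ⟨?_, ?_, ?_, ?_, ?_, ?_, ?_⟩, c21, c22, c24, c25, c26, c6, ?_⟩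
  any_goals simp only [slOf, envOf, Sl.sb, Sl.sa, Sl.Δ, Sl.μ]
  · norm_num
  · norm_num
  · norm_num
  · linarith
  · intro b hb
    obtain ⟨p, hp, rfl⟩ := List.mem_map.1 hb
    have : (p.2 : ℝ) ≤ z := Nat.cast_le.2 (envc_past h1 p hp)
    exact ⟨by positivity, by simp only; linarith⟩
  · have := envc_smu past 0 ((2 ^ 24 : ℕ) : ℝ)
    rw [Nat.cast_zero, zero_div, zero_add] at this
    rw [← this]
    push_cast
    linarith
  · rwa [ex]
  · rwa [ex]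
  · positivity
  · linarith
  · exact fun u _ _ => envc_cmp h3 c5 (c2.trans c3.le) (fun l => hg l u)
      (fun y => max ((y : ℝ) / 2 ^ 12 - u) 0) (fun _ => le_max_right _ _) rfl (fun p l => envc_hg p l u)
      le_rfl le_rfl
  · intro u u0 _
    have a := envc_cmp h3 c5 (c2.trans c3.le) (fun l => hg l 0 - hg l u)
      (fun y => max ((y : ℝ) / 2 ^ 12 - 0) 0 - max ((y : ℝ) / 2 ^ 12 - u) 0)
      (fun _ => sub_nonneg.2 (max_le_max_right _ (by linarith))) (sub_self _)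
      (fun p l => by simp only [envc_hg]; ring) (α := (h.wl : ℝ) / 2 ^ 64) (β := 1 - (h.wu : ℝ) / 2 ^ 64)
      (by linarith) (by linarith)
    have b1 := envc_sq1 (hiOf sA) 0
    have b2 := envc_sq1 (hiOf sB) 0
    rw [Nat.cast_zero, zero_div, zero_add] at b1 b2
    rw [sub_zero, max_eq_left r5.le, sub_div, div_self r5.ne', ← b1, ← b2] at a
    linarith
  · positivity
  · linarith
  · linarith
  · positivity
  · rw [← sub_le_iff_le_add', le_div_iff₀ r5]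
    linarith
  · rw [← le_sub_iff_add_le', div_le_iff₀ r5]
    linarith
  · exact div_le_div_of_nonneg_right (Nat.cast_le.2 (min_le_left _ _)) (by positivity)
  · exact div_le_div_of_nonneg_right (Nat.cast_le.2 (min_le_right _ _)) (by positivity)
  · positivity
  · exact div_le_div_of_nonneg_right (Nat.cast_le.2 (le_max_left _ _)) (by positivity)
  · exact div_le_div_of_nonneg_right (Nat.cast_le.2 (le_max_right _ _)) (by positivity)
  · rw [← mul_div_assoc, div_le_iff₀ (by linarith)]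
    push_cast
    linarith
  · rw [← hI]
    push_cast
    linarith
  · rw [← hI]
    push_cast
    linarith
  · rw [← hI]
    push_cast
    linarith
  · push_cast
    linarith
  · push_cast
    linarith
  · rw [sub_lt_comm, lt_div_iff₀ (by linarith)]
    push_cast
    linarith
  · rw [sub_lt_comm, lt_div_iff₀ (by linarith)]
    push_cast
    linarith
  · rw [mul_add, ← lt_sub_iff_add_lt', ← mul_div_assoc, div_lt_iff₀ (by linarith)]
    push_cast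
    linarith
  · rw [mul_add, ← lt_sub_iff_add_lt', ← mul_div_assoc, div_lt_iff₀ (by linarith)]
    push_cast
    linarith
  · positivity
  · positivity
  · linarith
  · rw [div_le_iff₀ (by positivity)]
    linarith

theorem mkLx_spec (ha : (slOf past d z sB h).OK) (hv : EnvOK (slOf past d z sB h) (envOf d z sB sA h))
    (E0 : 0 < h.E) (E1 : h.E ≤ 2 ^ 44) {fb : ℕ} (hfb : hg (hiOf sB) ((z : ℝ) / 2 ^ 12) = (fb : ℝ) / 2 ^ 92)
    {k : Lx → Bool} (hk : mkLx d z sB sA h fb k = true) :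
    ∃ lx, (lx.e0 < 2 ^ 110 → LxOK (slOf past d z sB h) (envOf d z sB sA h) lx) ∧ lx.E = h.E ∧ lx.J = h.J ∧
      lx.z = z ∧ k lx = true := by
  simp -implicitDefEqProofs only [mkLx, fN_eq, n_add, n_sub, n_mul, n_shl, n_shr, mn_eq, mx_eq] at hk
  refine ⟨_, fun he => ?_, rfl, rfl, rfl, hk⟩
  have sub : ∀ a b : ℕ, (a : ℝ) - b ≤ ((a - b : ℕ) : ℝ) := fun a b => by
    have : ((a : ℕ) : ℝ) ≤ ((a - b + b : ℕ) : ℝ) := Nat.cast_le.2 (by omega)
    push_cast at this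
    linarith
  have hw : h.wl ≤ 18446744073709551616 := by
    have a := hv.hl.trans_le (Real.exp_le_one_iff.2 (neg_nonpos.2 (by have := ha.z0; positivity)))
    simp only [envOf] at a
    have : (h.wl : ℝ) ≤ 18446744073709551616 := by linarith
    exact_mod_cast this
  refine ⟨E0, E1, rfl, ?_, rfl, rfl, rfl, rfl, ?_, ?_, he, ?_, ?_, rfl, ?_, ?_, ?_, ?_, ?_, ?_, ?_,
    ones_eq _, rfl, rfl⟩
  all_goals simp only [slOf, envOf, Sl.sb]
  · ring
  · push_cast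
    ring
  · refine max_le ?_ (by positivity)
    have a := sub (fb + z * sB.T) 4951760157141521099596496896
    generalize fb + z * sB.T - 4951760157141521099596496896 = m at a
    have b : (m : ℝ) ≤ ((m / 2 ^ 20 + 1) * 2 ^ 20 : ℕ) := Nat.cast_le.2 (by omega)
    generalize m / 2 ^ 20 + 1 = m' at b
    rw [hfb]
    push_cast at a b
    linarith
  · push_cast
    ring
  · omega
  · push_cast
    ring
  · rw [Nat.cast_sub hw]
    push_cast
    ring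
  · have := sub sA.c h.cl
    rw [Nat.cast_add]
    linarith
  · have := sub h.Tu sA.T
    linarith
  · push_cast
    ring
  · push_cast
    ring
  · push_cast
    linarith

end
end Pool.Agent.MP_3bf126_pr.H21
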