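import Pool.Agent.MP_3bf126_pr.H21.Pak2
import Pool.Agent.MP_3bf126_pr.H21.Table

/-! Soundness of the table arithmetic. -/

namespace Pool.Agent.MP_3bf126_pr.H21
open Filter Finset K
noncomputable section

variable {cx : Cx}

lemma xp_fN {n : ℕ} {k : ℕ → Bool} (h : fN n k = true) : ∃ m, m = n ∧ k m = true := ⟨n, rfl, h⟩

lemma xp_cast {s s' : ℝ} {v v' : ℕ} {o o' : ℤ} {f f' : A} (h : Rp s v o f) (e1 : s = s') (e2 : v = v')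
    (e3 : o = o') (e4 : f = f') : Rp s' v' o' f' := by
  subst e1 e2 e3 e4
  exact h

/-- a cut from units `2^-190` to units `2^-95` -/
lemma xp_cut {v m : ℕ} {o : ℤ} {f : A} (h : Rp (1 / 2 ^ 190) v o f) (hm : mass f ≤ 1) (hk : IsMask m)
    (a : ℕ) : Rp (1 / 2 ^ 95) (cut m v a) (o + a) f :=
  xp_cast (h.cut (by positivity) (hm.trans_lt (by norm_num)) hk a) (by norm_num) rfl rfl rfl

lemma xp_mul {v w m : ℕ} {o o' : ℤ} {f g : A} (h : Rp (1 / 2 ^ 95) v o f) (h' : Rp (1 / 2 ^ 95) w o' g)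
    (hm : mass (f * g) ≤ 1) (hk : IsMask m) (a : ℕ) :
    Rp (1 / 2 ^ 95) (cut m (v * w) a) (o + o' + a) (f * g) :=
  xp_cut (xp_cast (Rp.mul (by positivity) (by positivity) h h') (by norm_num) rfl rfl rfl) hm hk a

lemma xp_one (c a : ℕ) : Rp (1 / 2 ^ 95) (c * 2 ^ 95 * 2 ^ (192 * a)) (-(a : ℤ)) ((c : ℝ) • (1 : A)) := by
  refine xp_cast ((rx_sg (1 / 2 ^ 95) (c * 2 ^ 95) 0).rp.shl a) rfl rfl (zero_sub _) ?_
  rw [show (1 : A) = sg 0 1 from rfl, smul_sg]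
  congr 1
  push_cast
  ring

lemma xp_mass {f g : A} (h1 : mass f ≤ 1) (h2 : mass g ≤ 1) (hg : Pos g) : mass (f * g) ≤ 1 := by
  rw [mass_mul]
  exact mul_le_one₀ h1 hg.mass_nonneg h2

lemma xp_mulT (hc : CxOK cx) {xl xh : ℕ} {s t : Tb} {f g : A} (hs : TR s f) (ht : TR t g)
    (hm : mass (f * g) ≤ 1) {k : Tb → Bool} (h : mulT cx xl xh s t k = true) :
    ∃ r, TR r (f * g) ∧ r.mp = s.mp + t.mp ∧ r.mn = s.mn + t.mn ∧ r.m2 = s.m2 + t.m2 ∧ k r = true := by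
  obtain ⟨so, sv, sp, sn, s2, sj, si, sl⟩ := s
  obtain ⟨tO, tv, tp, tn, t2, tj, ti, tl⟩ := t
  unfold mulT at h
  dsimp only at h
  obtain ⟨mp, e1, h⟩ := xp_fN h
  obtain ⟨mn', e2, h⟩ := xp_fN h
  obtain ⟨m2, e3, h⟩ := xp_fN h
  obtain ⟨jp, -, h⟩ := xp_fN h
  obtain ⟨jn, -, h⟩ := xp_fN h
  obtain ⟨mb, -, h⟩ := xp_fN h
  obtain ⟨hw, -, h⟩ := xp_fN h
  obtain ⟨o, e4, h⟩ := xp_fN h
  obtain ⟨a, e5, h⟩ := xp_fN h
  obtain ⟨o', e6, h⟩ := xp_fN h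
  obtain ⟨n, -, h⟩ := xp_fN h
  obtain ⟨v, e7, h⟩ := xp_fN h
  clear * - hc hs ht hm e1 e2 e3 e4 e5 e6 e7 h
  refine ⟨_, ?_, e1, e2, e3, h⟩
  refine xp_cast (xp_mul hs ht hm (hc.mk'.msk n) a) rfl e7.symm ?_ rfl
  simp only [n_add, n_sub] at e4 e5 e6
  change ((so : ℤ) - 2 ^ 30) + ((tO : ℤ) - 2 ^ 30) + a = (o' : ℤ) - 2 ^ 30
  change a = _ + 1073741824 - o at e5
  change o' = o + a - 1073741824 at e6
  omega

lemma xp_mom {s t r : Tb} {Λ Λ' : A} (hs : Mom cx s Λ) (ht : Mom cx t Λ') (e1 : r.mp = s.mp + t.mp)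
    (e2 : r.mn = s.mn + t.mn) (e3 : r.m2 = s.m2 + t.m2) : Mom cx r (Λ + Λ') := by
  refine ⟨?_, ?_⟩
  · rw [m1_add, hs.1, ht.1, e1, e2]
    push_cast
    ring
  · rw [m2_add, e3]
    push_cast
    rw [add_div]
    exact add_le_add hs.2 ht.2

lemma xp_sqs {s mk L : ℕ} (hk : IsMask mk) (q : ℕ) : ∀ {x : ℕ} {Λ f : A}, Pos Λ → SP Λ f →
    Rp (1 / 2 ^ 95) x (-(L : ℤ)) f →
    ∃ g, SP (((2 : ℝ) ^ q) • Λ) g ∧ Rp (1 / 2 ^ 95) (sqs s mk L q x) (-(L : ℤ)) g := by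
  induction q with
  | zero => exact fun _ h1 h2 => ⟨_, by simpa using h1, h2⟩
  | succ q ih =>
    intro x Λ f hΛ h1 h2
    have m := h1.mass_le hΛ
    obtain ⟨g, g1, g2⟩ := ih (hΛ.add hΛ) (SP.mul hΛ hΛ h1 h1)
      (xp_cast (xp_mul h2 h2 (xp_mass m m h1.1) hk L) rfl rfl (by ring) rfl)
    refine ⟨g, ?_, g2⟩
    rwa [← two_smul ℝ Λ, ← mul_smul, ← pow_succ] at g1

lemma xp_sig {β : ℝ} (h0 : 0 ≤ β) (h1 : β ≤ 1) : 0 ≤ 1 - β + β ^ 2 / 2 - β ^ 3 / 6 - 5 * β ^ 4 / 96 := by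
  have a1 : β ^ 3 ≤ β ^ 2 := pow_le_pow_of_le_one h0 h1 (by norm_num)
  have a2 : β ^ 4 ≤ β ^ 2 := pow_le_pow_of_le_one h0 h1 (by norm_num)
  nlinarith [sq_nonneg β]

lemma xp_coef {b : ℕ} (hb : b ≤ 2 ^ 64) :
    (1 : ℝ) / 2 ^ 190 * (((96 * 2 ^ 256 + 48 * 2 ^ 128 * (b * b) -
      (96 * 2 ^ 192 * b + 16 * 2 ^ 64 * (b * b * b) + 5 * (b * b * (b * b)))) / (576 * 2 ^ 161) : ℕ) : ℝ) ≤
    (1 - (b : ℝ) / 2 ^ 64 + ((b : ℝ) / 2 ^ 64) ^ 2 / 2 - ((b : ℝ) / 2 ^ 64) ^ 3 / 6 -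
      5 * ((b : ℝ) / 2 ^ 64) ^ 4 / 96) / 6 * (1 / 2 ^ 95) := by
  have hb' : (b : ℝ) / 2 ^ 64 ≤ 1 := by
    rw [div_le_one (by positivity)]
    exact_mod_cast hb
  have s0 := xp_sig (by positivity) hb'
  generalize hx : 96 * 2 ^ 256 + 48 * 2 ^ 128 * (b * b) = x
  generalize hy : 96 * 2 ^ 192 * b + 16 * 2 ^ 64 * (b * b * b) + 5 * (b * b * (b * b)) = y
  have e : (x : ℝ) - y = 96 * 2 ^ 256 * (1 - (b : ℝ) / 2 ^ 64 + ((b : ℝ) / 2 ^ 64) ^ 2 / 2 -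
      ((b : ℝ) / 2 ^ 64) ^ 3 / 6 - 5 * ((b : ℝ) / 2 ^ 64) ^ 4 / 96) := by
    rw [← hx, ← hy]
    push_cast
    ring
  generalize 1 - (b : ℝ) / 2 ^ 64 + ((b : ℝ) / 2 ^ 64) ^ 2 / 2 - ((b : ℝ) / 2 ^ 64) ^ 3 / 6 -
      5 * ((b : ℝ) / 2 ^ 64) ^ 4 / 96 = σ at e s0 ⊢
  have hyx : y ≤ x := by
    have : (0 : ℝ) ≤ (x : ℝ) - y := by rw [e]; positivity
    exact_mod_cast sub_nonneg.1 this
  have c1 : (((x - y) / (576 * 2 ^ 161) : ℕ) : ℝ) ≤ 96 * 2 ^ 256 * σ / (576 * 2 ^ 161) := by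
    refine Nat.cast_div_le.trans (le_of_eq ?_)
    rw [Nat.cast_sub hyx, e, Nat.cast_mul, Nat.cast_pow, Nat.cast_ofNat, Nat.cast_ofNat]
  refine (mul_le_mul_of_nonneg_left c1 (by positivity)).trans (le_of_eq ?_)
  ring

theorem expo_spec (hc : CxOK cx) {mu : ℕ} {s : Ac} {Λ : A} (hs : AcOK cx.E s Λ) {k : Tb → Bool}
    (h : expo false cx mu s k = true) :
    ∃ t, SPT cx t (((mu : ℝ) / 2 ^ 37) • Λ) ∧ t.o ≤ 2 ^ 30 ∧ k t = true := by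
  obtain ⟨k0, n, v, m0, p, m, m2'⟩ := s
  obtain ⟨hΛ, hv, hm0, hm1, hm2⟩ := hs
  dsimp only at hv hm0 hm1 hm2
  unfold expo at h
  dsimp only at h
  obtain ⟨an, ean, h⟩ := xp_fN h
  obtain ⟨q, -, h⟩ := xp_fN h
  obtain ⟨dq, edq, h⟩ := xp_fN h
  obtain ⟨b, eb, h⟩ := xp_fN h
  obtain ⟨mp, emp, h⟩ := xp_fN h
  obtain ⟨mn', emn, h⟩ := xp_fN h
  obtain ⟨mm, emm, h⟩ := xp_fN h
  obtain ⟨L, eL, h⟩ := xp_fN h
  obtain ⟨jp, -, h⟩ := xp_fN h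
  obtain ⟨jn, -, h⟩ := xp_fN h
  obtain ⟨hw, -, h⟩ := xp_fN h
  obtain ⟨ep, -, h⟩ := xp_fN h
  obtain ⟨en, -, h⟩ := xp_fN h
  obtain ⟨Lw, -, h⟩ := xp_fN h
  obtain ⟨hcd, h⟩ := cond_false h
  obtain ⟨b2, eb2, h⟩ := xp_fN h
  obtain ⟨B, eB, h⟩ := xp_fN h
  obtain ⟨Bb, eBb, h⟩ := xp_fN h
  obtain ⟨nw, -, h⟩ := xp_fN h
  obtain ⟨mk, emk, h⟩ := xp_fN h
  obtain ⟨x, ex, h⟩ := xp_fN h
  obtain ⟨y, ey, h⟩ := xp_fN h
  obtain ⟨o, eo, h⟩ := xp_fN h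
  clear * - hc hΛ hv hm0 hm1 hm2 ean edq eb emp emn emm eL hcd eb2 eB eBb emk ex ey eo h
  rw [Bool.and_eq_true, Nat.ble_eq, Nat.ble_eq] at hcd
  have hb : b ≤ 2 ^ 64 := hcd.1
  have hL : Lw ≤ 2 ^ 30 := hcd.2
  have hmk : IsMask mk := emk ▸ hc.mk'.msk nw
  have E0 : (0 : ℝ) < cx.E := by exact_mod_cast hc.E0
  have dq1 : dq = cx.E * 2 ^ 37 * 2 ^ q := by rw [edq, n_shl, hc.den]
  have dq2 : (dq : ℝ) = cx.E * 2 ^ 37 * 2 ^ q := by rw [dq1]; push_cast; ring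
  have a1 : an * 2 ^ 64 < dq * b := by
    rw [eb, n_add, n_div, n_shl]
    exact Nat.lt_mul_div_succ _ (dq1 ▸ Nat.mul_pos (Nat.mul_pos hc.E0 (Nat.two_pow_pos _)) (Nat.two_pow_pos _))
  have H := And.intro (And.intro eB eBb) (And.intro ex ey)
  clear eB eBb ex ey emk eb dq1 edq
  have den2 : (cx.den : ℝ) = cx.E * 2 ^ 37 := by rw [hc.den]; push_cast; ring
  -- the scaled jump measure
  obtain ⟨c, hcc⟩ : ∃ c : ℝ, c = (mu : ℝ) / 2 ^ 37 / 2 ^ q := ⟨_, rfl⟩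
  have c0 : 0 ≤ c := by rw [hcc]; positivity
  obtain ⟨θ, hθ⟩ : ∃ θ : ℝ, θ = (2 ^ 60 - 1) / 2 ^ 60 := ⟨_, rfl⟩
  have θ0 : 0 ≤ θ := by rw [hθ]; norm_num
  have θ1 : θ < 1 := by rw [hθ]; norm_num
  have pΛ : Pos (c • Λ) := hΛ.smul c0
  have β1 : (b : ℝ) / 2 ^ 64 ≤ 1 := by
    rw [div_le_one (by positivity)]
    exact_mod_cast hb
  have mΛ : mass (c • Λ) < (b : ℝ) / 2 ^ 64 := by
    have a2 : (an : ℝ) * 2 ^ 64 < dq * b := by exact_mod_cast a1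
    have a3 : (an : ℝ) = mu * m0 := by rw [ean, n_mul]; push_cast; rfl
    have a4 : mass (c • Λ) = c * mass Λ := ev_smul _ _ _
    rw [a4]
    refine (mul_le_mul_of_nonneg_left hm0 c0).trans_lt ?_
    rw [a3, dq2] at a2
    rw [hcc, div_div, div_mul_div_comm, div_lt_div_iff₀ (by positivity) (by positivity)]
    linarith
  obtain ⟨M, hM⟩ : ∃ M : A, M = θ • c • Λ := ⟨_, rfl⟩
  have pM : Pos M := hM ▸ pΛ.smul θ0
  have mM : mass M ≤ 1 := by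
    have a4 : mass M = θ * mass (c • Λ) := by rw [hM]; exact ev_smul _ _ _
    rw [a4]
    exact mul_le_one₀ θ1.le pΛ.mass_nonneg (mΛ.le.trans β1)
  have mM2 := xp_mass mM mM pM
  have mM3 := xp_mass mM2 mM pM
  have rB : Rp (1 / 2 ^ 95) B (-(L : ℤ)) M := by
    have a1 : Rp (1 / 2 ^ 190) (v * (mu * ((2 ^ 60 - 1) * 2 ^ 130) / dq)) ((k0 : ℤ) - 2 ^ 30) M := by
      refine xp_cast (hv.resc (by positivity) (by positivity) (mul_nonneg θ0 c0) ?_) rfl rfl rfl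
        (by rw [hM, mul_smul])
      refine (mul_le_mul_of_nonneg_left Nat.cast_div_le (by positivity)).trans (le_of_eq ?_)
      rw [dq2, hθ, hcc]
      push_cast
      field_simp
      ring
    refine xp_cast ((xp_cut a1 mM hc.mk' 0).shl (k0 - 2 ^ 30)) rfl ?_ ?_ rfl
    · rw [H.1.1, n_shl]
      rfl
    · change L = 1073741824 - k0 at eL
      omega
  have rBb : Rp (1 / 2 ^ 95) Bb (-(2 * L : ℤ)) (M * M) :=
    xp_cast (xp_mul rB rB mM2 hc.mk' 0) rfl H.1.2.symm (by push_cast; ring) rfl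
  have rB3 : Rp (1 / 2 ^ 95) (cut cx.MK (Bb * B) 0) (-(3 * L : ℤ)) (M * M * M) :=
    xp_cast (xp_mul rBb rB mM3 hc.mk' 0) rfl rfl (by push_cast; ring) rfl
  have rS := (((xp_cast (xp_one 6 (3 * L)) rfl rfl (by push_cast; rfl) rfl).add
    (xp_cast ((rB.nat 6).shl (2 * L)) rfl rfl (by push_cast; ring) rfl)).add
    (xp_cast ((rBb.nat 3).shl L) rfl rfl (by ring) rfl)).add rB3
  have σ0 := xp_sig (by positivity) β1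
  have hcoef := xp_coef hb
  have sp := SP.base pΛ pM θ1 θ0 (hM ▸ Le.refl _) mΛ β1 σ0 le_rfl
  generalize 1 - (b : ℝ) / 2 ^ 64 + ((b : ℝ) / 2 ^ 64) ^ 2 / 2 - ((b : ℝ) / 2 ^ 64) ^ 3 / 6 -
      5 * ((b : ℝ) / 2 ^ 64) ^ 4 / 96 = σ at σ0 hcoef sp
  have rX := (rS.resc (by positivity) (by positivity) (by positivity) hcoef).shl (Lw - 3 * L)
  have rx : Rp (1 / 2 ^ 95) x (-(Lw : ℤ)) (σ • (1 + M + (1 / 2 : ℝ) • M ^ 2 + (1 / 6 : ℝ) • M ^ 3)) := by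
    refine xp_cast (xp_cut (xp_cast rX rfl rfl rfl ?_) (sp.mass_le pΛ) hmk (3 * L - Lw)) rfl ?_ ?_ rfl
    · push_cast
      algebra
    · rw [H.2.1, eb2, show 192 * (3 * L) = 576 * L by ring, show 192 * (2 * L) = 384 * L by ring]
      simp only [n_shl]
      rfl
    · omega
  obtain ⟨g, g1, g2⟩ := xp_sqs (s := an) hmk q pΛ sp rx
  refine ⟨_, ⟨hΛ.smul (by positivity), ⟨?_, ?_⟩, g, ?_, ?_⟩, ?_, h⟩
  · rw [m1_smul, hm1, den2, emp, emn, n_mul, n_mul]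
    push_cast
    field_simp
  · rw [m2_smul, den2, emm, n_mul]
    push_cast
    refine (mul_le_mul_of_nonneg_left hm2 (by positivity)).trans (le_of_eq ?_)
    field_simp
  · rwa [← mul_smul, hcc, mul_div_cancel₀ _ (by positivity)] at g1
  · refine xp_cast g2 rfl H.2.2.symm ?_ rfl
    change o = 1073741824 - Lw at eo
    change -(Lw : ℤ) = (o : ℤ) - 2 ^ 30
    omega
  · change o = 1073741824 - Lw at eo
    change o ≤ 2 ^ 30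
    omega

theorem mulT_sp (hc : CxOK cx) {xl xh : ℕ} {s t : Tb} {Λ Λ' : A} (hs : SPT cx s Λ) (ht : SPT cx t Λ')
    {k : Tb → Bool} (h : mulT cx xl xh s t k = true) : ∃ r, SPT cx r (Λ + Λ') ∧ k r = true := by
  obtain ⟨p, m, f, f1, f2⟩ := hs
  obtain ⟨p', m', g, g1, g2⟩ := ht
  obtain ⟨r, r1, r2, r3, r4, r5⟩ := xp_mulT hc f2 g2 (xp_mass (f1.mass_le p) (g1.mass_le p') g1.1) h
  exact ⟨r, ⟨p.add p', xp_mom m m' r2 r3 r4, _, SP.mul p p' f1 g1, r1⟩, r5⟩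

theorem mulT_mx (hc : CxOK cx) {xl xh : ℕ} {s t : Tb} {Λ Λ' N : A} {W W' : ℝ} (hN : Pos N) (hW : 0 ≤ W)
    (hW' : 0 ≤ W') (h1 : W + W' ≤ 1) (hs : MXT cx N W W' s Λ) (ht : SPT cx t Λ')
    {k : Tb → Bool} (h : mulT cx xl xh s t k = true) : ∃ r, MXT cx N W W' r (Λ + Λ') ∧ k r = true := by
  obtain ⟨p, m, f, f1, f2⟩ := hs
  obtain ⟨p', m', g, g1, g2⟩ := ht
  obtain ⟨r, r1, r2, r3, r4, r5⟩ := xp_mulT hc f2 g2
    (xp_mass ((f1.mass_le p hN hW hW').trans h1) (g1.mass_le p') g1.1) h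
  exact ⟨r, ⟨p.add p', xp_mom m m' r2 r3 r4, _, f1.mul p p' hW hW' g1, r1⟩, r5⟩

theorem mixT_spec (hc : CxOK cx) {xl xh W W' : ℕ} {e n : Tb} {Λ N : A} (h1 : W + W' ≤ 2 ^ 64)
    (he : SPT cx e Λ) (hn : SPT cx n N) (ho : n.o ≤ 2 ^ 30) {k : Tb → Bool}
    (h : mixT cx xl xh W W' e n k = true) :
    ∃ r, MXT cx N ((W : ℝ) / 2 ^ 64) ((W' : ℝ) / 2 ^ 64) r Λ ∧ k r = true := by
  obtain ⟨p, m, f, f1, f2⟩ := he
  obtain ⟨p', -, g, g1, g2⟩ := hn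
  have hW : (0 : ℝ) ≤ (W : ℝ) / 2 ^ 64 := by positivity
  have hW' : (0 : ℝ) ≤ (W' : ℝ) / 2 ^ 64 := by positivity
  have h1' : (W : ℝ) / 2 ^ 64 + (W' : ℝ) / 2 ^ 64 ≤ 1 := by
    rw [← add_div, div_le_one (by positivity)]
    exact_mod_cast h1
  have mx := mixOK_base f1 g1 hW hW'
  have mg : mass (((W : ℝ) / 2 ^ 64) • (1 : A) + ((W' : ℝ) / 2 ^ 64) • g) ≤ 1 := by
    rw [mass, ev_add, ev_smul, ev_smul, ev_one, mul_one]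
    exact (add_le_add le_rfl (mul_le_of_le_one_right hW' (g1.mass_le p'))).trans h1'
  have a1 := ((xp_cast (xp_one W (2 ^ 30 - n.o)) rfl rfl (by omega) rfl).add (Rp.nat g2 W')).resc
    (s' := 1 / 2 ^ 190) (c := 2 ^ 31) (r := 1 / 2 ^ 64) (by positivity) (by positivity) (by positivity)
    (by norm_num)
  have a2 := xp_cut (xp_cast a1 rfl rfl rfl (by algebra)) mg hc.mk' 0
  have a3 : TR ⟨n.o, cut cx.MK ((W * 2 ^ (192 * (2 ^ 30 - n.o) + 95) + W' * n.v) * 2 ^ 31) 0, 0, 0, 0,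
      n.jp, n.jn, n.n⟩ (((W : ℝ) / 2 ^ 64) • (1 : A) + ((W' : ℝ) / 2 ^ 64) • g) :=
    xp_cast a2 rfl (by rw [mul_assoc W, ← pow_add, add_comm 95]) (by simp) rfl
  unfold mixT at h
  rw [n_shl, n_shl] at h
  obtain ⟨r, r1, r2, r3, r4, r5⟩ := xp_mulT hc f2 a3 ((mx.mass_le p p' hW hW').trans h1') h
  refine ⟨r, ⟨p, ?_, _, mx, r1⟩, r5⟩
  unfold Mom
  rw [r2, r3, r4]
  exact m

end
end Pool.Agent.MP_3bf126_pr.H21
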