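import Pool.Agent.MP_3bf126_pr.H21.Alg

/-! The law of the past under the reference rule and its lattice majorant. -/

namespace Pool.Agent.MP_3bf126_pr.H21
open MeasureTheory Set Filter Pool.Agent.MP_3bf126_pr.H40
open scoped ENNReal
noncomputable section
variable {p : Par}

lemma Meas.const (c : ℝ) : Meas fun _ => c := fun _ _ _ _ => measurable_const

lemma Meas.add {f g : List ℝ → ℝ} (hf : Meas f) (hg : Meas g) : Meas fun ξ => f ξ + g ξ :=
  fun α _ l hl => (hf α l hl).add (hg α l hl)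

lemma Meas.sub {f g : List ℝ → ℝ} (hf : Meas f) (hg : Meas g) : Meas fun ξ => f ξ - g ξ :=
  fun α _ l hl => (hf α l hl).sub (hg α l hl)

lemma Meas.comp {f : List ℝ → ℝ} (hf : Meas f) {g : ℝ → ℝ} (hg : Measurable g) :
    Meas fun ξ => g (f ξ) := fun α _ l hl => hg.comp (hf α l hl)

lemma Meas.mapsum {β : ℝ → ℝ} (hβ : Measurable β) : Meas fun ξ => (ξ.map β).sum := by
  intro α _ l hl
  induction l with
  | nil => simp
  | cons g l ih =>
    simp only [List.map_cons, List.sum_cons]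
    exact (hβ.comp (hl g List.mem_cons_self)).add (ih fun k hk => hl k (List.mem_cons_of_mem _ hk))

lemma Meas.ofReal {f : List ℝ → ℝ} (hf : Meas f) : MeasE fun ξ => ENNReal.ofReal (f ξ) :=
  fun α _ l hl => (hf α l hl).ennreal_ofReal

lemma meas_ell (c T S : ℝ) {φ : ℝ → ℝ} (hφ : Measurable φ) : Meas (ell c T φ S) :=
  ((Meas.const c).add (Meas.mapsum hφ)).sub (Meas.const (S * T))

lemma TF.continuous {h : ℝ → ℝ} (hh : TF h) : Continuous h :=
  continuousOn_univ.1 (hh.1.continuousOn isOpen_univ)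

lemma TF.cvx {h : ℝ → ℝ} (hh : TF h) (x y : ℝ) {a b : ℝ} (ha : 0 ≤ a) (hb : 0 ≤ b)
    (hab : a + b = 1) : h (a * x + b * y) ≤ a * h x + b * h y :=
  hh.1.2 (mem_univ x) (mem_univ y) ha hb hab

lemma TF.cvx_shift {h : ℝ → ℝ} (hh : TF h) (x y c : ℝ) {a b : ℝ} (ha : 0 ≤ a) (hb : 0 ≤ b)
    (hab : a + b = 1) : h (a * x + b * y + c) ≤ a * h (x + c) + b * h (y + c) := by
  have e : a * x + b * y + c = a * (x + c) + b * (y + c) := by linear_combination (-c) * hab
  rw [e]
  exact hh.cvx _ _ ha hb hab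

lemma TF.shift {h : ℝ → ℝ} (hh : TF h) (c : ℝ) : TF fun y => h (y + c) :=
  ⟨⟨convex_univ, fun x _ y _ _ _ ha hb hab => hh.cvx_shift x y c ha hb hab⟩,
    fun _ _ hxy => hh.2.1 (by linarith), fun _ => hh.2.2 _⟩

lemma tf_pos : TF fun y => max y 0 :=
  ⟨(convexOn_id convex_univ).sup (convexOn_const 0 convex_univ),
    fun _ _ hxy => max_le_max hxy le_rfl, fun _ => le_max_right _ _⟩

lemma tf_sq : TF fun y => (max y 0) ^ 2 :=
  ⟨tf_pos.1.pow (fun _ _ => le_max_right _ _) 2,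
    fun _ _ hxy => pow_le_pow_left₀ (le_max_right _ _) (max_le_max hxy le_rfl) 2,
    fun _ => sq_nonneg _⟩

lemma TF.ev {h : ℝ → ℝ} (hh : TF h) {f : A} (hf : Pos f) (η : ℝ) :
    TF fun y => ev f fun j => h (y + j * η) := by
  refine ⟨⟨convex_univ, fun x _ y _ a b ha hb hab => ?_⟩,
    fun x y hxy => hf.mono fun j => hh.2.1 (by linarith), fun y => hf _ fun j => hh.2.2 _⟩
  simp only [smul_eq_mul]
  rw [← ev_mul_fun, ← ev_mul_fun, ← ev_add_fun]
  exact hf.mono fun j => hh.cvx_shift x y _ ha hb hab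

lemma MeasE.cons {f : List ℝ → ℝ≥0∞} (hf : MeasE f) (ξ : List ℝ) :
    Measurable fun x : ℝ => f (x :: ξ) := by
  have h := hf ℝ (id :: ξ.map fun c _ => c) (by
    intro g hg
    rcases List.mem_cons.1 hg with rfl | hg
    · exact measurable_id
    · obtain ⟨c, -, rfl⟩ := List.mem_map.1 hg
      exact measurable_const)
  simpa [Function.comp_def] using h

lemma MeasE.pz {f : List ℝ → ℝ≥0∞} (hf : MeasE f) (z : ℝ) : MeasE (Pz p z f) := by
  intro α _ l hl
  have h := hf (α × ℝ) (Prod.snd :: l.map fun g a => g a.1) (by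
    intro g hg
    rcases List.mem_cons.1 hg with rfl | hg
    · exact measurable_snd
    · obtain ⟨k, hk, rfl⟩ := List.mem_map.1 hg
      exact (hl k hk).comp measurable_fst)
  have h2 := Measurable.lintegral_prod_right' (ν := volume.restrict (Ioc z p.X)) h
  simp only [List.map_cons, List.map_map, Function.comp_def] at h2
  exact (h2.const_mul _).add ((hf α l hl).const_mul _)

lemma Mz_mono {zs : List ℝ} (hz : ZOK p zs) {f g : List ℝ → ℝ≥0∞} (h : ∀ ξ, Good p ξ → f ξ ≤ g ξ) :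
    Mz p zs f ≤ Mz p zs g := by
  induction zs generalizing f g with
  | nil => exact h [] fun _ hx => by simp at hx
  | cons z zs ih =>
    refine ih (fun w hw => hz w (List.mem_cons_of_mem _ hw)) fun ξ hξ => ?_
    refine add_le_add (mul_le_mul_right (setLIntegral_mono' measurableSet_Ioc fun x hx => h _ ?_) _)
      (mul_le_mul_right (h ξ hξ) _)
    intro w hw
    rcases List.mem_cons.1 hw with rfl | hw
    · exact ⟨(hz z List.mem_cons_self).1.trans hx.1.le, hx.2⟩
    · exact hξ w hw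

lemma Mz_mono' (zs : List ℝ) {f g : List ℝ → ℝ≥0∞} (h : ∀ ξ, f ξ ≤ g ξ) :
    Mz p zs f ≤ Mz p zs g := by
  induction zs generalizing f g with
  | nil => exact h []
  | cons z zs ih =>
    exact ih fun ξ => add_le_add (mul_le_mul_right (lintegral_mono fun x => h _) _)
      (mul_le_mul_right (h ξ) _)

lemma Mz_add (zs : List ℝ) {f : List ℝ → ℝ≥0∞} (hf : MeasE f) (g : List ℝ → ℝ≥0∞) :
    Mz p zs (fun ξ => f ξ + g ξ) = Mz p zs f + Mz p zs g := by
  induction zs generalizing f g with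
  | nil => rfl
  | cons z zs ih =>
    have e : Pz p z (fun ξ => f ξ + g ξ) = fun ξ => Pz p z f ξ + Pz p z g ξ := by
      funext ξ
      simp only [Pz]
      rw [lintegral_add_left (hf.cons ξ)]
      ring
    simp only [Mz]
    rw [e, ih (hf.pz z)]

lemma Mz_smul (zs : List ℝ) (c : ℝ) (f : List ℝ → ℝ≥0∞) :
    Mz p zs (fun ξ => ENNReal.ofReal c * f ξ) = ENNReal.ofReal c * Mz p zs f := by
  induction zs generalizing f with
  | nil => rfl
  | cons z zs ih =>
    have e : Pz p z (fun ξ => ENNReal.ofReal c * f ξ) =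
        fun ξ => ENNReal.ofReal c * Pz p z f ξ := by
      funext ξ
      simp only [Pz]
      rw [lintegral_const_mul' _ _ ENNReal.ofReal_ne_top]
      ring
    simp only [Mz]
    rw [e, ih]

lemma Mz_zero (zs : List ℝ) : Mz p zs (fun _ => 0) = 0 := by
  simpa using Mz_smul (p := p) zs 0 fun _ => 0

lemma Par.OK.n0 (hp : p.OK) : 0 < p.n := hp.X0.trans hp.Xn

lemma Par.OK.fac (hp : p.OK) {z : ℝ} (hz : z ≤ p.X) : 0 < 1 - z / p.n :=
  sub_pos.2 ((div_lt_one hp.n0).2 (hz.trans_lt hp.Xn))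

lemma Surv_pos (hp : p.OK) {zs : List ℝ} (hz : ZOK p zs) : 0 < Surv p zs := by
  refine List.prod_pos fun a ha => ?_
  obtain ⟨z, hz', rfl⟩ := List.mem_map.1 ha
  exact hp.fac (hz z hz').2

lemma Surv_cons (z : ℝ) (zs : List ℝ) : Surv p (z :: zs) = (1 - z / p.n) * Surv p zs := by
  simp [Surv]

/-- one step applied to a nonnegative real function -/
lemma Pz_ofReal (hp : p.OK) {z : ℝ} (hz : z ≤ p.X) {F : List ℝ → ℝ} (hF : ∀ ξ, 0 ≤ F ξ)
    {ξ : List ℝ} (hi : IntervalIntegrable (fun x => F (x :: ξ)) volume z p.X) :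
    Pz p z (fun ξ => ENNReal.ofReal (F ξ)) ξ =
      ENNReal.ofReal (1 / p.n * (∫ x in z..p.X, F (x :: ξ)) + (1 - p.X / p.n) * F ξ) := by
  have hn := hp.n0
  have h1 := (hp.fac le_rfl).le
  rw [Pz, intervalIntegral.integral_of_le hz,
    ← ofReal_integral_eq_lintegral_ofReal hi.1 (ae_of_all _ fun x => hF _),
    ENNReal.ofReal_add (mul_nonneg (by positivity) (integral_nonneg fun x => hF _))
      (mul_nonneg h1 (hF ξ)), ENNReal.ofReal_mul (by positivity), ENNReal.ofReal_mul h1]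

lemma Mz_len_add (hp : p.OK) {zs : List ℝ} (hz : ZOK p zs) {c : ℝ} (hc : 0 ≤ c) :
    Mz p zs (fun ξ => ENNReal.ofReal (ξ.length + c : ℝ)) ≤
      ENNReal.ofReal (Surv p zs * (zs.length * p.X / p.n + c)) := by
  induction zs generalizing c with
  | nil => simp [Mz, Surv]
  | cons z zs ih =>
    obtain ⟨hz0, hzX⟩ := hz z List.mem_cons_self
    have hn := hp.n0
    have hX := hp.X0
    have hf := hp.fac hzX
    have h1 : ∀ ξ : List ℝ, Pz p z (fun ξ => ENNReal.ofReal (ξ.length + c : ℝ)) ξ ≤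
        ENNReal.ofReal (1 - z / p.n) * ENNReal.ofReal (ξ.length + (c + p.X / p.n) : ℝ) := by
      intro ξ
      rw [Pz_ofReal hp hzX (fun ξ => by positivity) (by simp),
        ← ENNReal.ofReal_mul hf.le]
      refine ENNReal.ofReal_le_ofReal ?_
      simp only [List.length_cons, intervalIntegral.integral_const, smul_eq_mul]
      push_cast
      have h2 : 0 ≤ z / p.n * (1 - p.X / p.n) :=
        mul_nonneg (by positivity) (hp.fac le_rfl).le
      have h3 : 1 / p.n * ((p.X - z) * (ξ.length + 1 + c)) =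
          (p.X / p.n - z / p.n) * (ξ.length + 1 + c) := by ring
      rw [h3]
      nlinarith
    refine (Mz_mono' zs h1).trans ?_
    rw [Mz_smul]
    refine (mul_le_mul_right (ih (fun w hw => hz w (List.mem_cons_of_mem _ hw)) (by positivity))
      _).trans_eq ?_
    rw [← ENNReal.ofReal_mul hf.le, Surv_cons, List.length_cons]
    congr 1
    push_cast
    ring

lemma Mz_len (hp : p.OK) {zs : List ℝ} (hz : ZOK p zs) :
    Mz p zs (fun ξ => ENNReal.ofReal (ξ.length : ℝ)) ≤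
      ENNReal.ofReal (Surv p zs * (zs.length * p.X / p.n)) := by
  simpa using Mz_len_add hp hz le_rfl

lemma Mz_skip (hp : p.OK) (z : ℝ) (zs : List ℝ) (f : List ℝ → ℝ≥0∞) :
    Mz p zs f ≤ ENNReal.ofReal (p.n / (p.n - p.X)) * Mz p (z :: zs) f := by
  have hn := hp.n0
  have hd : 0 < p.n - p.X := sub_pos.2 hp.Xn
  rw [Mz, ← Mz_smul]
  refine Mz_mono' zs fun ξ => ?_
  refine le_trans ?_ (mul_le_mul_right le_add_self _)
  rw [← mul_assoc, ← ENNReal.ofReal_mul (by positivity),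
    show p.n / (p.n - p.X) * (1 - p.X / p.n) = 1 by field_simp, ENNReal.ofReal_one, one_mul]

/-- one step of a stop-loss line -/
lemma line_step (hp : p.OK) {z : ℝ} {zs : List ℝ} (hz : ZOK p (z :: zs)) {R R' G B : List ℝ → ℝ}
    {ρ ρ' θ : ℝ} (hR : Meas R)
    (hint : ∀ ξ, Good p ξ → IntervalIntegrable (fun x => R (x :: ξ)) volume z p.X)
    (h : ∀ ξ, Good p ξ → R' ξ ≤ ((∫ x in z..p.X, R (x :: ξ)) + (p.n - p.X) * R ξ + G ξ) / p.n)
    (hρ : (1 - z / p.n) * ρ + θ / p.n ≤ ρ') (hB : ∀ ξ, Good p ξ → G ξ - θ ≤ B ξ) :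
    Mz p zs (fun ξ => ENNReal.ofReal (R' ξ - ρ')) ≤ Mz p (z :: zs) (fun ξ => ENNReal.ofReal (R ξ - ρ)) +
      ENNReal.ofReal (1 / (p.n - p.X)) * Mz p (z :: zs) (fun ξ => ENNReal.ofReal (B ξ)) := by
  obtain ⟨-, hzX⟩ := hz z List.mem_cons_self
  have hn := hp.n0
  have hd : 0 < p.n - p.X := sub_pos.2 hp.Xn
  have hf := (hp.fac le_rfl).le
  have e0 : (fun ξ => ENNReal.ofReal (R ξ - ρ)) = fun ξ => ENNReal.ofReal (max (R ξ - ρ) 0) := by
    funext ξ
    simp
  have h1 : ∀ ξ, Good p ξ → ENNReal.ofReal (R' ξ - ρ') ≤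
      Pz p z (fun ξ => ENNReal.ofReal (R ξ - ρ)) ξ +
        ENNReal.ofReal (1 / p.n) * ENNReal.ofReal (B ξ) := by
    intro ξ hξ
    have hi : IntervalIntegrable (fun x => R (x :: ξ) - ρ) volume z p.X :=
      (hint ξ hξ).sub intervalIntegrable_const
    have hi' : IntervalIntegrable (fun x => max (R (x :: ξ) - ρ) 0) volume z p.X :=
      ⟨hi.1.pos_part, hi.2.pos_part⟩
    rw [e0, Pz_ofReal hp hzX (fun _ => le_max_right _ _) hi', ← ENNReal.ofReal_mul (by positivity)]
    refine le_trans (ENNReal.ofReal_le_ofReal ?_) ENNReal.ofReal_add_le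
    have h2 := intervalIntegral.integral_mono_on hzX hi hi' fun x _ => le_max_left _ _
    rw [intervalIntegral.integral_sub (hint ξ hξ) intervalIntegrable_const,
      intervalIntegral.integral_const, smul_eq_mul] at h2
    have h3 := mul_le_mul_of_nonneg_left h2 (one_div_pos.2 hn).le
    have h4 := mul_le_mul_of_nonneg_left (le_max_left (R ξ - ρ) 0) hf
    have h5 := mul_le_mul_of_nonneg_left (hB ξ hξ) (one_div_pos.2 hn).le
    have h6 := h ξ hξ
    have h7 : ((∫ x in z..p.X, R (x :: ξ)) + (p.n - p.X) * R ξ + G ξ) / p.n =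
        1 / p.n * ((∫ x in z..p.X, R (x :: ξ)) - (p.X - z) * ρ) + (1 - p.X / p.n) * (R ξ - ρ) +
          1 / p.n * (G ξ - θ) + ((1 - z / p.n) * ρ + θ / p.n) := by
      field_simp
      ring
    linarith
  refine (Mz_mono (fun w hw => hz w (List.mem_cons_of_mem _ hw)) h1).trans ?_
  rw [Mz_add zs ((hR.sub (Meas.const ρ)).ofReal.pz z), Mz_smul]
  refine add_le_add le_rfl ((mul_le_mul_right (Mz_skip hp z zs _) _).trans_eq ?_)
  rw [← mul_assoc, ← ENNReal.ofReal_mul (by positivity)]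
  congr 2
  field_simp

lemma ev_Tn_gen (n z : ℝ) (Λ : A) (H : ℤ → ℝ) :
    ev (Tn n z Λ) H = H 0 + 1 / (n - z) * (ev Λ H - mass Λ * H 0) := by
  rw [Tn, ev_add, ev_one, ev_smul, ev_sub, ev_smul, ev_one]

lemma Mz_lat (hp : p.OK) {β : ℝ → ℝ} {η : ℝ} (l : List (ℝ × A))
    (hl : ∀ a ∈ l, 0 ≤ a.1 ∧ a.1 ≤ p.X ∧ DomI β a.1 p.X η a.2 ∧ Pos (Tn p.n a.1 a.2))
    {h : ℝ → ℝ} (hh : TF h) (y : ℝ) :
    Mz p (l.map fun a => a.1) (fun ξ => ENNReal.ofReal (h (y + (ξ.map β).sum))) ≤
      ENNReal.ofReal (Surv p (l.map fun a => a.1) *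
        ev (l.map fun a => Tn p.n a.1 a.2).prod fun j => h (y + j * η)) := by
  induction l generalizing h with
  | nil => simp [Mz, Surv, ev_one]
  | cons a l ih =>
    obtain ⟨-, hzX, hD, hT⟩ := hl a List.mem_cons_self
    have hn := hp.n0
    have hf := hp.fac hzX
    have hd : 0 < p.n - a.1 := sub_pos.2 (hzX.trans_lt hp.Xn)
    have h1 : ∀ ξ : List ℝ, Pz p a.1 (fun ξ => ENNReal.ofReal (h (y + (ξ.map β).sum))) ξ ≤
        ENNReal.ofReal (1 - a.1 / p.n) * ENNReal.ofReal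
          (ev (Tn p.n a.1 a.2) fun j => h (y + (ξ.map β).sum + j * η)) := by
      intro ξ
      obtain ⟨hi, hI⟩ := hD.2 h hh (y + (ξ.map β).sum)
      have e : (fun x => h (y + ((x :: ξ).map β).sum)) = fun x => h (y + (ξ.map β).sum + β x) := by
        funext x
        rw [List.map_cons, List.sum_cons]
        congr 1
        ring
      rw [Pz_ofReal hp hzX (fun _ => hh.2.2 _) (by rw [e]; exact hi), e,
        ← ENNReal.ofReal_mul hf.le, ev_Tn_gen]
      refine ENNReal.ofReal_le_ofReal ?_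
      refine (add_le_add_left (mul_le_mul_of_nonneg_left hI (one_div_pos.2 hn).le) _).trans_eq ?_
      simp only [Int.cast_zero, zero_mul, add_zero]
      generalize (ev a.2 fun j => h (y + (ξ.map β).sum + j * η)) = E
      field_simp
      ring
    simp only [List.map_cons, Mz, List.prod_cons]
    refine (Mz_mono' _ h1).trans ?_
    rw [Mz_smul]
    refine (mul_le_mul_right (ih (fun b hb => hl b (List.mem_cons_of_mem _ hb)) (hh.ev hT η))
      _).trans_eq ?_
    rw [← ENNReal.ofReal_mul hf.le, Surv_cons, mul_comm (Tn p.n a.1 a.2), ev_mul, mul_assoc]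
    simp only [Int.cast_add, add_mul, add_assoc]

lemma domI_refl (β : ℝ → ℝ) (a η : ℝ) : DomI β a a η 0 :=
  ⟨pos_zero, fun h _ y => ⟨IntervalIntegrable.refl, by simp [mass, ev_zero]⟩⟩

lemma DomI.trans {β : ℝ → ℝ} {a b c η : ℝ} {Λ Λ' : A} (h : DomI β a b η Λ) (h' : DomI β b c η Λ') :
    DomI β a c η (Λ + Λ') := by
  refine ⟨h.1.add h'.1, fun k hk y => ?_⟩
  obtain ⟨i1, j1⟩ := h.2 k hk y
  obtain ⟨i2, j2⟩ := h'.2 k hk y
  refine ⟨i1.trans i2, ?_⟩
  rw [← intervalIntegral.integral_add_adjacent_intervals i1 i2, ev_add, mass, ev_add]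
  simp only [mass] at j1 j2
  linarith

lemma intble_of_eq {β ψ h : ℝ → ℝ} {a b : ℝ} (hab : a ≤ b) (hψ : Continuous ψ)
    (e : ∀ x, a < x → x < b → β x = ψ x) (hh : TF h) (y : ℝ) :
    IntervalIntegrable (fun x => h (y + β x)) volume a b := by
  have h1 : IntervalIntegrable (fun x => h (y + ψ x)) volume a b :=
    (hh.continuous.comp (continuous_const.add hψ)).intervalIntegrable a b
  rw [intervalIntegrable_iff_integrableOn_Ioo_of_le hab] at h1 ⊢
  exact h1.congr_fun (fun x hx => by simp only [e x hx.1 hx.2]) measurableSet_Ioo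

/-- a smaller jump function (continuous inside the interval) is dominated as well -/
lemma DomI.mono {β β' ψ : ℝ → ℝ} {a b η : ℝ} {Λ : A} (h : DomI β a b η Λ) (hab : a ≤ b) (hψ : Continuous ψ)
    (e : ∀ x, a < x → x < b → β' x = ψ x) (hle : ∀ x, a < x → x < b → β' x ≤ β x) : DomI β' a b η Λ := by
  refine ⟨h.1, fun k hk y => ?_⟩
  obtain ⟨i1, j1⟩ := h.2 k hk y
  have i2 := intble_of_eq hab hψ e hk y
  exact ⟨i2, (intervalIntegral.integral_mono_on_of_le_Ioo hab i2 i1 fun x hx =>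
    hk.2.1 (by linarith [hle x hx.1 hx.2])).trans j1⟩

/-- the integral below a chord -/
lemma int_chord {g : ℝ → ℝ} {a b u v : ℝ} (hab : a < b) (hi : IntervalIntegrable g volume a b)
    (hg : ∀ x, a < x → x < b → g x ≤ (b - x) / (b - a) * u + (x - a) / (b - a) * v) :
    ∫ x in a..b, g x ≤ (b - a) * ((u + v) / 2) := by
  have hd : b - a ≠ 0 := (sub_pos.2 hab).ne'
  refine (intervalIntegral.integral_mono_on_of_le_Ioo hab.le hi
    (g := fun x => (b * u - a * v) / (b - a) + (v - u) / (b - a) * x)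
    (Continuous.intervalIntegrable (by fun_prop) a b) fun x hx =>
      (hg x hx.1 hx.2).trans_eq (by field_simp; ring)).trans_eq ?_
  rw [intervalIntegral.integral_add intervalIntegrable_const
    (Continuous.intervalIntegrable (by fun_prop) a b), intervalIntegral.integral_const,
    intervalIntegral.integral_const_mul, integral_id, smul_eq_mul]
  field_simp
  ring

/-- mean-preserving rounding of an offset -/
lemma split_le {h : ℝ → ℝ} (hh : TF h) {o η f : ℝ} {k : ℤ} (ho : o ≤ (k + f) * η) (h0 : 0 ≤ f) (h1 : f ≤ 1)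
    (t : ℝ) : h (t + o) ≤ ev (sg k (1 - f) + sg (k + 1) f) fun j => h (t + j * η) := by
  rw [ev_add, ev_sg, ev_sg]
  refine le_trans (hh.2.1 ?_) (hh.cvx _ _ (sub_nonneg.2 h1) h0 (by ring))
  push_cast
  linarith

lemma ev_pt (k : ℤ) (c : ℝ) (H : ℤ → ℝ) :
    ev (pt k c) H = c * H k - c * H 0 + mass (pt k c) * H 0 := by
  unfold pt mass
  split_ifs with hk
  · simp [hk, ev_zero]
  · rw [ev_sg, ev_sg]
    ring

lemma domI_cell {β ψ : ℝ → ℝ} {a b η va vb fa fb : ℝ} {ka kb : ℤ} (hab : a < b) (hψ : Continuous ψ)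
    (e : ∀ x, a < x → x < b → β x = ψ x)
    (hle : ∀ x, a < x → x < b → ψ x ≤ ((b - x) * va + (x - a) * vb) / (b - a))
    (ha : va ≤ (ka + fa) * η) (hb : vb ≤ (kb + fb) * η)
    (ha0 : 0 ≤ fa) (ha1 : fa ≤ 1) (hb0 : 0 ≤ fb) (hb1 : fb ≤ 1) :
    DomI β a b η (((b - a) / 2) •
      (pt ka (1 - fa) + pt (ka + 1) fa + (pt kb (1 - fb) + pt (kb + 1) fb))) := by
  have hd : 0 < b - a := sub_pos.2 hab
  refine ⟨Pos.smul (by positivity) (((pos_pt _ (sub_nonneg.2 ha1)).add (pos_pt _ ha0)).add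
    ((pos_pt _ (sub_nonneg.2 hb1)).add (pos_pt _ hb0))), fun h hh y => ?_⟩
  have hi := intble_of_eq hab.le hψ e hh y
  refine ⟨hi, ?_⟩
  have h1 := int_chord (u := h (y + va)) (v := h (y + vb)) hab hi fun x h1 h2 => by
    have h3 := hh.cvx (y + va) (y + vb) (a := (b - x) / (b - a)) (b := (x - a) / (b - a))
      (div_nonneg (by linarith) hd.le) (div_nonneg (by linarith) hd.le) (by field_simp; ring)
    refine le_trans (hh.2.1 ?_) h3
    rw [e x h1 h2]
    refine (add_le_add_right (hle x h1 h2) y).trans_eq ?_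
    field_simp
    ring
  have h2 := split_le hh ha ha0 ha1 y
  have h3 := split_le hh hb hb0 hb1 y
  rw [ev_add, ev_sg, ev_sg] at h2 h3
  have h4 := mul_le_mul_of_nonneg_left (add_le_add h2 h3) hd.le
  rw [mass, ev_smul, ev_smul]
  simp only [ev_add]
  rw [ev_pt ka _ fun j => h (y + j * η), ev_pt (ka + 1) _ fun j => h (y + j * η),
    ev_pt kb _ fun j => h (y + j * η), ev_pt (kb + 1) _ fun j => h (y + j * η)]
  simp only [mass, Int.cast_zero, zero_mul, add_zero]
  linarith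

/-- Hermite-Hadamard -/
lemma hh_le {g : ℝ → ℝ} {a b : ℝ} (hab : a ≤ b) (hg : ConvexOn ℝ (Icc a b) g)
    (hi : IntervalIntegrable g volume a b) : ∫ x in a..b, g x ≤ (b - a) * ((g a + g b) / 2) := by
  rcases hab.eq_or_lt with rfl | hab'
  · simp
  have hd : 0 < b - a := sub_pos.2 hab'
  refine int_chord hab' hi fun x h1 h2 => ?_
  have h3 := hg.2 (left_mem_Icc.2 hab) (right_mem_Icc.2 hab)
    (div_nonneg (sub_nonneg.2 h2.le) hd.le) (div_nonneg (sub_nonneg.2 h1.le) hd.le)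
    (by field_simp; ring)
  simp only [smul_eq_mul] at h3
  rwa [show (b - x) / (b - a) * a + (x - a) / (b - a) * b = x by field_simp; ring] at h3

end
end Pool.Agent.MP_3bf126_pr.H21
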