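import Pool.Agent.MP_3bf126_pr.H21.LinM

/-! Soundness of the checks of all levels. -/

namespace Pool.Agent.MP_3bf126_pr.H21
open Filter Finset K
noncomputable section

variable {a : Sl} {v : Env} {lx : Lx} {fam : List (ℝ × ℝ × ℝ)} {eb : ℕ}

namespace Lv35

lemma fN2 {β : Type} (n : ℕ) (k : ℕ → β) : fN n k = k n := (fN_eq n k).trans (Eq.refl _)
lemma ad2 (a b : ℕ) : Nat.add a b = a + b := (n_add a b).trans (Eq.refl _)
lemma su2 (a b : ℕ) : Nat.sub a b = a - b := (n_sub a b).trans (Eq.refl _)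
lemma mu2 (a b : ℕ) : Nat.mul a b = a * b := (n_mul a b).trans (Eq.refl _)
lemma di2 (a b : ℕ) : Nat.div a b = a / b := (n_div a b).trans (Eq.refl _)
lemma an2 (a b : ℕ) : Nat.land a b = a &&& b := (n_and a b).trans (Eq.refl _)

lemma iniH_succ (J h y : ℕ) :
    iniH (J + 1) h y = iniH J (h / 2 ^ 12) (y * 2 ^ 192 + (h &&& 4095) * 2 ^ 65) := by
  show iniH J (Nat.shiftRight h 12) (Nat.add (Nat.shiftLeft y 192) (Nat.shiftLeft (Nat.land h 4095) 65)) = _
  rw [n_shr, n_add, n_shl, n_shl, n_and]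

lemma iniH_spec (J : ℕ) : ∀ (h n : ℕ) (t : ℕ → ℕ), (∀ k < n, t k < 2 ^ 77) →
    ∃ H : ℕ → ℕ, iniH J h (ns t n) = ns H (n + J) ∧ ∀ k < n + J, H k < 2 ^ 77 := by
  induction J with
  | zero => exact fun h n t ht => ⟨t, rfl, ht⟩
  | succ J ih =>
    intro h n t ht
    rw [iniH_succ, ns_cons]
    obtain ⟨H, h1, h2⟩ := ih (h / 2 ^ 12) (n + 1)
      (fun k => if k = 0 then (h &&& 4095) * 2 ^ 65 else t (k - 1)) (by
        intro k hk
        by_cases h0 : k = 0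
        · simp only [h0, if_true]
          have : h &&& 4095 ≤ 4095 := Nat.and_le_right
          omega
        · simp only [h0, if_false]
          exact ht _ (by omega))
    have e : n + 1 + J = n + (J + 1) := by omega
    rw [e] at h1 h2
    exact ⟨H, h1, h2⟩

lemma tht_eq (sb tm ep h tp : ℕ) : tht sb tm ep h tp =
    min (max (tp + ep / 2 + 1) (tm / 2 + 1 + h * h / (sb * 2 ^ 37) + 1)) (tm / 2 + 1 + tp) := by
  unfold tht
  simp only [fN2, mn_eq, mx_eq, ad2, di2, mu2, n_shl]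

lemma fin_spec {cst vt p r tm ep H tp w : ℕ} (J : ℕ) (h : fin lx cst vt p r tm ep H tp w J = true) :
    ∀ j < J, lx.wz * rho p j + lx.om * tht lx.sb (dig tm j) (dig ep j) (dig H j) (dig tp j) + cst ≤
        rho r j * lx.z96 ∧
      lx.w22 * tau p j + lx.dd * (dig w j + vt) + lx.ex ≤ tau r j * 2 ^ 86 := by
  induction J with
  | zero => intro j hj; omega
  | succ J ih =>
    have h' : (Bool.and (Nat.ble (Nat.add (Nat.add (Nat.mul lx.wz (Nat.land (dig p J) 4722366482869645213695))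
        (Nat.mul lx.om (tht lx.sb (dig tm J) (dig ep J) (dig H J) (dig tp J)))) cst)
        (Nat.mul (Nat.land (dig r J) 4722366482869645213695) lx.z96))
        (Bool.and (Nat.ble (Nat.add (Nat.add (Nat.mul lx.w22 (Nat.shiftRight (dig p J) 72))
          (Nat.mul lx.dd (Nat.add (dig w J) vt))) lx.ex) (Nat.shiftLeft (Nat.shiftRight (dig r J) 72) 86))
          (fin lx cst vt p r tm ep H tp w J))) = true := h
    rw [Bool.and_eq_true, Bool.and_eq_true] at h'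
    obtain ⟨h1, h2, h3⟩ := h'
    have k1 := Nat.le_of_ble_eq_true h1
    have k2 := Nat.le_of_ble_eq_true h2
    have e : (4722366482869645213695 : ℕ) = 2 ^ 72 - 1 := by norm_num
    simp only [ad2, mu2, an2, n_shl, n_shr, e] at k1 k2
    intro j hj
    rcases Nat.lt_succ_iff_lt_or_eq.1 hj with hj | rfl
    · exact ih h3 j hj
    · exact ⟨k1, k2⟩

lemma cp_le {E J z : ℕ} (cs : List Ct) : ∀ x, CP a v E J z x cs → z ≤ x := by
  induction cs with
  | nil => exact fun x h => le_of_eq (Eq.symm h)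
  | cons c cs ih => exact fun x h => (ih _ h.2.2.2).trans h.2.1.le

lemma lt_div (n d : ℕ) (hd : 0 < d) : (n : ℝ) / d ≤ ((n / d : ℕ) : ℝ) + 1 := by
  have h0 : (0 : ℝ) < d := by exact_mod_cast hd
  rw [div_le_iff₀ h0]
  have := Nat.lt_div_mul_add (a := n) hd
  have h2 : (n : ℝ) ≤ ((n / d * d + d : ℕ) : ℝ) := by exact_mod_cast this.le
  push_cast at h2
  linarith

lemma tht_ok {sb tm ep h tp : ℕ} (hs : 0 < sb) :
    (tm : ℝ) / 2 ^ 85 + (tp : ℝ) / 2 ^ 84 ≤ (tht sb tm ep h tp : ℝ) / 2 ^ 84 ∨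
      (0 ≤ (h : ℝ) / 2 ^ 72 ∧ (tp : ℝ) / 2 ^ 84 + (ep : ℝ) / 2 ^ 85 ≤ (tht sb tm ep h tp : ℝ) / 2 ^ 84 ∧
        (tm : ℝ) / 2 ^ 85 + ((h : ℝ) / 2 ^ 72) ^ 2 / (2 * ((sb : ℝ) / 2 ^ 24)) ≤ (tht sb tm ep h tp : ℝ) / 2 ^ 84) := by
  rw [tht_eq]
  have a1 := lt_div tm 2 (by norm_num)
  have a2 := lt_div ep 2 (by norm_num)
  have a3 := lt_div (h * h) (sb * 2 ^ 37) (by positivity)
  have s0 : (0 : ℝ) < sb := by exact_mod_cast hs
  have e3 : ((h : ℝ) / 2 ^ 72) ^ 2 / (2 * ((sb : ℝ) / 2 ^ 24)) =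
      (((h * h : ℕ) : ℝ) / ((sb * 2 ^ 37 : ℕ) : ℝ)) / 2 ^ 84 := by
    push_cast
    field_simp
    norm_num
  rw [e3]
  generalize ((h * h : ℕ) : ℝ) / ((sb * 2 ^ 37 : ℕ) : ℝ) = Q at a3
  generalize h * h / (sb * 2 ^ 37) = Q' at a3
  generalize tm / 2 = A at a1
  generalize ep / 2 = B at a2
  have e1 : (tm : ℝ) / 2 ^ 85 = (tm : ℝ) / (2 : ℕ) / 2 ^ 84 := by push_cast; ring
  have e2 : (ep : ℝ) / 2 ^ 85 = (ep : ℝ) / (2 : ℕ) / 2 ^ 84 := by push_cast; ring
  rw [e1, e2]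
  generalize (tm : ℝ) / (2 : ℕ) = X at a1
  generalize (ep : ℝ) / (2 : ℕ) = Y at a2
  have p0 : (0 : ℝ) < 2 ^ 84 := by positivity
  rcases le_total (max (tp + B + 1) (A + 1 + Q' + 1)) (A + 1 + tp) with hc | hc
  · rw [min_eq_left hc]
    refine Or.inr ⟨by positivity, ?_, ?_⟩
    · rw [← add_div]
      refine div_le_div_of_nonneg_right ?_ p0.le
      have : ((tp + B + 1 : ℕ) : ℝ) ≤ ((max (tp + B + 1) (A + 1 + Q' + 1) : ℕ) : ℝ) := by
        exact_mod_cast le_max_left _ _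
      push_cast at this ⊢
      linarith
    · rw [← add_div]
      refine div_le_div_of_nonneg_right ?_ p0.le
      have : ((A + 1 + Q' + 1 : ℕ) : ℝ) ≤ ((max (tp + B + 1) (A + 1 + Q' + 1) : ℕ) : ℝ) := by
        exact_mod_cast le_max_right _ _
      push_cast at this ⊢
      linarith
  · rw [min_eq_right hc]
    refine Or.inl ?_
    rw [← add_div]
    refine div_le_div_of_nonneg_right ?_ p0.le
    push_cast
    linarith

lemma lev_spec (ha : a.OK) (hv : EnvOK a v) (hl : LxOK a v lx) (heb : eb < 2 ^ 72) {ex : ℝ}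
    (hex : v.ε * a.X ≤ ex) {cm cp : List Ct} {top : Ct} {x : ℕ} (hx : x ≤ 2 ^ 25) (hm : CM a v lx.E lx.J ex lx.z cm)
    (hp : CP a v lx.E lx.J lx.z x (top :: cp)) (lm : cm.length ≤ 2 ^ 16) (lp : (top :: cp).length ≤ 2 ^ 16)
    {fm : List Lv} (hf : ∀ l ∈ fm, InF lx.J eb fam l) {S h1 h2 : ℕ} {k : ℕ → ℕ → ℕ → ℕ → ℕ → ℕ → ℕ → Bool}
    (h : lev false lx cm (top :: cp) top.gb top.dq (sfx top.c2 top.n) S fm h1 h2 k = true) :
    ∃ vt tm ep H tp w, k ((lx.ee + S * lx.dT) * lx.z * 2 ^ 44) vt tm ep H tp w = true ∧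
      ∀ j < lx.J, ∀ᶠ q : ℕ in atTop, a.LN v q fam ((S : ℝ) / 2 ^ 12)
        ((tht lx.sb (dig tm j) (dig ep j) (dig H j) (dig tp j) : ℝ) / 2 ^ 84) (((dig w j + vt : ℕ) : ℝ) / 2 ^ 96) := by
  unfold lev at h
  simp only [fN2] at h
  obtain ⟨hc, h⟩ := cond_false h
  have e128 : (340282366920938463463374607431768211456 : ℕ) = 2 ^ 128 := by norm_num
  have e78 : (302231454903657293676544 : ℕ) = 2 ^ 78 := by norm_num
  rw [e128] at h
  rw [e78, Bool.and_eq_true] at hc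
  obtain ⟨c1, c2⟩ := hc
  have c1' := Nat.le_of_ble_eq_true c1
  have c2' := Nat.blt_eq.mp c2
  simp only [ad2, mu2, su2, di2, n_shl, n_shr] at h c1' c2'
  have hy0 : lx.YB ≤ lx.YB + S * lx.Tm / 2 ^ 52 := Nat.le_add_right _ _
  have hy1 : (((lx.YB + S * lx.Tm / 2 ^ 52 : ℕ) : ℝ) - lx.YB) / 2 ^ 40 ≤ (S : ℝ) / 2 ^ 12 * v.Tm := by
    rw [hl.Tm]
    have : ((S * lx.Tm / 2 ^ 52 : ℕ) : ℝ) ≤ ((S * lx.Tm : ℕ) : ℝ) / ((2 ^ 52 : ℕ) : ℝ) := Nat.cast_div_le
    generalize S * lx.Tm / 2 ^ 52 = Q at this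
    push_cast at this ⊢
    rw [add_sub_cancel_left]
    refine (div_le_div_of_nonneg_right this (by positivity)).trans_eq ?_
    ring
  generalize lx.YB + S * lx.Tm / 2 ^ 52 = yb at h c1' c2' hy0 hy1
  obtain ⟨H, hH, hH'⟩ := iniH_spec lx.J h2 0 (fun _ => 0) (by intro k hk; omega)
  have z0 : ns (fun _ => 0) 0 = 0 := ns_zero
  rw [z0, Nat.zero_add] at hH
  rw [Nat.zero_add] at hH'
  have ehh : (lx.e0 + 2 ^ 128) * lx.one - ns H lx.J = ns (fun j => lx.e0 + 2 ^ 128 - H j) lx.J := by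
    rw [hl.one, ns_mul, ns_sub]
    · exact ns_congr fun k _ => by rw [Nat.mul_one]
    · intro k hk
      have := hH' k hk
      omega
  rw [hH, ehh] at h
  have hA : AM a v fam lx.J S H lx.z 0 0 0 0 := by
    refine ⟨fun _ => 0, fun _ => 0, fun _ => 0, ns_zero.symm, ns_zero.symm, ns_zero.symm, fun j _ =>
      ⟨Nat.zero_le _, Nat.zero_le _, Nat.zero_le _, Eventually.of_forall fun q => ?_⟩⟩
    rw [← hl.z]
    simp only [Nat.cast_zero, zero_div]
    exact Sl.ma_init _ _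
  obtain ⟨tm, ep, vm, hA', h⟩ := foM_spec ha hv hl heb hf hH' hex le_rfl hm hA h
  obtain ⟨tp, vp, hP, h⟩ := foP_spec (fam := fam) (S := S) ha hv hl c2' hy0 hy1 hx hp h
  refine ⟨_, tm, ep, ns H lx.J, tp, vm + vp, h, fun j hj => ?_⟩
  obtain ⟨t, e, w, rfl, rfl, rfl, hj1⟩ := hA'
  obtain ⟨t', w', rfl, rfl, hj2⟩ := hP
  have b1 : ∀ n, n ≤ (0 + cm.length) * 2 ^ 171 → n ≤ 2 ^ 187 := fun n hn =>
    hn.trans ((Nat.mul_le_mul_right _ (show 0 + cm.length ≤ 2 ^ 16 by omega)).trans_eq (by norm_num))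
  have b2 : ∀ n, n ≤ (top :: cp).length * 2 ^ 171 → n ≤ 2 ^ 187 := fun n hn =>
    hn.trans ((Nat.mul_le_mul_right _ lp).trans_eq (by norm_num))
  have b3 : (2 : ℕ) ^ 187 + 2 ^ 187 < 2 ^ 192 := by norm_num
  have d1 : dig (ns t lx.J) j = t j := by
    rw [dig_ns (fun k hk => by have := b1 _ (hj1 k hk).1; omega), if_pos hj]
  have d2 : dig (ns e lx.J) j = e j := by
    rw [dig_ns (fun k hk => by have := b1 _ (hj1 k hk).2.1; omega), if_pos hj]
  have d3 : dig (ns H lx.J) j = H j := by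
    rw [dig_ns (fun k hk => (hH' k hk).trans (by norm_num)), if_pos hj]
  have d4 : dig (ns t' lx.J) j = t' j := by
    rw [dig_ns (fun k hk => by have := b2 _ (hj2 k hk).1; omega), if_pos hj]
  have d5 : dig (ns w lx.J + ns w' lx.J) j = w j + w' j := by
    rw [ns_add, dig_ns (fun k hk => by
      have := b1 _ (hj1 k hk).2.2.1; have := b2 _ (hj2 k hk).2.1; omega), if_pos hj]
  rw [d1, d2, d3, d4, d5]
  obtain ⟨p1, p2, p3, p4⟩ := hp
  have zl := cp_le cp _ p4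
  have s0 : (0 : ℝ) < lx.sb := by exact_mod_cast hl.sb0
  filter_upwards [(hj1 j hj).2.2.2, (hj2 j hj).2.2, env_at ha hv, p3.sq yb c1'] with q m1 m2 hq hF
  simp only [Nat.cast_zero, zero_div] at m1
  rw [p1] at hF
  have hθ := tht_ok (tm := t j) (ep := e j) (h := H j) (tp := t' j) hl.sb0
  rw [← hl.sb] at hθ
  have key := Sl.ln_of ha hv hq m1 m2 (by positivity) (x0 := (top.x0 : ℝ) / 2 ^ 12)
    (by rw [hl.z]; exact div_le_div_of_nonneg_right (by exact_mod_cast zl) (by positivity))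
    (div_le_div_of_nonneg_right (by exact_mod_cast p2.le) (by positivity))
    (by
      rw [hl.X, div_le_iff₀ (by positivity)]
      have : (x : ℝ) ≤ ((2 ^ 25 : ℕ) : ℝ) := by exact_mod_cast hx
      refine this.trans_eq ?_
      norm_num)
    (hF fam) (by
      have : (lx.YB : ℝ) = 2 ^ 30 * lx.E := by rw [hl.YB]; push_cast; ring
      rw [← this]; exact hy1) hθ
  refine key.mono hv.Δ0 ?_
  have a3 := lt_div (lx.E * (2 * dig (sfx top.c2 top.n) (yb / lx.E - top.gb) + lx.E * top.dq))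
    (lx.sb * 2 ^ 56) (Nat.mul_pos hl.sb0 (by positivity))
  rw [hl.sb]
  generalize lx.E * (2 * dig (sfx top.c2 top.n) (yb / lx.E - top.gb) + lx.E * top.dq) = N at a3 ⊢
  generalize N / (lx.sb * 2 ^ 56) = Q at a3 ⊢
  have e3 : (N : ℝ) / 2 ^ 176 / ((lx.sb : ℝ) / 2 ^ 24) = (N : ℝ) / ((lx.sb * 2 ^ 56 : ℕ) : ℝ) / 2 ^ 96 := by
    push_cast
    field_simp
    norm_num
  rw [e3, ← add_div, ← add_div]
  refine div_le_div_of_nonneg_right ?_ (by positivity)
  push_cast at a3 ⊢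
  linarith

end Lv35
open Lv35

theorem levs_spec (ha : a.OK) (hv : EnvOK a v) (hl : LxOK a v lx) (heb : eb < 2 ^ 72) {ex : ℝ}
    (hex : v.ε * a.X ≤ ex) {cm cp : List Ct} {top : Ct} {x : ℕ} (hx : x ≤ 2 ^ 25) (hm : CM a v lx.E lx.J ex lx.z cm)
    (hp : CP a v lx.E lx.J lx.z x (top :: cp)) (lm : cm.length ≤ 2 ^ 16) (lp : (top :: cp).length ≤ 2 ^ 16)
    {fm : List Lv} (hf : ∀ l ∈ fm, InF lx.J eb fam l) {hs : List (ℕ × ℕ)}
    (h : levs lx cm (top :: cp) top.gb top.dq (sfx top.c2 top.n) fm hs = true) :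
    ∀ l ∈ fm, ∀ e ∈ entL lx.J eb l, ∃ θ V, 0 ≤ θ ∧ (∀ᶠ q : ℕ in atTop, a.LN v q fam e.S θ V) ∧
      v.wu * e.ρb + (1 - v.wl) * θ / a.z + v.E + (v.cu - v.cl) + e.S * (v.Tu - v.Tl) ≤ e.ρn ∧
      v.wu * e.τb + v.Δ' * V + v.ε * a.X ≤ e.τn := by
  induction fm generalizing hs with
  | nil => intro l hl'; cases hl'
  | cons b t ih =>
    cases hs with
    | nil => exact absurd h Bool.false_ne_true
    | cons g hs =>
      have h' : Bool.and (lev false lx cm (top :: cp) top.gb top.dq (sfx top.c2 top.n) b.S (b :: t) g.1 g.2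
          fun cst vt tm ep H tp w => fin lx cst vt b.p b.r tm ep H tp w lx.J)
          (levs lx cm (top :: cp) top.gb top.dq (sfx top.c2 top.n) t hs) = true := h
      rw [Bool.and_eq_true] at h'
      obtain ⟨h1, h2⟩ := h'
      intro l hl'
      rcases List.mem_cons.1 hl' with rfl | hl'
      · obtain ⟨vt, tm, ep, H, tp, w, k1, k2⟩ := lev_spec ha hv hl heb hex hx hm hp lm lp hf h1
        intro e he
        obtain ⟨j, hj, rfl⟩ := List.mem_map.1 he
        have hj' := List.mem_range.1 hj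
        obtain ⟨f1, f2⟩ := fin_spec lx.J k1 j hj'
        refine ⟨_, _, by positivity, k2 j hj', ?_, ?_⟩
        · dsimp only
          rw [hl.z96] at f1
          generalize tht lx.sb (dig tm j) (dig ep j) (dig H j) (dig tp j) = θ at f1 ⊢
          have g1 : ((lx.wz * rho l.p j + lx.om * θ + (lx.ee + l.S * lx.dT) * lx.z * 2 ^ 44 : ℕ) : ℝ) ≤
              ((rho l.r j * (lx.z * 2 ^ 96) : ℕ) : ℝ) := by exact_mod_cast f1
          have z0 := ha.z0
          have ez : (lx.z : ℝ) = a.z * 2 ^ 12 := by rw [hl.z]; ring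
          have u1 := hl.ee
          have u2 := mul_le_mul_of_nonneg_left hl.dT (Nat.cast_nonneg (α := ℝ) l.S)
          rw [Nat.cast_add, Nat.cast_add, Nat.cast_mul, Nat.cast_mul, Nat.cast_mul, Nat.cast_mul, Nat.cast_mul,
            Nat.cast_mul, Nat.cast_add, Nat.cast_mul, hl.wz, hl.om, ez, Nat.cast_pow, Nat.cast_pow,
            Nat.cast_ofNat] at g1
          generalize (rho l.p j : ℝ) = P at g1 ⊢
          generalize (rho l.r j : ℝ) = R at g1 ⊢
          have u3 := mul_le_mul_of_nonneg_right (add_le_add u1 u2) (show 0 ≤ a.z * 2 ^ 12 * 2 ^ 44 by positivity)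
          have u4 : (v.wu * (P / 2 ^ 40) + (1 - v.wl) * ((θ : ℝ) / 2 ^ 84) / a.z + v.E + (v.cu - v.cl) +
              (l.S : ℝ) / 2 ^ 12 * (v.Tu - v.Tl)) * (a.z * 2 ^ 148) ≤ R / 2 ^ 40 * (a.z * 2 ^ 148) := by
            have e1 : (v.wu * (P / 2 ^ 40) + (1 - v.wl) * ((θ : ℝ) / 2 ^ 84) / a.z + v.E + (v.cu - v.cl) +
                (l.S : ℝ) / 2 ^ 12 * (v.Tu - v.Tl)) * (a.z * 2 ^ 148) =
                v.wu * a.z * 2 ^ 108 * P + (1 - v.wl) * 2 ^ 64 * θ +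
                ((v.E + (v.cu - v.cl)) * 2 ^ 92 + l.S * ((v.Tu - v.Tl) * 2 ^ 80)) * (a.z * 2 ^ 12 * 2 ^ 44) := by
              field_simp
              ring
            have e2 : R / 2 ^ 40 * (a.z * 2 ^ 148) = R * (a.z * 2 ^ 12 * 2 ^ 96) := by ring
            rw [e1, e2]
            refine le_trans ?_ g1
            rw [mul_assoc ((lx.ee : ℝ) + l.S * lx.dT)]
            linarith
          exact le_of_mul_le_mul_right u4 (by positivity)
        · dsimp only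
          have g1 : ((lx.w22 * tau l.p j + lx.dd * (dig w j + vt) + lx.ex : ℕ) : ℝ) ≤
              ((tau l.r j * 2 ^ 86 : ℕ) : ℝ) := by exact_mod_cast f2
          rw [Nat.cast_add, Nat.cast_add, Nat.cast_mul, Nat.cast_mul, Nat.cast_mul, hl.w22, hl.dd,
            Nat.cast_pow, Nat.cast_ofNat] at g1
          have u1 := hl.ex
          generalize ((dig w j + vt : ℕ) : ℝ) = V at g1 ⊢
          generalize (tau l.p j : ℝ) = P at g1 ⊢
          generalize (tau l.r j : ℝ) = R at g1 ⊢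
          have u4 : (v.wu * (P / 2 ^ 64) + v.Δ' * (V / 2 ^ 96) + v.ε * a.X) * 2 ^ 150 ≤ R / 2 ^ 64 * 2 ^ 150 := by
            have e1 : (v.wu * (P / 2 ^ 64) + v.Δ' * (V / 2 ^ 96) + v.ε * a.X) * 2 ^ 150 =
                v.wu * 2 ^ 86 * P + v.Δ' * 2 ^ 54 * V + v.ε * a.X * 2 ^ 150 := by ring
            have e2 : R / 2 ^ 64 * 2 ^ 150 = R * 2 ^ 86 := by ring
            rw [e1, e2]
            linarith
          exact le_of_mul_le_mul_right u4 (by positivity)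
      · exact ih (fun l hl => hf l (List.mem_cons_of_mem _ hl)) h2 l hl'

end
end Pool.Agent.MP_3bf126_pr.H21
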