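import Pool.Agent.MP_3bf126_pr.H21.Line

/-! Soundness of the line checks below the threshold. -/

namespace Pool.Agent.MP_3bf126_pr.H21
open Filter Finset K
noncomputable section

variable {a : Sl} {v : Env} {lx : Lx} {fam : List (ℝ × ℝ × ℝ)} {eb : ℕ}

lemma linM_dr {α : Type} (n : ℕ) (l : List α) : dr n l = l.drop n := by
  induction n generalizing l with
  | zero => rfl
  | succ n ih =>
    cases l with
    | nil => rfl
    | cons x t => exact ih t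

lemma linM_hd {α β : Type} (no : β) (x : α) (l : List α) (k : α → β) : hd no (x :: l) k = k x := rfl

lemma linM_fN {n m : ℕ} (h : n = m) {k : ℕ → Bool} (hk : fN n k = true) : k m = true := h ▸ hk
lemma linM_ex {n : ℕ} {k : ℕ → Bool} (hk : fN n k = true) : ∃ m, n = m ∧ k m = true := ⟨n, rfl, hk⟩
lemma linM_add (x y : ℕ) : Nat.add x y = x + y := by rw [n_add]
lemma linM_mul (x y : ℕ) : Nat.mul x y = x * y := by rw [n_mul]
lemma linM_nsub (x y : ℕ) : Nat.sub x y = x - y := by rw [n_sub]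
lemma linM_and (x y : ℕ) : Nat.land x y = x &&& y := by rw [n_and]

lemma linM_cond {j J d N u : ℕ} (h : Bool.and (Nat.blt j J) (Bool.and
    (Nat.blt (Nat.add d N) (nat_lit 1298074214633706907132624082305024))
    (Nat.blt u (nat_lit 1496577676626844588240573268701473812127674924007424))) = true) :
    j < J ∧ d + N < 2 ^ 110 ∧ u < 2 ^ 170 := by
  rw [Bool.and_eq_true, Bool.and_eq_true, Nat.blt_eq, Nat.blt_eq, Nat.blt_eq] at h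
  exact ⟨h.1, h.2.1.trans_eq (by norm_num), h.2.2.trans_eq (by norm_num)⟩

lemma linM_nil (lx : Lx) (S hh : ℕ) (fm : List Lv) (h th ep V : ℕ) (k : ℕ → ℕ → ℕ → Bool) :
    foM false lx S hh fm [] h th ep V k = k th ep V := rfl

lemma linM_cons (lx : Lx) (S hh : ℕ) (fm : List Lv) (c : Ct) (cs : List Ct) (h th ep V : ℕ)
    (k : ℕ → ℕ → ℕ → Bool) : foM false lx S hh fm (c :: cs) h th ep V k =
    K.stM false lx S hh fm c h th ep V fun th ep V =>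
      foM false lx S hh fm cs (Nat.shiftRight h (nat_lit 14)) th ep V k := rfl

lemma linM_sub (x y : ℕ) : (x : ℝ) - y ≤ ((x - y : ℕ) : ℝ) := by
  rcases le_total x y with h | h
  · have : (x : ℝ) ≤ y := by exact_mod_cast h
    have h0 : (0 : ℝ) ≤ ((x - y : ℕ) : ℝ) := Nat.cast_nonneg _
    linarith
  · rw [Nat.cast_sub h]

lemma linM_mem {J : ℕ} {l : Lv} (h : InF J eb fam l) {j : ℕ} (hj : j < J) :
    ((l.S : ℝ) / 2 ^ 12, ((max (rho l.p j) (rho l.r j) + eb : ℕ) : ℝ) / 2 ^ 40, (tau l.r j : ℝ) / 2 ^ 64) ∈ fam :=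
  h.2 _ (List.mem_map.2 ⟨j, List.mem_range.2 hj, rfl⟩)

lemma linM_eps (hl : LxOK a v lx) {S x R H : ℕ} (hx : x ≤ lx.z) (hH : H < 2 ^ 77) :
    v.e0 - (a.sb + v.Tm) * (a.z - (x : ℝ) / 2 ^ 12) - (S : ℝ) / 2 ^ 12 * v.Tm + (R : ℝ) / 2 ^ 72 - (H : ℝ) / 2 ^ 72 ≤
      ((R + (lx.e0 + 2 ^ 128 - H) - (lx.sT * (lx.z - x) + S * lx.Tm) / 2 ^ 20 - 2 ^ 128 : ℕ) : ℝ) / 2 ^ 72 := by
  have h1 : (((lx.sT * (lx.z - x) + S * lx.Tm) / 2 ^ 20 : ℕ) : ℝ) ≤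
      ((lx.sT : ℝ) * (lx.z - x) + S * lx.Tm) / 2 ^ 20 := by
    refine Nat.cast_div_le.trans (le_of_eq ?_)
    push_cast [Nat.cast_sub hx]
    norm_num
  generalize (lx.sT * (lx.z - x) + S * lx.Tm) / 2 ^ 20 = N at h1 ⊢
  have h2 : R + lx.e0 - (H + N) ≤ R + (lx.e0 + 2 ^ 128 - H) - N - 2 ^ 128 := by omega
  have h3 : ((R + lx.e0 - (H + N) : ℕ) : ℝ) ≤ ((R + (lx.e0 + 2 ^ 128 - H) - N - 2 ^ 128 : ℕ) : ℝ) := by
    exact_mod_cast h2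
  have h4 := linM_sub (R + lx.e0) (H + N)
  generalize ((R + (lx.e0 + 2 ^ 128 - H) - N - 2 ^ 128 : ℕ) : ℝ) = Y at h3 ⊢
  push_cast at h4
  rw [hl.sT, hl.Tm, hl.z]
  have := hl.e0
  have e : (lx.sT : ℝ) / 2 ^ 80 * ((lx.z : ℝ) / 2 ^ 12 - (x : ℝ) / 2 ^ 12) + (S : ℝ) / 2 ^ 12 * ((lx.Tm : ℝ) / 2 ^ 80) =
      (((lx.sT : ℝ) * (lx.z - x) + S * lx.Tm) / 2 ^ 20) / 2 ^ 72 := by ring
  have h5 : (N : ℝ) / 2 ^ 72 ≤ (((lx.sT : ℝ) * (lx.z - x) + S * lx.Tm) / 2 ^ 20) / 2 ^ 72 := by gcongr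
  have h6 : ((R : ℝ) + lx.e0 - (H + N)) / 2 ^ 72 ≤ Y / 2 ^ 72 := by gcongr; linarith
  have h7 : ((R : ℝ) + lx.e0 - (H + N)) / 2 ^ 72 =
      (R : ℝ) / 2 ^ 72 + (lx.e0 : ℝ) / 2 ^ 72 - (H : ℝ) / 2 ^ 72 - (N : ℝ) / 2 ^ 72 := by ring
  linarith

/-- one line over one cell -/
lemma linM_cell (ha : a.OK) (hv : EnvOK a v) (hl : LxOK a v lx) {S H x0 x1 t e w Sa Sb ρa ρb τa τb : ℕ}
    {a0 b0 a1 b1 wa wb dl y f : ℕ} {ω0 ω1 x' ex : ℝ} (hex : v.ε * a.X ≤ ex) (h01 : x0 < x1) (h1 : x1 ≤ lx.z)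
    (hx' : (x0 : ℝ) / 2 ^ 12 ≤ x') (hH : H < 2 ^ 77)
    (ho : a.Opt v ((S : ℝ) / 2 ^ 12) ((x0 : ℝ) / 2 ^ 12) ((x1 : ℝ) / 2 ^ 12) ((Sa : ℝ) / 2 ^ 12)
      ((Sb : ℝ) / 2 ^ 12) ω0 ω1 ((dl : ℝ) / 2 ^ 72))
    (o1 : (1 - ω0) * 2 ^ 32 ≤ a0) (o2 : ω0 * 2 ^ 32 ≤ b0) (o3 : (1 - ω1) * 2 ^ 32 ≤ a1) (o4 : ω1 * 2 ^ 32 ≤ b1)
    (o5 : ((x1 - x0 : ℕ) : ℝ) * (1 - (ω0 + ω1) / 2) * 2 ^ 20 ≤ wa)
    (o6 : ((x1 - x0 : ℕ) : ℝ) * ((ω0 + ω1) / 2) * 2 ^ 20 ≤ wb)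
    (hA : ((Sa : ℝ) / 2 ^ 12, (ρa : ℝ) / 2 ^ 40, (τa : ℝ) / 2 ^ 64) ∈ fam)
    (hB : ((Sb : ℝ) / 2 ^ 12, (ρb : ℝ) / 2 ^ 40, (τb : ℝ) / 2 ^ 64) ∈ fam)
    (hF : a.Look v (a.jm v ((x0 : ℝ) / 2 ^ 12) ((x1 : ℝ) / 2 ^ 12) x') (fun u => max u 0)
      (((y : ℝ) - 2 ^ 62 * lx.E) / 2 ^ 72) ((f : ℝ) / 2 ^ 64 - ex))
    (h : ∀ᶠ q : ℕ in atTop, a.MA v q fam ((S : ℝ) / 2 ^ 12) ((H : ℝ) / 2 ^ 72) ((x1 : ℝ) / 2 ^ 12)
      ((t : ℝ) / 2 ^ 85) ((e : ℝ) / 2 ^ 85) ((w : ℝ) / 2 ^ 96)) {T0 T1 E0 E1 t' e' w' : ℕ}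
    (hT0 : y + (a0 * ρa + b0 * ρb + dl) - lx.Y2 = T0) (hT1 : y + (a1 * ρa + b1 * ρb + dl) - lx.Y2 = T1)
    (hE0 : a0 * ρa + b0 * ρb + dl + (lx.e0 + 2 ^ 128 - H) - (lx.sT * (lx.z - x0) + S * lx.Tm) / 2 ^ 20 - 2 ^ 128 = E0)
    (hE1 : a1 * ρa + b1 * ρb + dl + (lx.e0 + 2 ^ 128 - H) - (lx.sT * (lx.z - x1) + S * lx.Tm) / 2 ^ 20 - 2 ^ 128 = E1)
    (ht : t' = t + (x1 - x0) * (T0 + T1)) (he : e' = e + (x1 - x0) * (E0 + E1))
    (hw' : w' = w + ((x1 - x0) * 2 ^ 20 * f + (wa * τa + wb * τb))) :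
    ∀ᶠ q : ℕ in atTop, a.MA v q fam ((S : ℝ) / 2 ^ 12) ((H : ℝ) / 2 ^ 72) ((x0 : ℝ) / 2 ^ 12)
      ((t' : ℝ) / 2 ^ 85) ((e' : ℝ) / 2 ^ 85) ((w' : ℝ) / 2 ^ 96) := by
  have e0 := linM_eps (S := S) (R := a0 * ρa + b0 * ρb + dl) hl (h01.le.trans h1) hH
  have e1 := linM_eps (S := S) (R := a1 * ρa + b1 * ρb + dl) hl h1 hH
  have t0 := linM_sub (y + (a0 * ρa + b0 * ρb + dl)) lx.Y2
  have t1 := linM_sub (y + (a1 * ρa + b1 * ρb + dl)) lx.Y2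
  rw [hE0] at e0
  rw [hE1] at e1
  rw [hT0] at t0
  rw [hT1] at t1
  clear hE0 hE1 hT0 hT1
  subst ht he hw'
  have hY : (lx.Y2 : ℝ) = 2 ^ 62 * lx.E := by rw [hl.Y2]; push_cast; norm_num
  rw [hY] at t0 t1
  push_cast at t0 t1 e0 e1
  have hw : ((x1 - x0 : ℕ) : ℝ) = x1 - x0 := Nat.cast_sub h01.le
  have hw0 : (0 : ℝ) ≤ ((x1 - x0 : ℕ) : ℝ) := Nat.cast_nonneg _
  have ρa0 : (0 : ℝ) ≤ ρa := Nat.cast_nonneg _
  have ρb0 : (0 : ℝ) ≤ ρb := Nat.cast_nonneg _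
  have τa0 : (0 : ℝ) ≤ τa := Nat.cast_nonneg _
  have τb0 : (0 : ℝ) ≤ τb := Nat.cast_nonneg _
  have key : ∀ (ω : ℝ) (c d : ℕ), (1 - ω) * 2 ^ 32 ≤ c → ω * 2 ^ 32 ≤ d →
      (1 - ω) * ((ρa : ℝ) / 2 ^ 40) + ω * ((ρb : ℝ) / 2 ^ 40) ≤ ((c : ℝ) * ρa + d * ρb) / 2 ^ 72 := by
    intro ω c d hc hd
    have := mul_le_mul_of_nonneg_right hc ρa0
    have := mul_le_mul_of_nonneg_right hd ρb0
    rw [le_div_iff₀ (by positivity)]
    linarith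
  filter_upwards [h, hF, env_at ha hv] with q h hF hq
  have hs := h.step ha hv hq (x0 := (x0 : ℝ) / 2 ^ 12) (θ0 := (T0 : ℝ) / 2 ^ 72) (θ1 := (T1 : ℝ) / 2 ^ 72)
    (ε0 := (E0 : ℝ) / 2 ^ 72) (ε1 := (E1 : ℝ) / 2 ^ 72) (by positivity) (by positivity)
    (by gcongr) (by rw [hl.z]; gcongr) hx' ho hA hB (by positivity) (by positivity)
    (key _ _ _ o1 o2) (key _ _ _ o3 o4) (hF fam) (by positivity) (by linarith) (by positivity) (by linarith)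
    (by positivity) (by linarith) (by positivity) (by linarith)
  refine hs.mono hv.Δ0 (le_of_eq ?_) (le_of_eq ?_) ?_
  · push_cast [hw]; ring
  · push_cast [hw]; ring
  · have k1 := mul_le_mul_of_nonneg_right o5 τa0
    have k2 := mul_le_mul_of_nonneg_right o6 τb0
    have k3 := mul_le_mul_of_nonneg_left hex hw0
    push_cast [hw] at k1 k2 k3 ⊢
    linarith

lemma linM_b1 : (nat_lit 6277101735386680763835789423207666416102355444464034512895 : ℕ) = 2 ^ 192 - 1 := by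
  norm_num

lemma linM_one {J : ℕ} (c : ℕ) : c * ns (fun _ => 1) J = ns (fun _ => c) J := by
  rw [ns_mul]; exact ns_congr fun _ _ => mul_one c

lemma linM_lin {p r m : ℕ → ℕ} {J : ℕ} (c d e : ℕ) :
    c * ns p J + d * ns r J + e * ns m J = ns (fun j => c * p j + d * r j + e * m j) J := by
  rw [ns_mul, ns_mul, ns_mul, ns_add, ns_add]

lemma linM_R {c d p r e : ℕ} (hc : c ≤ 2 ^ 33) (hd : d ≤ 2 ^ 33) (hp : p < 2 ^ 73) (hr : r < 2 ^ 73)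
    (he : e < 2 ^ 110) : c * p + d * r + e < 2 ^ 111 := by
  have h1 : c * p ≤ 2 ^ 33 * 2 ^ 73 := Nat.mul_le_mul hc hp.le
  have h2 : d * r ≤ 2 ^ 33 * 2 ^ 73 := Nat.mul_le_mul hd hr.le
  omega

lemma linM_TT {c d p r : ℕ} (hc : c ≤ 2 ^ 46) (hd : d ≤ 2 ^ 46) (hp : p < 2 ^ 120) (hr : r < 2 ^ 120) :
    c * p + d * r ≤ 2 ^ 167 := by
  have h1 : c * p ≤ 2 ^ 46 * 2 ^ 120 := Nat.mul_le_mul hc hp.le
  have h2 : d * r ≤ 2 ^ 46 * 2 ^ 120 := Nat.mul_le_mul hd hr.le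
  omega

/-- the digits of the positive part of an offset -/
lemma linM_pos1 {J Y : ℕ} {y R : ℕ → ℕ} (hY : Y ≤ 2 ^ 106) (hy : ∀ j < J, y j < 2 ^ 108) (hR : ∀ j < J, R j < 2 ^ 111) :
    pos (ns (fun _ => 1) J) (ns y J + (2 ^ 128 - Y) * ns (fun _ => 1) J + ns R J) =
      ns (fun j => y j + R j - Y) J := by
  rw [linM_one, ns_add, ns_add, pos_ns fun j hj => by have := hy j hj; have := hR j hj; omega]
  exact ns_congr fun j _ => by omega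

lemma linM_pos2 {J e0 N r : ℕ} {R H m : ℕ → ℕ} (he : e0 < 2 ^ 110) (hN : N < 2 ^ 110) (hr : r < 2 ^ 111)
    (hR : ∀ j < J, R j < 2 ^ 111) (hH : ∀ j < J, H j < 2 ^ 77) (hm : ∀ j < J, m j ≤ 1) :
    pos (ns (fun _ => 1) J) ((ns R J &&& (ns m J * (2 ^ 192 - 1))) + r * ns (fun j => 1 - m j) J +
      ns (fun j => e0 + 2 ^ 128 - H j) J - N * ns (fun _ => 1) J) =
      ns (fun j => (if m j = 0 then r else R j) + (e0 + 2 ^ 128 - H j) - N - 2 ^ 128) J := by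
  have h1 : (ns R J &&& (ns m J * (2 ^ 192 - 1))) + r * ns (fun j => 1 - m j) J =
      ns (fun j => if m j = 0 then r else R j) J := by
    rw [sel_ns (fun j hj => (hR j hj).trans (by norm_num)) hm, ns_mul, ns_add]
    refine ns_congr fun j hj => ?_
    rcases Nat.le_one_iff_eq_zero_or_eq_one.1 (hm j hj) with h | h <;> simp [h]
  have h2 : ∀ j < J, (if m j = 0 then r else R j) < 2 ^ 111 := fun j hj => by
    split_ifs
    exacts [hr, hR j hj]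
  rw [h1, ns_add, linM_one, ns_sub fun j hj => by have := hH j hj; omega,
    pos_ns fun j hj => by have := h2 j hj; omega]

lemma linM_sel {J r : ℕ} {R m : ℕ → ℕ} (hR : ∀ j < J, R j < 2 ^ 192) (hm : ∀ j < J, m j ≤ 1) :
    (ns R J &&& (ns m J * (2 ^ 192 - 1))) + r * ns (fun j => 1 - m j) J =
      ns (fun j => if m j = 0 then r else R j) J := by
  rw [sel_ns hR hm, ns_mul, ns_add]
  refine ns_congr fun j hj => ?_
  rcases Nat.le_one_iff_eq_zero_or_eq_one.1 (hm j hj) with h | h <;> simp [h]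

theorem stM_spec (ha : a.OK) (hv : EnvOK a v) (hl : LxOK a v lx) (heb : eb < 2 ^ 72) {fm : List Lv}
    (hf : ∀ l ∈ fm, InF lx.J eb fam l) {S : ℕ} {H : ℕ → ℕ} (hH : ∀ j < lx.J, H j < 2 ^ 77) {ex : ℝ}
    (hex : v.ε * a.X ≤ ex) {ct : Ct} {c h th ep V : ℕ} (hx : ct.x1 ≤ lx.z) (h01 : ct.x0 < ct.x1) {x' : ℝ}
    (hx' : (ct.x0 : ℝ) / 2 ^ 12 ≤ x')
    (hc : CtOK a v lx.E lx.J (a.jm v ((ct.x0 : ℝ) / 2 ^ 12) ((ct.x1 : ℝ) / 2 ^ 12) x') ex ct)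
    (hA : AM a v fam lx.J S H ct.x1 c th ep V) {k : ℕ → ℕ → ℕ → Bool}
    (hk : K.stM false lx S (ns (fun j => lx.e0 + 2 ^ 128 - H j) lx.J) fm ct h th ep V k = true) :
    ∃ th' ep' V', AM a v fam lx.J S H ct.x0 (c + 1) th' ep' V' ∧ k th' ep' V' = true := by
  obtain ⟨x0, x1, gb, n, c2, df, dq, qy, qf⟩ := ct
  obtain ⟨hlin, ⟨y, f, hy, hf', hq⟩, -⟩ := hc
  dsimp only at hx h01 hx' hlin hy hf' hq hA ⊢
  subst hy hf'
  obtain ⟨t, e, w, rfl, rfl, rfl, hA⟩ := hA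
  unfold K.stM at hk
  dsimp only at hk
  rw [linM_dr] at hk
  have hsub := List.drop_sublist (Nat.land h (nat_lit 31)) fm
  generalize List.drop (Nat.land h (nat_lit 31)) fm = l1 at hk hsub
  cases l1 with
  | nil => exact absurd hk Bool.false_ne_true
  | cons la l1 =>
  dsimp only at hk
  rw [fN_eq, linM_dr] at hk
  generalize Nat.land (Nat.shiftRight h (nat_lit 5)) (nat_lit 31) = db at hk
  have hsub2 := List.drop_sublist db (la :: l1)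
  have hdb : db = 0 → List.drop db (la :: l1) = la :: l1 := fun h => by rw [h]; rfl
  generalize List.drop db (la :: l1) = l2 at hk hsub2 hdb
  cases l2 with
  | nil => exact absurd hk Bool.false_ne_true
  | cons lb l2 =>
  have hla := hf la (hsub.subset List.mem_cons_self)
  have hlb := hf lb (hsub.subset (hsub2.subset List.mem_cons_self))
  have hdb' : db = 0 → lb.S = la.S := fun h => by rw [(List.cons.inj (hdb h)).1]
  have mA := fun j hj => linM_mem (j := j) hla hj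
  have mB := fun j hj => linM_mem (j := j) hlb hj
  obtain ⟨Sa, pa, ra, rma, tna⟩ := la
  obtain ⟨Sb, pb, rb, rmb, tnb⟩ := lb
  obtain ⟨⟨a1, a2⟩, -⟩ := hla
  obtain ⟨⟨b1, b2⟩, -⟩ := hlb
  dsimp only at a1 a2 b1 b2 hdb' mA mB
  subst a1 a2 b1 b2
  rw [linM_hd] at hk
  dsimp only at hk
  rw [fN_eq, fN_eq, n_sub] at hk
  generalize Nat.land (Nat.shiftRight h (nat_lit 10)) (nat_lit 15) = j0 at hk
  clear hsub hsub2 hdb
  replace hk := opt_spec ha hv hl h01 hx hdb' hk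
  obtain ⟨o, ω0, ω1, ho, o1, o2, o3, o4, o5, o6, u1, u2, u3, u4, u5, u6, hk⟩ := hk
  obtain ⟨a0, b0, a1, b1, wa, wb, dl⟩ := o
  dsimp only at ho o1 o2 o3 o4 o5 o6 u1 u2 u3 u4 u5 u6 hk
  have hρa : ∀ j, max (rho pa j) (rho ra j) + eb < 2 ^ 73 := fun j => by
    have := rho_lt pa j; have := rho_lt ra j; omega
  have hρb : ∀ j, max (rho pb j) (rho rb j) + eb < 2 ^ 73 := fun j => by
    have := rho_lt pb j; have := rho_lt rb j; omega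
  have hτa := tau_lt ra
  have hτb := tau_lt rb
  generalize tau ra = τa at *
  generalize tau rb = τb at *
  obtain ⟨ρa, hρ⟩ : ∃ ρa : ℕ → ℕ, ∀ j, max (rho pa j) (rho ra j) + eb = ρa j := ⟨_, fun _ => rfl⟩
  simp only [hρ] at hk hρa mA
  clear hρ
  obtain ⟨ρb, hρ⟩ : ∃ ρb : ℕ → ℕ, ∀ j, max (rho pb j) (rho rb j) + eb = ρb j := ⟨_, fun _ => rfl⟩
  simp only [hρ] at hk hρb mB
  clear hρ
  have hE : lx.Y2 ≤ 2 ^ 106 := by have := hl.E1; have := hl.Y2; omega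
  have hz : lx.z ≤ 2 ^ 25 := by
    have h1 := ha.zX
    rw [hl.z, hl.X, div_le_iff₀ (by positivity)] at h1
    have h2 : (lx.z : ℝ) ≤ 2 ^ 25 := by linarith
    exact_mod_cast h2
  have hw : x1 - x0 ≤ 2 ^ 25 := by omega
  obtain ⟨R0, hR0⟩ : ∃ R : ℕ → ℕ, ∀ j, a0 * ρa j + b0 * ρb j + dl = R j := ⟨_, fun _ => rfl⟩
  obtain ⟨R1, hR1⟩ : ∃ R : ℕ → ℕ, ∀ j, a1 * ρa j + b1 * ρb j + dl = R j := ⟨_, fun _ => rfl⟩
  obtain ⟨TT, hTT⟩ : ∃ R : ℕ → ℕ, ∀ j, wa * τa j + wb * τb j = R j := ⟨_, fun _ => rfl⟩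
  replace hk := linM_fN hl.one hk
  replace hk := linM_fN (n_mul _ _) hk
  replace hk := linM_fN (m := ns R0 lx.J)
    ((linM_lin a0 b0 dl).trans (ns_congr fun j _ => by rw [mul_one, hR0])) hk
  replace hk := linM_fN (m := ns R1 lx.J)
    ((linM_lin a1 b1 dl).trans (ns_congr fun j _ => by rw [mul_one, hR1])) hk
  obtain ⟨r0, hr0, hk⟩ := linM_ex hk
  obtain ⟨r1, hr1, hk⟩ := linM_ex hk
  replace hk := linM_fN rfl hk
  obtain ⟨yb, hyb, hk⟩ := linM_ex hk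
  replace hk := linM_fN (n_shl _ _) hk
  replace hk := linM_fN (m := ns TT lx.J) (by
    rw [n_add, n_mul, n_mul, ns_mul, ns_mul, ns_add]; exact ns_congr fun j _ => hTT j) hk
  obtain ⟨v0, hv0, hk⟩ := linM_ex hk
  obtain ⟨t0, ht0, hk⟩ := linM_ex hk
  replace hk := linM_fN (n_mul _ _) hk
  obtain ⟨N0, hN0, hk⟩ := linM_ex hk
  obtain ⟨hc, hk⟩ := cond_false hk
  obtain ⟨hj0, hdl, hv1⟩ := linM_cond hc
  clear hc
  have bR0 : ∀ j, R0 j < 2 ^ 111 := fun j => hR0 j ▸ linM_R u1 u2 (hρa j) (hρb j) (by omega)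
  have bR1 : ∀ j, R1 j < 2 ^ 111 := fun j => hR1 j ▸ linM_R u3 u4 (hρa j) (hρb j) (by omega)
  have bTT : ∀ j, TT j ≤ 2 ^ 167 := fun j => hTT j ▸ linM_TT u5 u6 (hτa j) (hτb j)
  rw [dig_ns (fun j _ => (bR0 j).trans (by norm_num)), if_pos hj0] at hr0
  rw [dig_ns (fun j _ => (bR1 j).trans (by norm_num)), if_pos hj0] at hr1
  rw [dig_ns (fun j _ => (bTT j).trans_lt (by norm_num)), if_pos hj0, n_add, n_mul] at hv0
  rw [n_shr, n_sub, mx_eq] at hyb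
  rw [n_mul, n_add, n_sub, n_sub, n_add, n_add, n_shl] at ht0
  rw [n_shr, n_add, n_mul, n_sub] at hN0
  obtain ⟨N1, hN1⟩ : ∃ N, (lx.sT * (lx.z - x1) + S * lx.Tm) / 2 ^ 20 = N := ⟨_, rfl⟩
  have bN1 : N1 ≤ N0 := by
    rw [← hN0, ← hN1]
    exact Nat.div_le_div_right (Nat.add_le_add_right (Nat.mul_le_mul_left _ (Nat.sub_le_sub_left h01.le _)) _)
  obtain ⟨T, hT⟩ : ∃ T : ℕ → ℕ, ∀ j, (y j + R0 j - lx.Y2) + (y j + R1 j - lx.Y2) = T j := ⟨_, fun _ => rfl⟩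
  have bT : ∀ j < lx.J, T j ≤ 2 ^ 113 := fun j hj => by
    have := (hq j hj).1; have := bR0 j; have := bR1 j; have := hT j; omega
  obtain ⟨m, hm⟩ : ∃ m : ℕ → ℕ, ∀ j, (if T j = 0 then 0 else 1) = m j := ⟨_, fun _ => rfl⟩
  have bm : ∀ j < lx.J, m j ≤ 1 := fun j _ => by rw [← hm]; split_ifs <;> omega
  have hm0 : ∀ j, m j = 0 ↔ T j = 0 := fun j => by rw [← hm]; split_ifs with h <;> simp [h]
  replace hk := linM_fN (m := ns y lx.J + (2 ^ 128 - lx.Y2) * ns (fun _ => 1) lx.J) (by rw [n_add, hl.hy, hl.one]) hk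
  replace hk := linM_fN (m := ns T lx.J) (by
    rw [n_add, n_add, n_add, linM_pos1 hE (fun j hj => (hq j hj).1) (fun j _ => bR0 j),
      linM_pos1 hE (fun j hj => (hq j hj).1) (fun j _ => bR1 j), ns_add]
    exact ns_congr fun j _ => hT j) hk
  replace hk := linM_fN (m := ns m lx.J) (by
    rw [n_and, n_shr, n_add, hl.hm, hl.one]
    exact (ind_ns fun j hj => (bT j hj).trans_lt (by norm_num)).trans (ns_congr fun j _ => hm j)) hk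
  replace hk := linM_fN (m := ns (fun j => 1 - m j) lx.J) (by rw [n_sub, ns_sub bm]) hk
  replace hk := linM_fN (m := ns m lx.J * (2 ^ 192 - 1)) (congrArg (Nat.mul _) linM_b1) hk
  replace hk := linM_fN (m := ns (fun j => t j + ((x1 - x0) * T j + t0 * (1 - m j))) lx.J) (by
    rw [n_add, n_add, n_mul, n_mul, ns_mul, ns_mul, ns_add, ns_add]) hk
  replace hk := linM_fN (m := ns (fun j => e j + (x1 - x0) *
      (((if m j = 0 then r0 else R0 j) + (lx.e0 + 2 ^ 128 - H j) - N0 - 2 ^ 128) +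
       ((if m j = 0 then r1 else R1 j) + (lx.e0 + 2 ^ 128 - H j) - N1 - 2 ^ 128))) lx.J) (by
    simp only [linM_add, linM_mul, linM_nsub, n_shr, linM_and]
    rw [show nat_lit 20 = 20 from rfl, hN1,
      linM_pos2 hl.e1 (by omega) (hr0 ▸ bR0 j0) (fun j _ => bR0 j) hH bm,
      linM_pos2 hl.e1 (by omega) (hr1 ▸ bR1 j0) (fun j _ => bR1 j) hH bm, ns_add, ns_mul, ns_add]) hk
  have bW : ∀ j < lx.J, (x1 - x0) * 2 ^ 20 * f j + TT j ≤ 2 ^ 168 := fun j hj => by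
    have h1 : (x1 - x0) * 2 ^ 20 * f j ≤ 2 ^ 25 * 2 ^ 20 * 2 ^ 121 :=
      Nat.mul_le_mul (Nat.mul_le_mul_right _ hw) (hq j hj).2.1.le
    have := bTT j
    omega
  replace hk := linM_fN
    (m := ns (fun j => w j + if m j = 0 then v0 else (x1 - x0) * 2 ^ 20 * f j + TT j) lx.J) (by
    rw [n_add, n_add, n_mul, n_and, n_add, n_mul, ns_mul, ns_add,
      linM_sel (fun j hj => (bW j hj).trans_lt (by norm_num)) bm, ns_add]) hk
  refine ⟨_, _, _, ⟨_, _, _, rfl, rfl, rfl, fun j hj => ?_⟩, hk⟩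
  clear hk
  obtain ⟨c1, c2', c3, c4⟩ := hA j hj
  have bt0 : t0 ≤ 2 ^ 25 * 2 ^ 113 := by
    rw [← ht0]
    refine Nat.mul_le_mul hw ?_
    have h1 : yb * 2 ^ 32 ≤ lx.Y2 - max r0 r1 := hyb ▸ Nat.div_mul_le_self _ _
    have := bR0 j0; have := bR1 j0
    omega
  refine ⟨?_, ?_, ?_, ?_⟩
  · have h1 : (x1 - x0) * T j ≤ 2 ^ 25 * 2 ^ 113 := Nat.mul_le_mul hw (bT j hj)
    have h2 : t0 * (1 - m j) ≤ 2 ^ 25 * 2 ^ 113 * 1 := Nat.mul_le_mul bt0 (by omega)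
    omega
  · have h1 : (if m j = 0 then r0 else R0 j) < 2 ^ 111 := by
      split_ifs
      exacts [hr0 ▸ bR0 j0, bR0 j]
    have h2 : (if m j = 0 then r1 else R1 j) < 2 ^ 111 := by
      split_ifs
      exacts [hr1 ▸ bR1 j0, bR1 j]
    generalize (if m j = 0 then r0 else R0 j) = A0 at h1 ⊢
    generalize (if m j = 0 then r1 else R1 j) = A1 at h2 ⊢
    have h3 := hl.e1
    have h4 : (x1 - x0) * ((A0 + (lx.e0 + 2 ^ 128 - H j) - N0 - 2 ^ 128) +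
        (A1 + (lx.e0 + 2 ^ 128 - H j) - N1 - 2 ^ 128)) ≤ 2 ^ 25 * 2 ^ 113 := Nat.mul_le_mul hw (by omega)
    omega
  · have := bW j hj
    split_ifs <;> omega
  · by_cases h0 : m j = 0
    · have hL := hlin yb
      have e1 : ((yb : ℝ) - 2 ^ 30 * lx.E) / 2 ^ 40 = (((yb * 2 ^ 32 : ℕ) : ℝ) - 2 ^ 62 * lx.E) / 2 ^ 72 := by
        push_cast; ring
      rw [e1] at hL
      refine linM_cell ha hv hl hex h01 hx hx' (hH j hj) ho o1 o2 o3 o4 o5 o6 (mA j0 hj0) (mB j0 hj0) hL c4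
        rfl rfl rfl rfl ?_ ?_ ?_
      · rw [(hm0 j).1 h0, h0, hR0, hR1, hr0, hr1, ← ht0, mul_zero, zero_add, Nat.sub_zero, mul_one]
      · rw [if_pos h0, if_pos h0, hR0, hR1, hr0, hr1, hN0, hN1]
      · rw [if_pos h0, hTT, ← hv0]
    · refine linM_cell ha hv hl hex h01 hx hx' (hH j hj) ho o1 o2 o3 o4 o5 o6 (mA j hj) (mB j hj) (hq j hj).2.2 c4
        rfl rfl rfl rfl ?_ ?_ ?_
      · have h1 : 1 - m j = 0 := by omega
        rw [h1, hR0, hR1, hT, mul_zero, add_zero]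
      · rw [if_neg h0, if_neg h0, hR0, hR1, hN0, hN1]
      · rw [if_neg h0, hTT]

theorem foM_spec (ha : a.OK) (hv : EnvOK a v) (hl : LxOK a v lx) (heb : eb < 2 ^ 72) {fm : List Lv}
    (hf : ∀ l ∈ fm, InF lx.J eb fam l) {S : ℕ} {H : ℕ → ℕ} (hH : ∀ j < lx.J, H j < 2 ^ 77) {ex : ℝ}
    (hex : v.ε * a.X ≤ ex) {cs : List Ct} {x c h th ep V : ℕ} (hx : x ≤ lx.z) (hc : CM a v lx.E lx.J ex x cs)
    (hA : AM a v fam lx.J S H x c th ep V) {k : ℕ → ℕ → ℕ → Bool}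
    (hk : foM false lx S (ns (fun j => lx.e0 + 2 ^ 128 - H j) lx.J) fm cs h th ep V k = true) :
    ∃ th' ep' V', AM a v fam lx.J S H 0 (c + cs.length) th' ep' V' ∧ k th' ep' V' = true := by
  induction cs generalizing x c h th ep V with
  | nil =>
    obtain rfl : x = 0 := hc
    exact ⟨th, ep, V, hA, (linM_nil _ _ _ _ _ _ _ _ _).symm.trans hk⟩
  | cons ct cs ih =>
    obtain ⟨rfl, h01, ⟨x', hx', hct⟩, hc⟩ := hc
    rw [linM_cons] at hk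
    obtain ⟨th', ep', V', hA', hk'⟩ := stM_spec ha hv hl heb hf hH hex hx h01 hx' hct hA hk
    have := ih (h01.le.trans hx) hc hA' hk'
    rwa [add_assoc, add_comm 1] at this

end
end Pool.Agent.MP_3bf126_pr.H21
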