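import Pool.Agent.MP_3bf126_pr.H21.Slab
import Pool.Agent.MP_3bf126_pr.H21.Conv

/-! The pointwise bound on the regret rate, cell by cell. -/

namespace Pool.Agent.MP_3bf126_pr.H21
open MeasureTheory Set Filter Pool.Agent.MP_3bf126_pr.H40
open scoped ENNReal
noncomputable section
namespace Sl
variable {a : Sl} {v : Env} {q : ℕ} {fam : List (ℝ × ℝ × ℝ)}

namespace Pt

lemma phi_nn (ha : a.OK) (hq : a.At v q) (i : ℕ) (u : ℝ) : 0 ≤ a.φ q i u :=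
  add_nonneg (mul_nonneg (hq.w0 i) (ha.φ0 u)) (mul_nonneg (sub_nonneg.2 (hq.w1 i))
    (div_nonneg (le_max_right _ _) ha.z0.le))

lemma phi_anti (ha : a.OK) (hq : a.At v q) (i : ℕ) {x y : ℝ} (h : x ≤ y) : a.φ q i y ≤ a.φ q i x :=
  add_le_add (mul_le_mul_of_nonneg_left (ha.φa h) (hq.w0 i))
    (mul_le_mul_of_nonneg_left (div_le_div_of_nonneg_right
      (max_le_max (by linarith) le_rfl) ha.z0.le) (sub_nonneg.2 (hq.w1 i)))

lemma sb_pos (ha : a.OK) : 0 < a.sb := by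
  have h1 := ha.D0
  have h2 := ha.σ0
  unfold Sl.sb
  exact div_pos (by exact_mod_cast (by omega : 0 < a.σ + a.e)) (by exact_mod_cast h1)

lemma S0_pos (ha : a.OK) (hq : a.At v q) : 0 < a.S0 q := Surv_pos hq.ok (Sb.zok0 ha q)

lemma sum_mix {p : Par} {f g βa βb : ℝ → ℝ} {l e : ℝ}
    (h : ∀ u, 0 ≤ u → u ≤ p.X → f u - g u ≤ l * βa u + (1 - l) * βb u + e) {ξ : List ℝ} (hξ : Good p ξ) :
    (ξ.map f).sum - (ξ.map g).sum ≤ l * (ξ.map βa).sum + (1 - l) * (ξ.map βb).sum + e * ξ.length := by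
  induction ξ with
  | nil => simp
  | cons x ξ ih =>
    have h1 := ih fun y hy => hξ y (List.mem_cons_of_mem _ hy)
    have h2 := hξ x List.mem_cons_self
    have h3 := h x h2.1 h2.2
    simp only [List.map_cons, List.sum_cons, List.length_cons]
    push_cast
    linarith

lemma wts {x0 x1 x : ℝ} (h01 : x0 < x1) (h0 : x0 ≤ x) (h1 : x ≤ x1) :
    0 ≤ (x1 - x) / (x1 - x0) ∧ 0 ≤ (x - x0) / (x1 - x0) ∧
      (x1 - x) / (x1 - x0) + (x - x0) / (x1 - x0) = 1 ∧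
      (x1 - x) / (x1 - x0) * x0 + (x - x0) / (x1 - x0) * x1 = x := by
  have hd : 0 < x1 - x0 := sub_pos.2 h01
  refine ⟨div_nonneg (by linarith) hd.le, div_nonneg (by linarith) hd.le, ?_, ?_⟩
  · field_simp
    ring
  · field_simp
    ring

lemma tri {G m L b : ℝ} (hG : 0 ≤ G) (hm : 0 < m) (hLb : L ≤ b) :
    ∫ x in L..b, max (G - m * (x - L)) 0 ≤ G ^ 2 / (2 * m) := by
  obtain ⟨M, hM⟩ : ∃ M, M = min b (L + G / m) := ⟨_, rfl⟩
  have hG' : 0 ≤ G / m := div_nonneg hG hm.le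
  have e : m * (G / m) = G := by field_simp
  have h1 : L ≤ M := hM ▸ le_min hLb (by linarith)
  have h2 : M ≤ b := hM ▸ min_le_left _ _
  have h3 : M ≤ L + G / m := hM ▸ min_le_right _ _
  have a1 : HasI (fun x => max (G - m * (x - L)) 0) L M _ :=
    (hasI_lin (G + m * L) (-m) L M).congr h1 fun x _ hx => by
      have := mul_le_mul_of_nonneg_left (show x - L ≤ G / m by linarith) hm.le
      rw [max_eq_left (by linarith)]
      ring
  have a2 : HasI (fun x => max (G - m * (x - L)) 0) M b _ :=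
    (hasI_const 0 M b).congr h2 fun x hx hb => by
      have h4 : L + G / m ≤ x := by
        rcases min_choice b (L + G / m) with h | h
        · rw [h] at hM
          linarith
        · rw [h] at hM
          linarith
      have := mul_le_mul_of_nonneg_left (show G / m ≤ x - L by linarith) hm.le
      rw [max_eq_right (by linarith)]
  rw [(a1.trans a2).2, le_div_iff₀ (by positivity)]
  nlinarith [sq_nonneg (G - m * (M - L))]

lemma tail (ha : a.OK) (hq : a.At v q) (i : ℕ) (S : ℝ) (ξ : List ℝ) {L : ℝ} (hL : L ≤ a.X) :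
    (∫ x in L..a.X, a.pl q i S ξ x) +
      ∫ x in a.X..(a.p q).n, max (a.el q i S ξ - acc (a.s q i) ξ x) 0 ≤
      (max (a.el q i S ξ + a.φ q i L - acc (a.s q i) ξ L) 0) ^ 2 / (2 * a.sb) := by
  obtain ⟨G, hG⟩ : ∃ G, G = max (a.el q i S ξ + a.φ q i L - acc (a.s q i) ξ L) 0 := ⟨_, rfl⟩
  have G0 : 0 ≤ G := hG ▸ le_max_right _ _
  have G1 : a.el q i S ξ + a.φ q i L - acc (a.s q i) ξ L ≤ G := hG ▸ le_max_left _ _
  have hXn : a.X ≤ (a.p q).n := hq.ok.Xn.le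
  have hc : ∀ u w : ℝ, IntervalIntegrable (fun x => max (G - a.sb * (x - L)) 0) volume u w :=
    fun u w => Continuous.intervalIntegrable (by fun_prop) u w
  have key : ∀ x, L ≤ x → acc (a.s q i) ξ L + a.sb * (x - L) ≤ acc (a.s q i) ξ x := fun x hx => by
    have h1 := cl_mono ξ hx
    have h2 := mul_le_mul_of_nonneg_right (hq.sb i) (sub_nonneg.2 hx)
    unfold acc
    linarith
  have b1 : ∫ x in L..a.X, a.pl q i S ξ x ≤ ∫ x in L..a.X, max (G - a.sb * (x - L)) 0 :=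
    intervalIntegral.integral_mono_on hL
      (plus_int hq.ok (Sb.φ_cont ha q i) (a.el q i S ξ) (a.e * q + i) ξ L a.X) (hc _ _) fun x hx =>
        max_le_max (by linarith [key x hx.1, phi_anti ha hq i hx.1]) le_rfl
  have b2 : ∫ x in a.X..(a.p q).n, max (a.el q i S ξ - acc (a.s q i) ξ x) 0 ≤
      ∫ x in a.X..(a.p q).n, max (G - a.sb * (x - L)) 0 :=
    intervalIntegral.integral_mono_on hXn
      (Md.ii_max ((Md.ii_const _ _ _).sub (Md.acc_ii hq.ok (a.e * q + i) ξ _ _)) (Md.ii_const 0 _ _))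
      (hc _ _) fun x hx =>
        max_le_max (by linarith [key x (hL.trans hx.1), phi_nn ha hq i L]) le_rfl
  rw [← hG]
  refine (add_le_add b1 b2).trans ?_
  rw [intervalIntegral.integral_add_adjacent_intervals (hc _ _) (hc _ _)]
  exact tri G0 (sb_pos ha) (hL.trans hXn)

lemma sum_sub (f g : ℝ → ℝ) (ξ : List ℝ) :
    (ξ.map fun x => f x - g x).sum = (ξ.map f).sum - (ξ.map g).sum := by
  induction ξ with
  | nil => simp
  | cons x ξ ih =>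
    simp only [List.map_cons, List.sum_cons, ih]
    ring

lemma sum_m (φ : ℝ → ℝ) (ξ : List ℝ) (x : ℝ) :
    (ξ.map fun u => (if u < x then (1 : ℝ) else 0) - φ u).sum = cl ξ x - (ξ.map φ).sum :=
  sum_sub _ _ ξ

lemma sum_p (φ : ℝ → ℝ) (ξ : List ℝ) (x : ℝ) :
    (ξ.map fun u => φ u - (if u < x then (1 : ℝ) else 0)).sum = (ξ.map φ).sum - cl ξ x :=
  sum_sub _ _ ξ

lemma meas_cl (x : ℝ) : Meas fun ξ => cl ξ x :=
  Meas.mapsum (Measurable.ite measurableSet_Iio measurable_const measurable_const)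

lemma below (hq : a.At v q) (hε : 0 ≤ v.ε) {i : ℕ} (hi : i ≤ a.d * q) {ξ : List ℝ} (hξ : Good (a.p q) ξ)
    {x : ℝ} (hx : 0 ≤ x) :
    cl ξ x - (ξ.map (a.φ q i)).sum + (a.s q i + a.T q i) * x - a.c q i ≤
      a.l q i * (cl ξ x - (ξ.map v.φu).sum + ((a.sa + v.Tu) * x - v.cl)) +
      (1 - a.l q i) * (cl ξ x - (ξ.map a.φb).sum + ((a.sb + a.Tb) * x - a.cb)) + v.ε * ξ.length := by
  have h1 := sum_mix (p := a.p q) (f := fun u => if u < x then (1 : ℝ) else 0) (g := a.φ q i)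
    (βa := fun u => (if u < x then (1 : ℝ) else 0) - v.φu u)
    (βb := fun u => (if u < x then (1 : ℝ) else 0) - a.φb u) (l := a.l q i) (e := v.ε) (fun u h0 h1 => by
      have h2 := hq.φl i hi u h0 h1
      have h3 := mul_le_mul_of_nonneg_right (hq.l1 i hi) hε
      linarith) hξ
  rw [sum_m, sum_m] at h1
  have h2 := mul_le_mul_of_nonneg_right (hq.sT i hi) hx
  have h3 := hq.cl i hi
  have h4 : (ξ.map fun u => if u < x then (1 : ℝ) else 0).sum = cl ξ x := rfl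
  linarith

lemma above (hq : a.At v q) {i : ℕ} (hi : i ≤ a.d * q) {ξ : List ℝ} (hξ : Good (a.p q) ξ) {S : ℝ}
    (hS : 0 ≤ S) {x : ℝ} (hx : 0 ≤ x) (hX : x ≤ a.X) :
    a.el q i S ξ + a.φ q i x - acc (a.s q i) ξ x ≤
      a.l q i * ((ξ.map v.φu).sum - cl ξ x + (v.cu + v.φu x - 1 - a.sa * x + v.k * x)) +
      (1 - a.l q i) * ((ξ.map a.φb).sum - cl ξ x + (a.cb + a.φb x - 1 - a.sb * x + v.k * x)) -
      S * v.Tm := by
  have h1 := sum_mix (p := a.p q) (g := fun u => if u < x then (1 : ℝ) else 0) (f := a.φ q i)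
    (βa := fun u => v.φu u - (if u < x then (1 : ℝ) else 0))
    (βb := fun u => a.φb u - (if u < x then (1 : ℝ) else 0)) (l := a.l q i) (e := 0) (fun u h0 h1 => by
      have h2 := hq.φu i hi u h0 h1
      linarith) hξ
  rw [sum_p, sum_p] at h1
  have h2 := mul_le_mul_of_nonneg_right (hq.sl i hi) hx
  have h3 := hq.cu i hi
  have h4 := hq.φu i hi x hx hX
  have h5 := mul_le_mul_of_nonneg_left (hq.Tm i hi) hS
  have h6 : (ξ.map fun u => if u < x then (1 : ℝ) else 0).sum = cl ξ x := rfl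
  unfold el ell acc
  linarith

lemma two {l A B A' B' y : ℝ} (l0 : 0 ≤ l) (l1 : l ≤ 1) (hA : A - y ≤ A') (hB : B - y ≤ B') :
    l * A + (1 - l) * B - y ≤ l * max A' 0 + (1 - l) * max B' 0 := by
  have h1 := mul_le_mul_of_nonneg_left (hA.trans (le_max_left A' 0)) l0
  have h2 := mul_le_mul_of_nonneg_left (hB.trans (le_max_left B' 0)) (sub_nonneg.2 l1)
  linarith

lemma int_chord' {g G : ℝ → ℝ} {x0 x1 u w : ℝ} (h01 : x0 < x1) (hg : IntervalIntegrable g volume x0 x1)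
    (hG : IntervalIntegrable G volume x0 x1)
    (h : ∀ x, x0 < x → x < x1 → g x ≤ G x + ((x1 - x) / (x1 - x0) * u + (x - x0) / (x1 - x0) * w)) :
    ∫ x in x0..x1, g x ≤ (∫ x in x0..x1, G x) + (x1 - x0) * ((u + w) / 2) := by
  have h1 := int_chord (g := fun x => g x - G x) (u := u) (v := w) h01 (hg.sub hG)
    fun x h0 h1 => sub_le_iff_le_add'.2 (h x h0 h1)
  rw [intervalIntegral.integral_sub hg hG] at h1
  linarith

lemma int_two {g1 g2 : ℝ → ℝ} {x0 x1 : ℝ} (l : ℝ) (h1 : IntervalIntegrable g1 volume x0 x1)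
    (h2 : IntervalIntegrable g2 volume x0 x1) :
    IntervalIntegrable (fun x => l * g1 x + (1 - l) * g2 x) volume x0 x1 ∧
      ∫ x in x0..x1, (l * g1 x + (1 - l) * g2 x) =
        (l * ∫ x in x0..x1, g1 x) + (1 - l) * ∫ x in x0..x1, g2 x :=
  ⟨(h1.const_mul l).add (h2.const_mul _), by
    rw [intervalIntegral.integral_add (h1.const_mul l) (h2.const_mul _),
      intervalIntegral.integral_const_mul, intervalIntegral.integral_const_mul]⟩

lemma mz_two {p : Par} {zs : List ℝ} {l : ℝ} {I1 I2 J1 J2 B : List ℝ → ℝ} (l0 : 0 ≤ l) (l1 : l ≤ 1)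
    (mI : Meas I1) (mJ : Meas J1) (n1 : ∀ ξ, 0 ≤ J1 ξ) (n2 : ∀ ξ, 0 ≤ J2 ξ)
    (h1 : Mz p zs (fun ξ => ENNReal.ofReal (I1 ξ)) ≤ Mz p zs fun ξ => ENNReal.ofReal (J1 ξ))
    (h2 : Mz p zs (fun ξ => ENNReal.ofReal (I2 ξ)) ≤ Mz p zs fun ξ => ENNReal.ofReal (J2 ξ))
    (hB : ∀ ξ, l * J1 ξ + (1 - l) * J2 ξ ≤ B ξ) :
    Mz p zs (fun ξ => ENNReal.ofReal (l * I1 ξ + (1 - l) * I2 ξ)) ≤
      Mz p zs fun ξ => ENNReal.ofReal (B ξ) := by
  have l2 : 0 ≤ 1 - l := sub_nonneg.2 l1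
  have e : ∀ {K1 : List ℝ → ℝ} (K2 : List ℝ → ℝ), Meas K1 →
      Mz p zs (fun ξ => ENNReal.ofReal l * ENNReal.ofReal (K1 ξ) +
        ENNReal.ofReal (1 - l) * ENNReal.ofReal (K2 ξ)) =
      ENNReal.ofReal l * Mz p zs (fun ξ => ENNReal.ofReal (K1 ξ)) +
        ENNReal.ofReal (1 - l) * Mz p zs fun ξ => ENNReal.ofReal (K2 ξ) := fun K2 hK => by
    rw [Mz_add zs (fun α _ f hf => (hK α f hf).ennreal_ofReal.const_mul _), Mz_smul, Mz_smul]
  refine le_trans (Mz_mono' zs (g := fun ξ => ENNReal.ofReal l * ENNReal.ofReal (I1 ξ) +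
    ENNReal.ofReal (1 - l) * ENNReal.ofReal (I2 ξ)) fun ξ => ?_) ?_
  · rw [← ENNReal.ofReal_mul l0, ← ENNReal.ofReal_mul l2]
    exact ENNReal.ofReal_add_le
  · rw [e I2 mI]
    refine (add_le_add (mul_le_mul_right h1 _) (mul_le_mul_right h2 _)).trans ?_
    rw [← e J2 mJ]
    refine Mz_mono' zs fun ξ => ?_
    rw [← ENNReal.ofReal_mul l0, ← ENNReal.ofReal_mul l2,
      ← ENNReal.ofReal_add (mul_nonneg l0 (n1 ξ)) (mul_nonneg l2 (n2 ξ))]
    exact ENNReal.ofReal_le_ofReal (hB ξ)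

lemma meas_pos {f : List ℝ → ℝ} (hf : Meas f) : Meas fun ξ => max (f ξ) 0 :=
  hf.comp (g := fun u => max u 0) (measurable_id.max measurable_const)

lemma meas_avg {f g : List ℝ → ℝ} (hf : Meas f) (hg : Meas g) (c : ℝ) :
    Meas fun ξ => c * ((max (f ξ) 0 + max (g ξ) 0) / 2) :=
  ((meas_pos hf).add (meas_pos hg)).comp (g := fun u => c * (u / 2)) (by fun_prop)

lemma zs_le (ha : a.OK) (q i : ℕ) : ∀ z ∈ a.zs q i, z ≤ a.z := by
  intro z hz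
  rcases List.mem_append.1 hz with hz | hz
  · exact (List.eq_of_mem_replicate hz).le
  · obtain ⟨l, hl, hz⟩ := List.mem_flatten.1 hz
    obtain ⟨b, hb, rfl⟩ := List.mem_map.1 hl
    rw [List.eq_of_mem_replicate hz]
    exact (ha.pz b hb).2

lemma sb_le_sa : a.sb ≤ a.sa := by
  unfold Sl.sb Sl.sa
  exact div_le_div_of_nonneg_right (by exact_mod_cast Nat.le_add_right _ _) (Nat.cast_nonneg _)

/-- the cell functional below the threshold -/
def IM (φ : ℝ → ℝ) (x0 x1 l0 l1 : ℝ) (ξ : List ℝ) : ℝ :=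
  ∫ x in x0..x1, max (cl ξ x - (ξ.map φ).sum + ((x1 - x) * l0 + (x - x0) * l1) / (x1 - x0)) 0

/-- the cell functional above the threshold -/
def IP (φ : ℝ → ℝ) (x0 x1 l0 l1 : ℝ) (ξ : List ℝ) : ℝ :=
  ∫ x in x0..x1, max ((ξ.map φ).sum - cl ξ x + ((x1 - x) * l0 + (x - x0) * l1) / (x1 - x0)) 0

lemma meas_IM {φ : ℝ → ℝ} (hφ : Continuous φ) (x0 x1 l0 l1 : ℝ) : Meas (IM φ x0 x1 l0 l1) :=
  meas_cellM (h := fun u => max u 0) (L := fun x => ((x1 - x) * l0 + (x - x0) * l1) / (x1 - x0))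
    tf_pos.continuous hφ (by fun_prop) x0 x1

lemma meas_IP {φ : ℝ → ℝ} (hφ : Continuous φ) (x0 x1 l0 l1 : ℝ) : Meas (IP φ x0 x1 l0 l1) :=
  meas_cellP (h := fun u => max u 0) (L := fun x => ((x1 - x) * l0 + (x - x0) * l1) / (x1 - x0))
    tf_pos.continuous hφ (by fun_prop) x0 x1

lemma IM_nn (φ : ℝ → ℝ) {x0 x1 : ℝ} (h : x0 ≤ x1) (l0 l1 : ℝ) (ξ : List ℝ) : 0 ≤ IM φ x0 x1 l0 l1 ξ :=
  intervalIntegral.integral_nonneg h fun _ _ => le_max_right _ _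

lemma IP_nn (φ : ℝ → ℝ) {x0 x1 : ℝ} (h : x0 ≤ x1) (l0 l1 : ℝ) (ξ : List ℝ) : 0 ≤ IP φ x0 x1 l0 l1 ξ :=
  intervalIntegral.integral_nonneg h fun _ _ => le_max_right _ _

lemma ii_M (ξ : List ℝ) (c x0 x1 l0 l1 : ℝ) : IntervalIntegrable
    (fun x => max (cl ξ x - c + ((x1 - x) * l0 + (x - x0) * l1) / (x1 - x0)) 0) volume x0 x1 :=
  int_cellM (h := fun u => max u 0) (L := fun x => ((x1 - x) * l0 + (x - x0) * l1) / (x1 - x0))
    tf_pos.continuous (by fun_prop) ξ c x0 x1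

lemma ii_P (ξ : List ℝ) (c x0 x1 l0 l1 : ℝ) : IntervalIntegrable
    (fun x => max (c - cl ξ x + ((x1 - x) * l0 + (x - x0) * l1) / (x1 - x0)) 0) volume x0 x1 :=
  int_cellP (h := fun u => max u 0) (L := fun x => ((x1 - x) * l0 + (x - x0) * l1) / (x1 - x0))
    tf_pos.continuous (by fun_prop) ξ c x0 x1

lemma cell (hq : a.At v q) {S x0 x1 Sa Sb ω0 ω1 Dl ρa ρb ρ0 ρ1 κ0 κ1 : ℝ} {G : ℝ → ℝ} (h01 : x0 < x1)
    (ho : a.Opt v S x0 x1 Sa Sb ω0 ω1 Dl)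
    (hρ0 : (1 - ω0) * ρa + ω0 * ρb ≤ ρ0) (hρ1 : (1 - ω1) * ρa + ω1 * ρb ≤ ρ1)
    {i : ℕ} (hi : i < a.d * q) {ξ : List ℝ} (hξ : Good (a.p q) ξ) (h0 : 0 ≤ κ0) (h1 : 0 ≤ κ1)
    (hG : IntervalIntegrable G volume x0 x1) (G0 : ∀ x, 0 ≤ G x)
    (h : ∀ x, x0 < x → x < x1 →
      cl ξ x - (ξ.map (a.φ q i)).sum + (a.s q i + a.T q i) * x - a.c q i + Dl +
        ((x1 - x) / (x1 - x0) * ρ0 + (x - x0) / (x1 - x0) * ρ1) ≤
        G x + ((x1 - x) / (x1 - x0) * κ0 + (x - x0) / (x1 - x0) * κ1)) :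
    ∫ x in x0..x1, a.mi q i S ξ x ≤ (∫ x in x0..x1, G x) + (x1 - x0) * ((κ0 + κ1) / 2 +
      ((1 - (ω0 + ω1) / 2) * max (a.R q i Sa ξ - ρa) 0 + (ω0 + ω1) / 2 * max (a.R q i Sb ξ - ρb) 0)) := by
  obtain ⟨a0, a1, b0, b1, ho⟩ := ho
  obtain ⟨Ma, hMa⟩ : ∃ M, M = max (a.R q i Sa ξ - ρa) 0 := ⟨_, rfl⟩
  obtain ⟨Mb, hMb⟩ : ∃ M, M = max (a.R q i Sb ξ - ρb) 0 := ⟨_, rfl⟩
  have Ma0 : 0 ≤ Ma := hMa ▸ le_max_right _ _
  have Mb0 : 0 ≤ Mb := hMb ▸ le_max_right _ _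
  have Ma1 : a.R q i Sa ξ ≤ ρa + Ma := by
    have := le_max_left (a.R q i Sa ξ - ρa) 0
    linarith
  have Mb1 : a.R q i Sb ξ ≤ ρb + Mb := by
    have := le_max_left (a.R q i Sb ξ - ρb) 0
    linarith
  rw [← hMa, ← hMb]
  refine (int_chord' (u := κ0 + ((1 - ω0) * Ma + ω0 * Mb)) (w := κ1 + ((1 - ω1) * Ma + ω1 * Mb))
    h01 (minus_int hq.ok S (a.e * q + i) ξ x0 x1) hG fun x hx0 hx1 => ?_).trans_eq (by ring)
  obtain ⟨w0, w1, w2, -⟩ := wts h01 hx0.le hx1.le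
  have h2 := ho q hq i hi ξ hξ x hx0 hx1.le
  have h3 := h x hx0 hx1
  have e : ((x1 - x) * ω0 + (x - x0) * ω1) / (x1 - x0) =
      (x1 - x) / (x1 - x0) * ω0 + (x - x0) / (x1 - x0) * ω1 := by ring
  rw [e] at h2
  generalize (x1 - x) / (x1 - x0) = α at *
  generalize (x - x0) / (x1 - x0) = β at *
  obtain rfl : β = 1 - α := by linarith
  have c0 := mul_nonneg w0 (add_nonneg h0
    (add_nonneg (mul_nonneg (sub_nonneg.2 a1) Ma0) (mul_nonneg a0 Mb0)))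
  have c1 := mul_nonneg w1 (add_nonneg h1
    (add_nonneg (mul_nonneg (sub_nonneg.2 b1) Ma0) (mul_nonneg b0 Mb0)))
  refine max_le ?_ (add_nonneg (G0 x) (add_nonneg c0 c1))
  have o0 : 0 ≤ α * ω0 + (1 - α) * ω1 := add_nonneg (mul_nonneg w0 a0) (mul_nonneg w1 b0)
  have o1 : 0 ≤ 1 - (α * ω0 + (1 - α) * ω1) := by
    have := add_nonneg (mul_nonneg w0 (sub_nonneg.2 a1)) (mul_nonneg w1 (sub_nonneg.2 b1))
    linarith
  have d1 := mul_le_mul_of_nonneg_left Ma1 o1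
  have d2 := mul_le_mul_of_nonneg_left Mb1 o0
  have d3 := mul_le_mul_of_nonneg_left hρ0 w0
  have d4 := mul_le_mul_of_nonneg_left hρ1 w1
  refine h2.trans ?_
  linarith

end Pt
open Pt

lemma cost_zero : a.Cost v q fam (fun _ _ => 0) 0 :=
  ⟨fun _ => 0, by simp, fun i _ => ⟨le_rfl, Meas.const 0, fun _ => le_rfl, fun _ => by
    simp [Ψ, Mz_zero]⟩⟩
lemma Cost.add {B B' : ℕ → List ℝ → ℝ} {V V' : ℝ} (ha : a.OK) (hq : a.At v q) (h : a.Cost v q fam B V)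
    (h' : a.Cost v q fam B' V') : a.Cost v q fam (fun i ξ => B i ξ + B' i ξ) (V + V') := by
  obtain ⟨f, f1, f2⟩ := h
  obtain ⟨g, g1, g2⟩ := h'
  refine ⟨fun i => f i + g i, ?_, fun i hi => ?_⟩
  · simp only [add_div, Finset.sum_add_distrib, mul_add]
    exact add_le_add f1 g1
  · obtain ⟨b1, b2, b3, b4⟩ := f2 i hi
    obtain ⟨c1, c2, c3, c4⟩ := g2 i hi
    refine ⟨add_nonneg b1 c1, b2.add c2, fun ξ => add_nonneg (b3 ξ) (c3 ξ), fun hH => ?_⟩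
    have s0 := (S0_pos ha hq).le
    rw [mul_add, ENNReal.ofReal_add (mul_nonneg s0 b1) (mul_nonneg s0 c1)]
    refine le_trans ?_ (add_le_add (b4 hH) (c4 hH))
    unfold Ψ
    rw [← Mz_add _ b2.ofReal]
    exact Mz_mono' _ fun ξ => ENNReal.ofReal_add_le
lemma Cost.smul {B : ℕ → List ℝ → ℝ} {V c : ℝ} (ha : a.OK) (hq : a.At v q) (hc : 0 ≤ c) (h : a.Cost v q fam B V) :
    a.Cost v q fam (fun i ξ => c * B i ξ) (c * V) := by
  have _ := S0_pos ha hq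
  obtain ⟨f, f1, f2⟩ := h
  refine ⟨fun i => c * f i, ?_, fun i hi => ?_⟩
  · simp only [mul_div_assoc, ← Finset.mul_sum]
    rw [mul_left_comm]
    exact mul_le_mul_of_nonneg_left f1 hc
  · obtain ⟨b1, b2, b3, b4⟩ := f2 i hi
    refine ⟨mul_nonneg hc b1, b2.comp (measurable_const_mul c), fun ξ => mul_nonneg hc (b3 ξ),
      fun hH => ?_⟩
    rw [mul_left_comm, ENNReal.ofReal_mul hc]
    refine le_trans (le_of_eq ?_) (mul_le_mul_right (b4 hH) _)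
    unfold Ψ
    rw [← Mz_smul]
    simp only [ENNReal.ofReal_mul hc]
lemma Cost.of_le {B B' : ℕ → List ℝ → ℝ} {V : ℝ} (h : a.Cost v q fam B V)
    (h' : ∀ i < a.d * q, Meas (B' i) ∧ (∀ ξ, 0 ≤ B' i ξ) ∧ a.Ψ q i (B' i) ≤ a.Ψ q i (B i)) :
    a.Cost v q fam B' V := by
  obtain ⟨f, f1, f2⟩ := h
  exact ⟨f, f1, fun i hi => ⟨(f2 i hi).1, (h' i hi).1, (h' i hi).2.1,
    fun hH => (h' i hi).2.2.trans ((f2 i hi).2.2.2 hH)⟩⟩
lemma cost_tau (ha : a.OK) (hq : a.At v q) {S ρ τ : ℝ} (ht : (S, ρ, τ) ∈ fam) (hτ : 0 ≤ τ) :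
    a.Cost v q fam (fun i ξ => max (a.R q i S ξ - ρ) 0) τ := by
  refine ⟨fun _ => τ, ?_, fun i _ => ⟨hτ, ((Sb.meas_R ha q i S).sub (Meas.const ρ)).comp
    (g := fun u => max u 0) (measurable_id.max measurable_const), fun _ => le_max_right _ _,
    fun hH => ?_⟩⟩
  · rw [Finset.sum_const, Finset.card_range, nsmul_eq_mul, ← mul_div_assoc, mul_div_right_comm]
    exact mul_le_mul_of_nonneg_right hq.Δ2 hτ
  · refine le_trans (le_of_eq ?_) (hH _ ht)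
    unfold Ψ
    congr 1
    funext ξ
    simp

lemma cost_len (ha : a.OK) (hq : a.At v q) : a.Cost v q fam (fun _ ξ => (ξ.length : ℝ)) a.X := by
  have X0 : 0 ≤ a.X := ha.z0.le.trans ha.zX
  refine ⟨fun _ => a.X, ?_, fun i _ => ⟨X0, fun α _ f _ => by simp, fun _ => Nat.cast_nonneg _,
    fun _ => ?_⟩⟩
  · rw [Finset.sum_const, Finset.card_range, nsmul_eq_mul, ← mul_div_assoc, mul_div_right_comm]
    exact mul_le_mul_of_nonneg_right hq.Δ2 X0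
  · refine (Mz_len hq.ok (Sb.zok ha q i)).trans (ENNReal.ofReal_le_ofReal ?_)
    have hn : 0 < a.n q := hq.ok.n0
    have s0 := (S0_pos ha hq).le
    have e1 : Surv (a.p q) (a.zs q i) = a.w q (a.d * q - i) * a.S0 q := by
      simp only [Surv, zs, S0, w, sv, List.map_append, List.map_replicate, List.prod_append,
        List.prod_replicate]
      rfl
    have D0 : (a.D : ℝ) ≠ 0 := by exact_mod_cast ha.D0.ne'
    have e2 : a.Δ * a.n q = ((a.d * q : ℕ) : ℝ) := by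
      unfold Δ n
      push_cast
      field_simp
    have e3 : ((a.zs q i).length : ℝ) ≤ a.n q := by
      have h1 : ((a.d * q - i : ℕ) : ℝ) ≤ ((a.d * q : ℕ) : ℝ) := by exact_mod_cast Nat.sub_le _ _
      have h2 := mul_le_mul_of_nonneg_right ha.μ1 hn.le
      rw [zs, List.length_append, List.length_replicate, Nat.cast_add, Sb.len_zs a.D q ha.D0]
      change _ + a.μ * a.n q ≤ _
      linarith
    rw [e1]
    refine mul_le_mul (mul_le_of_le_one_left s0 (hq.w1 _)) ?_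
      (div_nonneg (mul_nonneg (Nat.cast_nonneg _) X0) hn.le) s0
    change _ * a.X / a.n q ≤ a.X
    rw [div_le_iff₀ hn, mul_comm]
    exact mul_le_mul_of_nonneg_left e3 X0
lemma eps_nonneg (ha : a.OK) (hv : EnvOK a v) : 0 ≤ v.ε := by
  have X0 : 0 ≤ a.X := ha.z0.le.trans ha.zX
  have h1 := hv.φu 0 le_rfl X0
  have h2 := hv.φl 0 le_rfl X0
  have h3 : 0 ≤ v.wu - v.wl := sub_nonneg.2 (hv.hl.trans hv.hu).le
  have h4 := mul_nonneg h3 (ha.φ0 0)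
  have h5 := mul_nonneg h3 (div_nonneg (le_max_right (a.z - 0) 0) ha.z0.le)
  linarith

lemma opt_chord (ha : a.OK) {S x0 x1 Sa Sb ω0 ω1 Dl : ℝ} (hS : 0 ≤ S) (h0 : 0 ≤ x0) (h01 : x0 < x1)
    (h1 : x1 ≤ a.z) (hl : Sa ≤ S + x0) (hu : S + x1 ≤ Sb) (e0 : ω0 * (Sb - Sa) = S + x0 - Sa)
    (e1 : ω1 * (Sb - Sa) = S + x1 - Sa) (hD : S * v.Tp ≤ Dl) : a.Opt v S x0 x1 Sa Sb ω0 ω1 Dl := by
  have hd : 0 < Sb - Sa := by linarith
  have a0 : 0 ≤ ω0 := nonneg_of_mul_nonneg_left (by rw [e0]; linarith) hd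
  have a1 : ω0 ≤ 1 := le_of_mul_le_mul_right (by rw [e0]; linarith) hd
  have b0 : 0 ≤ ω1 := nonneg_of_mul_nonneg_left (by rw [e1]; linarith) hd
  have b1 : ω1 ≤ 1 := le_of_mul_le_mul_right (by rw [e1]; linarith) hd
  refine ⟨a0, a1, b0, b1, fun q hq i hi ξ _ x hx0 hx1 => ?_⟩
  obtain ⟨w0, w1, w2, w3⟩ := wts h01 hx0.le hx1
  have e : ((x1 - x) * ω0 + (x - x0) * ω1) / (x1 - x0) =
      (x1 - x) / (x1 - x0) * ω0 + (x - x0) / (x1 - x0) * ω1 := by ring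
  rw [e]
  generalize (x1 - x) / (x1 - x0) = α at *
  generalize (x - x0) / (x1 - x0) = β at *
  obtain rfl : β = 1 - α := by linarith
  have o0 : 0 ≤ α * ω0 + (1 - α) * ω1 := add_nonneg (mul_nonneg w0 a0) (mul_nonneg w1 b0)
  have o1 : α * ω0 + (1 - α) * ω1 ≤ 1 := by
    have := add_nonneg (mul_nonneg w0 (sub_nonneg.2 a1)) (mul_nonneg w1 (sub_nonneg.2 b1))
    linarith
  have e2 : (1 - (α * ω0 + (1 - α) * ω1)) * Sa + (α * ω0 + (1 - α) * ω1) * Sb = S + x := by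
    linear_combination α * e0 + (1 - α) * e1 + w3
  generalize α * ω0 + (1 - α) * ω1 = ω at *
  have x0' : 0 < x := h0.trans_lt hx0
  have t1 := U_tag hq.ok S (a.e * q + i) [] ξ x0'.le le_rfl ((hx1.trans h1).trans ha.zX)
  have t2 := U_conc hq.ok (a.e * q + i) ξ Sa Sb o0 o1
  rw [e2] at t2
  rw [div_self x0'.ne', List.nil_append, List.nil_append] at t1
  have t4 := mul_le_mul_of_nonneg_left (hq.Tp i hi.le) hS
  have t5 : (1 - ω) * (Sa * a.T q i) + ω * (Sb * a.T q i) = (S + x) * a.T q i := by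
    rw [← e2]
    ring
  unfold R el ell U acc
  linarith

lemma opt_single (ha : a.OK) {S x0 x1 Sa Dl : ℝ} (hS : 0 ≤ S) (h01 : x0 < x1)
    (h1 : x1 ≤ a.z) (hl : S ≤ Sa) (hu : Sa ≤ S + x0) (hT : 0 ≤ v.Tm)
    (hD : S * v.Tp + 1 - (Sa - S) / x1 - (x0 - (Sa - S)) * v.Tm ≤ Dl) : a.Opt v S x0 x1 Sa Sa 0 0 Dl := by
  have _ := h01
  refine ⟨le_rfl, zero_le_one, le_rfl, zero_le_one, fun q hq i hi ξ _ x hx0 hx1 => ?_⟩
  have y0 : 0 ≤ Sa - S := sub_nonneg.2 hl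
  have x0' : 0 < x := by linarith
  have t1 := U_tag hq.ok S (a.e * q + i) [] ξ y0 (show Sa - S ≤ x by linarith)
    ((hx1.trans h1).trans ha.zX)
  rw [add_sub_cancel, List.nil_append, List.nil_append] at t1
  have t2 : (Sa - S) / x1 ≤ (Sa - S) / x := div_le_div_of_nonneg_left y0 x0' hx1
  have t4 := mul_le_mul_of_nonneg_left (hq.Tp i hi.le) hS
  have t5 : (x0 - (Sa - S)) * v.Tm ≤ (x - (Sa - S)) * a.T q i :=
    mul_le_mul (by linarith) (hq.Tm i hi.le) hT (by linarith)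
  simp only [mul_zero, add_zero, zero_div, sub_zero, one_mul, zero_mul]
  unfold R el ell U acc
  linarith

lemma ma_init (S η0 : ℝ) : a.MA v q fam S η0 a.z 0 0 0 :=
  ⟨_, cost_zero, fun i _ ξ _ => by simp⟩
lemma MA.mono {S η0 lo θ ε V θ' ε' V' : ℝ} (h : a.MA v q fam S η0 lo θ ε V) (h0 : 0 ≤ v.Δ') (h1 : θ ≤ θ')
    (h2 : ε ≤ ε') (h3 : V ≤ V') : a.MA v q fam S η0 lo θ' ε' V' := by
  obtain ⟨B, hC, hB⟩ := h
  refine ⟨B, hC.mono h0 h3, fun i hi ξ hξ => ⟨?_, fun hg => ?_⟩⟩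
  · linarith [(hB i hi ξ hξ).1]
  · linarith [(hB i hi ξ hξ).2 hg]
lemma cost_IM (ha : a.OK) (hv : EnvOK a v) (hq : a.At v q) {x0 x1 x' y F : ℝ} (h0 : 0 ≤ x0)
    (h01 : x0 < x1) (h1 : x1 ≤ a.z) (hx : x0 ≤ x')
    (hF : a.Cost v q fam (a.mix q (a.jm v x0 x1 x') (fun u => max u 0) y) F) :
    a.Cost v q fam (fun i ξ =>
      a.l q i * IM v.φu x0 x1 ((a.sa + v.Tu) * x0 - v.cl - y) ((a.sa + v.Tu) * x1 - v.cl - y) ξ +
      (1 - a.l q i) * IM a.φb x0 x1 ((a.sb + a.Tb) * x0 - a.cb - y) ((a.sb + a.Tb) * x1 - a.cb - y) ξ)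
      ((x1 - x0) * F) := by
  have hd : 0 ≤ x1 - x0 := (sub_pos.2 h01).le
  have s0 := (sb_pos ha).le
  have t0 : 0 ≤ v.Tu := hv.Tm0.trans ((hq.Tm _ le_rfl).trans hq.Tu)
  have m1 := mul_le_mul_of_nonneg_left h01.le (add_nonneg (s0.trans sb_le_sa) t0)
  have m2 := mul_le_mul_of_nonneg_left h01.le (add_nonneg s0 hv.Tb0)
  refine (hF.smul ha hq hd).of_le fun i hi => ?_
  have l0 := hq.l0 i hi.le
  have l1 := hq.l1 i hi.le
  have nn : ∀ s t : ℝ, 0 ≤ (x1 - x0) * ((max s 0 + max t 0) / 2) := fun s t => by positivity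
  refine ⟨((meas_IM hv.φc _ _ _ _).comp (measurable_const_mul _)).add
    ((meas_IM ha.φc _ _ _ _).comp (measurable_const_mul _)), fun ξ => add_nonneg
      (mul_nonneg l0 (IM_nn _ h01.le _ _ ξ)) (mul_nonneg (sub_nonneg.2 l1) (IM_nn _ h01.le _ _ ξ)),
    mz_two l0 l1 (meas_IM hv.φc _ _ _ _) ?_ (fun ξ => nn _ _) (fun ξ => nn _ _)
      (conv_minus hq.ok (Sb.zok ha q i) tf_pos hv.φc hv.φa h0 h01 (h1.trans ha.zX) (by linarith))
      (conv_minus hq.ok (Sb.zok ha q i) tf_pos ha.φc ha.φa h0 h01 (h1.trans ha.zX) (by linarith))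
      fun ξ => ?_⟩
  · exact meas_avg (((meas_cl x0).sub (Meas.mapsum hv.φc.measurable)).add (Meas.const _))
      (((meas_cl x1).sub (Meas.mapsum hv.φc.measurable)).add (Meas.const _)) _
  · have c1 := cl_mono ξ hx
    have k1 : max (cl ξ x0 - (ξ.map v.φu).sum + ((a.sa + v.Tu) * x0 - v.cl - y)) 0 ≤
        max (cl ξ x' - (ξ.map v.φu).sum + ((a.sa + v.Tu) * x0 - v.cl) - y) 0 :=
      max_le_max (by linarith) le_rfl
    have k2 : max (cl ξ x0 - (ξ.map a.φb).sum + ((a.sb + a.Tb) * x0 - a.cb - y)) 0 ≤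
        max (cl ξ x' - (ξ.map a.φb).sum + ((a.sb + a.Tb) * x0 - a.cb) - y) 0 :=
      max_le_max (by linarith) le_rfl
    have k3 := mul_le_mul_of_nonneg_left k1 (mul_nonneg hd l0)
    have k4 := mul_le_mul_of_nonneg_left k2 (mul_nonneg hd (sub_nonneg.2 l1))
    simp only [mix, jm, sum_m, add_sub_assoc] at k3 k4 ⊢
    linarith

lemma MA.step (ha : a.OK) (hv : EnvOK a v) (hq : a.At v q)
    {S η0 x0 x1 x' θ ε V Sa Sb ω0 ω1 Dl ρa τa ρb τb ρ0 ρ1 y F θ0 θ1 ε0 ε1 : ℝ}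
    (h : a.MA v q fam S η0 x1 θ ε V) (hS : 0 ≤ S) (h0 : 0 ≤ x0) (h01 : x0 < x1) (h1 : x1 ≤ a.z) (hx : x0 ≤ x')
    (ho : a.Opt v S x0 x1 Sa Sb ω0 ω1 Dl) (hA : (Sa, ρa, τa) ∈ fam) (hB : (Sb, ρb, τb) ∈ fam)
    (hτa : 0 ≤ τa) (hτb : 0 ≤ τb) (hρ0 : (1 - ω0) * ρa + ω0 * ρb ≤ ρ0) (hρ1 : (1 - ω1) * ρa + ω1 * ρb ≤ ρ1)
    (hF : a.Cost v q fam (a.mix q (a.jm v x0 x1 x') (fun u => max u 0) y) F)
    (hθ0 : 0 ≤ θ0) (hθ0' : y + Dl + ρ0 ≤ θ0) (hθ1 : 0 ≤ θ1) (hθ1' : y + Dl + ρ1 ≤ θ1)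
    (hε0 : 0 ≤ ε0) (hε0' : v.e0 - (a.sb + v.Tm) * (a.z - x0) - S * v.Tm + Dl + ρ0 - η0 ≤ ε0)
    (hε1 : 0 ≤ ε1) (hε1' : v.e0 - (a.sb + v.Tm) * (a.z - x1) - S * v.Tm + Dl + ρ1 - η0 ≤ ε1) :
    a.MA v q fam S η0 x0 (θ + (x1 - x0) * ((θ0 + θ1) / 2)) (ε + (x1 - x0) * ((ε0 + ε1) / 2))
      (V + (x1 - x0) * (F + ((1 - (ω0 + ω1) / 2) * τa + (ω0 + ω1) / 2 * τb) + v.ε * a.X)) := by
  obtain ⟨B, hC, hI⟩ := h
  have en := eps_nonneg ha hv
  have hd : 0 ≤ x1 - x0 := (sub_pos.2 h01).le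
  have o0 : 0 ≤ (ω0 + ω1) / 2 := by linarith [ho.1, ho.2.2.1]
  have o1 : 0 ≤ 1 - (ω0 + ω1) / 2 := by linarith [ho.2.1, ho.2.2.2.1]
  refine ⟨_, (hC.add ha hq ((cost_IM ha hv hq h0 h01 h1 hx hF).add ha hq
    (((((cost_tau ha hq hA hτa).smul ha hq o1).add ha hq
    ((cost_tau ha hq hB hτb).smul ha hq o0)).add ha hq ((cost_len ha hq).smul ha hq en)).smul ha hq
      hd))).mono hv.Δ0 (le_of_eq (by ring)), fun i hi ξ hξ => ?_⟩
  have l0 := hq.l0 i hi.le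
  have l1 := hq.l1 i hi.le
  have len0 : 0 ≤ v.ε * ξ.length := mul_nonneg en (Nat.cast_nonneg _)
  have sp : ∫ x in x0..a.z, a.mi q i S ξ x =
      (∫ x in x0..x1, a.mi q i S ξ x) + ∫ x in x1..a.z, a.mi q i S ξ x :=
    (intervalIntegral.integral_add_adjacent_intervals (minus_int hq.ok S (a.e * q + i) ξ x0 x1)
      (minus_int hq.ok S (a.e * q + i) ξ x1 a.z)).symm
  have mnn : ∀ s t : ℝ, 0 ≤ a.l q i * max s 0 + (1 - a.l q i) * max t 0 := fun s t =>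
    add_nonneg (mul_nonneg l0 (le_max_right _ _)) (mul_nonneg (sub_nonneg.2 l1) (le_max_right _ _))
  rw [sp]
  constructor
  · obtain ⟨g1, g2⟩ := int_two (a.l q i)
      (ii_M ξ (ξ.map v.φu).sum x0 x1 ((a.sa + v.Tu) * x0 - v.cl - y) ((a.sa + v.Tu) * x1 - v.cl - y))
      (ii_M ξ (ξ.map a.φb).sum x0 x1 ((a.sb + a.Tb) * x0 - a.cb - y) ((a.sb + a.Tb) * x1 - a.cb - y))
    have c1 := cell hq h01 ho hρ0 hρ1 hi hξ (add_nonneg hθ0 len0) (add_nonneg hθ1 len0) g1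
      (fun x => mnn _ _) fun x hx0 hx1 => by
        obtain ⟨w0, w1, w2, w3⟩ := wts h01 hx0.le hx1.le
        have d1 := below hq en hi.le hξ (h0.trans hx0.le)
        have e : ∀ s t : ℝ, ((x1 - x) * s + (x - x0) * t) / (x1 - x0) =
            (x1 - x) / (x1 - x0) * s + (x - x0) / (x1 - x0) * t := fun s t => by ring
        rw [e, e]
        generalize (x1 - x) / (x1 - x0) = α at *
        generalize (x - x0) / (x1 - x0) = β at *
        have d2 := two (y := y) l0 l1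
          (A := cl ξ x - (ξ.map v.φu).sum + ((a.sa + v.Tu) * x - v.cl))
          (A' := cl ξ x - (ξ.map v.φu).sum +
            (α * ((a.sa + v.Tu) * x0 - v.cl - y) + β * ((a.sa + v.Tu) * x1 - v.cl - y)))
          (B := cl ξ x - (ξ.map a.φb).sum + ((a.sb + a.Tb) * x - a.cb))
          (B' := cl ξ x - (ξ.map a.φb).sum +
            (α * ((a.sb + a.Tb) * x0 - a.cb - y) + β * ((a.sb + a.Tb) * x1 - a.cb - y)))
          (le_of_eq (by linear_combination (v.cl + y) * w2 - (a.sa + v.Tu) * w3))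
          (le_of_eq (by linear_combination (a.cb + y) * w2 - (a.sb + a.Tb) * w3))
        have d3 := mul_le_mul_of_nonneg_left hθ0' w0
        have d4 := mul_le_mul_of_nonneg_left hθ1' w1
        have d5 : (α + β) * (y + Dl + v.ε * ξ.length) = y + Dl + v.ε * ξ.length := by
          rw [w2, one_mul]
        linarith
    have c2 := (hI i hi ξ hξ).1
    rw [g2] at c1
    refine (add_le_add c1 c2).trans_eq ?_
    simp only [IM]
    ring
  · intro hg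
    have c1 := cell (G := fun _ => 0) hq h01 ho hρ0 hρ1 hi hξ hε0 hε1 intervalIntegrable_const
      (fun _ => le_rfl) fun x hx0 hx1 => by
        obtain ⟨w0, w1, w2, w3⟩ := wts h01 hx0.le hx1.le
        generalize (x1 - x) / (x1 - x0) = α at *
        generalize (x - x0) / (x1 - x0) = β at *
        have d1 := cl_mono ξ (hx1.le.trans h1)
        have d2 := hq.e0 i hi.le
        have d3 := mul_le_mul_of_nonneg_left (hq.Tm i hi.le) hS
        have d4 : (a.sb + v.Tm) * (a.z - x) ≤ (a.s q i + a.T q i) * (a.z - x) :=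
          mul_le_mul_of_nonneg_right (add_le_add (hq.sb i) (hq.Tm i hi.le)) (by linarith)
        have d5 := mul_le_mul_of_nonneg_left hε0' w0
        have d6 := mul_le_mul_of_nonneg_left hε1' w1
        have d7 : α * (v.e0 - (a.sb + v.Tm) * (a.z - x0) - S * v.Tm + Dl - η0) +
            β * (v.e0 - (a.sb + v.Tm) * (a.z - x1) - S * v.Tm + Dl - η0) =
            v.e0 - (a.sb + v.Tm) * (a.z - x) - S * v.Tm + Dl - η0 := by
          linear_combination (v.e0 - (a.sb + v.Tm) * a.z - S * v.Tm + Dl - η0) * w2 +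
            (a.sb + v.Tm) * w3
        unfold gap el ell acc at hg
        linarith
    have c2 := (hI i hi ξ hξ).2 hg
    have c3 := mul_nonneg l0
      (IM_nn v.φu h01.le ((a.sa + v.Tu) * x0 - v.cl - y) ((a.sa + v.Tu) * x1 - v.cl - y) ξ)
    have c4 := mul_nonneg (sub_nonneg.2 l1)
      (IM_nn a.φb h01.le ((a.sb + a.Tb) * x0 - a.cb - y) ((a.sb + a.Tb) * x1 - a.cb - y) ξ)
    have c5 := mul_nonneg hd len0
    rw [intervalIntegral.integral_zero] at c1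
    linarith

lemma pa_init (S : ℝ) : a.PA v q fam S a.z 0 0 :=
  ⟨_, cost_zero, fun i _ ξ _ => by simp⟩
lemma PA.mono {S hi θ V θ' V' : ℝ} (h : a.PA v q fam S hi θ V) (h0 : 0 ≤ v.Δ') (h1 : θ ≤ θ')
    (h3 : V ≤ V') : a.PA v q fam S hi θ' V' := by
  obtain ⟨B, hC, hB⟩ := h
  exact ⟨B, hC.mono h0 h3, fun i hi ξ hξ => by linarith [hB i hi ξ hξ]⟩
lemma cost_IP (ha : a.OK) (hv : EnvOK a v) (hq : a.At v q) {x0 x1 y F : ℝ} (h0 : a.z ≤ x0)
    (h01 : x0 < x1) (h1 : x1 ≤ a.X)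
    (hF : a.Cost v q fam (a.mix q (a.jp v x0 x1) (fun u => max u 0) y) F) :
    a.Cost v q fam (fun i ξ =>
      a.l q i * IP v.φu x0 x1 (v.cu + v.φu x0 - 1 - a.sa * x0 + v.k * x0 - y)
        (v.cu + v.φu x1 - 1 - a.sa * x1 + v.k * x1 - y) ξ +
      (1 - a.l q i) * IP a.φb x0 x1 (a.cb + a.φb x0 - 1 - a.sb * x0 + v.k * x0 - y)
        (a.cb + a.φb x1 - 1 - a.sb * x1 + v.k * x1 - y) ξ)
      ((x1 - x0) * F) := by
  have hd : 0 ≤ x1 - x0 := (sub_pos.2 h01).le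
  have m1 := mul_le_mul_of_nonneg_left h01.le (sub_nonneg.2 (hv.ks.trans sb_le_sa))
  have m2 := mul_le_mul_of_nonneg_left h01.le (sub_nonneg.2 hv.ks)
  have m3 := hv.φa h01.le
  have m4 := ha.φa h01.le
  refine (hF.smul ha hq hd).of_le fun i hi => ?_
  have l0 := hq.l0 i hi.le
  have l1 := hq.l1 i hi.le
  have hz : ∀ z ∈ a.zs q i, z ≤ x0 := fun z hz => (zs_le ha q i z hz).trans h0
  have nn : ∀ s t : ℝ, 0 ≤ (x1 - x0) * ((max s 0 + max t 0) / 2) := fun s t => by positivity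
  refine ⟨((meas_IP hv.φc _ _ _ _).comp (measurable_const_mul _)).add
    ((meas_IP ha.φc _ _ _ _).comp (measurable_const_mul _)), fun ξ => add_nonneg
      (mul_nonneg l0 (IP_nn _ h01.le _ _ ξ)) (mul_nonneg (sub_nonneg.2 l1) (IP_nn _ h01.le _ _ ξ)),
    mz_two l0 l1 (meas_IP hv.φc _ _ _ _) ?_ (fun ξ => nn _ _) (fun ξ => nn _ _)
      (conv_plus hq.ok (Sb.zok ha q i) tf_pos hv.φc hv.φa hz h01 h1 (by linarith))
      (conv_plus hq.ok (Sb.zok ha q i) tf_pos ha.φc ha.φa hz h01 h1 (by linarith))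
      fun ξ => ?_⟩
  · exact meas_avg (((Meas.mapsum hv.φc.measurable).sub (meas_cl x0)).add (Meas.const _))
      (((Meas.mapsum hv.φc.measurable).sub (meas_cl x1)).add (Meas.const _)) _
  · simp only [mix, jp, sum_p, add_sub_assoc]
    exact le_of_eq (by ring)

lemma PA.step (ha : a.OK) (hv : EnvOK a v) (hq : a.At v q) {S x0 x1 θ V y F θc : ℝ}
    (h : a.PA v q fam S x0 θ V) (hS : 0 ≤ S) (h0 : a.z ≤ x0) (h01 : x0 < x1) (h1 : x1 ≤ a.X)
    (hF : a.Cost v q fam (a.mix q (a.jp v x0 x1) (fun u => max u 0) y) F)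
    (hθ0 : 0 ≤ θc) (hθ : y ≤ θc + S * v.Tm) :
    a.PA v q fam S x1 (θ + (x1 - x0) * θc) (V + (x1 - x0) * F) := by
  obtain ⟨B, hC, hI⟩ := h
  refine ⟨_, hC.add ha hq (cost_IP ha hv hq h0 h01 h1 hF), fun i hi ξ hξ => ?_⟩
  have l0 := hq.l0 i hi.le
  have l1 := hq.l1 i hi.le
  have ii := plus_int hq.ok (Sb.φ_cont ha q i) (a.el q i S ξ) (a.e * q + i) ξ
  have sp : ∫ x in a.z..x1, a.pl q i S ξ x =
      (∫ x in a.z..x0, a.pl q i S ξ x) + ∫ x in x0..x1, a.pl q i S ξ x :=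
    (intervalIntegral.integral_add_adjacent_intervals (ii a.z x0) (ii x0 x1)).symm
  have mnn : ∀ s t : ℝ, 0 ≤ a.l q i * max s 0 + (1 - a.l q i) * max t 0 := fun s t =>
    add_nonneg (mul_nonneg l0 (le_max_right _ _)) (mul_nonneg (sub_nonneg.2 l1) (le_max_right _ _))
  obtain ⟨g1, g2⟩ := int_two (a.l q i)
    (ii_P ξ (ξ.map v.φu).sum x0 x1 (v.cu + v.φu x0 - 1 - a.sa * x0 + v.k * x0 - y)
      (v.cu + v.φu x1 - 1 - a.sa * x1 + v.k * x1 - y))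
    (ii_P ξ (ξ.map a.φb).sum x0 x1 (a.cb + a.φb x0 - 1 - a.sb * x0 + v.k * x0 - y)
      (a.cb + a.φb x1 - 1 - a.sb * x1 + v.k * x1 - y))
  have c1 : ∫ x in x0..x1, a.pl q i S ξ x ≤ _ := int_chord' (u := θc) (w := θc)
    h01 (ii x0 x1) g1 fun x hx0 hx1 => by
      obtain ⟨w0, w1, w2, w3⟩ := wts h01 hx0.le hx1.le
      have d1 := above hq hi.le hξ hS ((ha.z0.le.trans h0).trans hx0.le) (hx1.le.trans h1)
      have e : ∀ s t : ℝ, ((x1 - x) * s + (x - x0) * t) / (x1 - x0) =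
          (x1 - x) / (x1 - x0) * s + (x - x0) / (x1 - x0) * t := fun s t => by ring
      rw [e, e]
      generalize (x1 - x) / (x1 - x0) = α at *
      generalize (x - x0) / (x1 - x0) = β at *
      have k1 := hv.φx.2 (mem_univ x0) (mem_univ x1) w0 w1 w2
      have k2 := ha.φx.2 (mem_univ x0) (mem_univ x1) w0 w1 w2
      simp only [smul_eq_mul, w3] at k1 k2
      have d2 := two (y := y) l0 l1
        (A := (ξ.map v.φu).sum - cl ξ x + (v.cu + v.φu x - 1 - a.sa * x + v.k * x))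
        (A' := (ξ.map v.φu).sum - cl ξ x + (α * (v.cu + v.φu x0 - 1 - a.sa * x0 + v.k * x0 - y) +
          β * (v.cu + v.φu x1 - 1 - a.sa * x1 + v.k * x1 - y)))
        (B := (ξ.map a.φb).sum - cl ξ x + (a.cb + a.φb x - 1 - a.sb * x + v.k * x))
        (B' := (ξ.map a.φb).sum - cl ξ x + (α * (a.cb + a.φb x0 - 1 - a.sb * x0 + v.k * x0 - y) +
          β * (a.cb + a.φb x1 - 1 - a.sb * x1 + v.k * x1 - y)))
        (by linear_combination k1 - (v.cu - 1 - y) * w2 + (a.sa - v.k) * w3)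
        (by linear_combination k2 - (a.cb - 1 - y) * w2 + (a.sb - v.k) * w3)
      have d3 : α * θc + β * θc = θc := by rw [← add_mul, w2, one_mul]
      rw [d3]
      refine max_le ?_ (add_nonneg (mnn _ _) hθ0)
      have d4 : a.el q i S ξ + a.φ q i x - acc ((a.p q).s (a.e * q + i)) ξ x ≤ _ := d1
      linarith
  rw [g2] at c1
  rw [sp]
  refine (add_le_add (hI i hi ξ hξ) c1).trans_eq ?_
  simp only [IP]
  ring

lemma ln_of (ha : a.OK) (hv : EnvOK a v) (hq : a.At v q) {S η0 x0 x1 θm ε Vm θp Vp y F θ : ℝ}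
    (hm : a.MA v q fam S η0 0 θm ε Vm) (hp : a.PA v q fam S x1 θp Vp) (hS : 0 ≤ S)
    (h0 : a.z ≤ x0) (h01 : x0 ≤ x1) (h1 : x1 ≤ a.X)
    (hF : a.Cost v q fam (a.mix q (a.jp v x0 x1) (fun u => (max u 0) ^ 2) y) F) (hy : y ≤ S * v.Tm)
    (hθ : θm + θp ≤ θ ∨ (0 ≤ η0 ∧ θp + ε ≤ θ ∧ θm + η0 ^ 2 / (2 * a.sb) ≤ θ)) :
    a.LN v q fam S θ (Vm + Vp + F / a.sb) := by
  have _ := hv
  obtain ⟨Bm, hCm, hIm⟩ := hm
  obtain ⟨Bp, hCp, hIp⟩ := hp
  have s0 := sb_pos ha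
  rw [div_eq_inv_mul F]
  refine ⟨_, (hCm.add ha hq hCp).add ha hq (hF.smul ha hq (inv_pos.2 s0).le), fun i hi ξ hξ => ?_⟩
  have l0 := hq.l0 i hi.le
  have l1 := hq.l1 i hi.le
  have ii := plus_int hq.ok (Sb.φ_cont ha q i) (a.el q i S ξ) (a.e * q + i) ξ
  have sp : ∫ x in a.z..a.X, a.pl q i S ξ x =
      (∫ x in a.z..x1, a.pl q i S ξ x) + ∫ x in x1..a.X, a.pl q i S ξ x :=
    (intervalIntegral.integral_add_adjacent_intervals (ii a.z x1) (ii x1 a.X)).symm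
  have eg : gam (a.p q) a.z (a.c q i) (a.T q i) (a.φ q i) S (a.e * q + i) ξ =
      (∫ x in (0 : ℝ)..a.z, a.mi q i S ξ x) + (∫ x in a.z..a.X, a.pl q i S ξ x) +
        ∫ x in a.X..(a.p q).n, max (a.el q i S ξ - acc (a.s q i) ξ x) 0 := rfl
  have t1 := tail ha hq i S ξ h1
  have t2 := tail ha hq i S ξ ha.zX
  have d1 := above hq hi.le hξ hS ((ha.z0.le.trans h0).trans h01) h1
  have d2 : (max (a.el q i S ξ + a.φ q i x1 - acc (a.s q i) ξ x1) 0) ^ 2 ≤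
      2 * a.mix q (a.jp v x0 x1) (fun u => (max u 0) ^ 2) y i ξ := by
    have k1 := tf_sq.cvx ((ξ.map (a.jp v x0 x1).βa1).sum + (a.jp v x0 x1).a1 - y)
      ((ξ.map (a.jp v x0 x1).βb1).sum + (a.jp v x0 x1).b1 - y) l0 (sub_nonneg.2 l1) (by ring)
    have k2 := tf_sq.2.1 (show a.el q i S ξ + a.φ q i x1 - acc (a.s q i) ξ x1 ≤
        a.l q i * ((ξ.map (a.jp v x0 x1).βa1).sum + (a.jp v x0 x1).a1 - y) +
        (1 - a.l q i) * ((ξ.map (a.jp v x0 x1).βb1).sum + (a.jp v x0 x1).b1 - y) by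
      have e1 : (a.jp v x0 x1).a1 = v.cu + v.φu x1 - 1 - a.sa * x1 + v.k * x1 := rfl
      have e2 : (a.jp v x0 x1).b1 = a.cb + a.φb x1 - 1 - a.sb * x1 + v.k * x1 := rfl
      have e3 : (ξ.map (a.jp v x0 x1).βa1).sum = (ξ.map v.φu).sum - cl ξ x1 := sum_p _ ξ x1
      have e4 : (ξ.map (a.jp v x0 x1).βb1).sum = (ξ.map a.φb).sum - cl ξ x1 := sum_p _ ξ x1
      rw [e1, e2, e3, e4]
      linarith)
    have k3 := mul_nonneg l0
      (sq_nonneg (max ((ξ.map (a.jp v x0 x1).βa0).sum + (a.jp v x0 x1).a0 - y) 0))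
    have k4 := mul_nonneg (sub_nonneg.2 l1)
      (sq_nonneg (max ((ξ.map (a.jp v x0 x1).βb0).sum + (a.jp v x0 x1).b0 - y) 0))
    simp only [mix]
    refine (k2.trans k1).trans ?_
    linarith
  have d3 : (max (a.el q i S ξ + a.φ q i x1 - acc (a.s q i) ξ x1) 0) ^ 2 / (2 * a.sb) ≤
      a.sb⁻¹ * a.mix q (a.jp v x0 x1) (fun u => (max u 0) ^ 2) y i ξ :=
    (div_le_div_of_nonneg_right d2 (by positivity)).trans_eq (by field_simp)
  obtain ⟨m1, m2⟩ := hIm i hi ξ hξ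
  have p1 := hIp i hi ξ hξ
  rw [eg]
  rcases hθ with hθ | ⟨η, h2, h3⟩
  · linarith
  · by_cases hg : η0 ≤ a.gap q i S ξ
    · linarith [m2 hg]
    · have k1 : (max (a.el q i S ξ + a.φ q i a.z - acc (a.s q i) ξ a.z) 0) ^ 2 / (2 * a.sb) ≤
          η0 ^ 2 / (2 * a.sb) := div_le_div_of_nonneg_right
        (pow_le_pow_left₀ (le_max_right _ _) (max_le (not_le.1 hg).le η) 2) (by positivity)
      obtain ⟨f, -, hf⟩ := hCp
      obtain ⟨g, -, hg'⟩ := hF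
      have k2 := (hf i hi).2.2.1 ξ
      have k3 := mul_nonneg (inv_pos.2 s0).le ((hg' i hi).2.2.1 ξ)
      linarith
lemma LN.mono {S θ V V' : ℝ} (h : a.LN v q fam S θ V) (h0 : 0 ≤ v.Δ') (h3 : V ≤ V') : a.LN v q fam S θ V' := by
  obtain ⟨B, hC, hB⟩ := h
  exact ⟨B, hC.mono h0 h3, hB⟩

end Sl
end
end Pool.Agent.MP_3bf126_pr.H21
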