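import Pool.Agent.MP_3bf126_pr.H21.Pack
import Pool.Agent.MP_3bf126_pr.H21.Point

/-! Soundness of the line checks (all lines of a level are handled at once, one per digit). -/

namespace Pool.Agent.MP_3bf126_pr.H21
open Filter Finset K
noncomputable section

variable {a : Sl} {v : Env} {lx : Lx} {fam : List (ℝ × ℝ × ℝ)} {eb : ℕ}

/-- the lines of the level `l` are in the family -/
def InF (J eb : ℕ) (fam : List (ℝ × ℝ × ℝ)) (l : Lv) : Prop :=
  LvOK J eb l ∧ ∀ e ∈ entL J eb l, (e.S, e.ρm, e.τn) ∈ fam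

namespace LineAux

/-- `fN_eq` with an opaque proof, so that the kernel never evaluates the argument -/
theorem fN_p {β : Type} (n : ℕ) (k : ℕ → β) : fN n k = k n := by
  have h := fN_eq n k
  exact h.symm.symm.trans (Eq.refl (k n)) ▸ h

theorem foP_cons (E one hm yb hy x0 x1 gb cn c2 df dq qy qf : ℕ) (cs : List Ct) (k : ℕ → ℕ → Bool) :
    foP false E one hm yb hy (⟨x0, x1, gb, cn, c2, df, dq, qy, qf⟩ :: cs) k =
      foP false E one hm yb hy cs fun th v =>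
    fN (Nat.sub x1 x0) fun w => fN (Nat.shiftLeft w (nat_lit 20)) fun W =>
    fN (Nat.mul W (look E gb c2 df yb)) fun v0 => cond (Nat.blt v0 (nat_lit
        1496577676626844588240573268701473812127674924007424)) (
    fN (pos one (Nat.add qy hy)) fun T =>
    fN (Nat.land (Nat.shiftRight (Nat.add T hm) (nat_lit 128)) one) fun M1 =>
    fN (Nat.add th (Nat.mul w T)) fun th => fN (Nat.add v (Nat.add (Nat.land (Nat.mul W qf) (Nat.mul M1 (nat_lit
        6277101735386680763835789423207666416102355444464034512895))) (Nat.mul v0 (Nat.sub one M1))))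
        fun v => k th v) false := rfl

lemma rm_eq (J eb p r : ℕ) :
    (p &&& ns (fun _ => 1) J * 4722366482869645213695) +
      pos (ns (fun _ => 1) J) ((r &&& ns (fun _ => 1) J * 4722366482869645213695) +
        ns (fun _ => 1) J * 2 ^ 128 - (p &&& ns (fun _ => 1) J * 4722366482869645213695)) +
      eb * ns (fun _ => 1) J = ns (fun j => max (rho p j) (rho r j) + eb) J := by
  have e : (4722366482869645213695 : ℕ) = 2 ^ 72 - 1 := by norm_num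
  rw [e, low_ns, low_ns, mul_comm (ns (fun _ => 1) J) (2 ^ 128), ns_mul, ns_add,
    ns_sub fun k _ => by have := rho_lt p k; omega,
    pos_ns fun k _ => by have := rho_lt r k; omega, ns_add, ns_mul, ns_add]
  refine ns_congr fun k _ => ?_
  have := rho_lt p k
  omega

lemma tn_eq (J r : ℕ) :
    r / 2 ^ 72 &&& ns (fun _ => 1) J * 1329227995784915872903807060280344575 = ns (tau r) J := by
  have e : (1329227995784915872903807060280344575 : ℕ) = 2 ^ 120 - 1 := by norm_num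
  rw [e, high_ns]

lemma fl_le (n d : ℕ) : ((n / d : ℕ) : ℝ) ≤ (n : ℝ) / d := Nat.cast_div_le

lemma le_fl (n : ℕ) {d : ℕ} (hd : 0 < d) : (n : ℝ) / d ≤ ((n / d + 1 : ℕ) : ℝ) := by
  have h : (0 : ℝ) < d := by exact_mod_cast hd
  rw [div_le_iff₀ h]
  have : n ≤ (n / d + 1) * d := by
    have := Nat.lt_mul_div_succ n hd
    rw [mul_comm]
    exact this.le
  exact_mod_cast this

lemma sub_ge (m n : ℕ) : (m : ℝ) - n ≤ ((m - n : ℕ) : ℝ) := by
  rcases le_total n m with h | h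
  · rw [Nat.cast_sub h]
  · have : (m : ℝ) ≤ n := by exact_mod_cast h
    have h0 : (0 : ℝ) ≤ ((m - n : ℕ) : ℝ) := Nat.cast_nonneg _
    linarith

lemma single_dl (S Tp Tm x x0 x1 c : ℕ) (hc : (c : ℝ) = 2 ^ 92) (hx : x ≤ x0) (h1 : 0 < x1) :
    (S : ℝ) / 2 ^ 12 * ((Tp : ℝ) / 2 ^ 80) + 1 -
      (((S + x : ℕ) : ℝ) / 2 ^ 12 - (S : ℝ) / 2 ^ 12) / ((x1 : ℝ) / 2 ^ 12) -
      ((x0 : ℝ) / 2 ^ 12 - (((S + x : ℕ) : ℝ) / 2 ^ 12 - (S : ℝ) / 2 ^ 12)) * ((Tm : ℝ) / 2 ^ 80) ≤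
    (((S * Tp + c - x * 2 ^ 92 / x1 - (x0 - x) * Tm) / 2 ^ 20 + 1 : ℕ) : ℝ) / 2 ^ 72 := by
  have a1 := le_fl (S * Tp + c - x * 2 ^ 92 / x1 - (x0 - x) * Tm) (d := 2 ^ 20) (by norm_num)
  have a2 := sub_ge (S * Tp + c - x * 2 ^ 92 / x1) ((x0 - x) * Tm)
  have a3 := sub_ge (S * Tp + c) (x * 2 ^ 92 / x1)
  have a4 := fl_le (x * 2 ^ 92) x1
  generalize (S * Tp + c - x * 2 ^ 92 / x1 - (x0 - x) * Tm) / 2 ^ 20 + 1 = dl at *
  generalize S * Tp + c - x * 2 ^ 92 / x1 - (x0 - x) * Tm = N at *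
  generalize S * Tp + c - x * 2 ^ 92 / x1 = N' at *
  generalize x * 2 ^ 92 / x1 = N'' at *
  rw [Nat.cast_mul, Nat.cast_sub hx] at a2
  have p1 : (0 : ℝ) < x1 := by exact_mod_cast h1
  have a5 : (((S + x : ℕ) : ℝ) / 2 ^ 12 - (S : ℝ) / 2 ^ 12) / ((x1 : ℝ) / 2 ^ 12) = x / x1 := by
    push_cast; field_simp; ring
  have a6 : ((x * 2 ^ 92 : ℕ) : ℝ) / x1 = 2 ^ 92 * ((x : ℝ) / x1) := by push_cast; ring
  rw [a5]
  rw [a6] at a4
  push_cast at a1 a3 ⊢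
  linarith

lemma z_le (ha : a.OK) (hl : LxOK a v lx) : lx.z ≤ 2 ^ 25 := by
  have h := ha.zX
  rw [hl.z, hl.X, div_le_iff₀ (by positivity)] at h
  have : (lx.z : ℝ) ≤ ((2 ^ 25 : ℕ) : ℝ) := by push_cast; linarith
  exact_mod_cast this

lemma cp_le {E J z : ℕ} {cs : List Ct} : ∀ {x : ℕ}, CP a v E J z x cs → z ≤ x := by
  induction cs with
  | nil => intro x h; exact le_of_eq (Eq.symm h)
  | cons c cs ih => intro x h; exact (ih h.2.2.2).trans h.2.1.le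

lemma T_eq {J yb : ℕ} {y : ℕ → ℕ} (hy : yb < 2 ^ 78) (h : ∀ j < J, y j < 2 ^ 108) :
    pos (ns (fun _ => 1) J) (ns y J + (2 ^ 128 - yb * 2 ^ 32) * ns (fun _ => 1) J) =
      ns (fun j => y j - yb * 2 ^ 32) J := by
  rw [ns_mul, ns_add, pos_ns fun k hk => by have := h k hk; omega]
  exact ns_congr fun k _ => by omega

lemma V_eq {J W v0 : ℕ} {f T w : ℕ → ℕ} (hW : W ≤ 2 ^ 45) (hf : ∀ j < J, f j < 2 ^ 121) :
    ns w J + ((W * ns f J &&& ns (fun k => if T k = 0 then 0 else 1) J *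
        6277101735386680763835789423207666416102355444464034512895) +
      v0 * (ns (fun _ => 1) J - ns (fun k => if T k = 0 then 0 else 1) J)) =
      ns (fun j => w j + if T j = 0 then v0 else W * f j) J := by
  have e : (6277101735386680763835789423207666416102355444464034512895 : ℕ) = 2 ^ 192 - 1 := by
    norm_num
  have h1 : ∀ k < J, W * f k < 2 ^ 192 := fun k hk =>
    calc W * f k ≤ 2 ^ 45 * 2 ^ 121 := Nat.mul_le_mul hW (hf k hk).le
      _ < 2 ^ 192 := by norm_num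
  rw [e, ns_mul, sel_ns h1 fun k _ => by split_ifs <;> omega,
    ns_sub fun k _ => by split_ifs <;> omega, ns_mul, ns_add, ns_add]
  refine ns_congr fun k _ => ?_
  split_ifs <;> simp

end LineAux
open LineAux

theorem mkF_spec {J : ℕ} {n o : List (ℕ × ℕ)} {k : List Lv → Bool}
    (h : mkF false (ns (fun _ => 1) J) eb n o k = true) :
    ∃ fm, (∀ l ∈ fm, LvOK J eb l ∧ (l.S, l.p) ∈ o) ∧ (fm.map fun l => (l.S, l.r)) = n ∧ k fm = true := by
  induction n generalizing o k with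
  | nil => exact ⟨[], by simp, rfl, h⟩
  | cons r n ih =>
    cases o with
    | nil => exact absurd h Bool.false_ne_true
    | cons p o =>
      obtain ⟨h1, h2⟩ := cond_false h
      have e : p.1 = r.1 := Nat.eq_of_beq_eq_true h1
      obtain ⟨fm, f1, f2, f3⟩ := ih h2
      refine ⟨_, ?_, ?_, f3⟩
      · intro l hl
        rcases List.mem_cons.1 hl with rfl | hl
        · refine ⟨⟨?_, ?_⟩, ?_⟩
          · refine Eq.trans ?_ (rm_eq J eb p.2 r.2)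
            rw [← n_shl]
            rfl
          · refine Eq.trans ?_ (tn_eq J r.2)
            rw [← n_shr]
            rfl
          · show (r.1, p.2) ∈ p :: o
            rw [← e]
            exact List.mem_cons_self
        · exact ⟨(f1 l hl).1, List.mem_cons_of_mem _ (f1 l hl).2⟩
      · rw [List.map_cons, f2]

theorem opt_spec (ha : a.OK) (hv : EnvOK a v) (hl : LxOK a v lx) {S Sa Sb x0 x1 db : ℕ} (h01 : x0 < x1)
    (h1 : x1 ≤ lx.z) (hdb : db = 0 → Sb = Sa) {k : Op → Bool}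
    (h : opt false lx S Sa Sb x0 x1 (x1 - x0) db k = true) :
    ∃ (o : Op) (ω0 ω1 : ℝ), a.Opt v ((S : ℝ) / 2 ^ 12) ((x0 : ℝ) / 2 ^ 12) ((x1 : ℝ) / 2 ^ 12) ((Sa : ℝ) / 2 ^ 12)
        ((Sb : ℝ) / 2 ^ 12) ω0 ω1 ((o.dl : ℝ) / 2 ^ 72) ∧
      (1 - ω0) * 2 ^ 32 ≤ o.a0 ∧ ω0 * 2 ^ 32 ≤ o.b0 ∧ (1 - ω1) * 2 ^ 32 ≤ o.a1 ∧ ω1 * 2 ^ 32 ≤ o.b1 ∧
      ((x1 - x0 : ℕ) : ℝ) * (1 - (ω0 + ω1) / 2) * 2 ^ 20 ≤ o.wa ∧ ((x1 - x0 : ℕ) : ℝ) * ((ω0 + ω1) / 2) * 2 ^ 20 ≤ o.wb ∧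
      o.a0 ≤ 2 ^ 33 ∧ o.b0 ≤ 2 ^ 33 ∧ o.a1 ≤ 2 ^ 33 ∧ o.b1 ≤ 2 ^ 33 ∧ o.wa ≤ 2 ^ 46 ∧ o.wb ≤ 2 ^ 46 ∧
      k o = true := by
  have hz := z_le ha hl
  have r01 : (x0 : ℝ) / 2 ^ 12 < (x1 : ℝ) / 2 ^ 12 :=
    div_lt_div_of_pos_right (by exact_mod_cast h01) (by positivity)
  have r1 : (x1 : ℝ) / 2 ^ 12 ≤ a.z := by
    rw [hl.z]
    exact div_le_div_of_nonneg_right (by exact_mod_cast h1) (by positivity)
  have rS : (0 : ℝ) ≤ (S : ℝ) / 2 ^ 12 := by positivity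
  unfold opt at h
  simp only [fN_p] at h
  simp only [n_add, n_sub, n_mul, n_div, n_shl, n_shr] at h
  cases e : Nat.beq db 0 with
  | true =>
    rw [e, Bool.cond_true] at h
    obtain ⟨h2, h3⟩ := cond_false h
    rw [Bool.and_eq_true, Nat.ble_eq, Nat.ble_eq] at h2
    obtain rfl := hdb (Nat.eq_of_beq_eq_true e)
    obtain ⟨x, rfl⟩ := Nat.exists_eq_add_of_le h2.1
    have hx : x ≤ x0 := by omega
    have rx : (x : ℝ) ≤ x0 := by exact_mod_cast hx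
    have rx0 : (0 : ℝ) ≤ x := Nat.cast_nonneg _
    refine ⟨_, 0, 0, ?_, ?_, ?_, ?_, ?_, ?_, ?_, ?_, ?_, ?_, ?_, ?_, ?_, h3⟩
    · refine Sl.opt_single ha rS r01 r1 (by push_cast; linarith) (by push_cast; linarith) hv.Tm0 ?_
      rw [hl.Tp, hl.Tm]
      simp only [Nat.add_sub_cancel_left]
      exact single_dl S lx.Tp lx.Tm x x0 x1 _ (by norm_num) hx (by omega)
    all_goals first | (simp only []; omega) | (push_cast; norm_num)
  | false =>
    rw [e, Bool.cond_false] at h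
    obtain ⟨h2, h3⟩ := cond_false h
    rw [Bool.and_eq_true, Nat.ble_eq, Nat.ble_eq] at h2
    obtain ⟨h4, h5⟩ := h2
    have hd : 0 < Sb - Sa := by omega
    have c0 : ((S + x0 - Sa : ℕ) : ℝ) = S + x0 - Sa := by rw [Nat.cast_sub h4]; push_cast; rfl
    have c1 : ((S + x1 - Sa : ℕ) : ℝ) = S + x1 - Sa := by rw [Nat.cast_sub (by omega)]; push_cast; rfl
    have cd : ((Sb - Sa : ℕ) : ℝ) = Sb - Sa := Nat.cast_sub (by omega)
    have l0 : S + x0 - Sa ≤ Sb - Sa := by omega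
    have l1 : S + x1 - Sa ≤ Sb - Sa := by omega
    have hw : x1 - x0 ≤ 2 ^ 25 := by omega
    have r4 : (Sa : ℝ) ≤ S + x0 := by exact_mod_cast h4
    have r5 : (S : ℝ) + x1 ≤ Sb := by exact_mod_cast h5
    generalize S + x0 - Sa = n0 at *
    generalize S + x1 - Sa = n1 at *
    generalize Sb - Sa = dn at *
    generalize x1 - x0 = w at *
    have rd : (0 : ℝ) < dn := by exact_mod_cast hd
    have b0 : n0 * 2 ^ 32 / dn ≤ 2 ^ 32 :=
      Nat.div_le_of_le_mul (Nat.mul_le_mul_right _ l0)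
    have b1 : n1 * 2 ^ 32 / dn ≤ 2 ^ 32 :=
      Nat.div_le_of_le_mul (Nat.mul_le_mul_right _ l1)
    have bw : w * (n0 + n1) * 2 ^ 19 / dn ≤ w * 2 ^ 20 := by
      refine Nat.div_le_of_le_mul ?_
      have : w * (n0 + n1) ≤ w * (2 * dn) := Nat.mul_le_mul_left _ (by omega)
      calc w * (n0 + n1) * 2 ^ 19 ≤ w * (2 * dn) * 2 ^ 19 := Nat.mul_le_mul_right _ this
        _ = dn * (w * 2 ^ 20) := by ring
    have e0 : ((n0 * 2 ^ 32 : ℕ) : ℝ) / dn = (n0 : ℝ) / dn * 2 ^ 32 := by push_cast; ring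
    have e1 : ((n1 * 2 ^ 32 : ℕ) : ℝ) / dn = (n1 : ℝ) / dn * 2 ^ 32 := by push_cast; ring
    have ew : ((w * (n0 + n1) * 2 ^ 19 : ℕ) : ℝ) / dn =
        (w : ℝ) * (((n0 : ℝ) / dn + (n1 : ℝ) / dn) / 2) * 2 ^ 20 := by push_cast; ring
    refine ⟨_, (n0 : ℝ) / dn, (n1 : ℝ) / dn, ?_, ?_, ?_, ?_, ?_, ?_, ?_, ?_, ?_, ?_, ?_, ?_, ?_, h3⟩
    · refine Sl.opt_chord ha rS (by positivity) r01 r1 (by linarith) (by linarith) ?_ ?_ ?_
      · rw [← sub_div, ← cd]; field_simp; linarith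
      · rw [← sub_div, ← cd]; field_simp; linarith
      · have a1 := le_fl (S * lx.Tp) (d := 2 ^ 20) (by norm_num)
        rw [hl.Tp]
        simp only []
        generalize S * lx.Tp / 2 ^ 20 + 1 = dl at *
        push_cast at a1
        linarith
    · have a1 := sub_ge 4294967296 (n0 * 2 ^ 32 / dn)
      have a2 := fl_le (n0 * 2 ^ 32) dn
      rw [e0] at a2
      refine le_trans ?_ a1
      rw [Nat.cast_ofNat]
      linarith
    · exact e0 ▸ le_fl _ hd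
    · have a1 := sub_ge 4294967296 (n1 * 2 ^ 32 / dn)
      have a2 := fl_le (n1 * 2 ^ 32) dn
      rw [e1] at a2
      refine le_trans ?_ a1
      rw [Nat.cast_ofNat]
      linarith
    · exact e1 ▸ le_fl _ hd
    · have a1 := sub_ge (w * 2 ^ 20) (w * (n0 + n1) * 2 ^ 19 / dn)
      have a2 := fl_le (w * (n0 + n1) * 2 ^ 19) dn
      rw [ew] at a2
      refine le_trans ?_ a1
      have a3 : ((w * 2 ^ 20 : ℕ) : ℝ) = w * 2 ^ 20 := by push_cast; ring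
      rw [a3]
      linarith
    · exact ew ▸ le_fl _ hd
    · exact (Nat.sub_le _ _).trans (by norm_num)
    · exact (Nat.succ_le_succ b0).trans (by norm_num)
    · exact (Nat.sub_le _ _).trans (by norm_num)
    · exact (Nat.succ_le_succ b1).trans (by norm_num)
    · exact (Nat.sub_le _ _).trans (by omega)
    · exact (Nat.succ_le_succ bw).trans (by omega)

/-- the accumulators below the threshold after `c` cells (`th`, `ep` are doubled) -/
def AM (a : Sl) (v : Env) (fam : List (ℝ × ℝ × ℝ)) (J S : ℕ) (H : ℕ → ℕ) (x c th ep V : ℕ) : Prop :=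
  ∃ t e w : ℕ → ℕ, th = ns t J ∧ ep = ns e J ∧ V = ns w J ∧ ∀ j < J, t j ≤ c * 2 ^ 171 ∧ e j ≤ c * 2 ^ 171 ∧
    w j ≤ c * 2 ^ 171 ∧ ∀ᶠ q : ℕ in atTop, a.MA v q fam ((S : ℝ) / 2 ^ 12) ((H j : ℝ) / 2 ^ 72) ((x : ℝ) / 2 ^ 12)
      ((t j : ℝ) / 2 ^ 85) ((e j : ℝ) / 2 ^ 85) ((w j : ℝ) / 2 ^ 96)

def AP (a : Sl) (v : Env) (fam : List (ℝ × ℝ × ℝ)) (J S : ℕ) (x c th V : ℕ) : Prop :=
  ∃ t w : ℕ → ℕ, th = ns t J ∧ V = ns w J ∧ ∀ j < J, t j ≤ c * 2 ^ 171 ∧ w j ≤ c * 2 ^ 171 ∧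
    ∀ᶠ q : ℕ in atTop, a.PA v q fam ((S : ℝ) / 2 ^ 12) ((x : ℝ) / 2 ^ 12) ((t j : ℝ) / 2 ^ 84) ((w j : ℝ) / 2 ^ 96)

theorem foP_spec (ha : a.OK) (hv : EnvOK a v) (hl : LxOK a v lx) {S yb : ℕ} (hy : yb < 2 ^ 78)
    (hy0 : lx.YB ≤ yb) (hy1 : ((yb : ℝ) - lx.YB) / 2 ^ 40 ≤ (S : ℝ) / 2 ^ 12 * v.Tm)
    {cs : List Ct} {x : ℕ} (hx : x ≤ 2 ^ 25) (hc : CP a v lx.E lx.J lx.z x cs) {k : ℕ → ℕ → Bool}
    (hk : foP false lx.E lx.one lx.hm yb ((2 ^ 128 - yb * 2 ^ 32) * lx.one) cs k = true) :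
    ∃ th V, AP a v fam lx.J S x cs.length th V ∧ k th V = true := by
  have _ := hy0
  have hYB : (lx.YB : ℝ) = 2 ^ 30 * lx.E := by rw [hl.YB]; push_cast; ring
  rw [hYB] at hy1
  induction cs generalizing x k with
  | nil =>
    obtain rfl : x = lx.z := hc
    refine ⟨0, 0, ⟨fun _ => 0, fun _ => 0, ns_zero.symm, ns_zero.symm, fun j _ =>
      ⟨Nat.zero_le _, Nat.zero_le _, Eventually.of_forall fun q => ?_⟩⟩, hk⟩
    rw [← hl.z, Nat.cast_zero, zero_div, zero_div]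
    exact Sl.pa_init _
  | cons c cs ih =>
    obtain ⟨x0, x1, gb, cn, c2, df, dq, qy, qf⟩ := c
    obtain ⟨e1, h01, hC, hc'⟩ := hc
    simp only at e1 h01 hC hc'
    subst e1
    have hz := cp_le hc'
    rw [foP_cons] at hk
    obtain ⟨th, V, ⟨t, w, rfl, rfl, hA⟩, hk'⟩ := ih (by omega : x0 ≤ 2 ^ 25) hc' hk
    obtain ⟨y, f, ey, ef, hq⟩ := hC.qs
    have hlin := hC.lin yb
    simp only at ey ef hlin
    subst ey ef
    simp only [fN_p] at hk'
    obtain ⟨k1, k2⟩ := cond_false hk'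
    simp only [n_add, n_sub, n_mul, n_and, n_shl, n_shr] at k1 k2
    rw [Nat.blt_eq] at k1
    generalize look lx.E gb c2 df yb = lk at *
    have hT : ∀ j < lx.J, y j - yb * 2 ^ 32 < 2 ^ 128 := fun j hj => by have := (hq j hj).1; omega
    rw [hl.hm, hl.one, T_eq hy fun j hj => (hq j hj).1, ind_ns hT, ns_mul (x1 - x0), ns_add,
      V_eq (by omega) fun j hj => (hq j hj).2.1] at k2
    refine ⟨_, _, ⟨_, _, rfl, rfl, fun j hj => ?_⟩, k2⟩
    obtain ⟨q1, q2, q3⟩ := hq j hj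
    obtain ⟨A1, A2, A3⟩ := hA j hj
    have r0 : a.z ≤ (x0 : ℝ) / 2 ^ 12 := by
      rw [hl.z]
      exact div_le_div_of_nonneg_right (by exact_mod_cast hz) (by positivity)
    have r01 : (x0 : ℝ) / 2 ^ 12 < (x1 : ℝ) / 2 ^ 12 :=
      div_lt_div_of_pos_right (by exact_mod_cast h01) (by positivity)
    have r1 : (x1 : ℝ) / 2 ^ 12 ≤ a.X := by
      have : (x1 : ℝ) ≤ ((2 ^ 25 : ℕ) : ℝ) := by exact_mod_cast hx
      rw [hl.X]
      push_cast at this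
      linarith
    have rS : (0 : ℝ) ≤ (S : ℝ) / 2 ^ 12 := by positivity
    have cw : ((x1 - x0 : ℕ) : ℝ) = x1 - x0 := Nat.cast_sub h01.le
    have hw : x1 - x0 ≤ 2 ^ 25 := by omega
    generalize x1 - x0 = d at *
    have m1 : d * (y j - yb * 2 ^ 32) ≤ 2 ^ 25 * 2 ^ 108 := Nat.mul_le_mul hw (by omega)
    have m2 : d * 2 ^ 20 * f j ≤ 2 ^ 45 * 2 ^ 121 := Nat.mul_le_mul (by omega) q2.le
    refine ⟨by rw [List.length_cons]; omega, by rw [List.length_cons]; split_ifs <;> omega, ?_⟩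
    by_cases hT0 : y j - yb * 2 ^ 32 = 0
    · filter_upwards [A3, env_at ha hv, hlin] with q B1 B2 B3
      refine (B1.step ha hv B2 rS r0 r01 r1 (B3 fam) le_rfl (by linarith)).mono hv.Δ0 ?_ ?_
      · rw [hT0]; simp
      · rw [if_pos hT0, ← sub_div, ← cw]
        push_cast
        exact le_of_eq (by ring)
    · have cT : ((y j - yb * 2 ^ 32 : ℕ) : ℝ) = y j - yb * 2 ^ 32 := by
        rw [Nat.cast_sub (by omega)]; push_cast; ring
      filter_upwards [A3, env_at ha hv, q3] with q B1 B2 B3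
      refine (B1.step (θc := ((y j - yb * 2 ^ 32 : ℕ) : ℝ) / 2 ^ 72) ha hv B2 rS r0 r01 r1 (B3 fam)
        (by positivity) (by rw [cT]; linarith)).mono hv.Δ0 ?_ ?_
      · rw [← sub_div, ← cw, Nat.cast_add, Nat.cast_mul]
        exact le_of_eq (by ring)
      · rw [if_neg hT0, ← sub_div, ← cw]
        push_cast
        exact le_of_eq (by ring)

end
end Pool.Agent.MP_3bf126_pr.H21
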