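import Pool.Agent.MP_3bf126_pr.H21.Tabs
import Pool.Agent.MP_3bf126_pr.H21.Levs
import Pool.Agent.MP_3bf126_pr.H21.Envc

/-! Soundness of the checker; the first and the last state. -/

namespace Pool.Agent.MP_3bf126_pr.H21
open Filter Finset K Pool.Agent.MP_3bf126_pr.H40
noncomputable section

lemma ents_eq (J eb : ℕ) (fm : List Lv) :
    ((fm.flatMap (entL J eb)).map fun x => (x.S, x.ρn, x.τn)) = entsOf J (fm.map fun l => (l.S, l.r)) := by
  rw [entsOf, List.flatMap_map, List.map_flatMap]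
  refine List.flatMap_congr fun l _ => ?_
  rw [entL, List.map_map]
  rfl

lemma hd_cons {α β : Type} (no : β) (a : α) (l : List α) (k : α → β) : hd no (a :: l) k = k a := rfl

theorem chk_sound {past : List (ℕ × ℕ)} {d z : ℕ} {sB sA : St} {h : Hn} (hc : chk past d z sB sA h = true)
    (hg : GoodI h.J ((d, z) :: past) sB) : GoodI h.J past sA := by
  unfold chk at hc
  rw [fL_eq fP_eq, fL_eq fP_eq, fN_eq, fN_eq, Bool.and_eq_true, Bool.and_eq_true, Bool.and_eq_true,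
    Bool.and_eq_true, Bool.and_eq_true, Bool.and_eq_true, Bool.and_eq_true] at hc
  obtain ⟨⟨h1, h2, h3, h4, h5, h6, h7⟩, h8⟩ := hc
  have h7' := Nat.le_of_ble_eq_true h7
  rw [n_shl, n_add, n_add, n_mul, n_shl, n_shl, n_sub] at h7'
  obtain ⟨ha, hv, hW, E0, E1, eb, np, nm, eA, hE⟩ :=
    env_spec (sB := sB) (sA := sA) h1 (Nat.le_of_ble_eq_true h2) h3 h4 h7'
  obtain ⟨b1, b2, a1, a2⟩ := hchk_srt h3
  obtain ⟨fb, cm, cp, x, ex, hfb, hex, hm, hp, hx, lm, lp, h9⟩ :=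
    tabs_spec ha hv hW E0 E1 h1 eA a1 a2 b1 b2 (Nat.eq_of_beq_eq_true h5) (Nat.eq_of_beq_eq_true h6) h8
  cases cp with
  | nil => exact absurd h9 Bool.false_ne_true
  | cons top cp =>
  rw [hd_cons, fN_eq] at h9
  obtain ⟨lx, hl, eE, eJ, ez, h10⟩ := mkLx_spec ha hv E0 E1 hfb h9
  subst ez
  rw [Bool.and_eq_true] at h10
  have hl := hl (Nat.blt_eq.mp h10.1)
  have h11 := h10.2
  rw [hl.one] at h11
  obtain ⟨fm, hf, hn, h12⟩ := mkF_spec h11
  rw [← eE, ← eJ] at hm hp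
  have key := levs_spec (fam := (fm.flatMap (entL lx.J h.eb)).map fun x => (x.S, x.ρm, x.τn)) ha hv hl eb hex hx
    hm hp (lm.trans nm) (lp.trans np)
    (fun l hl' => ⟨(hf l hl').1, fun e he => List.mem_map.2 ⟨e, List.mem_flatMap.2 ⟨l, hl', he⟩, rfl⟩⟩) h12
  have := slab_sound ha hv (old := entsOf h.J sB.lv) hg (fm.flatMap (entL lx.J h.eb)) fun e he => by
    obtain ⟨l, hl', he⟩ := List.mem_flatMap.1 he
    refine ⟨?_, ?_, ?_, ?_, ?_, ?_, key l hl' e he⟩ <;> obtain ⟨j, hj, rfl⟩ := List.mem_map.1 he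
    · exact List.mem_flatMap.2 ⟨_, (hf l hl').2, List.mem_map.2 ⟨j, eJ ▸ hj, rfl⟩⟩
    · positivity
    · positivity
    · positivity
    · have : ((rho l.p j : ℕ) : ℝ) ≤ ((max (rho l.p j) (rho l.r j) : ℕ) : ℝ) := by exact_mod_cast le_max_left _ _
      simp only [Nat.cast_add]
      rw [add_div]
      exact add_le_add (by gcongr) hE
    · have : ((rho l.r j : ℕ) : ℝ) ≤ ((max (rho l.p j) (rho l.r j) : ℕ) : ℝ) := by exact_mod_cast le_max_right _ _
      simp only [Nat.cast_add]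
      rw [add_div]
      exact add_le_add (by gcongr) hE
  rw [ents_eq, hn, eJ] at this
  unfold GoodI
  rw [eA]
  exact this

lemma chk_step {J : ℕ} {past : List (ℕ × ℕ)} {d z : ℕ} {sB sA : St} {h : Hn}
    (hc : chk past d z sB sA h = true) (hJ : h.J = J) (hg : GoodI J ((d, z) :: past) sB) : GoodI J past sA := by
  subst hJ
  exact chk_sound hc hg

lemma hg_zero {l : List (ℕ × ℕ)} (h : l.all (fun p => Nat.beq p.2 0) = true) (x : ℝ) : hg l x = 0 := by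
  refine List.sum_eq_zero fun y hy => ?_
  obtain ⟨p, hp, rfl⟩ := List.mem_map.1 hy
  rw [Nat.eq_of_beq_eq_true (List.all_eq_true.1 h p hp)]
  simp

lemma goodI_init (J : ℕ) (past : List (ℕ × ℕ)) {s : St} {l : List (ℕ × ℕ)} (h1 : s.e = 0) (h2 : s.c = 2 ^ 92)
    (h3 : s.T = 2 ^ 67) (h4 : hiOf s = (2 ^ 25, 2 ^ 67) :: l) (h5 : l.all (fun p => Nat.beq p.2 0) = true) :
    GoodI J past s := by
  have := good_init (D := 2 ^ 24) (σ := 2048) (by norm_num) (2 ^ 13) (rP past) (ents := entsOf J s.lv) fun t ht => by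
    obtain ⟨p, -, ht⟩ := List.mem_flatMap.1 ht
    obtain ⟨j, -, rfl⟩ := List.mem_map.1 ht
    positivity
  unfold GoodI
  rw [h1, h2, h3, h4]
  convert this using 1
  · norm_num
  · norm_num
  · ext x
    have := hg_zero h5 x
    unfold hg at this ⊢
    rw [List.map_cons, List.sum_cons, this]
    norm_num

lemma goodI_final {J : ℕ} {s : St} (h : GoodI (J + 1) [] s) (h1 : 2048 + s.e = 2 ^ 24) {p : ℕ} {l : List (ℕ × ℕ)}
    (h2 : s.lv = (0, p) :: l) (h3 : s.c ≤ 3 * 2 ^ 92) {N M : ℕ} (hM : 0 < M)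
    (h4 : N * 2 ^ 92 + M * (rho p J * 2 ^ 52 + tau p J * 2 ^ 28) < M * s.c) : Ev ((N : ℝ) / M) := by
  have c3 : (s.c : ℝ) ≤ 3 * 2 ^ 92 := by exact_mod_cast h3
  have c4 : (N : ℝ) * 2 ^ 92 + M * (rho p J * 2 ^ 52 + tau p J * 2 ^ 28) < M * s.c := by exact_mod_cast h4
  have M0 : (0 : ℝ) < M := by exact_mod_cast hM
  have r0 : (0 : ℝ) ≤ (rho p J : ℝ) / 2 ^ 40 := by positivity
  have t0 : (0 : ℝ) ≤ (tau p J : ℝ) / 2 ^ 64 := by positivity
  refine good_final (ρ := (rho p J : ℝ) / 2 ^ 40) (τ := (tau p J : ℝ) / 2 ^ 64) (by norm_num) (by norm_num) h1 h ?_ t0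
    ?_ ?_
  · rw [h2]
    refine List.mem_flatMap.2 ⟨_, List.mem_cons_self, List.mem_map.2 ⟨J, List.mem_range.2 J.lt_succ_self, ?_⟩⟩
    simp
  · have : (s.c : ℝ) / 2 ^ 92 ≤ 3 := by rw [div_le_iff₀ (by positivity)]; exact c3
    linarith
  · rw [div_lt_iff₀ M0]
    have e : ((s.c : ℝ) / 2 ^ 92 - (rho p J : ℝ) / 2 ^ 40 - (tau p J : ℝ) / 2 ^ 64) * M =
        (M * s.c - M * (rho p J * 2 ^ 52 + tau p J * 2 ^ 28)) / 2 ^ 92 := by ring
    rw [e, lt_div_iff₀ (by positivity)]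
    linarith

end
end Pool.Agent.MP_3bf126_pr.H21
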