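import Pool.Agent.MP_3bf126_pr.H21.D.B0
import Pool.Agent.MP_3bf126_pr.H21.D.B1
import Pool.Agent.MP_3bf126_pr.H21.D.B2
import Pool.Agent.MP_3bf126_pr.H21.D.B3
import Pool.Agent.MP_3bf126_pr.H21.D.B4
import Pool.Agent.MP_3bf126_pr.H21.D.B5
import Pool.Agent.MP_3bf126_pr.H21.D.B6
import Pool.Agent.MP_3bf126_pr.H21.D.B7
import Pool.Agent.MP_3bf126_pr.H21.D.B8
import Pool.Agent.MP_3bf126_pr.H21.D.B9
import Pool.Agent.MP_3bf126_pr.H21.D.B10
import Pool.Agent.MP_3bf126_pr.H21.D.B11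
import Pool.Agent.MP_3bf126_pr.H21.D.B12
import Pool.Agent.MP_3bf126_pr.H21.D.B13
import Pool.Agent.MP_3bf126_pr.H21.D.B14
import Pool.Agent.MP_3bf126_pr.H21.D.B15
import Pool.Agent.MP_3bf126_pr.H21.Sound

/-! The chain of all slabs. -/

namespace Pool.Agent.MP_3bf126_pr.H21
open K Pool.Agent.MP_3bf126_pr.H40

theorem g213 : GoodI 16 P213 S213 :=
  goodI_init _ _ (l := (hiOf S213).tail) (by decide +kernel) (by decide +kernel) (by decide +kernel)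
    (by decide +kernel) (by decide +kernel)
theorem g212 : GoodI 16 P212 S212 := chk_step b15.1 rfl g213
theorem g211 : GoodI 16 P211 S211 := chk_step b15.2.1 rfl g212
theorem g210 : GoodI 16 P210 S210 := chk_step b15.2.2.1 rfl g211
theorem g209 : GoodI 16 P209 S209 := chk_step b15.2.2.2.1 rfl g210
theorem g208 : GoodI 16 P208 S208 := chk_step b15.2.2.2.2.1 rfl g209
theorem g207 : GoodI 16 P207 S207 := chk_step b15.2.2.2.2.2.1 rfl g208
theorem g206 : GoodI 16 P206 S206 := chk_step b15.2.2.2.2.2.2.1 rfl g207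
theorem g205 : GoodI 16 P205 S205 := chk_step b15.2.2.2.2.2.2.2.1 rfl g206
theorem g204 : GoodI 16 P204 S204 := chk_step b15.2.2.2.2.2.2.2.2.1 rfl g205
theorem g203 : GoodI 16 P203 S203 := chk_step b15.2.2.2.2.2.2.2.2.2.1 rfl g204
theorem g202 : GoodI 16 P202 S202 := chk_step b15.2.2.2.2.2.2.2.2.2.2.1 rfl g203
theorem g201 : GoodI 16 P201 S201 := chk_step b15.2.2.2.2.2.2.2.2.2.2.2.1 rfl g202
theorem g200 : GoodI 16 P200 S200 := chk_step b15.2.2.2.2.2.2.2.2.2.2.2.2.1 rfl g201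
theorem g199 : GoodI 16 P199 S199 := chk_step b15.2.2.2.2.2.2.2.2.2.2.2.2.2.1 rfl g200
theorem g198 : GoodI 16 P198 S198 := chk_step b15.2.2.2.2.2.2.2.2.2.2.2.2.2.2.1 rfl g199
theorem g197 : GoodI 16 P197 S197 := chk_step b15.2.2.2.2.2.2.2.2.2.2.2.2.2.2.2.1 rfl g198
theorem g196 : GoodI 16 P196 S196 := chk_step b15.2.2.2.2.2.2.2.2.2.2.2.2.2.2.2.2 rfl g197
theorem g195 : GoodI 16 P195 S195 := chk_step b14.1 rfl g196
theorem g194 : GoodI 16 P194 S194 := chk_step b14.2.1 rfl g195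
theorem g193 : GoodI 16 P193 S193 := chk_step b14.2.2.1 rfl g194
theorem g192 : GoodI 16 P192 S192 := chk_step b14.2.2.2.1 rfl g193
theorem g191 : GoodI 16 P191 S191 := chk_step b14.2.2.2.2.1 rfl g192
theorem g190 : GoodI 16 P190 S190 := chk_step b14.2.2.2.2.2.1 rfl g191
theorem g189 : GoodI 16 P189 S189 := chk_step b14.2.2.2.2.2.2.1 rfl g190
theorem g188 : GoodI 16 P188 S188 := chk_step b14.2.2.2.2.2.2.2.1 rfl g189
theorem g187 : GoodI 16 P187 S187 := chk_step b14.2.2.2.2.2.2.2.2.1 rfl g188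
theorem g186 : GoodI 16 P186 S186 := chk_step b14.2.2.2.2.2.2.2.2.2.1 rfl g187
theorem g185 : GoodI 16 P185 S185 := chk_step b14.2.2.2.2.2.2.2.2.2.2.1 rfl g186
theorem g184 : GoodI 16 P184 S184 := chk_step b14.2.2.2.2.2.2.2.2.2.2.2.1 rfl g185
theorem g183 : GoodI 16 P183 S183 := chk_step b14.2.2.2.2.2.2.2.2.2.2.2.2 rfl g184
theorem g182 : GoodI 16 P182 S182 := chk_step b13.1 rfl g183
theorem g181 : GoodI 16 P181 S181 := chk_step b13.2.1 rfl g182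
theorem g180 : GoodI 16 P180 S180 := chk_step b13.2.2.1 rfl g181
theorem g179 : GoodI 16 P179 S179 := chk_step b13.2.2.2.1 rfl g180
theorem g178 : GoodI 16 P178 S178 := chk_step b13.2.2.2.2.1 rfl g179
theorem g177 : GoodI 16 P177 S177 := chk_step b13.2.2.2.2.2.1 rfl g178
theorem g176 : GoodI 16 P176 S176 := chk_step b13.2.2.2.2.2.2.1 rfl g177
theorem g175 : GoodI 16 P175 S175 := chk_step b13.2.2.2.2.2.2.2.1 rfl g176
theorem g174 : GoodI 16 P174 S174 := chk_step b13.2.2.2.2.2.2.2.2.1 rfl g175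
theorem g173 : GoodI 16 P173 S173 := chk_step b13.2.2.2.2.2.2.2.2.2.1 rfl g174
theorem g172 : GoodI 16 P172 S172 := chk_step b13.2.2.2.2.2.2.2.2.2.2.1 rfl g173
theorem g171 : GoodI 16 P171 S171 := chk_step b13.2.2.2.2.2.2.2.2.2.2.2 rfl g172
theorem g170 : GoodI 16 P170 S170 := chk_step b12.1 rfl g171
theorem g169 : GoodI 16 P169 S169 := chk_step b12.2.1 rfl g170
theorem g168 : GoodI 16 P168 S168 := chk_step b12.2.2.1 rfl g169
theorem g167 : GoodI 16 P167 S167 := chk_step b12.2.2.2.1 rfl g168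
theorem g166 : GoodI 16 P166 S166 := chk_step b12.2.2.2.2.1 rfl g167
theorem g165 : GoodI 16 P165 S165 := chk_step b12.2.2.2.2.2.1 rfl g166
theorem g164 : GoodI 16 P164 S164 := chk_step b12.2.2.2.2.2.2.1 rfl g165
theorem g163 : GoodI 16 P163 S163 := chk_step b12.2.2.2.2.2.2.2.1 rfl g164
theorem g162 : GoodI 16 P162 S162 := chk_step b12.2.2.2.2.2.2.2.2.1 rfl g163
theorem g161 : GoodI 16 P161 S161 := chk_step b12.2.2.2.2.2.2.2.2.2.1 rfl g162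
theorem g160 : GoodI 16 P160 S160 := chk_step b12.2.2.2.2.2.2.2.2.2.2.1 rfl g161
theorem g159 : GoodI 16 P159 S159 := chk_step b12.2.2.2.2.2.2.2.2.2.2.2.1 rfl g160
theorem g158 : GoodI 16 P158 S158 := chk_step b12.2.2.2.2.2.2.2.2.2.2.2.2.1 rfl g159
theorem g157 : GoodI 16 P157 S157 := chk_step b12.2.2.2.2.2.2.2.2.2.2.2.2.2 rfl g158
theorem g156 : GoodI 16 P156 S156 := chk_step b11.1 rfl g157
theorem g155 : GoodI 16 P155 S155 := chk_step b11.2.1 rfl g156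
theorem g154 : GoodI 16 P154 S154 := chk_step b11.2.2.1 rfl g155
theorem g153 : GoodI 16 P153 S153 := chk_step b11.2.2.2.1 rfl g154
theorem g152 : GoodI 16 P152 S152 := chk_step b11.2.2.2.2.1 rfl g153
theorem g151 : GoodI 16 P151 S151 := chk_step b11.2.2.2.2.2.1 rfl g152
theorem g150 : GoodI 16 P150 S150 := chk_step b11.2.2.2.2.2.2.1 rfl g151
theorem g149 : GoodI 16 P149 S149 := chk_step b11.2.2.2.2.2.2.2.1 rfl g150
theorem g148 : GoodI 16 P148 S148 := chk_step b11.2.2.2.2.2.2.2.2.1 rfl g149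
theorem g147 : GoodI 16 P147 S147 := chk_step b11.2.2.2.2.2.2.2.2.2.1 rfl g148
theorem g146 : GoodI 16 P146 S146 := chk_step b11.2.2.2.2.2.2.2.2.2.2.1 rfl g147
theorem g145 : GoodI 16 P145 S145 := chk_step b11.2.2.2.2.2.2.2.2.2.2.2.1 rfl g146
theorem g144 : GoodI 16 P144 S144 := chk_step b11.2.2.2.2.2.2.2.2.2.2.2.2.1 rfl g145
theorem g143 : GoodI 16 P143 S143 := chk_step b11.2.2.2.2.2.2.2.2.2.2.2.2.2.1 rfl g144
theorem g142 : GoodI 16 P142 S142 := chk_step b11.2.2.2.2.2.2.2.2.2.2.2.2.2.2 rfl g143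
theorem g141 : GoodI 16 P141 S141 := chk_step b10.1 rfl g142
theorem g140 : GoodI 16 P140 S140 := chk_step b10.2.1 rfl g141
theorem g139 : GoodI 16 P139 S139 := chk_step b10.2.2.1 rfl g140
theorem g138 : GoodI 16 P138 S138 := chk_step b10.2.2.2.1 rfl g139
theorem g137 : GoodI 16 P137 S137 := chk_step b10.2.2.2.2.1 rfl g138
theorem g136 : GoodI 16 P136 S136 := chk_step b10.2.2.2.2.2.1 rfl g137
theorem g135 : GoodI 16 P135 S135 := chk_step b10.2.2.2.2.2.2.1 rfl g136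
theorem g134 : GoodI 16 P134 S134 := chk_step b10.2.2.2.2.2.2.2.1 rfl g135
theorem g133 : GoodI 16 P133 S133 := chk_step b10.2.2.2.2.2.2.2.2.1 rfl g134
theorem g132 : GoodI 16 P132 S132 := chk_step b10.2.2.2.2.2.2.2.2.2.1 rfl g133
theorem g131 : GoodI 16 P131 S131 := chk_step b10.2.2.2.2.2.2.2.2.2.2.1 rfl g132
theorem g130 : GoodI 16 P130 S130 := chk_step b10.2.2.2.2.2.2.2.2.2.2.2.1 rfl g131
theorem g129 : GoodI 16 P129 S129 := chk_step b10.2.2.2.2.2.2.2.2.2.2.2.2 rfl g130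
theorem g128 : GoodI 16 P128 S128 := chk_step b9.1 rfl g129
theorem g127 : GoodI 16 P127 S127 := chk_step b9.2.1 rfl g128
theorem g126 : GoodI 16 P126 S126 := chk_step b9.2.2.1 rfl g127
theorem g125 : GoodI 16 P125 S125 := chk_step b9.2.2.2.1 rfl g126
theorem g124 : GoodI 16 P124 S124 := chk_step b9.2.2.2.2.1 rfl g125
theorem g123 : GoodI 16 P123 S123 := chk_step b9.2.2.2.2.2.1 rfl g124
theorem g122 : GoodI 16 P122 S122 := chk_step b9.2.2.2.2.2.2.1 rfl g123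
theorem g121 : GoodI 16 P121 S121 := chk_step b9.2.2.2.2.2.2.2.1 rfl g122
theorem g120 : GoodI 16 P120 S120 := chk_step b9.2.2.2.2.2.2.2.2.1 rfl g121
theorem g119 : GoodI 16 P119 S119 := chk_step b9.2.2.2.2.2.2.2.2.2.1 rfl g120
theorem g118 : GoodI 16 P118 S118 := chk_step b9.2.2.2.2.2.2.2.2.2.2.1 rfl g119
theorem g117 : GoodI 16 P117 S117 := chk_step b9.2.2.2.2.2.2.2.2.2.2.2.1 rfl g118
theorem g116 : GoodI 16 P116 S116 := chk_step b9.2.2.2.2.2.2.2.2.2.2.2.2.1 rfl g117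
theorem g115 : GoodI 16 P115 S115 := chk_step b9.2.2.2.2.2.2.2.2.2.2.2.2.2 rfl g116
theorem g114 : GoodI 16 P114 S114 := chk_step b8.1 rfl g115
theorem g113 : GoodI 16 P113 S113 := chk_step b8.2.1 rfl g114
theorem g112 : GoodI 16 P112 S112 := chk_step b8.2.2.1 rfl g113
theorem g111 : GoodI 16 P111 S111 := chk_step b8.2.2.2.1 rfl g112
theorem g110 : GoodI 16 P110 S110 := chk_step b8.2.2.2.2.1 rfl g111
theorem g109 : GoodI 16 P109 S109 := chk_step b8.2.2.2.2.2.1 rfl g110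
theorem g108 : GoodI 16 P108 S108 := chk_step b8.2.2.2.2.2.2.1 rfl g109
theorem g107 : GoodI 16 P107 S107 := chk_step b8.2.2.2.2.2.2.2.1 rfl g108
theorem g106 : GoodI 16 P106 S106 := chk_step b8.2.2.2.2.2.2.2.2.1 rfl g107
theorem g105 : GoodI 16 P105 S105 := chk_step b8.2.2.2.2.2.2.2.2.2.1 rfl g106
theorem g104 : GoodI 16 P104 S104 := chk_step b8.2.2.2.2.2.2.2.2.2.2.1 rfl g105
theorem g103 : GoodI 16 P103 S103 := chk_step b8.2.2.2.2.2.2.2.2.2.2.2.1 rfl g104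
theorem g102 : GoodI 16 P102 S102 := chk_step b8.2.2.2.2.2.2.2.2.2.2.2.2 rfl g103
theorem g101 : GoodI 16 P101 S101 := chk_step b7.1 rfl g102
theorem g100 : GoodI 16 P100 S100 := chk_step b7.2.1 rfl g101
theorem g99 : GoodI 16 P99 S99 := chk_step b7.2.2.1 rfl g100
theorem g98 : GoodI 16 P98 S98 := chk_step b7.2.2.2.1 rfl g99
theorem g97 : GoodI 16 P97 S97 := chk_step b7.2.2.2.2.1 rfl g98
theorem g96 : GoodI 16 P96 S96 := chk_step b7.2.2.2.2.2.1 rfl g97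
theorem g95 : GoodI 16 P95 S95 := chk_step b7.2.2.2.2.2.2.1 rfl g96
theorem g94 : GoodI 16 P94 S94 := chk_step b7.2.2.2.2.2.2.2.1 rfl g95
theorem g93 : GoodI 16 P93 S93 := chk_step b7.2.2.2.2.2.2.2.2.1 rfl g94
theorem g92 : GoodI 16 P92 S92 := chk_step b7.2.2.2.2.2.2.2.2.2.1 rfl g93
theorem g91 : GoodI 16 P91 S91 := chk_step b7.2.2.2.2.2.2.2.2.2.2.1 rfl g92
theorem g90 : GoodI 16 P90 S90 := chk_step b7.2.2.2.2.2.2.2.2.2.2.2.1 rfl g91
theorem g89 : GoodI 16 P89 S89 := chk_step b7.2.2.2.2.2.2.2.2.2.2.2.2.1 rfl g90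
theorem g88 : GoodI 16 P88 S88 := chk_step b7.2.2.2.2.2.2.2.2.2.2.2.2.2 rfl g89
theorem g87 : GoodI 16 P87 S87 := chk_step b6.1 rfl g88
theorem g86 : GoodI 16 P86 S86 := chk_step b6.2.1 rfl g87
theorem g85 : GoodI 16 P85 S85 := chk_step b6.2.2.1 rfl g86
theorem g84 : GoodI 16 P84 S84 := chk_step b6.2.2.2.1 rfl g85
theorem g83 : GoodI 16 P83 S83 := chk_step b6.2.2.2.2.1 rfl g84
theorem g82 : GoodI 16 P82 S82 := chk_step b6.2.2.2.2.2.1 rfl g83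
theorem g81 : GoodI 16 P81 S81 := chk_step b6.2.2.2.2.2.2.1 rfl g82
theorem g80 : GoodI 16 P80 S80 := chk_step b6.2.2.2.2.2.2.2.1 rfl g81
theorem g79 : GoodI 16 P79 S79 := chk_step b6.2.2.2.2.2.2.2.2.1 rfl g80
theorem g78 : GoodI 16 P78 S78 := chk_step b6.2.2.2.2.2.2.2.2.2.1 rfl g79
theorem g77 : GoodI 16 P77 S77 := chk_step b6.2.2.2.2.2.2.2.2.2.2.1 rfl g78
theorem g76 : GoodI 16 P76 S76 := chk_step b6.2.2.2.2.2.2.2.2.2.2.2.1 rfl g77
theorem g75 : GoodI 16 P75 S75 := chk_step b6.2.2.2.2.2.2.2.2.2.2.2.2 rfl g76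
theorem g74 : GoodI 16 P74 S74 := chk_step b5.1 rfl g75
theorem g73 : GoodI 16 P73 S73 := chk_step b5.2.1 rfl g74
theorem g72 : GoodI 16 P72 S72 := chk_step b5.2.2.1 rfl g73
theorem g71 : GoodI 16 P71 S71 := chk_step b5.2.2.2.1 rfl g72
theorem g70 : GoodI 16 P70 S70 := chk_step b5.2.2.2.2.1 rfl g71
theorem g69 : GoodI 16 P69 S69 := chk_step b5.2.2.2.2.2.1 rfl g70
theorem g68 : GoodI 16 P68 S68 := chk_step b5.2.2.2.2.2.2.1 rfl g69
theorem g67 : GoodI 16 P67 S67 := chk_step b5.2.2.2.2.2.2.2.1 rfl g68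
theorem g66 : GoodI 16 P66 S66 := chk_step b5.2.2.2.2.2.2.2.2.1 rfl g67
theorem g65 : GoodI 16 P65 S65 := chk_step b5.2.2.2.2.2.2.2.2.2.1 rfl g66
theorem g64 : GoodI 16 P64 S64 := chk_step b5.2.2.2.2.2.2.2.2.2.2.1 rfl g65
theorem g63 : GoodI 16 P63 S63 := chk_step b5.2.2.2.2.2.2.2.2.2.2.2.1 rfl g64
theorem g62 : GoodI 16 P62 S62 := chk_step b5.2.2.2.2.2.2.2.2.2.2.2.2.1 rfl g63
theorem g61 : GoodI 16 P61 S61 := chk_step b5.2.2.2.2.2.2.2.2.2.2.2.2.2 rfl g62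
theorem g60 : GoodI 16 P60 S60 := chk_step b4.1 rfl g61
theorem g59 : GoodI 16 P59 S59 := chk_step b4.2.1 rfl g60
theorem g58 : GoodI 16 P58 S58 := chk_step b4.2.2.1 rfl g59
theorem g57 : GoodI 16 P57 S57 := chk_step b4.2.2.2.1 rfl g58
theorem g56 : GoodI 16 P56 S56 := chk_step b4.2.2.2.2.1 rfl g57
theorem g55 : GoodI 16 P55 S55 := chk_step b4.2.2.2.2.2.1 rfl g56
theorem g54 : GoodI 16 P54 S54 := chk_step b4.2.2.2.2.2.2.1 rfl g55
theorem g53 : GoodI 16 P53 S53 := chk_step b4.2.2.2.2.2.2.2.1 rfl g54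
theorem g52 : GoodI 16 P52 S52 := chk_step b4.2.2.2.2.2.2.2.2.1 rfl g53
theorem g51 : GoodI 16 P51 S51 := chk_step b4.2.2.2.2.2.2.2.2.2.1 rfl g52
theorem g50 : GoodI 16 P50 S50 := chk_step b4.2.2.2.2.2.2.2.2.2.2.1 rfl g51
theorem g49 : GoodI 16 P49 S49 := chk_step b4.2.2.2.2.2.2.2.2.2.2.2.1 rfl g50
theorem g48 : GoodI 16 P48 S48 := chk_step b4.2.2.2.2.2.2.2.2.2.2.2.2 rfl g49
theorem g47 : GoodI 16 P47 S47 := chk_step b3.1 rfl g48
theorem g46 : GoodI 16 P46 S46 := chk_step b3.2.1 rfl g47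
theorem g45 : GoodI 16 P45 S45 := chk_step b3.2.2.1 rfl g46
theorem g44 : GoodI 16 P44 S44 := chk_step b3.2.2.2.1 rfl g45
theorem g43 : GoodI 16 P43 S43 := chk_step b3.2.2.2.2.1 rfl g44
theorem g42 : GoodI 16 P42 S42 := chk_step b3.2.2.2.2.2.1 rfl g43
theorem g41 : GoodI 16 P41 S41 := chk_step b3.2.2.2.2.2.2.1 rfl g42
theorem g40 : GoodI 16 P40 S40 := chk_step b3.2.2.2.2.2.2.2.1 rfl g41
theorem g39 : GoodI 16 P39 S39 := chk_step b3.2.2.2.2.2.2.2.2.1 rfl g40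
theorem g38 : GoodI 16 P38 S38 := chk_step b3.2.2.2.2.2.2.2.2.2.1 rfl g39
theorem g37 : GoodI 16 P37 S37 := chk_step b3.2.2.2.2.2.2.2.2.2.2.1 rfl g38
theorem g36 : GoodI 16 P36 S36 := chk_step b3.2.2.2.2.2.2.2.2.2.2.2 rfl g37
theorem g35 : GoodI 16 P35 S35 := chk_step b2.1 rfl g36
theorem g34 : GoodI 16 P34 S34 := chk_step b2.2.1 rfl g35
theorem g33 : GoodI 16 P33 S33 := chk_step b2.2.2.1 rfl g34
theorem g32 : GoodI 16 P32 S32 := chk_step b2.2.2.2.1 rfl g33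
theorem g31 : GoodI 16 P31 S31 := chk_step b2.2.2.2.2.1 rfl g32
theorem g30 : GoodI 16 P30 S30 := chk_step b2.2.2.2.2.2.1 rfl g31
theorem g29 : GoodI 16 P29 S29 := chk_step b2.2.2.2.2.2.2.1 rfl g30
theorem g28 : GoodI 16 P28 S28 := chk_step b2.2.2.2.2.2.2.2.1 rfl g29
theorem g27 : GoodI 16 P27 S27 := chk_step b2.2.2.2.2.2.2.2.2.1 rfl g28
theorem g26 : GoodI 16 P26 S26 := chk_step b2.2.2.2.2.2.2.2.2.2.1 rfl g27
theorem g25 : GoodI 16 P25 S25 := chk_step b2.2.2.2.2.2.2.2.2.2.2 rfl g26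
theorem g24 : GoodI 16 P24 S24 := chk_step b1.1 rfl g25
theorem g23 : GoodI 16 P23 S23 := chk_step b1.2.1 rfl g24
theorem g22 : GoodI 16 P22 S22 := chk_step b1.2.2.1 rfl g23
theorem g21 : GoodI 16 P21 S21 := chk_step b1.2.2.2.1 rfl g22
theorem g20 : GoodI 16 P20 S20 := chk_step b1.2.2.2.2.1 rfl g21
theorem g19 : GoodI 16 P19 S19 := chk_step b1.2.2.2.2.2.1 rfl g20
theorem g18 : GoodI 16 P18 S18 := chk_step b1.2.2.2.2.2.2.1 rfl g19
theorem g17 : GoodI 16 P17 S17 := chk_step b1.2.2.2.2.2.2.2.1 rfl g18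
theorem g16 : GoodI 16 P16 S16 := chk_step b1.2.2.2.2.2.2.2.2.1 rfl g17
theorem g15 : GoodI 16 P15 S15 := chk_step b1.2.2.2.2.2.2.2.2.2.1 rfl g16
theorem g14 : GoodI 16 P14 S14 := chk_step b1.2.2.2.2.2.2.2.2.2.2 rfl g15
theorem g13 : GoodI 16 P13 S13 := chk_step b0.1 rfl g14
theorem g12 : GoodI 16 P12 S12 := chk_step b0.2.1 rfl g13
theorem g11 : GoodI 16 P11 S11 := chk_step b0.2.2.1 rfl g12
theorem g10 : GoodI 16 P10 S10 := chk_step b0.2.2.2.1 rfl g11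
theorem g9 : GoodI 16 P9 S9 := chk_step b0.2.2.2.2.1 rfl g10
theorem g8 : GoodI 16 P8 S8 := chk_step b0.2.2.2.2.2.1 rfl g9
theorem g7 : GoodI 16 P7 S7 := chk_step b0.2.2.2.2.2.2.1 rfl g8
theorem g6 : GoodI 16 P6 S6 := chk_step b0.2.2.2.2.2.2.2.1 rfl g7
theorem g5 : GoodI 16 P5 S5 := chk_step b0.2.2.2.2.2.2.2.2.1 rfl g6
theorem g4 : GoodI 16 P4 S4 := chk_step b0.2.2.2.2.2.2.2.2.2.1 rfl g5
theorem g3 : GoodI 16 P3 S3 := chk_step b0.2.2.2.2.2.2.2.2.2.2.1 rfl g4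
theorem g2 : GoodI 16 P2 S2 := chk_step b0.2.2.2.2.2.2.2.2.2.2.2.1 rfl g3
theorem g1 : GoodI 16 P1 S1 := chk_step b0.2.2.2.2.2.2.2.2.2.2.2.2.1 rfl g2
theorem g0 : GoodI 16 P0 S0 := chk_step b0.2.2.2.2.2.2.2.2.2.2.2.2.2 rfl g1

theorem ev_main : Ev ((2292 : ℕ) / (1000 : ℕ)) :=
  goodI_final (J := 15) g0 (by decide +kernel) (p := (S0.lv.headD (0, 0)).2) (l := S0.lv.tail) (by decide +kernel)
    (by decide +kernel) (by decide +kernel) (by decide +kernel)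

end Pool.Agent.MP_3bf126_pr.H21
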