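import Pool.Agent.MP_3bf126_pr.H21.Defs

/-! The truncated value function with running reward. -/

namespace Pool.Agent.MP_3bf126_pr.H21
open MeasureTheory Set Filter Pool.Agent.MP_3bf126_pr.H40
open scoped ENNReal
noncomputable section
variable {p : Par}

namespace Md

lemma n_pos (hp : p.OK) : 0 < p.n := hp.X0.trans hp.Xn

lemma s_nn (hp : p.OK) (j : ℕ) : 0 ≤ p.s j := div_nonneg (Nat.cast_nonneg _) (n_pos hp).le

lemma ii_min {f g : ℝ → ℝ} {a b : ℝ} (hf : IntervalIntegrable f volume a b)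
    (hg : IntervalIntegrable g volume a b) :
    IntervalIntegrable (fun x => min (f x) (g x)) volume a b := ⟨hf.1.inf hg.1, hf.2.inf hg.2⟩

lemma ii_max {f g : ℝ → ℝ} {a b : ℝ} (hf : IntervalIntegrable f volume a b)
    (hg : IntervalIntegrable g volume a b) :
    IntervalIntegrable (fun x => max (f x) (g x)) volume a b := ⟨hf.1.sup hg.1, hf.2.sup hg.2⟩

lemma ii_const (c a b : ℝ) : IntervalIntegrable (fun _ : ℝ => c) volume a b :=
  continuous_const.intervalIntegrable _ _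

lemma acc_ii (hp : p.OK) (j : ℕ) (ξ : List ℝ) (a b : ℝ) :
    IntervalIntegrable (acc (p.s j) ξ) volume a b :=
  Monotone.intervalIntegrable (fun _ _ h => acc_mono (s_nn hp j) ξ h)

lemma acc_mid (s : ℝ) (ξ₁ ξ₂ : List ℝ) (x t : ℝ) :
    acc s (ξ₁ ++ x :: ξ₂) t = acc s (ξ₁ ++ ξ₂) t + if x < t then 1 else 0 := by
  simp only [acc, cl, List.map_append, List.map_cons, List.sum_append, List.sum_cons]
  ring

lemma acc_anti (s : ℝ) (ξ₁ ξ₂ : List ℝ) {a b : ℝ} (h : a ≤ b) (t : ℝ) :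
    acc s (ξ₁ ++ b :: ξ₂) t ≤ acc s (ξ₁ ++ a :: ξ₂) t := by
  rw [acc_mid, acc_mid]
  gcongr
  split_ifs with h1 h2
  · rfl
  · exact absurd (h.trans_lt h1) h2
  · norm_num
  · rfl

lemma U_succ (S : ℝ) (j : ℕ) (ξ : List ℝ) : p.U S (j + 1) ξ =
    (-S + (∫ x in (0 : ℝ)..p.X, min (acc (p.s j) ξ x) (p.U S j (x :: ξ))) +
      ∫ x in p.X..p.n, min (acc (p.s j) ξ x) (p.U S j ξ)) / p.n := rfl

lemma U_zero (S : ℝ) (ξ : List ℝ) : p.U S 0 ξ =
    1 + (ξ.map fun x => p.s 0 * max (p.X - x) 0).sum - S * p.s 0 := rfl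

lemma I2 (hp : p.OK) (j : ℕ) (ξ : List ℝ) (c a b : ℝ) :
    IntervalIntegrable (fun x => min (acc (p.s j) ξ x) c) volume a b :=
  ii_min (acc_ii hp j ξ a b) (ii_const c a b)

lemma anti (hp : p.OK) (S : ℝ) (j : ℕ) : ∀ ξ₁ ξ₂ : List ℝ,
    Antitone fun x => p.U S j (ξ₁ ++ x :: ξ₂) := by
  induction j with
  | zero =>
    intro ξ₁ ξ₂ a b h
    simp only [U_zero, List.map_append, List.map_cons, List.sum_append, List.sum_cons]
    have := s_nn hp 0
    have h1 : max (p.X - b) 0 ≤ max (p.X - a) 0 := max_le_max (by linarith) le_rfl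
    have := mul_le_mul_of_nonneg_left h1 this
    linarith
  | succ j ih =>
    intro ξ₁ ξ₂ a b h
    have I1 : ∀ ξ : List ℝ, IntervalIntegrable
        (fun x => min (acc (p.s j) ξ x) (p.U S j (x :: ξ))) volume 0 p.X := fun ξ =>
      ii_min (acc_ii hp j ξ _ _) (Antitone.intervalIntegrable (ih [] ξ))
    simp only [U_succ]
    refine div_le_div_of_nonneg_right ?_ (n_pos hp).le
    refine add_le_add (add_le_add le_rfl ?_) ?_
    · exact intervalIntegral.integral_mono_on hp.X0.le (I1 _) (I1 _) fun t _ =>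
        min_le_min (acc_anti _ _ _ h t) (ih (t :: ξ₁) ξ₂ h)
    · exact intervalIntegral.integral_mono_on hp.Xn.le (I2 hp _ _ _ _ _) (I2 hp _ _ _ _ _) fun t _ =>
        min_le_min (acc_anti _ _ _ h t) (ih ξ₁ ξ₂ h)

lemma U_ii (hp : p.OK) (S : ℝ) (j : ℕ) (ξ : List ℝ) (a b : ℝ) :
    IntervalIntegrable (fun x => p.U S j (x :: ξ)) volume a b :=
  Antitone.intervalIntegrable (anti hp S j [] ξ)

lemma I1 (hp : p.OK) (S : ℝ) (j : ℕ) (ξ : List ℝ) (a b : ℝ) :
    IntervalIntegrable (fun x => min (acc (p.s j) ξ x) (p.U S j (x :: ξ))) volume a b :=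
  ii_min (acc_ii hp j ξ _ _) (U_ii hp S j ξ a b)

lemma min_tag {a u u' g : ℝ} (P : Prop) [Decidable P] (g0 : 0 ≤ g) (g1 : g ≤ 1) (h : u + g ≤ u') :
    min a u + (if P then g else 0) ≤ min (a + if P then 1 else 0) u' := by
  have h1 := min_le_left a u
  have h2 := min_le_right a u
  split_ifs <;> exact le_min (by linarith) (by linarith)

lemma min_conc {a u v w ω : ℝ} (h0 : 0 ≤ ω) (h1 : ω ≤ 1) (h : (1 - ω) * u + ω * v ≤ w) :
    (1 - ω) * min a u + ω * min a v ≤ min a w := by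
  have h2 := mul_le_mul_of_nonneg_left (min_le_left a u) (sub_nonneg.2 h1)
  have h3 := mul_le_mul_of_nonneg_left (min_le_right a u) (sub_nonneg.2 h1)
  have h4 := mul_le_mul_of_nonneg_left (min_le_left a v) h0
  have h5 := mul_le_mul_of_nonneg_left (min_le_right a v) h0
  exact le_min (by linarith) (by linarith)

lemma meas_sum {α : Type} [MeasurableSpace α] (φ : α → ℝ → ℝ) (f : List (α → ℝ))
    (hφ : ∀ g ∈ f, Measurable fun a => φ a (g a)) :
    Measurable fun a => ((f.map fun g => g a).map (φ a)).sum := by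
  induction f with
  | nil => simp
  | cons g f ih =>
    simp only [List.map_cons, List.sum_cons]
    exact (hφ g (by simp)).add (ih fun k hk => hφ k (by simp [hk]))

lemma meas_acc {α : Type} [MeasurableSpace α] (s : ℝ) (f : List (α → ℝ))
    (hf : ∀ g ∈ f, Measurable g) :
    Measurable fun q : α × ℝ => acc s (f.map fun g => g q.1) q.2 := by
  have h := meas_sum (α := α × ℝ) (fun q v => if v < q.2 then (1 : ℝ) else 0)
    (f.map fun g q => g q.1) (by
      intro g hg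
      obtain ⟨k, hk, rfl⟩ := List.mem_map.1 hg
      exact Measurable.ite (measurableSet_lt ((hf k hk).comp measurable_fst) measurable_snd)
        measurable_const measurable_const)
  simp only [List.map_map] at h
  simp only [acc, cl, List.map_map]
  exact (measurable_const.add (measurable_snd.const_mul s)).add h

lemma meas_ii {α : Type} [MeasurableSpace α] {F : α × ℝ → ℝ} (hF : Measurable F) (a b : ℝ) :
    Measurable fun y => ∫ x in a..b, F (y, x) := by
  unfold intervalIntegral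
  exact (hF.stronglyMeasurable.integral_prod_right' (ν := volume.restrict (Ioc a b))).measurable.sub
    (hF.stronglyMeasurable.integral_prod_right' (ν := volume.restrict (Ioc b a))).measurable

lemma ell_cons (c T : ℝ) (φ : ℝ → ℝ) (S x : ℝ) (ξ : List ℝ) :
    ell c T φ S (x :: ξ) = ell c T φ S ξ + φ x := by
  simp only [ell, List.map_cons, List.sum_cons]; ring

lemma ell_new (hp : p.OK) (z c T S : ℝ) (φ : ℝ → ℝ) (j : ℕ) (ξ : List ℝ) :
    ell ((1 - z / p.n) * c + src p z φ j / p.n) ((1 - z / p.n) * T + 1 / p.n)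
      (fun u => (1 - z / p.n) * φ u + max (z - u) 0 / p.n) S ξ =
    (-S + (z + p.s j * z ^ 2 / 2 + pos ξ z) +
      (ell c T φ S ξ * (p.X - z) + ∫ x in z..p.X, φ x) + ell c T φ S ξ * (p.n - p.X)) / p.n := by
  have hn := (n_pos hp).ne'
  induction ξ with
  | nil => simp only [ell, src, pos, List.map_nil, List.sum_nil]; field_simp; ring
  | cons v ξ ih =>
    have e : pos (v :: ξ) z = pos ξ z + max (z - v) 0 := by
      simp only [pos, List.map_cons, List.sum_cons]; ring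
    rw [ell_cons, ih, ell_cons, e]
    field_simp; ring

lemma hasI_ell {φ : ℝ → ℝ} (hφ : Continuous φ) (v a b : ℝ) :
    HasI (fun x => v + φ x) a b (v * (b - a) + ∫ x in a..b, φ x) :=
  (hasI_const v a b).add ⟨hφ.intervalIntegrable _ _, rfl⟩

lemma good_cons {ξ : List ℝ} (hξ : Good p ξ) {x : ℝ} (h0 : 0 ≤ x) (h1 : x ≤ p.X) :
    Good p (x :: ξ) := by
  intro v hv
  rcases List.mem_cons.1 hv with rfl | hv
  exacts [⟨h0, h1⟩, hξ v hv]

lemma U_split (hp : p.OK) (S z : ℝ) (j : ℕ) (ξ : List ℝ) : p.U S (j + 1) ξ =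
    (-S + (∫ x in (0 : ℝ)..z, min (acc (p.s j) ξ x) (p.U S j (x :: ξ))) +
      (∫ x in z..p.X, min (acc (p.s j) ξ x) (p.U S j (x :: ξ))) +
      ∫ x in p.X..p.n, min (acc (p.s j) ξ x) (p.U S j ξ)) / p.n := by
  rw [U_succ, ← intervalIntegral.integral_add_adjacent_intervals (I1 hp S j ξ 0 z) (I1 hp S j ξ z p.X),
    add_assoc (-S) (∫ x in (0 : ℝ)..z, _)]

lemma sub_min {l a u : ℝ} (h : u ≤ l) : l ≤ min a u + ((l - u) + max (l - a) 0) := by
  have h1 := le_max_left (l - a) 0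
  have h2 := le_max_right (l - a) 0
  rcases le_total a u with h3 | h3
  · rw [min_eq_left h3]; linarith
  · rw [min_eq_right h3]; linarith

end Md
open Md

lemma U_anti (hp : p.OK) (S : ℝ) (j : ℕ) (ξ₁ ξ₂ : List ℝ) :
    Antitone fun x => p.U S j (ξ₁ ++ x :: ξ₂) := anti hp S j ξ₁ ξ₂

lemma U_tag (hp : p.OK) (S : ℝ) (j : ℕ) (ξ₁ ξ₂ : List ℝ) {x y : ℝ} (hy : 0 ≤ y) (hyx : y ≤ x)
    (hx : x ≤ p.X) : p.U (S + y) j (ξ₁ ++ ξ₂) + y / x ≤ p.U S j (ξ₁ ++ x :: ξ₂) := by
  have hx0 : 0 ≤ x := hy.trans hyx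
  have g0 : 0 ≤ y / x := div_nonneg hy hx0
  have g1 : y / x ≤ 1 := div_le_one_of_le₀ hyx hx0
  have gx : y / x * x = y := by
    rcases hx0.eq_or_lt with h | h
    · have : y = 0 := by linarith
      simp [this]
    · exact div_mul_cancel₀ _ h.ne'
  generalize y / x = g at g0 g1 gx
  have hn := n_pos hp
  induction j generalizing ξ₁ with
  | zero =>
    simp only [U_zero, List.map_append, List.map_cons, List.sum_append, List.sum_cons]
    rw [max_eq_left (sub_nonneg.2 hx)]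
    have h1 := hp.e
    have h2 : p.s 0 * x ≤ 1 := h1 ▸ mul_le_mul_of_nonneg_left hx (s_nn hp 0)
    have h3 := mul_nonneg (sub_nonneg.2 g1) (sub_nonneg.2 h2)
    have h4 : g * (p.s 0 * x) = y * p.s 0 := by rw [← gx]; ring
    nlinarith
  | succ j ih =>
    have a1 : HasI (fun t => if x < t then g else 0) 0 p.X (0 * (x - 0) + g * (p.X - x)) :=
      ((hasI_const 0 0 x).congr hx0 fun t _ h2 => by simp [h2.le]).trans
        ((hasI_const g x p.X).congr hx fun t h1 _ => by simp [h1])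
    have a2 : HasI (fun t => if x < t then g else 0) p.X p.n (g * (p.n - p.X)) :=
      (hasI_const g p.X p.n).congr hp.Xn.le fun t h1 _ => by simp [hx.trans_lt h1]
    have b1 := intervalIntegral.integral_mono_on hp.X0.le
      ((I1 hp (S + y) j (ξ₁ ++ ξ₂) 0 p.X).add a1.1) (I1 hp S j (ξ₁ ++ x :: ξ₂) 0 p.X) fun t _ => by
        rw [acc_mid]
        exact min_tag _ g0 g1 (ih (t :: ξ₁))
    have b2 := intervalIntegral.integral_mono_on hp.Xn.le
      ((I2 hp j (ξ₁ ++ ξ₂) (p.U (S + y) j (ξ₁ ++ ξ₂)) p.X p.n).add a2.1)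
      (I2 hp j (ξ₁ ++ x :: ξ₂) (p.U S j (ξ₁ ++ x :: ξ₂)) p.X p.n) fun t _ => by
        rw [acc_mid]
        exact min_tag _ g0 g1 (ih ξ₁)
    rw [intervalIntegral.integral_add (I1 hp _ _ _ _ _) a1.1, a1.2] at b1
    rw [intervalIntegral.integral_add (I2 hp _ _ _ _ _) a2.1, a2.2] at b2
    rw [U_succ, U_succ, div_add' _ _ _ hn.ne']
    refine div_le_div_of_nonneg_right ?_ hn.le
    linarith

lemma U_conc (hp : p.OK) (j : ℕ) (ξ : List ℝ) (Sa Sb : ℝ) {ω : ℝ} (h0 : 0 ≤ ω) (h1 : ω ≤ 1) :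
    (1 - ω) * p.U Sa j ξ + ω * p.U Sb j ξ ≤ p.U ((1 - ω) * Sa + ω * Sb) j ξ := by
  have hn := n_pos hp
  induction j generalizing ξ with
  | zero => simp only [U_zero]; exact le_of_eq (by ring)
  | succ j ih =>
    have b1 := intervalIntegral.integral_mono_on hp.X0.le
      (((I1 hp Sa j ξ 0 p.X).const_mul (1 - ω)).add ((I1 hp Sb j ξ 0 p.X).const_mul ω))
      (I1 hp ((1 - ω) * Sa + ω * Sb) j ξ 0 p.X) fun t _ => min_conc h0 h1 (ih (t :: ξ))
    have b2 := intervalIntegral.integral_mono_on hp.Xn.le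
      (((I2 hp j ξ (p.U Sa j ξ) p.X p.n).const_mul (1 - ω)).add
        ((I2 hp j ξ (p.U Sb j ξ) p.X p.n).const_mul ω))
      (I2 hp j ξ (p.U ((1 - ω) * Sa + ω * Sb) j ξ) p.X p.n) fun t _ => min_conc h0 h1 (ih ξ)
    rw [intervalIntegral.integral_add ((I1 hp _ _ _ _ _).const_mul _) ((I1 hp _ _ _ _ _).const_mul _),
      intervalIntegral.integral_const_mul, intervalIntegral.integral_const_mul] at b1
    rw [intervalIntegral.integral_add ((I2 hp _ _ _ _ _).const_mul _) ((I2 hp _ _ _ _ _).const_mul _),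
      intervalIntegral.integral_const_mul, intervalIntegral.integral_const_mul] at b2
    rw [U_succ, U_succ, U_succ, ← mul_div_assoc, ← mul_div_assoc, ← add_div]
    refine div_le_div_of_nonneg_right ?_ hn.le
    linarith

lemma U_le_Vx (hp : p.OK) (j : ℕ) {ξ : List ℝ} (hξ : Good p ξ) :
    ENNReal.ofReal (p.U 0 j ξ) ≤ Vx p.n (p.r0 + j) ξ := by
  have hn := n_pos hp
  have hv : ∀ x, 0 ≤ x → x ≤ p.n → 0 ≤ 1 - x / p.n ∧ 1 - x / p.n ≤ 1 := fun x h0 h1 =>
    ⟨sub_nonneg.2 ((div_le_one hn).2 h1), sub_le_self _ (div_nonneg h0 hn.le)⟩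
  induction j generalizing ξ with
  | zero =>
    refine le_trans ?_ (Val_list (p.r0 + 0) (ξ.map fun x => 1 - x / p.n) (by
      intro v hv'
      obtain ⟨x, hx, rfl⟩ := List.mem_map.1 hv'
      exact hv x (hξ x hx).1 ((hξ x hx).2.trans hp.Xn.le)))
    rw [U_zero, zero_mul, sub_zero]
    refine ENNReal.ofReal_add_le.trans (add_le_add (by simpa using one_le_Val _ _)
      (ENNReal.ofReal_le_ofReal ?_))
    rw [List.map_map]
    refine List.sum_le_sum fun x hx => ?_
    have h1 := hv x (hξ x hx).1 ((hξ x hx).2.trans hp.Xn.le)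
    have h2 := one_add_mul_le_pow (a := -(x / p.n)) (by linarith [h1.1]) (p.r0 + 0)
    rw [max_eq_left (sub_nonneg.2 (hξ x hx).2), mul_sub, hp.e]
    refine le_trans (le_of_eq ?_) (h2.trans (le_of_eq (by simp [sub_eq_add_neg])))
    simp only [Par.s]; ring
  | succ j ih =>
    obtain ⟨r, hr⟩ : ∃ r, p.r0 + j = r + 1 := ⟨p.r0 + j - 1, by have := hp.r; omega⟩
    have hs : p.s j = ((r + 1 : ℕ) : ℝ) / p.n := by rw [Par.s, hr]
    set l : ℝ → ℝ := fun x => if x < p.X then min (acc (p.s j) ξ x) (p.U 0 j (x :: ξ))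
      else min (acc (p.s j) ξ x) (p.U 0 j ξ) with hl
    have a1 := HasI.congr ⟨I1 hp 0 j ξ 0 p.X, rfl⟩ (g := l) hp.X0.le fun t _ h2 => by simp [hl, h2]
    have a2 := HasI.congr ⟨I2 hp j ξ (p.U 0 j ξ) p.X p.n, rfl⟩ (g := l) hp.Xn.le
      fun t h1 _ => by simp [hl, h1.le]
    have key := stepX hn r ξ l _ 0 (a1.trans a2) (by
      intro x hx0 hxn _
      rw [← hs, ← hr]
      by_cases h : x < p.X
      · simp only [hl, h, if_true]
        exact ⟨(ENNReal.ofReal_le_ofReal (min_le_right _ _)).trans (ih (good_cons hξ hx0 h.le)),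
          ENNReal.ofReal_le_ofReal (min_le_left _ _)⟩
      · simp only [hl, h, if_false]
        exact ⟨(ENNReal.ofReal_le_ofReal (min_le_right _ _)).trans ((ih hξ).trans
          (le_self_add.trans (Val_cons _ _ (hv x hx0 hxn).1 (hv x hx0 hxn).2))),
          ENNReal.ofReal_le_ofReal (min_le_left _ _)⟩)
    rw [U_succ, neg_zero, zero_add, ← add_assoc, hr]
    exact key

lemma U_meas (S : ℝ) (j : ℕ) : Meas (p.U S j) := by
  induction j with
  | zero =>
    intro α _ f hf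
    simp only [U_zero]
    refine (measurable_const.add (meas_sum (fun _ x => p.s 0 * max (p.X - x) 0) f fun g hg => ?_)).sub
      measurable_const
    exact (((hf g hg).const_sub _).max measurable_const).const_mul _
  | succ j ih =>
    intro α _ f hf
    simp only [U_succ]
    have h1 := ih (α × ℝ) (Prod.snd :: f.map fun g q => g q.1) (by
      intro g hg
      rcases List.mem_cons.1 hg with rfl | hg
      · exact measurable_snd
      · obtain ⟨k, hk, rfl⟩ := List.mem_map.1 hg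
        exact (hf k hk).comp measurable_fst)
    simp only [List.map_cons, List.map_map] at h1
    have h2 := meas_ii ((meas_acc (p.s j) f hf).min h1) 0 p.X
    have h3 := meas_ii ((meas_acc (p.s j) f hf).min ((ih α f hf).comp measurable_fst)) p.X p.n
    exact ((measurable_const.add h2).add h3).div_const _

lemma step_up (hp : p.OK) {z c T S : ℝ} {φ : ℝ → ℝ} (hφ : Continuous φ) (hz0 : 0 ≤ z) (hz : z ≤ p.X)
    {j : ℕ} (hU : ∀ ξ, Good p ξ → p.U S j ξ ≤ ell c T φ S ξ) {ξ : List ℝ} (hξ : Good p ξ) :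
    p.U S (j + 1) ξ ≤ ell ((1 - z / p.n) * c + src p z φ j / p.n) ((1 - z / p.n) * T + 1 / p.n)
      (fun u => (1 - z / p.n) * φ u + max (z - u) 0 / p.n) S ξ := by
  have a1 := hasI_acc (p.s j) ξ (fun v hv => (hξ v hv).1) hz0
  have a2 := hasI_ell hφ (ell c T φ S ξ) z p.X
  have a3 := hasI_const (ell c T φ S ξ) p.X p.n
  have b1 := intervalIntegral.integral_mono_on hz0 (I1 hp S j ξ 0 z) a1.1 fun t _ => min_le_left _ _
  have b2 := intervalIntegral.integral_mono_on hz (I1 hp S j ξ z p.X) a2.1 fun t ht =>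
    (min_le_right _ _).trans ((hU _ (good_cons hξ (hz0.trans ht.1) ht.2)).trans_eq
      (ell_cons _ _ _ _ _ _))
  have b3 := intervalIntegral.integral_mono_on hp.Xn.le (I2 hp j ξ (p.U S j ξ) p.X p.n) a3.1
    fun t _ => (min_le_right _ _).trans (hU _ hξ)
  rw [a1.2] at b1
  rw [a2.2] at b2
  rw [a3.2] at b3
  rw [ell_new hp, U_split hp S z]
  refine div_le_div_of_nonneg_right ?_ (n_pos hp).le
  linarith

lemma R_int (hp : p.OK) {c T S : ℝ} {φ : ℝ → ℝ} (hφ : Continuous φ) (j : ℕ) (ξ : List ℝ) (a b : ℝ) :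
    IntervalIntegrable (fun x => ell c T φ S (x :: ξ) - p.U S j (x :: ξ)) volume a b := by
  simp only [ell_cons]
  exact (hasI_ell hφ _ a b).1.sub (U_ii hp S j ξ a b)

lemma minus_int (hp : p.OK) (S : ℝ) (j : ℕ) (ξ : List ℝ) (a b : ℝ) :
    IntervalIntegrable (fun x => max (acc (p.s j) ξ x - p.U S j (x :: ξ)) 0) volume a b :=
  ii_max ((acc_ii hp j ξ a b).sub (U_ii hp S j ξ a b)) (ii_const 0 a b)

lemma plus_int (hp : p.OK) {φ : ℝ → ℝ} (hφ : Continuous φ) (v : ℝ) (j : ℕ) (ξ : List ℝ) (a b : ℝ) :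
    IntervalIntegrable (fun x => max (v + φ x - acc (p.s j) ξ x) 0) volume a b :=
  ii_max ((hasI_ell hφ v a b).1.sub (acc_ii hp j ξ a b)) (ii_const 0 a b)

lemma step_R (hp : p.OK) {z c T S : ℝ} {φ : ℝ → ℝ} (hφ : Continuous φ) (hz0 : 0 ≤ z) (hz : z ≤ p.X)
    {j : ℕ} (hU : ∀ ξ, Good p ξ → p.U S j ξ ≤ ell c T φ S ξ) {ξ : List ℝ} (hξ : Good p ξ) :
    ell ((1 - z / p.n) * c + src p z φ j / p.n) ((1 - z / p.n) * T + 1 / p.n)
      (fun u => (1 - z / p.n) * φ u + max (z - u) 0 / p.n) S ξ - p.U S (j + 1) ξ ≤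
    ((∫ x in z..p.X, (ell c T φ S (x :: ξ) - p.U S j (x :: ξ))) +
      (p.n - p.X) * (ell c T φ S ξ - p.U S j ξ) + gam p z c T φ S j ξ) / p.n := by
  have a1 := hasI_acc (p.s j) ξ (fun v hv => (hξ v hv).1) hz0
  have a2 := hasI_ell hφ (ell c T φ S ξ) z p.X
  have a3 := hasI_const (ell c T φ S ξ) p.X p.n
  have a4 := hasI_const (ell c T φ S ξ - p.U S j ξ) p.X p.n
  have c1 := minus_int hp S j ξ 0 z
  have c2 := plus_int hp hφ (ell c T φ S ξ) j ξ z p.X
  have c3 : IntervalIntegrable (fun x => max (ell c T φ S ξ - acc (p.s j) ξ x) 0) volume p.X p.n :=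
    ii_max (a3.1.sub (acc_ii hp j ξ _ _)) (ii_const 0 _ _)
  have c4 := R_int (c := c) (T := T) (S := S) hp hφ j ξ z p.X
  have b1 := intervalIntegral.integral_mono_on hz0 a1.1 ((I1 hp S j ξ 0 z).add c1) fun t _ => by
    have h1 := le_max_left (acc (p.s j) ξ t - p.U S j (t :: ξ)) 0
    have h2 := le_max_right (acc (p.s j) ξ t - p.U S j (t :: ξ)) 0
    rcases le_total (acc (p.s j) ξ t) (p.U S j (t :: ξ)) with h3 | h3
    · rw [min_eq_left h3]; linarith
    · rw [min_eq_right h3]; linarith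
  have b2 := intervalIntegral.integral_mono_on hz a2.1 ((I1 hp S j ξ z p.X).add (c4.add c2))
    fun t ht => by
      rw [← ell_cons]
      exact sub_min (hU _ (good_cons hξ (hz0.trans ht.1) ht.2))
  have b3 := intervalIntegral.integral_mono_on hp.Xn.le a3.1
    ((I2 hp j ξ (p.U S j ξ) p.X p.n).add (a4.1.add c3)) fun t _ => sub_min (hU _ hξ)
  rw [a1.2, intervalIntegral.integral_add (I1 hp S j ξ 0 z) c1] at b1
  rw [a2.2, intervalIntegral.integral_add (I1 hp S j ξ z p.X) (c4.add c2),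
    intervalIntegral.integral_add c4 c2] at b2
  rw [a3.2, intervalIntegral.integral_add (I2 hp j ξ _ p.X p.n) (a4.1.add c3),
    intervalIntegral.integral_add a4.1 c3, a4.2] at b3
  rw [ell_new hp, U_split hp S z, ← sub_div, gam]
  refine div_le_div_of_nonneg_right ?_ (n_pos hp).le
  linarith

end
end Pool.Agent.MP_3bf126_pr.H21
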