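import Pool.Agent.MP_3bf126_pr.H21.Pack

/-! Packed lattice measures. -/

namespace Pool.Agent.MP_3bf126_pr.H21
open Filter Finset K
noncomputable section

variable {s s' : ℝ} {v w : ℕ} {o o' : ℤ} {f g : A} {n : ℕ}

namespace Pak2Aux

lemma rx_of {ι : Type} (S : Finset ι) (c p : ι → ℕ) (hv : v = ∑ i ∈ S, c i * 2 ^ (192 * p i))
    (hf : ∀ H : ℤ → ℝ, ev f H = s * ∑ i ∈ S, (c i : ℝ) * H (o + p i)) : Rx s v o f := by
  have hp : ∀ i ∈ S, p i ∈ range (S.sup p + 1) := fun i hi =>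
    mem_range.2 (Nat.lt_succ_of_le (le_sup hi))
  refine ⟨fun k => ∑ i ∈ S with p i = k, c i, S.sup p + 1, ?_, fun H => ?_⟩
  · rw [hv, ns, ← sum_fiberwise_of_maps_to hp]
    refine sum_congr rfl fun k _ => ?_
    rw [sum_mul]
    exact sum_congr rfl fun i hi => by rw [(mem_filter.1 hi).2]
  · rw [hf, ← sum_fiberwise_of_maps_to hp]
    congr 1
    refine sum_congr rfl fun k _ => ?_
    rw [Nat.cast_sum, sum_mul]
    exact sum_congr rfl fun i hi => by rw [(mem_filter.1 hi).2]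

lemma ex_ev (s : ℝ) (t : ℕ → ℕ) (n : ℕ) (o : ℤ) :
    ∃ g : A, ∀ H : ℤ → ℝ, ev g H = s * ∑ k ∈ range n, (t k : ℝ) * H (o + k) := by
  refine ⟨∑ k ∈ range n, sg (o + k) (s * t k), fun H => ?_⟩
  rw [ev_sum, mul_sum]
  exact sum_congr rfl fun k _ => by rw [ev_sg, mul_assoc]

lemma sum_ext {M : Type} [AddCommMonoid M] (F : ℕ → M) {m N : ℕ} (h : m ≤ N)
    (h0 : ∀ u, m ≤ u → F u = 0) : ∑ k ∈ range m, F k = ∑ k ∈ range N, F k :=
  sum_subset (range_subset_range.2 h) fun u _ hu => h0 u (by simpa using hu)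

lemma dig_rx (h : Rx s v o f) (hs : 0 < s) (hm : mass f < s * 2 ^ 192) :
    ∃ m, (∀ u, m ≤ u → dig v u = 0) ∧ ∀ N, m ≤ N → v = ns (dig v) N ∧
      ∀ H : ℤ → ℝ, ev f H = s * ∑ k ∈ range N, (dig v k : ℝ) * H (o + k) := by
  obtain ⟨t, m, hv, hf⟩ := h
  have h1 : ∑ k ∈ range m, t k < 2 ^ 192 := by
    rw [mass, hf] at hm
    have h2 := lt_of_mul_lt_mul_left hm hs.le
    simp only [mul_one] at h2
    exact_mod_cast h2
  have h2 : ∀ k < m, t k < 2 ^ 192 := fun k hk =>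
    lt_of_le_of_lt (single_le_sum (fun _ _ => Nat.zero_le _) (mem_range.2 hk)) h1
  have h3 : ∀ u, dig v u = if u < m then t u else 0 := fun u => by rw [hv, dig_ns h2]
  have h4 : ∀ u, m ≤ u → dig v u = 0 := fun u hu => by rw [h3, if_neg (by omega)]
  have h5 : ∀ u ∈ range m, t u = dig v u := fun u hu => by rw [h3, if_pos (mem_range.1 hu)]
  refine ⟨m, h4, fun N hN => ⟨?_, fun H => ?_⟩⟩
  · rw [ns, ← sum_ext _ hN fun u hu => by rw [h4 u hu, zero_mul]]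
    conv_lhs => rw [hv, ns]
    exact sum_congr rfl fun k hk => by rw [h5 k hk]
  · rw [hf, ← sum_ext _ hN fun u hu => by rw [h4 u hu, Nat.cast_zero, zero_mul]]
    congr 1
    exact sum_congr rfl fun k hk => by rw [h5 k hk]

lemma dig_and (v u : ℕ) : dig v u = v / 2 ^ (192 * u) &&& (2 ^ 192 - 1) := by
  unfold dig
  rw [n_and, n_shr, n_mul]
  rfl

lemma dig_eq (v u : ℕ) : dig v u = v / 2 ^ (192 * u) % 2 ^ 192 := by
  rw [dig_and, Nat.and_two_pow_sub_one_eq_mod]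

lemma dig_zero (v : ℕ) : v &&& (2 ^ 192 - 1) = dig v 0 := by
  rw [dig_and, mul_zero, pow_zero, Nat.div_one]

lemma dig_div (v a k : ℕ) : dig (v / 2 ^ (192 * a)) k = dig v (a + k) := by
  rw [dig_eq, dig_eq, Nat.div_div_eq_div_mul, ← pow_add, ← mul_add]

lemma ns_succ (t : ℕ → ℕ) (n : ℕ) : ns t (n + 1) = t 0 + 2 ^ 192 * ns (fun k => t (k + 1)) n := by
  rw [ns, sum_range_succ', mul_zero, pow_zero, mul_one, add_comm, ns, mul_sum]
  refine congrArg (t 0 + ·) (sum_congr rfl fun k _ => ?_)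
  rw [mul_add, mul_one, pow_add, ← mul_assoc, mul_comm]

lemma and_mask (M x : ℕ) :
    x / 2 ^ 95 &&& ns (fun _ => 2 ^ 97 - 1) M = ns (fun k => dig x k / 2 ^ 95) M := by
  induction M generalizing x with
  | zero => simp [ns]
  | succ M ih =>
    have hc : 2 ^ 97 - 1 < 2 ^ 192 := by norm_num
    have hB : 0 < 2 ^ 192 := by positivity
    rw [ns_succ, ns_succ, ← Nat.mod_add_div (_ &&& _) (2 ^ 192), Nat.and_mod_two_pow,
      Nat.and_div_two_pow, Nat.add_mul_mod_self_left, Nat.add_mul_div_left _ _ hB,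
      Nat.mod_eq_of_lt hc, Nat.div_eq_of_lt hc, zero_add, Nat.div_div_eq_div_mul, mul_comm (2 ^ 95),
      ← Nat.div_div_eq_div_mul, ih, Nat.and_two_pow_sub_one_eq_mod,
      Nat.mod_mod_of_dvd _ (pow_dvd_pow 2 (by norm_num)), ← Nat.mod_mul_right_div_self, ← pow_add,
      dig_eq x 0, mul_zero, pow_zero, Nat.div_one]
    congr 2
    refine ns_congr fun k _ => ?_
    rw [add_comm k 1, ← dig_div, mul_one]

lemma cut_eq (M v a : ℕ) :
    cut (ns (fun _ => 2 ^ 97 - 1) M) v a = ns (fun k => dig v (a + k) / 2 ^ 95) M := by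
  unfold cut
  rw [n_and, n_shr, n_add, n_mul]
  change v / 2 ^ (192 * a + 95) &&& _ = _
  rw [pow_add, ← Nat.div_div_eq_div_mul, and_mask]
  exact ns_congr fun k _ => by rw [dig_div]

lemma ker_sum {w W : ℕ → ℕ} (w0 : w 0 = 0) (W0 : W 0 = 0) (hW : ∀ d, W (d + 1) = W d + w (d + 1))
    {k n : ℕ} (hk : k < n) (u : ℕ) : ∑ j ∈ Ico u n, w (k + 1 - j) = W (k + 1 - u) := by
  obtain ⟨m, hm⟩ : ∃ m, n - u = m := ⟨_, rfl⟩
  induction m generalizing u with
  | zero =>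
    rw [Ico_eq_empty (by omega), sum_empty, show k + 1 - u = 0 by omega, W0]
  | succ m ih =>
    rw [sum_eq_sum_Ico_succ_bot (by omega), ih (u + 1) (by omega)]
    rcases le_or_gt u k with h | h
    · rw [show k + 1 - u = k - u + 1 by omega, show k + 1 - (u + 1) = k - u by omega, hW, add_comm]
    · rw [show k + 1 - u = 0 by omega, show k + 1 - (u + 1) = 0 by omega, w0, zero_add]

lemma suf {t c w W : ℕ → ℕ} (w0 : w 0 = 0) (W0 : W 0 = 0) (hW : ∀ d, W (d + 1) = W d + w (d + 1))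
    (hc : ∀ u, c u = ∑ k ∈ range n, t k * w (k + 1 - u)) (u : ℕ) :
    ∑ j ∈ Ico u n, c j = ∑ k ∈ range n, t k * W (k + 1 - u) := by
  simp only [hc]
  rw [sum_comm]
  refine sum_congr rfl fun k hk => ?_
  rw [← mul_sum, ker_sum w0 W0 hW (mem_range.1 hk)]

lemma suf1 (t : ℕ → ℕ) (n u : ℕ) :
    ∑ j ∈ Ico u n, t j = ∑ k ∈ range n, t k * min (k + 1 - u) 1 := by
  rw [← sum_subset (s₁ := Ico u n) (fun j hj => mem_range.2 (mem_Ico.1 hj).2)]
  · refine sum_congr rfl fun j hj => ?_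
    rw [min_eq_right (by have := mem_Ico.1 hj; omega), mul_one]
  · intro j h1 h2
    rw [mem_range] at h1
    rw [mem_Ico] at h2
    rw [show j + 1 - u = 0 by omega]
    simp

lemma ker_le {t w : ℕ → ℕ} {b : ℕ} (hw : ∀ d ≤ n, w d ≤ b) (u : ℕ) :
    ∑ k ∈ range n, t k * w (k + 1 - u) ≤ (∑ k ∈ range n, t k) * b := by
  rw [sum_mul]
  exact sum_le_sum fun k hk => Nat.mul_le_mul_left _ (hw _ (by have := mem_range.1 hk; omega))

lemma cast_d (o : ℤ) (k u : ℕ) :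
    max (((o + k : ℤ) : ℝ) - ((o - 1 + u : ℤ) : ℝ)) 0 = ((k + 1 - u : ℕ) : ℝ) := by
  rcases le_total u (k + 1) with h | h
  · have h' : (u : ℝ) ≤ k + 1 := by exact_mod_cast h
    rw [Nat.cast_sub h, max_eq_left (by push_cast; linarith)]
    push_cast
    ring
  · have h' : (k : ℝ) + 1 ≤ u := by exact_mod_cast h
    rw [Nat.sub_eq_zero_of_le h, max_eq_right (by push_cast; linarith), Nat.cast_zero]

lemma dig_suf {c : ℕ → ℕ} (h : ∀ u, ∑ k ∈ Ico u n, c k < 2 ^ 192) (u : ℕ) :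
    dig (ns (fun u => ∑ k ∈ Ico u n, c k) n) u = ∑ k ∈ Ico u n, c k := by
  rw [dig_ns fun k _ => h k]
  split_ifs with hu
  · rfl
  · rw [Ico_eq_empty hu, sum_empty]

end Pak2Aux

open Pak2Aux

lemma rx_zero (s : ℝ) (o : ℤ) : Rx s 0 o 0 :=
  ⟨fun _ => 0, 0, by simp [ns], fun H => by simp [ev_zero]⟩
lemma rx_sg (s : ℝ) (c : ℕ) (o : ℤ) : Rx s c o (sg o (s * c)) :=
  ⟨fun _ => c, 1, by simp [ns], fun H => by simp [ev_sg, mul_assoc]⟩
lemma rx_spl {E r : ℕ} (hE : 0 < E) (hr : r ≤ E) (o : ℤ) :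
    Rx (1 / E) ((E - r) + r * 2 ^ 192) o (spl o ((r : ℝ) / E)) := by
  refine ⟨fun k => if k = 0 then E - r else r, 2, ?_, fun H => ?_⟩
  · rw [ns, sum_range_succ, sum_range_one, if_pos rfl, if_neg one_ne_zero, mul_zero, pow_zero,
      mul_one, mul_one]
  · have e0 : (E : ℝ) ≠ 0 := by exact_mod_cast hE.ne'
    rw [spl, ev_add, ev_sg, ev_sg, sum_range_succ, sum_range_one]
    simp only [Nat.cast_zero, add_zero, Nat.cast_one, if_true, one_ne_zero, if_false,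
      Nat.cast_sub hr]
    field_simp
lemma Rx.add (h : Rx s v o f) (h' : Rx s w o g) : Rx s (v + w) o (f + g) := by
  obtain ⟨t, n, hv, hf⟩ := h
  obtain ⟨t', n', hv', hf'⟩ := h'
  refine rx_of ((range n).disjSum (range n')) (Sum.elim t t') (Sum.elim id id) ?_ fun H => ?_
  · rw [sum_disjSum, hv, hv']; rfl
  · rw [sum_disjSum, ev_add, hf, hf', mul_add]; rfl
lemma Rx.shl (h : Rx s v o f) (a : ℕ) : Rx s (v * 2 ^ (192 * a)) (o - a) f := by
  obtain ⟨t, n, hv, hf⟩ := h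
  refine rx_of (range n) t (fun k => k + a) ?_ fun H => ?_
  · rw [hv, ns, sum_mul]
    exact sum_congr rfl fun k _ => by rw [mul_add, pow_add, mul_assoc]
  · rw [hf]
    congr 1
    refine sum_congr rfl fun k _ => ?_
    congr 2
    push_cast
    ring
lemma Rx.mul (h : Rx s v o f) (h' : Rx s' w o' g) : Rx (s * s') (v * w) (o + o') (f * g) := by
  obtain ⟨t, n, hv, hf⟩ := h
  obtain ⟨t', n', hv', hf'⟩ := h'
  refine rx_of (range n ×ˢ range n') (fun p => t p.1 * t' p.2) (fun p => p.1 + p.2) ?_ fun H => ?_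
  · rw [hv, hv', ns, ns, sum_mul_sum, sum_product]
    refine sum_congr rfl fun i _ => sum_congr rfl fun j _ => ?_
    rw [mul_add, pow_add]
    ring
  · rw [ev_mul, hf, sum_product, mul_assoc]
    congr 1
    rw [mul_sum]
    refine sum_congr rfl fun i _ => ?_
    rw [hf', mul_left_comm, mul_sum]
    congr 1
    refine sum_congr rfl fun j _ => ?_
    rw [Nat.cast_mul, mul_assoc]
    congr 3
    push_cast
    ring
lemma Rx.smul (h : Rx s v o f) (c : ℝ) : Rx (c * s) v o (c • f) := by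
  obtain ⟨t, n, hv, hf⟩ := h
  exact ⟨t, n, hv, fun H => by rw [ev_smul, hf, mul_assoc]⟩
lemma Rx.nat (h : Rx s v o f) (c : ℕ) : Rx s (c * v) o ((c : ℝ) • f) := by
  obtain ⟨t, n, hv, hf⟩ := h
  refine ⟨fun k => c * t k, n, by rw [hv, ns_mul], fun H => ?_⟩
  rw [ev_smul, hf, mul_left_comm, mul_sum]
  congr 1
  exact sum_congr rfl fun k _ => by rw [Nat.cast_mul, mul_assoc]
lemma Rx.pos (h : Rx s v o f) (hs : 0 ≤ s) : Pos f := by
  obtain ⟨t, n, -, hf⟩ := h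
  intro H hH
  rw [hf]
  exact mul_nonneg hs (sum_nonneg fun k _ => mul_nonneg (Nat.cast_nonneg _) (hH _))
lemma Rx.digits (h : Rx s v o f) (hs : 0 < s) (hm : mass f < s * 2 ^ 192) (hn : v / 2 ^ (192 * n) = 0) (H : ℤ → ℝ) :
    ev f H = s * ∑ k ∈ range n, (dig v k : ℝ) * H (o + k) := by
  obtain ⟨m, -, h2⟩ := dig_rx h hs hm
  have h3 : ∀ u, n ≤ u → dig v u = 0 := fun u hu => by
    rw [ns_dig hn, dig_ns fun k _ => dig_lt v k, if_neg (by omega)]
  rw [(h2 (m + n) (by omega)).2,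
    ← sum_ext _ (Nat.le_add_left n m) fun u hu => by rw [h3 u hu, Nat.cast_zero, zero_mul]]
lemma Rx.rp (h : Rx s v o f) : Rp s v o f := ⟨f, h, Le.refl f⟩
lemma Rp.mono (h : Rp s v o f) (hfg : Le f g) : Rp s v o g := by
  obtain ⟨k, h1, h2⟩ := h
  exact ⟨k, h1, h2.trans hfg⟩
lemma Rp.pos (h : Rp s v o f) (hs : 0 ≤ s) : Pos f := by
  obtain ⟨k, h1, h2⟩ := h
  exact Le.pos (h1.pos hs) h2
lemma Rp.add (h : Rp s v o f) (h' : Rp s w o g) : Rp s (v + w) o (f + g) := by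
  obtain ⟨k, h1, h2⟩ := h
  obtain ⟨k', h1', h2'⟩ := h'
  exact ⟨k + k', h1.add h1', h2.add h2'⟩
lemma Rp.shl (h : Rp s v o f) (a : ℕ) : Rp s (v * 2 ^ (192 * a)) (o - a) f := by
  obtain ⟨k, h1, h2⟩ := h
  exact ⟨k, h1.shl a, h2⟩
lemma Rp.mul (hs : 0 ≤ s) (hs' : 0 ≤ s') (h : Rp s v o f) (h' : Rp s' w o' g) :
    Rp (s * s') (v * w) (o + o') (f * g) := by
  obtain ⟨k, h1, h2⟩ := h
  obtain ⟨k', h1', h2'⟩ := h'
  exact ⟨k * k', h1.mul h1', Le.mul (h1.pos hs) (h1'.pos hs') h2 h2'⟩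
lemma Rp.nat (h : Rp s v o f) (c : ℕ) : Rp s (c * v) o ((c : ℝ) • f) := by
  obtain ⟨k, h1, h2⟩ := h
  exact ⟨_, h1.nat c, h2.smul (Nat.cast_nonneg c)⟩
/-- multiply the number by `c`, read it in a unit `s'` with `s' c ≤ r s` -/
lemma Rp.resc (h : Rp s v o f) (hs : 0 ≤ s) (hs' : 0 ≤ s') {c : ℕ} {r : ℝ} (hr : 0 ≤ r) (hc : s' * c ≤ r * s) :
    Rp s' (v * c) o (r • f) := by
  have _ := hs
  have _ := hs'
  obtain ⟨k, ⟨t, n, hv, hk⟩, h2⟩ := h
  obtain ⟨g, hg⟩ := ex_ev s' (fun j => c * t j) n o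
  refine ⟨g, ⟨_, n, by rw [hv, mul_comm, ns_mul], hg⟩, Le.trans (fun H hH => ?_) (h2.smul hr)⟩
  have e : ∑ j ∈ range n, ((c * t j : ℕ) : ℝ) * H (o + j) =
      c * ∑ j ∈ range n, (t j : ℝ) * H (o + j) := by
    rw [mul_sum]
    exact sum_congr rfl fun j _ => by rw [Nat.cast_mul, mul_assoc]
  rw [ev_sub, ev_smul, hk, hg, e, ← mul_assoc, ← mul_assoc, ← sub_mul]
  exact mul_nonneg (sub_nonneg.2 hc)
    (sum_nonneg fun j _ => mul_nonneg (Nat.cast_nonneg _) (hH _))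
lemma Rp.cut (h : Rp s v o f) (hs : 0 < s) (hm : mass f < s * 2 ^ 192) {m : ℕ} (hk : IsMask m) (a : ℕ) :
    Rp (s * 2 ^ 95) (cut m v a) (o + a) f := by
  obtain ⟨k, h1, h2⟩ := h
  obtain ⟨M, rfl⟩ := hk
  obtain ⟨m, -, h4⟩ := dig_rx h1 hs (lt_of_le_of_lt (h2.ev_le fun _ => zero_le_one) hm)
  obtain ⟨g, hg⟩ := ex_ev (s * 2 ^ 95) (fun j => dig v (a + j) / 2 ^ 95) M (o + a)
  refine ⟨g, ⟨_, M, cut_eq M v a, hg⟩, Le.trans (fun H hH => ?_) h2⟩
  have p : ∀ j, 0 ≤ (dig v j : ℝ) * H (o + j) := fun j => mul_nonneg (Nat.cast_nonneg _) (hH _)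
  rw [ev_sub, (h4 (a + M + m) (by omega)).2, hg, mul_assoc, ← mul_sub, sum_range_add, sum_range_add,
    mul_sum]
  refine mul_nonneg hs.le (sub_nonneg.2 ?_)
  refine le_trans ?_ (le_add_of_nonneg_right (sum_nonneg fun j _ => p _))
  refine le_trans ?_ (le_add_of_nonneg_left (sum_nonneg fun j _ => p _))
  refine sum_le_sum fun j _ => ?_
  rw [← mul_assoc, Nat.cast_add, add_assoc]
  refine mul_le_mul_of_nonneg_right ?_ (hH _)
  exact_mod_cast Nat.mul_div_le (dig v (a + j)) (2 ^ 95)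

/-- stop-loss values from the suffix sums -/
lemma Rx.look (h : Rx s v o f) (hs : 0 < s) (hn0 : 0 < n) (hm : mass f * (n : ℝ) ^ 2 < s * 2 ^ 191)
    (hn : v / 2 ^ (192 * n) = 0) :
    (∀ u : ℕ, ev f (fun j => max ((j : ℝ) - ((o - 1 + u : ℤ) : ℝ)) 0) = s * dig (sfx (sfx v n) n) u) ∧
    (∀ u : ℕ, ev f (fun j => (max ((j : ℝ) - ((o - 1 + u : ℤ) : ℝ)) 0) ^ 2) ≤ s * (2 * dig (sfx (sfx (sfx v n) n) n) u)) ∧
    mass f = s * (v % (2 ^ 192 - 1) : ℕ) ∧ mass f = s * (sfx v n &&& (2 ^ 192 - 1) : ℕ) ∧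
    ev f (fun j => (j : ℝ) - (o - 1)) = s * (sfx v n % (2 ^ 192 - 1) : ℕ) ∧
    ev f (fun j => (j : ℝ) - (o - 1)) = s * (sfx (sfx v n) n &&& (2 ^ 192 - 1) : ℕ) ∧
    ev f (fun j => ((j : ℝ) - (o - 1)) ^ 2 + ((j : ℝ) - (o - 1))) = s * (2 * (sfx (sfx v n) n % (2 ^ 192 - 1) : ℕ)) := by
  have n1 : (1 : ℝ) ≤ (n : ℝ) ^ 2 := one_le_pow₀ (by exact_mod_cast hn0)
  have m0 := (h.pos hs.le).mass_nonneg
  have hm' : mass f < s * 2 ^ 192 := by
    have a1 := le_mul_of_one_le_right m0 n1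
    have a2 : s * 2 ^ 191 ≤ s * 2 ^ 192 :=
      mul_le_mul_of_nonneg_left (pow_le_pow_right₀ one_le_two (by norm_num)) hs.le
    linarith
  have hf := h.digits hs hm' hn
  have hv := ns_dig hn
  generalize dig v = t at hf hv
  subst hv
  have hM : mass f = s * ((∑ k ∈ range n, t k : ℕ) : ℝ) := by
    rw [mass, hf, Nat.cast_sum]
    simp only [mul_one]
  have hb : (∑ k ∈ range n, t k) * n ^ 2 < 2 ^ 191 := by
    rw [hM, mul_assoc] at hm
    exact_mod_cast lt_of_mul_lt_mul_left hm hs.le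
  have hB : 2 ^ 191 ≤ 2 ^ 192 - 1 := by norm_num
  have hB' : 2 ^ 192 - 1 ≤ 2 ^ 192 := Nat.sub_le _ _
  have e1 := suf1 t n
  have e2 := suf (t := t) (w := fun d => min d 1) (W := fun d => d) rfl rfl
    (fun d => by simp) e1
  have e3 : ∀ u, 2 * ∑ i ∈ Ico u n, ∑ j ∈ Ico i n, ∑ k ∈ Ico j n, t k =
      ∑ k ∈ range n, t k * ((k + 1 - u) * (k + 1 - u + 1)) := fun u => by
    rw [mul_sum]
    refine suf (t := t) (w := fun d => 2 * d) (W := fun d => d * (d + 1)) rfl rfl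
      (fun d => by ring) (fun i => ?_) u
    rw [e2, mul_sum]
    exact sum_congr rfl fun k _ => by ring
  have b1 : ∀ u, ∑ k ∈ Ico u n, t k < 2 ^ 192 - 1 := fun u => by
    rw [e1]
    refine lt_of_le_of_lt (ker_le (w := fun d => min d 1) (b := n ^ 2) (fun d _ => ?_) u)
      (lt_of_lt_of_le hb hB)
    exact (min_le_right _ _).trans (Nat.one_le_pow _ _ hn0)
  have b2 : ∀ u, ∑ j ∈ Ico u n, ∑ k ∈ Ico j n, t k < 2 ^ 192 - 1 := fun u => by
    rw [e2]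
    refine lt_of_le_of_lt (ker_le (w := fun d => d) (b := n ^ 2) (fun d hd => ?_) u)
      (lt_of_lt_of_le hb hB)
    nlinarith
  have b3 : ∀ u, ∑ i ∈ Ico u n, ∑ j ∈ Ico i n, ∑ k ∈ Ico j n, t k < 2 ^ 192 - 1 := fun u => by
    refine lt_of_le_of_lt (Nat.le_of_mul_le_mul_left (c := 2) ?_ two_pos) (lt_of_lt_of_le hb hB)
    rw [e3, mul_left_comm]
    refine ker_le (w := fun d => d * (d + 1)) (fun d hd => ?_) u
    nlinarith
  have s1 := sfx_ns (t := t) hn0 (by rw [range_eq_Ico]; exact (b1 0).trans_le hB')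
  have s2 := sfx_ns (t := fun j => ∑ k ∈ Ico j n, t k) hn0
    (by rw [range_eq_Ico]; exact (b2 0).trans_le hB')
  have s3 := sfx_ns (t := fun i => ∑ j ∈ Ico i n, ∑ k ∈ Ico j n, t k) hn0
    (by rw [range_eq_Ico]; exact (b3 0).trans_le hB')
  have l1 : ev f (fun j => (j : ℝ) - (o - 1)) =
      s * ((∑ j ∈ Ico 0 n, ∑ k ∈ Ico j n, t k : ℕ) : ℝ) := by
    rw [hf, e2, Nat.cast_sum]
    congr 1
    refine sum_congr rfl fun k _ => ?_
    rw [Nat.sub_zero]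
    push_cast
    ring
  rw [s1, s2, s3]
  refine ⟨fun u => ?_, fun u => ?_, ?_, ?_, ?_, ?_, ?_⟩
  · rw [dig_suf fun u => (b2 u).trans_le hB', hf, e2, Nat.cast_sum]
    congr 1
    exact sum_congr rfl fun k _ => by rw [cast_d, Nat.cast_mul]
  · rw [dig_suf fun u => (b3 u).trans_le hB', hf, ← Nat.cast_ofNat (R := ℝ) (n := 2),
      ← Nat.cast_mul, e3, Nat.cast_sum]
    refine mul_le_mul_of_nonneg_left (sum_le_sum fun k _ => ?_) hs.le
    rw [cast_d, ← Nat.cast_pow, ← Nat.cast_mul, Nat.cast_le, sq]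
    exact Nat.mul_le_mul_left _ (Nat.mul_le_mul_left _ (Nat.le_succ _))
  · rw [mod_ns (by rw [range_eq_Ico]; exact b1 0), hM]
  · rw [dig_zero, dig_suf fun u => (b1 u).trans_le hB', hM, range_eq_Ico]
  · rw [mod_ns (by rw [range_eq_Ico]; exact b2 0), l1, range_eq_Ico]
  · rw [dig_zero, dig_suf fun u => (b2 u).trans_le hB', l1]
  · rw [mod_ns (by rw [range_eq_Ico]; exact b3 0), range_eq_Ico,
      ← Nat.cast_ofNat (R := ℝ) (n := 2), ← Nat.cast_mul, e3, hf, Nat.cast_sum]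
    congr 1
    refine sum_congr rfl fun k _ => ?_
    rw [Nat.sub_zero]
    push_cast
    ring

/-- removing one digit removes the weight at that lattice point -/
lemma Rx.drop (h : Rx s v o f) (hs : 0 < s) (hm : mass f < s * 2 ^ 192) (u : ℕ)
    (hg : ∀ H, ev g H = ev f fun j => if j = o + u then 0 else H j) :
    Rx s (v - dig v u * 2 ^ (192 * u)) o g := by
  obtain ⟨m, -, h2⟩ := dig_rx h hs hm
  obtain ⟨h3, h4⟩ := h2 (m + u + 1) (by omega)
  generalize dig v = t at h3 h4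
  refine ⟨fun k => if k = u then 0 else t k, m + u + 1, Nat.sub_eq_of_eq_add ?_, fun H => ?_⟩
  · have hu : u ∈ range (m + u + 1) := mem_range.2 (by omega)
    rw [h3, ns, ns, ← add_sum_erase _ _ hu, ← add_sum_erase _ _ hu, if_pos rfl, zero_mul, zero_add,
      add_comm]
    congr 1
    exact sum_congr rfl fun k hk => by rw [if_neg (ne_of_mem_erase hk)]
  · rw [hg, h4]
    congr 1
    refine sum_congr rfl fun k _ => ?_
    by_cases e : k = u
    · simp [e]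
    · beta_reduce
      rw [if_neg e, if_neg (by omega)]

end
end Pool.Agent.MP_3bf126_pr.H21
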