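import Pool.Agent.MP_3bf126_pr.H21.Sl
import Pool.Agent.MP_3bf126_pr.H21.Check

/-! What the numbers of the checker stand for. -/

namespace Pool.Agent.MP_3bf126_pr.H21
open Filter Finset K
noncomputable section

lemma fN_eq {β : Type} (n : ℕ) (k : ℕ → β) : fN n k = k n := rfl
lemma fP_eq {β : Type} (p : ℕ × ℕ) (k : ℕ × ℕ → β) : fP p k = k p := rfl
lemma fL_eq {α β : Type} {fe : α → (α → β) → β} (h : ∀ a k, fe a k = k a) (l : List α) (k : List α → β) :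
    fL fe l k = k l := by
  induction l generalizing k with
  | nil => rfl
  | cons a l ih => exact (h a _).trans (ih _)
lemma n_add (a b : ℕ) : Nat.add a b = a + b := rfl
lemma n_sub (a b : ℕ) : Nat.sub a b = a - b := rfl
lemma n_mul (a b : ℕ) : Nat.mul a b = a * b := rfl
lemma n_div (a b : ℕ) : Nat.div a b = a / b := rfl
lemma n_mod (a b : ℕ) : Nat.mod a b = a % b := rfl
lemma n_and (a b : ℕ) : Nat.land a b = a &&& b := rfl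
lemma n_shl (a b : ℕ) : Nat.shiftLeft a b = a * 2 ^ b := Nat.shiftLeft_eq a b
lemma n_shr (a b : ℕ) : Nat.shiftRight a b = a / 2 ^ b := Nat.shiftRight_eq_div_pow a b
lemma mn_eq (a b : ℕ) : mn a b = min a b := by
  unfold mn; rcases le_total a b with h | h
  · rw [Nat.ble_eq_true_of_le h, min_eq_left h]; rfl
  · cases e : Nat.ble a b
    · exact (min_eq_right h).symm
    · exact (min_eq_left (Nat.le_of_ble_eq_true e)).symm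
lemma mx_eq (a b : ℕ) : mx a b = max a b := by
  unfold mx; rcases le_total a b with h | h
  · rw [Nat.ble_eq_true_of_le h, max_eq_right h]; rfl
  · cases e : Nat.ble a b
    · exact (max_eq_left h).symm
    · exact (max_eq_right (Nat.le_of_ble_eq_true e)).symm
lemma cond_false {c x : Bool} (h : cond c x false = true) : c = true ∧ x = true := by
  cases c <;> simp_all

/-- a vector packed in base `2^192` -/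
def ns (t : ℕ → ℕ) (n : ℕ) : ℕ := ∑ k ∈ range n, t k * 2 ^ (192 * k)

/-- `v` lists the weights of `f` in units `s`, from the lattice point `o` -/
def Rx (s : ℝ) (v : ℕ) (o : ℤ) (f : A) : Prop :=
  ∃ (t : ℕ → ℕ) (n : ℕ), v = ns t n ∧ ∀ H : ℤ → ℝ, ev f H = s * ∑ k ∈ range n, (t k : ℝ) * H (o + k)

def Rp (s : ℝ) (v : ℕ) (o : ℤ) (f : A) : Prop := ∃ g, Rx s v o g ∧ Le g f

def IsMask (m : ℕ) : Prop := ∃ n, m = ns (fun _ => 2 ^ 97 - 1) n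

structure CxOK (cx : Cx) : Prop where
  mk' : IsMask cx.MK
  E0 : 0 < cx.E
  E1 : cx.E ≤ 2 ^ 44
  YB : cx.YB = 2 ^ 30 * cx.E
  den : cx.den = cx.E * 2 ^ 37
  one : cx.one = ns (fun _ => 1) cx.J

def ki (E y : ℕ) : ℤ := ((y / E : ℕ) : ℤ) - 2 ^ 30
def fi (E y : ℕ) : ℝ := ((y % E : ℕ) : ℝ) / E

def lamOf (E : ℕ) (g : ℕ → ℕ) (l : List (ℕ × ℕ)) : A :=
  (l.map fun p => (p.2 : ℝ) • ptp (ki E (g p.1)) (fi E (g p.1))).sum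

def AcOK (E : ℕ) (s : Ac) (Λ : A) : Prop :=
  Pos Λ ∧ Rp (1 / E) s.v ((s.k0 : ℤ) - 2 ^ 30) Λ ∧ mass Λ ≤ (s.m0 : ℝ) / E ∧
    m1 Λ = ((s.mp : ℝ) - s.mn) / E ∧ m2 Λ ≤ (s.m2 : ℝ) / E

def Mom (cx : Cx) (t : Tb) (Λ : A) : Prop :=
  m1 Λ = ((t.mp : ℝ) - t.mn) / cx.den ∧ m2 Λ ≤ (t.m2 : ℝ) / cx.den
def TR (t : Tb) (f : A) : Prop := Rp (1 / 2 ^ 95) t.v ((t.o : ℤ) - 2 ^ 30) f
def SPT (cx : Cx) (t : Tb) (Λ : A) : Prop := Pos Λ ∧ Mom cx t Λ ∧ ∃ f, SP Λ f ∧ TR t f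
def MXT (cx : Cx) (N : A) (W W' : ℝ) (t : Tb) (Λ : A) : Prop :=
  Pos Λ ∧ Mom cx t Λ ∧ ∃ f, MixOK Λ N W W' f ∧ TR t f

/-- hinge sums -/
def hg (l : List (ℕ × ℕ)) (x : ℝ) : ℝ := (l.map fun p => (p.2 : ℝ) / 2 ^ 80 * max ((p.1 : ℝ) / 2 ^ 12 - x) 0).sum
def hk (l : List Kn) (x : ℝ) : ℝ := (l.map fun p => (p.k : ℝ) / 2 ^ 80 * max ((p.u : ℝ) / 2 ^ 12 - x) 0).sum

/-- `g` rounds `α + γ t` upwards -/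
def Rd (E : ℕ) (α γ : ℝ) (g : ℕ → ℕ) : Prop :=
  ∀ (m : ℕ) (t : ℝ), (m : ℝ) ≤ t * 2 ^ 40 → t * 2 ^ 40 ≤ m + 1 → α + γ * t ≤ ((g m : ℝ) - 2 ^ 30 * E) / 2 ^ 40

structure BkOK (a : Sl) (φ : ℝ → ℝ) (b : Bk) : Prop where
  f0 : φ ((b.x0 : ℝ) / 2 ^ 12) * 2 ^ 40 ≤ b.f0 + 1
  f1 : φ ((b.x1 : ℝ) / 2 ^ 12) * 2 ^ 40 ≤ b.f1 + 1
  dom : ∀ (E : ℕ) (α γ : ℝ) (g : ℕ → ℕ), 0 < E → Rd E α γ g →
    a.DomW (fun x => α + γ * φ x) ((b.x0 : ℝ) / 2 ^ 12) ((b.x1 : ℝ) / 2 ^ 12) ((E : ℝ) / 2 ^ 40)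
      ((1 / ((a.D : ℝ) * 2 ^ 13)) • lamOf E g b.pts)

/-- blocks between consecutive nodes, downwards from `x` -/
def Nd (a : Sl) (φ : ℝ → ℝ) : ℕ → List ℕ → List Bk → Prop
  | _, [], bs => bs = []
  | x, y :: ys, bs => ∃ b bs', bs = b :: bs' ∧ b.x1 = x ∧ b.x0 = y ∧ y < x ∧ BkOK a φ b ∧ Nd a φ y ys bs'

structure Inv (a : Sl) (φ : ℝ → ℝ) (lo : ℝ) (x f s mu : ℕ) (l : List Kn) : Prop where
  srt : l.Pairwise fun p r => r.u ≤ p.u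
  le : ∀ p ∈ l, p.u ≤ x
  val : ∀ y : ℝ, y ≤ (x : ℝ) / 2 ^ 12 → φ y = ((f : ℝ) + s * (x - 2 ^ 12 * y)) / 2 ^ 92 + hk l y
  den : ∃ m0 : ℕ, mu = m0 + (l.map fun p => p.d).sum ∧ ∀ y : ℝ, lo ≤ y → y < (x : ℝ) / 2 ^ 12 →
    a.den y * a.D = m0 + (l.map fun p => if (p.u : ℝ) / 2 ^ 12 ≤ y then (p.d : ℝ) else 0).sum
  pst : ∀ b ∈ a.past, (x : ℝ) / 2 ^ 12 ≤ b.2 ∨ b.2 ≤ lo ∨ ∃ p ∈ l, b.2 = (p.u : ℝ) / 2 ^ 12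

structure CtOK (a : Sl) (v : Env) (E J : ℕ) (t : Jm) (ex : ℝ) (c : Ct) : Prop where
  lin : ∀ yb : ℕ, a.Look v t (fun u => max u 0) (((yb : ℝ) - 2 ^ 30 * E) / 2 ^ 40)
    ((look E c.gb c.c2 c.df yb : ℝ) / 2 ^ 64 - ex)
  qs : ∃ y f : ℕ → ℕ, c.qy = ns y J ∧ c.qf = ns f J ∧ ∀ j < J, y j < 2 ^ 108 ∧ f j < 2 ^ 121 ∧
    a.Look v t (fun u => max u 0) (((y j : ℝ) - 2 ^ 62 * E) / 2 ^ 72) ((f j : ℝ) / 2 ^ 64 - ex)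
  sq : ∀ yb : ℕ, c.gb ≤ yb / E → a.Look v t (fun u => (max u 0) ^ 2) (((yb : ℝ) - 2 ^ 30 * E) / 2 ^ 40)
    (((E * (2 * dig (sfx c.c2 c.n) (yb / E - c.gb) + E * c.dq) : ℕ) : ℝ) / 2 ^ 176)

/-- the slab seen from above its threshold: unit density -/
def Sl.up (a : Sl) : Sl := { a with D := 1, past := [(1, a.z)] }

/-- side data: weights and the jump measures `Na`, `Nb` of the slab itself -/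
structure SdOK (a : Sl) (v : Env) (cx : Cx) (sd : Sd) (Na Nb : A) : Prop where
  W : WOK a v ((sd.Waa : ℝ) / 2 ^ 64) ((sd.Wab : ℝ) / 2 ^ 64) ((sd.Wba : ℝ) / 2 ^ 64) ((sd.Wbb : ℝ) / 2 ^ 64)
  pa : Pos Na
  pb : Pos Nb
  ma : Mom cx sd.na (a.Δ • Na)
  mb : Mom cx sd.nb (a.Δ • Nb)
  oa : NP Na ∨ NN Na
  ob : NP Nb ∨ NN Nb

def DT (a : Sl) (cx : Cx) (β : ℝ → ℝ) (x0 x1 : ℝ) (t : Tb) : Prop :=
  ∃ Λ, a.DomW β x0 x1 ((cx.E : ℝ) / 2 ^ 40) Λ ∧ SPT cx t Λ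
def DM (a : Sl) (cx : Cx) (N : A) (W W' : ℕ) (β : ℝ → ℝ) (x0 x1 : ℝ) (t : Tb) : Prop :=
  ∃ Λ, a.DomW β x0 x1 ((cx.E : ℝ) / 2 ^ 40) Λ ∧ MXT cx (a.Δ • N) ((W : ℝ) / 2 ^ 64) ((W' : ℝ) / 2 ^ 64) t Λ

/-- the cells below the threshold -/
def CM (a : Sl) (v : Env) (E J : ℕ) (ex : ℝ) : ℕ → List Ct → Prop
  | x, [] => x = 0
  | x, c :: cs => c.x1 = x ∧ c.x0 < x ∧ (∃ x' : ℝ, (c.x0 : ℝ) / 2 ^ 12 ≤ x' ∧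
      CtOK a v E J (a.jm v ((c.x0 : ℝ) / 2 ^ 12) ((c.x1 : ℝ) / 2 ^ 12) x') ex c) ∧ CM a v E J ex c.x0 cs

/-- the cells above the threshold `z` -/
def CP (a : Sl) (v : Env) (E J z : ℕ) : ℕ → List Ct → Prop
  | x, [] => x = z
  | x, c :: cs => c.x1 = x ∧ c.x0 < x ∧
      CtOK a v E J (a.jp v ((c.x0 : ℝ) / 2 ^ 12) ((c.x1 : ℝ) / 2 ^ 12)) 0 c ∧ CP a v E J z c.x0 cs

structure LxOK (a : Sl) (v : Env) (lx : Lx) : Prop where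
  E0 : 0 < lx.E
  E1 : lx.E ≤ 2 ^ 44
  YB : lx.YB = 2 ^ 30 * lx.E
  Y2 : lx.Y2 = 2 ^ 62 * lx.E
  z : a.z = (lx.z : ℝ) / 2 ^ 12
  X : a.X = 2 ^ 13
  Tm : v.Tm = (lx.Tm : ℝ) / 2 ^ 80
  Tp : v.Tp = (lx.Tp : ℝ) / 2 ^ 80
  sT : a.sb + v.Tm = (lx.sT : ℝ) / 2 ^ 80
  e0 : v.e0 ≤ (lx.e0 : ℝ) / 2 ^ 72
  e1 : lx.e0 < 2 ^ 110
  sb : a.sb = (lx.sb : ℝ) / 2 ^ 24
  sb0 : 0 < lx.sb
  z96 : lx.z96 = lx.z * 2 ^ 96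
  wz : (lx.wz : ℝ) = v.wu * a.z * 2 ^ 108
  om : (lx.om : ℝ) = (1 - v.wl) * 2 ^ 64
  ee : (v.E + (v.cu - v.cl)) * 2 ^ 92 ≤ lx.ee
  dT : (v.Tu - v.Tl) * 2 ^ 80 ≤ lx.dT
  w22 : (lx.w22 : ℝ) = v.wu * 2 ^ 86
  dd : (lx.dd : ℝ) = v.Δ' * 2 ^ 54
  ex : v.ε * a.X * 2 ^ 150 ≤ lx.ex
  one : lx.one = ns (fun _ => 1) lx.J
  hy : lx.hy = (2 ^ 128 - lx.Y2) * lx.one
  hm : lx.hm = (2 ^ 128 - 1) * lx.one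

def rho (p j : ℕ) : ℕ := dig p j &&& (2 ^ 72 - 1)
def tau (p j : ℕ) : ℕ := dig p j / 2 ^ 72

def LvOK (J eb : ℕ) (l : Lv) : Prop :=
  l.rm = ns (fun j => max (rho l.p j) (rho l.r j) + eb) J ∧ l.tn = ns (tau l.r) J

def entL (J eb : ℕ) (l : Lv) : List Ent := (List.range J).map fun j =>
  ⟨(l.S : ℝ) / 2 ^ 12, (rho l.p j : ℝ) / 2 ^ 40, (tau l.p j : ℝ) / 2 ^ 64, (rho l.r j : ℝ) / 2 ^ 40,
    (tau l.r j : ℝ) / 2 ^ 64, ((max (rho l.p j) (rho l.r j) + eb : ℕ) : ℝ) / 2 ^ 40⟩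

def rP (past : List (ℕ × ℕ)) : List (ℕ × ℝ) := past.map fun p => (p.1, (p.2 : ℝ) / 2 ^ 12)
def hiOf (s : St) : List (ℕ × ℕ) := unp 112 28 s.hn s.hv

def slOf (past : List (ℕ × ℕ)) (d z : ℕ) (sB : St) (h : Hn) : Sl :=
  ⟨2 ^ 24, 2048, 2 ^ 13, rP past, sB.e, d, (z : ℝ) / 2 ^ 12, (sB.c : ℝ) / 2 ^ 92, (sB.T : ℝ) / 2 ^ 80,
    (h.C : ℝ) / 2 ^ 92, hg (hiOf sB)⟩

def envOf (d z : ℕ) (sB sA : St) (h : Hn) : Env where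
  φu := hg (hiOf sA)
  ε := (h.ep : ℝ) / 2 ^ 92
  cl := (h.cl : ℝ) / 2 ^ 92
  cu := (sA.c : ℝ) / 2 ^ 92
  Tl := (sA.T : ℝ) / 2 ^ 80
  Tu := (h.Tu : ℝ) / 2 ^ 80
  Tm := ((min sB.T sA.T : ℕ) : ℝ) / 2 ^ 80
  Tp := ((max sB.T h.Tu : ℕ) : ℝ) / 2 ^ 80
  k := (h.kk : ℝ) / 2 ^ 80
  e0 := max (hg (hiOf sB) ((z : ℝ) / 2 ^ 12) - 1 + (z : ℝ) / 2 ^ 12 * ((sB.T : ℝ) / 2 ^ 80)) 0
  wl := (h.wl : ℝ) / 2 ^ 64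
  wu := (h.wu : ℝ) / 2 ^ 64
  E := (h.Ex : ℝ) / 2 ^ 92
  Δ' := ((d * (2 ^ 30 + 1) : ℕ) : ℝ) / 2 ^ 54

def entsOf (J : ℕ) (lv : List (ℕ × ℕ)) : List (ℝ × ℝ × ℝ) :=
  lv.flatMap fun p => (List.range J).map fun j =>
    ((p.1 : ℝ) / 2 ^ 12, (rho p.2 j : ℝ) / 2 ^ 40, (tau p.2 j : ℝ) / 2 ^ 64)

def GoodI (J : ℕ) (past : List (ℕ × ℕ)) (s : St) : Prop :=
  GoodSt (2 ^ 24) 2048 (2 ^ 13) (rP past) s.e ((s.c : ℝ) / 2 ^ 92) ((s.T : ℝ) / 2 ^ 80) (hg (hiOf s))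
    (entsOf J s.lv)

end
end Pool.Agent.MP_3bf126_pr.H21
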