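import Pool.Agent.MP_3bf126_pr.H21.Rep
import Pool.Agent.MP_3bf126_pr.H21.Table

/-! Soundness of the walk through the kinks. -/

namespace Pool.Agent.MP_3bf126_pr.H21
open Filter Finset K
noncomputable section

lemma wk_hg_nil : hg [] = fun _ => 0 := rfl
lemma wk_hg_cons (p : ℕ × ℕ) (l : List (ℕ × ℕ)) :
    hg (p :: l) = fun x => (p.2 : ℝ) / 2 ^ 80 * max ((p.1 : ℝ) / 2 ^ 12 - x) 0 + hg l x := rfl

lemma hg_cont (l : List (ℕ × ℕ)) : Continuous (hg l) := by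
  induction l with
  | nil => exact continuous_const
  | cons p l ih =>
    rw [wk_hg_cons]
    exact (continuous_const.mul ((continuous_const.sub continuous_id).max continuous_const)).add ih

lemma hg_nonneg (l : List (ℕ × ℕ)) (x : ℝ) : 0 ≤ hg l x := by
  induction l with
  | nil => exact le_rfl
  | cons p l ih =>
    rw [wk_hg_cons]
    exact add_nonneg (mul_nonneg (by positivity) (le_max_right _ _)) ih

lemma hg_anti (l : List (ℕ × ℕ)) : Antitone (hg l) := by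
  induction l with
  | nil => exact antitone_const
  | cons p l ih =>
    rw [wk_hg_cons]
    intro x y hxy
    exact add_le_add (mul_le_mul_of_nonneg_left (max_le_max (by linarith) le_rfl) (by positivity))
      (ih hxy)

lemma hg_convex (l : List (ℕ × ℕ)) : ConvexOn ℝ Set.univ (hg l) := by
  induction l with
  | nil => exact convexOn_const _ convex_univ
  | cons p l ih =>
    rw [wk_hg_cons]
    refine ConvexOn.add ?_ ih
    have h1 : ConvexOn ℝ Set.univ fun x : ℝ => (p.1 : ℝ) / 2 ^ 12 - x :=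
      (convexOn_const _ convex_univ).sub (concaveOn_id convex_univ)
    exact (h1.sup (convexOn_const 0 convex_univ)).smul (c := (p.2 : ℝ) / 2 ^ 80) (by positivity)

lemma wk_hk_cons (p : Kn) (l : List Kn) (x : ℝ) :
    hk (p :: l) x = (p.k : ℝ) / 2 ^ 80 * max ((p.u : ℝ) / 2 ^ 12 - x) 0 + hk l x := rfl

lemma wk_hk_zero {l : List Kn} {u : ℕ} (h : ∀ p ∈ l, p.u ≤ u) {y : ℝ} (hy : (u : ℝ) / 2 ^ 12 ≤ y) :
    hk l y = 0 := by
  induction l with
  | nil => rfl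
  | cons p l ih =>
    have h1 : (p.u : ℝ) ≤ u := by exact_mod_cast h p List.mem_cons_self
    have h2 : (p.u : ℝ) / 2 ^ 12 ≤ (u : ℝ) / 2 ^ 12 := by gcongr
    rw [wk_hk_cons, ih fun q hq => h q (List.mem_cons_of_mem _ hq), max_eq_right (by linarith)]
    ring

lemma Inv.at {a : Sl} {φ : ℝ → ℝ} {lo : ℝ} {x f s mu : ℕ} {l : List Kn} (hI : Inv a φ lo x f s mu l) :
    φ ((x : ℝ) / 2 ^ 12) = (f : ℝ) / 2 ^ 92 := by
  rw [hI.val _ le_rfl, wk_hk_zero hI.le le_rfl]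
  ring

lemma wk_move {a : Sl} {φ : ℝ → ℝ} {lo : ℝ} {x f s mu : ℕ} {l : List Kn}
    (hI : Inv a φ lo x f s mu l) {u : ℕ} (hu : u ≤ x) (hl : ∀ p ∈ l, p.u ≤ u) :
    Inv a φ lo u (f + s * (x - u)) s mu l := by
  have h1 : (u : ℝ) ≤ x := by exact_mod_cast hu
  have h2 : (u : ℝ) / 2 ^ 12 ≤ (x : ℝ) / 2 ^ 12 := by gcongr
  refine ⟨hI.srt, hl, fun y hy => ?_, ?_, fun b hb => ?_⟩
  · rw [hI.val y (hy.trans h2)]
    push_cast [Nat.cast_sub hu]
    ring
  · obtain ⟨m0, e, h⟩ := hI.den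
    exact ⟨m0, e, fun y h3 h4 => h y h3 (h4.trans_le h2)⟩
  · rcases hI.pst b hb with h | h
    · exact Or.inl (h2.trans h)
    · exact Or.inr h

lemma wk_kink {a : Sl} {φ : ℝ → ℝ} {lo : ℝ} {u c d f s mu : ℕ} {t : List Kn}
    (hI : Inv a φ lo u f s mu (⟨u, c, d⟩ :: t)) : Inv a φ lo u f (s + c) (mu - d) t := by
  refine ⟨hI.srt.of_cons, fun p hp => hI.le p (List.mem_cons_of_mem _ hp), fun y hy => ?_, ?_,
    fun b hb => ?_⟩
  · rw [hI.val y hy, wk_hk_cons, max_eq_left (by linarith)]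
    push_cast
    ring
  · obtain ⟨m0, e, h⟩ := hI.den
    refine ⟨m0, ?_, fun y h3 h4 => ?_⟩
    · rw [List.map_cons, List.sum_cons] at e
      simp only at e
      omega
    · rw [h y h3 h4, List.map_cons, List.sum_cons, if_neg (not_le.2 h4), zero_add]
  · rcases hI.pst b hb with h | h | ⟨p, hp, h⟩
    · exact Or.inl h
    · exact Or.inr (Or.inl h)
    · rcases List.mem_cons.1 hp with rfl | hp
      · exact Or.inl h.ge
      · exact Or.inr (Or.inr ⟨p, hp, h⟩)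

/-- the rounded point of a value -/
def wkP (E : ℕ) (g : ℕ → ℕ) (f : ℕ) : A :=
  ptp (ki E (g (Nat.shiftRight f 52))) (fi E (g (Nat.shiftRight f 52)))

lemma wk_shr (f : ℕ) : ((Nat.shiftRight f 52 : ℕ) : ℝ) ≤ (f : ℝ) / 2 ^ 92 * 2 ^ 40 ∧
    (f : ℝ) / 2 ^ 92 * 2 ^ 40 ≤ ((Nat.shiftRight f 52 : ℕ) : ℝ) + 1 := by
  rw [n_shr]
  have e : (f : ℝ) / 2 ^ 92 * 2 ^ 40 = (f : ℝ) / ((2 ^ 52 : ℕ) : ℝ) := by
    push_cast
    ring
  rw [e]
  generalize hM : (2 ^ 52 : ℕ) = M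
  have hM0 : 0 < M := by rw [← hM]; positivity
  refine ⟨Nat.cast_div_le, ?_⟩
  have h1 : (0 : ℝ) < M := by exact_mod_cast hM0
  rw [div_le_iff₀ h1]
  have h2 : f ≤ (f / M + 1) * M := by
    have := Nat.lt_div_mul_add (a := f) hM0
    rw [add_mul, one_mul]
    exact this.le
  exact_mod_cast h2

lemma wk_pt {E : ℕ} (hE : 0 < E) (y : ℕ) :
    ((y : ℝ) - 2 ^ 30 * E) / 2 ^ 40 = (ki E y + fi E y) * ((E : ℝ) / 2 ^ 40) ∧ 0 ≤ fi E y ∧
      fi E y ≤ 1 := by
  have h0 : (0 : ℝ) < E := by exact_mod_cast hE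
  have h1 : (y : ℝ) = E * ((y / E : ℕ) : ℝ) + ((y % E : ℕ) : ℝ) := by
    exact_mod_cast (Nat.div_add_mod y E).symm
  refine ⟨?_, by unfold fi; positivity, ?_⟩
  · unfold ki fi
    rw [Int.cast_sub, Int.cast_natCast]
    push_cast
    generalize ((y / E : ℕ) : ℝ) = q at *
    generalize ((y % E : ℕ) : ℝ) = r at *
    rw [h1]
    field_simp
    ring
  · unfold fi
    rw [div_le_one h0]
    exact_mod_cast (Nat.mod_lt y hE).le

lemma wk_den {a : Sl} {φ : ℝ → ℝ} {lo : ℝ} {x f s mu : ℕ} {l : List Kn}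
    (hI : Inv a φ lo x f s mu l) {u : ℕ} (hu : u < x) (hl : ∀ p ∈ l, p.u ≤ u)
    (hlo : lo ≤ (u : ℝ) / 2 ^ 12) : a.den ((u : ℝ) / 2 ^ 12) * a.D = mu := by
  obtain ⟨m0, e, h⟩ := hI.den
  have h1 : (u : ℝ) < x := by exact_mod_cast hu
  rw [h _ hlo (by gcongr), e]
  push_cast
  congr 1
  rw [List.map_map]
  refine congrArg List.sum (List.map_congr_left fun p hp => ?_)
  have h2 : (p.u : ℝ) ≤ u := by exact_mod_cast hl p hp
  rw [if_pos (by gcongr)]
  rfl

lemma wk_piece {a : Sl} {φ : ℝ → ℝ} (hφ : Continuous φ) (hD : 0 < a.D) {lo : ℝ} {x f s mu : ℕ}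
    {l : List Kn} (hI : Inv a φ lo x f s mu l) {u : ℕ} (hu : u ≤ x) (hl : ∀ p ∈ l, p.u ≤ u)
    (hlo : lo ≤ (u : ℝ) / 2 ^ 12) {E : ℕ} {α γ : ℝ} {g : ℕ → ℕ} (hE : 0 < E) (hg : Rd E α γ g) :
    a.DomW (fun v => α + γ * φ v) ((u : ℝ) / 2 ^ 12) ((x : ℝ) / 2 ^ 12) ((E : ℝ) / 2 ^ 40)
      ((1 / ((a.D : ℝ) * 2 ^ 13)) • (((mu * (x - u) : ℕ) : ℝ) • wkP E g f +
        ((mu * (x - u) : ℕ) : ℝ) • wkP E g (f + s * (x - u)))) := by
  rcases hu.eq_or_lt with rfl | hlt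
  · simp only [Nat.sub_self, mul_zero, Nat.cast_zero, zero_smul, add_zero, smul_zero]
    exact domW_refl _ _ _
  have h1 : (u : ℝ) < x := by exact_mod_cast hlt
  have h2 : (u : ℝ) / 2 ^ 12 < (x : ℝ) / 2 ^ 12 := by gcongr
  have hD' : (0 : ℝ) < a.D := by exact_mod_cast hD
  have v1 := hI.at
  have v0 := (wk_move hI hu hl).at
  obtain ⟨a1, a2, a3⟩ := wk_pt hE (g (Nat.shiftRight (f + s * (x - u)) 52))
  obtain ⟨b1, b2, b3⟩ := wk_pt hE (g (Nat.shiftRight f 52))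
  have c0 := hg _ _ (wk_shr (f + s * (x - u))).1 (wk_shr (f + s * (x - u))).2
  have c1 := hg _ _ (wk_shr f).1 (wk_shr f).2
  have key := domI_cell' (β := fun v => α + γ * φ v) h2.le
    (continuous_const.add (continuous_const.mul hφ)) (fun y h3 h4 => le_of_eq (by
      show α + γ * φ y = _
      rw [hI.val y h4.le, wk_hk_zero hl h3.le, eq_div_iff (sub_pos.2 h2).ne']
      push_cast [Nat.cast_sub hu]
      ring)) (c0.trans a1.le) (c1.trans b1.le) a2 a3 b2 b3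
  have key2 := domW_cell (a := a) h2.le (fun b hb => by
    rcases hI.pst b hb with h | h | ⟨p, hp, h⟩
    · exact Or.inr h
    · exact Or.inl (h.trans hlo)
    · have h5 : (p.u : ℝ) ≤ u := by exact_mod_cast hl p hp
      exact Or.inl (by rw [h]; gcongr)) key
  have e : a.den ((u : ℝ) / 2 ^ 12) = (mu : ℝ) / a.D := by
    rw [← wk_den hI hlt hl hlo]
    field_simp
  rw [e, smul_smul] at key2
  rw [← smul_add, smul_smul, add_comm (wkP E g f)]
  have e2 : 1 / ((a.D : ℝ) * 2 ^ 13) * ((mu * (x - u) : ℕ) : ℝ) =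
      (mu : ℝ) / a.D * (((x : ℝ) / 2 ^ 12 - (u : ℝ) / 2 ^ 12) / 2) := by
    push_cast [Nat.cast_sub hu]
    ring
  rw [e2]
  exact key2

lemma wk_blk_nil (y x f s mu pe : ℕ) (k : List (ℕ × ℕ) → ℕ → ℕ → ℕ → List Kn → Bool) :
    blk y [] x f s mu pe k = k [(Nat.shiftRight f 52, pe + mu * (x - y)),
      (Nat.shiftRight (f + s * (x - y)) 52, mu * (x - y))] (f + s * (x - y)) s mu [] := rfl

lemma wk_blk_cons (y u c d : ℕ) (t : List Kn) (x f s mu pe : ℕ)
    (k : List (ℕ × ℕ) → ℕ → ℕ → ℕ → List Kn → Bool) :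
    blk y (⟨u, c, d⟩ :: t) x f s mu pe k = cond (Nat.blt y u)
      (blk y t u (f + s * (x - u)) (s + c) (mu - d) (mu * (x - u))
        fun l => k ((Nat.shiftRight f 52, pe + mu * (x - u)) :: l))
      (k [(Nat.shiftRight f 52, pe + mu * (x - y)),
        (Nat.shiftRight (f + s * (x - y)) 52, mu * (x - y))] (f + s * (x - y)) s mu
        (⟨u, c, d⟩ :: t)) := rfl

lemma wk_lam_cons (E : ℕ) (g : ℕ → ℕ) (f w : ℕ) (l : List (ℕ × ℕ)) :
    lamOf E g ((Nat.shiftRight f 52, w) :: l) = (w : ℝ) • wkP E g f + lamOf E g l := rfl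

/-- what one block gives -/
def WkB (a : Sl) (φ : ℝ → ℝ) (lo : ℝ) (y x f pe : ℕ) (pts : List (ℕ × ℕ)) (f' s' mu' : ℕ)
    (l' : List Kn) : Prop :=
  Inv a φ lo y f' s' mu' l' ∧ ∀ (E : ℕ) (α γ : ℝ) (g : ℕ → ℕ), 0 < E → Rd E α γ g →
    ∃ Λ : A, lamOf E g pts = (pe : ℝ) • wkP E g f + Λ ∧
      a.DomW (fun v => α + γ * φ v) ((y : ℝ) / 2 ^ 12) ((x : ℝ) / 2 ^ 12) ((E : ℝ) / 2 ^ 40)
        ((1 / ((a.D : ℝ) * 2 ^ 13)) • Λ)

lemma wk_last {a : Sl} {φ : ℝ → ℝ} (hφ : Continuous φ) (hD : 0 < a.D) {lo : ℝ} {x f s mu : ℕ}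
    {l : List Kn} (hI : Inv a φ lo x f s mu l) {y : ℕ} (hy : y ≤ x) (hl : ∀ p ∈ l, p.u ≤ y)
    (hlo : lo ≤ (y : ℝ) / 2 ^ 12) (pe : ℕ) :
    WkB a φ lo y x f pe [(Nat.shiftRight f 52, pe + mu * (x - y)),
      (Nat.shiftRight (f + s * (x - y)) 52, mu * (x - y))] (f + s * (x - y)) s mu l := by
  refine ⟨wk_move hI hy hl, fun E α γ g hE hg => ⟨_, ?_, wk_piece hφ hD hI hy hl hlo hE hg⟩⟩
  rw [wk_lam_cons, wk_lam_cons, Nat.cast_add, add_smul, add_assoc]
  congr 2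
  exact add_zero _

lemma wk_blk {a : Sl} {φ : ℝ → ℝ} (hφ : Continuous φ) (hD : 0 < a.D) (lo : ℝ) (y : ℕ)
    (l : List Kn) : ∀ x f s mu pe : ℕ, ∃ pts f' s' mu' l',
      (∀ k : List (ℕ × ℕ) → ℕ → ℕ → ℕ → List Kn → Bool,
        blk y l x f s mu pe k = k pts f' s' mu' l') ∧ l' <:+ l ∧
      (Inv a φ lo x f s mu l → y ≤ x → lo ≤ (y : ℝ) / 2 ^ 12 →
        WkB a φ lo y x f pe pts f' s' mu' l') := by
  induction l with
  | nil =>
    intro x f s mu pe
    exact ⟨_, _, _, _, _, wk_blk_nil y x f s mu pe, List.suffix_refl _, fun hI hy hlo =>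
      wk_last hφ hD hI hy (fun _ h => absurd h List.not_mem_nil) hlo pe⟩
  | cons n t ih =>
    intro x f s mu pe
    obtain ⟨u, c, d⟩ := n
    cases hb : Nat.blt y u with
    | false =>
      refine ⟨_, _, _, _, _, fun k => by rw [wk_blk_cons, hb]; rfl, List.suffix_refl _,
        fun hI hy hlo => wk_last hφ hD hI hy (fun p hp => ?_) hlo pe⟩
      have h1 : u ≤ y := by
        by_contra h
        rw [Nat.blt_eq.mpr (not_le.1 h)] at hb
        exact absurd hb (by decide)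
      rcases List.mem_cons.1 hp with rfl | hp
      · exact h1
      · exact (List.rel_of_pairwise_cons hI.srt hp).trans h1
    | true =>
      obtain ⟨pts, f', s', mu', l', h1, h2, h3⟩ :=
        ih u (f + s * (x - u)) (s + c) (mu - d) (mu * (x - u))
      refine ⟨(Nat.shiftRight f 52, pe + mu * (x - u)) :: pts, f', s', mu', l',
        fun k => by rw [wk_blk_cons, hb]; exact h1 _, h2.trans (List.suffix_cons _ _),
        fun hI hy hlo => ?_⟩
      have hyu : y < u := Nat.blt_eq.mp hb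
      have hux : u ≤ x := hI.le _ List.mem_cons_self
      have hl : ∀ p ∈ (⟨u, c, d⟩ : Kn) :: t, p.u ≤ u := fun p hp => by
        rcases List.mem_cons.1 hp with rfl | hp
        · exact le_rfl
        · exact List.rel_of_pairwise_cons hI.srt hp
      have r1 : (y : ℝ) ≤ u := by exact_mod_cast hyu.le
      have r2 : (u : ℝ) ≤ x := by exact_mod_cast hux
      have r3 : (y : ℝ) / 2 ^ 12 ≤ (u : ℝ) / 2 ^ 12 := by gcongr
      have r4 : (u : ℝ) / 2 ^ 12 ≤ (x : ℝ) / 2 ^ 12 := by gcongr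
      obtain ⟨h4, h5⟩ := h3 (wk_kink (wk_move hI hux hl)) hyu.le hlo
      refine ⟨h4, fun E α γ g hE hg => ?_⟩
      obtain ⟨Λ, e, h6⟩ := h5 E α γ g hE hg
      have h7 := h6.trans r3 r4 (wk_piece hφ hD hI hux hl (hlo.trans r3) hE hg)
      rw [← smul_add] at h7
      refine ⟨_, ?_, h7⟩
      rw [wk_lam_cons, e, Nat.cast_add, add_smul]
      abel

lemma wk_walk_cons (y : ℕ) (ys : List ℕ) (x f s mu : ℕ) (l : List Kn)
    (k : List Bk → ℕ → ℕ → List Kn → Bool) :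
    walk false (y :: ys) x f s mu l k = cond (Nat.blt y x)
      (blk y l x f s mu 0 fun pts f' s' mu' l' => walk false ys y f' s' mu' l' fun bs =>
        k (⟨y, x, Nat.shiftRight f' 52, Nat.shiftRight f 52, pts⟩ :: bs)) false := rfl

lemma wk_le (nodes : List ℕ) : ∀ (x f s mu : ℕ) (l : List Kn) (k : List Bk → ℕ → ℕ → List Kn → Bool),
    walk false nodes x f s mu l k = true → lastN nodes x ≤ x := by
  induction nodes with
  | nil => exact fun x _ _ _ _ _ _ => le_rfl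
  | cons y ys ih =>
    intro x f s mu l k h
    rw [wk_walk_cons] at h
    obtain ⟨h1, h2⟩ := cond_false h
    obtain ⟨pts, f', s', mu', l', h3, -⟩ := wk_blk (a := ⟨1, 0, 0, [], 0, 0, 0, 0, 0, 0, fun _ => 0⟩)
      (φ := fun _ => 0) continuous_const Nat.one_pos 0 y l x f s mu 0
    rw [h3] at h2
    exact (ih _ _ _ _ _ _ h2).trans (Nat.blt_eq.mp h1).le

theorem walk_spec {a : Sl} {φ : ℝ → ℝ} (hφ : Continuous φ) (hD : 0 < a.D) {lo : ℝ} {nodes : List ℕ}
    {x f s mu : ℕ} {l : List Kn} (hI : Inv a φ lo x f s mu l) (hlo : lo ≤ (lastN nodes x : ℝ) / 2 ^ 12)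
    {k : List Bk → ℕ → ℕ → List Kn → Bool} (h : walk false nodes x f s mu l k = true) :
    ∃ bs f' s' mu' l', Nd a φ x nodes bs ∧ Inv a φ lo (lastN nodes x) f' s' mu' l' ∧ l' <:+ l ∧
      k bs f' s' l' = true := by
  induction nodes generalizing x f s mu l k with
  | nil => exact ⟨[], f, s, mu, l, rfl, hI, List.suffix_refl _, h⟩
  | cons y ys ih =>
    rw [wk_walk_cons] at h
    obtain ⟨h1, h2⟩ := cond_false h
    have hyx : y < x := Nat.blt_eq.mp h1
    obtain ⟨pts, f', s', mu', l', h3, h4, h5⟩ := wk_blk hφ hD lo y l x f s mu 0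
    rw [h3] at h2
    have r1 : ((lastN ys y : ℕ) : ℝ) ≤ y := by exact_mod_cast wk_le _ _ _ _ _ _ _ h2
    have hlo' : lo ≤ (lastN ys y : ℝ) / 2 ^ 12 := hlo
    obtain ⟨h6, h7⟩ := h5 hI hyx.le (hlo'.trans (by gcongr))
    obtain ⟨bs, f2, s2, mu2, l2, q1, q2, q3, q4⟩ := ih h6 hlo' h2
    refine ⟨_, f2, s2, mu2, l2, ⟨_, bs, rfl, rfl, rfl, hyx, ⟨?_, ?_, fun E α γ g hE hg => ?_⟩, q1⟩,
      q2, q3.trans h4, q4⟩
    · show φ ((y : ℝ) / 2 ^ 12) * 2 ^ 40 ≤ _
      rw [h6.at]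
      exact (wk_shr f').2
    · show φ ((x : ℝ) / 2 ^ 12) * 2 ^ 40 ≤ _
      rw [hI.at]
      exact (wk_shr f).2
    · obtain ⟨Λ, e, h8⟩ := h7 E α γ g hE hg
      rw [Nat.cast_zero, zero_smul, zero_add] at e
      rw [← e] at h8
      exact h8

lemma wk_knU (l : List (ℕ × ℕ)) : knU l = l.map fun p => ⟨p.1, p.2, 0⟩ := by
  induction l with
  | nil => rfl
  | cons p l ih => exact congrArg (List.cons _) ih

lemma wk_knD (l : List (ℕ × ℕ)) : knD l = l.map fun p => ⟨p.2, 0, p.1⟩ := by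
  induction l with
  | nil => rfl
  | cons p l ih => exact congrArg (List.cons _) ih

lemma wk_app (l r : List Kn) : app l r = l ++ r := by
  induction l with
  | nil => rfl
  | cons p l ih => exact congrArg (List.cons _) ih

lemma wk_smu (l : List (ℕ × ℕ)) : ∀ s, smu l s = s + (l.map fun p => p.1).sum := by
  induction l with
  | nil => exact fun _ => rfl
  | cons p l ih =>
    intro s
    rw [List.map_cons, List.sum_cons, ← add_assoc, ← ih]
    rfl

lemma wk_srt (l : List (ℕ × ℕ)) : ∀ z, srt l z = true →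
    (l.Pairwise fun p r => r.2 ≤ p.2) ∧ ∀ p ∈ l, p.2 ≤ z := by
  induction l with
  | nil => exact fun _ _ => ⟨List.Pairwise.nil, fun _ h => absurd h List.not_mem_nil⟩
  | cons p l ih =>
    intro z h
    have h' : (Nat.ble p.2 z && srt l p.2) = true := h
    rw [Bool.and_eq_true] at h'
    obtain ⟨h1, h2⟩ := ih _ h'.2
    have h3 := Nat.le_of_ble_eq_true h'.1
    refine ⟨List.Pairwise.cons h2 h1, fun q hq => ?_⟩
    rcases List.mem_cons.1 hq with rfl | hq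
    · exact h3
    · exact (h2 q hq).trans h3

lemma wk_sum0 {ι M : Type} [AddCommMonoid M] {l : List ι} {f : ι → M} (h : ∀ p ∈ l, f p = 0) :
    (l.map f).sum = 0 :=
  List.sum_eq_zero fun x hx => by
    obtain ⟨p, hp, rfl⟩ := List.mem_map.1 hx
    exact h p hp

/-- start of the upper walk -/
lemma inv_top {a : Sl} {l : List (ℕ × ℕ)} (hs : l.Pairwise fun p r => r.1 ≤ p.1) (hX : ∀ p ∈ l, p.1 ≤ 2 ^ 25) :
    Inv a.up (hg l) a.z (2 ^ 25) 0 0 1 (knU l) := by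
  rw [wk_knU]
  refine ⟨List.pairwise_map.2 hs, fun p hp => ?_, fun y _ => ?_, ⟨1, ?_, fun y h1 _ => ?_⟩,
    fun b hb => ?_⟩
  · obtain ⟨q, hq, rfl⟩ := List.mem_map.1 hp
    exact hX q hq
  · unfold hk hg
    rw [List.map_map, Nat.cast_zero, zero_mul, add_zero, zero_div, zero_add]
    rfl
  · rw [wk_sum0, add_zero]
    intro p hp
    obtain ⟨q, -, rfl⟩ := List.mem_map.1 hp
    rfl
  · rw [wk_sum0]
    · simp [Sl.den, Sl.up, h1]
    · intro p hp
      obtain ⟨q, -, rfl⟩ := List.mem_map.1 hp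
      simp
  · have : b = (1, a.z) := List.mem_singleton.1 hb
    exact Or.inr (Or.inl (by rw [this]))

/-- from the upper walk to the lower walk -/
lemma inv_low {a : Sl} {past : List (ℕ × ℕ)} {z f s mu' : ℕ} {l : List (ℕ × ℕ)} {l' : List Kn}
    (hp : a.past = rP past) (hD : 0 < a.D) (hz : a.z = (z : ℝ) / 2 ^ 12) (hl : ∀ p ∈ l, z ≤ p.1)
    (hs : srt past z = true) (hI : Inv a.up (hg l) a.z z f s mu' l') (hl' : l' <:+ knU l) :
    Inv a (hg l) 0 z f s (smu past 0) (app l' (knD past)) := by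
  have _ := hz
  obtain ⟨s1, s2⟩ := wk_srt past z hs
  have hD' : (0 : ℝ) < a.D := by exact_mod_cast hD
  have h1 : ∀ p ∈ l', z ≤ p.u ∧ p.d = 0 := fun p hp => by
    have := hl'.subset hp
    rw [wk_knU] at this
    obtain ⟨q, hq, rfl⟩ := List.mem_map.1 this
    exact ⟨hl q hq, rfl⟩
  rw [wk_app, wk_knD, wk_smu]
  refine ⟨List.pairwise_append.2 ⟨hI.srt, List.pairwise_map.2 s1, fun p hp r hr => ?_⟩,
    fun p hp => ?_, fun y hy => ?_, ⟨0, ?_, fun y _ _ => ?_⟩, fun b hb => ?_⟩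
  · obtain ⟨q, hq, rfl⟩ := List.mem_map.1 hr
    exact (s2 q hq).trans (h1 p hp).1
  · rcases List.mem_append.1 hp with h | h
    · exact hI.le p h
    · obtain ⟨q, hq, rfl⟩ := List.mem_map.1 h
      exact s2 q hq
  · rw [hI.val y hy]
    congr 1
    unfold hk
    rw [List.map_append, List.sum_append, wk_sum0 (l := List.map _ past), add_zero]
    intro p hp
    obtain ⟨q, -, rfl⟩ := List.mem_map.1 hp
    simp
  · rw [List.map_append, List.sum_append, wk_sum0 (l := l') fun p hp => (h1 p hp).2, List.map_map,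
      zero_add, zero_add, zero_add]
    rfl
  · rw [List.map_append, List.sum_append, wk_sum0 (l := l') fun p hp => by simp [(h1 p hp).2],
      Nat.cast_zero, zero_add, zero_add, Sl.den, hp, rP, List.map_map, List.map_map,
      ← List.sum_map_mul_right]
    refine congrArg List.sum (List.map_congr_left fun p _ => ?_)
    simp only [Function.comp_apply]
    split_ifs
    · exact div_mul_cancel₀ _ hD'.ne'
    · exact zero_mul _
  · rw [hp, rP] at hb
    obtain ⟨q, hq, rfl⟩ := List.mem_map.1 hb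
    exact Or.inr (Or.inr ⟨⟨q.2, 0, q.1⟩, List.mem_append_right _ (List.mem_map_of_mem hq), rfl⟩)

lemma Nd.le {a : Sl} {φ : ℝ → ℝ} {x : ℕ} {nodes : List ℕ} {bs : List Bk} (h : Nd a φ x nodes bs) :
    lastN nodes x ≤ x := by
  induction nodes generalizing x bs with
  | nil => exact le_rfl
  | cons y ys ih =>
    obtain ⟨b, bs', -, -, -, h1, -, h2⟩ := h
    exact (ih h2).trans h1.le

/-- all blocks together -/
lemma Nd.all {a : Sl} {φ : ℝ → ℝ} {x : ℕ} {nodes : List ℕ} {bs : List Bk} (h : Nd a φ x nodes bs)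
    {E : ℕ} {α γ : ℝ} {g : ℕ → ℕ} (hE : 0 < E) (hg : Rd E α γ g) :
    a.DomW (fun u => α + γ * φ u) ((lastN nodes x : ℝ) / 2 ^ 12) ((x : ℝ) / 2 ^ 12) ((E : ℝ) / 2 ^ 40)
      ((1 / ((a.D : ℝ) * 2 ^ 13)) • (bs.map fun b => lamOf E g b.pts).sum) := by
  induction nodes generalizing x bs with
  | nil =>
    have e : bs = [] := h
    rw [e, List.map_nil, List.sum_nil, smul_zero]
    exact domW_refl _ _ _
  | cons y ys ih =>
    obtain ⟨b, bs', rfl, e1, e0, h1, h2, h3⟩ := h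
    have r1 : ((lastN ys y : ℕ) : ℝ) ≤ y := by exact_mod_cast h3.le
    have r2 : (y : ℝ) ≤ x := by exact_mod_cast h1.le
    have h4 := h2.dom E α γ g hE hg
    rw [e1, e0] at h4
    have h5 := (ih h3).trans (by gcongr) (by gcongr) h4
    rw [List.map_cons, List.sum_cons, add_comm (lamOf E g b.pts), smul_add]
    exact h5

lemma domI_of_up {a : Sl} {β : ℝ → ℝ} {x0 x1 η : ℝ} {Λ : A} (h : a.up.DomW β x0 x1 η Λ) (h0 : a.z ≤ x0)
    (h1 : x0 ≤ x1) : DomI β x0 x1 η Λ := by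
  obtain ⟨L, h2, rfl⟩ := h
  have h3 := h2 (1, a.z) (List.mem_singleton.2 rfl)
  simp only [max_eq_right h0, min_eq_left h1] at h3
  simpa [Sl.up] using h3

end
end Pool.Agent.MP_3bf126_pr.H21
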