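import Pool.Agent.MP_3bf126_pr.H21.Accu
import Pool.Agent.MP_3bf126_pr.H21.Walk
import Pool.Agent.MP_3bf126_pr.H21.Cell

/-! Soundness of the two sides. -/

namespace Pool.Agent.MP_3bf126_pr.H21
open Filter Finset K
noncomputable section

variable {a : Sl} {v : Env} {cx : Cx} {sd : Sd} {Na Nb : A}

section aux
variable {β β0 β1 φ : ℝ → ℝ} {x0 x1 x2 : ℝ} {N : A} {W W' xl xh : ℕ} {s t : Tb} {k : Tb → Bool}

lemma sd_join {η : ℝ} {Λ Λ' : A} (h : a.DomW β0 x0 x1 η Λ) (h' : a.DomW β1 x1 x2 η Λ') (h01 : x0 ≤ x1)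
    (h12 : x1 ≤ x2) (c0 : Continuous β0) (c1 : Continuous β1) (e0 : ∀ x, x0 < x → x < x1 → β x = β0 x)
    (e1 : ∀ x, x1 < x → x < x2 → β x = β1 x) : a.DomW β x0 x2 η (Λ + Λ') :=
  (h.mono h01 c0 e0 fun x p q => (e0 x p q).le).trans h01 h12
    (h'.mono h12 c1 e1 fun x p q => (e1 x p q).le)

lemma sd_mx (hc : CxOK cx) (hN : Pos N) (hW : (W : ℝ) / 2 ^ 64 + (W' : ℝ) / 2 ^ 64 ≤ 1) {Λ Λ' : A}
    (hs : MXT cx (a.Δ • N) ((W : ℝ) / 2 ^ 64) ((W' : ℝ) / 2 ^ 64) s Λ) (ht : SPT cx t Λ')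
    (h : mulT cx xl xh s t k = true) :
    ∃ r, MXT cx (a.Δ • N) ((W : ℝ) / 2 ^ 64) ((W' : ℝ) / 2 ^ 64) r (Λ + Λ') ∧ k r = true :=
  mulT_mx hc (hN.smul (by unfold Sl.Δ; positivity)) (by positivity) (by positivity) hW hs ht h

lemma sd_m_up (β : ℝ → ℝ) (hc : CxOK cx) (hN : Pos N) (hW : (W : ℝ) / 2 ^ 64 + (W' : ℝ) / 2 ^ 64 ≤ 1)
    (hs : DM a cx N W W' β1 x1 x2 s) (ht : DT a cx β0 x0 x1 t) (h01 : x0 ≤ x1)
    (h12 : x1 ≤ x2) (c0 : Continuous β0) (c1 : Continuous β1) (e0 : ∀ x, x0 < x → x < x1 → β x = β0 x)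
    (e1 : ∀ x, x1 < x → x < x2 → β x = β1 x) (h : mulT cx xl xh s t k = true) :
    ∃ r, DM a cx N W W' β x0 x2 r ∧ k r = true := by
  obtain ⟨Λ, d, hs⟩ := hs
  obtain ⟨Λ', d', ht⟩ := ht
  obtain ⟨r, hr, h⟩ := sd_mx hc hN hW hs ht h
  exact ⟨r, ⟨_, sd_join d' d h01 h12 c0 c1 e0 e1, add_comm Λ Λ' ▸ hr⟩, h⟩

lemma sd_m_lo (β : ℝ → ℝ) (hc : CxOK cx) (hN : Pos N) (hW : (W : ℝ) / 2 ^ 64 + (W' : ℝ) / 2 ^ 64 ≤ 1)
    (hs : DM a cx N W W' β0 x0 x1 s) (ht : DT a cx β1 x1 x2 t) (h01 : x0 ≤ x1)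
    (h12 : x1 ≤ x2) (c0 : Continuous β0) (c1 : Continuous β1) (e0 : ∀ x, x0 < x → x < x1 → β x = β0 x)
    (e1 : ∀ x, x1 < x → x < x2 → β x = β1 x) (h : mulT cx xl xh s t k = true) :
    ∃ r, DM a cx N W W' β x0 x2 r ∧ k r = true := by
  obtain ⟨Λ, d, hs⟩ := hs
  obtain ⟨Λ', d', ht⟩ := ht
  obtain ⟨r, hr, h⟩ := sd_mx hc hN hW hs ht h
  exact ⟨r, ⟨_, sd_join d d' h01 h12 c0 c1 e0 e1, hr⟩, h⟩

lemma sd_t_up (hc : CxOK cx) (hs : DT a cx β x1 x2 s) (ht : DT a cx β x0 x1 t) (h01 : x0 ≤ x1)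
    (h12 : x1 ≤ x2) (h : mulT cx xl xh s t k = true) : ∃ r, DT a cx β x0 x2 r ∧ k r = true := by
  obtain ⟨Λ, d, hs⟩ := hs
  obtain ⟨Λ', d', ht⟩ := ht
  obtain ⟨r, hr, h⟩ := mulT_sp hc hs ht h
  exact ⟨r, ⟨_, d'.trans h01 h12 d, add_comm Λ Λ' ▸ hr⟩, h⟩

lemma sd_t_lo (hc : CxOK cx) (hs : DT a cx β x0 x1 s) (ht : DT a cx β x1 x2 t) (h01 : x0 ≤ x1)
    (h12 : x1 ≤ x2) (h : mulT cx xl xh s t k = true) : ∃ r, DT a cx β x0 x2 r ∧ k r = true := by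
  obtain ⟨Λ, d, hs⟩ := hs
  obtain ⟨Λ', d', ht⟩ := ht
  obtain ⟨r, hr, h⟩ := mulT_sp hc hs ht h
  exact ⟨r, ⟨_, d.trans h01 h12 d', hr⟩, h⟩

lemma sd_blkM (β : ℝ → ℝ) (hc : CxOK cx) (hD : a.D = 2 ^ 24) {b : Bk} (hb : BkOK a φ b) {α γ : ℝ}
    {g : ℕ → ℕ} (hg : Rd cx.E α γ g) (e : ∀ u, β u = α + γ * φ u) (h : expB false cx 1 g b k = true) :
    ∃ t, DT a cx β ((b.x0 : ℝ) / 2 ^ 12) ((b.x1 : ℝ) / 2 ^ 12) t ∧ k t = true := by
  obtain ⟨lo, t, ht, h⟩ := expB_spec hc h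
  have d := hb.dom cx.E α γ _ hc.E0 (hg.max lo)
  rw [show (1 / ((a.D : ℝ) * 2 ^ 13)) = ((1 : ℕ) : ℝ) / 2 ^ 37 by rw [hD]; norm_num] at d
  rw [funext e]
  exact ⟨t, ⟨_, d, ht⟩, h⟩

lemma sd_blkP (β : ℝ → ℝ) (ha : a.OK) (hc : CxOK cx) {mu : ℕ} (hmu : a.μ = (mu : ℝ) / 2 ^ 24) {b : Bk}
    (hb : BkOK a.up φ b) (h0 : a.z ≤ (b.x0 : ℝ) / 2 ^ 12) (h1 : (b.x0 : ℝ) / 2 ^ 12 ≤ (b.x1 : ℝ) / 2 ^ 12)
    {α γ : ℝ} {g : ℕ → ℕ} (hg : Rd cx.E α γ g) (e : ∀ u, β u = α + γ * φ u)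
    (h : expB false cx mu g b k = true) :
    ∃ t, DT a cx β ((b.x0 : ℝ) / 2 ^ 12) ((b.x1 : ℝ) / 2 ^ 12) t ∧ k t = true := by
  obtain ⟨lo, t, ht, h⟩ := expB_spec hc h
  have d := domW_top (a := a) h1 (fun p hp => (ha.pz p hp).2.trans h0)
    (domI_of_up (hb.dom cx.E α γ _ hc.E0 (hg.max lo)) h0 h1)
  rw [smul_smul, show a.μ * (1 / ((a.up.D : ℝ) * 2 ^ 13)) = (mu : ℝ) / 2 ^ 37 by
    rw [hmu, show a.up.D = 1 from rfl, Nat.cast_one]; ring] at d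
  rw [funext e]
  exact ⟨t, ⟨_, d, ht⟩, h⟩

lemma sd_ind (c : ℝ) : Measurable fun x : ℝ => if x < c then (1 : ℝ) else 0 :=
  Measurable.ite (measurableSet_lt measurable_id measurable_const) measurable_const measurable_const

lemma sd_nM {η c : ℝ} (ha : a.OK) (hφ : Continuous φ) (h : DomI (fun u => -φ u) a.z a.X η N) (hc : c ≤ a.z) :
    DomI (fun x => (if x < c then 1 else 0) - φ x) a.z a.X η N := by
  have e : ∀ x, a.z < x → x < a.X → (if x < c then 1 else 0) - φ x = -φ x := fun x p _ => by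
    rw [if_neg (by linarith), zero_sub]
  exact h.mono ha.zX hφ.neg e fun x p q => (e x p q).le

lemma sd_nP {η c : ℝ} (hφ : Continuous φ) (h : DomI φ x0 x1 η N) (h0 : x0 ≤ c) (h1 : c ≤ x1) :
    DomI (fun x => φ x - (if x < c then 1 else 0)) x0 x1 η N := by
  refine ⟨h.1, fun k hk y => ?_⟩
  obtain ⟨i1, j1⟩ := h.2 k hk y
  have i2 := (intble_of_eq (β := fun x => φ x - (if x < c then 1 else 0)) h0 (hφ.sub continuous_const)
    (fun x _ r => by rw [if_pos r]; rfl) hk y).trans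
    (intble_of_eq (β := fun x => φ x - (if x < c then 1 else 0)) h1 hφ
      (fun x r _ => by rw [if_neg (not_lt.2 r.le), sub_zero]) hk y)
  refine ⟨i2, (intervalIntegral.integral_mono_on_of_le_Ioo (h0.trans h1) i2 i1 fun x _ =>
    hk.2.1 ?_).trans j1⟩
  split_ifs <;> linarith

lemma sd_offM {YB s x c : ℕ} {S C : ℝ} (e1 : (s : ℝ) = S * 2 ^ 80) (e2 : (c : ℝ) = C * 2 ^ 92) :
    S * ((x : ℝ) / 2 ^ 12) - C ≤
      ((off (Nat.shiftLeft YB (nat_lit 52)) s x c : ℕ) - YB : ℝ) / 2 ^ 40 := by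
  have h := off_ge (Nat.shiftLeft YB (nat_lit 52)) s x c
  generalize (off (Nat.shiftLeft YB (nat_lit 52)) s x c : ℝ) = o at h ⊢
  rw [n_shl, show (nat_lit 52) = 52 from rfl, Nat.cast_mul, Nat.cast_pow, Nat.cast_ofNat, e1, e2] at h
  linarith

lemma sd_offP {YB c kk x s f : ℕ} {S C K F : ℝ} (e0 : (kk : ℝ) = K * 2 ^ 80) (e1 : (s : ℝ) = S * 2 ^ 80)
    (e2 : (c : ℝ) = YB * 2 ^ 52 + C * 2 ^ 92) (hf : F * 2 ^ 40 ≤ f + 1) :
    C + F - 1 - S * ((x : ℝ) / 2 ^ 12) + K * ((x : ℝ) / 2 ^ 12) ≤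
      ((Nat.add (Nat.add (off c kk x (Nat.add (nat_lit 4951760157141521099596496896) (Nat.mul s x))) f)
        (nat_lit 1) : ℕ) - YB : ℝ) / 2 ^ 40 := by
  have h := off_ge c kk x (Nat.add (nat_lit 4951760157141521099596496896) (Nat.mul s x))
  generalize off c kk x (Nat.add (nat_lit 4951760157141521099596496896) (Nat.mul s x)) = o at h ⊢
  rw [n_add, n_mul, show (nat_lit 4951760157141521099596496896) = 4951760157141521099596496896 from rfl,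
    Nat.cast_add, Nat.cast_mul, Nat.cast_ofNat, e0, e1, e2] at h
  rw [show Nat.add (Nat.add o f) (nat_lit 1) = o + f + 1 from rfl, Nat.cast_add, Nat.cast_add, Nat.cast_one]
  linarith

end aux

lemma sd_Wa (hs : SdOK a v cx sd Na Nb) : (sd.Waa : ℝ) / 2 ^ 64 + (sd.Wab : ℝ) / 2 ^ 64 ≤ 1 := by
  have h := hs.W.one
  have h1 : (0 : ℝ) ≤ (sd.Wba : ℝ) / 2 ^ 64 := by positivity
  have h2 : (0 : ℝ) ≤ (sd.Wbb : ℝ) / 2 ^ 64 := by positivity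
  linarith

lemma sd_Wb (hs : SdOK a v cx sd Na Nb) : (sd.Wba : ℝ) / 2 ^ 64 + (sd.Wbb : ℝ) / 2 ^ 64 ≤ 1 := by
  have h := hs.W.one
  have h1 := hs.W.aa0
  have h2 := hs.W.ab0
  linarith

lemma sd_le {x y : ℕ} (h : x ≤ y) : (x : ℝ) / 2 ^ 12 ≤ (y : ℝ) / 2 ^ 12 :=
  div_le_div_of_nonneg_right (by exact_mod_cast h) (by positivity)

lemma sideM_one (xa xb sa sb ca cb : ℕ) (a b : Bk) (bs : List Bk) (h : ℕ) (hs : List ℕ) (ua ub : Tb)
    (k : Tb → Tb → Tb → Tb → List Ct → Bool) :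
    sideM false cx sd xa xb sa sb ca cb [a] (b :: bs) (h :: hs) ua ub k =
      expB false cx 1 (fun m => (Nat.sub (Nat.add cx.YB (nat_lit 1099511627776)) m)) a fun pa =>
      expB false cx 1 (fun m => (Nat.sub (Nat.add cx.YB (nat_lit 1099511627776)) m)) b fun pb =>
      mulT cx xa 1 ua pa fun ta => mulT cx xb 1 ub pb fun tb =>
        mkCt false cx sd a.x0 a.x1 ta ta tb tb (off (Nat.shiftLeft cx.YB (nat_lit 52)) sa a.x0 ca)
          (off (Nat.shiftLeft cx.YB (nat_lit 52)) sa a.x1 ca)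
          (off (Nat.shiftLeft cx.YB (nat_lit 52)) sb a.x0 cb)
          (off (Nat.shiftLeft cx.YB (nat_lit 52)) sb a.x1 cb) h fun c => k pa pb ta tb [c] := rfl

lemma sideM_two (xa xb sa sb ca cb : ℕ) (a a' b : Bk) (as bs : List Bk) (h : ℕ) (hs : List ℕ) (ua ub : Tb)
    (k : Tb → Tb → Tb → Tb → List Ct → Bool) :
    sideM false cx sd xa xb sa sb ca cb (a :: a' :: as) (b :: bs) (h :: hs) ua ub k =
      expB false cx 1 (fun m => (Nat.sub (Nat.add cx.YB (nat_lit 1099511627776)) m)) a fun pa =>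
      expB false cx 1 (fun m => (Nat.sub (Nat.add cx.YB (nat_lit 1099511627776)) m)) b fun pb =>
      expB false cx 1 (fun m => (Nat.sub cx.YB m)) a fun ra =>
      expB false cx 1 (fun m => (Nat.sub cx.YB m)) b fun rb =>
      mulT cx xa 1 ua ra fun ua' => mulT cx xb 1 ub rb fun ub' =>
      sideM false cx sd xa xb sa sb ca cb (a' :: as) bs hs ua' ub' fun la lb ta0 tb0 cs =>
        mulT cx 0 0 la pa fun la => mulT cx 0 0 lb pb fun lb =>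
        mulT cx xa 1 ua la fun ta => mulT cx xb 1 ub lb fun tb =>
        mkCt false cx sd a.x0 a.x1 ta0 ta tb0 tb (off (Nat.shiftLeft cx.YB (nat_lit 52)) sa a.x0 ca)
          (off (Nat.shiftLeft cx.YB (nat_lit 52)) sa a.x1 ca)
          (off (Nat.shiftLeft cx.YB (nat_lit 52)) sb a.x0 cb)
          (off (Nat.shiftLeft cx.YB (nat_lit 52)) sb a.x1 cb) h fun c => k la lb ta tb (c :: cs) := rfl

lemma sideP_nil (mu xa xb kk sa sb ca cb : ℕ) (ba bb : Tb) (bs : List Bk) (hs : List ℕ) (ua ub : Tb)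
    (k : Tb → Tb → Tb → Tb → List Ct → Bool) :
    sideP false cx sd mu xa xb kk sa sb ca cb ba bb [] bs hs ua ub k =
      mulT cx 1 xa ba ua fun ta => mulT cx 1 xb bb ub fun tb => k ba bb ta tb [] := rfl

lemma sideP_cons (mu xa xb kk sa sb ca cb : ℕ) (ba bb : Tb) (a b : Bk) (as bs : List Bk) (h : ℕ)
    (hs : List ℕ) (ua ub : Tb) (k : Tb → Tb → Tb → Tb → List Ct → Bool) :
    sideP false cx sd mu xa xb kk sa sb ca cb ba bb (a :: as) (b :: bs) (h :: hs) ua ub k =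
      expB false cx mu (fun m => (Nat.add (Nat.add cx.YB m) (nat_lit 1))) a fun ra =>
      expB false cx mu (fun m => (Nat.add (Nat.add cx.YB m) (nat_lit 1))) b fun rb =>
      mulT cx 0 0 ua ra fun ua' => mulT cx 0 0 ub rb fun ub' =>
      sideP false cx sd mu xa xb kk sa sb ca cb ba bb as bs hs ua' ub' fun la lb ta0 tb0 cs =>
        expB false cx mu
          (fun m => (Nat.sub (Nat.add (Nat.add cx.YB m) (nat_lit 1)) (nat_lit 1099511627776))) a fun pa =>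
        expB false cx mu
          (fun m => (Nat.sub (Nat.add (Nat.add cx.YB m) (nat_lit 1)) (nat_lit 1099511627776))) b fun pb =>
        mulT cx 1 xa la pa fun la => mulT cx 1 xb lb pb fun lb =>
        mulT cx 1 xa la ua fun ta => mulT cx 1 xb lb ub fun tb =>
        mkCt false cx sd a.x0 a.x1 ta0 ta tb0 tb
          (Nat.add (Nat.add (off ca kk a.x0
            (Nat.add (nat_lit 4951760157141521099596496896) (Nat.mul sa a.x0))) a.f0) (nat_lit 1))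
          (Nat.add (Nat.add (off ca kk a.x1
            (Nat.add (nat_lit 4951760157141521099596496896) (Nat.mul sa a.x1))) a.f1) (nat_lit 1))
          (Nat.add (Nat.add (off cb kk a.x0
            (Nat.add (nat_lit 4951760157141521099596496896) (Nat.mul sb a.x0))) b.f0) (nat_lit 1))
          (Nat.add (Nat.add (off cb kk a.x1
            (Nat.add (nat_lit 4951760157141521099596496896) (Nat.mul sb a.x1))) b.f1) (nat_lit 1))
          h fun c => k la lb ta tb (c :: cs) := rfl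

theorem sideM_spec (ha : a.OK) (hv : EnvOK a v) (hc : CxOK cx) (hs : SdOK a v cx sd Na Nb) (hD : a.D = 2 ^ 24)
    (na : DomI (fun u => -v.φu u) a.z a.X ((cx.E : ℝ) / 2 ^ 40) Na)
    (nb : DomI (fun u => -a.φb u) a.z a.X ((cx.E : ℝ) / 2 ^ 40) Nb)
    {xa xb sa sb ca cb : ℕ} (e1 : (sa : ℝ) = (a.sa + v.Tu) * 2 ^ 80) (e2 : (sb : ℝ) = (a.sb + a.Tb) * 2 ^ 80)
    (e3 : (ca : ℝ) = v.cl * 2 ^ 92) (e4 : (cb : ℝ) = a.cb * 2 ^ 92)
    {nodes : List ℕ} {x : ℕ} {as bs : List Bk} (hA : Nd a v.φu x nodes as) (hB : Nd a a.φb x nodes bs)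
    (h0 : lastN nodes x = 0) (hx : (x : ℝ) / 2 ^ 12 ≤ a.z) {hs' : List ℕ} {ua ub : Tb}
    (hua : DM a cx Na sd.Waa sd.Wab (fun u => -v.φu u) ((x : ℝ) / 2 ^ 12) a.X ua)
    (hub : DM a cx Nb sd.Wba sd.Wbb (fun u => -a.φb u) ((x : ℝ) / 2 ^ 12) a.X ub)
    {k : Tb → Tb → Tb → Tb → List Ct → Bool}
    (h : sideM false cx sd xa xb sa sb ca cb as bs hs' ua ub k = true) :
    ∃ la lb ta tb cs, DT a cx (fun u => 1 - v.φu u) 0 ((x : ℝ) / 2 ^ 12) la ∧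
      DT a cx (fun u => 1 - a.φb u) 0 ((x : ℝ) / 2 ^ 12) lb ∧
      DM a cx Na sd.Waa sd.Wab (fun u => (if u < (x : ℝ) / 2 ^ 12 then 1 else 0) - v.φu u) 0 a.X ta ∧
      DM a cx Nb sd.Wba sd.Wbb (fun u => (if u < (x : ℝ) / 2 ^ 12 then 1 else 0) - a.φb u) 0 a.X tb ∧
      CM a v cx.E cx.J ((sd.ex : ℝ) / 2 ^ 64) x cs ∧ cs.length = nodes.length ∧ k la lb ta tb cs = true := by
  have rP : Rd cx.E 1 (-1) fun m => Nat.sub (Nat.add cx.YB (nat_lit 1099511627776)) m := by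
    rw [hc.YB]; exact rd_P _
  have rR : Rd cx.E 0 (-1) fun m => Nat.sub cx.YB m := by rw [hc.YB]; exact rd_R _
  have ca' := hv.φc
  have cb' := ha.φc
  induction nodes generalizing x as bs hs' ua ub k with
  | nil =>
    obtain rfl : as = [] := hA
    exact absurd h Bool.false_ne_true
  | cons y ys ih =>
    obtain ⟨p, as, rfl, p1, p0, hyx, hp, hA⟩ := hA
    obtain ⟨q, bs, rfl, q1, q0, -, hq, hB⟩ := hB
    rcases hs' with _ | ⟨h', hs'⟩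
    · exact absurd h Bool.false_ne_true
    have lyx := sd_le hyx.le
    have lxX := hx.trans ha.zX
    have l0x : (0 : ℝ) ≤ (x : ℝ) / 2 ^ 12 := by positivity
    have l0y : (0 : ℝ) ≤ (y : ℝ) / 2 ^ 12 := by positivity
    have top : ∀ {φ : ℝ → ℝ} {N : A} {W W' xl xh : ℕ} {s t : Tb} {k : Tb → Bool}, Continuous φ → Pos N →
        (W : ℝ) / 2 ^ 64 + (W' : ℝ) / 2 ^ 64 ≤ 1 →
        DM a cx N W W' (fun u => -φ u) ((x : ℝ) / 2 ^ 12) a.X s →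
        DT a cx (fun u => 1 - φ u) 0 ((x : ℝ) / 2 ^ 12) t → mulT cx xl xh s t k = true →
        ∃ r, DM a cx N W W' (fun u => (if u < (x : ℝ) / 2 ^ 12 then 1 else 0) - φ u) 0 a.X r ∧
          k r = true := fun c hN hW h1 h2 h =>
      sd_m_up _ hc hN hW h1 h2 l0x lxX (continuous_const.sub c) c.neg
        (fun u _ r => by rw [if_pos r]) (fun u r _ => by rw [if_neg (not_lt.2 r.le), zero_sub]) h
    have cell : ∀ {x' : ℝ} {t0 t1 t2 t3 : Tb} {k : Ct → Bool}, x' ≤ a.z →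
        DM a cx Na sd.Waa sd.Wab (fun u => (if u < x' then 1 else 0) - v.φu u) 0 a.X t0 →
        DM a cx Na sd.Waa sd.Wab (fun u => (if u < (x : ℝ) / 2 ^ 12 then 1 else 0) - v.φu u) 0 a.X t1 →
        DM a cx Nb sd.Wba sd.Wbb (fun u => (if u < x' then 1 else 0) - a.φb u) 0 a.X t2 →
        DM a cx Nb sd.Wba sd.Wbb (fun u => (if u < (x : ℝ) / 2 ^ 12 then 1 else 0) - a.φb u) 0 a.X t3 →
        mkCt false cx sd y x t0 t1 t2 t3 (off (Nat.shiftLeft cx.YB (nat_lit 52)) sa y ca)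
          (off (Nat.shiftLeft cx.YB (nat_lit 52)) sa x ca)
          (off (Nat.shiftLeft cx.YB (nat_lit 52)) sb y cb)
          (off (Nat.shiftLeft cx.YB (nat_lit 52)) sb x cb) h' k = true →
        ∃ c : Ct, c.x0 = y ∧ c.x1 = x ∧ CtOK a v cx.E cx.J
          (a.jm v ((y : ℝ) / 2 ^ 12) ((x : ℝ) / 2 ^ 12) x') ((sd.ex : ℝ) / 2 ^ 64) c ∧ k c = true :=
      fun {x'} _ _ _ _ _ hx' h0 h1 h2 h3 h =>
        mkCt_spec (t := a.jm v ((y : ℝ) / 2 ^ 12) ((x : ℝ) / 2 ^ 12) x') ha hv hc hs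
          ((sd_ind _).sub ca'.measurable) ((sd_ind _).sub ca'.measurable)
          ((sd_ind _).sub cb'.measurable) ((sd_ind _).sub cb'.measurable) h0 h1 h2 h3
          (sd_nM ha ca' na hx') (sd_nM ha ca' na hx) (sd_nM ha cb' nb hx') (sd_nM ha cb' nb hx)
          (sd_offM e1 e3) (sd_offM e1 e3) (sd_offM e2 e4) (sd_offM e2 e4) h
    rcases ys with _ | ⟨y', ys⟩
    · obtain rfl : as = [] := hA
      have hy : y = 0 := h0
      rw [sideM_one] at h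
      obtain ⟨pa, hpa, h⟩ := sd_blkM (fun u => 1 - v.φu u) hc hD hp rP (fun u => by ring) h
      obtain ⟨pb, hpb, h⟩ := sd_blkM (fun u => 1 - a.φb u) hc hD hq rP (fun u => by ring) h
      rw [p0, p1, hy, Nat.cast_zero, zero_div] at hpa
      rw [q0, q1, hy, Nat.cast_zero, zero_div] at hpb
      obtain ⟨ta, hta, h⟩ := top ca' hs.pa (sd_Wa hs) hua hpa h
      obtain ⟨tb, htb, h⟩ := top cb' hs.pb (sd_Wb hs) hub hpb h
      rw [p0, p1] at h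
      obtain ⟨c, c0, c1, hc', h⟩ := cell hx hta hta htb htb h
      refine ⟨pa, pb, ta, tb, [c], hpa, hpb, hta, htb, ⟨c1, c0 ▸ hyx, ⟨(x : ℝ) / 2 ^ 12, ?_, ?_⟩, ?_⟩,
        rfl, h⟩
      · rw [c0]; exact lyx
      · rw [c0, c1]; exact hc'
      · exact c0.trans hy
    · obtain ⟨p', as', rfl, -⟩ := id hA
      rw [sideM_two] at h
      obtain ⟨pa, hpa, h⟩ := sd_blkM (fun u => 1 - v.φu u) hc hD hp rP (fun u => by ring) h
      obtain ⟨pb, hpb, h⟩ := sd_blkM (fun u => 1 - a.φb u) hc hD hq rP (fun u => by ring) h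
      obtain ⟨ra, hra, h⟩ := sd_blkM (fun u => -v.φu u) hc hD hp rR (fun u => by ring) h
      obtain ⟨rb, hrb, h⟩ := sd_blkM (fun u => -a.φb u) hc hD hq rR (fun u => by ring) h
      rw [p0, p1] at hpa hra
      rw [q0, q1] at hpb hrb
      obtain ⟨ua', hua', h⟩ := sd_m_up (fun u => -v.φu u) hc hs.pa (sd_Wa hs) hua hra lyx lxX ca'.neg
        ca'.neg (fun _ _ _ => rfl) (fun _ _ _ => rfl) h
      obtain ⟨ub', hub', h⟩ := sd_m_up (fun u => -a.φb u) hc hs.pb (sd_Wb hs) hub hrb lyx lxX cb'.neg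
        cb'.neg (fun _ _ _ => rfl) (fun _ _ _ => rfl) h
      obtain ⟨la, lb, ta0, tb0, cs, hla, hlb, hta0, htb0, hcs, hl, h⟩ :=
        ih hA hB h0 (lyx.trans hx) hua' hub' h
      obtain ⟨la, hla, h⟩ := sd_t_lo hc hla hpa l0y lyx h
      obtain ⟨lb, hlb, h⟩ := sd_t_lo hc hlb hpb l0y lyx h
      obtain ⟨ta, hta, h⟩ := top ca' hs.pa (sd_Wa hs) hua hla h
      obtain ⟨tb, htb, h⟩ := top cb' hs.pb (sd_Wb hs) hub hlb h
      rw [p0, p1] at h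
      obtain ⟨c, c0, c1, hc', h⟩ := cell (lyx.trans hx) hta0 hta htb0 htb h
      refine ⟨la, lb, ta, tb, c :: cs, hla, hlb, hta, htb,
        ⟨c1, c0 ▸ hyx, ⟨(y : ℝ) / 2 ^ 12, ?_, ?_⟩, ?_⟩, congrArg (· + 1) hl, h⟩
      · rw [c0]
      · rw [c0, c1]; exact hc'
      · rw [c0]; exact hcs

theorem sideP_spec (ha : a.OK) (hv : EnvOK a v) (hc : CxOK cx) (hs : SdOK a v cx sd Na Nb) (hex : sd.ex = 0)
    (na : DomI v.φu a.z a.X ((cx.E : ℝ) / 2 ^ 40) Na) (nb : DomI a.φb a.z a.X ((cx.E : ℝ) / 2 ^ 40) Nb)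
    {mu xa xb kk sa sb ca cb z : ℕ} (hz : a.z = (z : ℝ) / 2 ^ 12) (hmu : a.μ = (mu : ℝ) / 2 ^ 24)
    (e0 : (kk : ℝ) = v.k * 2 ^ 80) (e1 : (sa : ℝ) = a.sa * 2 ^ 80) (e2 : (sb : ℝ) = a.sb * 2 ^ 80)
    (e3 : (ca : ℝ) = cx.YB * 2 ^ 52 + v.cu * 2 ^ 92) (e4 : (cb : ℝ) = cx.YB * 2 ^ 52 + a.cb * 2 ^ 92)
    {ba bb : Tb} (hba : DM a cx Na sd.Waa sd.Wab (fun u => v.φu u - 1) 0 a.z ba)
    (hbb : DM a cx Nb sd.Wba sd.Wbb (fun u => a.φb u - 1) 0 a.z bb)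
    {nodes : List ℕ} {x : ℕ} {as bs : List Bk} (hA : Nd a.up v.φu x nodes as) (hB : Nd a.up a.φb x nodes bs)
    (h0 : lastN nodes x = z) (hx : (x : ℝ) / 2 ^ 12 ≤ a.X) {hs' : List ℕ} {ua ub : Tb}
    (hua : DT a cx v.φu ((x : ℝ) / 2 ^ 12) a.X ua) (hub : DT a cx a.φb ((x : ℝ) / 2 ^ 12) a.X ub)
    {k : Tb → Tb → Tb → Tb → List Ct → Bool}
    (h : sideP false cx sd mu xa xb kk sa sb ca cb ba bb as bs hs' ua ub k = true) :
    ∃ la lb ta tb cs, DM a cx Na sd.Waa sd.Wab (fun u => v.φu u - 1) 0 ((x : ℝ) / 2 ^ 12) la ∧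
      DM a cx Nb sd.Wba sd.Wbb (fun u => a.φb u - 1) 0 ((x : ℝ) / 2 ^ 12) lb ∧
      DM a cx Na sd.Waa sd.Wab (fun u => v.φu u - (if u < (x : ℝ) / 2 ^ 12 then 1 else 0)) 0 a.X ta ∧
      DM a cx Nb sd.Wba sd.Wbb (fun u => a.φb u - (if u < (x : ℝ) / 2 ^ 12 then 1 else 0)) 0 a.X tb ∧
      CP a v cx.E cx.J z x cs ∧ cs.length = nodes.length ∧ k la lb ta tb cs = true := by
  have rF : Rd cx.E 0 1 fun m => Nat.add (Nat.add cx.YB m) (nat_lit 1) := by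
    rw [hc.YB]; exact rd_F _
  have rN : Rd cx.E (-1) 1 fun m =>
      Nat.sub (Nat.add (Nat.add cx.YB m) (nat_lit 1)) (nat_lit 1099511627776) := by
    rw [hc.YB]; exact rd_N _
  have ca' := hv.φc
  have cb' := ha.φc
  have top : ∀ {x : ℕ} {φ : ℝ → ℝ} {N : A} {W W' xl xh : ℕ} {s t : Tb} {k : Tb → Bool},
      (x : ℝ) / 2 ^ 12 ≤ a.X → Continuous φ → Pos N → (W : ℝ) / 2 ^ 64 + (W' : ℝ) / 2 ^ 64 ≤ 1 →
      DM a cx N W W' (fun u => φ u - 1) 0 ((x : ℝ) / 2 ^ 12) s →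
      DT a cx φ ((x : ℝ) / 2 ^ 12) a.X t → mulT cx xl xh s t k = true →
      ∃ r, DM a cx N W W' (fun u => φ u - (if u < (x : ℝ) / 2 ^ 12 then 1 else 0)) 0 a.X r ∧
        k r = true := fun hx c hN hW h1 h2 h =>
    sd_m_lo _ hc hN hW h1 h2 (by positivity) hx (c.sub continuous_const) c
      (fun u _ r => by rw [if_pos r]) (fun u r _ => by rw [if_neg (not_lt.2 r.le), sub_zero]) h
  induction nodes generalizing x as bs hs' ua ub k with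
  | nil =>
    obtain rfl : as = [] := hA
    obtain rfl : x = z := h0
    rw [sideP_nil] at h
    rw [hz] at hba hbb
    obtain ⟨ta, hta, h⟩ := top hx ca' hs.pa (sd_Wa hs) hba hua h
    obtain ⟨tb, htb, h⟩ := top hx cb' hs.pb (sd_Wb hs) hbb hub h
    exact ⟨ba, bb, ta, tb, [], hba, hbb, hta, htb, rfl, rfl, h⟩
  | cons y ys ih =>
    obtain ⟨p, as, rfl, p1, p0, hyx, hp, hA⟩ := hA
    obtain ⟨q, bs, rfl, q1, q0, -, hq, hB⟩ := hB
    rcases hs' with _ | ⟨h', hs'⟩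
    · exact absurd h Bool.false_ne_true
    have lyx := sd_le hyx.le
    have l0y : (0 : ℝ) ≤ (y : ℝ) / 2 ^ 12 := by positivity
    have h0' : lastN ys y = z := h0
    have lzy : a.z ≤ (y : ℝ) / 2 ^ 12 := by rw [hz]; exact sd_le (h0' ▸ hA.le)
    have zp : a.z ≤ (p.x0 : ℝ) / 2 ^ 12 := by rw [p0]; exact lzy
    have zq : a.z ≤ (q.x0 : ℝ) / 2 ^ 12 := by rw [q0]; exact lzy
    have lp : (p.x0 : ℝ) / 2 ^ 12 ≤ (p.x1 : ℝ) / 2 ^ 12 := by rw [p0, p1]; exact lyx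
    have lq : (q.x0 : ℝ) / 2 ^ 12 ≤ (q.x1 : ℝ) / 2 ^ 12 := by rw [q0, q1]; exact lyx
    rw [sideP_cons] at h
    obtain ⟨ra, hra, h⟩ := sd_blkP v.φu ha hc hmu hp zp lp rF (fun u => by ring) h
    obtain ⟨rb, hrb, h⟩ := sd_blkP a.φb ha hc hmu hq zq lq rF (fun u => by ring) h
    rw [p0, p1] at hra
    rw [q0, q1] at hrb
    obtain ⟨ua', hua', h⟩ := sd_t_up hc hua hra lyx hx h
    obtain ⟨ub', hub', h⟩ := sd_t_up hc hub hrb lyx hx h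
    obtain ⟨la, lb, ta0, tb0, cs, hla, hlb, hta0, htb0, hcs, hl, h⟩ :=
      ih hA hB h0' (lyx.trans hx) hua' hub' h
    obtain ⟨pa, hpa, h⟩ := sd_blkP (fun u => v.φu u - 1) ha hc hmu hp zp lp rN (fun u => by ring) h
    obtain ⟨pb, hpb, h⟩ := sd_blkP (fun u => a.φb u - 1) ha hc hmu hq zq lq rN (fun u => by ring) h
    rw [p0, p1] at hpa
    rw [q0, q1] at hpb
    obtain ⟨la, hla, h⟩ := sd_m_lo (fun u => v.φu u - 1) hc hs.pa (sd_Wa hs) hla hpa l0y lyx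
      (ca'.sub continuous_const) (ca'.sub continuous_const) (fun _ _ _ => rfl) (fun _ _ _ => rfl) h
    obtain ⟨lb, hlb, h⟩ := sd_m_lo (fun u => a.φb u - 1) hc hs.pb (sd_Wb hs) hlb hpb l0y lyx
      (cb'.sub continuous_const) (cb'.sub continuous_const) (fun _ _ _ => rfl) (fun _ _ _ => rfl) h
    obtain ⟨ta, hta, h⟩ := top hx ca' hs.pa (sd_Wa hs) hla hua h
    obtain ⟨tb, htb, h⟩ := top hx cb' hs.pb (sd_Wb hs) hlb hub h
    have f0 := hp.f0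
    have f1 := hp.f1
    have g0 := hq.f0
    have g1 := hq.f1
    rw [p0] at f0
    rw [p1] at f1
    rw [q0] at g0
    rw [q1] at g1
    rw [p0, p1] at h
    obtain ⟨c, c0, c1, hc', h⟩ :=
      mkCt_spec (t := a.jp v ((y : ℝ) / 2 ^ 12) ((x : ℝ) / 2 ^ 12)) ha hv hc hs
        (ca'.measurable.sub (sd_ind _)) (ca'.measurable.sub (sd_ind _))
        (cb'.measurable.sub (sd_ind _)) (cb'.measurable.sub (sd_ind _)) hta0 hta htb0 htb
        (sd_nP ca' na lzy (lyx.trans hx)) (sd_nP ca' na (lzy.trans lyx) hx)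
        (sd_nP cb' nb lzy (lyx.trans hx)) (sd_nP cb' nb (lzy.trans lyx) hx)
        (sd_offP e0 e1 e3 f0) (sd_offP e0 e1 e3 f1) (sd_offP e0 e2 e4 g0) (sd_offP e0 e2 e4 g1) h
    rw [hex, Nat.cast_zero, zero_div] at hc'
    refine ⟨la, lb, ta, tb, c :: cs, hla, hlb, hta, htb, ⟨c1, c0 ▸ hyx, ?_, ?_⟩,
      congrArg (· + 1) hl, h⟩
    · rw [c0, c1]; exact hc'
    · rw [c0]; exact hcs

end
end Pool.Agent.MP_3bf126_pr.H21
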