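import Pool.Agent.MP_3bf126_pr.H21.Defs

/-! Time weights inside one slab. -/

namespace Pool.Agent.MP_3bf126_pr.H21
open Set Filter Finset
noncomputable section

/-- survival factor of `i` steps -/
def sv (n z : ℝ) (i : ℕ) : ℝ := (1 - z / n) ^ i
/-- weight of the early end of the slab, `i` steps before its late end -/
def lam (n z : ℝ) (K i : ℕ) : ℝ := (1 - sv n z i) / (1 - sv n z K)

lemma wts_exp_abs {a : ℝ} (h0 : 0 ≤ a) (h1 : a ≤ 1) :
    |Real.exp (-a) - (1 - a + a ^ 2 / 2 - a ^ 3 / 6 + a ^ 4 / 24 - a ^ 5 / 120 + a ^ 6 / 720 - a ^ 7 / 5040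
      + a ^ 8 / 40320 - a ^ 9 / 362880)| ≤ a ^ 10 / 3000000 := by
  have hx : |(-a)| ≤ 1 := by rw [abs_neg, abs_of_nonneg h0]; exact h1
  have h := Real.exp_bound hx (n := 10) (by norm_num)
  rw [abs_neg, abs_of_nonneg h0] at h
  have e : ∑ m ∈ range 10, (-a) ^ m / (m.factorial : ℝ) =
      1 - a + a ^ 2 / 2 - a ^ 3 / 6 + a ^ 4 / 24 - a ^ 5 / 120 + a ^ 6 / 720 - a ^ 7 / 5040
      + a ^ 8 / 40320 - a ^ 9 / 362880 := by
    simp only [Finset.sum_range_succ, Finset.sum_range_zero, Nat.factorial]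
    push_cast
    ring
  rw [e] at h
  refine h.trans ?_
  have h10 : 0 ≤ a ^ 10 := by positivity
  have e2 : (((10 : ℕ).succ : ℝ) / (((10 : ℕ).factorial : ℝ) * ((10 : ℕ) : ℝ))) = 11 / 36288000 := by
    simp only [Nat.factorial]
    push_cast
    norm_num
  rw [e2]
  linarith

lemma exp_lo {a : ℝ} (h0 : 0 ≤ a) (h1 : a ≤ 1) :
    1 - a + a ^ 2 / 2 - a ^ 3 / 6 + a ^ 4 / 24 - a ^ 5 / 120 + a ^ 6 / 720 - a ^ 7 / 5040 + a ^ 8 / 40320
      - a ^ 9 / 362880 - a ^ 10 / 3000000 ≤ Real.exp (-a) := by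
  have := (abs_le.mp (wts_exp_abs h0 h1)).1
  linarith
lemma exp_hi {a : ℝ} (h0 : 0 ≤ a) (h1 : a ≤ 1) :
    Real.exp (-a) ≤ 1 - a + a ^ 2 / 2 - a ^ 3 / 6 + a ^ 4 / 24 - a ^ 5 / 120 + a ^ 6 / 720 - a ^ 7 / 5040
      + a ^ 8 / 40320 - a ^ 9 / 362880 + a ^ 10 / 3000000 := by
  have := (abs_le.mp (wts_exp_abs h0 h1)).2
  linarith

lemma wts_tendsto_sv {D d : ℕ} (z : ℝ) :
    Tendsto (fun q : ℕ => sv ((D * q : ℕ) : ℝ) z (d * q)) atTop (nhds (Real.exp (-(z * d / D)))) := by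
  have h := (Real.tendsto_one_add_div_pow_exp (-(z / D))).pow d
  have e : Real.exp (-(z / D)) ^ d = Real.exp (-(z * d / D)) := by
    rw [← Real.exp_nat_mul]
    congr 1
    ring
  rw [e] at h
  refine h.congr fun q => ?_
  unfold sv
  rw [← pow_mul, mul_comm q d]
  congr 1
  push_cast
  rw [neg_div, div_div]
  ring

lemma ev_sv {D d : ℕ} (hD : 0 < D) {z wl wu : ℝ} (hl : wl < Real.exp (-(z * d / D)))
    (hu : Real.exp (-(z * d / D)) < wu) :
    ∀ᶠ q : ℕ in atTop, wl ≤ sv ((D * q : ℕ) : ℝ) z (d * q) ∧ sv ((D * q : ℕ) : ℝ) z (d * q) ≤ wu := by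
  have _ := hD
  have h := wts_tendsto_sv (D := D) (d := d) z
  filter_upwards [h.eventually (lt_mem_nhds hl), h.eventually (gt_mem_nhds hu)] with q h1 h2
  exact ⟨h1.le, h2.le⟩

lemma wts_rho_bounds {n z : ℝ} (hz : 0 < z) (hn : z < n) : 0 < 1 - z / n ∧ 1 - z / n < 1 := by
  have hn0 : 0 < n := hz.trans hn
  have h1 : z / n < 1 := (div_lt_one hn0).mpr hn
  have h2 : 0 < z / n := div_pos hz hn0
  constructor <;> linarith

lemma sv_bounds {n z : ℝ} (hz : 0 < z) (hn : z < n) {K i : ℕ} (hi : i ≤ K) :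
    0 < sv n z K ∧ sv n z K ≤ sv n z i ∧ sv n z i ≤ 1 := by
  obtain ⟨h0, h1⟩ := wts_rho_bounds hz hn
  exact ⟨pow_pos h0 _, pow_le_pow_of_le_one h0.le h1.le hi, pow_le_one₀ h0.le h1.le⟩

lemma wts_sv_lt_one {n z : ℝ} (hz : 0 < z) (hn : z < n) {K : ℕ} (hK : 0 < K) : sv n z K < 1 := by
  obtain ⟨h0, h1⟩ := wts_rho_bounds hz hn
  exact pow_lt_one₀ h0.le h1 hK.ne'

/-- a discretely convex sequence lies below its chord -/
lemma wts_chord0 (g : ℕ → ℝ) {K : ℕ} (h : ∀ k, k + 2 ≤ K → 0 ≤ g (k + 2) - 2 * g (k + 1) + g k)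
    {k : ℕ} (hk : k ≤ K) : (K : ℝ) * g k ≤ (K - k) * g 0 + k * g K := by
  have A : ∀ m : ℕ, m + 1 ≤ K → g (m + 1) - g 0 ≤ (m + 1) * (g (m + 1) - g m) := by
    intro m
    induction m with
    | zero => intro _; simp
    | succ m ih =>
      intro hm
      have h1 := ih (by omega)
      have h2 := h m (by omega)
      have hm0 : (0 : ℝ) ≤ (m : ℝ) + 1 := by positivity
      push_cast
      nlinarith [mul_nonneg hm0 h2]
  have B : ∀ j : ℕ, k + j ≤ K → ((k : ℝ) + j) * (g k - g 0) ≤ k * (g (k + j) - g 0) := by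
    intro j
    induction j with
    | zero => intro _; simp
    | succ j ih =>
      intro hj
      have h1 := ih (by omega)
      have h2 := A (k + j) (by omega)
      rcases Nat.eq_zero_or_pos (k + j) with h0 | h0
      · have hk0 : k = 0 := by omega
        subst hk0
        simp
      · have hp : (0 : ℝ) < (k : ℝ) + j := by exact_mod_cast h0
        have hk0 : (0 : ℝ) ≤ k := by positivity
        have e : k + (j + 1) = k + j + 1 := by omega
        rw [e]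
        push_cast at h2 ⊢
        have h3 : ((k : ℝ) + j + 1) * (g (k + j) - g 0) ≤ ((k : ℝ) + j) * (g (k + j + 1) - g 0) := by
          nlinarith
        have h4 : ((k : ℝ) + j) * (((k : ℝ) + (j + 1)) * (g k - g 0)) ≤
            ((k : ℝ) + j) * (k * (g (k + j + 1) - g 0)) := by
          have h5 := mul_le_mul_of_nonneg_left h1 (show (0 : ℝ) ≤ (k : ℝ) + j + 1 by positivity)
          have h6 := mul_le_mul_of_nonneg_left h3 hk0
          nlinarith
        exact le_of_mul_le_mul_left h4 hp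
  have C := B (K - k) (by omega)
  have e : k + (K - k) = K := by omega
  rw [e, Nat.cast_sub hk] at C
  nlinarith

lemma wts_chord (f : ℕ → ℝ) {K : ℕ} (hK : 0 < K) (c : ℝ)
    (h : ∀ k, k + 2 ≤ K → c ≤ f (k + 2) - 2 * f (k + 1) + f k) {k : ℕ} (hk : k ≤ K) :
    f k ≤ (1 - (k : ℝ) / K) * f 0 + (k : ℝ) / K * f K - c * (k * (K - k)) / 2 := by
  have h1 := wts_chord0 (fun j => f j - c * (j : ℝ) ^ 2 / 2) (K := K) (by
    intro j hj
    have := h j hj
    push_cast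
    nlinarith) hk
  have hK0 : (0 : ℝ) < K := by exact_mod_cast hK
  have e : (1 - (k : ℝ) / K) * f 0 + (k : ℝ) / K * f K - c * (k * (K - k)) / 2 =
      ((K - k) * f 0 + k * f K - K * (c * (k * (K - k)) / 2)) / K := by
    field_simp
  rw [e, le_div_iff₀ hK0]
  simp only [Nat.cast_zero] at h1
  nlinarith

lemma wts_sv_dd (n z : ℝ) (k : ℕ) :
    sv n z (k + 2) - 2 * sv n z (k + 1) + sv n z k = sv n z k * (z / n) ^ 2 := by
  unfold sv
  ring

lemma wts_sv_upper {n z : ℝ} (hz : 0 < z) (hn : z < n) {K k : ℕ} (hK : 0 < K) (hk : k ≤ K) :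
    sv n z k ≤ (1 - (k : ℝ) / K) + (k : ℝ) / K * sv n z K -
      sv n z K * (z * K / n) ^ 2 * ((k : ℝ) / K * (1 - (k : ℝ) / K)) / 2 := by
  have h := wts_chord (sv n z) hK (sv n z K * (z / n) ^ 2) (by
    intro j hj
    rw [wts_sv_dd]
    exact mul_le_mul_of_nonneg_right (sv_bounds hz hn (show j ≤ K by omega)).2.1 (sq_nonneg _)) hk
  have hK0 : (0 : ℝ) < K := by exact_mod_cast hK
  have hn0 : 0 < n := hz.trans hn
  have e0 : sv n z 0 = 1 := by simp [sv]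
  have e : sv n z K * (z * K / n) ^ 2 * ((k : ℝ) / K * (1 - (k : ℝ) / K)) / 2 =
      sv n z K * (z / n) ^ 2 * (k * (K - k)) / 2 := by
    field_simp
  rw [e]
  rw [e0, mul_one] at h
  exact h

lemma wts_sv_lower {n z : ℝ} (hz : 0 < z) (hn : z < n) {K k : ℕ} (hK : 0 < K) (hk : k ≤ K) :
    (1 - (k : ℝ) / K) + (k : ℝ) / K * sv n z K -
      (z * K / n) ^ 2 * ((k : ℝ) / K * (1 - (k : ℝ) / K)) / 2 ≤ sv n z k := by
  have h := wts_chord (fun j => -sv n z j) hK (-(z / n) ^ 2) (by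
    intro j hj
    have h1 := wts_sv_dd n z j
    have h2 := (sv_bounds hz hn (show j ≤ K by omega)).2.2
    have h3 := mul_le_mul_of_nonneg_right h2 (sq_nonneg (z / n))
    linarith) hk
  have hK0 : (0 : ℝ) < K := by exact_mod_cast hK
  have hn0 : 0 < n := hz.trans hn
  have e0 : sv n z 0 = 1 := by simp [sv]
  have e : (z * K / n) ^ 2 * ((k : ℝ) / K * (1 - (k : ℝ) / K)) / 2 =
      (z / n) ^ 2 * (k * (K - k)) / 2 := by
    field_simp
  rw [e]
  simp only [e0] at h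
  linarith

lemma lam_bounds {n z wu : ℝ} (hz : 0 < z) (hn : z < n) {K i : ℕ} (hK : 0 < K) (hi : i ≤ K)
    (hw : sv n z K ≤ wu) (hwu : wu < 1) :
    0 ≤ lam n z K i ∧ lam n z K i ≤ 1 ∧ (i : ℝ) / K ≤ lam n z K i ∧
      lam n z K i ≤ (i : ℝ) / K + (z * K / n) ^ 2 / (8 * (1 - wu)) ∧
      sv n z i = lam n z K i * sv n z K + (1 - lam n z K i) := by
  obtain ⟨h0, h1, h2⟩ := sv_bounds hz hn hi
  have hw1 : 0 < 1 - sv n z K := by linarith
  have hK0 : (0 : ℝ) < K := by exact_mod_cast hK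
  have hu0 : 0 ≤ (i : ℝ) / K := by positivity
  have hu1 : (i : ℝ) / K ≤ 1 := by
    rw [div_le_one hK0]
    exact_mod_cast hi
  have hU := wts_sv_upper hz hn hK hi
  have hL := wts_sv_lower hz hn hK hi
  unfold lam
  generalize (i : ℝ) / K = u at *
  generalize z * K / n = a at *
  generalize sv n z K = w at *
  generalize sv n z i = s at *
  refine ⟨div_nonneg (by linarith) hw1.le, (div_le_one hw1).mpr (by linarith), ?_, ?_, ?_⟩
  · rw [le_div_iff₀ hw1]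
    have : 0 ≤ w * a ^ 2 * (u * (1 - u)) / 2 := by
      have : 0 ≤ 1 - u := by linarith
      positivity
    nlinarith
  · rw [div_le_iff₀ hw1]
    have hwu1 : 0 < 1 - wu := by linarith
    have h3 : a ^ 2 / 8 ≤ a ^ 2 / (8 * (1 - wu)) * (1 - w) := by
      rw [div_mul_eq_mul_div, div_le_div_iff₀ (by norm_num) (by positivity)]
      nlinarith [mul_nonneg (sq_nonneg a) (show 0 ≤ wu - w by linarith)]
    have h4 : a ^ 2 * (u * (1 - u)) / 2 ≤ a ^ 2 / 8 := by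
      nlinarith [mul_nonneg (sq_nonneg a) (sq_nonneg (u - 1 / 2))]
    nlinarith
  · field_simp
    ring

lemma wts_poly_sum (c0 c1 c2 c3 : ℝ) (t : ℝ) (K : ℕ) :
    ∑ i ∈ range K, (c0 + c1 * ((i : ℝ) * t) + c2 * ((i : ℝ) * t) ^ 2 + c3 * ((i : ℝ) * t) ^ 3) =
      c0 * K + c1 * t * (K * (K - 1) / 2) + c2 * t ^ 2 * ((K - 1) * K * (2 * K - 1) / 6) +
        c3 * t ^ 3 * (K * (K - 1) / 2) ^ 2 := by
  induction K with
  | zero => simp
  | succ K ih =>
    rw [Finset.sum_range_succ, ih]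
    push_cast
    ring

lemma wts_tendsto_ratio {D d : ℕ} (hD : 0 < D) (X : ℝ) :
    Tendsto (fun q : ℕ => ((d * q : ℕ) : ℝ) / (((D * q : ℕ) : ℝ) - X)) atTop (nhds ((d : ℝ) / D)) := by
  have hD0 : (0 : ℝ) < D := by exact_mod_cast hD
  have h1 : Tendsto (fun q : ℕ => X / (q : ℝ)) atTop (nhds 0) := tendsto_const_div_atTop_nhds_zero_nat X
  have h2 : Tendsto (fun q : ℕ => (d : ℝ) / ((D : ℝ) - X / (q : ℝ))) atTop (nhds ((d : ℝ) / (D - 0))) :=
    tendsto_const_nhds.div (tendsto_const_nhds.sub h1) (by simpa using hD0.ne')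
  rw [sub_zero] at h2
  refine h2.congr' ?_
  filter_upwards [eventually_gt_atTop 0] with q hq
  have hq0 : (q : ℝ) ≠ 0 := by exact_mod_cast hq.ne'
  push_cast
  rw [← mul_div_mul_right (d : ℝ) ((D : ℝ) - X / q) hq0]
  congr 1
  field_simp

lemma wts_ev_big {D : ℕ} (hD : 0 < D) (X : ℝ) : ∀ᶠ q : ℕ in atTop, X < ((D * q : ℕ) : ℝ) := by
  have h : Tendsto (fun q : ℕ => ((D * q : ℕ) : ℝ)) atTop atTop :=
    tendsto_natCast_atTop_atTop.comp (tendsto_id.const_mul_atTop' hD)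
  exact h.eventually (eventually_gt_atTop X)

lemma wts_tendsto_poly {D d : ℕ} (hD : 0 < D) (hd : 0 < d) (X c0 c1 c2 c3 : ℝ) :
    Tendsto (fun q : ℕ => ∑ i ∈ range (d * q), (c0 + c1 * ((i : ℝ) / ((d * q : ℕ) : ℝ)) +
      c2 * ((i : ℝ) / ((d * q : ℕ) : ℝ)) ^ 2 + c3 * ((i : ℝ) / ((d * q : ℕ) : ℝ)) ^ 3) /
        (((D * q : ℕ) : ℝ) - X)) atTop (nhds ((d : ℝ) / D * (c0 + c1 / 2 + c2 / 3 + c3 / 4))) := by
  have h0 : Tendsto (fun q : ℕ => ((d * q : ℕ) : ℝ)) atTop atTop :=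
    tendsto_natCast_atTop_atTop.comp (tendsto_id.const_mul_atTop' hd)
  have h1 : Tendsto (fun q : ℕ => ((d * q : ℕ) : ℝ)⁻¹) atTop (nhds 0) := h0.inv_tendsto_atTop
  have hc : Continuous fun t : ℝ => c0 + c1 * ((1 - t) / 2) + c2 * ((1 - t) * (2 - t) / 6) +
      c3 * ((1 - t) / 2) ^ 2 := by fun_prop
  have h2 := (wts_tendsto_ratio (d := d) hD X).mul ((hc.tendsto 0).comp h1)
  have e : c0 + c1 * ((1 - 0) / 2) + c2 * ((1 - 0) * (2 - 0) / 6) + c3 * ((1 - 0) / 2) ^ 2 =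
      c0 + c1 / 2 + c2 / 3 + c3 / 4 := by ring
  rw [e] at h2
  refine h2.congr' ?_
  filter_upwards [eventually_gt_atTop 0] with q hq
  have hK : ((d * q : ℕ) : ℝ) ≠ 0 := by exact_mod_cast (Nat.mul_pos hd hq).ne'
  rw [← Finset.sum_div]
  simp only [div_eq_mul_inv (_ : ℝ) ((d * q : ℕ) : ℝ)]
  rw [wts_poly_sum]
  simp only [Function.comp]
  generalize ((d * q : ℕ) : ℝ) = K at *
  generalize ((D * q : ℕ) : ℝ) - X = Y
  rw [div_mul_eq_mul_div]
  congr 1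
  field_simp

lemma wts_ev_poly {D d : ℕ} (hD : 0 < D) (hd : 0 < d) (X c0 c1 c2 c3 W : ℝ)
    (hW : c0 + c1 / 2 + c2 / 3 + c3 / 4 < W) :
    ∀ᶠ q : ℕ in atTop, ∀ f : ℕ → ℝ, (∀ i < d * q, f i ≤ c0 + c1 * ((i : ℝ) / ((d * q : ℕ) : ℝ)) +
      c2 * ((i : ℝ) / ((d * q : ℕ) : ℝ)) ^ 2 + c3 * ((i : ℝ) / ((d * q : ℕ) : ℝ)) ^ 3) →
      ∑ i ∈ range (d * q), f i / (((D * q : ℕ) : ℝ) - X) ≤ d / D * W := by
  have hdD : (0 : ℝ) < (d : ℝ) / D := by positivity
  filter_upwards [(wts_tendsto_poly hD hd X c0 c1 c2 c3).eventually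
    (gt_mem_nhds (mul_lt_mul_of_pos_left hW hdD)), wts_ev_big hD X] with q h1 h2 f hf
  refine le_trans (Finset.sum_le_sum fun i hi => ?_) h1.le
  exact div_le_div_of_nonneg_right (hf i (Finset.mem_range.mp hi)) (by linarith)

lemma wts_wt_early {n z wl : ℝ} (hz : 0 < z) (hn : z < n) {K i : ℕ} (hi : i < K)
    (hw : wl ≤ sv n z K) :
    sv n z (K - i) * lam n z K i ≤ (i : ℝ) / K -
      (z * K / n) ^ 2 * wl / (1 - wl) * ((i : ℝ) / K * (1 - (i : ℝ) / K)) / 2 := by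
  have hK : 0 < K := by omega
  have hK0 : (0 : ℝ) < K := by exact_mod_cast hK
  have hw1 := wts_sv_lt_one hz hn hK
  have hU := wts_sv_upper hz hn hK (show K - i ≤ K by omega)
  have e1 : ((K - i : ℕ) : ℝ) / K = 1 - (i : ℝ) / K := by
    rw [Nat.cast_sub hi.le]
    field_simp
  have e2 : sv n z (K - i) * sv n z i = sv n z K := by
    unfold sv
    rw [← pow_add]
    congr 1
    omega
  have hu0 : 0 ≤ (i : ℝ) / K := by positivity
  have hu1 : (i : ℝ) / K ≤ 1 := by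
    rw [div_le_one hK0]
    exact_mod_cast hi.le
  have e3 : sv n z (K - i) * lam n z K i = (sv n z (K - i) - sv n z K) / (1 - sv n z K) := by
    unfold lam
    rw [← e2]
    ring
  rw [e3]
  rw [e1] at hU
  generalize (i : ℝ) / K = u at *
  generalize z * K / n = a at *
  generalize sv n z K = w at *
  generalize sv n z (K - i) = s at *
  have hp : 0 < 1 - w := by linarith
  have hp' : 0 < 1 - wl := by linarith
  rw [div_le_iff₀ hp]
  have h3 : wl / (1 - wl) * (1 - w) ≤ w := by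
    rw [div_mul_eq_mul_div, div_le_iff₀ hp']
    nlinarith
  have h4 : 0 ≤ a ^ 2 * (u * (1 - u)) / 2 := by
    have : 0 ≤ 1 - u := by linarith
    positivity
  have h5 := mul_le_mul_of_nonneg_left h3 h4
  have e4 : (u - a ^ 2 * wl / (1 - wl) * (u * (1 - u)) / 2) * (1 - w) =
      u * (1 - w) - a ^ 2 * (u * (1 - u)) / 2 * (wl / (1 - wl) * (1 - w)) := by ring
  rw [e4]
  linarith

lemma wts_wt_late {n z wu : ℝ} (hz : 0 < z) (hn : z < n) {K i : ℕ} (hi : i < K) (hwu : wu < 1)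
    (hw : sv n z K ≤ wu) :
    sv n z (K - i) * (1 - lam n z K i) ≤ wu * ((1 - (i : ℝ) / K) +
      (z * K / n) ^ 2 / (1 - wu) * ((i : ℝ) / K * (1 - (i : ℝ) / K)) / 2) := by
  have hK : 0 < K := by omega
  have hK0 : (0 : ℝ) < K := by exact_mod_cast hK
  have hw1 := wts_sv_lt_one hz hn hK
  have hL := wts_sv_lower hz hn hK (show K - i ≤ K by omega)
  obtain ⟨hw0, -, hs1⟩ := sv_bounds hz hn (show K - i ≤ K by omega)
  have e1 : ((K - i : ℕ) : ℝ) / K = 1 - (i : ℝ) / K := by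
    rw [Nat.cast_sub hi.le]
    field_simp
  have e2 : sv n z (K - i) * sv n z i = sv n z K := by
    unfold sv
    rw [← pow_add]
    congr 1
    omega
  have hu0 : 0 ≤ (i : ℝ) / K := by positivity
  have hu1 : (i : ℝ) / K ≤ 1 := by
    rw [div_le_one hK0]
    exact_mod_cast hi.le
  have hp : 0 < 1 - sv n z K := by linarith
  have e3 : sv n z (K - i) * (1 - lam n z K i) =
      sv n z K * ((1 - sv n z (K - i)) / (1 - sv n z K)) := by
    unfold lam
    field_simp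
    linear_combination e2
  rw [e3]
  rw [e1] at hL
  generalize (i : ℝ) / K = u at *
  generalize z * K / n = a at *
  generalize sv n z K = w at *
  generalize sv n z (K - i) = s at *
  have hp' : 0 < 1 - wu := by linarith
  refine mul_le_mul hw ?_ (div_nonneg (by linarith) hp.le) (by linarith)
  rw [div_le_iff₀ hp]
  have h3 : 1 ≤ 1 / (1 - wu) * (1 - w) := by
    rw [div_mul_eq_mul_div, le_div_iff₀ hp']
    linarith
  have h4 : 0 ≤ a ^ 2 * (u * (1 - u)) / 2 := by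
    have : 0 ≤ 1 - u := by linarith
    positivity
  have h5 := mul_le_mul_of_nonneg_left h3 h4
  have e4 : (1 - u + a ^ 2 / (1 - wu) * (u * (1 - u)) / 2) * (1 - w) =
      (1 - u) * (1 - w) + a ^ 2 * (u * (1 - u)) / 2 * (1 / (1 - wu) * (1 - w)) := by ring
  rw [e4]
  linarith

lemma wts_slab_a {D d q : ℕ} (hq : 0 < q) (z : ℝ) :
    z * ((d * q : ℕ) : ℝ) / ((D * q : ℕ) : ℝ) = z * d / D := by
  have hq0 : (q : ℝ) ≠ 0 := by exact_mod_cast hq.ne'
  push_cast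
  rw [← mul_assoc, mul_div_mul_right _ _ hq0]

/-- the four weights: early or late coefficients, early or late law -/
lemma ev_weights {D d : ℕ} (hD : 0 < D) (hd : 0 < d) {z X wl wu Waa Wab Wba Wbb : ℝ} (hz : 0 < z)
    (hl : wl < Real.exp (-(z * d / D))) (hu : Real.exp (-(z * d / D)) < wu) (hwl : 0 ≤ wl) (hwu : wu < 1)
    (haa : 1 / 3 - (z * d / D) ^ 2 * wl / (24 * (1 - wl)) < Waa)
    (hab : 1 / 6 - (z * d / D) ^ 2 * wl / (24 * (1 - wl)) < Wab)
    (hba : wu * (1 / 6 + (z * d / D) ^ 2 / (24 * (1 - wu))) < Wba)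
    (hbb : wu * (1 / 3 + (z * d / D) ^ 2 / (24 * (1 - wu))) < Wbb) :
    ∀ᶠ q : ℕ in atTop, let n : ℝ := ((D * q : ℕ) : ℝ); let K := d * q
      ∑ i ∈ range K, sv n z (K - i) * lam n z K i * ((i : ℝ) / K) / (n - X) ≤ d / D * Waa ∧
      ∑ i ∈ range K, sv n z (K - i) * lam n z K i * (1 - (i : ℝ) / K) / (n - X) ≤ d / D * Wab ∧
      ∑ i ∈ range K, sv n z (K - i) * (1 - lam n z K i) * ((i : ℝ) / K) / (n - X) ≤ d / D * Wba ∧
      ∑ i ∈ range K, sv n z (K - i) * (1 - lam n z K i) * (1 - (i : ℝ) / K) / (n - X) ≤ d / D * Wbb := by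
  have _ := hwl
  obtain ⟨κ, hκ⟩ : ∃ κ, κ = (z * d / D) ^ 2 * wl / (1 - wl) := ⟨_, rfl⟩
  obtain ⟨κ', hκ'⟩ : ∃ κ', κ' = (z * d / D) ^ 2 / (1 - wu) := ⟨_, rfl⟩
  have e1 : (z * d / D) ^ 2 * wl / (24 * (1 - wl)) = κ / 24 := by
    rw [hκ, div_div, mul_comm (1 - wl)]
  have e2 : (z * d / D) ^ 2 / (24 * (1 - wu)) = κ' / 24 := by
    rw [hκ', div_div, mul_comm (1 - wu)]
  rw [e1] at haa hab
  rw [e2] at hba hbb
  filter_upwards [ev_sv hD hl hu, wts_ev_big hD z, eventually_gt_atTop 0,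
    wts_ev_poly hD hd X 0 0 (1 - κ / 2) (κ / 2) Waa (by linarith),
    wts_ev_poly hD hd X 0 (1 - κ / 2) (κ - 1) (-(κ / 2)) Wab (by linarith),
    wts_ev_poly hD hd X 0 wu (wu * (κ' / 2 - 1)) (-(wu * (κ' / 2))) Wba (by linarith),
    wts_ev_poly hD hd X wu (wu * (κ' / 2 - 2)) (wu * (1 - κ')) (wu * (κ' / 2)) Wbb (by linarith)]
    with q hw hn hq h1 h2 h3 h4
  have hu : ∀ i < d * q, 0 ≤ (i : ℝ) / ((d * q : ℕ) : ℝ) ∧ 0 ≤ 1 - (i : ℝ) / ((d * q : ℕ) : ℝ) := by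
    intro i hi
    have hK0 : (0 : ℝ) < ((d * q : ℕ) : ℝ) := by exact_mod_cast (show 0 < d * q by omega)
    refine ⟨by positivity, sub_nonneg.mpr ?_⟩
    rw [div_le_one hK0]
    exact_mod_cast hi.le
  refine ⟨h1 _ fun i hi => ?_, h2 _ fun i hi => ?_, h3 _ fun i hi => ?_, h4 _ fun i hi => ?_⟩
  · have h := wts_wt_early hz hn hi hw.1
    rw [wts_slab_a hq, ← hκ] at h
    exact (mul_le_mul_of_nonneg_right h (hu i hi).1).trans (le_of_eq (by ring))
  · have h := wts_wt_early hz hn hi hw.1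
    rw [wts_slab_a hq, ← hκ] at h
    exact (mul_le_mul_of_nonneg_right h (hu i hi).2).trans (le_of_eq (by ring))
  · have h := wts_wt_late hz hn hi hwu hw.2
    rw [wts_slab_a hq, ← hκ'] at h
    exact (mul_le_mul_of_nonneg_right h (hu i hi).1).trans (le_of_eq (by ring))
  · have h := wts_wt_late hz hn hi hwu hw.2
    rw [wts_slab_a hq, ← hκ'] at h
    exact (mul_le_mul_of_nonneg_right h (hu i hi).2).trans (le_of_eq (by ring))

lemma wts_sv_geom (n z : ℝ) (K : ℕ) : ∑ i ∈ range K, sv n z (K - 1 - i) * (z / n) = 1 - sv n z K := by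
  rw [← Finset.sum_mul, Finset.sum_range_reflect (fun j => sv n z j) K]
  unfold sv
  have h := mul_neg_geom_sum (1 - z / n) K
  rw [← h]
  ring

/-- the accumulated excess of the constant term -/
lemma ev_excess {D d : ℕ} (hD : 0 < D) (hd : 0 < d) {z wl wu C sb I E : ℝ} (hz : 0 < z)
    (hl : wl < Real.exp (-(z * d / D))) (hu : Real.exp (-(z * d / D)) < wu) (hwl : 0 ≤ wl) (hwu : wu < 1)
    (hI : 0 ≤ I) (hsb : 0 ≤ sb) (hC : 1 + sb * z / 2 ≤ C)
    (hE : (1 - wl) * (C - 1 - sb * z / 2) - z ^ 2 / 2 * (((d : ℝ) / D) ^ 2 *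
      (1 / 3 + wl / 6 - (z * d / D) ^ 2 / 24)) - wl * (d / D) * I < E) :
    ∀ᶠ q : ℕ in atTop, let n : ℝ := ((D * q : ℕ) : ℝ); let K := d * q
      ∑ i ∈ range K, sv n z (K - 1 - i) * (z * C - (z + (sb + i / n) * z ^ 2 / 2 + sv n z i * I)) / n ≤ E := by
  have _ := hwu
  have _ := hsb
  have _ := hwl
  have hr : (0 : ℝ) < (d : ℝ) / D := by positivity
  obtain ⟨a, ha⟩ : ∃ a, a = z * d / D := ⟨_, rfl⟩
  obtain ⟨r, hrr⟩ : ∃ r : ℝ, r = (d : ℝ) / D := ⟨_, rfl⟩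
  obtain ⟨b, hb⟩ : ∃ b : ℝ, b = z ^ 2 / 2 * r := ⟨_, rfl⟩
  have hr0 : 0 < r := hrr ▸ hr
  have hb0 : 0 ≤ b := by rw [hb]; positivity
  have hW : -(wl * I) + -(b * wl) / 2 + -(b * (1 - wl - a ^ 2 / 2)) / 3 + -(b * (a ^ 2 / 2)) / 4 <
      (E - (1 - wl) * (C - 1 - sb * z / 2)) / r := by
    rw [lt_div_iff₀ hr0, hb]
    rw [← ha, ← hrr] at hE
    linarith
  filter_upwards [ev_sv hD hl hu, wts_ev_big hD z, eventually_gt_atTop 0,
    wts_ev_poly hD hd 0 _ _ _ _ _ hW] with q hw hn hq h1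
  intro n K
  have hn0 : 0 < n := hz.trans hn
  have hK : 0 < K := Nat.mul_pos hd hq
  have hK0 : (0 : ℝ) < K := by exact_mod_cast hK
  have h2 := h1 (fun i => -(sv n z (K - 1 - i) * ((i : ℝ) / n * z ^ 2 / 2 + sv n z i * I))) (by
    intro i hi
    have hi' : i < K := hi
    have hL := wts_sv_lower hz hn hK (show K - i ≤ K by omega)
    have e1 : ((K - i : ℕ) : ℝ) / K = 1 - (i : ℝ) / K := by
      rw [Nat.cast_sub hi'.le]
      field_simp
    have ea : z * (K : ℝ) / n = a := by rw [ha]; exact wts_slab_a hq z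
    have er : (i : ℝ) / n * z ^ 2 / 2 = b * ((i : ℝ) / K) := by
      have e : (K : ℝ) / n = r := by
        have := wts_slab_a (D := D) (d := d) hq 1
        rw [one_mul, one_mul] at this
        rw [hrr]
        exact this
      rw [hb, ← e]
      field_simp
    have e2 : sv n z (K - 1 - i) * sv n z i = sv n z (K - 1) := by
      unfold sv
      rw [← pow_add]
      congr 1
      omega
    have h3 : sv n z K ≤ sv n z (K - 1) := (sv_bounds hz hn (show K - 1 ≤ K by omega)).2.1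
    have h4 : sv n z (K - i) ≤ sv n z (K - 1 - i) := (sv_bounds hz hn (show K - 1 - i ≤ K - i by omega)).2.1
    have hw1 : wl ≤ sv n z K := hw.1
    have hu0 : 0 ≤ (i : ℝ) / K := by positivity
    have hu1 : (i : ℝ) / K ≤ 1 := by
      rw [div_le_one hK0]
      exact_mod_cast hi'.le
    change (1 - ((K - i : ℕ) : ℝ) / K) + ((K - i : ℕ) : ℝ) / K * sv n z K -
      (z * K / n) ^ 2 * (((K - i : ℕ) : ℝ) / K * (1 - ((K - i : ℕ) : ℝ) / K)) / 2 ≤ sv n z (K - i) at hL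
    rw [e1, ea] at hL
    change -(sv n z (K - 1 - i) * ((i : ℝ) / n * z ^ 2 / 2 + sv n z i * I)) ≤
      -(wl * I) + -(b * wl) * ((i : ℝ) / K) + -(b * (1 - wl - a ^ 2 / 2)) * ((i : ℝ) / K) ^ 2 +
        -(b * (a ^ 2 / 2)) * ((i : ℝ) / K) ^ 3
    rw [er, mul_add, ← mul_assoc _ (sv n z i), e2]
    generalize (i : ℝ) / K = u at *
    have h5 : wl * I ≤ sv n z (K - 1) * I := mul_le_mul_of_nonneg_right (by linarith) hI
    have h6 : (1 - u) * wl ≤ (1 - u) * sv n z K := mul_le_mul_of_nonneg_left hw1 (by linarith)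
    have h7 : u + (1 - u) * wl - a ^ 2 * (u * (1 - u)) / 2 ≤ sv n z (K - 1 - i) := by linarith
    have h8 := mul_le_mul_of_nonneg_right h7 (mul_nonneg hb0 hu0)
    linarith)
  rw [sub_zero, ← hrr, mul_div_cancel₀ _ hr0.ne'] at h2
  have e : ∑ i ∈ range K, sv n z (K - 1 - i) * (z * C - (z + (sb + i / n) * z ^ 2 / 2 + sv n z i * I)) / n =
      (1 - sv n z K) * (C - 1 - sb * z / 2) +
        ∑ i ∈ range K, -(sv n z (K - 1 - i) * ((i : ℝ) / n * z ^ 2 / 2 + sv n z i * I)) / n := by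
    rw [← wts_sv_geom, Finset.sum_mul, ← Finset.sum_add_distrib]
    refine Finset.sum_congr rfl fun i _ => ?_
    ring
  rw [e]
  have h3 : (1 - sv n z K) * (C - 1 - sb * z / 2) ≤ (1 - wl) * (C - 1 - sb * z / 2) :=
    mul_le_mul_of_nonneg_right (by have := hw.1; linarith) (by linarith)
  have h4 : ∑ i ∈ range K, -(sv n z (K - 1 - i) * ((i : ℝ) / n * z ^ 2 / 2 + sv n z i * I)) / n ≤
      E - (1 - wl) * (C - 1 - sb * z / 2) := h2
  linarith

lemma ev_ratio {D d : ℕ} (hD : 0 < D) (X : ℝ) {ε : ℝ} (hε : 0 < ε) :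
    ∀ᶠ q : ℕ in atTop, X < ((D * q : ℕ) : ℝ) ∧
      ((d * q : ℕ) : ℝ) / (((D * q : ℕ) : ℝ) - X) ≤ d / D * (1 + ε) := by
  rcases Nat.eq_zero_or_pos d with h0 | hd
  · subst h0
    filter_upwards [wts_ev_big hD X] with q hq
    exact ⟨hq, by simp⟩
  · have hr : (0 : ℝ) < (d : ℝ) / D := by positivity
    have hlt : (d : ℝ) / D < d / D * (1 + ε) := by nlinarith [mul_pos hr hε]
    filter_upwards [wts_ev_big hD X, (wts_tendsto_ratio (d := d) hD X).eventually (gt_mem_nhds hlt)] with q hq h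
    exact ⟨hq, h.le⟩

end
end Pool.Agent.MP_3bf126_pr.H21
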