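import Pool.Agent.MP_3bf126_pr.H21.Model
import Pool.Agent.MP_3bf126_pr.H21.Law
import Pool.Agent.MP_3bf126_pr.H21.Wts

/-! One slab of constant threshold: definitions. -/

namespace Pool.Agent.MP_3bf126_pr.H21
open MeasureTheory Set Filter Pool.Agent.MP_3bf126_pr.H40
open scoped ENNReal
noncomputable section

/-- thresholds of the slabs `(time units, threshold)`, most recent first -/
def zsOf (q : ℕ) (past : List (ℕ × ℝ)) : List ℝ :=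
  (past.map fun b => List.replicate (b.1 * q) b.2).flatten

def mkP (D σ : ℕ) (X : ℝ) (q : ℕ) : Par := ⟨((D * q : ℕ) : ℝ), X, σ * q⟩

/-- the invariant at a slab boundary; entries are `(S, ρ, τ)` -/
def GoodSt (D σ : ℕ) (X : ℝ) (past : List (ℕ × ℝ)) (e : ℕ) (c T : ℝ) (φ : ℝ → ℝ)
    (ents : List (ℝ × ℝ × ℝ)) : Prop :=
  ∀ᶠ q : ℕ in atTop,
    (∀ S, 0 ≤ S → ∀ ξ, Good (mkP D σ X q) ξ → (mkP D σ X q).U S (e * q) ξ ≤ ell c T φ S ξ) ∧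
    ∀ t ∈ ents, Mz (mkP D σ X q) (zsOf q past)
      (fun ξ => ENNReal.ofReal (ell c T φ t.1 ξ - (mkP D σ X q).U t.1 (e * q) ξ - t.2.1)) ≤
      ENNReal.ofReal (Surv (mkP D σ X q) (zsOf q past) * t.2.2)

structure Sl where
  D : ℕ
  σ : ℕ
  X : ℝ
  past : List (ℕ × ℝ)
  e : ℕ
  d : ℕ
  z : ℝ
  cb : ℝ
  Tb : ℝ
  C : ℝ
  φb : ℝ → ℝ

namespace Sl
variable (a : Sl)
def p (q : ℕ) : Par := mkP a.D a.σ a.X q
def n (q : ℕ) : ℝ := ((a.D * q : ℕ) : ℝ)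
def w (q i : ℕ) : ℝ := sv (a.n q) a.z i
def l (q i : ℕ) : ℝ := lam (a.n q) a.z (a.d * q) i
def φ (q i : ℕ) (u : ℝ) : ℝ := a.w q i * a.φb u + (1 - a.w q i) * (max (a.z - u) 0 / a.z)
def T (q i : ℕ) : ℝ := a.w q i * a.Tb + (1 - a.w q i) / a.z
def c (q i : ℕ) : ℝ := a.w q i * a.cb + (1 - a.w q i) * a.C
def s (q i : ℕ) : ℝ := (a.p q).s (a.e * q + i)
def zs (q i : ℕ) : List ℝ := List.replicate (a.d * q - i) a.z ++ zsOf q a.past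
def el (q i : ℕ) (S : ℝ) (ξ : List ℝ) : ℝ := ell (a.c q i) (a.T q i) (a.φ q i) S ξ
def U (q i : ℕ) (S : ℝ) (ξ : List ℝ) : ℝ := (a.p q).U S (a.e * q + i) ξ
def R (q i : ℕ) (S : ℝ) (ξ : List ℝ) : ℝ := a.el q i S ξ - a.U q i S ξ
def Ψ (q i : ℕ) (g : List ℝ → ℝ) : ℝ≥0∞ := Mz (a.p q) (a.zs q i) fun ξ => ENNReal.ofReal (g ξ)
def S0 (q : ℕ) : ℝ := Surv (a.p q) (zsOf q a.past)
def sb : ℝ := ((a.σ + a.e : ℕ) : ℝ) / a.D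
def sa : ℝ := ((a.σ + a.e + a.d : ℕ) : ℝ) / a.D
def Δ : ℝ := (a.d : ℝ) / a.D
/-- total length of the earlier slabs -/
def μ : ℝ := (a.past.map fun b => (b.1 : ℝ) / a.D).sum

structure OK : Prop where
  D0 : 0 < a.D
  σ0 : 0 < a.σ
  X : (a.σ : ℝ) * a.X = a.D
  d0 : 0 < a.d
  z0 : 0 < a.z
  zX : a.z ≤ a.X
  pz : ∀ b ∈ a.past, 0 ≤ b.2 ∧ b.2 ≤ a.z
  μ1 : a.μ + a.Δ ≤ 1
  φc : Continuous a.φb
  φ0 : ∀ u, 0 ≤ a.φb u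
  φa : Antitone a.φb
  φx : ConvexOn ℝ univ a.φb
end Sl

/-- numerical envelope of one slab -/
structure Env where
  φu : ℝ → ℝ
  ε : ℝ
  cl : ℝ
  cu : ℝ
  Tl : ℝ
  Tu : ℝ
  Tm : ℝ
  Tp : ℝ
  k : ℝ
  e0 : ℝ
  wl : ℝ
  wu : ℝ
  E : ℝ
  Δ' : ℝ

structure EnvOK (a : Sl) (v : Env) : Prop where
  hl : v.wl < Real.exp (-(a.z * a.d / a.D))
  hu : Real.exp (-(a.z * a.d / a.D)) < v.wu
  wl0 : 0 < v.wl
  wu1 : v.wu < 1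
  φc : Continuous v.φu
  φx : ConvexOn ℝ univ v.φu
  φu : ∀ u, 0 ≤ u → u ≤ a.X → v.wu * a.φb u + (1 - v.wl) * (max (a.z - u) 0 / a.z) ≤ v.φu u
  φl : ∀ u, 0 ≤ u → u ≤ a.X → v.φu u - v.ε ≤ v.wl * a.φb u + (1 - v.wu) * (max (a.z - u) 0 / a.z)
  cb0 : 0 ≤ a.cb
  cl : v.cl ≤ v.wl * a.cb + (1 - v.wu) * a.C
  cu : v.wu * a.cb + (1 - v.wl) * a.C ≤ v.cu
  Tb0 : 0 ≤ a.Tb
  Tl : v.Tl ≤ v.wl * a.Tb + (1 - v.wu) / a.z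
  Tu : v.wu * a.Tb + (1 - v.wl) / a.z ≤ v.Tu
  Tm1 : v.Tm ≤ a.Tb
  Tm2 : v.Tm ≤ v.Tl
  Tm0 : 0 ≤ v.Tm
  Tp1 : a.Tb ≤ v.Tp
  Tp2 : v.Tu ≤ v.Tp
  k : a.Δ * ((a.z * a.d / a.D) ^ 2 / (8 * (1 - v.wu))) ≤ v.k
  e0 : a.φb a.z - 1 + a.z * a.Tb ≤ v.e0
  e00 : 0 ≤ v.e0
  C1 : a.z + a.sb * a.z ^ 2 / 2 + ∫ x in a.z..a.X, a.φb x ≤ a.z * a.C
  C2 : a.z + a.sa * a.z ^ 2 / 2 + v.wu * ∫ x in a.z..a.X, a.φb x ≤ a.z * a.C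
  E : (1 - v.wl) * (a.C - 1 - a.sb * a.z / 2) - a.z ^ 2 / 2 * (((a.d : ℝ) / a.D) ^ 2 *
      (1 / 3 + v.wl / 6 - (a.z * a.d / a.D) ^ 2 / 24)) - v.wl * (a.d / a.D) * ∫ x in a.z..a.X, a.φb x < v.E
  Δ' : a.Δ < v.Δ'
  φa : Antitone v.φu
  ks : v.k ≤ a.sb

namespace Sl
variable (a : Sl)

/-- what the envelope gives at one value of `q` -/
structure At (v : Env) (q : ℕ) : Prop where
  ok : (a.p q).OK
  K0 : 0 < a.d * q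
  l0 : ∀ i ≤ a.d * q, 0 ≤ a.l q i
  l1 : ∀ i ≤ a.d * q, a.l q i ≤ 1
  w0 : ∀ i, 0 ≤ a.w q i
  w1 : ∀ i, a.w q i ≤ 1
  wl : v.wl ≤ a.w q (a.d * q)
  wu : a.w q (a.d * q) ≤ v.wu
  φl : ∀ i ≤ a.d * q, ∀ u, 0 ≤ u → u ≤ a.X → a.l q i * (v.φu u - v.ε) + (1 - a.l q i) * a.φb u ≤ a.φ q i u
  φu : ∀ i ≤ a.d * q, ∀ u, 0 ≤ u → u ≤ a.X → a.φ q i u ≤ a.l q i * v.φu u + (1 - a.l q i) * a.φb u
  cl : ∀ i ≤ a.d * q, a.l q i * v.cl + (1 - a.l q i) * a.cb ≤ a.c q i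
  cu : ∀ i ≤ a.d * q, a.c q i ≤ a.l q i * v.cu + (1 - a.l q i) * a.cb
  sT : ∀ i ≤ a.d * q, a.s q i + a.T q i ≤ a.l q i * (a.sa + v.Tu) + (1 - a.l q i) * (a.sb + a.Tb)
  Tm : ∀ i ≤ a.d * q, v.Tm ≤ a.T q i
  Tp : ∀ i ≤ a.d * q, a.T q i ≤ v.Tp
  Tl : v.Tl ≤ a.T q (a.d * q)
  Tu : a.T q (a.d * q) ≤ v.Tu
  sl : ∀ i ≤ a.d * q, a.l q i * a.sa + (1 - a.l q i) * a.sb - v.k ≤ a.s q i
  sb : ∀ i, a.sb ≤ a.s q i
  e0 : ∀ i ≤ a.d * q, a.φ q i a.z - 1 + a.z * a.T q i ≤ v.e0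
  src : ∀ i ≤ a.d * q, src (a.p q) a.z (a.φ q i) (a.e * q + i) ≤ a.z * a.C
  E : ∑ i ∈ Finset.range (a.d * q), a.w q (a.d * q - 1 - i) *
    (a.z * a.C - H21.src (a.p q) a.z (a.φ q i) (a.e * q + i)) / a.n q ≤ v.E
  Δ1 : a.Δ ≤ v.Δ'
  Δ2 : ((a.d * q : ℕ) : ℝ) / (a.n q - a.X) ≤ v.Δ'

/-- the stop-loss lines `(S, ρ, τ)` hold at step `i` -/
def H (q i : ℕ) (fam : List (ℝ × ℝ × ℝ)) : Prop :=
  ∀ t ∈ fam, a.Ψ q i (fun ξ => a.R q i t.1 ξ - t.2.1) ≤ ENNReal.ofReal (a.S0 q * t.2.2)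

/-- the accumulated mean of `B` over the slab is at most `Δ' V` -/
def Cost (v : Env) (q : ℕ) (fam : List (ℝ × ℝ × ℝ)) (B : ℕ → List ℝ → ℝ) (V : ℝ) : Prop :=
  ∃ f : ℕ → ℝ, ∑ i ∈ Finset.range (a.d * q), f i / (a.n q - a.X) ≤ v.Δ' * V ∧
    ∀ i < a.d * q, 0 ≤ f i ∧ Meas (B i) ∧ (∀ ξ, 0 ≤ B i ξ) ∧
      (a.H q i fam → a.Ψ q i (B i) ≤ ENNReal.ofReal (a.S0 q * f i))

def mi (q i : ℕ) (S : ℝ) (ξ : List ℝ) (x : ℝ) : ℝ := max (acc (a.s q i) ξ x - a.U q i S (x :: ξ)) 0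
def pl (q i : ℕ) (S : ℝ) (ξ : List ℝ) (x : ℝ) : ℝ := max (a.el q i S ξ + a.φ q i x - acc (a.s q i) ξ x) 0
def gap (q i : ℕ) (S : ℝ) (ξ : List ℝ) : ℝ := a.el q i S ξ + a.φ q i a.z - acc (a.s q i) ξ a.z

/-- the part below the threshold, from `lo` -/
def MA (v : Env) (q : ℕ) (fam : List (ℝ × ℝ × ℝ)) (S η0 lo θ ε V : ℝ) : Prop :=
  ∃ B, a.Cost v q fam B V ∧ ∀ i < a.d * q, ∀ ξ, Good (a.p q) ξ →
    ∫ x in lo..a.z, a.mi q i S ξ x ≤ θ + B i ξ ∧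
    (η0 ≤ a.gap q i S ξ → ∫ x in lo..a.z, a.mi q i S ξ x ≤ ε + B i ξ)

/-- the part above the threshold, up to `hi` -/
def PA (v : Env) (q : ℕ) (fam : List (ℝ × ℝ × ℝ)) (S hi θ V : ℝ) : Prop :=
  ∃ B, a.Cost v q fam B V ∧ ∀ i < a.d * q, ∀ ξ, Good (a.p q) ξ →
    ∫ x in a.z..hi, a.pl q i S ξ x ≤ θ + B i ξ

/-- the whole regret rate -/
def LN (v : Env) (q : ℕ) (fam : List (ℝ × ℝ × ℝ)) (S θ V : ℝ) : Prop :=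
  ∃ B, a.Cost v q fam B V ∧ ∀ i < a.d * q, ∀ ξ, Good (a.p q) ξ →
    gam (a.p q) a.z (a.c q i) (a.T q i) (a.φ q i) S (a.e * q + i) ξ - θ ≤ B i ξ

/-- a way to bound the continuation value on the cell `[x0, x1]` by two levels -/
def Opt (v : Env) (S x0 x1 Sa Sb ω0 ω1 Dl : ℝ) : Prop :=
  0 ≤ ω0 ∧ ω0 ≤ 1 ∧ 0 ≤ ω1 ∧ ω1 ≤ 1 ∧ ∀ q, a.At v q → ∀ i < a.d * q, ∀ ξ, Good (a.p q) ξ →
    ∀ x, x0 < x → x ≤ x1 → acc (a.s q i) ξ x - a.U q i S (x :: ξ) ≤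
      cl ξ x - (ξ.map (a.φ q i)).sum + (a.s q i + a.T q i) * x - a.c q i + Dl +
      ((1 - ((x1 - x) * ω0 + (x - x0) * ω1) / (x1 - x0)) * a.R q i Sa ξ +
        ((x1 - x) * ω0 + (x - x0) * ω1) / (x1 - x0) * a.R q i Sb ξ)
end Sl

/-- jump functions and offsets of a cell: early (`a`) and late (`b`) coefficients, two endpoints -/
structure Jm where
  βa0 : ℝ → ℝ
  βa1 : ℝ → ℝ
  βb0 : ℝ → ℝ
  βb1 : ℝ → ℝ
  a0 : ℝ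
  a1 : ℝ
  b0 : ℝ
  b1 : ℝ

namespace Sl
variable (a : Sl)

def mix (q : ℕ) (t : Jm) (h : ℝ → ℝ) (y : ℝ) (i : ℕ) (ξ : List ℝ) : ℝ :=
  a.l q i * ((h ((ξ.map t.βa0).sum + t.a0 - y) + h ((ξ.map t.βa1).sum + t.a1 - y)) / 2) +
  (1 - a.l q i) * ((h ((ξ.map t.βb0).sum + t.b0 - y) + h ((ξ.map t.βb1).sum + t.b1 - y)) / 2)

/-- a cell below the threshold; `x'` is the node of the table used at the lower end -/
def jm (v : Env) (x0 x1 x' : ℝ) : Jm where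
  βa0 x := (if x < x' then 1 else 0) - v.φu x
  βa1 x := (if x < x1 then 1 else 0) - v.φu x
  βb0 x := (if x < x' then 1 else 0) - a.φb x
  βb1 x := (if x < x1 then 1 else 0) - a.φb x
  a0 := (a.sa + v.Tu) * x0 - v.cl
  a1 := (a.sa + v.Tu) * x1 - v.cl
  b0 := (a.sb + a.Tb) * x0 - a.cb
  b1 := (a.sb + a.Tb) * x1 - a.cb

def jp (v : Env) (x0 x1 : ℝ) : Jm where
  βa0 x := v.φu x - (if x < x0 then 1 else 0)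
  βa1 x := v.φu x - (if x < x1 then 1 else 0)
  βb0 x := a.φb x - (if x < x0 then 1 else 0)
  βb1 x := a.φb x - (if x < x1 then 1 else 0)
  a0 := v.cu + v.φu x0 - 1 - a.sa * x0 + v.k * x0
  a1 := v.cu + v.φu x1 - 1 - a.sa * x1 + v.k * x1
  b0 := a.cb + a.φb x0 - 1 - a.sb * x0 + v.k * x0
  b1 := a.cb + a.φb x1 - 1 - a.sb * x1 + v.k * x1

/-- density-weighted domination of the jumps on `[x0, x1]` over all earlier slabs -/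
def DomW (β : ℝ → ℝ) (x0 x1 η : ℝ) (Λ : A) : Prop :=
  ∃ L : ℝ → A, (∀ b ∈ a.past, DomI β (min (max b.2 x0) x1) x1 η (L b.2)) ∧
    Λ = (a.past.map fun b => ((b.1 : ℝ) / a.D) • L b.2).sum

/-- the density of earlier points at `x` -/
def den (x : ℝ) : ℝ := (a.past.map fun b => if b.2 ≤ x then (b.1 : ℝ) / a.D else 0).sum

/-- a table: `G` is below a majorant `M` of the laws of the cell, with the stated total mass and second moment -/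
def Tab (v : Env) (t : Jm) (η : ℝ) (G : A) (c Q : ℝ) : Prop :=
  ∀ᶠ q : ℕ in atTop, ∃ M : A, Pos M ∧ Le G M ∧ mass M ≤ 1 ∧ ev M (fun j => ((j : ℝ) + c) ^ 2) ≤ Q ∧
    ∀ fam h, TF h → ∀ y, a.Cost v q fam (a.mix q t h y) (ev M fun j => h (j * η - y))

/-- a value read from a table -/
def Look (v : Env) (t : Jm) (h : ℝ → ℝ) (y F : ℝ) : Prop :=
  ∀ᶠ q : ℕ in atTop, ∀ fam, a.Cost v q fam (a.mix q t h y) F
end Sl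

/-- the time weights -/
structure WOK (a : Sl) (v : Env) (Waa Wab Wba Wbb : ℝ) : Prop where
  aa : 1 / 3 - (a.z * a.d / a.D) ^ 2 * v.wl / (24 * (1 - v.wl)) < Waa
  ab : 1 / 6 - (a.z * a.d / a.D) ^ 2 * v.wl / (24 * (1 - v.wl)) < Wab
  ba : v.wu * (1 / 6 + (a.z * a.d / a.D) ^ 2 / (24 * (1 - v.wu))) < Wba
  bb : v.wu * (1 / 3 + (a.z * a.d / a.D) ^ 2 / (24 * (1 - v.wu))) < Wbb
  aa0 : 0 ≤ Waa
  ab0 : 0 ≤ Wab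
  one : Waa + Wab + Wba + Wbb ≤ 1

/-- `f` is below the mixture of the early law (jump measure `Λ`) and the late law (`Λ + N`) -/
def MixOK (Λ N : A) (W W' : ℝ) (f : A) : Prop :=
  Pos f ∧ ∃ E En : A, SP Λ E ∧ SP N En ∧ Le f (E * (W • (1 : A) + W' • En))

/-- two-point rounding of an offset -/
def spl (k : ℤ) (f : ℝ) : A := sg k (1 - f) + sg (k + 1) f
/-- two-point rounding of a jump -/
def ptp (k : ℤ) (f : ℝ) : A := pt k (1 - f) + pt (k + 1) f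

/-- second moment about `-c` of the compound law of `Λ` shifted by `spl k f` -/
def mom (c : ℝ) (Λ : A) (k : ℤ) (f : ℝ) : ℝ := (c + m1 Λ + k + f) ^ 2 + m2 Λ + f * (1 - f)

lemma Sl.Cost.mono {a : Sl} {v : Env} {q : ℕ} {fam : List (ℝ × ℝ × ℝ)} {B : ℕ → List ℝ → ℝ} {V V' : ℝ}
    (h : a.Cost v q fam B V) (h0 : 0 ≤ v.Δ') (hV : V ≤ V') : a.Cost v q fam B V' := by
  obtain ⟨f, h1, h2⟩ := h
  exact ⟨f, h1.trans (mul_le_mul_of_nonneg_left hV h0), h2⟩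

lemma EnvOK.Δ0 {a : Sl} {v : Env} (hv : EnvOK a v) : 0 ≤ v.Δ' :=
  le_trans (by unfold Sl.Δ; positivity) hv.Δ'.le

/-- one line of one level: old values, new values, bound inside the slab -/
structure Ent where
  S : ℝ
  ρb : ℝ
  τb : ℝ
  ρn : ℝ
  τn : ℝ
  ρm : ℝ

end
end Pool.Agent.MP_3bf126_pr.H21
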