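import Pool.Agent.MP_3bf126_pr.H21.Sl

/-! The induction over one slab, the start and the end. -/

namespace Pool.Agent.MP_3bf126_pr.H21
open MeasureTheory Set Filter Pool.Agent.MP_3bf126_pr.H40
open scoped ENNReal
noncomputable section

namespace Sb

lemma mkP_ok {D σ q : ℕ} {X : ℝ} (hD : 0 < D) (hσ : 0 < σ) (hX : (σ : ℝ) * X = D) (hq : 0 < q)
    (hn : X < ((D * q : ℕ) : ℝ)) : (mkP D σ X q).OK := by
  have D0 : (0 : ℝ) < D := by exact_mod_cast hD
  have σ0 : (0 : ℝ) < σ := by exact_mod_cast hσ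
  have q0 : (0 : ℝ) < q := by exact_mod_cast hq
  refine ⟨?_, hn, Nat.mul_pos hσ hq, ?_⟩
  · exact (mul_pos_iff_of_pos_left σ0).1 (hX ▸ D0 : (0 : ℝ) < σ * X)
  · simp only [Par.s, mkP, add_zero]
    push_cast
    field_simp
    exact hX

variable {a : Sl} {v : Env} {q : ℕ}

lemma s_eq (ha : a.OK) (hq : 0 < q) (i : ℕ) : a.s q i = a.sb + i / a.n q := by
  have D0 : (0 : ℝ) < a.D := by exact_mod_cast ha.D0
  have q0 : (0 : ℝ) < q := by exact_mod_cast hq
  simp only [Sl.s, Sl.p, Par.s, mkP, Sl.sb, Sl.n]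
  push_cast
  field_simp
  ring

lemma sa_eq : a.sa = a.sb + a.Δ := by
  simp only [Sl.sa, Sl.sb, Sl.Δ]
  push_cast
  ring

lemma φ_cont (ha : a.OK) (q i : ℕ) : Continuous (a.φ q i) := by
  have := ha.φc
  unfold Sl.φ
  fun_prop

lemma src_eq (ha : a.OK) (hq : 0 < q) (i : ℕ) : src (a.p q) a.z (a.φ q i) (a.e * q + i) =
    a.z + (a.sb + i / a.n q) * a.z ^ 2 / 2 + a.w q i * ∫ x in a.z..a.X, a.φb x := by
  rw [← s_eq ha hq, ← intervalIntegral.integral_const_mul]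
  unfold src
  congr 1
  refine intervalIntegral.integral_congr fun x hx => ?_
  rw [show (a.p q).X = a.X from rfl, uIcc_of_le ha.zX] at hx
  simp only [Sl.φ]
  rw [max_eq_right (sub_nonpos.2 hx.1)]
  ring

lemma w_succ (q i : ℕ) : a.w q (i + 1) = (1 - a.z / a.n q) * a.w q i := by
  simp only [Sl.w, sv]
  ring

lemma w_zero (q : ℕ) : a.w q 0 = 1 := by simp [Sl.w, sv]

lemma w_add (q i j : ℕ) : a.w q (i + j) = a.w q i * a.w q j := by
  simp only [Sl.w, sv, pow_add]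

lemma el_zero (q : ℕ) (S : ℝ) (ξ : List ℝ) : a.el q 0 S ξ = ell a.cb a.Tb a.φb S ξ := by
  have e : a.φ q 0 = a.φb := funext fun u => by simp [Sl.φ, w_zero]
  simp [Sl.el, e, Sl.c, Sl.T, w_zero]

lemma el_succ (ha : a.OK) (q i : ℕ) (S : ℝ) (ξ : List ℝ) : a.el q (i + 1) S ξ =
    ell ((1 - a.z / (a.p q).n) * a.c q i + src (a.p q) a.z (a.φ q i) (a.e * q + i) / (a.p q).n)
      ((1 - a.z / (a.p q).n) * a.T q i + 1 / (a.p q).n)
      (fun u => (1 - a.z / (a.p q).n) * a.φ q i u + max (a.z - u) 0 / (a.p q).n) S ξ +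
      (a.z * a.C - src (a.p q) a.z (a.φ q i) (a.e * q + i)) / (a.p q).n := by
  have z0 := ha.z0.ne'
  have en : (a.p q).n = a.n q := rfl
  have e1 : a.φ q (i + 1) =
      fun u => (1 - a.z / a.n q) * a.φ q i u + max (a.z - u) 0 / a.n q := funext fun u => by
    simp only [Sl.φ, w_succ, div_eq_mul_inv]
    linear_combination (max (a.z - u) 0 * (a.n q)⁻¹) * mul_inv_cancel₀ z0
  have e2 : a.T q (i + 1) = (1 - a.z / a.n q) * a.T q i + 1 / a.n q := by
    simp only [Sl.T, w_succ, div_eq_mul_inv]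
    linear_combination (a.n q)⁻¹ * mul_inv_cancel₀ z0
  have e3 : a.c q (i + 1) = (1 - a.z / a.n q) * a.c q i + a.z * a.C / a.n q := by
    simp only [Sl.c, w_succ]
    ring
  rw [Sl.el, e1, e2, e3, en]
  simp only [ell]
  ring

lemma mixl {l x y x' y' : ℝ} (l0 : 0 ≤ l) (l1 : l ≤ 1) (h : x ≤ x') (h' : y ≤ y') :
    l * x + (1 - l) * y ≤ l * x' + (1 - l) * y' :=
  add_le_add (mul_le_mul_of_nonneg_left h l0) (mul_le_mul_of_nonneg_left h' (sub_nonneg.2 l1))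

lemma two {w w' u u' x y : ℝ} (h : w ≤ w') (h' : u' ≤ u) (x0 : 0 ≤ x) (y0 : 0 ≤ y) :
    w * x + (1 - u) * y ≤ w' * x + (1 - u') * y :=
  add_le_add (mul_le_mul_of_nonneg_right h x0) (mul_le_mul_of_nonneg_right (by linarith) y0)

end Sb
open Sb

lemma env_at {a : Sl} {v : Env} (ha : a.OK) (hv : EnvOK a v) : ∀ᶠ q : ℕ in atTop, a.At v q := by
  have z0 := ha.z0
  have hI : 0 ≤ ∫ x in a.z..a.X, a.φb x :=
    intervalIntegral.integral_nonneg ha.zX fun u _ => ha.φ0 u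
  have sb0 : 0 ≤ a.sb := by unfold Sl.sb; positivity
  have Δ0 : 0 ≤ a.Δ := by unfold Sl.Δ; positivity
  have hC : 1 + a.sb * a.z / 2 ≤ a.C :=
    le_of_mul_le_mul_left (by nlinarith [hv.C1]) z0
  have C0 : 0 ≤ a.C := le_trans (by positivity) hC
  filter_upwards [ev_sv ha.D0 hv.hl hv.hu, wts_ev_big ha.D0 a.X, eventually_gt_atTop 0,
    ev_excess ha.D0 ha.d0 z0 hv.hl hv.hu hv.wl0.le hv.wu1 hI sb0 hC hv.E,
    (wts_tendsto_ratio (d := a.d) ha.D0 a.X).eventually (gt_mem_nhds hv.Δ')] with q hw hn hq hE hΔ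
  have hzn : a.z < a.n q := ha.zX.trans_lt hn
  have K0 : 0 < a.d * q := Nat.mul_pos ha.d0 hq
  have wl : v.wl ≤ a.w q (a.d * q) := hw.1
  have wu : a.w q (a.d * q) ≤ v.wu := hw.2
  have lb := fun i (hi : i ≤ a.d * q) => lam_bounds z0 hzn K0 hi wu hv.wu1
  have l0 : ∀ i ≤ a.d * q, 0 ≤ a.l q i := fun i hi => (lb i hi).1
  have l1 : ∀ i ≤ a.d * q, a.l q i ≤ 1 := fun i hi => (lb i hi).2.1
  have we : ∀ i ≤ a.d * q, a.w q i = a.l q i * a.w q (a.d * q) + (1 - a.l q i) :=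
    fun i hi => (lb i hi).2.2.2.2
  have w0 : ∀ i, 0 ≤ a.w q i := fun i => (sv_bounds z0 hzn (le_refl i)).1.le
  have w1 : ∀ i, a.w q i ≤ 1 := fun i => (sv_bounds z0 hzn (le_refl i)).2.2
  have φe : ∀ i ≤ a.d * q, ∀ u,
      a.φ q i u = a.l q i * a.φ q (a.d * q) u + (1 - a.l q i) * a.φb u := fun i hi u => by
    simp only [Sl.φ]
    rw [we i hi]
    ring
  have ce : ∀ i ≤ a.d * q, a.c q i = a.l q i * a.c q (a.d * q) + (1 - a.l q i) * a.cb :=
    fun i hi => by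
      simp only [Sl.c]
      rw [we i hi]
      ring
  have Te : ∀ i ≤ a.d * q, a.T q i = a.l q i * a.T q (a.d * q) + (1 - a.l q i) * a.Tb :=
    fun i hi => by
      simp only [Sl.T]
      rw [we i hi]
      ring
  have h0 : ∀ u, 0 ≤ max (a.z - u) 0 / a.z := fun u => by positivity
  have zi : 0 ≤ a.z⁻¹ := by positivity
  have Tl : v.Tl ≤ a.T q (a.d * q) := hv.Tl.trans (by
    simpa only [Sl.T, div_eq_mul_inv] using two wl wu hv.Tb0 zi)
  have Tu : a.T q (a.d * q) ≤ v.Tu := le_trans (by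
    simpa only [Sl.T, div_eq_mul_inv] using two wu wl hv.Tb0 zi) hv.Tu
  have se : ∀ i : ℕ, (i : ℝ) / a.n q = i / ((a.d * q : ℕ) : ℝ) * a.Δ := fun i => by
    have D0 : (0 : ℝ) < a.D := by exact_mod_cast ha.D0
    have d0 : (0 : ℝ) < a.d := by exact_mod_cast ha.d0
    have q0 : (0 : ℝ) < q := by exact_mod_cast hq
    simp only [Sl.n, Sl.Δ]
    push_cast
    field_simp
  have su : ∀ i ≤ a.d * q, (i : ℝ) / a.n q ≤ a.l q i * a.Δ := fun i hi => by
    rw [se]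
    exact mul_le_mul_of_nonneg_right (lb i hi).2.2.1 Δ0
  refine ⟨mkP_ok ha.D0 ha.σ0 ha.X hq hn, K0, l0, l1, w0, w1, wl, wu, fun i hi u u0 u1 => ?_,
    fun i hi u u0 u1 => ?_, fun i hi => ?_, fun i hi => ?_, fun i hi => ?_, fun i hi => ?_,
    fun i hi => ?_, Tl, Tu, fun i hi => ?_, fun i => ?_, fun i _ => ?_, fun i hi => ?_, ?_,
    hv.Δ'.le, hΔ.le⟩
  · rw [φe i hi]
    exact mixl (l0 i hi) (l1 i hi) ((hv.φl u u0 u1).trans (two wl wu (ha.φ0 u) (h0 u))) le_rfl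
  · rw [φe i hi]
    exact mixl (l0 i hi) (l1 i hi) ((two wu wl (ha.φ0 u) (h0 u)).trans (hv.φu u u0 u1)) le_rfl
  · rw [ce i hi]
    exact mixl (l0 i hi) (l1 i hi) (hv.cl.trans (two wl wu hv.cb0 C0)) le_rfl
  · rw [ce i hi]
    exact mixl (l0 i hi) (l1 i hi) ((two wu wl hv.cb0 C0).trans hv.cu) le_rfl
  · rw [Te i hi, s_eq ha hq, sa_eq]
    nlinarith [su i hi, mul_le_mul_of_nonneg_left Tu (l0 i hi)]
  · rw [Te i hi]
    exact le_trans (le_of_eq (by ring)) (mixl (l0 i hi) (l1 i hi) (hv.Tm2.trans Tl) hv.Tm1)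
  · rw [Te i hi]
    exact (mixl (l0 i hi) (l1 i hi) (Tu.trans hv.Tp2) hv.Tp1).trans (le_of_eq (by ring))
  · have h1 := mul_le_mul_of_nonneg_right (lb i hi).2.2.2.1 Δ0
    rw [show a.z * ((a.d * q : ℕ) : ℝ) / a.n q = a.z * a.d / a.D from wts_slab_a hq a.z] at h1
    rw [s_eq ha hq, sa_eq, se]
    have h2 := hv.k
    change a.l q i * a.Δ ≤ _ at h1
    nlinarith
  · rw [s_eq ha hq]
    have : (0 : ℝ) ≤ i / a.n q := div_nonneg (Nat.cast_nonneg _) (z0.trans hzn).le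
    linarith
  · have e : a.φ q i a.z - 1 + a.z * a.T q i = a.w q i * (a.φb a.z - 1 + a.z * a.Tb) := by
      simp only [Sl.φ, Sl.T, sub_self, max_self, zero_div]
      field_simp
      ring
    rw [e]
    exact (mul_le_mul_of_nonneg_left hv.e0 (w0 i)).trans (mul_le_of_le_one_left hv.e00 (w1 i))
  · rw [src_eq ha hq, we i hi]
    have h1 := mixl (l0 i hi) (l1 i hi) hv.C2 hv.C1
    have h2 := mul_le_mul_of_nonneg_right (su i hi) (show 0 ≤ a.z ^ 2 / 2 by positivity)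
    have h3 := mul_le_mul_of_nonneg_left (mul_le_mul_of_nonneg_right wu hI) (l0 i hi)
    rw [sa_eq] at h1
    nlinarith
  · simp only [src_eq ha hq]
    exact hE

namespace Sb
variable {a : Sl} {v : Env} {q : ℕ}

lemma U_le_el (ha : a.OK) (h : a.At v q) {S : ℝ}
    (h0 : ∀ ξ, Good (a.p q) ξ → (a.p q).U S (a.e * q) ξ ≤ ell a.cb a.Tb a.φb S ξ) :
    ∀ i ≤ a.d * q, ∀ ξ, Good (a.p q) ξ → a.U q i S ξ ≤ a.el q i S ξ := by
  intro i
  induction i with
  | zero => exact fun _ ξ hξ => (h0 ξ hξ).trans_eq (el_zero q S ξ).symm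
  | succ i ih =>
    intro hi ξ hξ
    have h1 := step_up h.ok (φ_cont ha q i) ha.z0.le ha.zX (ih (by omega)) hξ
    have h2 := div_nonneg (sub_nonneg.2 (h.src i (by omega))) h.ok.n0.le
    rw [el_succ ha]
    exact le_add_of_le_of_nonneg h1 h2

lemma zok0 (ha : a.OK) (q : ℕ) : ZOK (a.p q) (zsOf q a.past) := by
  intro z hz
  obtain ⟨l, hl, hz⟩ := List.mem_flatten.1 hz
  obtain ⟨b, hb, rfl⟩ := List.mem_map.1 hl
  rw [List.eq_of_mem_replicate hz]
  exact ⟨(ha.pz b hb).1, (ha.pz b hb).2.trans ha.zX⟩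

lemma zok (ha : a.OK) (q i : ℕ) : ZOK (a.p q) (a.zs q i) := by
  intro z hz
  rcases List.mem_append.1 hz with hz | hz
  · rw [List.eq_of_mem_replicate hz]
    exact ⟨ha.z0.le, ha.zX⟩
  · exact zok0 ha q z hz

lemma zs_succ {i : ℕ} (hi : i < a.d * q) : a.zs q i = a.z :: a.zs q (i + 1) := by
  unfold Sl.zs
  rw [show a.d * q - i = (a.d * q - (i + 1)) + 1 by omega, List.replicate_succ, List.cons_append]

lemma zs_zero : zsOf q ((a.d, a.z) :: a.past) = a.zs q 0 := by simp [zsOf, Sl.zs]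

lemma zs_end : a.zs q (a.d * q) = zsOf q a.past := by simp [Sl.zs]

lemma surv_zero : Surv (a.p q) (a.zs q 0) = a.w q (a.d * q) * a.S0 q := by
  simp only [Surv, Sl.zs, Sl.S0, Sl.w, sv, List.map_append, List.prod_append, List.map_replicate,
    List.prod_replicate, Nat.sub_zero]
  rfl

lemma len_zs (D q : ℕ) (hD : 0 < D) (past : List (ℕ × ℝ)) : ((zsOf q past).length : ℝ) =
    (past.map fun b => (b.1 : ℝ) / D).sum * ((D * q : ℕ) : ℝ) := by
  have D0 : (D : ℝ) ≠ 0 := by exact_mod_cast hD.ne'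
  induction past with
  | nil => simp [zsOf]
  | cons b l ih =>
    have e : zsOf q (b :: l) = List.replicate (b.1 * q) b.2 ++ zsOf q l := by simp [zsOf]
    rw [e, List.length_append, List.length_replicate, Nat.cast_add, ih, List.map_cons,
      List.sum_cons]
    push_cast
    field_simp

/-- the accumulated defect of the constant term -/
def df (a : Sl) (q i : ℕ) : ℝ := ∑ j ∈ Finset.range i, a.w q (i - 1 - j) *
  (a.z * a.C - src (a.p q) a.z (a.φ q j) (a.e * q + j)) / a.n q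

lemma df_succ (i : ℕ) : df a q (i + 1) = (1 - a.z / a.n q) * df a q i +
    (a.z * a.C - src (a.p q) a.z (a.φ q i) (a.e * q + i)) / a.n q := by
  unfold df
  rw [Finset.sum_range_succ, Finset.mul_sum, show i + 1 - 1 - i = 0 by omega, w_zero, one_mul]
  congr 1
  refine Finset.sum_congr rfl fun j hj => ?_
  rw [show i + 1 - 1 - j = (i - 1 - j) + 1 by have := Finset.mem_range.1 hj; omega, w_succ]
  ring

lemma df_nn (h : a.At v q) {i : ℕ} (hi : i ≤ a.d * q) : 0 ≤ df a q i :=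
  Finset.sum_nonneg fun j hj => div_nonneg (mul_nonneg (h.w0 _) (sub_nonneg.2 (h.src j
    ((Finset.mem_range.1 hj).le.trans hi)))) h.ok.n0.le

lemma df_le (ha : a.OK) (h : a.At v q) (hw : 0 < v.wl) {i : ℕ} (hi : i ≤ a.d * q) :
    df a q i ≤ v.E / v.wl := by
  have key : ∀ k, i + k ≤ a.d * q → a.w q k * df a q i ≤ df a q (i + k) := by
    intro k
    induction k with
    | zero => simp [w_zero]
    | succ k ih =>
      intro hk
      rw [← add_assoc, df_succ, w_succ, mul_assoc]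
      exact le_add_of_le_of_nonneg
        (mul_le_mul_of_nonneg_left (ih (by omega)) (h.ok.fac ha.zX).le)
        (div_nonneg (sub_nonneg.2 (h.src _ (by omega))) h.ok.n0.le)
  have h1 := key (a.d * q - i) (by omega)
  rw [show i + (a.d * q - i) = a.d * q by omega] at h1
  have h2 : v.wl ≤ a.w q (a.d * q - i) :=
    h.wl.trans (sv_bounds ha.z0 (ha.zX.trans_lt h.ok.Xn) (Nat.sub_le _ _)).2.1
  rw [le_div_iff₀' hw]
  exact (mul_le_mul_of_nonneg_right h2 (df_nn h hi)).trans (h1.trans h.E)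

/-- the stop-loss level at step `i` -/
def rho (a : Sl) (q : ℕ) (ρ θ : ℝ) (i : ℕ) : ℝ := a.w q i * ρ + (1 - a.w q i) * (θ / a.z) + df a q i

lemma rho_succ (ha : a.OK) (ρ θ : ℝ) (i : ℕ) : rho a q ρ θ (i + 1) =
    (1 - a.z / (a.p q).n) * rho a q ρ θ i +
      (θ + (a.z * a.C - src (a.p q) a.z (a.φ q i) (a.e * q + i))) / (a.p q).n := by
  rw [show (a.p q).n = a.n q from rfl]
  simp only [rho, w_succ, df_succ, div_eq_mul_inv]
  linear_combination (θ * (a.n q)⁻¹) * mul_inv_cancel₀ ha.z0.ne'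

lemma meas_R (ha : a.OK) (q i : ℕ) (S : ℝ) : Meas (a.R q i S) :=
  (meas_ell _ _ S (φ_cont ha q i).measurable).sub (U_meas S _)

lemma line (ha : a.OK) (h : a.At v q) {S ρ θ : ℝ} {i : ℕ} (hi : i < a.d * q)
    (hU : ∀ ξ, Good (a.p q) ξ → a.U q i S ξ ≤ a.el q i S ξ) {B : List ℝ → ℝ}
    (hB : ∀ ξ, Good (a.p q) ξ →
      gam (a.p q) a.z (a.c q i) (a.T q i) (a.φ q i) S (a.e * q + i) ξ - θ ≤ B ξ) :
    a.Ψ q (i + 1) (fun ξ => a.R q (i + 1) S ξ - rho a q ρ θ (i + 1)) ≤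
      a.Ψ q i (fun ξ => a.R q i S ξ - rho a q ρ θ i) +
        ENNReal.ofReal (1 / (a.n q - a.X)) * a.Ψ q i B := by
  unfold Sl.Ψ
  rw [zs_succ hi]
  refine line_step h.ok (zs_succ hi ▸ zok ha q i) (meas_R ha q i S)
    (G := fun ξ => gam (a.p q) a.z (a.c q i) (a.T q i) (a.φ q i) S (a.e * q + i) ξ +
      (a.z * a.C - src (a.p q) a.z (a.φ q i) (a.e * q + i)))
    (fun ξ _ => R_int h.ok (φ_cont ha q i) _ ξ _ _) (fun ξ hξ => ?_) (rho_succ ha ρ θ i).ge
    fun ξ hξ => by linarith [hB ξ hξ]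
  have h1 := step_R h.ok (φ_cont ha q i) ha.z0.le ha.zX hU hξ
  rw [← add_assoc, add_div _ (a.z * a.C - _), Sl.R, el_succ ha]
  change _ + _ - (a.p q).U S (a.e * q + i + 1) ξ ≤ _
  refine le_trans (le_of_eq (add_sub_right_comm _ _ _)) (add_le_add h1 le_rfl)

lemma l_end (ha : a.OK) (h : a.At v q) : a.l q (a.d * q) = 1 :=
  div_self (sub_pos.2 (wts_sv_lt_one ha.z0 (ha.zX.trans_lt h.ok.Xn) h.K0)).ne'

lemma sum_le_len {p : Par} {f g : ℝ → ℝ} {ε : ℝ} (h : ∀ u, 0 ≤ u → u ≤ p.X → f u ≤ g u + ε)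
    {ξ : List ℝ} (hξ : Good p ξ) : (ξ.map f).sum ≤ (ξ.map g).sum + ε * ξ.length := by
  induction ξ with
  | nil => simp
  | cons x ξ ih =>
    have h1 := ih fun y hy => hξ y (List.mem_cons_of_mem _ hy)
    have h2 := hξ x List.mem_cons_self
    simp only [List.map_cons, List.sum_cons, List.length_cons]
    push_cast
    linarith [h x h2.1 h2.2]

end Sb

theorem slab_sound {a : Sl} {v : Env} (ha : a.OK) (hv : EnvOK a v) {old : List (ℝ × ℝ × ℝ)}
    (hb : GoodSt a.D a.σ a.X ((a.d, a.z) :: a.past) a.e a.cb a.Tb a.φb old) (L : List Ent)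
    (hL : ∀ x ∈ L, (x.S, x.ρb, x.τb) ∈ old ∧ 0 ≤ x.S ∧ 0 ≤ x.ρb ∧ 0 ≤ x.τb ∧
      x.ρb + v.E / v.wl ≤ x.ρm ∧ x.ρn + v.E / v.wl ≤ x.ρm ∧ ∃ θ V, 0 ≤ θ ∧
        (∀ᶠ q : ℕ in atTop, a.LN v q (L.map fun x => (x.S, x.ρm, x.τn)) x.S θ V) ∧
        v.wu * x.ρb + (1 - v.wl) * θ / a.z + v.E + (v.cu - v.cl) + x.S * (v.Tu - v.Tl) ≤ x.ρn ∧
        v.wu * x.τb + v.Δ' * V + v.ε * a.X ≤ x.τn) :
    GoodSt a.D a.σ a.X a.past (a.e + a.d) v.cu v.Tl v.φu (L.map fun x => (x.S, x.ρn, x.τn)) := by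
  choose! θ V θ0 hLN hρ hτ using fun x hx => (hL x hx).2.2.2.2.2.2
  have hall := (eventually_all_finite L.finite_toSet).2 hLN
  filter_upwards [hb, env_at ha hv, hall] with q hb h hall
  obtain ⟨hb1, hb2⟩ := hb
  choose! B hB hg using hall
  choose! f hf1 hf2 using hB
  have z0 := ha.z0
  have X0 : 0 < a.X := h.ok.X0
  have lK := l_end ha h
  have eK : (a.e + a.d) * q = a.e * q + a.d * q := add_mul _ _ _
  have hU := fun S hS => U_le_el ha h (hb1 S hS)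
  have φu : ∀ u, 0 ≤ u → u ≤ a.X → a.φ q (a.d * q) u ≤ v.φu u + 0 := fun u u0 u1 => by
    simpa [lK] using h.φu _ le_rfl u u0 u1
  have φl : ∀ u, 0 ≤ u → u ≤ a.X → v.φu u ≤ a.φ q (a.d * q) u + v.ε := fun u u0 u1 => by
    simpa [lK] using h.φl _ le_rfl u u0 u1
  have cl : v.cl ≤ a.c q (a.d * q) := by simpa [lK] using h.cl _ le_rfl
  have cu : a.c q (a.d * q) ≤ v.cu := by simpa [lK] using h.cu _ le_rfl
  have ε0 : 0 ≤ v.ε := by linarith [φu 0 le_rfl X0.le, φl 0 le_rfl X0.le]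
  have S0 : 0 < a.S0 q := Surv_pos h.ok (zok0 ha q)
  have nX : 0 < a.n q - a.X := sub_pos.2 h.ok.Xn
  have E0 : 0 ≤ v.E := (df_nn h le_rfl).trans h.E
  have gK : ∀ x ∈ L, a.w q (a.d * q) * x.ρb + (1 - a.w q (a.d * q)) * (θ x / a.z) ≤
      v.wu * x.ρb + (1 - v.wl) * θ x / a.z := fun x hx => by
    rw [mul_div_assoc]
    exact two h.wu h.wl (hL x hx).2.2.1 (div_nonneg (θ0 x hx) z0.le)
  have ρm : ∀ x ∈ L, ∀ i ≤ a.d * q, rho a q x.ρb (θ x) i ≤ x.ρm := by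
    intro x hx i hi
    obtain ⟨-, h1, -, -, h2, h3, -⟩ := hL x hx
    have h4 := mul_nonneg h1 (sub_nonneg.2 (h.Tl.trans h.Tu))
    have h5 := mixl (h.l0 i hi) (h.l1 i hi) (x' := x.ρm - v.E / v.wl) (y' := x.ρm - v.E / v.wl)
      ((gK x hx).trans (by linarith [hρ x hx])) (show x.ρb ≤ _ by linarith)
    have we : a.w q i = a.l q i * a.w q (a.d * q) + (1 - a.l q i) :=
      (lam_bounds z0 (ha.zX.trans_lt h.ok.Xn) h.K0 hi h.wu hv.wu1).2.2.2.2
    have h6 := df_le ha h hv.wl0 hi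
    rw [rho, we]
    linarith
  have fs : ∀ x ∈ L, ∀ i ≤ a.d * q, 0 ≤ ∑ j ∈ Finset.range i, f x j / (a.n q - a.X) ∧
      ∑ j ∈ Finset.range i, f x j / (a.n q - a.X) ≤ v.Δ' * V x := fun x hx i hi =>
    ⟨Finset.sum_nonneg fun j hj =>
        div_nonneg (hf2 x hx j ((Finset.mem_range.1 hj).trans_le hi)).1 nX.le,
      (Finset.sum_le_sum_of_subset_of_nonneg (Finset.range_mono hi) fun j hj _ =>
        div_nonneg (hf2 x hx j (Finset.mem_range.1 hj)).1 nX.le).trans (hf1 x hx)⟩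
  have wu0 : 0 ≤ v.wu := (h.w0 _).trans h.wu
  have main : ∀ i ≤ a.d * q, ∀ x ∈ L, a.Ψ q i (fun ξ => a.R q i x.S ξ - rho a q x.ρb (θ x) i) ≤
      ENNReal.ofReal (a.S0 q * (v.wu * x.τb + ∑ j ∈ Finset.range i, f x j / (a.n q - a.X))) := by
    intro i
    induction i with
    | zero =>
      intro _ x hx
      have h1 := hb2 _ (hL x hx).1
      rw [zs_zero] at h1
      have e : ∀ ξ, a.R q 0 x.S ξ - rho a q x.ρb (θ x) 0 =
          ell a.cb a.Tb a.φb x.S ξ - (a.p q).U x.S (a.e * q) ξ - x.ρb := fun ξ => by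
        simp [Sl.R, el_zero, Sl.U, rho, w_zero, df]
      simp only [Sl.Ψ, e]
      refine h1.trans (ENNReal.ofReal_le_ofReal ?_)
      change Surv (a.p q) _ * x.τb ≤ _
      rw [surv_zero, Finset.sum_range_zero, add_zero, mul_comm (a.w q _), mul_assoc]
      exact mul_le_mul_of_nonneg_left (mul_le_mul_of_nonneg_right h.wu (hL x hx).2.2.2.1) S0.le
    | succ i ih =>
      intro hi x hx
      have hi' : i < a.d * q := hi
      have hH : a.H q i (L.map fun x => (x.S, x.ρm, x.τn)) := by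
        intro t ht
        obtain ⟨y, hy, rfl⟩ := List.mem_map.1 ht
        refine le_trans (Mz_mono' _ fun ξ => ENNReal.ofReal_le_ofReal ?_)
          ((ih hi'.le y hy).trans (ENNReal.ofReal_le_ofReal
            (mul_le_mul_of_nonneg_left ?_ S0.le)))
        · exact sub_le_sub_left (ρm y hy i hi'.le) _
        · linarith [(fs y hy i hi'.le).2, hτ y hy, mul_nonneg ε0 X0.le]
      obtain ⟨f0, -, -, h1⟩ := hf2 x hx i hi'
      refine (line ha h hi' (hU _ (hL x hx).2.1 i hi'.le) (hg x hx i hi')).trans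
        ((add_le_add (ih hi'.le x hx) (mul_le_mul_right (h1 hH) _)).trans (le_of_eq ?_))
      have h2 := mul_nonneg wu0 (hL x hx).2.2.2.1
      have h3 := (fs x hx i hi'.le).1
      rw [← ENNReal.ofReal_mul (by positivity), ← ENNReal.ofReal_add (by positivity) (by positivity),
        Finset.sum_range_succ]
      congr 1
      ring
  refine ⟨fun S hS ξ hξ => ?_, fun t ht => ?_⟩
  · rw [eK]
    refine (hU S hS _ le_rfl ξ hξ).trans ?_
    have h1 := sum_le_len (p := a.p q) φu hξ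
    have h2 := mul_le_mul_of_nonneg_left h.Tl hS
    simp only [Sl.el, ell]
    linarith
  · obtain ⟨x, hx, rfl⟩ := List.mem_map.1 ht
    have h1 := main _ le_rfl x hx
    rw [Sl.Ψ, zs_end] at h1
    have h2 := Mz_len h.ok (zok0 ha q)
    have h3 : ((zsOf q a.past).length : ℝ) * (a.p q).X / (a.p q).n ≤ a.X := by
      rw [len_zs a.D q ha.D0, div_le_iff₀ h.ok.n0]
      change a.μ * a.n q * a.X ≤ a.X * a.n q
      have μ1 : a.μ ≤ 1 := le_trans (le_add_of_nonneg_right (by unfold Sl.Δ; positivity)) ha.μ1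
      have := mul_le_mul_of_nonneg_right μ1 (mul_nonneg h.ok.n0.le X0.le)
      change a.μ * (a.n q * a.X) ≤ 1 * (a.n q * a.X) at this
      linarith
    have h4 := mul_nonneg wu0 (hL x hx).2.2.2.1
    obtain ⟨h5, h6⟩ := fs x hx _ le_rfl
    rw [eK]
    refine le_trans (Mz_mono (zok0 ha q) (g := fun ξ => ENNReal.ofReal (a.R q (a.d * q) x.S ξ -
      rho a q x.ρb (θ x) (a.d * q)) + ENNReal.ofReal v.ε * ENNReal.ofReal (ξ.length : ℝ))
      fun ξ hξ => ?_) ?_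
    · rw [← ENNReal.ofReal_mul ε0]
      refine le_trans (ENNReal.ofReal_le_ofReal ?_) ENNReal.ofReal_add_le
      have k1 := sum_le_len (p := a.p q) φl hξ
      have k2 := mul_le_mul_of_nonneg_left h.Tu (hL x hx).2.1
      have k3 : df a q (a.d * q) ≤ v.E := h.E
      simp only [Sl.R, Sl.el, Sl.U, ell, rho]
      change _ - (a.p q).U x.S _ ξ - x.ρn ≤ _
      linarith [gK x hx, hρ x hx]
    · rw [Mz_add _ ((meas_R ha q _ _).sub (Meas.const _)).ofReal, Mz_smul]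
      refine (add_le_add h1 (mul_le_mul_right (h2.trans (ENNReal.ofReal_le_ofReal
        (mul_le_mul_of_nonneg_left h3 S0.le))) _)).trans ?_
      rw [← ENNReal.ofReal_mul ε0]
      refine (ENNReal.ofReal_add (by positivity)
        (mul_nonneg ε0 (mul_nonneg S0.le X0.le))).ge.trans (ENNReal.ofReal_le_ofReal ?_)
      change _ + v.ε * (a.S0 q * a.X) ≤ a.S0 q * x.τn
      nlinarith [mul_le_mul_of_nonneg_left (hτ x hx) S0.le, mul_le_mul_of_nonneg_left h6 S0.le]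

theorem good_init {D σ : ℕ} (hD : 0 < D) (X : ℝ) (past : List (ℕ × ℝ)) {ents : List (ℝ × ℝ × ℝ)}
    (h : ∀ t ∈ ents, 0 ≤ t.2.1) :
    GoodSt D σ X past 0 1 ((σ : ℝ) / D) (fun x => (σ : ℝ) / D * max (X - x) 0) ents := by
  filter_upwards [eventually_gt_atTop 0] with q hq
  have D0 : (0 : ℝ) < D := by exact_mod_cast hD
  have q0 : (0 : ℝ) < q := by exact_mod_cast hq
  have s0 : (mkP D σ X q).s 0 = (σ : ℝ) / D := by
    simp only [Par.s, mkP, add_zero]
    push_cast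
    field_simp
  have e : ∀ S ξ, (mkP D σ X q).U S (0 * q) ξ =
      ell 1 ((σ : ℝ) / D) (fun x => (σ : ℝ) / D * max (X - x) 0) S ξ := fun S ξ => by
    rw [zero_mul, Md.U_zero, s0]
    rfl
  refine ⟨fun S _ ξ _ => (e S ξ).le, fun t ht => ?_⟩
  refine le_trans (Mz_mono' _ (g := fun _ => 0) fun ξ => ?_) ((Mz_zero _).trans_le zero_le)
  rw [e, sub_self, zero_sub, ENNReal.ofReal_of_nonpos (neg_nonpos.2 (h t ht))]

theorem good_final {D σ e : ℕ} {X c T ρ τ b : ℝ} {φ : ℝ → ℝ} {ents : List (ℝ × ℝ × ℝ)} (hσ : 0 < σ)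
    (hX : (σ : ℝ) * X = D) (he : σ + e = D) (h : GoodSt D σ X [] e c T φ ents) (ht : (0, ρ, τ) ∈ ents)
    (hτ : 0 ≤ τ) (h3 : c - ρ - τ ≤ 3) (hb : b < c - ρ - τ) : Ev b := by
  have hD : 0 < D := by omega
  have key : ∀ᶠ q : ℕ in atTop, ENNReal.ofReal (c - ρ - τ) ≤ Val (D * q) [] := by
    filter_upwards [h, wts_ev_big hD X, eventually_gt_atTop 0] with q h hn hq
    have h1 := h.2 _ ht
    simp only [zsOf, List.map_nil, List.flatten_nil, Mz, Surv, List.prod_nil, one_mul, ell,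
      List.sum_nil, add_zero, zero_mul, sub_zero] at h1
    have h2 := (ENNReal.ofReal_le_ofReal_iff hτ).1 h1
    have h4 := U_le_Vx (mkP_ok hD hσ hX hq hn) (e * q) (ξ := []) (by simp [Good])
    rw [show (mkP D σ X q).r0 + e * q = D * q by rw [← he, add_mul]; rfl] at h4
    exact (ENNReal.ofReal_le_ofReal (by linarith)).trans h4
  obtain ⟨q0, hq⟩ := eventually_atTop.1 key
  obtain ⟨η, hη, hb'⟩ : ∃ η, 0 < η ∧ b = c - ρ - τ - η := ⟨c - ρ - τ - b, by linarith, by ring⟩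
  obtain ⟨q1, hq1⟩ := exists_nat_gt (9 / η)
  refine ⟨D * max (max q0 q1) 3, fun r hr => ?_⟩
  have h1 : max (max q0 q1) 3 ≤ r / D := (Nat.le_div_iff_mul_le hD).2 (by rwa [mul_comm])
  set q := r / D with hqd
  have h4 := fill (N := D * q) ((show 3 ≤ q by omega).trans (Nat.le_mul_of_pos_left q hD))
    h3 (hq q (by omega)) (r % D)
  rw [hqd, Nat.div_add_mod] at h4
  refine le_trans (ENNReal.ofReal_le_ofReal ?_) h4
  have hqR : (q1 : ℝ) ≤ q := by exact_mod_cast (show q1 ≤ q by omega)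
  have hq0 : (0 : ℝ) < q := by exact_mod_cast (show 0 < q by omega)
  have D0 : (0 : ℝ) < D := by positivity
  have h5 : ((r % D : ℕ) : ℝ) ≤ D := by exact_mod_cast (Nat.mod_lt r hD).le
  have h6 : 9 * ((r % D : ℕ) : ℝ) / (D * (r / D) : ℕ) ≤ η := by
    rw [← hqd]
    push_cast
    rw [div_le_iff₀ (by positivity)]
    rw [div_lt_iff₀ hη] at hq1
    have : q1 * η ≤ q * η := by gcongr
    nlinarith
  linarith

end
end Pool.Agent.MP_3bf126_pr.H21
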