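import Pool.Agent.MP_3bf126_pr.H21.Side

/-! Soundness of all tables of a slab. -/

namespace Pool.Agent.MP_3bf126_pr.H21
open Filter Finset K
noncomputable section

lemma tabs_fN {n : ℕ} {k : ℕ → Bool} (h : fN n k = true) : k n = true := h

lemma tabs_fL {l : List ℕ} {k : List ℕ → Bool} (h : fL fN l k = true) : k l = true :=
  (fL_eq fN_eq l k).symm.trans h

lemma tabs_unq_len (w n x : ℕ) : (unq w n x).length = n := by
  induction n generalizing x with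
  | zero => rfl
  | succ n ih => exact congrArg Nat.succ (ih _)

lemma tabs_smu (l : List (ℕ × ℕ)) (s : ℕ) : smu l s = s + (l.map fun p => p.1).sum := by
  induction l generalizing s with
  | nil => rfl
  | cons p l ih =>
    rw [List.map_cons, List.sum_cons, ← Nat.add_assoc]
    exact ih _

lemma tabs_mu (past : List (ℕ × ℕ)) (d z : ℕ) (sB : St) (h : Hn) :
    (slOf past d z sB h).μ = ((smu past 0 : ℕ) : ℝ) / 2 ^ 24 := by
  rw [tabs_smu, Nat.zero_add]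
  show ((rP past).map fun b => (b.1 : ℝ) / ((2 ^ 24 : ℕ) : ℝ)).sum = _
  induction past with
  | nil => simp [rP]
  | cons p l ih =>
    rw [rP, List.map_cons, List.map_cons, List.sum_cons, List.map_cons, List.sum_cons]
    rw [rP] at ih
    rw [ih]
    push_cast
    ring

lemma tabs_np {ι : Type} {l : List ι} {f : ι → A} (h : ∀ b, NP (f b)) : NP (l.map f).sum := by
  induction l with
  | nil => exact np_zero
  | cons b l ih =>
    rw [List.map_cons, List.sum_cons]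
    exact (h b).add ih

lemma tabs_nn {ι : Type} {l : List ι} {f : ι → A} (h : ∀ b, NN (f b)) : NN (l.map f).sum := by
  induction l with
  | nil => exact nn_zero
  | cons b l ih =>
    rw [List.map_cons, List.sum_cons]
    exact (h b).add ih

lemma tabs_X : ((2 ^ 25 : ℕ) : ℝ) / 2 ^ 12 = 2 ^ 13 := by norm_num

/-- the blocks above the threshold together -/
lemma tabs_up {a : Sl} {φ β : ℝ → ℝ} {z E : ℕ} {nodes : List ℕ} {bs : List Bk} {α γ : ℝ} {g : ℕ → ℕ}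
    (hz : a.z = (z : ℝ) / 2 ^ 12) (hX : a.X = 2 ^ 13) (hzX : a.z ≤ a.X) (hN : Nd a.up φ (2 ^ 25) nodes bs)
    (hl : lastN nodes (2 ^ 25) = z) (hE : 0 < E) (hg : Rd E α γ g) (hβ : ∀ u, β u = α + γ * φ u) :
    DomI β a.z a.X ((E : ℝ) / 2 ^ 40) (((1 : ℝ) / 2 ^ 13) • (bs.map fun b => lamOf E g b.pts).sum) := by
  have h := hN.all hE hg
  rw [hl, tabs_X, ← hz, ← hX] at h
  have e : (1 : ℝ) / ((a.up.D : ℝ) * a.X) = 1 / 2 ^ 13 := by
    rw [hX]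
    show (1 : ℝ) / (((1 : ℕ) : ℝ) * 2 ^ 13) = _
    rw [Nat.cast_one, one_mul]
  rw [e, ← funext hβ] at h
  exact domI_of_up h le_rfl hzX

/-- the blocks below the threshold together -/
lemma tabs_low {a : Sl} {φ β : ℝ → ℝ} {z E : ℕ} {nodes : List ℕ} {bs : List Bk} {α γ : ℝ} {g : ℕ → ℕ}
    (hz : a.z = (z : ℝ) / 2 ^ 12) (hD : a.D = 2 ^ 24) (hN : Nd a φ z nodes bs)
    (hl : lastN nodes z = 0) (hE : 0 < E) (hg : Rd E α γ g) (hβ : ∀ u, β u = α + γ * φ u) :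
    a.DomW β 0 a.z ((E : ℝ) / 2 ^ 40) ((((1 : ℕ) : ℝ) / 2 ^ 37) • (bs.map fun b => lamOf E g b.pts).sum) := by
  have h := hN.all hE hg
  have e : (1 : ℝ) / ((a.D : ℝ) * 2 ^ 13) = ((1 : ℕ) : ℝ) / 2 ^ 37 := by
    rw [hD]
    norm_num
  rw [hl, ← hz, e, ← funext hβ, Nat.cast_zero, zero_div] at h
  exact h

/-- the top block -/
lemma tabs_top {a : Sl} {cx : Cx} {φ : ℝ → ℝ} {z y mu : ℕ} {b : Bk} {g : ℕ → ℕ} {t : Tb} (ha : a.OK)
    (hz : a.z = (z : ℝ) / 2 ^ 12) (hX : a.X = 2 ^ 13) (hmu : a.μ = (mu : ℝ) / 2 ^ 24) (hE : 0 < cx.E)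
    (h1 : b.x1 = 2 ^ 25) (h0 : b.x0 = y) (hy : y < 2 ^ 25) (hzy : z ≤ y) (hb : BkOK a.up φ b)
    (hg : Rd cx.E 0 1 g) (ht : SPT cx t (((mu : ℝ) / 2 ^ 37) • lamOf cx.E g b.pts)) :
    DT a cx φ ((y : ℝ) / 2 ^ 12) a.X t := by
  have h := hb.dom cx.E 0 1 g hE hg
  have e : (1 : ℝ) / ((a.up.D : ℝ) * 2 ^ 13) = 1 / 2 ^ 13 := by
    show (1 : ℝ) / (((1 : ℕ) : ℝ) * 2 ^ 13) = _
    rw [Nat.cast_one, one_mul]
  have e' : (fun x => 0 + 1 * φ x) = φ := by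
    funext x
    ring
  rw [h1, h0, tabs_X, e, e'] at h
  have zy : a.z ≤ (y : ℝ) / 2 ^ 12 := by
    rw [hz]
    gcongr
  have yX : (y : ℝ) / 2 ^ 12 ≤ 2 ^ 13 := by
    rw [← tabs_X]
    gcongr
  have h' := domW_top (a := a) yX (fun b hb => (ha.pz b hb).2.trans zy) (domI_of_up h zy yX)
  rw [hX]
  refine ⟨_, h', ?_⟩
  rw [smul_smul, hmu]
  convert ht using 2
  ring

lemma tabs_sc {cx : Cx} {t : Tb} {m : ℕ} {c : ℝ} {L : A} (hc : c = (m : ℝ) / 2 ^ 24)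
    (h : SPT cx t (((m : ℝ) / 2 ^ 37) • L)) : SPT cx t (c • ((1 : ℝ) / 2 ^ 13) • L) := by
  rw [smul_smul, hc]
  convert h using 2
  ring

lemma tabs_W {a : Sl} {v : Env} {p q r s : ℕ}
    (hW : WOK a v ((p : ℝ) / 2 ^ 64) ((q : ℝ) / 2 ^ 64) ((r : ℝ) / 2 ^ 64) ((s : ℝ) / 2 ^ 64)) :
    p + q ≤ 2 ^ 64 ∧ r + s ≤ 2 ^ 64 := by
  have h := hW.one
  rw [← add_div, ← add_div, ← add_div, div_le_one (by positivity)] at h
  have h' : p + q + r + s ≤ 2 ^ 64 := by exact_mod_cast h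
  generalize 2 ^ 64 = N at h'
  omega

lemma tabs_sd {a : Sl} {v : Env} {cx : Cx} {p q r s : ℕ} {na nb : Tb} {Na Nb : A} (ex : ℕ)
    (hW : WOK a v ((p : ℝ) / 2 ^ 64) ((q : ℝ) / 2 ^ 64) ((r : ℝ) / 2 ^ 64) ((s : ℝ) / 2 ^ 64))
    (pa : Pos Na) (pb : Pos Nb) (ma : SPT cx na (a.Δ • Na)) (mb : SPT cx nb (a.Δ • Nb))
    (oa : NP Na ∨ NN Na) (ob : NP Nb ∨ NN Nb) : SdOK a v cx ⟨p, q, r, s, na, nb, ex⟩ Na Nb :=
  ⟨hW, pa, pb, ma.2.1, mb.2.1, oa, ob⟩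

lemma tabs_dm {a : Sl} {cx : Cx} {N Λ : A} {W W' : ℕ} {β : ℝ → ℝ} {x0 x0' x1 : ℝ} {t : Tb} (e : x0 = x0')
    (h1 : a.DomW β x0 x1 ((cx.E : ℝ) / 2 ^ 40) Λ)
    (h2 : MXT cx (a.Δ • N) ((W : ℝ) / 2 ^ 64) ((W' : ℝ) / 2 ^ 64) t Λ) : DM a cx N W W' β x0' x1 t :=
  ⟨Λ, e ▸ h1, h2⟩

theorem tabs_spec {past : List (ℕ × ℕ)} {d z : ℕ} {sB sA : St} {h : Hn}
    (ha : (slOf past d z sB h).OK) (hv : EnvOK (slOf past d z sB h) (envOf d z sB sA h))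
    (hW : WOK (slOf past d z sB h) (envOf d z sB sA h) ((h.Waa : ℝ) / 2 ^ 64) ((h.Wab : ℝ) / 2 ^ 64)
      ((h.Wba : ℝ) / 2 ^ 64) ((h.Wbb : ℝ) / 2 ^ 64))
    (E0 : 0 < h.E) (E1 : h.E ≤ 2 ^ 44) (hs : srt past z = true) (he : sA.e = sB.e + d)
    (sA1 : (hiOf sA).Pairwise fun p r => r.1 ≤ p.1) (sA2 : ∀ p ∈ hiOf sA, z ≤ p.1 ∧ p.1 ≤ 2 ^ 25)
    (sB1 : (hiOf sB).Pairwise fun p r => r.1 ≤ p.1) (sB2 : ∀ p ∈ hiOf sB, z ≤ p.1 ∧ p.1 ≤ 2 ^ 25)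
    (hp : lastN (unq 26 h.np h.vp) (2 ^ 25) = z) (hm : lastN (unq 26 h.nm h.vm) z = 0)
    {k : ℕ → List Ct → List Ct → Bool}
    (hk : tabs false past d z (smu past 0) sB sA h (hiOf sB) (hiOf sA) k = true) :
    ∃ (fb : ℕ) (cm cp : List Ct) (x : ℕ) (ex : ℝ), hg (hiOf sB) ((z : ℝ) / 2 ^ 12) = (fb : ℝ) / 2 ^ 92 ∧
      (envOf d z sB sA h).ε * (slOf past d z sB h).X ≤ ex ∧
      CM (slOf past d z sB h) (envOf d z sB sA h) h.E h.J ex z cm ∧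
      CP (slOf past d z sB h) (envOf d z sB sA h) h.E h.J z x cp ∧ x ≤ 2 ^ 25 ∧
      cm.length ≤ h.nm ∧ cp.length ≤ h.np ∧ k fb cm cp = true := by
  have hY : Nat.mul (nat_lit 1073741824) h.E = 2 ^ 30 * h.E := by
    rw [n_mul]
    norm_num
  have h25 : nat_lit 33554432 = 2 ^ 25 := by norm_num
  have lp := tabs_unq_len 26 h.np h.vp
  have lm := tabs_unq_len 26 h.nm h.vm
  have hmu := tabs_mu past d z sB h
  obtain ⟨W1, W2⟩ := tabs_W hW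
  unfold tabs at hk
  iterate 10 replace hk := tabs_fN hk
  beta_reduce at hk
  iterate 2 replace hk := tabs_fL hk
  beta_reduce at hk
  rw [hY, h25] at hk
  have hc : CxOK ⟨mkMask 4096, h.E, 2 ^ 30 * h.E, Nat.shiftLeft h.E (nat_lit 37),
      Nat.mul (nat_lit 1073741824) (Nat.shiftLeft h.E (nat_lit 37)), h.ww, h.pad, h.qs, ones h.J, h.J⟩ :=
    ⟨isMask_mk _, E0, E1, rfl, n_shl _ _, ones_eq _⟩
  obtain ⟨cx, hcx⟩ : ∃ cx : Cx, cx = ⟨mkMask 4096, h.E, 2 ^ 30 * h.E, Nat.shiftLeft h.E (nat_lit 37),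
      Nat.mul (nat_lit 1073741824) (Nat.shiftLeft h.E (nat_lit 37)), h.ww, h.pad, h.qs, ones h.J, h.J⟩ :=
    ⟨_, rfl⟩
  rw [← hcx] at hk hc
  have cE : h.E = cx.E := by rw [hcx]
  have cJ : h.J = cx.J := by rw [hcx]
  clear hcx
  rw [cE] at hk E0
  rw [cE, cJ]
  generalize unq 26 h.np h.vp = np at hk hp lp
  generalize unq 26 h.nm h.vm = nm at hk hm lm
  have hz : (slOf past d z sB h).z = (z : ℝ) / 2 ^ 12 := rfl
  have hX : (slOf past d z sB h).X = 2 ^ 13 := rfl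
  have hD : (slOf past d z sB h).D = 2 ^ 24 := rfl
  have hP : (slOf past d z sB h).past = rP past := rfl
  have hΔ : (slOf past d z sB h).Δ = (d : ℝ) / 2 ^ 24 := by
    show (d : ℝ) / ((2 ^ 24 : ℕ) : ℝ) = _
    norm_num
  have hsa : (slOf past d z sB h).sa = ((2048 + sA.e : ℕ) : ℝ) / 2 ^ 24 := by
    show ((2048 + sB.e + d : ℕ) : ℝ) / ((2 ^ 24 : ℕ) : ℝ) = _
    rw [he, Nat.add_assoc]
    norm_num
  have hsb : (slOf past d z sB h).sb = ((2048 + sB.e : ℕ) : ℝ) / 2 ^ 24 := by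
    show ((2048 + sB.e : ℕ) : ℝ) / ((2 ^ 24 : ℕ) : ℝ) = _
    norm_num
  have hφb : (slOf past d z sB h).φb = hg (hiOf sB) := rfl
  have hTb : (slOf past d z sB h).Tb = (sB.T : ℝ) / 2 ^ 80 := rfl
  have hcb : (slOf past d z sB h).cb = (sB.c : ℝ) / 2 ^ 92 := rfl
  have hφu : (envOf d z sB sA h).φu = hg (hiOf sA) := rfl
  have hTu : (envOf d z sB sA h).Tu = (h.Tu : ℝ) / 2 ^ 80 := rfl
  have hcl : (envOf d z sB sA h).cl = (h.cl : ℝ) / 2 ^ 92 := rfl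
  have hcu : (envOf d z sB sA h).cu = (sA.c : ℝ) / 2 ^ 92 := rfl
  have hkk : (envOf d z sB sA h).k = (h.kk : ℝ) / 2 ^ 80 := rfl
  have hε : (envOf d z sB sA h).ε = (h.ep : ℝ) / 2 ^ 92 := rfl
  generalize slOf past d z sB h = a at *
  generalize envOf d z sB sA h = v at *
  have D0 := ha.D0
  have u0 : 0 < a.up.D := Nat.one_pos
  have zl : a.z ≤ (lastN np (2 ^ 25) : ℝ) / 2 ^ 12 := by rw [hp, hz]
  have l0 : (0 : ℝ) ≤ (lastN nm z : ℝ) / 2 ^ 12 := by positivity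
  obtain ⟨uA, fa, sa, ma', ra, NA, IA, SA, hk⟩ :=
    walk_spec (hg_cont _) u0 (inv_top (a := a) sA1 fun p hp => (sA2 p hp).2) zl hk
  obtain ⟨uB, fb, sb, mb', rb, NB, IB, SB, hk⟩ :=
    walk_spec (hg_cont _) u0 (inv_top (a := a) sB1 fun p hp => (sB2 p hp).2) zl hk
  rw [hp] at IA IB
  obtain ⟨dA, -, -, -, -, MA, -, -, hk⟩ :=
    walk_spec (hg_cont _) D0 (inv_low hP D0 hz (fun p hp => (sA2 p hp).1) hs IA SA) l0 hk
  obtain ⟨dB, -, -, -, -, MB, -, -, hk⟩ :=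
    walk_spec (hg_cont _) D0 (inv_low hP D0 hz (fun p hp => (sB2 p hp).1) hs IB SB) l0 hk
  have hfb := IB.at
  rw [← hφu] at NA MA
  rw [← hφb] at NB MB
  generalize smu past 0 = mu at hk hmu
  -- below the threshold
  obtain ⟨ma, hma, hk⟩ := accB_spec E0 hk
  obtain ⟨mb, hmb, hk⟩ := accB_spec E0 hk
  obtain ⟨na, hna, oa, hk⟩ := expo_spec hc hma hk
  obtain ⟨nb, hnb, ob, hk⟩ := expo_spec hc hmb hk
  obtain ⟨ea, hea, -, hk⟩ := expo_spec hc hma hk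
  obtain ⟨eb, heb, -, hk⟩ := expo_spec hc hmb hk
  iterate 5 replace hk := tabs_fN hk
  beta_reduce at hk
  replace hna := tabs_sc hΔ hna
  replace hnb := tabs_sc hΔ hnb
  replace hea := tabs_sc hmu hea
  replace heb := tabs_sc hmu heb
  obtain ⟨ua, hua, hk⟩ := mixT_spec hc W1 hea hna oa hk
  obtain ⟨ub, hub, hk⟩ := mixT_spec hc W2 heb hnb ob hk
  iterate 2 replace hk := tabs_fN hk
  beta_reduce at hk
  have dA1 := tabs_up (β := fun u => -v.φu u) hz hX ha.zX NA hp E0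
    ((rd_R cx.E).max (Nat.sub (2 ^ 30 * cx.E) (Nat.shiftRight fa (nat_lit 52)) / cx.E * cx.E))
    fun u => by ring
  have dB1 := tabs_up (β := fun u => -a.φb u) hz hX ha.zX NB hp E0
    ((rd_R cx.E).max (Nat.sub (2 ^ 30 * cx.E) (Nat.shiftRight fb (nat_lit 52)) / cx.E * cx.E))
    fun u => by ring
  have pz : ∀ b ∈ a.past, b.2 ≤ a.z := fun b hb => (ha.pz b hb).2
  have npl : ∀ (w : ℕ) (l : List Bk), NP (((1 : ℝ) / 2 ^ 13) • (l.map fun b => lamOf cx.E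
      (fun m => max (Nat.sub (2 ^ 30 * cx.E) m) (Nat.sub (2 ^ 30 * cx.E) w / cx.E * cx.E)) b.pts).sum) :=
    fun w l => NP.smul _ (tabs_np fun b => lamOf_np E0 (fun m => max_le (Nat.sub_le _ _)
      ((Nat.div_mul_le_self _ _).trans (Nat.sub_le _ _))) _)
  have r1 : ∀ e : ℕ, ((Nat.shiftLeft (Nat.add (nat_lit 2048) e) (nat_lit 56) : ℕ) : ℝ) =
      ((2048 + e : ℕ) : ℝ) / 2 ^ 24 * 2 ^ 80 := fun e => by
    rw [n_shl, n_add]
    push_cast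
    ring
  have sd1 := tabs_sd (Nat.add (Nat.shiftRight h.ep (nat_lit 15)) (nat_lit 1)) hW dA1.1 dB1.1 hna hnb
    (Or.inl (npl _ _)) (Or.inl (npl _ _))
  have m1 := tabs_dm hz (domW_top ha.zX pz dA1) hua
  have m2 := tabs_dm hz (domW_top ha.zX pz dB1) hub
  have q1 : ((Nat.add (Nat.shiftLeft (Nat.add (nat_lit 2048) sA.e) (nat_lit 56)) h.Tu : ℕ) : ℝ) =
      (a.sa + v.Tu) * 2 ^ 80 := by
    rw [n_add, Nat.cast_add, r1, hsa, hTu]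
    ring
  have q2 : ((Nat.add (Nat.shiftLeft (Nat.add (nat_lit 2048) sB.e) (nat_lit 56)) sB.T : ℕ) : ℝ) =
      (a.sb + a.Tb) * 2 ^ 80 := by
    rw [n_add, Nat.cast_add, r1, hsb, hTb]
    ring
  have q3 : (h.cl : ℝ) = v.cl * 2 ^ 92 := by
    rw [hcl]
    ring
  have q4 : (sB.c : ℝ) = a.cb * 2 ^ 92 := by
    rw [hcb]
    ring
  obtain ⟨-, -, -, -, cm, -, -, -, -, hcm, lcm, hk⟩ :=
    sideM_spec ha hv hc sd1 hD dA1 dB1 q1 q2 q3 q4 MA MB hm hz.ge m1 m2 hk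
  clear sd1 m1 m2 q1 q2 q3 q4
  clear hma hmb hna hnb hea heb hua hub dA1 dB1 oa ob npl
  -- above the threshold
  obtain ⟨ma, hma, hk⟩ := accB_spec E0 hk
  obtain ⟨mb, hmb, hk⟩ := accB_spec E0 hk
  obtain ⟨na, hna, oa, hk⟩ := expo_spec hc hma hk
  obtain ⟨nb, hnb, ob, hk⟩ := expo_spec hc hmb hk
  obtain ⟨mc, hmc, hk⟩ := accB_spec E0 hk
  obtain ⟨md, hmd, hk⟩ := accB_spec E0 hk
  obtain ⟨ea, hea, -, hk⟩ := expo_spec hc hmc hk
  obtain ⟨eb, heb, -, hk⟩ := expo_spec hc hmd hk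
  iterate 2 replace hk := tabs_fN hk
  beta_reduce at hk
  replace hna := tabs_sc hΔ hna
  replace hnb := tabs_sc hΔ hnb
  have dA1 := tabs_up (β := v.φu) hz hX ha.zX NA hp E0
    ((rd_F cx.E).max (2 ^ 30 * cx.E / cx.E * cx.E)) fun u => by ring
  have dB1 := tabs_up (β := a.φb) hz hX ha.zX NB hp E0
    ((rd_F cx.E).max (2 ^ 30 * cx.E / cx.E * cx.E)) fun u => by ring
  have dA2 := tabs_low (β := fun u => v.φu u - 1) hz hD MA hm E0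
    ((rd_N cx.E).max (Nat.sub (Nat.add (Nat.add (2 ^ 30 * cx.E) (Nat.shiftRight fa (nat_lit 52))) (nat_lit 1))
      (nat_lit 1099511627776) / cx.E * cx.E)) fun u => by ring
  have dB2 := tabs_low (β := fun u => a.φb u - 1) hz hD MB hm E0
    ((rd_N cx.E).max (Nat.sub (Nat.add (Nat.add (2 ^ 30 * cx.E) (Nat.shiftRight fb (nat_lit 52))) (nat_lit 1))
      (nat_lit 1099511627776) / cx.E * cx.E)) fun u => by ring
  have nnl : ∀ (w : ℕ) (l : List Bk), NN (((1 : ℝ) / 2 ^ 13) • (l.map fun b => lamOf cx.E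
      (fun m => max (Nat.add (Nat.add (2 ^ 30 * cx.E) m) (nat_lit 1)) w) b.pts).sum) :=
    fun w l => NN.smul _ (tabs_nn fun b => lamOf_nn E0 (fun m => le_max_of_le_left
      ((Nat.le_add_right _ _).trans (Nat.le_add_right _ _))) _)
  have HK := hk
  cases np with
  | nil =>
    have e : uA = [] := NA
    rw [e] at HK
    exact absurd HK Bool.false_ne_true
  | cons y ys =>
  obtain ⟨tA, uA', eA, a1, a0, hy, bA, NA⟩ := NA
  obtain ⟨tB, uB', eB, b1, b0, -, bB, NB⟩ := NB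
  rw [eA, eB] at HK
  replace hp : lastN ys y = z := hp
  have zy : z ≤ y := hp ▸ NA.le
  obtain ⟨la, ra, hra, hk⟩ := expB_spec hc HK
  obtain ⟨lb, rb, hrb, hk⟩ := expB_spec hc hk
  obtain ⟨ba, hba, hk⟩ := mixT_spec hc W1 hea hna oa hk
  obtain ⟨bb, hbb, hk⟩ := mixT_spec hc W2 heb hnb ob hk
  iterate 2 replace hk := tabs_fN hk
  beta_reduce at hk
  have r2 : ∀ c : ℕ, ((Nat.add (Nat.shiftLeft (2 ^ 30 * cx.E) (nat_lit 52)) c : ℕ) : ℝ) =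
      cx.YB * 2 ^ 52 + (c : ℝ) / 2 ^ 92 * 2 ^ 92 := fun c => by
    rw [n_add, n_shl, hc.YB]
    push_cast
    ring
  have yX : (y : ℝ) / 2 ^ 12 ≤ a.X := by
    rw [hX, ← tabs_X]
    gcongr
  have sd1 := tabs_sd 0 hW dA1.1 dB1.1 hna hnb (Or.inr (nnl _ _)) (Or.inr (nnl _ _))
  have m1 := tabs_dm rfl dA2 hba
  have m2 := tabs_dm rfl dB2 hbb
  have t1 := tabs_top ha hz hX hmu E0 a1 a0 hy zy bA ((rd_F cx.E).max la) hra
  have t2 := tabs_top ha hz hX hmu E0 b1 b0 hy zy bB ((rd_F cx.E).max lb) hrb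
  have q0 : (h.kk : ℝ) = v.k * 2 ^ 80 := by
    rw [hkk]
    ring
  have q1 := r1 sA.e
  have q2 := r1 sB.e
  have q3 := r2 sA.c
  have q4 := r2 sB.c
  rw [← hsa] at q1
  rw [← hsb] at q2
  rw [← hcu] at q3
  rw [← hcb] at q4
  obtain ⟨-, -, -, -, cp, -, -, -, -, hcp, lcp, hk⟩ :=
    sideP_spec ha hv hc sd1 rfl dA1 dB1 hz hmu q0 q1 q2 q3 q4 m1 m2 NA NB hp yX t1 t2 hk
  refine ⟨fb, cm, cp, y, _, hfb, ?_, hcm, hcp, hy.le, (lcm.trans lm).le, ?_, hk⟩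
  · rw [hε, hX]
    show _ ≤ ((Nat.add (Nat.shiftRight h.ep (nat_lit 15)) (nat_lit 1) : ℕ) : ℝ) / 2 ^ 64
    rw [n_add, n_shr]
    have e1 : h.ep < (h.ep / 2 ^ 15 + 1) * 2 ^ 15 := by
      rw [← Nat.div_lt_iff_lt_mul (by positivity)]
      exact Nat.lt_succ_self _
    have e2 : (h.ep : ℝ) ≤ ((h.ep / 2 ^ 15 + 1 : ℕ) : ℝ) * 2 ^ 15 := by exact_mod_cast e1.le
    change _ ≤ ((h.ep / 2 ^ 15 + 1 : ℕ) : ℝ) / 2 ^ 64
    generalize ((h.ep / 2 ^ 15 + 1 : ℕ) : ℝ) = r at e2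
    rw [le_div_iff₀ (by positivity)]
    linarith
  · rw [lcp, ← lp, List.length_cons]
    exact Nat.le_succ _

end
end Pool.Agent.MP_3bf126_pr.H21
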